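import Mathlib

set_option autoImplicit false

namespace LeadInv
open FreeGroup hiding map_mul map_one map_inv

section defs
variable {X : Type}

/-- The defining relations of `Inv⟨X | w = 1 (w ∈ rels)⟩` on words over `X ∪ X⁻¹`
(`(x, true)` is `x`, `(x, false)` is `x⁻¹`, `invRev` is the formal inverse of a word):
the Vagner relations and the relators. -/
inductive Rel (rels : Set (List (X × Bool))) : FreeMonoid (X × Bool) → FreeMonoid (X × Bool) → Prop
  | vag1 (w : List (X × Bool)) : Rel rels (.ofList (w ++ invRev w ++ w)) (.ofList w)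
  | vag2 (w v : List (X × Bool)) :
      Rel rels (.ofList (w ++ invRev w ++ (v ++ invRev v))) (.ofList (v ++ invRev v ++ (w ++ invRev w)))
  | rel (w : List (X × Bool)) : w ∈ rels → Rel rels (.ofList w) 1

/-- The special inverse monoid `Inv⟨X | w = 1 (w ∈ rels)⟩`. -/
abbrev InvM (rels : Set (List (X × Bool))) : Type := (conGen (Rel rels)).Quotient

/-- The element of `Inv⟨X | w = 1 (w ∈ rels)⟩` represented by a word. -/
def cls (rels : Set (List (X × Bool))) (w : List (X × Bool)) : InvM rels :=
  (conGen (Rel rels)).mk' (.ofList w)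

variable {S : Type} [Monoid S]

/-- The minimum group congruence. -/
def Sigma (s t : S) : Prop := ∃ e, e * e = e ∧ e * s = e * t

/-- The natural partial order. -/
def NatLe (s t : S) : Prop := ∃ f, f * f = f ∧ s = f * t

/-- `E`-unitary. -/
def EUnitary (S : Type) [Monoid S] : Prop := ∀ e s : S, e * e = e → NatLe e s → s * s = s

/-- Right units (the `R`-class of `1`). -/
def RightUnit (s : S) : Prop := ∃ t, s * t = 1

/-- The prefix monoid (the image of the right units in `S/σ`) is right reversible. -/
def PrefixRightReversible (S : Type) [Monoid S] : Prop :=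
  ∀ a b : S, RightUnit a → RightUnit b → ∃ c d, RightUnit c ∧ RightUnit d ∧ Sigma (a * c) (b * d)

end defs

section alg
variable {S : Type} [Monoid S]

structure IL (i : S → S) : Prop where
  mul : ∀ a b, i (a * b) = i b * i a
  ii : ∀ a, i (i a) = a
  v1 : ∀ a, a * i a * a = a
  v2 : ∀ a b, a * i a * (b * i b) = b * i b * (a * i a)

variable {i : S → S} (h : IL i)
include h

lemma IL.idem (a : S) : a * i a * (a * i a) = a * i a := by
  rw [← mul_assoc, h.v1]

lemma IL.ru {a t : S} (e : a * t = 1) : a * i a = 1 := by
  calc a * i a = a * i a * (a * t) := by rw [e, mul_one]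
    _ = 1 := by rw [← mul_assoc, h.v1, e]

lemma IL.one : i 1 = 1 := by simpa using h.v1 1

lemma IL.eq_of {u v : S} (e : u * i v = 1) : u = v := by
  have e' : v * i u = 1 := by
    have := congrArg i e
    rwa [h.mul, h.ii, h.one] at this
  have c := h.v2 (i u) (i v)
  simp only [h.ii] at c
  calc u = v * i u * u := by rw [e', one_mul]
    _ = u * i v * v * (i u * u) := by rw [e, one_mul, mul_assoc]
    _ = u * (i v * v * (i u * u)) := by simp only [mul_assoc]
    _ = u * i u * u * i v * v := by rw [← c]; simp only [mul_assoc]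
    _ = v := by rw [h.v1, e, one_mul]

def Le (i : S → S) (a b : S) : Prop := ∃ t, a = t * i t * b

lemma IL.le_left {a b : S} (c : S) (e : Le i a b) : Le i (c * a) (c * b) := by
  obtain ⟨t, rfl⟩ := e
  refine ⟨c * t, ?_⟩
  have c2 := h.v2 (i c) t
  simp only [h.ii] at c2
  calc c * (t * i t * b) = c * i c * c * (t * i t * b) := by rw [h.v1]
    _ = c * (i c * c * (t * i t)) * b := by simp only [mul_assoc]
    _ = _ := by rw [c2, h.mul]; simp only [mul_assoc]

lemma IL.le_trans {a b c : S} (e : Le i a b) (e' : Le i b c) : Le i a c := by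
  obtain ⟨t, rfl⟩ := e
  obtain ⟨s, rfl⟩ := e'
  refine ⟨t * i t * s, ?_⟩
  rw [h.mul, h.mul, h.ii]
  calc t * i t * (s * i s * c) = t * i t * (t * i t) * (s * i s) * c := by
        rw [h.idem]; simp only [mul_assoc]
    _ = t * i t * (t * i t * (s * i s)) * c := by simp only [mul_assoc]
    _ = _ := by rw [h.v2 t s]; simp only [mul_assoc]

lemma IL.sigma {u v t : S} (e : u * i v = t * i t) : Sigma u v := by
  obtain ⟨s, hs⟩ : Le i (u * (i v * v * 1)) (u * 1) := h.le_left u ⟨i v, by rw [h.ii]⟩
  have e1 : s * i s * u = t * i t * v := by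
    rw [mul_one, mul_one] at hs
    rw [← hs, ← e, mul_assoc]
  refine ⟨s * i s * (t * i t), ?_, ?_⟩
  · calc s * i s * (t * i t) * (s * i s * (t * i t))
        = s * i s * (t * i t * (s * i s)) * (t * i t) := by simp only [mul_assoc]
      _ = s * i s * (s * i s) * (t * i t * (t * i t)) := by rw [h.v2 t s]; simp only [mul_assoc]
      _ = _ := by rw [h.idem, h.idem]
  · calc s * i s * (t * i t) * u = t * i t * (s * i s * u) := by rw [h.v2 s t, mul_assoc]
      _ = t * i t * (t * i t) * v := by rw [e1]; simp only [mul_assoc]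
      _ = s * i s * (s * i s) * u := by rw [h.idem, h.idem, e1]
      _ = _ := by rw [mul_assoc (s * i s), e1]; simp only [mul_assoc]

end alg

variable {X : Type} (rels : Set (List (X × Bool)))

lemma cls_append (u v : List (X × Bool)) : cls rels (u ++ v) = cls rels u * cls rels v := by
  simp [cls, FreeMonoid.ofList_append]

lemma cls_nil : cls rels [] = 1 := rfl

lemma cls_surj (s : InvM rels) : ∃ w, s = cls rels w := by
  obtain ⟨w, rfl⟩ := (conGen (Rel rels)).mk'_surjective s
  exact ⟨w.toList, rfl⟩

lemma cls_of {u v : FreeMonoid (X × Bool)} (h : Rel rels u v) :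
    cls rels u.toList = cls rels v.toList :=
  (conGen (Rel rels)).eq.2 (ConGen.Rel.of _ _ h)

lemma cls_v1 (w : List (X × Bool)) :
    cls rels w * cls rels (invRev w) * cls rels w = cls rels w := by
  rw [← cls_append, ← cls_append]
  exact cls_of rels (.vag1 w)

lemma cls_v2 (w v : List (X × Bool)) :
    cls rels w * cls rels (invRev w) * (cls rels v * cls rels (invRev v)) =
      cls rels v * cls rels (invRev v) * (cls rels w * cls rels (invRev w)) := by
  simp only [← cls_append]
  exact cls_of rels (.vag2 w v)

lemma cls_rel {w : List (X × Bool)} (h : w ∈ rels) : cls rels w = 1 := cls_of rels (.rel w h)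

lemma cls_inv {u v : FreeMonoid (X × Bool)} (h : conGen (Rel rels) u v) :
    cls rels (invRev u.toList) = cls rels (invRev v.toList) := by
  induction h with
  | of u v h =>
    cases h with
    | vag1 w =>
      have := cls_v1 rels (invRev w)
      simpa [invRev_append, cls_append, mul_assoc] using this
    | vag2 w v =>
      have := cls_v2 rels v w
      simpa [invRev_append, cls_append, mul_assoc] using this
    | rel w hw =>
      have := cls_v1 rels w
      rw [cls_rel rels hw] at this
      simpa [cls_nil] using this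
  | refl => rfl
  | symm _ ih => exact ih.symm
  | trans _ _ h1 h2 => exact h1.trans h2
  | mul _ _ h1 h2 => simp only [FreeMonoid.toList_mul, invRev_append, cls_append, h1, h2]

def iv : InvM rels → InvM rels :=
  Quotient.lift (fun u : FreeMonoid (X × Bool) => cls rels (invRev u.toList))
    fun _ _ h => cls_inv rels h

lemma iv_cls (w : List (X × Bool)) : iv rels (cls rels w) = cls rels (invRev w) := rfl

lemma il : IL (iv rels) where
  mul a b := by
    obtain ⟨a, rfl⟩ := cls_surj rels a
    obtain ⟨b, rfl⟩ := cls_surj rels b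
    rw [← cls_append, iv_cls, iv_cls, iv_cls, invRev_append, cls_append]
  ii a := by
    obtain ⟨a, rfl⟩ := cls_surj rels a
    rw [iv_cls, iv_cls, invRev_invRev]
  v1 a := by
    obtain ⟨a, rfl⟩ := cls_surj rels a
    exact cls_v1 rels a
  v2 a b := by
    obtain ⟨a, rfl⟩ := cls_surj rels a
    obtain ⟨b, rfl⟩ := cls_surj rels b
    exact cls_v2 rels a b

/-! ### evaluation in groups -/

def ev {K : Type} [Group K] (f : X → K) (w : List (X × Bool)) : K := lift f (mk w)

section ev
variable {K : Type} [Group K] (f : X → K)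

@[simp] lemma ev_nil : ev f [] = 1 := by simp [ev, ← one_eq_mk]
@[simp] lemma ev_append (u v : List (X × Bool)) : ev f (u ++ v) = ev f u * ev f v := by
  rw [ev, ev, ev, ← mul_mk, map_mul]
@[simp] lemma ev_invRev (u : List (X × Bool)) : ev f (invRev u) = (ev f u)⁻¹ := by
  rw [ev, ev, ← inv_mk, map_inv]
@[simp] lemma ev_t (x : X) (u : List (X × Bool)) : ev f ((x, true) :: u) = f x * ev f u := by
  simp [ev]
@[simp] lemma ev_f (x : X) (u : List (X × Bool)) : ev f ((x, false) :: u) = (f x)⁻¹ * ev f u := by
  simp [ev]

def pos (u : List X) : List (X × Bool) := u.map fun x => (x, true)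

@[simp] lemma ev_pos (u : List X) : ev f (pos u) = (u.map f).prod := by
  induction u with
  | nil => simp [pos]
  | cons x u ih => simpa [pos] using ih

end ev


/-! ### the abstract construction -/

section data
variable {G : Type} [Group G] (val : X → G) (z : X) (R : Set (List X × List X))

def relsOf (R : Set (List X × List X)) : Set (List (X × Bool)) :=
  (fun p => pos p.1 ++ invRev (pos p.2)) '' R

structure Data : Prop where
  valid : ∀ p ∈ R, (p.1.map val).prod = (p.2.map val).prod
  cz : ∀ x, ([x, z], [z, x]) ∈ R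
  inv : ∀ x, ∃ x' k, (x :: x', List.replicate k z) ∈ R ∧ (x' ++ [x], List.replicate k z) ∈ R
  pres : ∀ (K : Type) [Group K] (f : X → K), (∀ p ∈ R, (p.1.map f).prod = (p.2.map f).prod) →
    ∀ q, ev val q = 1 → ev f q = 1

def pc (u : List X) : InvM (relsOf R) := cls (relsOf R) (pos u)

lemma pc_append (u v : List X) : pc R (u ++ v) = pc R u * pc R v := by
  simp [pc, pos, cls_append]

lemma pc_cons (x : X) (v : List X) : pc R (x :: v) = pc R [x] * pc R v := pc_append R [x] v

lemma pc_nil : pc R [] = 1 := rfl

lemma pc_rep (k : ℕ) : pc R (List.replicate k z) = pc R [z] ^ k := by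
  induction k with
  | zero => rfl
  | succ k ih => rw [List.replicate_succ, pc_cons, ih, pow_succ']

lemma pc_one {p : List X × List X} (h : p ∈ R) : pc R p.1 * iv _ (pc R p.2) = 1 := by
  rw [pc, pc, iv_cls, ← cls_append]
  exact cls_rel _ ⟨p, h, rfl⟩

lemma pc_eq {p : List X × List X} (h : p ∈ R) : pc R p.1 = pc R p.2 :=
  (il _).eq_of (pc_one R h)

variable {val z R} (D : Data val z R)
include D

lemma Data.ru (u : List X) : pc R u * iv _ (pc R u) = 1 := by
  induction u with
  | nil => rw [pc_nil, (il _).one, mul_one]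
  | cons x u ih =>
    have h1 := pc_one R (D.cz x)
    simp only at h1
    rw [pc_cons, mul_assoc] at h1
    have h2 := (il _).ru h1
    rw [pc_cons, (il _).mul, mul_assoc, ← mul_assoc (pc R u), ih, one_mul, h2]

lemma Data.cancel {a b : InvM (relsOf R)} {k : ℕ} (h : a * pc R [z] ^ k = b * pc R [z] ^ k) :
    a = b := by
  have := congrArg (· * iv _ (pc R (List.replicate k z))) h
  simpa only [← pc_rep, mul_assoc, D.ru, mul_one] using this

lemma Data.comm (u : List X) : Commute (pc R u) (pc R [z]) := by
  induction u with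
  | nil => exact Commute.one_left _
  | cons x u ih =>
    rw [pc_cons]
    refine Commute.mul_left ?_ ih
    have := pc_eq R (D.cz x)
    simp only at this
    rwa [pc_cons, pc_cons R z] at this

def Data.con : Con (FreeMonoid X × Multiplicative ℕ) where
  r a b := pc R a.1.toList * pc R [z] ^ b.2.toAdd = pc R b.1.toList * pc R [z] ^ a.2.toAdd
  iseqv := ⟨fun _ => rfl, fun h => h.symm, fun {a b c} h1 h2 => D.cancel (k := b.2.toAdd) (by
    rw [mul_assoc, ← pow_add, add_comm, pow_add, ← mul_assoc, h1, mul_assoc, ← pow_add, add_comm,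
      pow_add, ← mul_assoc, h2, mul_assoc, mul_assoc, ← pow_add, ← pow_add, add_comm])⟩
  mul' {a b c d} h1 h2 := by
    simp only [Prod.fst_mul, Prod.snd_mul, FreeMonoid.toList_mul, pc_append, toAdd_mul, pow_add]
    calc _ = pc R a.1.toList * pc R [z] ^ b.2.toAdd * (pc R c.1.toList * pc R [z] ^ d.2.toAdd) := by
          simp only [mul_assoc]
          rw [← mul_assoc (pc R c.1.toList), ((D.comm _).pow_right _).eq, mul_assoc]
      _ = _ := by
          rw [h1, h2]
          simp only [mul_assoc]
          rw [← mul_assoc (pc R d.1.toList), ((D.comm _).pow_right a.2.toAdd).eq, mul_assoc,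
            ((D.comm _).pow_right c.2.toAdd).eq]

lemma Data.pos_eq {u v : List X} (h : (u.map val).prod = (v.map val).prod) :
    pc R u = pc R v := by
  have hu : ∀ x, ∃ f : D.con.Quotientˣ, (f : D.con.Quotient) = D.con.mk' (.of x, 1) := by
    intro x
    obtain ⟨x', k, h1, h2⟩ := D.inv x
    refine ⟨⟨D.con.mk' (.of x, 1), D.con.mk' (.ofList x', .ofAdd k), ?_, ?_⟩, rfl⟩
    · rw [← map_mul, ← map_one D.con.mk']
      refine D.con.eq.2 ?_
      have := pc_eq R h1
      simp only [pc_rep] at this
      change pc R (x :: x') * _ = pc R [] * _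
      simp [this, pc_nil]
    · rw [← map_mul, ← map_one D.con.mk']
      refine D.con.eq.2 ?_
      have := pc_eq R h2
      simp only [pc_rep] at this
      change pc R (x' ++ [x]) * _ = pc R [] * _
      simp [this, pc_nil]
  choose f hf using hu
  have key : ∀ u : List X, ((u.map f).prod : D.con.Quotientˣ) = D.con.mk' (.ofList u, 1) := by
    intro u
    induction u with
    | nil => exact (map_one D.con.mk').symm
    | cons x u ih =>
      rw [List.map_cons, List.prod_cons, Units.val_mul, ih, hf, ← map_mul]
      rfl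
  have h1 := D.pres _ f (fun p hp => Units.ext (by
    rw [key, key]
    refine D.con.eq.2 ?_
    change pc R p.1 * _ = pc R p.2 * _
    rw [pc_eq R hp])) (pos u ++ invRev (pos v)) (by simp [h])
  simp only [ev_append, ev_invRev, ev_pos, mul_inv_eq_one] at h1
  have h2 := congrArg Units.val h1
  rw [key, key] at h2
  have h3 := D.con.eq.1 h2
  change pc R u * _ = pc R v * _ at h3
  simpa using h3

lemma Data.le_pos (q : List (X × Bool)) : ∃ N u, Le (iv _) (cls _ q * pc R [z] ^ N) (pc R u) ∧
    (u.map val).prod = ev val q * val z ^ N := by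
  induction q with
  | nil => exact ⟨0, [], ⟨1, by simp [(il _).one, cls_nil, pc_nil]⟩, by simp⟩
  | cons l q ih =>
    obtain ⟨N, u, h1, h2⟩ := ih
    obtain ⟨x, s⟩ := l
    have e : cls (relsOf R) ((x, s) :: q) = cls _ [(x, s)] * cls _ q := cls_append _ [_] q
    cases s
    · obtain ⟨x', k, h3, -⟩ := D.inv x
      refine ⟨N + k, x' ++ u, ?_, ?_⟩
      · have h4 := pc_eq R h3
        simp only [pc_rep] at h4
        have e2 : cls (relsOf R) [(x, false)] = iv _ (pc R [x]) := rfl
        obtain ⟨t, ht⟩ := h1
        refine (il _).le_trans (b := iv _ (pc R [x]) * (pc R u * pc R [z] ^ k)) ?_ ?_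
        · rw [e, e2, pow_add, mul_assoc]
          refine (il _).le_left _ ⟨t, ?_⟩
          rw [← mul_assoc, ht, mul_assoc]
        · refine ⟨iv _ (pc R [x]), ?_⟩
          rw [((D.comm u).pow_right k).eq, ← h4, (il _).ii, pc_cons R x x', pc_append]
          simp only [mul_assoc]
      · have h4 := D.valid _ h3
        have h5 : Commute (val z) (u.map val).prod := by
          refine Commute.list_prod_right _ _ fun g hg => ?_
          obtain ⟨y, -, rfl⟩ := List.mem_map.1 hg
          have := D.valid _ (D.cz y)
          simpa [Commute, SemiconjBy] using this.symm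
        simp only [List.map_cons, List.prod_cons, List.map_replicate, List.prod_replicate] at h4
        rw [List.map_append, List.prod_append, ev_f, pow_add, mul_assoc, ← mul_assoc (ev val q),
          ← h2, ← (h5.pow_left k).eq, ← h4]
        group
    · refine ⟨N, x :: u, ?_, by simp [h2, mul_assoc]⟩
      rw [e, pc_cons, mul_assoc]
      exact (il _).le_left _ h1

lemma Data.idem {q : List (X × Bool)} (h : ev val q = 1) :
    ∃ t, cls (relsOf R) q = t * iv _ t := by
  obtain ⟨N, u, ⟨t, h1⟩, h2⟩ := D.le_pos q
  rw [D.pos_eq (u := u) (v := List.replicate N z) (by simp [h2, h]), pc_rep] at h1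
  exact ⟨t, D.cancel h1⟩

def Data.phi : InvM (relsOf R) →* G :=
  (conGen (Rel (relsOf R))).lift (FreeMonoid.lift fun l => ev val [l]) (by
    have e : ∀ w : List (X × Bool),
        (FreeMonoid.lift fun l : X × Bool => ev val [l]) (.ofList w) = ev val w := by
      intro w
      induction w with
      | nil => simp
      | cons l w ih =>
        rw [FreeMonoid.ofList_cons, map_mul, ih, FreeMonoid.lift_eval_of, ← ev_append]; rfl
    refine Con.conGen_le.2 fun a b h => ?_
    rw [Con.ker_rel]
    cases h with
    | vag1 w => simp only [e]; simp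
    | vag2 w v => simp only [e]; simp
    | rel w hw =>
      obtain ⟨p, hp, rfl⟩ := hw
      simp only [e, map_one]
      simp [D.valid p hp])

lemma Data.phi_cls (w : List (X × Bool)) : D.phi (cls _ w) = ev val w := by
  induction w with
  | nil => simp [cls_nil]
  | cons l w ih =>
    rw [show l :: w = [l] ++ w from rfl, cls_append, map_mul, ih, ev_append]
    rfl

lemma Data.phi_idem {e : InvM (relsOf R)} (h : e * e = e) : D.phi e = 1 := by
  have := congrArg D.phi h
  rwa [map_mul, mul_eq_left] at this

theorem Data.eunitary : EUnitary (InvM (relsOf R)) := by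
  rintro e s he ⟨f, hf, rfl⟩
  have h1 := D.phi_idem he
  rw [map_mul, D.phi_idem hf, one_mul] at h1
  obtain ⟨s, rfl⟩ := cls_surj _ s
  obtain ⟨t, ht⟩ := D.idem (by rwa [D.phi_cls] at h1)
  rw [ht, (il _).idem]

theorem Data.sigma_iff (u v : List (X × Bool)) :
    Sigma (cls (relsOf R) u) (cls _ v) ↔ ev val u = ev val v := by
  constructor
  · rintro ⟨e, he, h⟩
    have := congrArg D.phi h
    simpa [D.phi_idem he, D.phi_cls] using this
  · intro h
    obtain ⟨t, ht⟩ := D.idem (q := u ++ invRev v) (by simp [h])
    rw [cls_append, ← iv_cls] at ht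
    exact (il _).sigma ht

theorem Data.reversible : PrefixRightReversible (InvM (relsOf R)) := by
  intro a b _ _
  obtain ⟨a, rfl⟩ := cls_surj _ a
  obtain ⟨b, rfl⟩ := cls_surj _ b
  obtain ⟨N, u, -, h⟩ := D.le_pos (invRev a ++ b)
  refine ⟨pc R u, pc R (List.replicate N z), ⟨_, D.ru _⟩, ⟨_, D.ru _⟩, ?_⟩
  rw [pc, pc, ← cls_append, ← cls_append, D.sigma_iff]
  simp [h, mul_assoc]

end data

section dom
variable {G : Type} [Group G] (val : X → G)

def InP (g : G) : Prop := ∃ u : List X, g = (u.map val).prod

def Dm : List (X × Bool) → G → Prop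
  | [], g => InP val g
  | l :: w, g => InP val g ∧ Dm w (g * ev val [l])

lemma Dm.hd : ∀ {w : List (X × Bool)} {g : G}, Dm val w g → InP val g
  | [], _, h => h
  | _ :: _, _, h => h.1

lemma Dm.tl : ∀ {w : List (X × Bool)} {g : G}, Dm val w g → InP val (g * ev val w)
  | [], _, h => by rw [ev_nil, mul_one]; exact h
  | l :: w, g, h => by
    have := Dm.tl h.2
    rwa [mul_assoc, ← ev_append] at this

lemma dm_append (u v : List (X × Bool)) : ∀ g, Dm val (u ++ v) g ↔
    Dm val u g ∧ Dm val v (g * ev val u) := by
  induction u with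
  | nil => intro g; simpa [Dm] using fun h => Dm.hd val h
  | cons l u ih =>
    intro g
    simp only [List.cons_append, Dm, ih, and_assoc]
    rw [mul_assoc, ← ev_append]
    rfl

lemma dm_inv (w : List (X × Bool)) : ∀ g, Dm val (invRev w) (g * ev val w) ↔ Dm val w g := by
  induction w with
  | nil => intro g; simp [Dm]
  | cons l w ih =>
    intro g
    have e : invRev (l :: w) = invRev w ++ invRev [l] := invRev_append (L₁ := [l])
    have e2 : ev val (l :: w) = ev val [l] * ev val w := ev_append val [l] w
    have e3 : ∀ g', Dm val (invRev [l]) g' ↔ InP val g' ∧ InP val (g' * (ev val [l])⁻¹) := by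
      intro g'
      rw [← ev_invRev]
      rfl
    rw [e, dm_append, e2, ← mul_assoc, ih, e3, Dm]
    simp only [ev_invRev, mul_inv_cancel_right]
    exact ⟨fun h => ⟨h.2.2, h.1⟩, fun h => ⟨h.2, h.2.hd val, h.1⟩⟩

lemma dm_pos (u : List X) : ∀ g, Dm val (pos u) g ↔ InP val g := by
  induction u with
  | nil => intro g; rfl
  | cons x u ih =>
    intro g
    change InP val g ∧ Dm val (pos u) _ ↔ _
    rw [ih]
    refine ⟨fun h => h.1, fun ⟨v, hv⟩ => ⟨⟨v, hv⟩, v ++ [x], by simp [hv]⟩⟩

variable {val} {z : X} {R : Set (List X × List X)} (D : Data val z R)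
include D

lemma Data.dm_con {u v : FreeMonoid (X × Bool)} (h : conGen (Rel (relsOf R)) u v) :
    ∀ g, Dm val u.toList g ↔ Dm val v.toList g := by
  have hv : ∀ {u v : FreeMonoid (X × Bool)}, conGen (Rel (relsOf R)) u v →
      ev val u.toList = ev val v.toList := fun {u v} h => by
    rw [← D.phi_cls, ← D.phi_cls]
    exact congrArg D.phi ((conGen _).eq.2 h)
  induction h with
  | of u v h =>
    intro g
    cases h with
    | vag1 w => simp [dm_append, dm_inv]
    | vag2 w v => simp [dm_append, dm_inv, and_comm]
    | rel w hw =>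
      obtain ⟨p, hp, rfl⟩ := hw
      simp only [FreeMonoid.toList_ofList, dm_append, FreeMonoid.toList_one, Dm]
      rw [show ev val (pos p.1) = ev val (pos p.2) by simp [D.valid p hp], dm_inv]
      simp [dm_pos]
  | refl => exact fun _ => Iff.rfl
  | symm _ ih => exact fun g => (ih g).symm
  | trans _ _ h1 h2 => exact fun g => (h1 g).trans (h2 g)
  | mul h _ h1 h2 =>
    intro g
    simp only [FreeMonoid.toList_mul, dm_append, h1, h2, hv h]

theorem Data.ru_iff (u : List X) (N : ℕ) (r : List (X × Bool))
    (hr : r = pos u ++ invRev (pos (List.replicate N z))) :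
    cls (relsOf R) (r ++ invRev r) = cls _ [] ↔ InP val (ev val r) := by
  constructor
  · intro h
    have := (D.dm_con ((conGen _).eq.1 h) 1).2 ⟨[], rfl⟩
    simp only [FreeMonoid.toList_ofList, dm_append] at this
    simpa using this.1.tl val
  · rintro ⟨p, hp⟩
    have h1 : pc R u = pc R (p ++ List.replicate N z) := D.pos_eq (by
      rw [List.map_append, List.prod_append, ← hp, hr]; simp)
    have h2 : cls (relsOf R) r = pc R p := by
      rw [hr, cls_append, ← iv_cls]
      change pc R u * iv _ (pc R _) = _
      rw [h1, pc_append, mul_assoc, D.ru, mul_one]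
    rw [cls_append, ← iv_cls, h2, D.ru, cls_nil]

end dom

/-- building the data from group level hypotheses -/
theorem exists_data [Finite X] {G : Type} [Group G] (val : X → G) (z : X)
    (hc : ∀ x, val x * val z = val z * val x)
    (hi : ∀ x, ∃ (x' : List X) (k : ℕ), val x * (x'.map val).prod = val z ^ k)
    (R0 : Set (List X × List X)) (h0 : R0.Finite)
    (hv : ∀ p ∈ R0, (p.1.map val).prod = (p.2.map val).prod)
    (hp : ∀ (K : Type) [Group K] (f : X → K), (∀ x, f x * f z = f z * f x) →
      (∀ p ∈ R0, (p.1.map f).prod = (p.2.map f).prod) → ∀ q, ev val q = 1 → ev f q = 1) :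
    ∃ R : Set (List X × List X), R.Finite ∧ Data val z R := by
  choose x' k hk using hi
  refine ⟨R0 ∪ Set.range (fun x => ([x, z], [z, x])) ∪
    Set.range (fun x => (x :: x' x, List.replicate (k x) z)) ∪
    Set.range (fun x => (x' x ++ [x], List.replicate (k x) z)),
    ((h0.union (Set.finite_range _)).union (Set.finite_range _)).union (Set.finite_range _),
    ?_, fun x => .inl (.inl (.inr ⟨x, rfl⟩)),
    fun x => ⟨x' x, k x, .inl (.inr ⟨x, rfl⟩), .inr ⟨x, rfl⟩⟩, fun K _ f hf => hp K f
      (fun x => by simpa using hf _ (.inl (.inl (.inr ⟨x, rfl⟩))))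
      fun p h => hf p (.inl (.inl (.inl h)))⟩
  rintro p (((h | ⟨x, rfl⟩) | ⟨x, rfl⟩) | ⟨x, rfl⟩)
  · exact hv p h
  · simp [hc]
  · simp [hk]
  · have h1 : Commute (val x) (val z ^ k x) := Commute.pow_right (hc x) _
    simp only [List.map_append, List.prod_append, List.map_cons, List.map_nil, List.prod_cons,
      List.prod_nil, mul_one, List.map_replicate, List.prod_replicate]
    apply mul_left_cancel (a := val x)
    rw [← mul_assoc, hk, h1.eq]

end LeadInv
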