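import Mathlib

set_option autoImplicit false

namespace LeadPrim

@[fun_prop] def PR {α β : Type} [Primcodable α] [Primcodable β] (f : α → β) : Prop := Primrec f

variable {α β γ : Type} [Primcodable α] [Primcodable β] [Primcodable γ]

lemma PR.prim {f : α → β} (h : PR f) : Primrec f := h
lemma PR.of {f : α → β} (h : Primrec f) : PR f := h
lemma PR.of_eq {f g : α → β} (h : PR f) (e : ∀ a, f a = g a) : PR g := Primrec.of_eq h e

@[fun_prop] lemma PR.id : PR (fun a : α => a) := Primrec.id
@[fun_prop] lemma PR.const (b : β) : PR (fun _ : α => b) := Primrec.const b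
@[fun_prop] lemma PR.comp {g : β → γ} {f : α → β} (hg : PR g) (hf : PR f) :
    PR (fun a => g (f a)) := Primrec.comp hg hf
@[fun_prop] lemma PR.pair {f : α → β} {g : α → γ} (hf : PR f) (hg : PR g) :
    PR (fun a => (f a, g a)) := Primrec.pair hf hg
@[fun_prop] lemma PR.fst {f : α → β × γ} (hf : PR f) : PR (fun a => (f a).1) :=
  Primrec.fst.comp hf
@[fun_prop] lemma PR.snd {f : α → β × γ} (hf : PR f) : PR (fun a => (f a).2) :=
  Primrec.snd.comp hf
@[fun_prop] lemma PR.cons {f : α → β} {g : α → List β} (hf : PR f) (hg : PR g) :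
    PR (fun a => f a :: g a) := Primrec.list_cons.comp hf hg
@[fun_prop] lemma PR.append {f g : α → List β} (hf : PR f) (hg : PR g) :
    PR (fun a => f a ++ g a) := Primrec.list_append.comp hf hg
@[fun_prop] lemma PR.map {f : α → β → γ} {l : α → List β}
    (hf : PR fun p : α × β => f p.1 p.2) (hl : PR l) : PR (fun a => (l a).map (f a)) :=
  Primrec.list_map hl hf
@[fun_prop] lemma PR.flatMap {f : α → β → List γ} {l : α → List β}
    (hf : PR fun p : α × β => f p.1 p.2) (hl : PR l) : PR (fun a => (l a).flatMap (f a)) :=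
  Primrec.list_flatMap hl hf
@[fun_prop] lemma PR.filterMap {f : α → β → Option γ} {l : α → List β}
    (hf : PR fun p : α × β => f p.1 p.2) (hl : PR l) : PR (fun a => (l a).filterMap (f a)) :=
  Primrec.listFilterMap hl hf
@[fun_prop] lemma PR.foldr {f : α → β → γ → γ} {l : α → List β} {i : α → γ}
    (hf : PR fun p : α × β × γ => f p.1 p.2.1 p.2.2) (hi : PR i) (hl : PR l) :
    PR (fun a => (l a).foldr (f a) (i a)) :=
  Primrec.list_foldr (h := fun a (p : β × γ) => f a p.1 p.2) hl hi hf
@[fun_prop] lemma PR.foldl {f : α → γ → β → γ} {l : α → List β} {i : α → γ}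
    (hf : PR fun p : α × γ × β => f p.1 p.2.1 p.2.2) (hi : PR i) (hl : PR l) :
    PR (fun a => (l a).foldl (f a) (i a)) :=
  Primrec.list_foldl (h := fun a (p : γ × β) => f a p.1 p.2) hl hi hf
@[fun_prop] lemma PR.flatten {l : α → List (List β)} (hl : PR l) : PR (fun a => (l a).flatten) :=
  Primrec.list_flatten.comp hl
@[fun_prop] lemma PR.length {l : α → List β} (hl : PR l) : PR (fun a => (l a).length) :=
  Primrec.list_length.comp hl
@[fun_prop] lemma PR.reverse {l : α → List β} (hl : PR l) : PR (fun a => (l a).reverse) :=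
  Primrec.list_reverse.comp hl
@[fun_prop] lemma PR.tail {l : α → List β} (hl : PR l) : PR (fun a => (l a).tail) :=
  Primrec.list_tail.comp hl
@[fun_prop] lemma PR.head? {l : α → List β} (hl : PR l) : PR (fun a => (l a).head?) :=
  Primrec.list_head?.comp hl
@[fun_prop] lemma PR.range {f : α → ℕ} (hf : PR f) : PR (fun a => List.range (f a)) :=
  Primrec.list_range.comp hf
@[fun_prop] lemma PR.take {f : α → ℕ} {l : α → List β} (hf : PR f) (hl : PR l) :
    PR (fun a => (l a).take (f a)) := Primrec.list_take.comp hf hl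
@[fun_prop] lemma PR.drop {f : α → ℕ} {l : α → List β} (hf : PR f) (hl : PR l) :
    PR (fun a => (l a).drop (f a)) := Primrec.list_drop.comp hf hl
@[fun_prop] lemma PR.getElem? {f : α → ℕ} {l : α → List β} (hl : PR l) (hf : PR f) :
    PR (fun a => (l a)[f a]?) := Primrec.list_getElem?.comp hl hf
@[fun_prop] lemma PR.optGetD {f : α → Option β} {d : α → β} (hf : PR f) (hd : PR d) :
    PR (fun a => (f a).getD (d a)) := Primrec.option_getD.comp hf hd
@[fun_prop] lemma PR.getD {f : α → ℕ} {l : α → List β} {d : α → β} (hl : PR l) (hf : PR f)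
    (hd : PR d) : PR (fun a => (l a).getD (f a) (d a)) :=
  (PR.optGetD (PR.getElem? hl hf) hd).of_eq fun _ => List.getD_eq_getElem?_getD.symm
@[fun_prop] lemma PR.replicate {f : α → ℕ} {g : α → β} (hf : PR f) (hg : PR g) :
    PR (fun a => List.replicate (f a) (g a)) :=
  (PR.map (f := fun a _ => g a) (by fun_prop) (PR.range hf)).of_eq fun a => by simp
@[fun_prop] lemma PR.some {f : α → β} (hf : PR f) : PR (fun a => some (f a)) :=
  Primrec.option_some.comp hf
@[fun_prop] lemma PR.optMap {f : α → β → γ} {o : α → Option β}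
    (hf : PR fun p : α × β => f p.1 p.2) (ho : PR o) : PR (fun a => (o a).map (f a)) :=
  Primrec.option_map ho hf
@[fun_prop] lemma PR.optBind {f : α → β → Option γ} {o : α → Option β}
    (hf : PR fun p : α × β => f p.1 p.2) (ho : PR o) : PR (fun a => (o a).bind (f a)) :=
  Primrec.option_bind ho hf
@[fun_prop] lemma PR.inl {f : α → β} (hf : PR f) : PR (fun a => (Sum.inl (f a) : β ⊕ γ)) :=
  Primrec.sumInl.comp hf
@[fun_prop] lemma PR.inr {f : α → γ} (hf : PR f) : PR (fun a => (Sum.inr (f a) : β ⊕ γ)) :=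
  Primrec.sumInr.comp hf
@[fun_prop] lemma PR.succ {f : α → ℕ} (hf : PR f) : PR (fun a => (f a).succ) :=
  Primrec.succ.comp hf
@[fun_prop] lemma PR.add {f g : α → ℕ} (hf : PR f) (hg : PR g) : PR (fun a => f a + g a) :=
  Primrec.nat_add.comp hf hg
@[fun_prop] lemma PR.sub {f g : α → ℕ} (hf : PR f) (hg : PR g) : PR (fun a => f a - g a) :=
  Primrec.nat_sub.comp hf hg
@[fun_prop] lemma PR.mul {f g : α → ℕ} (hf : PR f) (hg : PR g) : PR (fun a => f a * g a) :=
  Primrec.nat_mul.comp hf hg
@[fun_prop] lemma PR.div {f g : α → ℕ} (hf : PR f) (hg : PR g) : PR (fun a => f a / g a) :=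
  Primrec.nat_div.comp hf hg
@[fun_prop] lemma PR.mod {f g : α → ℕ} (hf : PR f) (hg : PR g) : PR (fun a => f a % g a) :=
  Primrec.nat_mod.comp hf hg
@[fun_prop] lemma PR.max {f g : α → ℕ} (hf : PR f) (hg : PR g) : PR (fun a => max (f a) (g a)) :=
  Primrec.nat_max.comp hf hg
@[fun_prop] lemma PR.min {f g : α → ℕ} (hf : PR f) (hg : PR g) : PR (fun a => min (f a) (g a)) :=
  Primrec.nat_min.comp hf hg
@[fun_prop] lemma PR.pow {f g : α → ℕ} (hf : PR f) (hg : PR g) : PR (fun a => f a ^ g a) :=
  (Primrec₂.unpaired'.mp Nat.Primrec.pow).comp hf hg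
@[fun_prop] lemma PR.natPair {f g : α → ℕ} (hf : PR f) (hg : PR g) :
    PR (fun a => Nat.pair (f a) (g a)) := Primrec₂.natPair.comp hf hg
@[fun_prop] lemma PR.unpair {f : α → ℕ} (hf : PR f) : PR (fun a => Nat.unpair (f a)) :=
  Primrec.unpair.comp hf
@[fun_prop] lemma PR.encode {f : α → β} (hf : PR f) : PR (fun a => Encodable.encode (f a)) :=
  Primrec.encode.comp hf
@[fun_prop] lemma PR.sum {l : α → List ℕ} (hl : PR l) : PR (fun a => (l a).sum) :=
  (PR.foldr (f := fun _ b c => b + c) (i := fun _ => 0) (by fun_prop) (by fun_prop) hl).of_eq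
    fun _ => rfl
@[fun_prop] lemma PR.iterate {f : α → β → β} {n : α → ℕ} {i : α → β}
    (hf : PR fun p : α × β => f p.1 p.2) (hn : PR n) (hi : PR i) :
    PR (fun a => (f a)^[n a] (i a)) := Primrec.nat_iterate hn hi hf
@[fun_prop] lemma PR.cond {c : α → Bool} {f g : α → β} (hc : PR c) (hf : PR f) (hg : PR g) :
    PR (fun a => bif c a then f a else g a) := Primrec.cond hc hf hg
@[fun_prop] lemma PR.ite {c : α → Prop} [DecidablePred c] {f g : α → β}
    (hc : PR fun a => decide (c a)) (hf : PR f) (hg : PR g) :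
    PR (fun a => if c a then f a else g a) :=
  (PR.cond hc hf hg).of_eq fun a => by by_cases h : c a <;> simp [h]
@[fun_prop] lemma PR.not {f : α → Bool} (hf : PR f) : PR (fun a => !f a) := Primrec.not.comp hf
@[fun_prop] lemma PR.and {f g : α → Bool} (hf : PR f) (hg : PR g) : PR (fun a => f a && g a) :=
  Primrec.and.comp hf hg
@[fun_prop] lemma PR.or {f g : α → Bool} (hf : PR f) (hg : PR g) : PR (fun a => f a || g a) :=
  Primrec.or.comp hf hg
@[fun_prop] lemma PR.decide_eq {f g : α → β} {inst : ∀ a, Decidable (f a = g a)} (hf : PR f)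
    (hg : PR g) : PR (fun a => @decide (f a = g a) (inst a)) := by
  classical
  exact PR.of_eq (Primrec.eq.comp hf hg).decide fun a => by simp
@[fun_prop] lemma PR.decide_le {f g : α → ℕ} {inst : ∀ a, Decidable (f a ≤ g a)} (hf : PR f)
    (hg : PR g) : PR (fun a => @decide (f a ≤ g a) (inst a)) :=
  PR.of_eq (Primrec.nat_le.comp hf hg).decide fun a => by simp
@[fun_prop] lemma PR.decide_lt {f g : α → ℕ} {inst : ∀ a, Decidable (f a < g a)} (hf : PR f)
    (hg : PR g) : PR (fun a => @decide (f a < g a) (inst a)) :=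
  PR.of_eq (Primrec.nat_lt.comp hf hg).decide fun a => by simp
@[fun_prop] lemma PR.decide_ne {f g : α → β} {inst : ∀ a, Decidable (f a ≠ g a)} (hf : PR f)
    (hg : PR g) : PR (fun a => @decide (f a ≠ g a) (inst a)) := by
  classical
  exact PR.of_eq (PR.not (PR.decide_eq (inst := fun _ => inferInstance) hf hg)) fun a => by simp
@[fun_prop] lemma PR.decide_and {p q : α → Prop} [DecidablePred p] [DecidablePred q]
    {inst : ∀ a, Decidable (p a ∧ q a)} (hp : PR fun a => decide (p a))
    (hq : PR fun a => decide (q a)) : PR (fun a => @decide (p a ∧ q a) (inst a)) :=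
  (PR.and hp hq).of_eq fun a => by simp
@[fun_prop] lemma PR.decide_or {p q : α → Prop} [DecidablePred p] [DecidablePred q]
    {inst : ∀ a, Decidable (p a ∨ q a)} (hp : PR fun a => decide (p a))
    (hq : PR fun a => decide (q a)) : PR (fun a => @decide (p a ∨ q a) (inst a)) :=
  (PR.or hp hq).of_eq fun a => by simp
@[fun_prop] lemma PR.decide_not {p : α → Prop} [DecidablePred p]
    {inst : ∀ a, Decidable (¬ p a)} (hp : PR fun a => decide (p a)) :
    PR (fun a => @decide (¬ p a) (inst a)) :=
  (PR.not hp).of_eq fun a => by simp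
@[fun_prop] lemma PR.decide_coe {f : α → Bool} {inst : ∀ a, Decidable (f a = true)} (hf : PR f) :
    PR (fun a => @decide (f a = true) (inst a)) := hf.of_eq fun a => by simp
@[fun_prop] lemma PR.any {f : α → β → Bool} {l : α → List β}
    (hf : PR fun p : α × β => f p.1 p.2) (hl : PR l) : PR (fun a => (l a).any (f a)) :=
  (PR.foldr (f := fun a b c => f a b || c) (i := fun _ => false)
    (PR.or (PR.comp (f := fun p : α × β × Bool => (p.1, p.2.1)) hf (by fun_prop)) (by fun_prop))
    (by fun_prop) hl).of_eq fun a => by induction l a <;> simp_all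
@[fun_prop] lemma PR.all {f : α → β → Bool} {l : α → List β}
    (hf : PR fun p : α × β => f p.1 p.2) (hl : PR l) : PR (fun a => (l a).all (f a)) :=
  (PR.foldr (f := fun a b c => f a b && c) (i := fun _ => true)
    (PR.and (PR.comp (f := fun p : α × β × Bool => (p.1, p.2.1)) hf (by fun_prop)) (by fun_prop))
    (by fun_prop) hl).of_eq fun a => by induction l a <;> simp_all
@[fun_prop] lemma PR.filter {f : α → β → Bool} {l : α → List β}
    (hf : PR fun p : α × β => f p.1 p.2) (hl : PR l) : PR (fun a => (l a).filter (f a)) :=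
  (PR.flatMap (f := fun a b => bif f a b then [b] else []) (by fun_prop) hl).of_eq fun a => by
    induction l a with
    | nil => rfl
    | cons b t ih => cases h : f a b <;> simp_all

end LeadPrim
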