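import Mathlib
import Pool.Agent.Lib.helper11.HaltTM

set_option autoImplicit false

namespace LeadTwo

open Turing

/-- One step of a deterministic two-stack machine. -/
def step {Q A : Type} (δ : Q → A → A → Option (Q × List A × List A)) :
    Q × List A × List A → Option (Q × List A × List A)
  | (q, x :: l, y :: r) => (δ q x y).map fun p => (p.1, p.2.1 ++ l, p.2.2 ++ r)
  | _ => none

section tm
variable {Γ Q : Type} [Inhabited Γ] [Inhabited Q] (M : TM0.Machine Γ Q)

def keep : Option Γ → List (Option Γ)
  | none => [none]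
  | some _ => []

def dl (q : Q) (x y : Option Γ) : Option (Q × List (Option Γ) × List (Option Γ)) :=
  match M q (y.getD default) with
  | none => none
  | some (q', .write s) => some (q', [x], some s :: keep y)
  | some (q', .move .right) => some (q', [some (y.getD default), x], keep y)
  | some (q', .move .left) => some (q', keep x, [some (x.getD default), y])

def R (s : Q × List (Option Γ) × List (Option Γ)) (c : TM0.Cfg Γ Q) : Prop :=
  ∃ l r : List Γ, c.Tape = Tape.mk' (ListBlank.mk l) (ListBlank.mk r) ∧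
    s = (c.q, l.map some ++ [none], r.map some ++ [none])

omit [Inhabited Q] in
lemma pop (l : List Γ) : ∃ x t, l.map some ++ [none] = x :: t ∧ x.getD default = l.headI ∧
    keep x ++ t = l.tail.map some ++ [none] := by
  cases l with
  | nil => exact ⟨none, [], rfl, rfl, rfl⟩
  | cons a l => exact ⟨some a, _, rfl, rfl, rfl⟩

lemma respects : StateTransition.Respects (step (dl M)) (TM0.step M) R := by
  rintro s ⟨q, T⟩ ⟨l, r, hc, rfl⟩
  simp only at hc
  subst hc
  obtain ⟨x, t, e1, e2, e3⟩ := pop l
  obtain ⟨y, t', f1, f2, f3⟩ := pop r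
  simp only [e1, f1, step, dl, f2]
  rcases hM : M q r.headI with _ | ⟨q', (_ | _) | s⟩
  · simp [TM0.step, hM]
  · refine ⟨⟨q', (Tape.mk' (ListBlank.mk l) (ListBlank.mk r)).move .left⟩,
      ⟨l.tail, l.headI :: r, by simp [Tape.move_left_mk'], ?_⟩,
      Relation.TransGen.single (by simp [TM0.step, hM])⟩
    simp [e3, e2, f1]
  · refine ⟨⟨q', (Tape.mk' (ListBlank.mk l) (ListBlank.mk r)).move .right⟩,
      ⟨r.headI :: l, r.tail, by simp [Tape.move_right_mk'], ?_⟩,
      Relation.TransGen.single (by simp [TM0.step, hM])⟩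
    simp [f3, e1]
  · refine ⟨⟨q', (Tape.mk' (ListBlank.mk l) (ListBlank.mk r)).write s⟩,
      ⟨l, s :: r.tail, by simp [Tape.write_mk'], ?_⟩,
      Relation.TransGen.single (by simp [TM0.step, hM])⟩
    simp [f3, e1]

end tm

theorem exists_two : ∃ (Q A : Type) (_ : Finite Q) (_ : Finite A)
    (δ : Q → A → A → Option (Q × List A × List A)) (q0 : Q) (b a0 a1 a2 : A),
    ¬ ComputablePred fun n : ℕ =>
      (StateTransition.eval (step δ) (q0, [b], a0 :: a1 :: (List.replicate n a2 ++ [b]))).Dom := by
  obtain ⟨Γ, Q, i1, i2, f1, f2, M, a0, a1, a2, hM⟩ := H11Halt.exists_tm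
  refine ⟨Q, Option Γ, f2, inferInstance, dl M, default, none, some a0, some a1, some a2,
    fun h => hM (h.of_eq fun n => ?_)⟩
  exact StateTransition.tr_eval_dom (respects M) (a₂ := TM0.init (a0 :: a1 :: List.replicate n a2))
    ⟨[], a0 :: a1 :: List.replicate n a2, rfl, by simp [TM0.init]⟩ |>.symm

end LeadTwo
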