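import Mathlib
import Pool.Agent.Lib.lead.TwoSt

set_option autoImplicit false

namespace LeadThue

open LeadTwo

/-- One rewriting step of a semi-Thue system. -/
def Rw {Γ : Type} (R : List Γ → List Γ → Prop) (w w' : List Γ) : Prop :=
  ∃ s u v t, R u v ∧ w = s ++ u ++ t ∧ w' = s ++ v ++ t

lemma Rw.ctx {Γ : Type} {R : List Γ → List Γ → Prop} {w w' : List Γ}
    (h : Relation.ReflTransGen (Rw R) w w') (s t : List Γ) :
    Relation.ReflTransGen (Rw R) (s ++ w ++ t) (s ++ w' ++ t) := by
  induction h with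
  | refl => exact .refl
  | tail _ h ih =>
    obtain ⟨s', u, v, t', r, rfl, rfl⟩ := h
    exact ih.tail ⟨s ++ s', u, v, t' ++ t, r, by simp, by simp⟩

inductive Lt (Q A : Type)
  | lf (a : A) | st (q : Q) | rt (a : A) | L | R | H

variable {Q A : Type} (δ : Q → A → A → Option (Q × List A × List A))

def mid (c : Q × List A × List A) : List (Lt Q A) :=
  c.2.1.reverse.map .lf ++ .st c.1 :: c.2.2.map .rt

def enc (c : Q × List A × List A) : List (Lt Q A) := .L :: (mid c ++ [.R])

inductive Ru : List (Lt Q A) → List (Lt Q A) → Prop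
  | mv {q x y p} : δ q x y = some p → Ru (mid (q, [x], [y])) (mid p)
  | hl {q x y} : δ q x y = none → Ru (mid (q, [x], [y])) [.H]
  | el (q) : Ru [.L, .st q] [.H]
  | er (q) : Ru [.st q, .R] [.H]
  | cl (z) : Ru [z, .H] [.H]
  | cr (z) : Ru [.H, z] [.H]

lemma strip {B : Type} (f : A → B) (hf : Function.Injective f) (e : B) (he : ∀ a, f a ≠ e) :
    ∀ (v r : List A) (t : List B), v.map f ++ t = r.map f ++ [e] →
      ∃ r', r = v ++ r' ∧ t = r'.map f ++ [e]
  | [], r, t, h => ⟨r, rfl, h⟩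
  | a :: v, [], t, h => absurd (List.cons.inj h).1 (he a)
  | a :: v, b :: r, t, h => by
    obtain ⟨r', h1, h2⟩ := strip f hf e he v r t (List.cons.inj h).2
    exact ⟨r', by rw [h1, hf (List.cons.inj h).1]; rfl, h2⟩

lemma split {s t : List (Lt Q A)} {q : Q} {c : Q × List A × List A}
    (h : enc c = s ++ .st q :: t) : c.1 = q ∧ s.reverse = c.2.1.map .lf ++ [.L] ∧
      t = c.2.2.map .rt ++ [.R] := by
  have h1 : c.1 = q := by
    have : Lt.st q ∈ enc c := by simp [h]
    simpa [enc, mid, eq_comm] using this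
  subst h1
  have : (Lt.L :: c.2.1.reverse.map .lf) ++ Lt.st c.1 :: (c.2.2.map .rt ++ [.R]) =
      s ++ .st c.1 :: t := by simpa [enc, mid] using h
  have := (List.append_cons_inj_of_notMem (by simp) (by simp)).mp this
  exact ⟨rfl, by simp [← this.1], this.2.2.symm⟩

lemma parse {s t : List (Lt Q A)} {p c : Q × List A × List A} (h : enc c = s ++ mid p ++ t) :
    ∃ l r, c = (p.1, p.2.1 ++ l, p.2.2 ++ r) ∧ s = .L :: l.reverse.map .lf ∧
      t = r.map .rt ++ [.R] := by
  obtain ⟨h1, h2, h3⟩ := split (s := s ++ p.2.1.reverse.map .lf) (t := p.2.2.map .rt ++ t)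
    (q := p.1) (by simpa [mid] using h)
  obtain ⟨r, h4, h5⟩ := strip Lt.rt (fun _ _ => Lt.rt.inj) .R (by simp) _ _ _ h3
  obtain ⟨l, h6, h7⟩ := strip Lt.lf (fun _ _ => Lt.lf.inj) .L (by simp) p.2.1 c.2.1 s.reverse
    (by simpa using h2)
  exact ⟨l, r, Prod.ext h1 (Prod.ext h6 h4), by simpa using congrArg List.reverse h7, h5⟩

lemma enc_ctx (p : Q × List A × List A) (l r : List A) : enc (p.1, p.2.1 ++ l, p.2.2 ++ r) =
    (.L :: l.reverse.map .lf) ++ mid p ++ (r.map .rt ++ [.R]) := by simp [enc, mid]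

def Good (w : List (Lt Q A)) : Prop := ∀ c, enc c = w → (StateTransition.eval (step δ) c).Dom

lemma dom_none {c : Q × List A × List A} (h : step δ c = none) :
    (StateTransition.eval (step δ) c).Dom :=
  Part.dom_iff_mem.mpr ⟨c, StateTransition.mem_eval.mpr ⟨.refl, h⟩⟩

lemma good_H {w : List (Lt Q A)} (h : Lt.H ∈ w) : Good δ w := by
  rintro c rfl
  simp [enc, mid] at h

lemma good_iff {w w' : List (Lt Q A)} (h : Rw (Ru δ) w w') : Good δ w ↔ Good δ w' := by
  obtain ⟨s, u, v, t, r, rfl, rfl⟩ := h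
  cases r with
  | @mv q x y p hp =>
    have st : ∀ l r, StateTransition.eval (step δ) (q, [x] ++ l, [y] ++ r) =
        StateTransition.eval (step δ) (p.1, p.2.1 ++ l, p.2.2 ++ r) := fun l r =>
      StateTransition.reaches_eval (.single (by simp [step, hp]))
    constructor
    · intro g c e
      obtain ⟨l, r, rfl, rfl, rfl⟩ := parse e
      exact st l r ▸ g _ (enc_ctx (q, [x], [y]) l r)
    · intro g c e
      obtain ⟨l, r, rfl, rfl, rfl⟩ := parse e
      exact (st l r).symm ▸ g _ (enc_ctx p l r)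
  | @hl q x y hp =>
    refine iff_of_true (fun c e => ?_) (good_H δ (by simp))
    obtain ⟨l, r, rfl, rfl, rfl⟩ := parse e
    exact dom_none δ (by simp [step, hp])
  | el q =>
    refine iff_of_true (fun ⟨q', l, r⟩ e => ?_) (good_H δ (by simp))
    have := (split (s := s ++ [.L]) (q := q) (t := t) (by simpa using e)).2.1
    cases l with
    | nil => exact dom_none δ rfl
    | cons a l => simp at this
  | er q =>
    refine iff_of_true (fun ⟨q', l, r⟩ e => ?_) (good_H δ (by simp))
    have := (split (s := s) (q := q) (t := .R :: t) (by simpa using e)).2.2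
    cases r with
    | nil => cases l <;> exact dom_none δ rfl
    | cons a l => simp at this
  | cl z => exact iff_of_true (good_H δ (by simp)) (good_H δ (by simp))
  | cr z => exact iff_of_true (good_H δ (by simp)) (good_H δ (by simp))

lemma clean (s t : List (Lt Q A)) : Relation.ReflTransGen (Rw (Ru δ)) (s ++ [.H] ++ t) [.H] := by
  induction s using List.reverseRecOn with
  | nil =>
    induction t with
    | nil => exact .refl
    | cons z t ih => exact .head ⟨[], _, _, t, .cr z, rfl, rfl⟩ ih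
  | append_singleton s z ih => exact .head ⟨s, _, _, t, .cl z, by simp, rfl⟩ ih

lemma reach (c : Q × List A × List A) (h : (StateTransition.eval (step δ) c).Dom) :
    Relation.ReflTransGen (Rw (Ru δ)) (enc c) [.H] := by
  obtain ⟨cf, hc⟩ := Part.dom_iff_mem.mp h
  obtain ⟨h1, h2⟩ := StateTransition.mem_eval.mp hc
  clear hc h
  induction h1 using Relation.ReflTransGen.head_induction_on with
  | refl =>
    rcases cf with ⟨q, _ | ⟨x, l⟩, r⟩
    · exact .head ⟨[], _, _, _, .el q, rfl, rfl⟩ (clean δ _ _)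
    rcases r with _ | ⟨y, r⟩
    · exact .head ⟨.L :: (x :: l).reverse.map .lf, _, _, [], .er q, by simp [enc, mid], rfl⟩
        (clean δ _ _)
    · exact .head ⟨_, _, _, _, .hl (by simpa [step] using h2), enc_ctx (q, [x], [y]) l r, rfl⟩
        (clean δ _ _)
  | @head c c' s _ ih =>
    rcases c with ⟨q, _ | ⟨x, l⟩, _ | ⟨y, r⟩⟩ <;> simp only [step, Option.mem_def, reduceCtorEq] at s
    obtain ⟨p, hp, rfl⟩ := Option.map_eq_some_iff.mp s
    exact .head ⟨_, _, _, _, .mv hp, enc_ctx (q, [x], [y]) l r, enc_ctx p l r⟩ ih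

/-- A finite semi-Thue system with undecidable reachability and undecidable word problem. -/
theorem exists_thue : ∃ (Γ : Type) (_ : Finite Γ) (R : List Γ → List Γ → Prop) (p s : List Γ)
    (a h : Γ) (Halts : ℕ → Prop), {x : List Γ × List Γ | R x.1 x.2}.Finite ∧
    (∀ u v, R u v → u ≠ [] ∧ v ≠ []) ∧ p ≠ [] ∧ ¬ ComputablePred Halts ∧
    (∀ n, Halts n → Relation.ReflTransGen (Rw R) (p ++ List.replicate n a ++ s) [h]) ∧
    ∀ n, Relation.EqvGen (Rw R) (p ++ List.replicate n a ++ s) [h] → Halts n := by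
  obtain ⟨Q, A, fQ, fA, δ, q0, b, a0, a1, a2, h0⟩ := exists_two
  have fin : Finite (Lt Q A) := Finite.of_surjective
    (fun x : A ⊕ Q ⊕ A ⊕ Fin 3 => match x with
      | .inl a => Lt.lf a
      | .inr (.inl q) => .st q
      | .inr (.inr (.inl a)) => .rt a
      | .inr (.inr (.inr i)) => ![.L, .R, .H] i) (by
      rintro (a | q | a | _ | _ | _)
      exacts [⟨.inl a, rfl⟩, ⟨.inr (.inl q), rfl⟩, ⟨.inr (.inr (.inl a)), rfl⟩,
        ⟨.inr (.inr (.inr 0)), rfl⟩, ⟨.inr (.inr (.inr 1)), rfl⟩, ⟨.inr (.inr (.inr 2)), rfl⟩])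
  have e : ∀ n, [Lt.L, .lf b, .st q0, .rt a0, .rt a1] ++ List.replicate n (.rt a2) ++ [.rt b, .R] =
      enc (q0, [b], a0 :: a1 :: (List.replicate n a2 ++ [b])) := fun n => by simp [enc, mid]
  refine ⟨Lt Q A, fin, Ru δ, [.L, .lf b, .st q0, .rt a0, .rt a1], [.rt b, .R], .rt a2, .H, _, ?_,
    fun u v r => by cases r <;> simp [mid], by simp, h0, fun n h => e n ▸ reach δ _ h,
    fun n h => ?_⟩
  · refine (((Set.finite_range fun x : Q × A × A => (mid (x.1, [x.2.1], [x.2.2]),
      ((δ x.1 x.2.1 x.2.2).map mid).getD [.H])).union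
      ((List.finite_length_le (Lt Q A) 2).prod (Set.finite_singleton [.H])))).subset ?_
    rintro ⟨u, v⟩ r
    cases r with
    | @mv q x y p hp => exact .inl ⟨(q, x, y), by simp [hp, mid]⟩
    | @hl q x y hp => exact .inl ⟨(q, x, y), by simp [hp, mid]⟩
    | _ => exact .inr ⟨le_refl 2, rfl⟩
  · have : ∀ w w', Relation.EqvGen (Rw (Ru δ)) w w' → (Good δ w ↔ Good δ w') := by
      intro w w' h
      induction h with
      | rel _ _ h => exact good_iff δ h
      | refl => rfl
      | symm _ _ _ ih => exact ih.symm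
      | trans _ _ _ _ _ ih ih' => exact ih.trans ih'
    exact (this _ _ h).mpr (good_H δ (by simp)) _ (e n).symm

end LeadThue
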