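import Mathlib
import Pool.Agent.Lib.lead.InvMon
import Pool.Agent.Lib.lead.SemiThue
import Pool.Agent.Lib.lead.PrimFun

set_option autoImplicit false

namespace LeadInv
open FreeGroup hiding map_mul map_one map_inv

/-! ### a fixed generalized correspondence problem -/

theorem exists_gpcp : ∃ (A : Type) (_ : Finite A) (Tl : Type) (_ : Finite Tl)
    (top bot : Tl → List A) (p s fin : List A) (a : A), ¬ ComputablePred fun n : ℕ =>
      ∃ w : List Tl, p ++ List.replicate n a ++ s ++ w.flatMap bot = w.flatMap top ++ fin := by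
  obtain ⟨Γ, fΓ, R, p, s, a, h, Halts, hR, -, -, hu, h1, h2⟩ := LeadThue.exists_thue
  have : Finite {x : List Γ × List Γ // R x.1 x.2} := hR
  let top : Option Γ ⊕ {x : List Γ × List Γ // R x.1 x.2} → List (Option Γ) :=
    Sum.elim (fun c => [c]) fun x => x.1.1.map some
  let bot : Option Γ ⊕ {x : List Γ × List Γ // R x.1 x.2} → List (Option Γ) :=
    Sum.elim (fun c => [c]) fun x => x.1.2.map some
  have ct : ∀ u : List Γ, (u.map fun c => Sum.inl (some c)).flatMap top = u.map some := by
    intro u; induction u <;> simp_all [top]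
  have cb : ∀ u : List Γ, (u.map fun c => Sum.inl (some c)).flatMap bot = u.map some := by
    intro u; induction u <;> simp_all [bot]
  have comp : ∀ c, Relation.ReflTransGen (LeadThue.Rw R) c [h] → ∃ w : List _,
      c.map some ++ [none] ++ w.flatMap bot = w.flatMap top ++ [some h, none] := by
    intro c hc
    induction hc using Relation.ReflTransGen.head_induction_on with
    | refl => exact ⟨[], rfl⟩
    | head hs _ ih =>
      obtain ⟨s', u, v, t, r, rfl, rfl⟩ := hs
      obtain ⟨w, hw⟩ := ih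
      refine ⟨(s'.map fun c => Sum.inl (some c)) ++ [.inr ⟨(u, v), r⟩] ++
        (t.map fun c => Sum.inl (some c)) ++ [.inl none] ++ w, ?_⟩
      simp only [List.flatMap_append, ct, cb, List.append_assoc, ← hw]
      simp [top, bot]
  have pre : ∀ (u x : List Γ) (r r' : List (Option Γ)),
      x.map some ++ none :: r = u.map some ++ r' → ∃ x', x = u ++ x' ∧
        x'.map some ++ none :: r = r' := by
    intro u
    induction u with
    | nil => exact fun x r r' h => ⟨x, rfl, h⟩
    | cons c u ih =>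
      intro x r r' h
      cases x with
      | nil => simp at h
      | cons d x =>
        simp only [List.map_cons, List.cons_append, List.cons.injEq, Option.some.injEq] at h
        obtain ⟨x', rfl, h'⟩ := ih x r r' h.2
        exact ⟨x', by rw [h.1]; rfl, h'⟩
  have sound : ∀ (w : List _) (x y : List Γ), x.map some ++ none :: (y.map some ++ w.flatMap bot) =
      w.flatMap top ++ [some h, none] → Relation.ReflTransGen (LeadThue.Rw R) (y ++ x) [h] := by
    intro w
    induction w with
    | nil =>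
      intro x y e
      obtain ⟨x', rfl, e'⟩ := pre [h] x _ [none] e
      cases x' with
      | nil =>
        obtain rfl : y = [] := by simpa using e'
        exact .refl
      | cons => simp at e'
    | cons τ w ih =>
      intro x y e
      rcases τ with (_ | c) | ⟨⟨u, v⟩, r⟩
      · cases x with
        | nil =>
          have := ih y [] (by simpa [top, bot] using e)
          simpa using this
        | cons => simp [top] at e
      · obtain ⟨x', rfl, e'⟩ := pre [c] x _ (w.flatMap top ++ [some h, none])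
          (by simpa [top] using e)
        have := ih x' (y ++ [c]) (by simpa [bot] using e')
        simpa using this
      · obtain ⟨x', rfl, e'⟩ := pre u x _ (w.flatMap top ++ [some h, none])
          (by simpa [top] using e)
        have := ih x' (y ++ v) (by simpa [bot] using e')
        exact .head ⟨y, u, v, x', r, by simp, rfl⟩ this
  refine ⟨Option Γ, inferInstance, _, inferInstance, top, bot, p.map some, s.map some ++ [none],
    [some h, none], some a, fun hc => hu (hc.of_eq fun n => ⟨fun ⟨w, hw⟩ => h2 n ?_, fun hn => ?_⟩)⟩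
  · have := sound w (p ++ List.replicate n a ++ s) [] (by simpa using hw)
    simp only [List.nil_append] at this
    clear hw
    generalize p ++ List.replicate n a ++ s = c at this
    induction this using Relation.ReflTransGen.head_induction_on with
    | refl => exact .refl _
    | head hs _ ih => exact .trans _ _ _ (.rel _ _ hs) ih
  · obtain ⟨w, hw⟩ := comp _ (h1 n hn)
    exact ⟨w, by simpa using hw⟩

/-! ### affine groups -/

@[ext] structure Aff (b : ℕ) where
  e : ℤ
  r : ℚ

variable {b : ℕ}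

def BB (b : ℕ) : ℚ := (b : ℚ) + 2

lemma BB_pos : 0 < BB b := by unfold BB; positivity
lemma BB_gt : 1 < BB b := by unfold BB; have : (0 : ℚ) ≤ b := Nat.cast_nonneg b; linarith

instance : Mul (Aff b) := ⟨fun x y => ⟨x.e + y.e, x.r + BB b ^ x.e * y.r⟩⟩
instance : One (Aff b) := ⟨⟨0, 0⟩⟩
instance : Inv (Aff b) := ⟨fun x => ⟨-x.e, -(BB b ^ (-x.e) * x.r)⟩⟩

@[simp] lemma mul_e (x y : Aff b) : (x * y).e = x.e + y.e := rfl
@[simp] lemma mul_r (x y : Aff b) : (x * y).r = x.r + BB b ^ x.e * y.r := rfl
@[simp] lemma one_e : (1 : Aff b).e = 0 := rfl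
@[simp] lemma one_r : (1 : Aff b).r = 0 := rfl
@[simp] lemma inv_e (x : Aff b) : (x⁻¹).e = -x.e := rfl
@[simp] lemma inv_r (x : Aff b) : (x⁻¹).r = -(BB b ^ (-x.e) * x.r) := rfl

instance : Group (Aff b) := Group.ofLeftAxioms
  (fun x y z => by ext <;> simp [zpow_add₀ BB_pos.ne', add_assoc, mul_add, mul_assoc])
  (fun x => by ext <;> simp) (fun x => by ext <;> simp)

def aa : Aff b := ⟨0, 1⟩
def tt : Aff b := ⟨1, 0⟩

lemma aa_zpow (m : ℤ) : (aa : Aff b) ^ m = ⟨0, m⟩ := by
  induction m using Int.induction_on with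
  | zero => rfl
  | succ n ih => rw [zpow_add_one, ih]; ext <;> simp [aa]
  | pred n ih => rw [zpow_sub_one, ih]; ext <;> simp [aa]; ring

lemma tt_pow (m : ℕ) : (tt : Aff b) ^ m = ⟨m, 0⟩ := by
  induction m with
  | zero => rfl
  | succ n ih => rw [pow_succ, ih]; ext <;> simp [tt]

lemma aff_rel : (tt : Aff b) * aa = aa ^ (b + 2) * tt := by
  rw [← zpow_natCast, aa_zpow]
  ext <;> simp [aa, tt, BB]

/-! ### normal forms -/

def nfS (b : ℕ) (s : ℕ × ℕ × ℕ × ℕ) (l : Bool × Bool) : ℕ × ℕ × ℕ × ℕ :=
  bif l.1 then (bif l.2 then (s.1, s.2.1, s.2.2.1, s.2.2.2 + 1)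
    else (s.1 + 1, (b + 2) * s.2.1, (b + 2) * s.2.2.1, s.2.2.2))
  else (bif l.2 then (s.1, s.2.1 + (b + 2) ^ s.2.2.2, s.2.2.1, s.2.2.2)
    else (s.1, s.2.1, s.2.2.1 + (b + 2) ^ s.2.2.2, s.2.2.2))

def nf (b : ℕ) (w : List (Bool × Bool)) : ℕ × ℕ × ℕ × ℕ := w.foldl (nfS b) (0, 0, 0, 0)

section nf
variable {K : Type} [Group K] (a t : K) (h : t * a = a ^ (b + 2) * t)

def nv (s : ℕ × ℕ × ℕ × ℕ) : K := (t ^ s.1)⁻¹ * a ^ ((s.2.1 : ℤ) - s.2.2.1) * t ^ s.2.2.2

include h

lemma t_zpow (m : ℤ) : t * a ^ m = a ^ ((b + 2 : ℕ) * m : ℤ) * t := by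
  have : t * a * t⁻¹ = a ^ (b + 2) := by rw [h]; group
  rw [zpow_mul, zpow_natCast, ← this, conj_zpow]; group

lemma tp_zpow (j : ℕ) (m : ℤ) : t ^ j * a ^ m = a ^ (((b + 2) ^ j : ℕ) * m : ℤ) * t ^ j := by
  induction j with
  | zero => simp
  | succ j ih =>
    rw [pow_succ', mul_assoc, ih, ← mul_assoc, t_zpow a t h, mul_assoc]
    congr 2
    push_cast; ring

lemma nv_step (s : ℕ × ℕ × ℕ × ℕ) (l : Bool × Bool) :
    nv a t (nfS b s l) = nv a t s * ev (fun c => bif c then t else a) [l] := by
  obtain ⟨k, p, m, j⟩ := s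
  rcases l with ⟨_ | _, _ | _⟩ <;> simp only [nv, nfS, cond, ev_t, ev_f, ev_nil, mul_one]
  · have := tp_zpow a t h j (-1)
    rw [zpow_neg_one] at this
    rw [mul_assoc _ (t ^ j), this, ← mul_assoc, mul_assoc (t ^ k)⁻¹ _ (a ^ _), ← zpow_add]
    congr 3
    push_cast; ring
  · have := tp_zpow a t h j 1
    rw [zpow_one] at this
    rw [mul_assoc _ (t ^ j), this, ← mul_assoc, mul_assoc (t ^ k)⁻¹ _ (a ^ _), ← zpow_add]
    congr 3
    push_cast; ring
  · have := t_zpow a t h ((p : ℤ) - m)
    rw [show (((b + 2) * p : ℕ) : ℤ) - ((b + 2) * m : ℕ) = ((b + 2 : ℕ) : ℤ) * ((p : ℤ) - m) by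
      push_cast; ring, eq_mul_inv_of_mul_eq this.symm]
    group
  · rw [pow_succ, mul_assoc, mul_assoc, mul_assoc]

lemma nv_nf (w : List (Bool × Bool)) : nv a t (nf b w) = ev (fun c => bif c then t else a) w := by
  unfold nf
  induction w using List.reverseRecOn with
  | nil => simp [nv]
  | append_singleton w l ih => rw [List.foldl_append, List.foldl_cons, List.foldl_nil,
      nv_step a t h, ih, ev_append]

end nf

def evA (b : ℕ) (w : List (Bool × Bool)) : Aff b := ev (fun c => bif c then tt else aa) w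

lemma evA_eq_one (w : List (Bool × Bool)) :
    evA b w = 1 ↔ (nf b w).1 = (nf b w).2.2.2 ∧ (nf b w).2.1 = (nf b w).2.2.1 := by
  rw [evA, ← nv_nf aa tt aff_rel]
  generalize nf b w = s
  obtain ⟨k, p, m, j⟩ := s
  simp only [nv, aa_zpow, tt_pow, Aff.ext_iff]
  have := (zpow_pos (BB_pos (b := b)) (-(k : ℤ))).ne'
  simp only [mul_e, inv_e, mul_r, inv_r, one_e, one_r, mul_zero, neg_zero, add_zero, zero_add,
    mul_eq_zero, this, false_or, Int.cast_eq_zero]
  omega

lemma ev_of_evA {K : Type} [Group K] (a t : K) (h : t * a = a ^ (b + 2) * t)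
    {w : List (Bool × Bool)} (hw : evA b w = 1) : ev (fun c => bif c then t else a) w = 1 := by
  rw [evA_eq_one] at hw
  rw [← nv_nf a t h, nv, hw.1, hw.2]
  simp

open LeadPrim in
lemma prim_nf (b : ℕ) : Primrec (nf b) := by
  have : PR (nf b) := by
    unfold nf nfS
    fun_prop
  exact this.prim

end LeadInv
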