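import Mathlib
import Pool.Agent.Lib.lead.PrimFun

set_option autoImplicit false

namespace LeadBest
open Relation

/-- The modalities. -/
inductive Md (m : ℕ) : Type
  | move
  | movei (i : Fin m)
  | movep
  | pref (i : Fin m)
  | best
  | bests

/-- Formulas (the other connectives and the boxes are the usual abbreviations). -/
inductive Fm (m : ℕ) : Type
  | var (p : ℕ)
  | neg (φ : Fm m)
  | and (φ ψ : Fm m)
  | fin
  | turn (i : Fin m)
  | dia (r : Md m) (φ : Fm m)

/-- Goedel numbering. -/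
def Fm.code {m : ℕ} : Fm m → ℕ
  | .var p => Nat.pair 0 p
  | .neg φ => Nat.pair 1 φ.code
  | .and φ ψ => Nat.pair 2 (Nat.pair φ.code ψ.code)
  | .fin => Nat.pair 3 0
  | .turn i => Nat.pair 4 i
  | .dia .move φ => Nat.pair 5 φ.code
  | .dia (.movei i) φ => Nat.pair 6 (Nat.pair i φ.code)
  | .dia .movep φ => Nat.pair 7 φ.code
  | .dia (.pref i) φ => Nat.pair 8 (Nat.pair i φ.code)
  | .dia .best φ => Nat.pair 9 φ.code
  | .dia .bests φ => Nat.pair 10 φ.code

/-- A finite game tree for the players `Fin m`, with a valuation. -/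
structure Game (m : ℕ) where
  V : Type
  finite : Finite V
  root : V
  mv : V → V → Prop
  reach : ∀ v, ReflTransGen mv root v
  no_in : ∀ v, ¬ mv v root
  uniq : ∀ u u' v, mv u v → mv u' v → u = u'
  turn : V → Fin m
  le : Fin m → V → V → Prop
  total : ∀ i u v, (¬ ∃ w, mv u w) → (¬ ∃ w, mv v w) → le i u v ∨ le i v u
  trans : ∀ i u v x, (¬ ∃ w, mv u w) → (¬ ∃ w, mv v w) → (¬ ∃ w, mv x w) →
    le i u v → le i v x → le i u x
  val : ℕ → V → Prop

namespace Game
variable {m : ℕ} (G : Game m)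

/-- End nodes. -/
def End (u : G.V) : Prop := ¬ ∃ w, G.mv u w

/-- Every end node reachable from `y` is strictly worse for `i` than every end node reachable
from `z`, along the relation `σ`. -/
def Dom (σ : G.V → G.V → Prop) (i : Fin m) (y z : G.V) : Prop :=
  ∀ u v, G.End u → G.End v → ReflTransGen σ y u → ReflTransGen σ z v →
    G.le i u v ∧ ¬ G.le i v u

/-- The moves active at stage `n` of relational Backward Induction. -/
def act : ℕ → G.V → G.V → Prop
  | 0 => G.mv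
  | n + 1 => fun x y => act n x y ∧ ¬ ∃ z, z ≠ y ∧ act n x z ∧ G.Dom (act n) (G.turn x) y z

/-- The moves that stay active. -/
def best (x y : G.V) : Prop := ∀ n, G.act n x y

/-- The accessibility relations. -/
def rel : Md m → G.V → G.V → Prop
  | .move => G.mv
  | .movei i => fun x y => G.turn x = i ∧ G.mv x y
  | .movep => TransGen G.mv
  | .pref i => fun u v => G.End u ∧ G.End v ∧ G.le i u v
  | .best => G.best
  | .bests => ReflTransGen G.best

/-- Truth at a node. -/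
def Sat : Fm m → G.V → Prop
  | .var p, x => G.val p x
  | .neg φ, x => ¬ Sat φ x
  | .and φ ψ, x => Sat φ x ∧ Sat ψ x
  | .fin, x => G.End x
  | .turn i, x => ¬ G.End x ∧ G.turn x = i
  | .dia r φ, x => ∃ y, G.rel r x y ∧ Sat φ y

end Game

/-- Validity. -/
def Valid {m : ℕ} (φ : Fm m) : Prop := ∀ (G : Game m) (x : G.V), G.Sat φ x

/-! ### trees and backward induction -/

namespace Game
variable {m : ℕ} (G : Game m)

lemma wf : WellFounded fun y x => G.mv x y := by
  have := G.finite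
  have h : ∀ v, ¬ TransGen G.mv v v := by
    intro v
    induction G.reach v with
    | refl =>
      intro h
      obtain ⟨u, -, h⟩ := TransGen.tail'_iff.1 h
      exact G.no_in _ h
    | @tail u v _ s ih =>
      intro h
      obtain ⟨u', h1, h2⟩ := TransGen.tail'_iff.1 h
      obtain rfl := G.uniq _ _ _ s h2
      exact ih (TransGen.head' s h1)
  have : Std.Irrefl fun y x => TransGen G.mv x y := ⟨h⟩
  have : IsTrans G.V fun y x => TransGen G.mv x y := ⟨fun _ _ _ a b => b.trans a⟩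
  exact Subrelation.wf (fun h => TransGen.single h)
    (Finite.wellFounded_of_trans_of_irrefl fun y x => TransGen G.mv x y)

lemma act_anti (n : ℕ) {x y} (h : G.act (n + 1) x y) : G.act n x y := h.1

lemma best_mv {x y} (h : G.best x y) : G.mv x y := h 0

lemma best_fix : ∃ n, G.act n = G.best ∧ G.act (n + 1) = G.best := by
  have := G.finite
  have anti : Antitone G.act := antitone_nat_of_succ_le fun n _ _ => G.act_anti n
  obtain ⟨a, b, hab, e⟩ : ∃ a b, a < b ∧ G.act a = G.act b := by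
    obtain ⟨a, b, h, e⟩ := Finite.exists_ne_map_eq_of_infinite G.act
    rcases lt_or_gt_of_ne h with h | h
    · exact ⟨a, b, h, e⟩
    · exact ⟨b, a, h, e.symm⟩
  have h1 : G.act (a + 1) = G.act a := le_antisymm (anti (by omega)) (e ▸ anti hab)
  have h2 : ∀ k, G.act (a + k) = G.act a := by
    intro k
    induction k with
    | zero => rfl
    | succ k ih => rw [← add_assoc, act, ih, ← act, h1]
  have h3 : G.act a = G.best := by
    funext x y
    exact propext ⟨fun h n => anti (Nat.le_add_left n a) x y (by rwa [h2]), fun h => h a⟩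
  exact ⟨a, h3, h1.trans h3⟩

lemma best_of {x y} (h : G.mv x y) (h' : ¬ ∃ z, G.mv x z ∧ G.Dom G.best (G.turn x) y z) :
    G.best x y := by
  have : ∀ n x y, G.act n x y → G.mv x y := by
    intro n; induction n with
    | zero => exact fun _ _ h => h
    | succ n ih => exact fun _ _ h => ih _ _ h.1
  intro n
  induction n with
  | zero => exact h
  | succ n ih =>
    exact ⟨ih, fun ⟨z, _, h1, h2⟩ => h' ⟨z, this _ _ _ h1, fun u v a b c d =>
      h2 u v a b (ReflTransGen.mono (fun _ _ h => h n) _ _ c) (ReflTransGen.mono (fun _ _ h => h n) _ _ d)⟩⟩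

/-- end nodes reachable by best moves -/
def L (y : G.V) : Set G.V := {u | G.End u ∧ ReflTransGen G.best y u}

lemma L_end {y} (h : G.End y) : G.L y = {y} := by
  ext u
  refine ⟨fun ⟨_, h'⟩ => ?_, fun e => by cases e; exact ⟨h, .refl⟩⟩
  rcases h'.cases_head with rfl | ⟨z, h1, -⟩
  · rfl
  · exact (h ⟨z, G.best_mv h1⟩).elim

lemma L_int {y u} (h : ¬ G.End y) : u ∈ G.L y ↔ ∃ z, G.best y z ∧ u ∈ G.L z := by
  refine ⟨fun ⟨h1, h'⟩ => ?_, fun ⟨z, h1, h2, h3⟩ => ⟨h2, .head h1 h3⟩⟩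
  rcases h'.cases_head with rfl | ⟨z, h2, h3⟩
  · exact (h h1).elim
  · exact ⟨z, h2, h1, h3⟩

lemma best_iff {x : G.V} (vl a b : G.V → ℚ) (M : ℚ)
    (hv : ∀ u v, G.End u → G.End v → (G.le (G.turn x) u v ↔ vl u ≤ vl v))
    (ha : ∀ z, G.mv x z → IsLeast (vl '' G.L z) (a z))
    (hb : ∀ z, G.mv x z → IsGreatest (vl '' G.L z) (b z))
    (h1 : ∀ z, G.mv x z → a z ≤ M) (h2 : ∃ z, G.mv x z ∧ a z = M) (y : G.V) :
    G.best x y ↔ G.mv x y ∧ M ≤ b y := by
  have hd : ∀ y z, G.mv x y → G.mv x z → (G.Dom G.best (G.turn x) y z ↔ b y < a z) := by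
    intro y z hy hz
    constructor
    · intro h
      obtain ⟨u, hu, e⟩ := (hb y hy).1
      obtain ⟨v, hv', e'⟩ := (ha z hz).1
      have := (h u v hu.1 hv'.1 hu.2 hv'.2).2
      rw [hv _ _ hv'.1 hu.1, not_le, e, e'] at this
      exact this
    · intro h u v hu hv' h3 h4
      have := ((hb y hy).2 ⟨u, ⟨hu, h3⟩, rfl⟩).trans_lt
        (h.trans_le ((ha z hz).2 ⟨v, ⟨hv', h4⟩, rfl⟩))
      rw [hv _ _ hu hv', hv _ _ hv' hu]
      exact ⟨this.le, not_le.2 this⟩
  have key : ∀ y, G.mv x y → M ≤ b y → G.best x y := fun y hy h =>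
    G.best_of hy fun ⟨z, hz, h3⟩ => absurd ((hd _ _ hy hz).1 h3) (not_lt.2 ((h1 z hz).trans h))
  refine ⟨fun h => ⟨G.best_mv h, not_lt.1 fun h3 => ?_⟩, fun h => key y h.1 h.2⟩
  obtain ⟨z, hz, rfl⟩ := h2
  have h4 : a z ≤ b z := (ha z hz).2 (hb z hz).1
  obtain ⟨n, e1, e2⟩ := G.best_fix
  have h5 : G.act (n + 1) x y := e2 ▸ h
  refine h5.2 ⟨z, ?_, e1 ▸ key z hz h4, e1 ▸ (hd _ _ (G.best_mv h) hz).2 h3⟩
  rintro rfl
  exact absurd h3 (not_lt.2 h4)

lemma L_ne (vl : ℕ → G.V → ℚ)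
    (hv : ∀ (i : Fin m) u v, G.End u → G.End v → (G.le i u v ↔ vl i u ≤ vl i v)) (x : G.V) :
    (G.L x).Nonempty := by
  have := G.finite
  induction x using G.wf.induction with
  | _ x ih =>
  by_cases h : G.End x
  · exact ⟨x, h, .refl⟩
  have h1 : ∀ z, G.mv x z → ∃ q, IsLeast (vl (G.turn x) '' G.L z) q := fun z hz =>
    let ⟨q, h1, h2⟩ := Set.exists_min_image _ id (Set.toFinite _) ((ih z hz).image (vl (G.turn x)))
    ⟨q, h1, h2⟩
  have h2 : ∀ z, G.mv x z → ∃ q, IsGreatest (vl (G.turn x) '' G.L z) q := fun z hz =>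
    let ⟨q, h1, h2⟩ := Set.exists_max_image _ id (Set.toFinite _) ((ih z hz).image (vl (G.turn x)))
    ⟨q, h1, h2⟩
  choose! a ha using h1
  choose! b hb using h2
  obtain ⟨z, hz, h3⟩ := Set.exists_max_image {z | G.mv x z} a (Set.toFinite _) (not_not.1 h)
  obtain ⟨u, hu⟩ := ih z hz
  exact ⟨u, (G.L_int h).2 ⟨z, (G.best_iff _ a b (a z) (hv _) ha hb h3 ⟨z, hz, rfl⟩ z).2
    ⟨hz, (ha z hz).2 (hb z hz).1⟩, hu⟩⟩

lemma exists_vl : ∃ vl : ℕ → G.V → ℚ,
    ∀ (i : Fin m) u v, G.End u → G.End v → (G.le i u v ↔ vl i u ≤ vl i v) := by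
  have := G.finite
  refine ⟨fun i u => if h : i < m then ({v | G.End v ∧ G.le ⟨i, h⟩ v u}.ncard : ℚ) else 0,
    fun i u v hu hv => ?_⟩
  simp only [i.2, dite_true, Nat.cast_le, Fin.eta]
  refine ⟨fun h => Set.ncard_le_ncard fun x hx => ⟨hx.1, G.trans _ _ _ _ hx.1 hu hv hx.2 h⟩,
    fun h => by_contra fun h' => absurd h (not_le.2 (Set.ncard_lt_ncard ⟨fun x hx =>
      ⟨hx.1, G.trans _ _ _ _ hx.1 hv hu hx.2 ((G.total _ _ _ hu hv).resolve_left h')⟩,
      fun h'' => h' (h'' ⟨hu, (G.total _ _ _ hu hu).elim id id⟩).2⟩))⟩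

end Game
end LeadBest
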