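import Mathlib
import Pool.Agent.Lib.lead.Best

set_option autoImplicit false

namespace LeadBest

structure AS (α : Type) where
  k : ℕ
  f : ℕ → ℕ → Bool
  w : ℕ → ℕ → α

def All (n : ℕ) (p : ℕ → Bool) : Bool := (List.range n).all p

lemma All_iff {n p} : All n p = true ↔ ∀ c, c < n → p c = true := by simp [All]

lemma All_congr {n} {p q : ℕ → Bool} (h : ∀ c, c < n → p c = q c) : All n p = All n q := by
  rw [Bool.eq_iff_iff, All_iff, All_iff]
  exact forall₂_congr fun c hc => by rw [h c hc]

def tg (c : ℕ) : ℕ := c.unpair.1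
def ar (c : ℕ) : ℕ := c.unpair.2
def a1 (c : ℕ) : ℕ := c.unpair.2.unpair.1
def a2 (c : ℕ) : ℕ := c.unpair.2.unpair.2

lemma ar_le (c : ℕ) : ar c ≤ c := Nat.unpair_right_le c
lemma a1_le (c : ℕ) : a1 c ≤ ar c := Nat.unpair_left_le _
lemma a2_le (c : ℕ) : a2 c ≤ ar c := Nat.unpair_right_le _
lemma ar_lt {c : ℕ} (h : tg c ≠ 0) : ar c < c := by
  have := Nat.pair_unpair c
  unfold tg at h
  unfold ar
  generalize c.unpair.1 = a, c.unpair.2 = b at *
  subst this
  unfold Nat.pair
  split_ifs <;> nlinarith [Nat.pos_of_ne_zero h]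

def want (k : ℕ) (tr ex eb pf : ℕ → Bool) (c : ℕ) : Bool :=
  bif decide (tg c = 1) then !tr (ar c) else
  bif decide (tg c = 2) then tr (a1 c) && tr (a2 c) else
  bif decide (tg c = 3) then decide (k = 0) else
  bif decide (tg c = 4) then decide (k = ar c + 1) else
  bif decide (tg c = 5) then ex (ar c) else
  bif decide (tg c = 6) then decide (k = a1 c + 1) && ex (a2 c) else
  bif decide (tg c = 7) then ex (ar c) || ex c else
  bif decide (tg c = 8) then pf c else
  bif decide (tg c = 9) then eb (ar c) else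
  bif decide (tg c = 10) then tr (ar c) || eb c else tr c

lemma want_congr {k : ℕ} {tr ex eb pf tr' ex' eb' pf' : ℕ → Bool} {c : ℕ}
    (h1 : ∀ d, d ≤ c → tr d = tr' d) (h2 : ∀ d, d ≤ c → ex d = ex' d)
    (h3 : ∀ d, d ≤ c → eb d = eb' d) (h4 : pf c = pf' c) :
    want k tr ex eb pf c = want k tr' ex' eb' pf' c := by
  have := ar_le c
  have := a1_le c
  have := a2_le c
  simp (disch := omega) only [want, h1, h2, h3, h4]

section rules
variable {α : Type} [LinearOrder α] (m n : ℕ)

def leaf (s : AS α) : Bool :=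
  decide (s.k = 0) && All (n + 1) (fun c =>
    decide (s.f 0 c = want 0 (s.f 0) (fun _ => false) (fun _ => false)
      (fun c => s.f 3 c && decide (s.w (a1 c) 0 ≤ s.w (a1 c) (3 + c))) c) &&
    (!decide (tg c = 8) || !s.f 0 (a2 c) || s.f 0 c) &&
    decide (s.f 2 c = (s.f 0 (a2 c) && decide (s.w (a1 c) 0 = s.w (a1 c) (3 + c))))) &&
  decide (s.f 2 (n + 1) = !s.f 0 n) && All (n + m + 5) fun j => decide (s.w j 0 = s.w j 1)

def init (s : AS α) : Bool :=
  decide (1 ≤ s.k) && decide (s.k ≤ m) && All (n + m + 5) fun c =>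
    !s.f 0 c && !s.f 1 c && !s.f 2 c && !s.f 4 c && !s.f 5 c && !s.f 6 c

def actv (s t : AS α) : Bool := decide (s.w (s.k - 1) 2 ≤ t.w (s.k - 1) 1)

def fit (s t : AS α) : Bool :=
  decide (t.k = 0) && decide (t.w (s.k - 1) 0 ≤ s.w (s.k - 1) 2) && All (n + m + 5) fun j =>
    decide (t.f 3 j = s.f 3 j) && All (n + 1) (fun c => decide (t.w j (3 + c) = s.w j (3 + c))) &&
    (!actv s t || (decide (s.w j 0 ≤ t.w j 0) && decide (t.w j 1 ≤ s.w j 1)))

def con (s t : AS α) (a c : ℕ) : Bool :=
  bif decide (a = 0) then t.f 0 c else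
  bif decide (a = 1) then actv s t && t.f 0 c else
  bif decide (a = 2) then t.f 2 c else
  bif decide (a = 4) then actv s t && decide (t.w c 0 = s.w c 0) else
  bif decide (a = 5) then actv s t && decide (t.w c 1 = s.w c 1) else
  bif decide (a = 6) then decide (t.w (s.k - 1) 0 = s.w (s.k - 1) 2) else false

def same (s r : AS α) : Bool :=
  All (n + m + 5) fun j => decide (r.f 3 j = s.f 3 j) &&
    All (n + m + 5) fun x => decide (r.w j x = s.w j x)

def add (s t r : AS α) : Bool :=
  decide (1 ≤ s.k) && decide (s.k ≤ m) && decide (r.k = s.k) && fit m n s t && same m n s r &&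
    All 7 fun a => All (n + m + 5) fun c => decide (r.f a c = (s.f a c || con s t a c))

def close (s r : AS α) : Bool :=
  decide (1 ≤ s.k) && decide (s.k ≤ m) && decide (r.k = 0) && same m n s r &&
    All (n + m + 5) (fun j => s.f 4 j && s.f 5 j && s.f 6 j) &&
    All (n + 1) (fun c => decide (r.f 0 c = want s.k (r.f 0) (s.f 0) (s.f 1) (fun _ => false) c) &&
      decide (r.f 2 c = s.f 2 c)) &&
    decide (r.f 2 (n + 1) = (s.f 2 (n + 1) || !r.f 0 n))

def rootOK (s : AS α) : Bool := All (n + 1) fun c => !decide (tg c = 8) || !s.f 3 c || s.f 2 c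

def bad (s : AS α) : Bool := decide (s.k = 0) && s.f 2 (n + 1) && rootOK n s

def iso (s r : AS α) : Bool :=
  decide (r.k = s.k) && All 7 (fun a => All (n + m + 5) fun c => decide (r.f a c = s.f a c)) &&
    All (n + m + 5) fun j => All (n + m + 5) fun x => All (n + m + 5) fun y =>
      decide (decide (r.w j x ≤ r.w j y) = decide (s.w j x ≤ s.w j y))

end rules

section inv
variable {α β : Type} [LinearOrder α] [LinearOrder β] {m n : ℕ}

structure Rl (m n : ℕ) (g : ℕ → α → β) (s : AS α) (s' : AS β) : Prop where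
  k : s'.k = s.k
  f : ∀ a c, a < 7 → c < n + m + 5 → s'.f a c = s.f a c
  w : ∀ j x, j < n + m + 5 → x < n + m + 5 → s'.w j x = g j (s.w j x)

variable {g : ℕ → α → β} (hg : ∀ j, StrictMono (g j))
include hg

lemma Rl.leaf {s s'} (h : Rl m n g s s') : leaf m n s' = leaf m n s := by
  unfold LeadBest.leaf
  simp (disch := omega) only [h.k, h.f]
  congr 1
  · congr 2
    refine All_congr fun c hc => ?_
    have := ar_le c
    have := a1_le c
    have := a2_le c
    rw [want_congr (tr' := s.f 0) (ex' := fun _ => false) (eb' := fun _ => false)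
      (pf' := fun c => s.f 3 c && decide (s.w (a1 c) 0 ≤ s.w (a1 c) (3 + c)))
      (fun d hd => h.f _ _ (by omega) (by omega)) (fun _ _ => rfl) (fun _ _ => rfl)]
    all_goals simp (disch := omega) only [h.f, h.w, (hg _).le_iff_le, (hg _).injective.eq_iff]
  · refine All_congr fun c hc => ?_
    simp (disch := omega) only [h.w, (hg _).injective.eq_iff]

omit hg in
lemma Rl.init {s s'} (h : Rl m n g s s') : init m n s' = init m n s := by
  unfold LeadBest.init
  simp only [h.k]
  congr 1
  refine All_congr fun c hc => ?_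
  simp (disch := omega) only [h.f]

lemma Rl.actv {s s' t t'} (h : Rl m n g s s') (h' : Rl m n g t t') (hk : s.k ≤ m) :
    actv s' t' = actv s t := by
  simp (disch := omega) only [LeadBest.actv, h.k, h.w, h'.w, (hg _).le_iff_le]

lemma Rl.same {s s' t t'} (h : Rl m n g s s') (h' : Rl m n g t t') :
    same m n s' t' = same m n s t := by
  refine All_congr fun j hj => ?_
  simp (disch := omega) only [h.f, h'.f]
  congr 1
  refine All_congr fun x hx => ?_
  simp (disch := omega) only [h.w, h'.w, (hg _).injective.eq_iff]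

lemma Rl.add {s s' t t' r r'} (h : Rl m n g s s') (h' : Rl m n g t t') (h'' : Rl m n g r r') :
    add m n s' t' r' = add m n s t r := by
  by_cases hk : s.k ≤ m
  swap
  · simp [LeadBest.add, h.k, hk]
  unfold LeadBest.add fit con
  simp (disch := omega) only [h.k, h'.k, h''.k, h.same hg h'', h.actv hg h' hk, h.w, h'.w,
    (hg _).le_iff_le, (hg _).injective.eq_iff]
  congr 1
  · congr 3
    refine All_congr fun j hj => ?_
    simp (disch := omega) only [h.f, h'.f, h.w, h'.w, (hg _).le_iff_le]
    congr 2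
    refine All_congr fun x hx => ?_
    simp (disch := omega) only [h.w, h'.w, (hg _).injective.eq_iff]
  · refine All_congr fun a ha => All_congr fun c hc => ?_
    simp (disch := omega) only [h.f, h'.f, h''.f, h.w, h'.w, (hg _).injective.eq_iff]

lemma Rl.close {s s' r r'} (h : Rl m n g s s') (h' : Rl m n g r r') :
    close m n s' r' = close m n s r := by
  unfold LeadBest.close
  simp (disch := omega) only [h.k, h'.k, h.same hg h', h.f, h'.f]
  congr 2
  · congr 1
    refine All_congr fun j hj => ?_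
    simp (disch := omega) only [h.f]
  · refine All_congr fun c hc => ?_
    rw [want_congr (tr' := r.f 0) (ex' := s.f 0) (eb' := s.f 1) (pf' := fun _ => false)
      (fun d hd => h'.f _ _ (by omega) (by omega)) (fun d hd => h.f _ _ (by omega) (by omega))
      (fun d hd => h.f _ _ (by omega) (by omega)) rfl]
    simp (disch := omega) only [h.f, h'.f]

omit hg in
lemma Rl.bad {s s'} (h : Rl m n g s s') : bad n s' = bad n s := by
  unfold LeadBest.bad rootOK
  simp (disch := omega) only [h.k, h.f]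
  congr 1
  refine All_congr fun c hc => ?_
  simp (disch := omega) only [h.f]

lemma Rl.iso {g' : ℕ → α → β} (hg' : ∀ j, StrictMono (g' j)) {s s' r r'} (h : Rl m n g s s')
    (h' : Rl m n g' r r') : iso m n s' r' = iso m n s r := by
  unfold LeadBest.iso
  simp only [h.k, h'.k]
  congr 1
  · congr 1
    refine All_congr fun a ha => All_congr fun c hc => ?_
    simp (disch := omega) only [h.f, h'.f]
  · refine All_congr fun j hj => All_congr fun x hx => All_congr fun y hy => ?_
    simp (disch := omega) only [h.w, h'.w, (hg _).le_iff_le, (hg' _).le_iff_le]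

end inv

lemma extend {ι : Type} (p q : ι → ℚ) (S : Finset ι) (h : ∀ x ∈ S, ∀ y ∈ S, q x ≤ q y ↔ p x ≤ p y) :
    ∃ g : ℚ → ℚ, StrictMono g ∧ ∀ x ∈ S, q x = g (p x) := by
  classical
  let P : Order.PartialIso ℚ ℚ := ⟨S.image fun x => (p x, q x), by
    intro a ha b hb
    obtain ⟨x, hx, rfl⟩ := Finset.mem_image.1 ha
    obtain ⟨y, hy, rfl⟩ := Finset.mem_image.1 hb
    have h1 := h x hx y hy
    have h2 := h y hy x hx
    simp only [cmp, cmpUsing, ← not_le, h1, h2]⟩
  let I : Order.Ideal (Order.PartialIso ℚ ℚ) :=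
    Order.idealOfCofinals P (Order.PartialIso.definedAtLeft ℚ)
  let F a := Order.PartialIso.funOfIdeal a I (Order.cofinal_meets_idealOfCofinals _ _ a)
  refine ⟨fun a => (F a).val, fun a₁ a₂ => ?_, fun x hx => ?_⟩
  · rcases (F a₁).prop with ⟨f, hf, ha₁⟩
    rcases (F a₂).prop with ⟨g, hg, ha₂⟩
    rcases I.directed _ hf _ hg with ⟨m, _hm, fm, gm⟩
    exact (lt_iff_lt_of_cmp_eq_cmp <| m.prop (a₁, _) (fm ha₁) (a₂, _) (gm ha₂)).mp
  · rcases (F (p x)).prop with ⟨f, hf, ha⟩
    rcases I.directed _ hf _ (Order.mem_idealOfCofinals _ _) with ⟨m, _hm, fm, gm⟩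
    have := m.prop (p x, q x) (gm (Finset.mem_image_of_mem _ hx)) (p x, _) (fm ha)
    simpa using this.symm

inductive D (m n : ℕ) : AS ℚ → Prop
  | leaf {s} : leaf m n s = true → D m n s
  | init {s} : init m n s = true → D m n s
  | add {s t r} : D m n s → D m n t → add m n s t r = true → D m n r
  | close {s r} : D m n s → close m n s r = true → D m n r

def AS.map {α β : Type} (g : ℕ → α → β) (s : AS α) : AS β := ⟨s.k, s.f, fun j x => g j (s.w j x)⟩

lemma rl_map {α β : Type} {m n : ℕ} (g : ℕ → α → β) (s : AS α) : Rl m n g s (s.map g) :=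
  ⟨rfl, fun _ _ _ _ => rfl, fun _ _ _ _ => rfl⟩

lemma D.rl {m n : ℕ} {g : ℕ → ℚ → ℚ} (hg : ∀ j, StrictMono (g j)) {s} (h : D m n s) :
    ∀ {s'}, Rl m n g s s' → D m n s' := by
  induction h with
  | leaf h => exact fun r => .leaf (r.leaf hg ▸ h)
  | init h => exact fun r => .init (r.init ▸ h)
  | add _ _ h ih ih' =>
    exact fun r => .add (ih (rl_map _ _)) (ih' (rl_map _ _))
      (((rl_map _ _).add hg (rl_map _ _) r).trans h)
  | close _ h ih => exact fun r => .close (ih (rl_map _ _)) (((rl_map _ _).close hg r).trans h)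

lemma rl_of_iso {m n : ℕ} {s r : AS ℚ} (h : iso m n s r = true) :
    ∃ g : ℕ → ℚ → ℚ, (∀ j, StrictMono (g j)) ∧ Rl m n g s r := by
  simp only [iso, Bool.and_eq_true, All_iff, decide_eq_true_eq, decide_eq_decide] at h
  have : ∀ j, ∃ g : ℚ → ℚ, StrictMono g ∧
      (j < n + m + 5 → ∀ x, x < n + m + 5 → r.w j x = g (s.w j x)) := by
    intro j
    by_cases hj : j < n + m + 5
    · obtain ⟨g, h1, h2⟩ := extend (s.w j) (r.w j) (Finset.range (n + m + 5))
        fun x hx y hy => h.2 j hj x (Finset.mem_range.1 hx) y (Finset.mem_range.1 hy)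
      exact ⟨g, h1, fun _ x hx => h2 x (Finset.mem_range.2 hx)⟩
    · exact ⟨id, strictMono_id, fun h => (hj h).elim⟩
  choose g h1 h2 using this
  exact ⟨g, h1, h.1.1, fun a c ha hc => h.1.2 a ha c hc, fun j x hj hx => h2 j hj x hx⟩

lemma iso_refl {α : Type} [LinearOrder α] {m n : ℕ} (s : AS α) : iso m n s s = true := by
  simp [iso, All_iff]

end LeadBest
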