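import Mathlib
import Pool.Agent.Lib.lead.Best2

set_option autoImplicit false

namespace LeadBest
open LeadPrim

abbrev LS := ℕ × List (List Bool) × List (List ℕ)

def absN (l : LS) : AS ℕ :=
  ⟨l.1, fun a c => (l.2.1.getD a []).getD c false, fun j x => (l.2.2.getD j []).getD x 0⟩

def absQ (l : LS) : AS ℚ := (absN l).map fun _ => Nat.cast

def lists {β : Type} (L : List β) (k : ℕ) : List (List β) :=
  (fun A => A.flatMap fun l => L.map (· :: l))^[k] [[]]

lemma mem_lists {β : Type} {L : List β} (l : List β) (h : ∀ x ∈ l, x ∈ L) :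
    l ∈ lists L l.length := by
  induction l with
  | nil => simp [lists]
  | cons x l ih =>
    rw [lists, List.length_cons, Function.iterate_succ_apply']
    exact List.mem_flatMap.2 ⟨l, ih fun y hy => h y (.tail _ hy),
      List.mem_map.2 ⟨x, h x (.head _), rfl⟩⟩

lemma map_mem_lists {β : Type} {L : List β} (k : ℕ) (f : ℕ → β) (h : ∀ x, x < k → f x ∈ L) :
    (List.range k).map f ∈ lists L k := by
  have := mem_lists (L := L) ((List.range k).map f) (by simpa using h)
  simpa using this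

def U (m n : ℕ) : List LS :=
  (List.range (m + 1)).flatMap fun k =>
    (lists (lists [false, true] (n + m + 5)) 7).flatMap fun f =>
      (lists (lists (List.range (3 * (n + m + 5))) (n + m + 5)) (n + m + 5)).map fun w => (k, f, w)

def stp (m n : ℕ) (S : List LS) : List LS :=
  (U m n).filter fun l => leaf m n (absN l) || init m n (absN l) || S.any fun s =>
    iso m n (absN s) (absN l) || close m n (absN s) (absN l) ||
      S.any fun t => add m n (absN s) (absN t) (absN l)

def fin (m n : ℕ) : List LS := (stp m n)^[(U m n).length] []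

def chk (m n : ℕ) : Bool := (fin m n).all fun l => !bad n (absN l)

lemma closed_iter {β : Type} (F : List β → List β) (U : List β)
    (mono : ∀ S S', S ⊆ S' → F S ⊆ F S') (hU : ∀ S, F S ⊆ U) :
    F (F^[U.length] []) ⊆ F^[U.length] [] := by
  classical
  have inc : ∀ k, F^[k] [] ⊆ F^[k + 1] [] := by
    intro k
    induction k with
    | zero => simp
    | succ k ih =>
      rw [Function.iterate_succ_apply', Function.iterate_succ_apply' F (k + 1)]
      exact mono _ _ ih
  have : ∀ k, F^[k + 1] [] ⊆ F^[k] [] ∨ k < (F^[k + 1] []).toFinset.card := by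
    intro k
    induction k with
    | zero =>
      cases h : F^[0 + 1] [] with
      | nil => simp
      | cons a l => right; simp
    | succ k ih =>
      rcases ih with h | h
      · left
        rw [Function.iterate_succ_apply', Function.iterate_succ_apply' F k]
        exact mono _ _ (Function.iterate_succ_apply' F k _ ▸ h)
      · by_cases h' : F^[k + 1 + 1] [] ⊆ F^[k + 1] []
        · exact .inl h'
        · refine .inr (lt_of_le_of_lt h (Finset.card_lt_card ⟨fun x hx => ?_, fun h'' => h' fun x hx => ?_⟩))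
          · exact List.mem_toFinset.2 (inc _ (List.mem_toFinset.1 hx))
          · exact List.mem_toFinset.1 (h'' (List.mem_toFinset.2 hx))
  rcases this U.length with h | h
  · rwa [Function.iterate_succ_apply'] at h
  · have : (F^[U.length + 1] []).toFinset.card ≤ U.toFinset.card :=
      Finset.card_le_card fun x hx => List.mem_toFinset.2 (by
        rw [Function.iterate_succ_apply', List.mem_toFinset] at hx
        exact hU _ hx)
    have := List.toFinset_card_le U
    omega

variable {m n : ℕ}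

lemma cast_sm : ∀ _ : ℕ, StrictMono (Nat.cast : ℕ → ℚ) := fun _ => Nat.strictMono_cast

lemma rlc (l : LS) : Rl m n (fun _ => (Nat.cast : ℕ → ℚ)) (absN l) (absQ l) := rl_map _ _

lemma mem_stp {S : List LS} {l} : l ∈ stp m n S ↔ l ∈ U m n ∧ (leaf m n (absQ l) = true ∨
    init m n (absQ l) = true ∨ ∃ s ∈ S, iso m n (absQ s) (absQ l) = true ∨
      close m n (absQ s) (absQ l) = true ∨ ∃ t ∈ S, add m n (absQ s) (absQ t) (absQ l) = true) := by
  simp only [stp, List.mem_filter, Bool.or_eq_true, List.any_eq_true, or_assoc,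
    (rlc _).leaf cast_sm, (rlc _).init, (rlc _).iso cast_sm cast_sm (rlc _),
    (rlc _).close cast_sm (rlc _), (rlc _).add cast_sm (rlc _) (rlc _)]

lemma sound (k : ℕ) : ∀ l ∈ (stp m n)^[k] [], D m n (absQ l) := by
  induction k with
  | zero => simp
  | succ k ih =>
    intro l hl
    rw [Function.iterate_succ_apply', mem_stp] at hl
    rcases hl.2 with h | h | ⟨s, hs, h | h | ⟨t, ht, h⟩⟩
    · exact .leaf h
    · exact .init h
    · obtain ⟨g, hg, r⟩ := rl_of_iso h
      exact (ih s hs).rl hg r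
    · exact .close (ih s hs) h
    · exact .add (ih s hs) (ih t ht) h

lemma normalize (s : Fin 3 → AS ℚ) (hk : ∀ i, (s i).k ≤ m) : ∃ g : ℕ → ℚ → ℚ,
    (∀ j, StrictMono (g j)) ∧ ∀ i, ∃ l ∈ U m n, Rl m n g (s i) (absQ l) := by
  classical
  let X : ℕ → Finset ℚ := fun j =>
    (Finset.univ ×ˢ Finset.range (n + m + 5)).image fun p : Fin 3 × ℕ => (s p.1).w j p.2
  let ρ : ℕ → ℚ → ℕ := fun j q => ((X j).filter (· < q)).card
  have h1 : ∀ j, ∀ x ∈ X j, ∀ y ∈ X j, ((ρ j x : ℚ) ≤ ρ j y ↔ id x ≤ id y) := by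
    intro j x hx y hy
    rw [Nat.cast_le]
    refine ⟨fun h => not_lt.1 fun h' => absurd h (not_le.2 (Finset.card_lt_card ⟨?_, fun h'' => ?_⟩)),
      fun h => Finset.card_le_card ?_⟩
    · exact Finset.monotone_filter_right _ fun z _ hz => lt_trans hz h'
    · simpa using h'' (Finset.mem_filter.2 ⟨hy, h'⟩)
    · exact Finset.monotone_filter_right _ fun z _ hz => lt_of_lt_of_le hz h
  have h2 : ∀ j, ∀ x ∈ X j, ρ j x < 3 * (n + m + 5) := by
    intro j x hx
    have : (X j).card ≤ 3 * (n + m + 5) := Finset.card_image_le.trans (by simp)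
    exact lt_of_lt_of_le (Finset.card_lt_card ⟨Finset.filter_subset _ _,
      fun h => by simpa using h hx⟩) this
  have h3 : ∀ i j x, x < n + m + 5 → (s i).w j x ∈ X j := fun i j x hx =>
    Finset.mem_image.2 ⟨(i, x), by simpa using hx, rfl⟩
  choose g hg hg' using fun j => extend id (fun q => (ρ j q : ℚ)) (X j) (h1 j)
  refine ⟨g, hg, fun i => ⟨((s i).k,
    (List.range 7).map fun a => (List.range (n + m + 5)).map ((s i).f a),
    (List.range (n + m + 5)).map fun j => (List.range (n + m + 5)).map fun x => ρ j ((s i).w j x)),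
    ?_, rfl, fun a c ha hc => ?_, fun j x hj hx => ?_⟩⟩
  · refine List.mem_flatMap.2 ⟨_, List.mem_range.2 (Nat.lt_succ_of_le (hk i)),
      List.mem_flatMap.2 ⟨_, ?_, List.mem_map.2 ⟨_, ?_, rfl⟩⟩⟩
    · exact map_mem_lists _ _ fun a _ => map_mem_lists _ _ fun c _ => by cases (s i).f a c <;> simp
    · exact map_mem_lists _ _ fun j _ => map_mem_lists _ _ fun x hx =>
        List.mem_range.2 (h2 _ _ (h3 i j x hx))
  · simp [absQ, AS.map, absN, List.getD_eq_getElem?_getD, ha, hc]
  · rw [← id_eq ((s i).w j x), ← hg' j _ (h3 i j x hx)]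
    simp [absQ, AS.map, absN, List.getD_eq_getElem?_getD, hj, hx]

lemma D.k_le {s} (h : D m n s) : s.k ≤ m := by
  cases h with
  | leaf h => simp only [LeadBest.leaf, Bool.and_eq_true, decide_eq_true_eq] at h; omega
  | init h => simp only [LeadBest.init, Bool.and_eq_true, decide_eq_true_eq] at h; omega
  | add _ _ h => simp only [LeadBest.add, Bool.and_eq_true, decide_eq_true_eq] at h; omega
  | close _ h => simp only [LeadBest.close, Bool.and_eq_true, decide_eq_true_eq] at h; omega

lemma complete {S : List LS} (hS : stp m n S ⊆ S) {s} (h : D m n s) :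
    ∃ l ∈ S, ∃ g : ℕ → ℚ → ℚ, (∀ j, StrictMono (g j)) ∧ Rl m n g s (absQ l) := by
  have key : ∀ {s l l'} {g g' : ℕ → ℚ → ℚ}, l ∈ S → l' ∈ U m n → (∀ j, StrictMono (g j)) →
      (∀ j, StrictMono (g' j)) → Rl m n g s (absQ l) → Rl m n g' s (absQ l') → l' ∈ S :=
    fun h1 h2 hg hg' r r' => hS (mem_stp.2 ⟨h2, .inr (.inr ⟨_, h1, .inl
      ((r.iso hg hg' r').trans (iso_refl _))⟩)⟩)
  have hk := h.k_le
  induction h with
  | @leaf s h =>
    obtain ⟨g, hg, h1⟩ := normalize (n := n) (fun _ => s) fun _ => hk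
    obtain ⟨l, hl, r⟩ := h1 0
    exact ⟨l, hS (mem_stp.2 ⟨hl, .inl ((r.leaf hg).trans h)⟩), g, hg, r⟩
  | @init s h =>
    obtain ⟨g, hg, h1⟩ := normalize (n := n) (fun _ => s) fun _ => hk
    obtain ⟨l, hl, r⟩ := h1 0
    exact ⟨l, hS (mem_stp.2 ⟨hl, .inr (.inl (r.init.trans h))⟩), g, hg, r⟩
  | @add s t r hs ht h ih ih' =>
    obtain ⟨g, hg, h1⟩ := normalize (n := n) ![s, t, r] (by
      intro i; fin_cases i
      exacts [hs.k_le, ht.k_le, hk])
    obtain ⟨l1, hl1, r1⟩ := h1 0
    obtain ⟨l2, hl2, r2⟩ := h1 1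
    obtain ⟨l3, hl3, r3⟩ := h1 2
    obtain ⟨_, a1, _, a2, a3⟩ := ih hs.k_le
    obtain ⟨_, b1, _, b2, b3⟩ := ih' ht.k_le
    exact ⟨l3, hS (mem_stp.2 ⟨hl3, .inr (.inr ⟨l1, key a1 hl1 a2 hg a3 r1, .inr (.inr
      ⟨l2, key b1 hl2 b2 hg b3 r2, (r1.add hg r2 r3).trans h⟩)⟩)⟩), g, hg, r3⟩
  | @close s r hs h ih =>
    obtain ⟨g, hg, h1⟩ := normalize (n := n) ![s, r, r] (by
      intro i; fin_cases i
      exacts [hs.k_le, hk, hk])
    obtain ⟨l1, hl1, r1⟩ := h1 0
    obtain ⟨l2, hl2, r2⟩ := h1 1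
    obtain ⟨_, a1, _, a2, a3⟩ := ih hs.k_le
    exact ⟨l2, hS (mem_stp.2 ⟨hl2, .inr (.inr ⟨l1, key a1 hl1 a2 hg a3 r1, .inr (.inl
      ((r1.close hg r2).trans h))⟩)⟩), g, hg, r2⟩

theorem chk_iff : chk m n = true ↔ ¬ ∃ s, D m n s ∧ bad n s = true := by
  simp only [chk, List.all_eq_true, Bool.not_eq_true', not_exists, not_and, Bool.not_eq_true]
  constructor
  · intro h s hs
    have : stp m n (fin m n) ⊆ fin m n := closed_iter (stp m n) (U m n) (fun S S' hh l hl => by
      rw [mem_stp] at hl ⊢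
      refine ⟨hl.1, hl.2.imp_right (Or.imp_right fun ⟨s, hs, h⟩ => ⟨s, hh hs, ?_⟩)⟩
      exact h.imp_right (Or.imp_right fun ⟨t, ht, h⟩ => ⟨t, hh ht, h⟩))
      fun S l hl => (mem_stp.1 hl).1
    obtain ⟨l, hl, g, -, r⟩ := complete this hs
    rw [← r.bad, (rlc (m := m) l).bad, h l hl]
  · intro h l hl
    rw [← (rlc (m := m) l).bad]
    exact h _ (sound _ l hl)

end LeadBest
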