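import Mathlib
import Pool.Agent.Lib.lead.Best3

set_option autoImplicit false

namespace LeadBest
open LeadPrim

lemma prim_lists {α β : Type} [Primcodable α] [Primcodable β] {L : α → List β} {k : α → ℕ}
    (hL : PR L) (hk : PR k) : PR fun a => lists (L a) (k a) := by
  unfold lists
  fun_prop

lemma prim_U (m : ℕ) : PR (U m) := by
  have h1 : PR fun n => lists (lists [false, true] (n + m + 5)) 7 :=
    prim_lists (prim_lists (by fun_prop) (by fun_prop)) (by fun_prop)
  have h2 : PR fun n => lists (lists (List.range (3 * (n + m + 5))) (n + m + 5)) (n + m + 5) :=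
    prim_lists (prim_lists (by fun_prop) (by fun_prop)) (by fun_prop)
  unfold U
  generalize (fun n => lists (lists [false, true] (n + m + 5)) 7) = A at h1
  exact PR.flatMap (PR.flatMap (PR.map (by fun_prop) (h2.comp (by fun_prop)))
    (prim_lists (prim_lists (by fun_prop) (by fun_prop)) (by fun_prop))) (by fun_prop)

def gk (l : LS) : ℕ := l.1
def gf (l : LS) (a c : ℕ) : Bool := (l.2.1.getD a []).getD c false
def gw (l : LS) (j x : ℕ) : ℕ := (l.2.2.getD j []).getD x 0
lemma e_k (l : LS) : (absN l).k = gk l := rfl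
lemma e_f (l : LS) (a c : ℕ) : (absN l).f a c = gf l a c := rfl
lemma e_w (l : LS) (a c : ℕ) : (absN l).w a c = gw l a c := rfl

def leb (x y : ℕ) : Bool := decide (x ≤ y)
def eqn (x y : ℕ) : Bool := decide (x = y)
def eqB (x y : Bool) : Bool := decide (x = y)
lemma e_le (x y : ℕ) (i : Decidable (x ≤ y)) : @decide (x ≤ y) i = leb x y := by simp [leb]
lemma e_eq (x y : ℕ) (i : Decidable (x = y)) : @decide (x = y) i = eqn x y := by simp [eqn]
lemma e_eB (x y : Bool) (i : Decidable (x = y)) : @decide (x = y) i = eqB x y := by simp [eqB]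

section
variable {α : Type} [Primcodable α]
@[fun_prop] lemma pr_leb {x y : α → ℕ} (hx : PR x) (hy : PR y) : PR fun a => leb (x a) (y a) :=
  PR.decide_le hx hy
@[fun_prop] lemma pr_eqn {x y : α → ℕ} (hx : PR x) (hy : PR y) : PR fun a => eqn (x a) (y a) :=
  PR.decide_eq hx hy
@[fun_prop] lemma pr_eqB {x y : α → Bool} (hx : PR x) (hy : PR y) : PR fun a => eqB (x a) (y a) :=
  PR.decide_eq hx hy
@[fun_prop] lemma pr_gk {l : α → LS} (hl : PR l) : PR fun a => gk (l a) := by
  unfold gk; fun_prop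
@[fun_prop] lemma pr_gf {l : α → LS} {x y : α → ℕ} (hl : PR l) (hx : PR x) (hy : PR y) :
    PR fun a => gf (l a) (x a) (y a) := by
  unfold gf; fun_prop
@[fun_prop] lemma pr_gw {l : α → LS} {x y : α → ℕ} (hl : PR l) (hx : PR x) (hy : PR y) :
    PR fun a => gw (l a) (x a) (y a) := by
  unfold gw; fun_prop
@[fun_prop] lemma pr_tg {x : α → ℕ} (hx : PR x) : PR fun a => tg (x a) := by
  unfold tg; fun_prop
@[fun_prop] lemma pr_ar {x : α → ℕ} (hx : PR x) : PR fun a => ar (x a) := by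
  unfold ar; fun_prop
@[fun_prop] lemma pr_a1 {x : α → ℕ} (hx : PR x) : PR fun a => a1 (x a) := by
  unfold a1; fun_prop
@[fun_prop] lemma pr_a2 {x : α → ℕ} (hx : PR x) : PR fun a => a2 (x a) := by
  unfold a2; fun_prop
lemma pr_All {n : α → ℕ} {p : α → ℕ → Bool} (hn : PR n) (hp : PR fun q : α × ℕ => p q.1 q.2) :
    PR fun a => All (n a) (p a) := PR.all hp (PR.range hn)
end

attribute [local irreducible] gk gf gw tg ar a1 a2 leb eqn eqB

lemma prim_leaf (m : ℕ) : PR fun p : ℕ × LS => leaf m p.1 (absN p.2) := by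
  simp only [leaf, want, e_le, e_eq, e_eB]
  simp only [e_k, e_f, e_w]
  refine .and (.and (.and ?_ (pr_All ?_ ?_)) ?_) (pr_All ?_ ?_) <;> fun_prop

lemma prim_init (m : ℕ) : PR fun p : ℕ × LS => init m p.1 (absN p.2) := by
  simp only [init, e_le, e_eq, e_eB]
  simp only [e_k, e_f, e_w]
  refine .and ?_ (pr_All ?_ ?_) <;> fun_prop

lemma prim_bad : PR fun p : ℕ × LS => bad p.1 (absN p.2) := by
  simp only [bad, rootOK, e_le, e_eq, e_eB]
  simp only [e_k, e_f, e_w]
  refine .and ?_ (pr_All ?_ ?_) <;> fun_prop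

lemma prim_iso (m : ℕ) : PR fun p : ℕ × LS × LS => iso m p.1 (absN p.2.1) (absN p.2.2) := by
  simp only [iso, e_le, e_eq, e_eB]
  simp only [e_k, e_f, e_w]
  refine .and (.and ?_ (pr_All ?_ (pr_All ?_ ?_))) (pr_All ?_ (pr_All ?_ (pr_All ?_ ?_))) <;>
    fun_prop

lemma prim_same (m : ℕ) : PR fun p : ℕ × LS × LS => same m p.1 (absN p.2.1) (absN p.2.2) := by
  simp only [same, e_le, e_eq, e_eB]
  simp only [e_k, e_f, e_w]
  refine pr_All ?_ (.and ?_ (pr_All ?_ ?_)) <;> fun_prop

lemma prim_close (m : ℕ) : PR fun p : ℕ × LS × LS => close m p.1 (absN p.2.1) (absN p.2.2) := by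
  simp only [close, want, e_le, e_eq, e_eB]
  simp only [e_k, e_f, e_w]
  refine .and (.and (.and (.and ?_ (prim_same m)) (pr_All ?_ ?_)) (pr_All ?_ ?_)) ?_ <;> fun_prop

lemma prim_fit (m : ℕ) : PR fun p : ℕ × LS × LS => fit m p.1 (absN p.2.1) (absN p.2.2) := by
  simp only [fit, actv, e_le, e_eq, e_eB]
  simp only [e_k, e_f, e_w]
  refine .and ?_ (pr_All ?_ (.and (.and ?_ (pr_All ?_ ?_)) ?_)) <;> fun_prop

lemma prim_add (m : ℕ) : PR fun p : ℕ × LS × LS × LS =>
    add m p.1 (absN p.2.1) (absN p.2.2.1) (absN p.2.2.2) := by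
  simp only [add, con, actv, e_le, e_eq, e_eB]
  simp only [e_k, e_f, e_w]
  refine .and (.and (.and ?_ ((prim_fit m).comp
    (f := fun p : ℕ × LS × LS × LS => (p.1, p.2.1, p.2.2.1)) ?_)) ((prim_same m).comp
    (f := fun p : ℕ × LS × LS × LS => (p.1, p.2.1, p.2.2.2)) ?_)) (pr_All ?_ (pr_All ?_ ?_)) <;>
    fun_prop

lemma prim_stp (m : ℕ) : PR fun p : ℕ × List LS => stp m p.1 p.2 := by
  unfold stp
  refine PR.filter (PR.or (PR.or ((prim_leaf m).comp (f := fun p : (ℕ × List LS) × LS => (p.1.1, p.2))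
    (by fun_prop)) ((prim_init m).comp (f := fun p : (ℕ × List LS) × LS => (p.1.1, p.2))
    (by fun_prop))) (PR.any (PR.or (PR.or ?_ ?_) (PR.any ?_ (by fun_prop))) (by fun_prop)))
    ((prim_U m).comp (by fun_prop))
  · exact (prim_iso m).comp (f := fun p : ((ℕ × List LS) × LS) × LS => (p.1.1.1, p.2, p.1.2))
      (by fun_prop)
  · exact (prim_close m).comp (f := fun p : ((ℕ × List LS) × LS) × LS => (p.1.1.1, p.2, p.1.2))
      (by fun_prop)
  · exact (prim_add m).comp
      (f := fun p : (((ℕ × List LS) × LS) × LS) × LS => (p.1.1.1.1, p.1.2, p.2, p.1.1.2))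
      (by fun_prop)

lemma prim_chk (m : ℕ) : Primrec (chk m) := by
  have : PR (fin m) := PR.iterate (prim_stp m) (PR.length (prim_U m)) (by fun_prop)
  exact (PR.all (PR.not prim_bad) this).prim

end LeadBest
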