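import Mathlib
import Pool.Agent.Lib.lead.Best2

set_option autoImplicit false

namespace LeadBest
open Relation

variable {m n : ℕ}

def Summ (m n : ℕ) (s : AS ℚ) (C : AS ℚ → Prop) : Prop :=
  (∀ t, C t → fit m n s t = true) ∧ ∀ a, a < 7 → a ≠ 3 → ∀ c, c < n + m + 5 →
    (s.f a c = true ↔ ∃ t, C t ∧ con s t a c = true)

lemma same_iff {s r : AS ℚ} : same m n s r = true ↔ ∀ j, j < n + m + 5 → r.f 3 j = s.f 3 j ∧
    ∀ x, x < n + m + 5 → r.w j x = s.w j x := by
  simp [same, All_iff]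

lemma same_fit {s r : AS ℚ} (h : same m n s r = true) (hk : r.k = s.k) (hm : s.k ≤ m) (t : AS ℚ) :
    fit m n r t = fit m n s t ∧ ∀ a c, c < n + m + 5 → con r t a c = con s t a c := by
  rw [same_iff] at h
  have h1 := fun j hj => (h j hj).1
  have h2 := fun j x hj => (h j hj).2 x
  have h3 : actv r t = actv s t := by simp (disch := omega) only [actv, hk, h2]
  constructor
  · unfold fit
    simp (disch := omega) only [hk, h2, h3]
    congr 1
    refine All_congr fun j hj => ?_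
    simp (disch := omega) only [h1, h2]
    congr 2
    refine All_congr fun j hj => ?_
    simp (disch := omega) only [h2]
  · intro a c hc
    simp (disch := omega) only [con, hk, h2, h3]

lemma summ_init {s : AS ℚ} : init m n s = true ↔ 1 ≤ s.k ∧ s.k ≤ m ∧ Summ m n s fun _ => False := by
  simp only [init, Bool.and_eq_true, decide_eq_true_eq, All_iff, Bool.not_eq_true', Summ,
    false_imp_iff, implies_true, false_and, exists_false, iff_false, true_and, Bool.not_eq_true,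
    and_assoc]
  refine and_congr_right fun _ => and_congr_right fun _ => ⟨fun h a ha h3 c hc => ?_,
    fun h c hc => ?_⟩
  · have := h c hc
    interval_cases a <;> simp_all
  · refine ⟨h _ ?_ ?_ _ hc, h _ ?_ ?_ _ hc, h _ ?_ ?_ _ hc, h _ ?_ ?_ _ hc, h _ ?_ ?_ _ hc,
      h _ ?_ ?_ _ hc⟩ <;> omega

lemma add_iff {s t r : AS ℚ} : add m n s t r = true ↔ 1 ≤ s.k ∧ s.k ≤ m ∧ r.k = s.k ∧
    fit m n s t = true ∧ same m n s r = true ∧
      ∀ a, a < 7 → ∀ c, c < n + m + 5 → r.f a c = (s.f a c || con s t a c) := by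
  simp only [add, Bool.and_eq_true, decide_eq_true_eq, All_iff, and_assoc]

lemma summ_add {s t r : AS ℚ} {C} (h : Summ m n s C) (h' : add m n s t r = true) :
    Summ m n r fun x => C x ∨ x = t := by
  obtain ⟨-, h2, h3, h4, h5, h6⟩ := add_iff.1 h'
  have := same_fit h5 h3 h2
  refine ⟨fun x hx => ?_, fun a ha h7 c hc => ?_⟩
  · rw [(this x).1]
    rcases hx with hx | rfl
    · exact h.1 x hx
    · exact h4
  · simp only [h6 a ha c hc, Bool.or_eq_true, h.2 a ha h7 c hc, fun x => (this x).2 a c hc,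
      or_and_right, exists_or, exists_eq_left]

lemma summ_D (l : List (AS ℚ)) (hl : ∀ t ∈ l, D m n t) :
    ∀ s : AS ℚ, 1 ≤ s.k → s.k ≤ m → Summ m n s (· ∈ l) → D m n s := by
  induction l with
  | nil => exact fun s h1 h2 h => .init (summ_init.2 ⟨h1, h2, by simpa using h⟩)
  | cons t l ih =>
    intro s h1 h2 h
    let s' : AS ℚ := ⟨s.k, fun a c => if a = 3 then s.f 3 c else l.any (con s · a c), s.w⟩
    have h3 : same m n s s' = true := same_iff.2 fun j _ => ⟨rfl, fun _ _ => rfl⟩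
    have h4 := same_fit h3 rfl h2
    refine .add (ih (fun t ht => hl t (.tail _ ht)) s' h1 h2 ⟨fun x hx => ?_, fun a ha h5 c hc => ?_⟩)
      (hl t (.head _)) (add_iff.2 ⟨h1, h2, rfl, ?_, same_iff.2 fun j _ => ⟨rfl, fun _ _ => rfl⟩,
        fun a ha c hc => ?_⟩)
    · rw [(h4 x).1]; exact h.1 x (.tail _ hx)
    · simp only [fun x => (h4 x).2 a c hc]
      simp [s', h5]
    · rw [(h4 t).1]; exact h.1 t (.head _)
    · rw [(h4 t).2 a c hc]
      by_cases h5 : a = 3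
      · simp [s', h5, con]
      · rw [Bool.eq_iff_iff, h.2 a ha h5 c hc]
        simp [s', h5, or_comm]

def Loc (n : ℕ) {V : Type} (mv : V → V → Prop) (turn : V → Fin m) (vl : ℕ → V → ℚ)
    (lab : V → AS ℚ) (v : V) : Prop :=
  ((¬ ∃ w, mv v w) ∧ leaf m n (lab v) = true ∧ ∀ j, j < n + m + 5 → (lab v).w j 0 = vl j v) ∨
    ∃ s : AS ℚ, s.k = turn v + 1 ∧ close m n s (lab v) = true ∧
      Summ m n s fun t => ∃ z, mv v z ∧ lab z = t

lemma close_iff {s r : AS ℚ} : close m n s r = true ↔ 1 ≤ s.k ∧ s.k ≤ m ∧ r.k = 0 ∧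
    same m n s r = true ∧
    (∀ j, j < n + m + 5 → s.f 4 j = true ∧ s.f 5 j = true ∧ s.f 6 j = true) ∧
    (∀ c, c < n + 1 → r.f 0 c = want s.k (r.f 0) (s.f 0) (s.f 1) (fun _ => false) c ∧
      r.f 2 c = s.f 2 c) ∧ r.f 2 (n + 1) = (s.f 2 (n + 1) || !r.f 0 n) := by
  simp only [close, Bool.and_eq_true, decide_eq_true_eq, All_iff, and_assoc]

lemma leaf_iff {s : AS ℚ} : leaf m n s = true ↔ s.k = 0 ∧ (∀ c, c < n + 1 →
    s.f 0 c = want 0 (s.f 0) (fun _ => false) (fun _ => false)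
      (fun c => s.f 3 c && decide (s.w (a1 c) 0 ≤ s.w (a1 c) (3 + c))) c ∧
    (tg c = 8 → s.f 0 (a2 c) = true → s.f 0 c = true) ∧
    s.f 2 c = (s.f 0 (a2 c) && decide (s.w (a1 c) 0 = s.w (a1 c) (3 + c)))) ∧
    s.f 2 (n + 1) = (!s.f 0 n) ∧ ∀ j, j < n + m + 5 → s.w j 0 = s.w j 1 := by
  simp only [leaf, Bool.and_eq_true, decide_eq_true_eq, All_iff, and_assoc, Bool.or_eq_true,
    Bool.not_eq_true', decide_eq_false_iff_not, imp_iff_not_or (b := _ → _),
    imp_iff_not_or (a := _ = true), Bool.not_eq_true, or_assoc, imp_iff_not_or (a := tg _ = 8)]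

lemma fit_iff {s t : AS ℚ} : fit m n s t = true ↔ t.k = 0 ∧ t.w (s.k - 1) 0 ≤ s.w (s.k - 1) 2 ∧
    ∀ j, j < n + m + 5 → t.f 3 j = s.f 3 j ∧ (∀ c, c < n + 1 → t.w j (3 + c) = s.w j (3 + c)) ∧
      (actv s t = true → s.w j 0 ≤ t.w j 0 ∧ t.w j 1 ≤ s.w j 1) := by
  simp only [fit, Bool.and_eq_true, decide_eq_true_eq, All_iff, and_assoc, Bool.or_eq_true,
    Bool.not_eq_true', ← Bool.not_eq_true, ← imp_iff_not_or]

section lab
variable (G : Game m) {vl : ℕ → G.V → ℚ} {lab : G.V → AS ℚ}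
  (hl : ∀ v, Loc n G.mv G.turn vl lab v)
include hl

lemma loc_D (v : G.V) : D m n (lab v) := by
  have := G.finite
  induction v using G.wf.induction with
  | _ v ih =>
  rcases hl v with h | ⟨s, h1, h2, h3⟩
  · exact .leaf h.2.1
  · have hf : (lab '' {z | G.mv v z}).Finite := Set.toFinite _
    refine .close (summ_D hf.toFinset.toList ?_ s (by omega) (close_iff.1 h2).2.1 ?_) h2
    · intro t ht
      obtain ⟨z, hz, rfl⟩ := hf.mem_toFinset.1 (Finset.mem_toList.1 ht)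
      exact ih z hz
    · convert h3 using 2
      simp

variable (hv : ∀ (i : Fin m) u v, G.End u → G.End v → (G.le i u v ↔ vl i u ≤ vl i v))
include hv

omit hl in
lemma best_act {v : G.V} {s : AS ℚ} (h1 : s.k = G.turn v + 1) (h2 : close m n s (lab v) = true)
    (h3 : Summ m n s fun t => ∃ z, G.mv v z ∧ lab z = t)
    (ih : ∀ z, G.mv v z → ∀ j, j < n + m + 5 → IsLeast (vl j '' G.L z) ((lab z).w j 0) ∧
      IsGreatest (vl j '' G.L z) ((lab z).w j 1)) (z : G.V) :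
    G.best v z ↔ G.mv v z ∧ actv s (lab z) = true := by
  have hk : s.k - 1 = G.turn v := by omega
  have ht : (G.turn v : ℕ) < n + m + 5 := by omega
  rw [G.best_iff (vl (G.turn v)) (fun z => (lab z).w (G.turn v) 0) (fun z => (lab z).w (G.turn v) 1)
    (s.w (G.turn v) 2) (hv _) (fun z hz => (ih z hz _ ht).1) (fun z hz => (ih z hz _ ht).2)]
  · simp [actv, hk]
  · exact fun z hz => hk ▸ (fit_iff.1 (h3.1 _ ⟨z, hz, rfl⟩)).2.1
  · obtain ⟨_, ⟨z, hz, rfl⟩, h⟩ := (h3.2 6 (by omega) (by omega) 0 (by omega)).1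
      ((close_iff.1 h2).2.2.2.2.1 0 (by omega)).2.2
    exact ⟨z, hz, by simpa [con, hk] using h⟩

omit hl hv in
lemma not_end {v : G.V} {s : AS ℚ} (h2 : close m n s (lab v) = true)
    (h3 : Summ m n s fun t => ∃ z, G.mv v z ∧ lab z = t) : ¬ G.End v := by
  obtain ⟨_, ⟨z, hz, rfl⟩, -⟩ := (h3.2 6 (by omega) (by omega) 0 (by omega)).1
    ((close_iff.1 h2).2.2.2.2.1 0 (by omega)).2.2
  exact fun h => h ⟨z, hz⟩

lemma loc_ab (v : G.V) : ∀ j, j < n + m + 5 → IsLeast (vl j '' G.L v) ((lab v).w j 0) ∧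
    IsGreatest (vl j '' G.L v) ((lab v).w j 1) := by
  induction v using G.wf.induction with
  | _ v ih =>
  intro j hj
  rcases hl v with ⟨h1, h2, h3⟩ | ⟨s, h1, h2, h3⟩
  · rw [G.L_end h1, ← (leaf_iff.1 h2).2.2.2 j hj, h3 j hj, Set.image_singleton]
    exact ⟨isLeast_singleton, isGreatest_singleton⟩
  · have hb := best_act G hv h1 h2 h3 ih
    have he := not_end G h2 h3
    obtain ⟨-, -, -, h4, h5, -⟩ := close_iff.1 h2
    rw [(same_iff.1 h4 j hj).2 0 (by omega), (same_iff.1 h4 j hj).2 1 (by omega)]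
    have h6 : ∀ u ∈ G.L v, s.w j 0 ≤ vl j u ∧ vl j u ≤ s.w j 1 := by
      intro u hu
      obtain ⟨z, hz, hu⟩ := (G.L_int he).1 hu
      obtain ⟨hz, ha⟩ := (hb z).1 hz
      have := ((fit_iff.1 (h3.1 _ ⟨z, hz, rfl⟩)).2.2 j hj).2.2 ha
      exact ⟨this.1.trans ((ih z hz j hj).1.2 ⟨u, hu, rfl⟩),
        ((ih z hz j hj).2.2 ⟨u, hu, rfl⟩).trans this.2⟩
    refine ⟨⟨?_, ?_⟩, ?_, ?_⟩
    · obtain ⟨_, ⟨z, hz, rfl⟩, h⟩ := (h3.2 4 (by omega) (by omega) j hj).1 (h5 j hj).1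
      simp [con] at h
      obtain ⟨u, hu, e⟩ := (ih z hz j hj).1.1
      exact ⟨u, (G.L_int he).2 ⟨z, (hb z).2 ⟨hz, h.1⟩, hu⟩, e.trans h.2⟩
    · rintro _ ⟨u, hu, rfl⟩; exact (h6 u hu).1
    · obtain ⟨_, ⟨z, hz, rfl⟩, h⟩ := (h3.2 5 (by omega) (by omega) j hj).1 (h5 j hj).2.1
      simp [con] at h
      obtain ⟨u, hu, e⟩ := (ih z hz j hj).2.1
      exact ⟨u, (G.L_int he).2 ⟨z, (hb z).2 ⟨hz, h.1⟩, hu⟩, e.trans h.2⟩
    · rintro _ ⟨u, hu, rfl⟩; exact (h6 u hu).2

omit hv in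
lemma loc_glob (v : G.V) : ∀ j, j < n + m + 5 → (lab v).f 3 j = (lab G.root).f 3 j ∧
    ∀ c, c < n + 1 → (lab v).w j (3 + c) = (lab G.root).w j (3 + c) := by
  induction G.reach v with
  | refl => exact fun _ _ => ⟨rfl, fun _ _ => rfl⟩
  | @tail u v _ h ih =>
    intro j hj
    rcases hl u with ⟨h1, -⟩ | ⟨s, -, h2, h3⟩
    · exact (h1 ⟨v, h⟩).elim
    · have h4 := (fit_iff.1 (h3.1 _ ⟨v, h, rfl⟩)).2.2 j hj
      have h5 := same_iff.1 (close_iff.1 h2).2.2.2.1 j hj
      exact ⟨h4.1.trans (h5.1.symm.trans (ih j hj).1), fun c hc =>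
        (h4.2.1 c hc).trans ((h5.2 _ (by omega)).symm.trans ((ih j hj).2 c hc))⟩

omit hv in
lemma loc_wit {c : ℕ} (hc : c < n + 1) (v : G.V) : (lab v).f 2 c = true → ∃ u, G.End u ∧
    (lab u).f 0 (a2 c) = true ∧ vl (a1 c) u = (lab u).w (a1 c) (3 + c) := by
  induction v using G.wf.induction with
  | _ v ih =>
  intro h
  rcases hl v with ⟨h1, h2, h3⟩ | ⟨s, h1, h2, h3⟩
  · have := ar_le c
    have := a1_le c
    rw [((leaf_iff.1 h2).2.1 c hc).2.2, h3 _ (by omega)] at h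
    exact ⟨v, h1, by simpa using h⟩
  · rw [((close_iff.1 h2).2.2.2.2.2.1 c hc).2, h3.2 2 (by omega) (by omega) c (by omega)] at h
    obtain ⟨_, ⟨z, hz, rfl⟩, h⟩ := h
    exact ih z hz (by simpa [con] using h)

omit hv in
lemma loc_bad (v : G.V) : (lab v).f 2 (n + 1) = true ↔
    ∃ u, ReflTransGen G.mv v u ∧ (lab u).f 0 n = false := by
  induction v using G.wf.induction with
  | _ v ih =>
  have : (∃ u, ReflTransGen G.mv v u ∧ (lab u).f 0 n = false) ↔
      (∃ z, G.mv v z ∧ (lab z).f 2 (n + 1) = true) ∨ (lab v).f 0 n = false := by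
    constructor
    · rintro ⟨u, h, h'⟩
      rcases h.cases_head with rfl | ⟨z, h1, h2⟩
      · exact .inr h'
      · exact .inl ⟨z, h1, (ih z h1).2 ⟨u, h2, h'⟩⟩
    · rintro (⟨z, h1, h2⟩ | h)
      · obtain ⟨u, h3, h4⟩ := (ih z h1).1 h2
        exact ⟨u, .head h1 h3, h4⟩
      · exact ⟨v, .refl, h⟩
  rw [this]
  rcases hl v with ⟨h1, h2, h3⟩ | ⟨s, h1, h2, h3⟩
  · rw [(leaf_iff.1 h2).2.2.1]
    simp only [Bool.not_eq_true', iff_or_self]
    exact fun ⟨z, hz, _⟩ => (h1 ⟨z, hz⟩).elim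
  · rw [(close_iff.1 h2).2.2.2.2.2.2, Bool.or_eq_true,
      h3.2 2 (by omega) (by omega) _ (by omega)]
    simp [con]

lemma view (v : G.V) : ∃ k ex eb pf,
    (∀ c, c < n + 1 → (lab v).f 0 c = want k ((lab v).f 0) ex eb pf c) ∧ (k = 0 ↔ G.End v) ∧
    (∀ i : Fin m, k = i + 1 ↔ ¬ G.End v ∧ G.turn v = i) ∧
    (∀ c, c < n + 1 → (ex c = true ↔ ∃ z, G.mv v z ∧ (lab z).f 0 c = true)) ∧
    (∀ c, c < n + 1 → (eb c = true ↔ ∃ z, G.best v z ∧ (lab z).f 0 c = true)) ∧
    (∀ c, c < n + 1 → (pf c = true ↔ G.End v ∧ (lab v).f 3 c = true ∧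
      vl (a1 c) v ≤ (lab v).w (a1 c) (3 + c))) := by
  rcases hl v with ⟨h1, h2, h3⟩ | ⟨s, h1, h2, h3⟩
  · refine ⟨0, _, _, _, fun c hc => ((leaf_iff.1 h2).2.1 c hc).1, iff_of_true rfl h1,
      fun i => iff_of_false (by omega) fun h => h.1 h1,
      fun c _ => iff_of_false (by simp) fun ⟨z, hz, _⟩ => h1 ⟨z, hz⟩,
      fun c _ => iff_of_false (by simp) fun ⟨z, hz, _⟩ => h1 ⟨z, G.best_mv hz⟩, fun c hc => ?_⟩
    have := ar_le c
    have := a1_le c
    rw [h3 _ (by omega)]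
    simp [Game.End, h1]
  · have he := not_end G h2 h3
    have hb := best_act G hv h1 h2 h3 fun z _ => loc_ab G hl hv z
    refine ⟨s.k, _, _, _, fun c hc => ((close_iff.1 h2).2.2.2.2.2.1 c hc).1,
      iff_of_false (by omega) he, fun i => ?_, fun c hc => ?_, fun c hc => ?_,
      fun c _ => iff_of_false (by simp) fun h => he h.1⟩
    · simp [h1, he, Fin.ext_iff]
    · rw [h3.2 0 (by omega) (by omega) c (by omega)]
      simp [con]
    · rw [h3.2 1 (by omega) (by omega) c (by omega)]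
      simp [con, hb, and_assoc]

theorem truth (hr : rootOK n (lab G.root) = true)
    (hp : ∀ p v, G.val p v ↔ (lab v).f 0 (Nat.pair 0 p) = true) (φ : Fm m) :
    φ.code < n + 1 → ∀ v, (lab v).f 0 φ.code = true ↔ G.Sat φ v := by
  induction φ with
  | var p => exact fun _ v => (hp p v).symm
  | neg φ ih =>
    intro hc v
    have := Nat.right_le_pair 1 φ.code
    obtain ⟨k, ex, eb, pf, h1, -⟩ := view G hl hv v
    rw [h1 _ hc, Game.Sat, ← ih (by simp only [Fm.code] at hc; omega)]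
    simp [want, Fm.code, tg, ar]
  | and φ ψ ih ih' =>
    intro hc v
    have := Nat.right_le_pair 2 (Nat.pair φ.code ψ.code)
    have := Nat.right_le_pair φ.code ψ.code
    have := Nat.left_le_pair φ.code ψ.code
    obtain ⟨k, ex, eb, pf, h1, -⟩ := view G hl hv v
    rw [h1 _ hc, Game.Sat, ← ih (by simp only [Fm.code] at hc; omega),
      ← ih' (by simp only [Fm.code] at hc; omega)]
    simp [want, Fm.code, tg, a1, a2]
  | fin =>
    intro hc v
    obtain ⟨k, ex, eb, pf, h1, h2, -⟩ := view G hl hv v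
    rw [h1 _ hc, Game.Sat, ← h2]
    simp [want, Fm.code, tg]
  | turn i =>
    intro hc v
    obtain ⟨k, ex, eb, pf, h1, -, h2, -⟩ := view G hl hv v
    rw [h1 _ hc, Game.Sat, ← h2]
    simp [want, Fm.code, tg, ar]
  | dia r φ ih =>
    intro hc v
    have hφ : φ.code < n + 1 := by
      refine lt_of_le_of_lt ?_ hc
      cases r <;> first
        | exact Nat.right_le_pair _ _
        | exact (Nat.right_le_pair _ _).trans (Nat.right_le_pair _ _)
    replace ih := ih hφ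
    simp only [Game.Sat, ← ih]
    cases r with
    | move =>
      obtain ⟨k, ex, eb, pf, h1, -, -, h2, -⟩ := view G hl hv v
      rw [h1 _ hc, Game.rel, ← h2 _ hφ]
      simp [want, Fm.code, tg, ar]
    | movei i =>
      obtain ⟨k, ex, eb, pf, h1, -, h3, h2, -⟩ := view G hl hv v
      rw [h1 _ hc]
      simp only [want, Fm.code, tg, a1, a2, Nat.unpair_pair, Game.rel]
      simp only [Nat.reduceEqDiff, decide_false, decide_true, cond_false, cond_true,
        Bool.and_eq_true, decide_eq_true_eq, h3, h2 _ hφ]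
      exact ⟨fun ⟨a, z, b, c⟩ => ⟨z, ⟨a.2, b⟩, c⟩,
        fun ⟨z, a, b⟩ => ⟨⟨fun h => h ⟨z, a.2⟩, a.1⟩, z, a.2, b⟩⟩
    | movep =>
      induction v using G.wf.induction with
      | _ v ih2 =>
      obtain ⟨k, ex, eb, pf, h1, -, -, h2, -⟩ := view G hl hv v
      rw [h1 _ hc]
      simp only [want, Fm.code, tg, ar, Nat.unpair_pair, Game.rel] at ih2 hc ⊢
      simp only [Nat.reduceEqDiff, decide_false, decide_true, cond_false, cond_true,
        Bool.or_eq_true, h2 _ hφ, h2 _ hc]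
      constructor
      · rintro (⟨z, a, b⟩ | ⟨z, a, b⟩)
        · exact ⟨z, .single a, b⟩
        · obtain ⟨u, c, d⟩ := (ih2 z a).1 b
          exact ⟨u, .head a c, d⟩
      · rintro ⟨u, a, b⟩
        obtain ⟨z, c, d⟩ := TransGen.head'_iff.1 a
        rcases reflTransGen_iff_eq_or_transGen.1 d with rfl | d
        · exact .inl ⟨_, c, b⟩
        · exact .inr ⟨z, c, (ih2 z c).2 ⟨u, d, b⟩⟩
    | pref i =>
      have e0 : tg (Fm.dia (.pref i) φ).code = 8 := by simp [tg, Fm.code]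
      have e1 : a1 (Fm.dia (.pref i) φ).code = i := by simp [a1, Fm.code]
      have e2 : a2 (Fm.dia (.pref i) φ).code = φ.code := by simp [a2, Fm.code]
      generalize (Fm.dia (.pref i) φ).code = c at *
      have hi : (i : ℕ) < n + m + 5 := by omega
      have key : ∀ v, (lab v).f 0 c = true ↔ G.End v ∧ (lab G.root).f 3 c = true ∧
          vl i v ≤ (lab G.root).w i (3 + c) := by
        intro v
        obtain ⟨k, ex, eb, pf, h1, -, -, -, -, h2⟩ := view G hl hv v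
        rw [h1 _ hc, ← (loc_glob G hl v c (by omega)).1, ← (loc_glob G hl v i hi).2 c hc, ← e1,
          ← h2 _ hc]
        simp [want, e0]
      rw [key]
      constructor
      · rintro ⟨h1, h2, h3⟩
        have := All_iff.1 hr c hc
        simp only [e0, decide_true, h2, Bool.not_true, Bool.or_self, Bool.false_or] at this
        obtain ⟨u, h4, h5, h6⟩ := loc_wit G hl hc _ this
        rw [e1, (loc_glob G hl u i hi).2 c hc] at h6
        exact ⟨u, ⟨h1, h4, (hv i _ _ h1 h4).2 (h6 ▸ h3)⟩, e2 ▸ h5⟩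
      · rintro ⟨u, ⟨h1, h2, h3⟩, h4⟩
        rcases hl u with ⟨-, h5, -⟩ | ⟨s, -, h5, h6⟩
        · have := (key u).1 (((leaf_iff.1 h5).2.1 c hc).2.1 e0 (e2 ▸ h4))
          exact ⟨h1, this.2.1, ((hv i _ _ h1 h2).1 h3).trans this.2.2⟩
        · exact (not_end G h5 h6 h2).elim
    | best =>
      obtain ⟨k, ex, eb, pf, h1, -, -, -, h2, -⟩ := view G hl hv v
      rw [h1 _ hc, Game.rel, ← h2 _ hφ]
      simp [want, Fm.code, tg, ar]
    | bests =>
      induction v using G.wf.induction with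
      | _ v ih2 =>
      obtain ⟨k, ex, eb, pf, h1, -, -, -, h2, -⟩ := view G hl hv v
      rw [h1 _ hc]
      simp only [want, Fm.code, tg, ar, Nat.unpair_pair, Game.rel] at ih2 hc ⊢
      simp only [Nat.reduceEqDiff, decide_false, decide_true, cond_false, cond_true,
        Bool.or_eq_true, h2 _ hc]
      constructor
      · rintro (a | ⟨z, a, b⟩)
        · exact ⟨v, .refl, a⟩
        · obtain ⟨u, c, d⟩ := (ih2 z (G.best_mv a)).1 b
          exact ⟨u, .head a c, d⟩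
      · rintro ⟨u, a, b⟩
        rcases a.cases_head with rfl | ⟨z, c, d⟩
        · exact .inl b
        · exact .inr ⟨z, c, (ih2 z (G.best_mv c)).2 ⟨u, d, b⟩⟩

end lab
end LeadBest
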