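import Mathlib
import Pool.Agent.Lib.lead.Best4
import Pool.Agent.Lib.lead.Best3p

set_option autoImplicit false

namespace LeadBest
open Relation

variable {m n : ℕ}

def ev (G : Game m) (vl : ℕ → G.V → ℚ) (c : ℕ) (v : G.V) : Prop :=
  if h : tg c = 0 then G.val (ar c) v else
  have := ar_lt h
  have := a1_le c
  have := a2_le c
  if tg c = 1 then ¬ ev G vl (ar c) v else
  if tg c = 2 then ev G vl (a1 c) v ∧ ev G vl (a2 c) v else
  if tg c = 3 then G.End v else
  if tg c = 4 then ¬ G.End v ∧ (G.turn v : ℕ) = ar c else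
  if tg c = 5 then ∃ z, G.mv v z ∧ ev G vl (ar c) z else
  if tg c = 6 then (G.turn v : ℕ) = a1 c ∧ ∃ z, G.mv v z ∧ ev G vl (a2 c) z else
  if tg c = 7 then ∃ z, TransGen G.mv v z ∧ ev G vl (ar c) z else
  if tg c = 8 then G.End v ∧ ∃ u, G.End u ∧ vl (a1 c) v ≤ vl (a1 c) u ∧ ev G vl (a2 c) u else
  if tg c = 9 then ∃ z, G.best v z ∧ ev G vl (ar c) z else
  if tg c = 10 then ∃ z, ReflTransGen G.best v z ∧ ev G vl (ar c) z else True
termination_by c
decreasing_by all_goals omega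

open Classical in
lemma ev_want (G : Game m) (vl : ℕ → G.V → ℚ) (v : G.V) (k : ℕ) (ex eb pf : ℕ → Bool) (c : ℕ)
    (h0 : k = 0 ↔ G.End v) (h1 : ∀ i, k = i + 1 ↔ ¬ G.End v ∧ (G.turn v : ℕ) = i)
    (h2 : ∀ d, d ≤ c → (ex d = true ↔ ∃ z, G.mv v z ∧ ev G vl d z))
    (h3 : ∀ d, d ≤ c → (eb d = true ↔ ∃ z, G.best v z ∧ ev G vl d z))
    (h4 : pf c = true ↔ G.End v ∧ ∃ u, G.End u ∧ vl (a1 c) v ≤ vl (a1 c) u ∧ ev G vl (a2 c) u) :
    decide (ev G vl c v) = want k (fun c => decide (ev G vl c v)) ex eb pf c := by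
  have := ar_le c
  have := a1_le c
  have := a2_le c
  rw [Bool.eq_iff_iff, decide_eq_true_eq]
  by_cases t7 : tg c = 7
  · have e : ∀ v, ev G vl c v ↔ ∃ z, TransGen G.mv v z ∧ ev G vl (ar c) z := fun v => by
      rw [ev]; simp [t7]
    simp (disch := omega) only [want, t7, Nat.reduceEqDiff, decide_false, decide_true, cond_false,
      cond_true, Bool.or_eq_true, h2, e]
    constructor
    · rintro ⟨u, a, b⟩
      obtain ⟨z, c, d⟩ := TransGen.head'_iff.1 a
      rcases reflTransGen_iff_eq_or_transGen.1 d with rfl | d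
      · exact .inl ⟨_, c, b⟩
      · exact .inr ⟨z, c, u, d, b⟩
    · rintro (⟨z, a, b⟩ | ⟨z, a, u, c, d⟩)
      · exact ⟨z, .single a, b⟩
      · exact ⟨u, .head a c, d⟩
  by_cases t10 : tg c = 10
  · have e : ∀ v, ev G vl c v ↔ ∃ z, ReflTransGen G.best v z ∧ ev G vl (ar c) z := fun v => by
      rw [ev]; simp [t10]
    simp (disch := omega) only [want, t10, Nat.reduceEqDiff, decide_false, decide_true, cond_false,
      cond_true, Bool.or_eq_true, h3, e, decide_eq_true_eq]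
    constructor
    · rintro ⟨u, a, b⟩
      rcases a.cases_head with rfl | ⟨z, c, d⟩
      · exact .inl b
      · exact .inr ⟨z, c, u, d, b⟩
    · rintro (a | ⟨z, a, u, c, d⟩)
      · exact ⟨v, .refl, a⟩
      · exact ⟨u, .head a c, d⟩
  by_cases t6 : tg c = 6
  · rw [ev]
    simp (disch := omega) only [want, t6, Nat.reduceEqDiff, decide_false, decide_true, cond_false,
      cond_true, Bool.and_eq_true, h2, h1, decide_eq_true_eq, dite_false, if_false, if_true]
    exact ⟨fun ⟨a, z, b, c⟩ => ⟨⟨fun h => h ⟨z, b⟩, a⟩, z, b, c⟩, fun ⟨a, b⟩ => ⟨a.2, b⟩⟩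
  by_cases t : 1 ≤ tg c ∧ tg c ≤ 9
  · obtain ⟨t1, t2⟩ := t
    rw [ev]
    have : tg c = 1 ∨ tg c = 2 ∨ tg c = 3 ∨ tg c = 4 ∨ tg c = 5 ∨ tg c = 8 ∨ tg c = 9 := by omega
    rcases this with hh | hh | hh | hh | hh | hh | hh <;>
      simp (disch := omega) [want, hh, h0, h1, h2, h3, h4]
  · simp (disch := omega) only [want, decide_eq_false, cond_false, decide_eq_true_eq]

theorem canon (G : Game m) (n : ℕ) : ∃ (vl : ℕ → G.V → ℚ) (lab : G.V → AS ℚ),
    (∀ (i : Fin m) u v, G.End u → G.End v → (G.le i u v ↔ vl i u ≤ vl i v)) ∧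
    (∀ v, Loc n G.mv G.turn vl lab v) ∧ rootOK n (lab G.root) = true ∧ (lab G.root).k = 0 ∧
    ∀ p v, G.val p v ↔ (lab v).f 0 (Nat.pair 0 p) = true := by
  classical
  have := G.finite
  obtain ⟨vl, hv⟩ := G.exists_vl
  have h1 : ∀ z j, ∃ q, IsLeast (vl j '' G.L z) q := fun z j =>
    let ⟨q, h1, h2⟩ := Set.exists_min_image _ id (Set.toFinite _) ((G.L_ne vl hv z).image (vl j))
    ⟨q, h1, h2⟩
  have h2 : ∀ z j, ∃ q, IsGreatest (vl j '' G.L z) q := fun z j =>
    let ⟨q, h1, h2⟩ := Set.exists_max_image _ id (Set.toFinite _) ((G.L_ne vl hv z).image (vl j))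
    ⟨q, h1, h2⟩
  choose a ha using h1
  choose b hb using h2
  have h3 : ∀ v, ¬ G.End v → ∃ M, (∀ z, G.mv v z → a z (G.turn v) ≤ M) ∧
      ∃ z, G.mv v z ∧ a z (G.turn v) = M := fun v h =>
    let ⟨z, h1, h2⟩ := Set.exists_max_image {z | G.mv v z} (a · (G.turn v)) (Set.toFinite _)
      (not_not.1 h)
    ⟨_, h2, z, h1, rfl⟩
  choose! M hM using h3
  have h4 : ∀ c, (∃ u, G.End u ∧ ev G vl (a2 c) u) → ∃ t,
      (∀ u, G.End u ∧ ev G vl (a2 c) u → vl (a1 c) u ≤ t) ∧
      ∃ u, (G.End u ∧ ev G vl (a2 c) u) ∧ vl (a1 c) u = t := fun c h =>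
    let ⟨z, h1, h2⟩ := Set.exists_max_image {u | G.End u ∧ ev G vl (a2 c) u} (vl (a1 c))
      (Set.toFinite _) h
    ⟨_, h2, z, h1, rfl⟩
  choose! t ht using h4
  let W : ℕ → G.V → Prop := fun c u => if c < n + 1 then
    G.End u ∧ ev G vl (a2 c) u ∧ vl (a1 c) u = t c else c = n + 1 ∧ ¬ ev G vl n u
  have W1 : ∀ c u, c < n + 1 → (W c u ↔ G.End u ∧ ev G vl (a2 c) u ∧ vl (a1 c) u = t c) :=
    fun c u h => by simp only [W, if_pos h]
  have W2 : ∀ u, W (n + 1) u ↔ ¬ ev G vl n u := fun u => by simp [W]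
  clear_value W
  let lab : G.V → AS ℚ := fun v => ⟨0, fun x => if x = 0 then fun c => decide (ev G vl c v) else
      if x = 2 then fun c => decide (∃ u, ReflTransGen G.mv v u ∧ W c u) else
      fun c => decide (∃ u, G.End u ∧ ev G vl (a2 c) u),
    fun j x => if x = 0 then a v j else if x = 1 then b v j else if x = 2 then M v else t (x - 3)⟩
  have f0 : ∀ v, (lab v).f 0 = fun c => decide (ev G vl c v) := fun _ => rfl
  have f2 : ∀ v c, (lab v).f 2 c = decide (∃ u, ReflTransGen G.mv v u ∧ W c u) := fun _ _ => rfl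
  have f3 : ∀ v c, (lab v).f 3 c = decide (∃ u, G.End u ∧ ev G vl (a2 c) u) := fun _ _ => rfl
  have w0 : ∀ v j, (lab v).w j 0 = a v j := fun _ _ => rfl
  have w1 : ∀ v j, (lab v).w j 1 = b v j := fun _ _ => rfl
  have w2 : ∀ v j, (lab v).w j 2 = M v := fun _ _ => rfl
  have w3 : ∀ v j c, (lab v).w j (3 + c) = t c := fun v j c => by
    simp (disch := omega) only [lab, if_neg, Nat.add_sub_cancel_left]
  refine ⟨vl, lab, hv, fun v => ?_, All_iff.2 fun c hc => ?_, rfl, fun p v => ?_⟩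
  · by_cases he : G.End v
    · have e1 : ∀ j, a v j = vl j v := fun j => by
        have := ha v j
        rw [G.L_end he, Set.image_singleton] at this
        exact this.1
      have e2 : ∀ j, b v j = vl j v := fun j => by
        have := hb v j
        rw [G.L_end he, Set.image_singleton] at this
        exact this.1
      have e3 : ∀ c, (∃ u, ReflTransGen G.mv v u ∧ W c u) ↔ W c v := fun c =>
        ⟨fun ⟨u, h, h'⟩ => by
          rcases h.cases_head with rfl | ⟨z, h, -⟩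
          · exact h'
          · exact (he ⟨z, h⟩).elim, fun h => ⟨v, .refl, h⟩⟩
      refine .inl ⟨he, leaf_iff.2 ⟨rfl, fun c hc => ⟨?_, fun h8 h => ?_, ?_⟩, ?_,
        fun j _ => (e1 j).trans (e2 j).symm⟩, fun j _ => e1 j⟩
      · rw [f0]
        refine ev_want G vl v 0 _ _ _ c (iff_of_true rfl he)
          (fun i => iff_of_false (by omega) fun h => h.1 he)
          (fun c _ => iff_of_false (by simp) fun ⟨z, hz, _⟩ => he ⟨z, hz⟩)
          (fun c _ => iff_of_false (by simp) fun ⟨z, hz, _⟩ => he ⟨z, G.best_mv hz⟩) ?_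
        simp only [f3, w0, w3, e1, Bool.and_eq_true, decide_eq_true_eq]
        constructor
        · rintro ⟨h, h'⟩
          obtain ⟨u, h1, h2⟩ := (ht c h).2
          exact ⟨he, u, h1.1, h2 ▸ h', h1.2⟩
        · rintro ⟨-, u, h1, h2, h3⟩
          exact ⟨⟨u, h1, h3⟩, h2.trans ((ht c ⟨u, h1, h3⟩).1 u ⟨h1, h3⟩)⟩
      · simp only [f0, decide_eq_true_eq] at h ⊢
        rw [ev]
        simp only [h8, Nat.reduceEqDiff, dite_false, if_false, if_true]
        exact ⟨he, v, he, le_rfl, h⟩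
      · rw [Bool.eq_iff_iff, f2, decide_eq_true_eq, e3, W1 c _ hc, f0, w0, w3, e1]
        simp [he]
      · rw [Bool.eq_iff_iff, f2, decide_eq_true_eq, e3, W2, f0]
        simp
    · let s0 : AS ℚ := ⟨G.turn v + 1, (lab v).f, (lab v).w⟩
      let s : AS ℚ := ⟨G.turn v + 1, fun x c => if x = 3 then (lab v).f 3 c else
        decide (∃ z, G.mv v z ∧ con s0 (lab z) x c = true), (lab v).w⟩
      have hm : s0.k ≤ m := (G.turn v).2
      have h5 := same_fit (n := n) (s := s0) (r := s)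
        (same_iff.2 fun j _ => ⟨rfl, fun _ _ => rfl⟩) rfl hm
      have hbest : ∀ z, G.best v z ↔ G.mv v z ∧ actv s0 (lab z) = true := fun z => by
        rw [G.best_iff (vl (G.turn v)) (a · (G.turn v)) (b · (G.turn v)) (M v) (hv _)
          (fun z _ => ha z _) (fun z _ => hb z _) (hM v he).1 (hM v he).2]
        simp [actv, s0, w1, w2]
      have sf : ∀ x c, x ≠ 3 → (s.f x c = true ↔ ∃ z, G.mv v z ∧ con s0 (lab z) x c = true) :=
        fun x c h => by simp [s, h]
      have hL : ∀ z, G.best v z → ∀ j, vl j '' G.L z ⊆ vl j '' G.L v := fun z hz j =>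
        Set.image_mono fun u hu => (G.L_int he).2 ⟨z, hz, hu⟩
      have e3 : ∀ c, (∃ u, ReflTransGen G.mv v u ∧ W c u) ↔
          (∃ z, G.mv v z ∧ ∃ u, ReflTransGen G.mv z u ∧ W c u) ∨ W c v := fun c =>
        ⟨fun ⟨u, h, h'⟩ => by
          rcases h.cases_head with rfl | ⟨z, h, h''⟩
          · exact .inr h'
          · exact .inl ⟨z, h, u, h'', h'⟩,
         fun h => h.elim (fun ⟨z, h1, u, h2, h3⟩ => ⟨u, .head h1 h2, h3⟩) fun h => ⟨v, .refl, h⟩⟩
      refine .inr ⟨s, rfl, close_iff.2 ⟨Nat.le_add_left _ _, hm, rfl,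
        same_iff.2 fun j _ => ⟨rfl, fun _ _ => rfl⟩, fun j _ => ⟨?_, ?_, ?_⟩,
        fun c hc => ⟨?_, ?_⟩, ?_⟩, ?_, fun x _ hx c hc => ?_⟩
      · obtain ⟨u, hu, e⟩ := (ha v j).1
        obtain ⟨z, hz, hu⟩ := (G.L_int he).1 hu
        refine (sf _ _ (by omega)).2 ⟨z, G.best_mv hz, ?_⟩
        simp only [con, ((hbest z).1 hz).2, w0, s0]
        simpa using le_antisymm (e ▸ (ha z j).2 ⟨u, hu, rfl⟩) ((ha v j).2 (hL z hz j (ha z j).1))
      · obtain ⟨u, hu, e⟩ := (hb v j).1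
        obtain ⟨z, hz, hu⟩ := (G.L_int he).1 hu
        refine (sf _ _ (by omega)).2 ⟨z, G.best_mv hz, ?_⟩
        simp only [con, ((hbest z).1 hz).2, w1, s0]
        simpa using le_antisymm ((hb v j).2 (hL z hz j (hb z j).1)) (e ▸ (hb z j).2 ⟨u, hu, rfl⟩)
      · obtain ⟨z, hz, e⟩ := (hM v he).2
        refine (sf _ _ (by omega)).2 ⟨z, hz, ?_⟩
        simpa [con, w0, w2, s0] using e
      · rw [f0]
        refine ev_want G vl v _ _ _ _ c (iff_of_false (by simp [s]) he)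
          (fun i => by simp [s, he]) (fun d _ => ?_) (fun d _ => ?_)
          (iff_of_false (by simp) fun h => he h.1)
        · rw [sf _ _ (by omega)]; simp [con, f0]
        · rw [sf _ _ (by omega)]; simp [con, f0, hbest, and_assoc]
      · rw [Bool.eq_iff_iff, sf _ _ (by omega), f2, decide_eq_true_eq, e3]
        simp [con, f2, W1 c v hc, he]
      · rw [Bool.eq_iff_iff, Bool.or_eq_true, sf _ _ (by omega), f2, decide_eq_true_eq, e3]
        simp [con, f2, f0, W2 v]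
      · rintro _ ⟨z, hz, rfl⟩
        rw [(h5 _).1]
        refine fit_iff.2 ⟨rfl, (hM v he).1 z hz, fun j _ => ⟨rfl, fun c _ => ?_, fun h => ?_⟩⟩
        · rw [w3]; exact (w3 v j c).symm
        · have := hL z ((hbest z).2 ⟨hz, h⟩) j
          exact ⟨(ha v j).2 (this (ha z j).1), (hb v j).2 (this (hb z j).1)⟩
      · simp only [sf x c hx, fun t => (h5 t).2 x c hc]
        exact ⟨fun ⟨z, h, h'⟩ => ⟨_, ⟨z, h, rfl⟩, h'⟩, fun ⟨_, ⟨z, h, e⟩, h'⟩ => ⟨z, h, e ▸ h'⟩⟩
  · by_cases h : ∃ u, G.End u ∧ ev G vl (a2 c) u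
    · obtain ⟨u, h1, h2⟩ := (ht c h).2
      have : (lab G.root).f 2 c = true := by
        rw [f2, decide_eq_true_eq]
        exact ⟨u, G.reach u, (W1 c u hc).2 ⟨h1.1, h1.2, h2⟩⟩
      simp [this]
    · simp [f3, h]
  · rw [f0, decide_eq_true_eq, ev]
    simp [tg, ar]

structure Tree (m : ℕ) where
  V : Type
  finite : Finite V
  root : V
  mv : V → V → Prop
  reach : ∀ v, ReflTransGen mv root v
  no_in : ∀ v, ¬ mv v root
  uniq : ∀ u u' v, mv u v → mv u' v → u = u'
  turn : V → Fin m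
  vl : ℕ → V → ℚ

def one (i : Fin m) (vl : ℕ → ℚ) : Tree m :=
  ⟨Unit, inferInstance, (), fun _ _ => False, fun _ => .refl, fun _ => id, fun _ _ _ h => h.elim,
    fun _ => i, fun j _ => vl j⟩

def gmv (T T' : Tree m) : T.V ⊕ T'.V → T.V ⊕ T'.V → Prop
  | .inl x, .inl y => T.mv x y
  | .inl x, .inr y => x = T.root ∧ y = T'.root
  | .inr _, .inl _ => False
  | .inr x, .inr y => T'.mv x y

def graft (T T' : Tree m) : Tree m where
  V := T.V ⊕ T'.V
  finite := by have := T.finite; have := T'.finite; infer_instance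
  root := .inl T.root
  mv := gmv T T'
  reach := by
    rintro (v | v)
    · exact ReflTransGen.lift (p := gmv T T') Sum.inl (fun _ _ h => h) _ _ (T.reach v)
    · exact .head (show gmv T T' (.inl T.root) (.inr T'.root) from ⟨rfl, rfl⟩)
        (ReflTransGen.lift (p := gmv T T') Sum.inr (fun _ _ h => h) _ _ (T'.reach v))
  no_in := by
    rintro (v | v)
    · exact T.no_in v
    · exact id
  uniq := by
    rintro (u | u) (u' | u') (v | v) h h' <;> simp only [gmv] at h h'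
    · rw [T.uniq _ _ _ h h']
    · rw [h.1, h'.1]
    · exact (T'.no_in _ (h.2 ▸ h')).elim
    · exact (T'.no_in _ (h'.2 ▸ h)).elim
    · rw [T'.uniq _ _ _ h h']
  turn := Sum.elim T.turn T'.turn
  vl j := Sum.elim (T.vl j) (T'.vl j)

lemma Loc.congr {V V' : Type} {mv : V → V → Prop} {turn : V → Fin m} {vl : ℕ → V → ℚ}
    {lab : V → AS ℚ} {v : V} {mv' : V' → V' → Prop} {turn' : V' → Fin m} {vl' : ℕ → V' → ℚ}
    {lab' : V' → AS ℚ} {v' : V'} (h : Loc n mv turn vl lab v) (h1 : lab' v' = lab v)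
    (h2 : turn' v' = turn v) (h3 : ∀ j, vl' j v' = vl j v)
    (h4 : ∀ t, (∃ z, mv' v' z ∧ lab' z = t) ↔ ∃ z, mv v z ∧ lab z = t) :
    Loc n mv' turn' vl' lab' v' := by
  unfold Loc
  rw [h1, h2, funext fun t => propext (h4 t)]
  refine h.imp_left fun h => ⟨fun ⟨w, hw⟩ => ?_, h.2.1, fun j hj => (h.2.2 j hj).trans (h3 j).symm⟩
  obtain ⟨z, hz, -⟩ := (h4 _).1 ⟨w, hw, rfl⟩
  exact h.1 ⟨z, hz⟩

theorem D.tree (hm : 0 < m) {s} (h : D m n s) : ∃ (T : Tree m) (lab : T.V → AS ℚ),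
    (∀ v, v ≠ T.root → Loc n T.mv T.turn T.vl lab v) ∧
    ((s.k = 0 ∧ lab T.root = s ∧ Loc n T.mv T.turn T.vl lab T.root) ∨
      (s.k = T.turn T.root + 1 ∧ Summ m n s fun t => ∃ z, T.mv T.root z ∧ lab z = t)) := by
  classical
  induction h with
  | @leaf s h =>
    exact ⟨one ⟨0, hm⟩ fun j => s.w j 0, fun _ => s, fun v hv => (hv rfl).elim,
      .inl ⟨(leaf_iff.1 h).1, rfl, .inl ⟨fun ⟨_, h⟩ => h, h, fun _ _ => rfl⟩⟩⟩
  | @init s h =>
    obtain ⟨h1, h2, h3⟩ := summ_init.1 h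
    refine ⟨one ⟨s.k - 1, by omega⟩ fun _ => 0, fun _ => s, fun v hv => (hv rfl).elim,
      .inr ⟨by simp [one]; omega, ?_⟩⟩
    simpa [one] using h3
  | @add s t r _ _ h ih ih' =>
    obtain ⟨h1, h2, h3, h4, -⟩ := add_iff.1 h
    obtain ⟨T, lab, a1, ⟨a2, -⟩ | ⟨a2, a3⟩⟩ := ih
    · omega
    obtain ⟨T', lab', b1, ⟨-, rfl, b2⟩ | ⟨b2, -⟩⟩ := ih'
    swap
    · have := (fit_iff.1 h4).1; omega
    refine ⟨graft T T', Sum.elim lab lab', ?_, .inr ⟨h3.trans a2, ?_⟩⟩
    · rintro (v | v) hv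
      · have hv' : v ≠ T.root := fun e => hv (congrArg _ e)
        refine (a1 v hv').congr rfl rfl (fun _ => rfl) fun t => ?_
        simp [graft, gmv, hv']
      · refine Loc.congr (v := v) (by by_cases e : v = T'.root; exacts [e ▸ b2, b1 v e]) rfl rfl
          (fun _ => rfl) fun t => ?_
        simp [graft, gmv]
    · convert summ_add a3 h using 2
      simp [graft, gmv, eq_comm]
  | @close s r _ h ih =>
    obtain ⟨h1, -, h2, -⟩ := close_iff.1 h
    obtain ⟨T, lab, a1, ⟨a2, -⟩ | ⟨a2, a3⟩⟩ := ih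
    · omega
    have key : ∀ v t, (∃ z, T.mv v z ∧ Function.update lab T.root r z = t) ↔
        ∃ z, T.mv v z ∧ lab z = t := fun v t => exists_congr fun z => and_congr_right fun hz => by
      rw [Function.update_of_ne fun e : z = T.root => T.no_in v (e ▸ hz)]
    refine ⟨T, Function.update lab T.root r, fun v hv => (a1 v hv).congr
      (Function.update_of_ne hv _ _) rfl (fun _ => rfl) (key v),
      .inl ⟨h2, Function.update_self .., .inr ⟨s, a2, by rwa [Function.update_self], ?_⟩⟩⟩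
    rwa [funext fun t => propext (key _ t)]

theorem chk_valid (hm : 0 < m) (φ : Fm m) : chk m φ.code = true ↔ Valid φ := by
  rw [chk_iff]
  constructor
  · intro h G x
    by_contra hx
    obtain ⟨vl, lab, hv, hl, hr, hk, hp⟩ := canon G φ.code
    refine h ⟨_, loc_D G hl G.root, ?_⟩
    have := (loc_bad G hl G.root).2 ⟨x, G.reach x, by
      rwa [← Bool.not_eq_true, truth G hl hv hr hp φ (by omega)]⟩
    simp [bad, hk, hr, this]
  · rintro h ⟨s, hs, hb⟩
    simp only [bad, Bool.and_eq_true, decide_eq_true_eq] at hb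
    obtain ⟨T, lab, a1, ⟨-, rfl, a2⟩ | ⟨a2, -⟩⟩ := hs.tree hm
    swap
    · omega
    let G : Game m := ⟨T.V, T.finite, T.root, T.mv, T.reach, T.no_in, T.uniq, T.turn,
      fun i u v => T.vl i u ≤ T.vl i v, fun _ _ _ _ _ => le_total _ _,
      fun _ _ _ _ _ _ _ => le_trans, fun p v => (lab v).f 0 (Nat.pair 0 p) = true⟩
    have hl : ∀ v, Loc φ.code G.mv G.turn T.vl lab v := fun v => by
      by_cases e : v = T.root; exacts [e ▸ a2, a1 v e]
    obtain ⟨u, -, hu⟩ := (loc_bad G hl G.root).1 hb.1.2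
    rw [← Bool.not_eq_true, truth G hl (fun _ _ _ _ _ => Iff.rfl) hb.2 (fun _ _ => Iff.rfl) φ
      (by omega)] at hu
    exact hu (h G u)

lemma code_inj : Function.Injective (Fm.code : Fm m → ℕ) := by
  intro φ
  induction φ with
  | dia r φ ih =>
    intro ψ h
    cases ψ with
    | dia r' ψ =>
      cases r <;> cases r' <;> simp only [Fm.code, Nat.pair_eq_pair, Fin.val_inj] at h <;>
        first | omega | rw [ih h.2] | rw [h.2.1, ih h.2.2]
    | _ => cases r <;> simp [Fm.code, Nat.pair_eq_pair] at h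
  | neg φ ih =>
    intro ψ h
    cases ψ with
    | neg ψ => simp only [Fm.code, Nat.pair_eq_pair] at h; rw [ih h.2]
    | dia r => cases r <;> simp [Fm.code, Nat.pair_eq_pair] at h
    | _ => simp [Fm.code, Nat.pair_eq_pair] at h
  | and φ φ' ih ih' =>
    intro ψ h
    cases ψ with
    | and ψ ψ' => simp only [Fm.code, Nat.pair_eq_pair] at h; rw [ih h.2.1, ih' h.2.2]
    | dia r => cases r <;> simp [Fm.code, Nat.pair_eq_pair] at h
    | _ => simp [Fm.code, Nat.pair_eq_pair] at h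
  | _ =>
    intro ψ h
    cases ψ with
    | dia r => cases r <;> simp [Fm.code, Nat.pair_eq_pair] at h
    | _ => simp_all [Fm.code, Nat.pair_eq_pair, Fin.val_inj]

end LeadBest
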