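import Mathlib

set_option autoImplicit false

namespace LeadBpa

/-- Terms of `BPA*_δ` over a set of atoms. -/
inductive Tm (A : Type) : Type
  | atom (a : A)
  | dead
  | alt (p q : Tm A)
  | seq (p q : Tm A)
  | star (p q : Tm A)

namespace Tm
variable {A B : Type}

/-- What remains of `p · q` after a step of `p`: `p' · q`, or `q` if `p` has terminated. -/
def cont : Option (Tm A) → Tm A → Tm A
  | some p', q => seq p' q
  | none, q => q

/-- `Step p a (some p')` is `p -a-> p'` and `Step p a none` is `p -a-> √`. -/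
inductive Step : Tm A → A → Option (Tm A) → Prop
  | atom (a : A) : Step (atom a) a none
  | altL {p q a o} : Step p a o → Step (alt p q) a o
  | altR {p q a o} : Step q a o → Step (alt p q) a o
  | seq {p q a o} : Step p a o → Step (seq p q) a (some (cont o q))
  | starL {p q a o} : Step p a o → Step (star p q) a (some (cont o (star p q)))
  | starR {p q a o} : Step q a o → Step (star p q) a o

/-- A symmetric relation with the transfer property. -/
def IsBisim (R : Tm A → Tm A → Prop) : Prop :=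
  (∀ p q, R p q → R q p) ∧
    ∀ p q, R p q → ∀ a o, Step p a o → ∃ o', Step q a o' ∧ Option.Rel R o o'

/-- Strong bisimilarity. -/
def Bis (p q : Tm A) : Prop := ∃ R, IsBisim R ∧ R p q

/-- Replace every atom by a term. -/
def sub (σ : A → Tm B) : Tm A → Tm B
  | atom a => σ a
  | dead => dead
  | alt p q => alt (sub σ p) (sub σ q)
  | seq p q => seq (sub σ p) (sub σ q)
  | star p q => star (sub σ p) (sub σ q)

/-- The atom occurs in the term. -/
def Occ (a : A) : Tm A → Prop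
  | atom b => a = b
  | dead => False
  | alt p q => Occ a p ∨ Occ a q
  | seq p q => Occ a p ∨ Occ a q
  | star p q => Occ a p ∨ Occ a q

/-- Open terms are terms over `A ⊕ ℕ` (`inl a` an action, `inr v` a variable).  An equation is valid
if all its closed instances are bisimilar. -/
def Valid (t u : Tm (A ⊕ ℕ)) : Prop :=
  ∀ σ : ℕ → Tm A, Bis (sub (Sum.elim atom σ) t) (sub (Sum.elim atom σ) u)

/-- Derivability in equational logic. -/
inductive Der (E : Set (Tm (A ⊕ ℕ) × Tm (A ⊕ ℕ))) : Tm (A ⊕ ℕ) → Tm (A ⊕ ℕ) → Prop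
  | ax {t u} (σ : ℕ → Tm (A ⊕ ℕ)) : (t, u) ∈ E →
      Der E (sub (Sum.elim (fun a => atom (.inl a)) σ) t) (sub (Sum.elim (fun a => atom (.inl a)) σ) u)
  | refl (t) : Der E t t
  | symm {t u} : Der E t u → Der E u t
  | trans {t u v} : Der E t u → Der E u v → Der E t v
  | alt {t u t' u'} : Der E t u → Der E t' u' → Der E (alt t t') (alt u u')
  | seq {t u t' u'} : Der E t u → Der E t' u' → Der E (seq t t') (seq u u')
  | star {t u t' u'} : Der E t u → Der E t' u' → Der E (star t t') (star u u')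

/-! ### basic facts -/

lemma step_atom {a b : A} {o} : Step (atom a) b o ↔ b = a ∧ o = none :=
  ⟨fun h => by cases h; simp, fun ⟨h, h'⟩ => h ▸ h' ▸ .atom _⟩
lemma step_dead {b : A} {o} : ¬ Step dead b o := fun h => by cases h
lemma step_alt {p q : Tm A} {a o} : Step (alt p q) a o ↔ Step p a o ∨ Step q a o :=
  ⟨fun h => by cases h <;> simp [*], fun h => h.elim .altL .altR⟩
lemma step_seq {p q : Tm A} {a o} :
    Step (seq p q) a o ↔ ∃ o', Step p a o' ∧ o = some (cont o' q) :=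
  ⟨fun h => by cases h; exact ⟨_, ‹_›, rfl⟩, fun ⟨_, h, h'⟩ => h' ▸ .seq h⟩
lemma step_star {p q : Tm A} {a o} :
    Step (star p q) a o ↔ Step (seq p (star p q)) a o ∨ Step q a o :=
  ⟨fun h => by cases h with
    | starL h => exact .inl (.seq h)
    | starR h => exact .inr h,
   fun h => h.elim (fun h => by cases h; exact .starL ‹_›) .starR⟩

lemma rel_mono {R R' : Tm A → Tm A → Prop} (h : ∀ p q, R p q → R' p q) {o o'}
    (r : Option.Rel R o o') : Option.Rel R' o o' := by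
  cases r with
  | some r => exact .some (h _ _ r)
  | none => exact .none

lemma Bis.symm {p q : Tm A} (h : Bis p q) : Bis q p :=
  let ⟨R, hR, r⟩ := h; ⟨R, hR, hR.1 _ _ r⟩

lemma Bis.step {p q : Tm A} (h : Bis p q) {a o} (s : Step p a o) :
    ∃ o', Step q a o' ∧ Option.Rel Bis o o' :=
  let ⟨R, hR, r⟩ := h
  let ⟨o', s', r'⟩ := hR.2 _ _ r _ _ s
  ⟨o', s', rel_mono (fun _ _ r => ⟨R, hR, r⟩) r'⟩

lemma rel_refl {R : Tm A → Tm A → Prop} (h : ∀ p, R p p) (o) : Option.Rel R o o := by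
  cases o
  · exact .none
  · exact .some (h _)

lemma Bis.refl (p : Tm A) : Bis p p :=
  ⟨Eq, ⟨fun _ _ => Eq.symm, fun _ _ h _ o s => ⟨o, h ▸ s, rel_refl (fun _ => rfl) _⟩⟩, rfl⟩

lemma Bis.trans {p q r : Tm A} (h : Bis p q) (h' : Bis q r) : Bis p r := by
  refine ⟨fun p r => ∃ q, Bis p q ∧ Bis q r, ⟨fun _ _ ⟨q, a, b⟩ => ⟨q, b.symm, a.symm⟩, ?_⟩, q, h, h'⟩
  rintro p r ⟨q, h, h'⟩ a o s
  obtain ⟨o', s', r1⟩ := h.step s
  obtain ⟨o'', s'', r2⟩ := h'.step s'
  refine ⟨o'', s'', ?_⟩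
  cases r1 <;> cases r2
  · exact .some ⟨_, ‹_›, ‹_›⟩
  · exact .none

abbrev OB (o o' : Option (Tm A)) : Prop := Option.Rel Bis o o'

lemma OB.refl (o : Option (Tm A)) : OB o o := rel_refl Bis.refl o
lemma OB.symm {o o' : Option (Tm A)} (h : OB o o') : OB o' o := by
  cases h with
  | some r => exact .some r.symm
  | none => exact .none
lemma OB.trans {o o' o'' : Option (Tm A)} (h : OB o o') (h' : OB o' o'') : OB o o'' := by
  cases h <;> cases h'
  · exact .some (Bis.trans ‹_› ‹_›)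
  · exact .none

/-- bisimulation up to bisimilarity -/
lemma upto (R : Tm A → Tm A → Prop) (hs : ∀ p q, R p q → R q p)
    (h : ∀ p q, R p q → ∀ a o, Step p a o → ∃ o' o1 o2, Step q a o' ∧ OB o o1 ∧
      (o1 = o2 ∨ Option.Rel R o1 o2) ∧ OB o' o2) {p q} (r : R p q) : Bis p q := by
  refine ⟨fun p q => ∃ p1 q1, Bis p p1 ∧ (p1 = q1 ∨ R p1 q1) ∧ Bis q q1, ⟨?_, ?_⟩,
    p, q, .refl _, .inr r, .refl _⟩
  · rintro p q ⟨p1, q1, a, b, c⟩
    exact ⟨q1, p1, c, b.imp Eq.symm (hs _ _), a⟩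
  · rintro p q ⟨p1, q1, a, b, c⟩ l o s
    obtain ⟨o0, s0, r0⟩ := a.step s
    have : ∃ o' o1 o2, Step q1 l o' ∧ OB o0 o1 ∧ (o1 = o2 ∨ Option.Rel R o1 o2) ∧ OB o' o2 := by
      rcases b with rfl | b
      · exact ⟨o0, o0, o0, s0, .refl _, .inl rfl, .refl _⟩
      · exact h _ _ b _ _ s0
    obtain ⟨o', o1, o2, s1, r1, r2, r3⟩ := this
    obtain ⟨o3, s3, r4⟩ := c.symm.step s1
    refine ⟨o3, s3, ?_⟩
    have a1 := OB.trans r0 r1
    have a2 := OB.trans (OB.symm r4) r3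
    rcases r2 with rfl | r2
    · cases a1 <;> cases a2
      · exact .some ⟨_, _, ‹_›, .inl rfl, ‹_›⟩
      · exact .none
    · cases r2 <;> cases a1 <;> cases a2
      · exact .some ⟨_, _, ‹_›, .inr ‹_›, ‹_›⟩
      · exact .none

lemma Bis.cont {o o' : Option (Tm A)} {q q' : Tm A} (h : OB o o') (h' : Bis q q') :
    Bis (cont o q) (cont o' q') := by
  cases h with
  | none => exact h'
  | @some p p' h =>
    refine upto (fun r r' => ∃ p p' q q', Bis p p' ∧ Bis q q' ∧ r = seq p q ∧ r' = seq p' q')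
      (fun _ _ ⟨p, p', q, q', a, b, c, d⟩ => ⟨p', p, q', q, a.symm, b.symm, d, c⟩) ?_
      ⟨p, p', q, q', h, h', rfl, rfl⟩
    rintro _ _ ⟨p, p', q, q', a, b, rfl, rfl⟩ l o s
    obtain ⟨o1, s1, rfl⟩ := step_seq.1 s
    obtain ⟨o2, s2, r⟩ := a.step s1
    cases r with
    | none => exact ⟨_, _, _, .seq s2, .some b, .inl rfl, .refl _⟩
    | some r => exact ⟨_, _, _, .seq s2, .refl _, .inr (.some ⟨_, _, _, _, r, b, rfl, rfl⟩), .refl _⟩

lemma Bis.seq {p p' q q' : Tm A} (h : Bis p p') (h' : Bis q q') : Bis (seq p q) (seq p' q') :=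
  Bis.cont (.some h) h'

lemma Bis.of_steps {p q : Tm A} (h : ∀ a o, Step p a o → ∃ o', Step q a o' ∧ OB o o')
    (h' : ∀ a o, Step q a o → ∃ o', Step p a o' ∧ OB o o') : Bis p q := by
  refine upto (fun r r' => (r = p ∧ r' = q) ∨ (r = q ∧ r' = p)) (fun _ _ h => by tauto) ?_
    (.inl ⟨rfl, rfl⟩)
  rintro _ _ (⟨rfl, rfl⟩ | ⟨rfl, rfl⟩) a o s
  · obtain ⟨o', s', r⟩ := h a o s
    exact ⟨o', o', o', s', r, .inl rfl, .refl _⟩
  · obtain ⟨o', s', r⟩ := h' a o s
    exact ⟨o', o', o', s', r, .inl rfl, .refl _⟩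

lemma Bis.alt {p p' q q' : Tm A} (h : Bis p p') (h' : Bis q q') : Bis (alt p q) (alt p' q') := by
  have : ∀ {p p' q q' : Tm A}, Bis p p' → Bis q q' → ∀ a o, Step (Tm.alt p q) a o →
      ∃ o', Step (Tm.alt p' q') a o' ∧ OB o o' := by
    intro p p' q q' h h' a o s
    rcases step_alt.1 s with s | s
    · obtain ⟨o', s', r⟩ := h.step s; exact ⟨o', .altL s', r⟩
    · obtain ⟨o', s', r⟩ := h'.step s; exact ⟨o', .altR s', r⟩
  exact .of_steps (this h h') (this h.symm h'.symm)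

lemma Bis.star {p p' q q' : Tm A} (h : Bis p p') (h' : Bis q q') : Bis (star p q) (star p' q') := by
  refine upto (fun r r' => ∃ p p' q q' o, Bis p p' ∧ Bis q q' ∧ r = Tm.cont o (Tm.star p q) ∧
      r' = Tm.cont o (Tm.star p' q'))
    (fun _ _ ⟨p, p', q, q', o, a, b, c, d⟩ => ⟨p', p, q', q, o, a.symm, b.symm, d, c⟩) ?_
    ⟨p, p', q, q', none, h, h', rfl, rfl⟩
  rintro _ _ ⟨p, p', q, q', _ | r, a, b, rfl, rfl⟩ l o s
  · cases s with
    | starL s =>
      obtain ⟨o2, s2, r⟩ := a.step s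
      exact ⟨_, _, _, .starL s2, .refl _, .inr (.some ⟨_, _, _, _, _, a, b, rfl, rfl⟩),
        .some (.cont (OB.symm r) (.refl _))⟩
    | starR s =>
      obtain ⟨o2, s2, r⟩ := b.step s
      exact ⟨_, _, _, .starR s2, r, .inl rfl, .refl _⟩
  · obtain ⟨o1, s1, rfl⟩ := step_seq.1 s
    exact ⟨_, _, _, .seq s1, .refl _, .inr (.some ⟨_, _, _, _, _, a, b, rfl, rfl⟩), .refl _⟩

lemma assoc (o : Option (Tm A)) (q r : Tm A) : Bis (seq (cont o q) r) (cont o (seq q r)) := by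
  cases o with
  | none => exact .refl _
  | some p =>
    refine upto (fun s s' => ∃ p, (s = seq (seq p q) r ∧ s' = seq p (seq q r)) ∨
      (s' = seq (seq p q) r ∧ s = seq p (seq q r))) (fun _ _ ⟨p, h⟩ => ⟨p, h.symm⟩) ?_
      ⟨p, .inl ⟨rfl, rfl⟩⟩
    rintro _ _ ⟨p, ⟨rfl, rfl⟩ | ⟨rfl, rfl⟩⟩ a o s
    · obtain ⟨_, s1, rfl⟩ := step_seq.1 s
      obtain ⟨o2, s2, rfl⟩ := step_seq.1 s1
      cases o2 with
      | none => exact ⟨_, _, _, .seq s2, .refl _, .inl rfl, .refl _⟩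
      | some p' => exact ⟨_, _, _, .seq s2, .refl _, .inr (.some ⟨p', .inl ⟨rfl, rfl⟩⟩), .refl _⟩
    · obtain ⟨o2, s2, rfl⟩ := step_seq.1 s
      cases o2 with
      | none => exact ⟨_, _, _, .seq (.seq s2), .refl _, .inl rfl, .refl _⟩
      | some p' =>
        exact ⟨_, _, _, .seq (.seq s2), .refl _, .inr (.some ⟨p', .inr ⟨rfl, rfl⟩⟩), .refl _⟩

/-! ### substitution -/

def comb (σ : A → Tm B) (r : Option (Tm B)) : Option (Tm A) → Option (Tm B)
  | none => r
  | some g => some (cont r (sub σ g))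

lemma comb_cont (σ : A → Tm B) {o r : Option (Tm B)} {g : Option (Tm A)} (h : OB o (comb σ r g))
    (t : Tm A) : OB (some (cont o (sub σ t))) (comb σ r (some (cont g t))) := by
  cases g with
  | none => exact .some (.cont h (.refl _))
  | some g => exact .some ((Bis.cont h (.refl _)).trans (assoc _ _ _))

lemma sub_step (σ : A → Tm B) (g : Tm A) : ∀ {b o}, Step (sub σ g) b o →
    ∃ a og r, Step g a og ∧ Step (σ a) b r ∧ OB o (comb σ r og) := by
  induction g with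
  | atom a => exact fun s => ⟨a, none, _, .atom _, s, .refl _⟩
  | dead => exact fun s => (step_dead s).elim
  | alt p q ih ih' =>
    intro b o s
    rcases step_alt.1 s with s | s
    · obtain ⟨a, og, r, h1, h2, h3⟩ := ih s; exact ⟨a, og, r, .altL h1, h2, h3⟩
    · obtain ⟨a, og, r, h1, h2, h3⟩ := ih' s; exact ⟨a, og, r, .altR h1, h2, h3⟩
  | seq p q ih _ =>
    intro b o s
    obtain ⟨o1, s1, rfl⟩ := step_seq.1 s
    obtain ⟨a, og, r, h1, h2, h3⟩ := ih s1
    exact ⟨a, _, r, .seq h1, h2, comb_cont σ h3 q⟩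
  | star p q ih ih' =>
    intro b o s
    cases s with
    | starL s1 =>
      obtain ⟨a, og, r, h1, h2, h3⟩ := ih s1
      exact ⟨a, _, r, .starL h1, h2, comb_cont σ h3 (star p q)⟩
    | starR s1 => obtain ⟨a, og, r, h1, h2, h3⟩ := ih' s1; exact ⟨a, og, r, .starR h1, h2, h3⟩

lemma step_sub (σ : A → Tm B) {g : Tm A} {a og} (s : Step g a og) {b r} (s' : Step (σ a) b r) :
    ∃ o, Step (sub σ g) b o ∧ OB o (comb σ r og) := by
  induction s with
  | atom a => exact ⟨_, s', .refl _⟩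
  | altL _ ih => obtain ⟨o, h1, h2⟩ := ih s'; exact ⟨o, .altL h1, h2⟩
  | altR _ ih => obtain ⟨o, h1, h2⟩ := ih s'; exact ⟨o, .altR h1, h2⟩
  | seq _ ih => obtain ⟨o, h1, h2⟩ := ih s'; exact ⟨_, .seq h1, comb_cont σ h2 _⟩
  | @starL p q _ _ _ ih =>
    obtain ⟨o, h1, h2⟩ := ih s'; exact ⟨_, .starL h1, comb_cont σ h2 (star p q)⟩
  | starR _ ih => obtain ⟨o, h1, h2⟩ := ih s'; exact ⟨o, .starR h1, h2⟩

lemma Bis.sub (σ : A → Tm B) {t u : Tm A} (h : Bis t u) : Bis (sub σ t) (sub σ u) := by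
  refine upto (fun r r' => ∃ g g' o, Bis g g' ∧ r = Tm.cont o (Tm.sub σ g) ∧
      r' = Tm.cont o (Tm.sub σ g'))
    (fun _ _ ⟨g, g', o, a, c, d⟩ => ⟨g', g, o, a.symm, d, c⟩) ?_ ⟨t, u, none, h, rfl, rfl⟩
  rintro _ _ ⟨g, g', _ | r, h, rfl, rfl⟩ l o s
  · obtain ⟨a, og, r, h1, h2, h3⟩ := sub_step σ g s
    obtain ⟨og', h4, h5⟩ := h.step h1
    obtain ⟨o', h6, h7⟩ := step_sub σ h4 h2
    cases h5 with
    | none => exact ⟨o', _, _, h6, h3, .inl rfl, h7⟩
    | some h5 => exact ⟨o', _, _, h6, h3, .inr (.some ⟨_, _, _, h5, rfl, rfl⟩), h7⟩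
  · obtain ⟨o1, s1, rfl⟩ := step_seq.1 s
    exact ⟨_, _, _, .seq s1, .refl _, .inr (.some ⟨_, _, _, h, rfl, rfl⟩), .refl _⟩

lemma sub_atom (t : Tm A) : sub atom t = t := by
  induction t <;> simp_all [sub]

end Tm
end LeadBpa
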