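import Mathlib
import Pool.Agent.Lib.lead.Bpa

set_option autoImplicit false

namespace LeadBpa
namespace Tm
variable {A B : Type}

/-! ### finitely many derivatives -/

lemma exists_closed (t : Tm A) : ∃ S : Set (Tm A), S.Finite ∧
    (∀ a g, Step t a (some g) → g ∈ S) ∧ ∀ g ∈ S, ∀ a g', Step g a (some g') → g' ∈ S := by
  induction t with
  | atom a => exact ⟨∅, Set.finite_empty, fun _ _ s => (by cases s), by simp⟩
  | dead => exact ⟨∅, Set.finite_empty, fun _ _ s => (by cases s), by simp⟩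
  | alt p q ih ih' =>
    obtain ⟨S, h1, h2, h3⟩ := ih
    obtain ⟨S', h1', h2', h3'⟩ := ih'
    refine ⟨S ∪ S', h1.union h1', fun a g s => (step_alt.1 s).imp (h2 _ _) (h2' _ _), ?_⟩
    rintro g (h | h) a g' s
    · exact .inl (h3 _ h _ _ s)
    · exact .inr (h3' _ h _ _ s)
  | seq p q ih ih' =>
    obtain ⟨S, h1, h2, h3⟩ := ih
    obtain ⟨S', h1', h2', h3'⟩ := ih'
    refine ⟨(seq · q) '' S ∪ insert q S', (h1.image _).union (h1'.insert _), fun a g s => ?_, ?_⟩
    · obtain ⟨_ | r, s1, e⟩ := step_seq.1 s <;> cases e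
      · exact .inr (.inl rfl)
      · exact .inl ⟨_, h2 _ _ s1, rfl⟩
    · rintro g (⟨r, h, rfl⟩ | rfl | h) a g' s
      · obtain ⟨_ | r, s1, e⟩ := step_seq.1 s <;> cases e
        · exact .inr (.inl rfl)
        · exact .inl ⟨_, h3 _ h _ _ s1, rfl⟩
      · exact .inr (.inr (h2' _ _ s))
      · exact .inr (.inr (h3' _ h _ _ s))
  | star p q ih ih' =>
    obtain ⟨S, h1, h2, h3⟩ := ih
    obtain ⟨S', h1', h2', h3'⟩ := ih'
    have h0 : ∀ a g, Step (star p q) a (some g) →
        g ∈ (seq · (star p q)) '' S ∪ insert (star p q) S' := by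
      intro a g s
      rcases step_star.1 s with s | s
      · obtain ⟨_ | r, s1, e⟩ := step_seq.1 s <;> cases e
        · exact .inr (.inl rfl)
        · exact .inl ⟨_, h2 _ _ s1, rfl⟩
      · exact .inr (.inr (h2' _ _ s))
    refine ⟨(seq · (star p q)) '' S ∪ insert (star p q) S', (h1.image _).union (h1'.insert _),
      h0, ?_⟩
    rintro g (⟨r, h, rfl⟩ | rfl | h) a g' s
    · obtain ⟨_ | r, s1, e⟩ := step_seq.1 s <;> cases e
      · exact .inr (.inl rfl)
      · exact .inl ⟨_, h3 _ h _ _ s1, rfl⟩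
    · exact h0 _ _ s
    · exact .inr (.inr (h3' _ h _ _ s))

/-! ### valid equations are bisimilar with variables read as fresh actions -/

section gadget
variable (a : A) (K : ℕ)

def D : ℕ → Tm A
  | 0 => dead
  | n + 1 => seq (atom a) (D n)

lemma step_D {n b o} : Step (D a n) b o ↔ ∃ m, n = m + 1 ∧ b = a ∧ o = some (D a m) := by
  cases n with
  | zero => simp [D, step_dead]
  | succ n =>
    simp only [D, step_seq, step_atom]
    constructor
    · rintro ⟨_, ⟨rfl, rfl⟩, rfl⟩; exact ⟨n, rfl, rfl, rfl⟩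
    · rintro ⟨m, h, rfl, rfl⟩; cases h; exact ⟨none, ⟨rfl, rfl⟩, rfl⟩

lemma D_inj {n m} (h : Bis (D a n) (D a m)) : n = m := by
  induction n generalizing m with
  | zero =>
    cases m with
    | zero => rfl
    | succ m =>
      obtain ⟨_, s, -⟩ := h.symm.step ((step_D a).2 ⟨m, rfl, rfl, rfl⟩)
      exact (step_dead s).elim
  | succ n ih =>
    obtain ⟨_, s, r⟩ := h.step ((step_D a).2 ⟨n, rfl, rfl, rfl⟩)
    obtain ⟨m, rfl, -, rfl⟩ := (step_D a).1 s
    cases r with
    | some r => rw [ih r]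

lemma D_seq (n : ℕ) (q : Tm A) : Bis (seq (D a n) q) (D a n) := by
  induction n with
  | zero =>
    refine .of_steps (fun _ _ s => ?_) fun _ _ s => (step_dead s).elim
    obtain ⟨_, s, -⟩ := step_seq.1 s
    exact (step_dead s).elim
  | succ n ih => exact (assoc (some (atom a)) _ _).trans (.seq (.refl _) ih)

def M (v : ℕ) : Tm A := alt (D a (K + v + 1)) (atom a)
def gam : A ⊕ ℕ → Tm A := Sum.elim atom fun v => seq (atom a) (M a K v)
def Mc (v : ℕ) : Option (Tm (A ⊕ ℕ)) → Tm A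
  | none => M a K v
  | some g => seq (M a K v) (sub (gam a K) g)

def tg : A ⊕ ℕ → Option (Tm (A ⊕ ℕ)) → Option (Tm A)
  | .inl _, og => og.map (sub (gam a K))
  | .inr v, og => some (Mc a K v og)

lemma gam_step {g b o} (s : Step (sub (gam a K) g) b o) :
    ∃ l og, Step g l og ∧ b = l.elim id (fun _ => a) ∧ OB o (tg a K l og) := by
  obtain ⟨l, og, r, h1, h2, h3⟩ := sub_step _ g s
  refine ⟨l, og, h1, ?_⟩
  rcases l with l | v
  · obtain ⟨rfl, rfl⟩ := step_atom.1 h2
    cases og <;> exact ⟨rfl, h3⟩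
  · obtain ⟨_, h4, rfl⟩ := step_seq.1 h2
    obtain ⟨rfl, rfl⟩ := step_atom.1 h4
    cases og <;> exact ⟨rfl, h3⟩

lemma step_gam {g l og} (s : Step g l og) :
    ∃ o, Step (sub (gam a K) g) (l.elim id fun _ => a) o ∧ OB o (tg a K l og) := by
  rcases l with l | v
  · obtain ⟨o, h1, h2⟩ := step_sub (gam a K) s (.atom l)
    cases og <;> exact ⟨o, h1, h2⟩
  · obtain ⟨o, h1, h2⟩ := step_sub (gam a K) s (.seq (.atom a))
    cases og <;> exact ⟨o, h1, h2⟩

lemma Mc_step {v og b o} (s : Step (Mc a K v og) b o) :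
    OB o (some (D a (K + v))) ∨ o = og.map (sub (gam a K)) := by
  have : ∀ {b o}, Step (M a K v) b o → o = some (D a (K + v)) ∨ o = none := by
    intro b o s
    rcases step_alt.1 s with s | s
    · obtain ⟨m, h, -, rfl⟩ := (step_D a).1 s
      cases h; exact .inl rfl
    · exact .inr (step_atom.1 s).2
  cases og with
  | none =>
    rcases this s with rfl | rfl
    · exact .inl (.refl _)
    · exact .inr rfl
  | some g =>
    obtain ⟨o', s1, rfl⟩ := step_seq.1 s
    rcases this s1 with rfl | rfl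
    · exact .inl (.some (D_seq a _ _))
    · exact .inr rfl

lemma Mc_step1 (v og) : ∃ r, Step (Mc a K v og) a (some r) ∧ Bis r (D a (K + v)) := by
  have : Step (M a K v) a (some (D a (K + v))) := .altL ((step_D a).2 ⟨_, rfl, rfl, rfl⟩)
  cases og with
  | none => exact ⟨_, this, .refl _⟩
  | some g => exact ⟨_, .seq this, D_seq a _ _⟩

lemma Mc_step2 (v og) : Step (Mc a K v og) a (og.map (sub (gam a K))) := by
  cases og with
  | none => exact .altR (.atom a)
  | some g => exact .seq (o := none) (.altR (.atom a))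

lemma Mc_D {v og n} (h : Bis (Mc a K v og) (D a n)) :
    ∃ g, og = some g ∧ n = K + v + 1 ∧ Bis (sub (gam a K) g) (D a (K + v)) := by
  obtain ⟨r, s, b⟩ := Mc_step1 a K v og
  obtain ⟨_, s1, r1⟩ := h.step s
  obtain ⟨m, rfl, -, rfl⟩ := (step_D a).1 s1
  obtain ⟨_, s2, r2⟩ := h.step (Mc_step2 a K v og)
  obtain ⟨m', e, -, rfl⟩ := (step_D a).1 s2
  cases e
  cases r1 with
  | some r1 =>
    obtain rfl := D_inj a (b.symm.trans r1)
    cases og with
    | none => cases r2
    | some g => cases r2 with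
      | some r2 => exact ⟨g, rfl, rfl, r2⟩

variable {S : Set (Tm (A ⊕ ℕ))} (hS : ∀ g ∈ S, ∀ l g', Step g l (some g') → g' ∈ S)
include hS

lemma count (n : ℕ) : ∀ g ∈ S, Bis (sub (gam a K) g) (D a n) → ∃ F : Finset (Tm (A ⊕ ℕ)),
    (∀ h ∈ F, h ∈ S ∧ ∃ m ≤ n, Bis (sub (gam a K) h) (D a m)) ∧ n ≤ 2 * F.card := by
  classical
  induction n using Nat.strong_induction_on with
  | _ n ih =>
  intro g hg h
  rcases Nat.lt_or_ge n 2 with hn | hn
  · exact ⟨{g}, by simpa using ⟨hg, n, le_rfl, h⟩, by simp; omega⟩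
  obtain ⟨n, rfl⟩ : ∃ m, n = m + 1 := ⟨n - 1, by omega⟩
  obtain ⟨o, s, r⟩ := h.symm.step ((step_D a).2 ⟨n, rfl, rfl, rfl⟩)
  obtain ⟨l, og, s1, -, r1⟩ := gam_step a K s
  have r2 := OB.trans r r1
  have : ∃ g1 ∈ S, ∃ m, m ≤ n ∧ n ≤ m + 1 ∧ Bis (sub (gam a K) g1) (D a m) := by
    rcases l with l | v
    · cases og with
      | none => cases r2
      | some g1 => cases r2 with
        | some r2 => exact ⟨g1, hS _ hg _ _ s1, n, le_rfl, by omega, r2.symm⟩
    · cases r2 with
      | some r2 =>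
        obtain ⟨g1, rfl, rfl, h1⟩ := Mc_D a K r2.symm
        exact ⟨g1, hS _ hg _ _ s1, _, by omega, le_rfl, h1⟩
  obtain ⟨g1, h1, m, h2, h3, h4⟩ := this
  obtain ⟨F, hF, hc⟩ := ih m (by omega) g1 h1 h4
  have : g ∉ F := fun hgF => by
    obtain ⟨-, m', h5, h6⟩ := hF g hgF
    have := D_inj a (h.symm.trans h6)
    omega
  refine ⟨insert g F, ?_, by rw [Finset.card_insert_of_notMem this]; omega⟩
  intro h' hh
  rcases Finset.mem_insert.1 hh with rfl | hh
  · exact ⟨hg, _, le_rfl, h⟩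
  · obtain ⟨h5, m', h6, h7⟩ := hF _ hh
    exact ⟨h5, m', by omega, h7⟩

lemma generic (hF : ∀ g ∈ S, ∀ n, K ≤ n → ¬ Bis (sub (gam a K) g) (D a n)) {t u} (ht : t ∈ S)
    (hu : u ∈ S) (h : Bis (sub (gam a K) t) (sub (gam a K) u)) : Bis t u := by
  have c1 : ∀ g ∈ S, ∀ v og, ¬ Bis (sub (gam a K) g) (Mc a K v og) := by
    intro g hg v og h
    obtain ⟨r, s, b⟩ := Mc_step1 a K v og
    obtain ⟨o, s1, r1⟩ := h.symm.step s
    obtain ⟨l, og1, s2, -, r2⟩ := gam_step a K s1
    have r3 := OB.trans (OB.symm (OB.trans r1 r2)) (.some b)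
    rcases l with l | w
    · cases og1 with
      | none => cases r3
      | some g1 => cases r3 with
        | some r3 => exact hF _ (hS _ hg _ _ s2) _ (by omega) r3
    · cases r3 with
      | some r3 =>
        obtain ⟨g1, rfl, -, h1⟩ := Mc_D a K r3
        exact hF _ (hS _ hg _ _ s2) _ (by omega) h1
  have c2 : ∀ v w og og', (∀ g, og = some g → g ∈ S) → (∀ g, og' = some g → g ∈ S) →
      Bis (Mc a K v og) (Mc a K w og') →
      v = w ∧ OB (og.map (sub (gam a K))) (og'.map (sub (gam a K))) := by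
    intro v w og og' h1 h2 h
    constructor
    · obtain ⟨r, s, b⟩ := Mc_step1 a K v og
      obtain ⟨o, s1, r1⟩ := h.step s
      rcases Mc_step a K s1 with r2 | rfl
      · cases OB.trans r1 r2 with
        | some r3 => have := D_inj a (b.symm.trans r3); omega
      · cases og' with
        | none => cases r1
        | some g => cases r1 with
          | some r1 => exact (hF _ (h2 _ rfl) _ (by omega) (r1.symm.trans b)).elim
    · obtain ⟨o, s1, r1⟩ := h.step (Mc_step2 a K v og)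
      rcases Mc_step a K s1 with r2 | rfl
      · have r3 := OB.trans r1 r2
        cases og with
        | none => cases r3
        | some g => cases r3 with
          | some r3 => exact (hF _ (h1 _ rfl) _ (by omega) r3).elim
      · exact r1
  refine ⟨fun g g' => g ∈ S ∧ g' ∈ S ∧ Bis (sub (gam a K) g) (sub (gam a K) g'),
    ⟨fun _ _ h => ⟨h.2.1, h.1, h.2.2.symm⟩, ?_⟩, ht, hu, h⟩
  rintro g g' ⟨hg, hg', h⟩ l og s
  obtain ⟨o, s1, r1⟩ := step_gam a K s
  obtain ⟨o', s2, r2⟩ := h.step s1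
  obtain ⟨l', og', s3, e, r3⟩ := gam_step a K s2
  have r4 := OB.trans (OB.trans (OB.symm r1) r2) r3
  have m1 : ∀ g, og = some g → g ∈ S := fun _ e => hS _ hg _ _ (e ▸ s)
  have m2 : ∀ g, og' = some g → g ∈ S := fun _ e => hS _ hg' _ _ (e ▸ s3)
  have : l = l' ∧ OB (og.map (sub (gam a K))) (og'.map (sub (gam a K))) := by
    rcases l with l | v <;> rcases l' with l' | w
    · exact ⟨congrArg _ e, r4⟩
    · cases og with
      | none => cases r4
      | some g1 => cases r4 with
        | some r4 => exact (c1 _ (m1 _ rfl) _ _ r4).elim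
    · cases og' with
      | none => cases r4
      | some g1 => cases r4 with
        | some r4 => exact (c1 _ (m2 _ rfl) _ _ r4.symm).elim
    · cases r4 with
      | some r4 =>
        obtain ⟨rfl, h⟩ := c2 _ _ _ _ m1 m2 r4
        exact ⟨rfl, h⟩
  obtain ⟨rfl, r5⟩ := this
  refine ⟨og', s3, ?_⟩
  cases og <;> cases og' <;> cases r5
  · exact .none
  · exact .some ⟨m1 _ rfl, m2 _ rfl, ‹_›⟩

end gadget

theorem Valid.bis [Nonempty A] {t u : Tm (A ⊕ ℕ)} (h : Valid t u) : Bis t u := by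
  obtain ⟨a⟩ := ‹Nonempty A›
  obtain ⟨S, h1, h2, h3⟩ := exists_closed (alt t u)
  have hf := (h1.insert u).insert t
  have hS : ∀ g ∈ insert t (insert u S), ∀ l g', Step g l (some g') → g' ∈ insert t (insert u S) := by
    rintro g (rfl | rfl | hg) l g' s
    · exact .inr (.inr (h2 _ _ (.altL s)))
    · exact .inr (.inr (h2 _ _ (.altR s)))
    · exact .inr (.inr (h3 _ hg _ _ s))
  refine generic a (2 * hf.toFinset.card + 1) hS (fun g hg n hn hb => ?_) (.inl rfl)
    (.inr (.inl rfl)) (h _)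
  obtain ⟨F, hF, hc⟩ := count a _ hS n g hg hb
  have : F.card ≤ hf.toFinset.card :=
    Finset.card_le_card fun x hx => hf.mem_toFinset.2 (hF x hx).1
  omega

end Tm
end LeadBpa
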