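import Mathlib
import Pool.Agent.Lib.lead.Bpa2

set_option autoImplicit false

namespace LeadBpa
namespace Tm
variable {A B : Type}

/-! ### norms -/

noncomputable def nm : Tm A → ℕ∞
  | atom _ => 1
  | dead => ⊤
  | alt p q => min (nm p) (nm q)
  | seq p q => nm p + nm q
  | star _ q => nm q

noncomputable def onm : Option (Tm A) → ℕ∞
  | none => 0
  | some p => nm p

lemma nm_cont (o : Option (Tm A)) (q : Tm A) : nm (cont o q) = onm o + nm q := by
  cases o <;> simp [cont, onm, nm]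

lemma one_le_nm (p : Tm A) : 1 ≤ nm p := by
  induction p with
  | atom => exact le_rfl
  | dead => exact le_top
  | alt p q h h' => exact le_min h h'
  | seq p q h _ => exact h.trans le_self_add
  | star p q _ h => exact h

lemma nm_step {p : Tm A} {a o} (s : Step p a o) : nm p ≤ onm o + 1 := by
  induction s with
  | atom => simp [nm, onm]
  | altL _ h => exact (min_le_left _ _).trans h
  | altR _ h => exact (min_le_right _ _).trans h
  | seq _ h =>
    rw [onm, nm_cont, add_right_comm]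
    exact add_le_add_left h _
  | starL _ _ =>
    rw [onm, nm_cont]
    exact le_add_self.trans le_self_add
  | starR _ h => exact h

lemma nm_ex (p : Tm A) (h : nm p ≠ ⊤) : ∃ a o, Step p a o ∧ nm p = onm o + 1 := by
  induction p with
  | atom a => exact ⟨a, none, .atom a, by simp [nm, onm]⟩
  | dead => exact (h rfl).elim
  | alt p q ih ih' =>
    rcases min_cases (nm p) (nm q) with ⟨e, -⟩ | ⟨e, -⟩ <;> rw [nm, e] at h ⊢
    · obtain ⟨a, o, s, e⟩ := ih h; exact ⟨a, o, .altL s, e⟩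
    · obtain ⟨a, o, s, e⟩ := ih' h; exact ⟨a, o, .altR s, e⟩
  | seq p q ih _ =>
    obtain ⟨a, o, s, e⟩ := ih fun e => h (by simp [nm, e])
    exact ⟨a, _, .seq s, by rw [onm, nm_cont, add_right_comm, ← e, nm]⟩
  | star p q _ ih => obtain ⟨a, o, s, e⟩ := ih h; exact ⟨a, o, .starR s, e⟩

lemma nm_ind (P : Tm A → Prop) (h : ∀ p, nm p ≠ ⊤ → (∀ q, nm q < nm p → P q) → P p) (p : Tm A)
    (hp : nm p ≠ ⊤) : P p := by
  induction hn : nm p using WellFoundedLT.induction generalizing p with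
  | ind n ih =>
    subst hn
    exact h p hp fun q hq => ih _ hq q (ne_top_of_lt hq) rfl

lemma lt_of_succ {a b : ℕ∞} (h : b ≠ ⊤) (e : b = a + 1) : a < b := by
  have : a ≠ ⊤ := fun e' => h (by simp [e, e'])
  rw [e]
  exact (ENat.lt_add_one_iff this).2 le_rfl

lemma Bis.nm_le {p q : Tm A} (h : Bis p q) : nm q ≤ nm p := by
  by_cases hp : nm p = ⊤
  · simp [hp]
  refine nm_ind (fun p => ∀ q, Bis p q → nm q ≤ nm p) (fun p hp ih q h => ?_) p hp q h
  obtain ⟨a, o, s, e⟩ := nm_ex p hp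
  obtain ⟨o', s', r⟩ := h.step s
  refine (nm_step s').trans ?_
  rw [e]
  cases r with
  | none => exact le_rfl
  | some r => exact add_le_add_left (ih _ (lt_of_succ hp e) _ r) _

lemma Bis.nm_eq {p q : Tm A} (h : Bis p q) : nm p = nm q := le_antisymm h.symm.nm_le h.nm_le

def Ter (p : Tm A) : Prop := nm p ≠ ⊤
def Mv (a : A) (p : Tm A) : Prop := ∃ o, Step p a o
def HM (p : Tm A) : Prop := ∃ a, Mv a p

lemma ter_alt {p q : Tm A} : Ter (alt p q) ↔ Ter p ∨ Ter q := by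
  simp only [Ter, nm, ne_eq, min_eq_top, not_and_or]
lemma ter_seq {p q : Tm A} : Ter (seq p q) ↔ Ter p ∧ Ter q := by
  simp only [Ter, nm, ne_eq, ENat.add_eq_top, not_or]
lemma ter_star {p q : Tm A} : Ter (star p q) ↔ Ter q := Iff.rfl
lemma ter_atom (a : A) : Ter (atom a) := by simp [Ter, nm]
lemma ter_dead : ¬ Ter (dead : Tm A) := by simp [Ter, nm]
lemma Ter.hm {p : Tm A} (h : Ter p) : HM p := let ⟨a, o, s, _⟩ := nm_ex p h; ⟨a, o, s⟩
lemma ter_of_step {p : Tm A} {a o} (s : Step p a o) (h : ∀ q, o = some q → Ter q) : Ter p := by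
  refine ne_top_of_le_ne_top ?_ (nm_step s)
  cases o with
  | none => simp [onm]
  | some q => simpa [onm, Ter] using h q rfl
lemma mv_alt {a} {p q : Tm A} : Mv a (alt p q) ↔ Mv a p ∨ Mv a q := by
  simp only [Mv, step_alt, exists_or]
lemma mv_seq {a} {p q : Tm A} : Mv a (seq p q) ↔ Mv a p :=
  ⟨fun ⟨_, s⟩ => let ⟨o, s, _⟩ := step_seq.1 s; ⟨o, s⟩, fun ⟨_, s⟩ => ⟨_, .seq s⟩⟩
lemma mv_star {a} {p q : Tm A} : Mv a (star p q) ↔ Mv a p ∨ Mv a q := by
  rw [← mv_seq (p := p) (q := star p q)]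
  simp only [Mv, step_star, exists_or]
lemma Bis.ter {p q : Tm A} (h : Bis p q) : Ter p ↔ Ter q := by rw [Ter, Ter, h.nm_eq]
lemma Bis.mv {p q : Tm A} (h : Bis p q) {a} : Mv a p → Mv a q :=
  fun ⟨_, s⟩ => let ⟨o, s, _⟩ := h.step s; ⟨o, s⟩

/-! ### colourings -/

variable {P : ℕ}

abbrev X : A ⊕ ℕ := .inr 0
abbrev Y : A ⊕ ℕ := .inr 1

def act (a : A ⊕ ℕ) (i : ZMod P) : ZMod P := match a with
  | .inr 0 => i + 1
  | _ => 0

def Full (p : Tm (A ⊕ ℕ)) : Prop := Mv X p ∧ Mv Y p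

def G : Tm (A ⊕ ℕ) → ZMod P → ZMod P → Prop
  | atom a, i, c => (a = X ∨ a = Y) ∧ c = act a i
  | dead, _, _ => True
  | alt p q, i, c => G p i c ∧ G q i c
  | seq p q, i, c => ∃ j, G p i j ∧ (Ter p → Full q ∧ G q j c)
  | star p q, i, c => G p i i ∧ G q i c ∧ (Ter p → Full (star p q) ∧ Ter q)

lemma G.ter {p : Tm (A ⊕ ℕ)} {i c : ZMod P} (h : G p i c) (m : HM p) : Ter p := by
  induction p generalizing i c with
  | atom => exact ter_atom _
  | dead => obtain ⟨_, _, s⟩ := m; cases s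
  | alt p q ih ih' =>
    obtain ⟨a, m⟩ := m
    exact ter_alt.2 ((mv_alt.1 m).imp (fun m => ih h.1 ⟨a, m⟩) fun m => ih' h.2 ⟨a, m⟩)
  | seq p q ih ih' =>
    obtain ⟨a, m⟩ := m
    obtain ⟨j, h1, h2⟩ := h
    have := ih h1 ⟨a, mv_seq.1 m⟩
    exact ter_seq.2 ⟨this, ih' (h2 this).2 ⟨_, (h2 this).1.1⟩⟩
  | star p q ih ih' =>
    obtain ⟨a, m⟩ := m
    rcases mv_star.1 m with m | m
    · exact (h.2.2 (ih h.1 ⟨a, m⟩)).2
    · exact ih' h.2.1 ⟨a, m⟩

lemma full_seq {p q : Tm (A ⊕ ℕ)} : Full (seq p q) ↔ Full p := by simp only [Full, mv_seq]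

def OG (o : Option (Tm (A ⊕ ℕ))) (j c : ZMod P) : Prop := match o with
  | none => c = j
  | some q => G q j c ∧ Full q

lemma OG.cont {o} {q : Tm (A ⊕ ℕ)} {j e c : ZMod P} (h : OG o j e) (h' : Full q ∧ G q e c) :
    OG (some (cont o q)) j c := by
  cases o with
  | none => cases h; exact h'.symm
  | some r => exact ⟨⟨e, h.1, fun _ => h'⟩, full_seq.2 h.2⟩

lemma G.step {p : Tm (A ⊕ ℕ)} {a o} (s : Step p a o) {i c : ZMod P} (h : G p i c) :
    (a = X ∨ a = Y) ∧ OG o (act a i) c := by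
  induction s generalizing c with
  | atom => exact h
  | altL _ ih => exact ih h.1
  | altR _ ih => exact ih h.2
  | seq s ih =>
    obtain ⟨j, h1, h2⟩ := h
    exact ⟨(ih h1).1, (ih h1).2.cont (h2 (h1.ter ⟨_, _, s⟩))⟩
  | starL s ih => exact ⟨(ih h.1).1, (ih h.1).2.cont ⟨(h.2.2 (h.1.ter ⟨_, _, s⟩)).1, h⟩⟩
  | starR _ ih => exact ih h.2.1

lemma G.irr {p : Tm (A ⊕ ℕ)} {i c : ZMod P} (h : G p i c) (n : ¬ Ter p) (c' : ZMod P) :
    G p i c' := by
  induction p generalizing i c with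
  | atom => exact (n (ter_atom _)).elim
  | dead => trivial
  | alt p q ih ih' =>
    rw [ter_alt, not_or] at n
    exact ⟨ih h.1 n.1, ih' h.2 n.2⟩
  | seq p q _ _ =>
    obtain ⟨j, h1, h2⟩ := h
    exact ⟨j, h1, fun t => (n (ter_seq.2 ⟨t, (h2 t).2.ter ⟨_, (h2 t).1.1⟩⟩)).elim⟩
  | star p q _ ih => exact ⟨h.1, ih h.2.1 n, h.2.2⟩

lemma G.of_no {p : Tm (A ⊕ ℕ)} (n : ¬ HM p) (i c : ZMod P) : G p i c := by
  induction p generalizing i c with
  | atom a => exact (n ⟨a, _, .atom a⟩).elim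
  | dead => trivial
  | alt p q ih ih' =>
    exact ⟨ih (fun ⟨a, m⟩ => n ⟨a, mv_alt.2 (.inl m)⟩) _ _,
      ih' (fun ⟨a, m⟩ => n ⟨a, mv_alt.2 (.inr m)⟩) _ _⟩
  | seq p q ih _ =>
    have : ¬ HM p := fun ⟨a, m⟩ => n ⟨a, mv_seq.2 m⟩
    exact ⟨i, ih this _ _, fun t => (this t.hm).elim⟩
  | star p q ih ih' =>
    have : ¬ HM p := fun ⟨a, m⟩ => n ⟨a, mv_star.2 (.inl m)⟩
    exact ⟨ih this _ _, ih' (fun ⟨a, m⟩ => n ⟨a, mv_star.2 (.inr m)⟩) _ _,
      fun t => (this t.hm).elim⟩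

lemma G.uniq {p : Tm (A ⊕ ℕ)} {i c c' : ZMod P} (h : G p i c) (h' : G p i c') (t : Ter p) :
    c = c' := by
  induction p generalizing i c c' with
  | atom => exact h.2.trans h'.2.symm
  | dead => exact (ter_dead t).elim
  | alt p q ih ih' => exact (ter_alt.1 t).elim (ih h.1 h'.1) (ih' h.2 h'.2)
  | seq p q ih ih' =>
    obtain ⟨j, h1, h2⟩ := h
    obtain ⟨j', h1', h2'⟩ := h'
    obtain ⟨t1, t2⟩ := ter_seq.1 t
    obtain rfl := ih h1 h1' t1
    exact ih' (h2 t1).2 (h2' t1).2 t2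
  | star p q _ ih => exact ih h.2.1 h'.2.1 t

/-! ### infinite `x`-paths -/

inductive Reach (m : ℕ∞) : Tm (A ⊕ ℕ) → ZMod P → ZMod P → Prop
  | base {s j} : nm s ≤ m → Reach m s j j
  | step {s j a s' l} : m < nm s → Step s a (some s') → Reach m s' (act a j) l → Reach m s j l

def Conv (π : ℕ → Tm (A ⊕ ℕ)) (i : ZMod P) : Prop :=
  ∃ (n0 : ℕ) (m : ℕ∞) (v : ZMod P), 1 ≤ m ∧ m ≠ ⊤ ∧ (∀ n, n0 ≤ n → m ≤ nm (π n)) ∧
    (∀ n, ∃ n', n ≤ n' ∧ nm (π n') = m) ∧ ∀ n, n0 ≤ n → ∀ l, Reach m (π n) (i + (n : ZMod P)) l → l = v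

lemma Conv.shift {π : ℕ → Tm (A ⊕ ℕ)} {i : ZMod P} (k : ℕ)
    (h : Conv (fun n => π (k + n)) (i + (k : ZMod P))) : Conv π i := by
  obtain ⟨n0, m, v, h1, h2, h3, h4, h5⟩ := h
  refine ⟨k + n0, m, v, h1, h2, fun n hn => ?_, fun n => ?_, fun n hn l r => ?_⟩
  · obtain ⟨n, rfl⟩ : ∃ n', n = k + n' := ⟨n - k, by omega⟩
    exact h3 n (by omega)
  · obtain ⟨n', a, b⟩ := h4 n
    exact ⟨k + n', by omega, b⟩
  · obtain ⟨n, rfl⟩ : ∃ n', n = k + n' := ⟨n - k, by omega⟩
    exact h5 n (by omega) l (by simpa [add_assoc] using r)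

lemma Reach.of_seq {m : ℕ∞} (h1 : 1 ≤ m) {K : Tm (A ⊕ ℕ)} (hK : Ter K) {q} {j l : ZMod P}
    (r : Reach (m + nm K) q j l) : ∀ s, q = seq s K → Reach m s j l := by
  induction r with
  | base h =>
    rintro s rfl
    exact .base ((ENat.add_le_add_iff_right hK).1 h)
  | step h s _ ih =>
    rintro r rfl
    have h' : m < nm r := (ENat.add_lt_add_iff_right hK).1 h
    obtain ⟨o, s1, e⟩ := step_seq.1 s
    cases e
    cases o with
    | none => exact absurd ((nm_step s1).trans (by simpa [onm] using h1)) (not_le.2 h')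
    | some r' => exact .step h' s1 (ih _ rfl)

lemma Conv.seq {π : ℕ → Tm (A ⊕ ℕ)} {i : ZMod P} (h : Conv π i) {K} (hK : Ter K) :
    Conv (fun n => seq (π n) K) i := by
  obtain ⟨n0, m, v, h1, h2, h3, h4, h5⟩ := h
  refine ⟨n0, m + nm K, v, h1.trans le_self_add, by simpa [h2, Ter] using hK,
    fun n hn => add_le_add_left (h3 n hn) _, fun n => ?_,
    fun n hn l r => h5 n hn l (r.of_seq h1 hK _ rfl)⟩
  obtain ⟨n', a, b⟩ := h4 n
  exact ⟨n', a, by rw [nm, b]⟩

def Path (s : Tm (A ⊕ ℕ)) (π : ℕ → Tm (A ⊕ ℕ)) : Prop :=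
  Step s X (some (π 0)) ∧ ∀ n, Step (π n) X (some (π (n + 1)))

lemma Path.tail {s} {π : ℕ → Tm (A ⊕ ℕ)} (h : Path s π) (k : ℕ) :
    Path (π k) fun n => π (k + 1 + n) := ⟨h.2 k, fun n => h.2 (k + 1 + n)⟩

def left : Tm A → Tm A
  | seq p _ => p
  | p => p

lemma split {s K : Tm (A ⊕ ℕ)} {π} (h : Path (seq s K) π) {i j : ZMod P} (g : G s i j) :
    (∃ ρ, Path s ρ ∧ π = fun n => seq (ρ n) K) ∨ ∃ n : ℕ, π n = K ∧ j = i + 1 + (n : ZMod P) := by
  by_contra hc
  rw [not_or, not_exists, not_exists] at hc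
  have h0 : Step s X (some (left (π 0))) ∧ π 0 = seq (left (π 0)) K := by
    obtain ⟨o, s1, e⟩ := step_seq.1 h.1
    have e := Option.some.inj e
    cases o with
    | none => exact (hc.2 0 ⟨e, by simpa [OG, act] using (g.step s1).2⟩).elim
    | some r => rw [e]; exact ⟨s1, rfl⟩
  have h1 : ∀ n, π n = seq (left (π n)) K → G (left (π n)) (i + 1 + (n : ZMod P)) j →
      Step (left (π n)) X (some (left (π (n + 1)))) ∧ π (n + 1) = seq (left (π (n + 1))) K := by
    intro n e g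
    have := h.2 n
    rw [e] at this
    obtain ⟨o, s1, e⟩ := step_seq.1 this
    have e := Option.some.inj e
    cases o with
    | none => exact (hc.2 (n + 1) ⟨e, by simpa [OG, act, add_assoc] using (g.step s1).2⟩).elim
    | some r => rw [e]; exact ⟨s1, rfl⟩
  have h2 : ∀ n, π n = seq (left (π n)) K ∧ G (left (π n)) (i + 1 + (n : ZMod P)) j := by
    intro n
    induction n with
    | zero => exact ⟨h0.2, by simpa [act] using (g.step h0.1).2.1⟩
    | succ n ih =>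
      have := h1 n ih.1 ih.2
      exact ⟨this.2, by simpa [act, add_assoc] using (ih.2.step this.1).2.1⟩
  exact hc.1 (fun n => left (π n))
    ⟨⟨h0.1, fun n => (h1 n (h2 n).1 (h2 n).2).1⟩, funext fun n => (h2 n).1⟩

def InL (H : Tm (A ⊕ ℕ)) (i : ZMod P) (q : Tm (A ⊕ ℕ)) (j : ZMod P) : Prop :=
  (q = H ∧ j = i) ∨ ∃ r, q = seq r H ∧ G r j i

lemma InL.seq {H r : Tm (A ⊕ ℕ)} {i j : ZMod P} (g : G r j i) {a q'}
    (s : Step (seq r H) a (some q')) : InL H i q' (act a j) := by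
  obtain ⟨o, s1, e⟩ := step_seq.1 s
  cases e
  cases o with
  | none => exact .inl ⟨rfl, (g.step s1).2.symm⟩
  | some r' => exact .inr ⟨r', rfl, (g.step s1).2.1⟩

lemma conv (s : Tm (A ⊕ ℕ)) : ∀ (i c : ZMod P) π, G s i c → Path s π → Conv π (i + 1) := by
  induction s with
  | atom => exact fun _ _ _ _ h => by cases h.1
  | dead => exact fun _ _ _ _ h => by cases h.1
  | alt p q ih ih' =>
    intro i c π g h
    rcases step_alt.1 h.1 with s | s
    · exact ih i c π g.1 ⟨s, h.2⟩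
    · exact ih' i c π g.2 ⟨s, h.2⟩
  | seq p q ih ih' =>
    rintro i c π ⟨j, g1, g2⟩ h
    have := g2 (g1.ter ⟨_, mv_seq.1 ⟨_, h.1⟩⟩)
    rcases split h g1 with ⟨ρ, h1, rfl⟩ | ⟨n, h1, rfl⟩
    · exact (ih _ _ _ g1 h1).seq (this.2.ter ⟨_, this.1.1⟩)
    · have := ih' _ _ _ this.2 (h1 ▸ h.tail n)
      exact .shift (n + 1) (by simpa [add_assoc] using this)
  | star p q ih ih' =>
    intro i c π g h
    have hT : Ter (star p q) := g.ter ⟨_, _, h.1⟩
    by_cases hf : ∀ n1, ∃ n, n1 ≤ n ∧ π n = star p q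
    · by_cases ha : ∀ n, InL (star p q) i (π n) (i + 1 + (n : ZMod P))
      · refine ⟨0, nm (star p q), i, one_le_nm _, hT, fun n _ => ?_, fun n => ?_,
          fun n _ l r => ?_⟩
        · rcases ha n with ⟨e, -⟩ | ⟨r, e, -⟩ <;> rw [e]
          exact le_add_self
        · obtain ⟨n', a, b⟩ := hf n
          exact ⟨n', a, by rw [b]⟩
        · have := ha n
          generalize π n = q', i + 1 + (n : ZMod P) = j at r this
          induction r with
          | base h =>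
            rcases this with ⟨-, e⟩ | ⟨r, rfl, -⟩
            · exact e
            · exact absurd h (not_le.2 ((lt_of_succ (by simpa [Ter] using hT) rfl).trans_le
                ((add_comm _ _).le.trans (add_le_add_left (one_le_nm r) _))))
          | step h s _ ih =>
            rcases this with ⟨rfl, -⟩ | ⟨r, rfl, g'⟩
            · exact absurd h (lt_irrefl _)
            · exact ih (.seq g' s)
      · classical
        push Not at ha
        have h1 := Nat.find_spec ha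
        have h2 := fun m => Nat.find_min ha (m := m)
        generalize Nat.find ha = n at h1 h2
        cases n with
        | zero =>
          rcases step_star.1 h.1 with s | s
          · exact (h1 (by simpa [act] using InL.seq g.1 s)).elim
          · exact ih' _ _ _ g.2.1 ⟨s, h.2⟩
        | succ n =>
          have h3 := h.tail n
          rcases not_not.1 (h2 n (by omega)) with ⟨e, e'⟩ | ⟨r, e, g'⟩
          · rw [e] at h3
            rcases step_star.1 h3.1 with s | s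
            · refine (h1 ?_).elim
              rw [Nat.cast_succ, ← add_assoc, e']
              exact InL.seq g.1 s
            · refine .shift (n + 1) ?_
              rw [Nat.cast_succ, ← add_assoc, e']
              exact ih' _ _ _ g.2.1 ⟨s, h3.2⟩
          · rw [e] at h3
            refine (h1 ?_).elim
            rw [Nat.cast_succ, ← add_assoc]
            exact InL.seq g' h3.1
    · push Not at hf
      obtain ⟨n1, hf⟩ := hf
      induction n1 using Nat.strong_induction_on generalizing π with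
      | _ n1 ih1 =>
      rcases step_star.1 h.1 with s | s
      · rcases split ⟨s, h.2⟩ g.1 with ⟨ρ, h1, rfl⟩ | ⟨n, h1, e⟩
        · exact (ih _ _ _ g.1 h1).seq hT
        · have hn : n < n1 := not_le.1 fun hn => hf n hn h1
          refine .shift (n + 1) ?_
          rw [Nat.cast_succ, ← add_assoc, ← e]
          exact ih1 (n1 - (n + 1)) (by omega) _ (h1 ▸ h.tail n) fun k hk => hf _ (by omega)
      · exact ih' _ _ _ g.2.1 ⟨s, h.2⟩

lemma reach_ex {m : ℕ∞} (h1 : 1 ≤ m) {g : Tm (A ⊕ ℕ)} (t : Ter g) :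
    ∀ {g'} (j : ZMod P), Bis g g' → ∃ l, Reach m g j l ∧ Reach m g' j l := by
  refine nm_ind (fun g => ∀ {g'} (j : ZMod P), Bis g g' → ∃ l, Reach m g j l ∧ Reach m g' j l)
    (fun g t ih g' j b => ?_) g t
  rcases le_or_gt (nm g) m with h | h
  · exact ⟨j, .base h, .base (b.nm_eq ▸ h)⟩
  · obtain ⟨a, o, s, e⟩ := nm_ex g t
    obtain ⟨o', s', r⟩ := b.step s
    cases r with
    | none => exact absurd (e.le.trans (by simpa [onm] using h1)) (not_le.2 h)
    | some r =>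
      obtain ⟨l, r1, r2⟩ := ih _ (lt_of_succ t e) (act a j) r
      exact ⟨l, .step h s r1, .step (b.nm_eq ▸ h) s' r2⟩

theorem G.entry (hP : (1 : ZMod P) ≠ 0) {r1 r2 : Tm (A ⊕ ℕ)} {i1 i2 c : ZMod P} (g1 : G r1 i1 c)
    (g2 : G r2 i2 c) (b : Bis r1 r2) (m : Mv X r1) : i1 = i2 := by
  by_contra hne
  let Q : ℕ → Tm (A ⊕ ℕ) × Tm (A ⊕ ℕ) → Prop := fun n r =>
    G r.1 (i1 + (n : ZMod P)) c ∧ G r.2 (i2 + (n : ZMod P)) c ∧ Bis r.1 r.2 ∧ Mv X r.1
  have st : ∀ n r, Q n r → ∃ r', (Q (n + 1) r' ∧ Full r'.1) ∧ Step r.1 X (some r'.1) ∧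
      Step r.2 X (some r'.2) := by
    rintro n r ⟨g1, g2, b, o, s⟩
    obtain ⟨o', s', rl⟩ := b.step s
    have h1 := (g1.step s).2
    have h2 := (g2.step s').2
    cases rl with
    | none => exact (hne (by simpa [act] using h1.symm.trans h2)).elim
    | some rl =>
      exact ⟨(_, _), ⟨⟨by simpa [act, add_assoc] using h1.1, by simpa [act, add_assoc] using h2.1,
        rl, h1.2.1⟩, h1.2⟩, s, s'⟩
  choose f hf using st
  let π : ∀ n, {r // Q n r} := fun n => Nat.rec ⟨(r1, r2), by simpa [Q] using ⟨g1, g2, b, m⟩⟩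
    (fun n r => ⟨f n r.1 r.2, (hf n r.1 r.2).1.1⟩) n
  have hπ : ∀ n, (π (n + 1)).1 = f n (π n).1 (π n).2 := fun n => rfl
  obtain ⟨n1, m1, v1, a1, a2, a3, a4, a5⟩ := conv r1 i1 c (fun n => (π (n + 1)).1.1) g1
    ⟨(hf 0 _ (π 0).2).2.1, fun n => (hf _ _ (π (n + 1)).2).2.1⟩
  obtain ⟨n2, m2, v2, -, -, b3, b4, b5⟩ := conv r2 i2 c (fun n => (π (n + 1)).1.2) g2
    ⟨(hf 0 _ (π 0).2).2.2, fun n => (hf _ _ (π (n + 1)).2).2.2⟩
  have e : ∀ n, nm (π n).1.1 = nm (π n).1.2 := fun n => (π n).2.2.2.1.nm_eq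
  obtain rfl : m1 = m2 := by
    apply le_antisymm
    · obtain ⟨n, h1, h2⟩ := b4 n1
      exact (a3 n h1).trans (((e _).trans h2).le)
    · obtain ⟨n, h1, h2⟩ := a4 n2
      exact (b3 n h1).trans (((e _).symm.trans h2).le)
  obtain ⟨n, h1, h2⟩ := a4 (n1 + n2)
  have c1 := a5 n (by omega) _ (.base h2.le)
  have c2 := b5 n (by omega) _ (.base ((e _).symm.trans h2).le)
  have c3 : m1 < nm (π (n + 2)).1.1 := by
    refine lt_of_le_of_ne (a3 (n + 1) (by omega)) fun h => hP ?_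
    have := a5 (n + 1) (by omega) _ (.base h.ge)
    rw [Nat.cast_succ, ← add_assoc, c1] at this
    simpa using this
  obtain ⟨o, s⟩ := (hf _ _ (π (n + 1)).2).1.2.2
  rw [← hπ] at s
  obtain ⟨o', s', rl⟩ := (π (n + 2)).2.2.2.1.step s
  cases rl with
  | none => exact absurd ((nm_step s).trans (by simpa [onm] using a1)) (not_le.2 c3)
  | some rl =>
    have h3 := ((π (n + 2)).2.1.step s).2
    obtain ⟨l, l1, l2⟩ := reach_ex a1 (h3.1.ter ⟨_, h3.2.1⟩) (0 : ZMod P) rl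
    have d1 := a5 (n + 1) (by omega) l (.step c3 s l1)
    have d2 := b5 (n + 1) (by omega) l (.step ((e _) ▸ c3) s' l2)
    exact hne (by simpa using c1.trans (d1.symm.trans (d2.trans c2.symm)))

end Tm
end LeadBpa
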