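import Mathlib
import Pool.Agent.Lib.lead.Bpa3

set_option autoImplicit false

namespace LeadBpa
namespace Tm
variable {A B : Type} {P : ℕ}

def Tr (P : ℕ) : Tm (A ⊕ ℕ) → Prop
  | atom _ => False
  | dead => False
  | alt p q => Tr P p ∨ Tr P q
  | seq p q => Tr P p ∨ (Ter p ∧ Tr P q)
  | star p q => Tr P p ∨ Tr P q ∨ (¬ HM q ∧ Full p ∧ ∃ i : ZMod P, G p i i)

variable (σ : B → Tm (A ⊕ ℕ))

lemma mv_sub {g : Tm B} {b} : Mv b (sub σ g) ↔ ∃ a, Mv a g ∧ Mv b (σ a) :=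
  ⟨fun ⟨_, s⟩ => let ⟨a, og, r, h1, h2, _⟩ := sub_step σ g s; ⟨a, ⟨og, h1⟩, r, h2⟩,
    fun ⟨_, ⟨_, h1⟩, _, h2⟩ => let ⟨o, h, _⟩ := step_sub σ h1 h2; ⟨o, h⟩⟩

lemma Bis.full_sub {g g' : Tm B} (h : Bis g g') (f : Full (Tm.sub σ g)) : Full (Tm.sub σ g') :=
  ⟨(h.sub σ).mv f.1, (h.sub σ).mv f.2⟩

inductive GT : Tm B → Prop
  | base {g a} : Step g a none → Ter (σ a) → GT g
  | step {g a g'} : Step g a (some g') → Ter (σ a) → GT g' → GT g

lemma GT.seq {g k : Tm B} (h : GT σ g) (h' : GT σ k) : GT σ (seq g k) := by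
  induction h with
  | base s t => exact .step (.seq s) t h'
  | step s t _ ih => exact .step (.seq s) t ih

lemma GT.mono {g k : Tm B} (h : GT σ g) (h' : ∀ a o, Step g a o → Step k a o) : GT σ k := by
  cases h with
  | base s t => exact .base (h' _ _ s) t
  | step s t h => exact .step (h' _ _ s) t h

lemma gt_of_ter {g : Tm B} (h : Ter (sub σ g)) : GT σ g := by
  induction g with
  | atom a => exact .base (.atom a) h
  | dead => exact (ter_dead h).elim
  | alt p q ih ih' =>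
    exact (ter_alt.1 h).elim (fun h => (ih h).mono σ fun _ _ => .altL)
      fun h => (ih' h).mono σ fun _ _ => .altR
  | seq p q ih ih' => exact (ih (ter_seq.1 h).1).seq σ (ih' (ter_seq.1 h).2)
  | star p q _ ih => exact (ih h).mono σ fun _ _ => .starR

lemma ter_sub {g : Tm B} {a o} (s : Step g a o) (t : Ter (σ a))
    (h : ∀ g', o = some g' → Ter (sub σ g')) : Ter (sub σ g) := by
  induction s with
  | atom => exact t
  | altL _ ih => exact ter_alt.2 (.inl (ih t h))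
  | altR _ ih => exact ter_alt.2 (.inr (ih t h))
  | @seq p q a o _ ih =>
    have := h _ rfl
    cases o with
    | none => exact ter_seq.2 ⟨ih t nofun, this⟩
    | some r => exact ter_seq.2 ⟨ih t fun _ e => Option.some.inj e ▸ (ter_seq.1 this).1,
        (ter_seq.1 this).2⟩
  | @starL p q a o _ _ =>
    have := h _ rfl
    cases o with
    | none => exact this
    | some r => exact (ter_seq.1 this).2
  | starR _ ih => exact ih t h

def Cl (S : Set (Tm B)) (f : Tm B → ZMod P) (c : ZMod P) (g : Tm B) (j : ZMod P) : Prop :=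
  (∀ a g', Step g a (some g') → G (σ a) j (f g') ∧ (Ter (σ a) → g' ∈ S)) ∧
    ∀ a, Step g a none → G (σ a) j c

lemma Cl.left {S} {f : Tm B → ZMod P} {c g k j} (h : Cl σ S f c (seq g k) j) :
    Cl σ {r | seq r k ∈ S} (fun r => f (seq r k)) (f k) g j :=
  ⟨fun a _ s => h.1 a _ (.seq s), fun a s => (h.1 a _ (.seq s)).1⟩

lemma Cl.mono {S} {f : Tm B → ZMod P} {c g k j} (h : Cl σ S f c k j)
    (h' : ∀ a o, Step g a o → Step k a o) : Cl σ S f c g j :=
  ⟨fun a _ s => h.1 a _ (h' _ _ s), fun a s => h.2 a (h' _ _ s)⟩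

lemma GT.mem {S} {f : Tm B → ZMod P} {c} (hS : ∀ g ∈ S, Full (sub σ g) ∧ Cl σ S f c g (f g))
    {g k} (h : GT σ g) : ∀ {j}, Cl σ S f c (Tm.seq g k) j → k ∈ S := by
  induction h with
  | base s t => exact fun h => (h.1 _ _ (.seq s)).2 t
  | step s t _ ih => exact fun h => ih (hS _ ((h.1 _ _ (.seq s)).2 t)).2

theorem sem (hP : (1 : ZMod P) ≠ 0) (s : Tm B) : ∀ (S : Set (Tm B)) (f : Tm B → ZMod P) (i c),
    Cl σ S f c s i → (∀ g ∈ S, Full (sub σ g) ∧ Cl σ S f c g (f g)) →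
    Tr P (sub σ s) ∨ G (sub σ s) i c := by
  induction s with
  | atom a => exact fun S f i c h _ => .inr (h.2 _ (.atom a))
  | dead => exact fun _ _ _ _ _ _ => .inr trivial
  | alt p q ih ih' =>
    intro S f i c h hS
    rcases ih S f i c (h.mono σ fun _ _ => .altL) hS with h1 | h1
    · exact .inl (.inl h1)
    rcases ih' S f i c (h.mono σ fun _ _ => .altR) hS with h2 | h2
    · exact .inl (.inr h2)
    exact .inr ⟨h1, h2⟩
  | seq p q ih ih' =>
    intro S f i c h hS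
    rcases ih _ _ i _ (h.left σ) fun g hg => ⟨full_seq.1 (hS _ hg).1, (hS _ hg).2.left σ⟩
      with h1 | h1
    · exact .inl (.inl h1)
    by_cases t : Ter (sub σ p)
    · have := hS _ ((gt_of_ter σ t).mem σ hS h)
      rcases ih' S f _ c this.2 hS with h2 | h2
      · exact .inl (.inr ⟨t, h2⟩)
      · exact .inr ⟨_, h1, fun _ => ⟨this.1, h2⟩⟩
    · exact .inr ⟨_, h1, fun t' => (t t').elim⟩
  | star p q ih ih' =>
    intro S f i c h hS
    have h' : Cl σ S f c (seq p (star p q)) i := h.mono σ fun _ _ s => step_star.2 (.inl s)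
    rcases ih _ _ i _ (h'.left σ) fun g hg => ⟨full_seq.1 (hS _ hg).1, (hS _ hg).2.left σ⟩
      with h1 | h1
    · exact .inl (.inl h1)
    rcases ih' S f i c (h.mono σ fun _ _ => .starR) hS with h2 | h2
    · exact .inl (.inr (.inl h2))
    by_cases t : Ter (sub σ p)
    · have := hS _ ((gt_of_ter σ t).mem σ hS h')
      obtain ⟨a, ⟨o, s⟩, m⟩ := (mv_sub σ).1 this.1.1
      obtain rfl : i = f (star p q) := by
        cases o with
        | none => exact (h.2 _ s).entry hP (this.2.2 _ s) (.refl _) m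
        | some g => exact (h.1 _ _ s).1.entry hP (this.2.1 _ _ s).1 (.refl _) m
      by_cases hm : HM (sub σ q)
      · exact .inr ⟨h1, h2, fun _ => ⟨this.1, h2.ter hm⟩⟩
      · exact .inl (.inr (.inr ⟨hm, ⟨(mv_star.1 this.1.1).resolve_right fun m => hm ⟨_, m⟩,
          (mv_star.1 this.1.2).resolve_right fun m => hm ⟨_, m⟩⟩, _, h1⟩))
    · exact .inr ⟨h1.irr t _, h2, fun t' => (t t').elim⟩

theorem G.bis (hP : (1 : ZMod P) ≠ 0) {s s' : Tm (A ⊕ ℕ)} {i c : ZMod P} (g : G s i c)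
    (b : Bis s s') : Tr P s' ∨ G s' i c := by
  classical
  let Q : Tm (A ⊕ ℕ) → ZMod P → Prop := fun g' j => ∃ g, Bis g g' ∧ G g j c ∧ Full g
  let f : Tm (A ⊕ ℕ) → ZMod P := fun g' => if h : ∃ j, Q g' j then h.choose else 0
  have hf : ∀ g' j, Q g' j → f g' = j := by
    rintro g' j h
    have h' : ∃ j, Q g' j := ⟨j, h⟩
    obtain ⟨g1, b1, h1, f1⟩ := h'.choose_spec
    obtain ⟨g2, b2, h2, -⟩ := h
    simp only [f, dif_pos h']
    exact h1.entry hP h2 (b1.trans b2.symm) f1.1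
  have cl : ∀ g g' j, Bis g g' → G g j c → Cl atom {g' | ∃ j, Q g' j} f c g' j := by
    intro g g' j b h
    constructor
    · intro a g1' s
      obtain ⟨o, s1, r⟩ := b.symm.step s
      cases r with
      | some r =>
        have := h.step s1
        have q : Q g1' (act a j) := ⟨_, r.symm, this.2⟩
        exact ⟨⟨this.1, hf _ _ q⟩, fun _ => ⟨_, q⟩⟩
    · intro a s
      obtain ⟨o, s1, r⟩ := b.symm.step s
      cases r with
      | none => exact h.step s1
  have := sem atom hP s' _ f i c (cl _ _ _ b g) (by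
    rintro g' ⟨j, h⟩
    rw [hf _ _ h]
    obtain ⟨g, b, h, fu⟩ := h
    exact ⟨b.full_sub atom (by rwa [sub_atom]), cl _ _ _ b h⟩)
  rwa [sub_atom] at this

/-! ### traps -/

lemma tr_step {g : Tm B} {a o} (s : Step g a o) (t : Ter (σ a)) :
    ∀ g', o = some g' → Tr P (sub σ g') → Tr P (sub σ g) := by
  induction s with
  | atom => nofun
  | altL _ ih => exact fun _ e h => .inl (ih t _ e h)
  | altR _ ih => exact fun _ e h => .inr (ih t _ e h)
  | @seq p q a o s ih =>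
    rintro _ ⟨⟩ h
    cases o with
    | none => exact .inr ⟨ter_sub σ s t nofun, h⟩
    | some r => exact h.imp (ih t _ rfl) fun h =>
        ⟨ter_sub σ s t fun _ e => Option.some.inj e ▸ h.1, h.2⟩
  | @starL p q a o s ih =>
    rintro _ ⟨⟩ h
    cases o with
    | none => exact h
    | some r => exact h.elim (fun h => .inl (ih t _ rfl h)) fun h => h.2
  | starR _ ih => exact fun _ e h => .inr (.inl (ih t _ e h))

lemma tr_mv {g : Tm B} {a o} (s : Step g a o) (t : Tr P (σ a)) : Tr P (sub σ g) := by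
  induction s with
  | atom => exact t
  | altL _ ih => exact .inl (ih t)
  | altR _ ih => exact .inr (ih t)
  | seq _ ih => exact .inl (ih t)
  | starL _ ih => exact .inl (ih t)
  | starR _ ih => exact .inr (.inl (ih t))

lemma G.gstep {g : Tm B} {a o} (s : Step g a o) {j c : ZMod P} (h : G (sub σ g) j c) :
    ∃ l, G (σ a) j l ∧ (Ter (σ a) → OG (o.map (sub σ)) l c) := by
  induction s generalizing c with
  | atom => exact ⟨c, h, fun _ => rfl⟩
  | altL _ ih => exact ih h.1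
  | altR _ ih => exact ih h.2
  | @seq p q a o s ih =>
    obtain ⟨e, h1, h2⟩ := h
    obtain ⟨l, h3, h4⟩ := ih h1
    refine ⟨l, h3, fun t => ?_⟩
    have := (h4 t).cont (h2 (h1.ter (let ⟨b, m⟩ := t.hm; ⟨b, (mv_sub σ).2 ⟨a, ⟨_, s⟩, m⟩⟩)))
    cases o <;> exact this
  | @starL p q a o s ih =>
    obtain ⟨l, h3, h4⟩ := ih h.1
    refine ⟨l, h3, fun t => ?_⟩
    have := (h4 t).cont ⟨(h.2.2 (h.1.ter
      (let ⟨b, m⟩ := t.hm; ⟨b, (mv_sub σ).2 ⟨a, ⟨_, s⟩, m⟩⟩))).1, h⟩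
    cases o <;> exact this
  | starR _ ih => exact ih h.2.1

def TX (r : Tm (A ⊕ ℕ)) : Prop := Mv X r ∧ ∀ b o, Step r b o → b = X ∧ o = none

lemma TX.ter {r : Tm (A ⊕ ℕ)} (h : TX r) : Ter r :=
  let ⟨_, s⟩ := h.1; ter_of_step s fun _ e => by simp [(h.2 _ _ s).2] at e

lemma TX.val {r : Tm (A ⊕ ℕ)} (h : TX r) {j l : ZMod P} (g : G r j l) : l = j + 1 := by
  obtain ⟨o, s⟩ := h.1
  obtain ⟨-, rfl⟩ := h.2 _ _ s
  exact (g.step s).2

lemma G.const {r : Tm (A ⊕ ℕ)} {j l j' l' : ZMod P} (g : G r j l) (g' : G r j' l') (m : Mv X r)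
    (h : ¬ TX r) : l = l' := by
  have hy : ∀ {r : Tm (A ⊕ ℕ)} {j j' : ZMod P}, G r j l → G r j' l' → Mv Y r → l = l' := by
    rintro r j j' g g' ⟨o, s⟩
    have h1 := (g.step s).2
    have h2 := (g'.step s).2
    cases o with
    | none => exact h1.trans h2.symm
    | some r' => exact h1.1.uniq h2.1 (h1.1.ter ⟨_, h1.2.1⟩)
  simp only [TX, m, true_and, not_forall] at h
  obtain ⟨b, o, s, h⟩ := h
  cases o with
  | none =>
    obtain rfl : b = Y := (g.step s).1.resolve_left fun e => h ⟨e, rfl⟩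
    exact hy g g' ⟨_, s⟩
  | some r' => exact hy (g.step s).2.1 (g'.step s).2.1 (g.step s).2.2.2

def XS (h' h : Tm B) : Prop := ∃ a, Step h a (some h') ∧ TX (σ a)

def Closed (R : Tm B → ZMod P → Prop) : Prop := ∀ h j, R h j → Full (sub σ h) ∧ Acc (XS σ) h ∧
  ∀ a o, Step h a o → ∃ l, G (σ a) j l ∧ (Ter (σ a) → ∃ h', o = some h' ∧ R h' l)

def STrap (P : ℕ) (g : Tm B) : Prop := ∃ R : Tm B → ZMod P → Prop, Closed σ R ∧ ∃ i, R g i

lemma Closed.fu (hP : (1 : ZMod P) ≠ 0) {R : Tm B → ZMod P → Prop} (hR : Closed σ R) {h1 j1}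
    (r1 : R h1 j1) : ∀ {h2 j2}, R h2 j2 → Bis h1 h2 → j1 = j2 := by
  have ac := (hR _ _ r1).2.1
  induction ac generalizing j1 with
  | intro h1 _ ih =>
    intro h2 j2 r2 b
    obtain ⟨a, ⟨o, s⟩, m⟩ := (mv_sub σ).1 (hR _ _ r1).1.1
    obtain ⟨o', s', rl⟩ := b.step s
    obtain ⟨l1, g1, t1⟩ := (hR _ _ r1).2.2 _ _ s
    obtain ⟨l2, g2, t2⟩ := (hR _ _ r2).2.2 _ _ s'
    by_cases tx : TX (σ a)
    · obtain ⟨h1', rfl, r1'⟩ := t1 tx.ter
      obtain ⟨h2', rfl, r2'⟩ := t2 tx.ter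
      cases rl with
      | some rl =>
        have := ih _ ⟨a, s, tx⟩ r1' r2' rl
        rw [tx.val g1, tx.val g2] at this
        exact add_right_cancel this
    · obtain rfl := g1.const g2 m tx
      exact g1.entry hP g2 (.refl _) m

theorem STrap.tr (hP : (1 : ZMod P) ≠ 0) {g g' : Tm B} (h : STrap σ P g) (b : Bis g g') :
    Tr P (sub σ g') := by
  classical
  obtain ⟨R, hR, i, ri⟩ := h
  let Q : Tm B → ZMod P → Prop := fun g' j => ∃ g, Bis g g' ∧ R g j
  let f : Tm B → ZMod P := fun g' => if h : ∃ j, Q g' j then h.choose else 0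
  have hf : ∀ g' j, Q g' j → f g' = j := by
    rintro g' j h
    have h' : ∃ j, Q g' j := ⟨j, h⟩
    obtain ⟨g1, b1, h1⟩ := h'.choose_spec
    obtain ⟨g2, b2, h2⟩ := h
    simp only [f, dif_pos h']
    exact hR.fu σ hP h1 h2 (b1.trans b2.symm)
  have cl : ∀ c g g' j, Bis g g' → R g j → Cl σ {g' | ∃ j, Q g' j} f c g' j := by
    intro c g g' j b h
    constructor
    · intro a g1' s
      obtain ⟨o, s1, r⟩ := b.symm.step s
      obtain ⟨l, g1, t1⟩ := (hR _ _ h).2.2 _ _ s1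
      by_cases t : Ter (σ a)
      · obtain ⟨h', rfl, r'⟩ := t1 t
        cases r with
        | some r =>
          have q : Q g1' l := ⟨_, r.symm, r'⟩
          exact ⟨hf _ _ q ▸ g1, fun _ => ⟨_, q⟩⟩
      · exact ⟨g1.irr t _, fun t' => (t t').elim⟩
    · intro a s
      obtain ⟨o, s1, r⟩ := b.symm.step s
      obtain ⟨l, g1, t1⟩ := (hR _ _ h).2.2 _ _ s1
      cases r with
      | none => exact g1.irr (fun t => by simpa using t1 t) _
  have := fun c => sem σ hP g' _ f i c (cl c _ _ _ b ri) (by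
    rintro g' ⟨j, h⟩
    rw [hf _ _ h]
    obtain ⟨g, b, h⟩ := h
    exact ⟨b.full_sub σ (hR _ _ h).1, cl _ _ _ _ b h⟩)
  by_contra hn
  have h0 := (this 0).resolve_left hn
  exact hP (((this 1).resolve_left hn).uniq h0 (h0.ter ⟨_, (b.full_sub σ (hR _ _ ri).1).1⟩))

lemma STrap.seq {g : Tm B} (h : STrap σ P g) (k : Tm B) : STrap σ P (seq g k) := by
  obtain ⟨R, hR, i, ri⟩ := h
  refine ⟨fun q j => ∃ h, q = Tm.seq h k ∧ R h j, ?_, i, g, rfl, ri⟩
  rintro _ j ⟨h, rfl, r⟩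
  refine ⟨full_seq.2 (hR _ _ r).1, ?_, fun a o s => ?_⟩
  · have ac := (hR _ _ r).2.1
    induction ac generalizing j with
    | intro h _ ih =>
      refine ⟨_, ?_⟩
      rintro q ⟨a, s, tx⟩
      obtain ⟨o, s1, e⟩ := step_seq.1 s
      cases e
      obtain ⟨l, -, t1⟩ := (hR _ _ r).2.2 _ _ s1
      obtain ⟨h', rfl, r'⟩ := t1 tx.ter
      exact ih _ ⟨a, s1, tx⟩ _ r'
  · obtain ⟨o, s1, rfl⟩ := step_seq.1 s
    obtain ⟨l, g1, t1⟩ := (hR _ _ r).2.2 _ _ s1
    refine ⟨l, g1, fun t => ?_⟩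
    obtain ⟨h', rfl, r'⟩ := t1 t
    exact ⟨_, rfl, h', rfl, r'⟩

inductive Sm (P : ℕ) : Tm B → Prop
  | now {t a o} : Step t a o → Tr P (σ a) → Sm P t
  | trap {t a g} : Step t a (some g) → Ter (σ a) → STrap σ P g → Sm P t
  | step {t a g} : Step t a (some g) → Ter (σ a) → Sm P g → Sm P t

lemma Sm.mono {g k : Tm B} (h : Sm σ P g) (h' : ∀ a o, Step g a o → Step k a o) : Sm σ P k := by
  cases h with
  | now s t => exact .now (h' _ _ s) t
  | trap s t h => exact .trap (h' _ _ s) t h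
  | step s t h => exact .step (h' _ _ s) t h

lemma Sm.seq {g : Tm B} (h : Sm σ P g) (k : Tm B) : Sm σ P (seq g k) := by
  induction h with
  | now s t => exact .now (.seq s) t
  | trap s t h => exact .trap (.seq s) t (h.seq σ k)
  | step s t _ ih => exact .step (.seq s) t ih

lemma GT.sm {g k : Tm B} (h : GT σ g) (h' : Sm σ P k) : Sm σ P (Tm.seq g k) := by
  induction h with
  | base s t => exact .step (.seq s) t h'
  | step s t _ ih => exact .step (.seq s) t ih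

lemma STrap.sm {g : Tm B} (h : STrap σ P g) : Sm σ P g := by
  obtain ⟨R, hR, i, ri⟩ := h
  obtain ⟨a, ⟨o, s⟩, m⟩ := (mv_sub σ).1 (hR _ _ ri).1.1
  obtain ⟨l, g1, t1⟩ := (hR _ _ ri).2.2 _ _ s
  obtain ⟨h', rfl, r'⟩ := t1 (g1.ter ⟨_, m⟩)
  exact .trap s (g1.ter ⟨_, m⟩) ⟨R, hR, l, r'⟩

theorem Sm.tr (hP : (1 : ZMod P) ≠ 0) {t : Tm B} (h : Sm σ P t) :
    ∀ {u}, Bis t u → Tr P (sub σ u) := by
  induction h with
  | now s t => exact fun b => let ⟨_, s', _⟩ := b.step s; tr_mv σ s' t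
  | trap s t h =>
    intro u b
    obtain ⟨_, s', r⟩ := b.step s
    cases r with
    | some r => exact tr_step σ s' t _ rfl (h.tr σ hP r)
  | step s t _ ih =>
    intro u b
    obtain ⟨_, s', r⟩ := b.step s
    cases r with
    | some r => exact tr_step σ s' t _ rfl (ih r)

structure Hyp (P : ℕ) (Hy : Tm B → Prop) : Prop where
  alt : ∀ p q, Hy (alt p q) → Hy p ∧ Hy q
  seq : ∀ p q, Hy (seq p q) → Hy p ∧ Hy q
  star : ∀ p q, Hy (star p q) → Hy p ∧ Hy q
  step : ∀ p a q, Hy p → Step p a (some q) → Hy q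
  acc : ∀ p q (i : ZMod P), Hy (Tm.star p q) → ¬ HM (sub σ q) → Full (sub σ p) →
    G (sub σ p) i i → Acc (XS σ) (Tm.star p q) ∧ ∀ r (j : ZMod P), Hy r → G (sub σ r) j i →
      Full (sub σ r) → Acc (XS σ) (Tm.seq r (Tm.star p q))

theorem Hyp.sm {Hy : Tm B → Prop} (H : Hyp σ P Hy) (t : Tm B) :
    Hy t → Tr P (sub σ t) → Sm σ P t := by
  induction t with
  | atom a => exact fun _ h => .now (.atom a) h
  | dead => exact fun _ h => h.elim
  | alt p q ih ih' =>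
    exact fun hy h => h.elim (fun h => (ih (H.alt _ _ hy).1 h).mono σ fun _ _ => .altL)
      fun h => (ih' (H.alt _ _ hy).2 h).mono σ fun _ _ => .altR
  | seq p q ih ih' =>
    exact fun hy h => h.elim (fun h => (ih (H.seq _ _ hy).1 h).seq σ q)
      fun h => (gt_of_ter σ h.1).sm σ (ih' (H.seq _ _ hy).2 h.2)
  | star p q ih ih' =>
    rintro hy (h | h | ⟨h1, h2, i, h3⟩)
    · exact ((ih (H.star _ _ hy).1 h).seq σ _).mono σ fun _ _ s => step_star.2 (.inl s)
    · exact (ih' (H.star _ _ hy).2 h).mono σ fun _ _ => .starR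
    obtain ⟨a1, a2⟩ := H.acc p q i hy h1 h2 h3
    refine STrap.sm σ ⟨fun g j => (g = Tm.star p q ∧ j = i) ∨ ∃ r, g = Tm.seq r (Tm.star p q) ∧
      Hy r ∧ G (sub σ r) j i ∧ Full (sub σ r), ?_, i, .inl ⟨rfl, rfl⟩⟩
    have key : ∀ r j, Hy r → G (sub σ r) j i → ∀ a o, Step (Tm.seq r (Tm.star p q)) a o →
        ∃ l, G (σ a) j l ∧ (Ter (σ a) → ∃ h', o = some h' ∧ ((h' = Tm.star p q ∧ l = i) ∨
          ∃ r, h' = Tm.seq r (Tm.star p q) ∧ Hy r ∧ G (sub σ r) l i ∧ Full (sub σ r))) := by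
      intro r j hr g a o s
      obtain ⟨o, s1, rfl⟩ := step_seq.1 s
      obtain ⟨l, g1, t1⟩ := g.gstep σ s1
      refine ⟨l, g1, fun t => ⟨_, rfl, ?_⟩⟩
      cases o with
      | none => exact .inl ⟨rfl, (t1 t).symm⟩
      | some r' => exact .inr ⟨r', rfl, H.step _ _ _ hr s1, t1 t⟩
    rintro g j (⟨rfl, rfl⟩ | ⟨r, rfl, hr, g, fu⟩)
    · refine ⟨⟨mv_star.2 (.inl h2.1), mv_star.2 (.inl h2.2)⟩, a1, fun a o s => ?_⟩
      rcases step_star.1 s with s | s
      · exact key _ _ (H.star _ _ hy).1 h3 _ _ s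
      · have : ¬ HM (σ a) := fun ⟨b, m⟩ => h1 ⟨b, (mv_sub σ).2 ⟨a, ⟨_, s⟩, m⟩⟩
        exact ⟨j, .of_no this _ _, fun t => (this t.hm).elim⟩
    · exact ⟨full_seq.2 fu, a2 r j hr g fu, key _ _ hr g⟩

end Tm
end LeadBpa
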