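import Mathlib
import Pool.Agent.Lib.lead.Bpa4

set_option autoImplicit false

namespace LeadBpa
namespace Tm
variable {A B : Type} {P : ℕ}

def len : Tm B → ℕ
  | atom _ => 1
  | dead => 0
  | alt p q => len p + len q
  | seq p q => len p + len q
  | star p q => len p + len q

def Small (P : ℕ) : Tm B → Prop
  | atom _ => True
  | dead => True
  | alt p q => Small P p ∧ Small P q
  | seq p q => Small P p ∧ Small P q
  | star p q => len p < P ∧ Small P p ∧ Small P q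

lemma small_of {t : Tm B} (h : len t < P) : Small P t := by
  induction t with
  | atom => trivial
  | dead => trivial
  | alt p q ih ih' => simp only [len] at h; exact ⟨ih (by omega), ih' (by omega)⟩
  | seq p q ih ih' => simp only [len] at h; exact ⟨ih (by omega), ih' (by omega)⟩
  | star p q ih ih' => simp only [len] at h; exact ⟨by omega, ih (by omega), ih' (by omega)⟩

lemma Small.step {p : Tm B} {a o} (s : Step p a o) (h : Small P p) :
    ∀ q, o = some q → Small P q := by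
  induction s with
  | atom => nofun
  | altL _ ih => exact ih h.1
  | altR _ ih => exact ih h.2
  | @seq p q a o _ ih =>
    rintro _ ⟨⟩
    cases o with
    | none => exact h.2
    | some r => exact ⟨ih h.1 _ rfl, h.2⟩
  | @starL p q a o _ ih =>
    rintro _ ⟨⟩
    cases o with
    | none => exact h
    | some r => exact ⟨ih h.2.1 _ rfl, h⟩
  | starR _ ih => exact ih h.2.2

variable (σ : B → Tm (A ⊕ ℕ))

inductive XT : Tm B → ℕ → Prop
  | base {g a} : Step g a none → TX (σ a) → XT g 1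
  | step {g a g' n} : Step g a (some g') → TX (σ a) → XT g' n → XT g (n + 1)

lemma XT.gt {g : Tm B} {n} (h : XT σ g n) : GT σ g := by
  induction h with
  | base s t => exact .base s t.ter
  | step s t _ ih => exact .step s t.ter ih

lemma GT.ter {g : Tm B} (h : GT σ g) : Ter (sub σ g) := by
  induction h with
  | base s t => exact ter_sub σ s t nofun
  | step s t _ ih => exact ter_sub σ s t fun _ e => Option.some.inj e ▸ ih

lemma XT.pos {g : Tm B} {n} (h : XT σ g n) : 1 ≤ n := by cases h <;> omega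

lemma XT.val {g : Tm B} {n} (h : XT σ g n) : ∀ {j c : ZMod P}, G (sub σ g) j c → c = j + n := by
  induction h with
  | base s t =>
    intro j c g
    obtain ⟨l, g1, t1⟩ := g.gstep σ s
    rw [Nat.cast_one, ← t.val g1]
    exact t1 t.ter
  | step s t _ ih =>
    intro j c g
    obtain ⟨l, g1, t1⟩ := g.gstep σ s
    rw [ih (t1 t.ter).1, t.val g1]
    push_cast; ring

lemma XT.cases {g p q : Tm B} {n} (h : XT σ g n) (h' : ∀ a o, Step g a o → Step p a o ∨ Step q a o) :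
    XT σ p n ∨ XT σ q n := by
  cases h with
  | base s t => exact (h' _ _ s).imp (fun s => .base s t) fun s => .base s t
  | step s t h => exact (h' _ _ s).imp (fun s => .step s t h) fun s => .step s t h

lemma XT.of_seq {g : Tm B} {n} (h : XT σ g n) {k} : ∀ s, g = Tm.seq s k →
    ∃ n1 n2, XT σ s n1 ∧ XT σ k n2 ∧ n = n1 + n2 := by
  induction h with
  | base s t => rintro _ rfl; cases s
  | step s t h ih =>
    rintro r rfl
    obtain ⟨o, s1, e⟩ := step_seq.1 s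
    cases e
    cases o with
    | none => exact ⟨1, _, .base s1 t, h, add_comm _ _⟩
    | some r' =>
      obtain ⟨n1, n2, h1, h2, rfl⟩ := ih _ rfl
      exact ⟨n1 + 1, n2, .step s1 t h1, h2, by omega⟩

lemma acc_seq {s k : Tm B} (h : Acc (XS σ) s) (h' : ∀ n, XT σ s n → Acc (XS σ) k) :
    Acc (XS σ) (seq s k) := by
  induction h with
  | intro s _ ih =>
    refine ⟨_, ?_⟩
    rintro q ⟨a, s0, tx⟩
    obtain ⟨o, s1, e⟩ := step_seq.1 s0
    cases e
    cases o with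
    | none => exact h' _ (.base s1 tx)
    | some r => exact ih r ⟨a, s1, tx⟩ fun n h => h' _ (.step s1 tx h)

lemma acc_of {g p q : Tm B} (hp : Acc (XS σ) p) (hq : Acc (XS σ) q)
    (h' : ∀ a o, Step g a o → Step p a o ∨ Step q a o) : Acc (XS σ) g :=
  ⟨_, fun _ ⟨a, s, tx⟩ => (h' _ _ s).elim (fun s => hp.inv ⟨a, s, tx⟩) fun s => hq.inv ⟨a, s, tx⟩⟩

lemma no_loop {p : Tm B} {i : ZMod P} (hl : len p < P) (g : G (sub σ p) i i)
    (h : ∀ n, XT σ p n → n ≤ len p) (n : ℕ) (x : XT σ p n) : False := by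
  have h1 := x.val σ g
  rw [left_eq_add, ZMod.natCast_eq_zero_iff] at h1
  have := Nat.le_of_dvd (x.pos σ) h1
  have := h n x
  omega

lemma small_acc (r : Tm B) : ∀ {j c : ZMod P}, Small P r → G (sub σ r) j c →
    (∀ n, XT σ r n → n ≤ len r) ∧ Acc (XS σ) r := by
  induction r with
  | atom a =>
    refine fun _ _ => ⟨fun n h => ?_, ⟨_, fun _ ⟨_, s, _⟩ => by cases s⟩⟩
    cases h with
    | base => exact le_rfl
    | step s => cases s
  | dead =>
    refine fun _ _ => ⟨fun n h => ?_, ⟨_, fun _ ⟨_, s, _⟩ => by cases s⟩⟩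
    cases h with
    | base s => cases s
    | step s => cases s
  | alt p q ih ih' =>
    intro j c h g
    obtain ⟨a1, a2⟩ := ih h.1 g.1
    obtain ⟨b1, b2⟩ := ih' h.2 g.2
    refine ⟨fun n x => ?_, acc_of σ a2 b2 fun _ _ => step_alt.1⟩
    rcases x.cases σ fun _ _ => step_alt.1 with x | x
    · exact (a1 _ x).trans (Nat.le_add_right _ _)
    · exact (b1 _ x).trans (Nat.le_add_left _ _)
  | seq p q ih ih' =>
    rintro j c h ⟨e, g1, g2⟩
    obtain ⟨a1, a2⟩ := ih h.1 g1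
    have b := fun n (x : XT σ p n) => ih' h.2 (g2 ((x.gt σ).ter σ)).2
    refine ⟨fun n x => ?_, acc_seq σ a2 fun n x => (b n x).2⟩
    obtain ⟨n1, n2, x1, x2, rfl⟩ := x.of_seq σ _ rfl
    exact Nat.add_le_add (a1 _ x1) ((b _ x1).1 _ x2)
  | star p q ih ih' =>
    intro j c h g
    obtain ⟨a1, a2⟩ := ih h.2.1 g.1
    obtain ⟨b1, b2⟩ := ih' h.2.2 g.2.1
    have nl := no_loop σ h.1 g.1 a1
    refine ⟨fun n x => ?_, acc_of σ (acc_seq σ a2 fun n x => (nl n x).elim) b2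
      fun _ _ => step_star.1⟩
    rcases x.cases σ fun _ _ => step_star.1 with x | x
    · obtain ⟨n1, n2, x1, -⟩ := x.of_seq σ _ rfl
      exact (nl _ x1).elim
    · exact (b1 _ x).trans (Nat.le_add_left _ _)

theorem hyp_small : Hyp σ P (Small P) where
  alt _ _ h := h
  seq _ _ h := h
  star _ _ h := h.2
  step _ _ _ h s := h.step s _ rfl
  acc p q i h h1 _ g := by
    obtain ⟨a1, a2⟩ := small_acc σ p h.2.1 g
    have : Acc (XS σ) (star p q) :=
      acc_of σ (acc_seq σ a2 fun n x => (no_loop σ h.1 g a1 n x).elim)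
        (small_acc σ q h.2.2 (.of_no h1 i i)).2 fun _ _ => step_star.1
    exact ⟨this, fun r j hr g _ => acc_seq σ (small_acc σ r hr g).2 fun _ _ => this⟩

lemma occ_step {p : Tm B} {a o} (s : Step p a o) :
    Occ a p ∧ ∀ q, o = some q → ∀ b, Occ b q → Occ b p := by
  induction s with
  | atom => exact ⟨rfl, nofun⟩
  | altL _ ih => exact ⟨.inl ih.1, fun q e b h => .inl (ih.2 q e b h)⟩
  | altR _ ih => exact ⟨.inr ih.1, fun q e b h => .inr (ih.2 q e b h)⟩
  | @seq p q a o _ ih =>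
    refine ⟨.inl ih.1, ?_⟩
    rintro _ ⟨⟩ b h
    cases o with
    | none => exact .inr h
    | some r => exact h.imp_left (ih.2 _ rfl b)
  | @starL p q a o _ ih =>
    refine ⟨.inl ih.1, ?_⟩
    rintro _ ⟨⟩ b h
    cases o with
    | none => exact h
    | some r => exact h.elim (fun h => .inl (ih.2 _ rfl b h)) id
  | starR _ ih => exact ⟨.inr ih.1, fun q e b h => .inr (ih.2 q e b h)⟩

def One (z : ℕ) (t : Tm (A ⊕ ℕ)) : Prop := ∀ v, Occ (.inr v) t → v = z

theorem hyp_one (τ : ℕ → Tm (A ⊕ ℕ)) (z : ℕ) :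
    Hyp (Sum.elim (fun a => atom (.inl a)) τ) P (One z) := by
  have key : ∀ q, One z q → Full (sub (Sum.elim (fun a => atom (.inl a)) τ) q) →
      Acc (XS (Sum.elim (fun a => atom (.inl a)) τ)) q := by
    intro q h f
    refine ⟨_, ?_⟩
    rintro q' ⟨a, s, tx⟩
    obtain ⟨b, ⟨o, s'⟩, o', m⟩ := (mv_sub _).1 f.2
    rcases b with b | v
    · cases m
    rcases a with a | w
    · obtain ⟨_, m⟩ := tx.1
      cases m
    obtain rfl := (h _ (occ_step s).1).trans (h _ (occ_step s').1).symm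
    cases (tx.2 _ _ m).1
  refine ⟨fun _ _ h => ⟨fun v o => h v (.inl o), fun v o => h v (.inr o)⟩,
    fun _ _ h => ⟨fun v o => h v (.inl o), fun v o => h v (.inr o)⟩,
    fun _ _ h => ⟨fun v o => h v (.inl o), fun v o => h v (.inr o)⟩,
    fun _ _ _ h s v o => h v ((occ_step s).2 _ rfl _ o), fun p q i h _ f _ =>
      ⟨key _ h ⟨mv_star.2 (.inl f.1), mv_star.2 (.inl f.2)⟩, fun r j hr _ f =>
        key _ (fun v o => o.elim (hr v) (h v)) (full_seq.2 f)⟩⟩

theorem invariant (hP : (1 : ZMod P) ≠ 0) {E : Set (Tm (A ⊕ ℕ) × Tm (A ⊕ ℕ))}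
    (hE : ∀ e ∈ E, Bis e.1 e.2 ∧
      ((Small P e.1 ∧ Small P e.2) ∨ ∃ z, One z e.1 ∧ One z e.2)) {t u} (h : Der E t u) :
    Bis t u ∧ (Tr P t ↔ Tr P u) := by
  have st : ∀ {p q p' q' : Tm (A ⊕ ℕ)}, Bis p p' → Bis q q' → (Tr P p → Tr P p') →
      (Tr P q → Tr P q') → Tr P (star p q) → Tr P (star p' q') := by
    rintro p q p' q' b b' h h' (t | t | ⟨h1, h2, i, h3⟩)
    · exact .inl (h t)
    · exact .inr (.inl (h' t))
    · rcases h3.bis hP b with h4 | h4
      · exact .inl h4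
      · exact .inr (.inr ⟨fun ⟨a, m⟩ => h1 ⟨a, b'.symm.mv m⟩, ⟨b.mv h2.1, b.mv h2.2⟩, i, h4⟩)
  induction h with
  | @ax t u σ h =>
    obtain ⟨b, ⟨h1, h2⟩ | ⟨z, h1, h2⟩⟩ := hE _ h
    · exact ⟨b.sub _, fun h => ((hyp_small _).sm _ t h1 h).tr _ hP b,
        fun h => ((hyp_small _).sm _ u h2 h).tr _ hP b.symm⟩
    · exact ⟨b.sub _, fun h => ((hyp_one σ z).sm _ t h1 h).tr _ hP b,
        fun h => ((hyp_one σ z).sm _ u h2 h).tr _ hP b.symm⟩
  | refl => exact ⟨.refl _, Iff.rfl⟩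
  | symm _ ih => exact ⟨ih.1.symm, ih.2.symm⟩
  | trans _ _ ih ih' => exact ⟨ih.1.trans ih'.1, ih.2.trans ih'.2⟩
  | alt _ _ ih ih' => exact ⟨ih.1.alt ih'.1, or_congr ih.2 ih'.2⟩
  | seq _ _ ih ih' => exact ⟨ih.1.seq ih'.1, or_congr ih.2 (and_congr ih.1.ter ih'.2)⟩
  | star _ _ ih ih' =>
    exact ⟨ih.1.star ih'.1, st ih.1 ih'.1 ih.2.1 ih'.2.1, st ih.1.symm ih'.1.symm ih.2.2 ih'.2.2⟩

def TT : ℕ → Tm (A ⊕ ℕ)
  | 0 => alt (atom X) (atom Y)
  | n + 1 => alt (seq (atom X) (TT n)) (atom Y)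

lemma full_TT (n : ℕ) : Full (TT n : Tm (A ⊕ ℕ)) := by
  cases n
  · exact ⟨⟨_, .altL (.atom _)⟩, _, .altR (.atom _)⟩
  · exact ⟨⟨_, .altL (.seq (.atom _))⟩, _, .altR (.atom _)⟩

lemma g_TT (n : ℕ) : G (TT n : Tm (A ⊕ ℕ)) (-(n + 1) : ZMod P) 0 := by
  induction n with
  | zero => exact ⟨⟨.inl rfl, by simp [act]⟩, .inr rfl, rfl⟩
  | succ n ih =>
    refine ⟨⟨_, ⟨.inl rfl, ?_⟩, fun _ => ⟨full_TT n, ih⟩⟩, .inr rfl, rfl⟩
    simp [act]

lemma step_TT {n a o} (s : Step (TT n : Tm (A ⊕ ℕ)) a o) :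
    (a = X ∨ a = Y) ∧ (o = none ∨ ∃ k, o = some (TT k)) := by
  cases n with
  | zero => rcases step_alt.1 s with s | s <;> cases s <;> simp
  | succ n =>
    rcases step_alt.1 s with s | s
    · obtain ⟨_, s1, rfl⟩ := step_seq.1 s
      obtain ⟨rfl, rfl⟩ := step_atom.1 s1
      exact ⟨.inl rfl, .inr ⟨n, rfl⟩⟩
    · cases s; simp

lemma bis_TT (n : ℕ) : Bis (star (TT n) dead : Tm (A ⊕ ℕ)) (star (TT 0) dead) := by
  let U : Tm (A ⊕ ℕ) → Prop := fun p => ∃ n, p = star (TT n) dead ∨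
    ∃ k, p = seq (TT k) (star (TT n) dead)
  have h1 : ∀ p, U p → ∀ a o, Step p a o → (a = X ∨ a = Y) ∧ ∃ q, o = some q ∧ U q := by
    have : ∀ k n a o, Step (seq (TT k) (star (TT n) dead)) a o →
        (a = X ∨ a = Y) ∧ ∃ q, o = some q ∧ U q := by
      intro k n a o s
      obtain ⟨o, s1, rfl⟩ := step_seq.1 s
      obtain ⟨h, rfl | ⟨k, rfl⟩⟩ := step_TT s1
      · exact ⟨h, _, rfl, n, .inl rfl⟩
      · exact ⟨h, _, rfl, n, .inr ⟨k, rfl⟩⟩
    rintro p ⟨n, rfl | ⟨k, rfl⟩⟩ a o s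
    · exact this _ _ _ _ ((step_star.1 s).resolve_right step_dead)
    · exact this _ _ _ _ s
  have h2 : ∀ p, U p → Full p := by
    rintro p ⟨n, rfl | ⟨k, rfl⟩⟩
    · exact ⟨mv_star.2 (.inl (full_TT n).1), mv_star.2 (.inl (full_TT n).2)⟩
    · exact full_seq.2 (full_TT k)
  refine ⟨fun p q => U p ∧ U q, ⟨fun _ _ => And.symm, ?_⟩, ⟨n, .inl rfl⟩, 0, .inl rfl⟩
  rintro p q ⟨hp, hq⟩ a o s
  obtain ⟨ha, p', rfl, hp'⟩ := h1 p hp a o s
  obtain ⟨o', s'⟩ : Mv a q := by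
    rcases ha with rfl | rfl
    · exact (h2 q hq).1
    · exact (h2 q hq).2
  obtain ⟨-, q', rfl, hq'⟩ := h1 q hq a o' s'
  exact ⟨_, s', .some ⟨hp', hq'⟩⟩

theorem main [Nonempty A] (E : Set (Tm (A ⊕ ℕ) × Tm (A ⊕ ℕ)))
    (hE : ∀ t u, Der E t u ↔ Valid t u) :
    {e ∈ E | ∃ v w : ℕ, v ≠ w ∧ (Occ (.inr v) e.1 ∨ Occ (.inr v) e.2) ∧
      (Occ (.inr w) e.1 ∨ Occ (.inr w) e.2)}.Infinite := by
  intro hf
  obtain ⟨N, hN⟩ := (hf.image fun e => len e.1 + len e.2).bddAbove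
  have hP : (1 : ZMod (N + 2)) ≠ 0 := by
    have : Fact (1 < N + 2) := ⟨by omega⟩
    exact one_ne_zero
  have := invariant hP (E := E) (fun e he => ⟨?_, ?_⟩)
    ((hE _ _).2 fun σ => (bis_TT (N + 1)).sub _)
  · have h1 : Tr (N + 2) (star (TT (N + 1)) dead : Tm (A ⊕ ℕ)) := by
      refine .inr (.inr ⟨fun ⟨_, _, s⟩ => step_dead s, full_TT _, 0, ?_⟩)
      convert g_TT (N + 1)
      have : ((N + 2 : ℕ) : ZMod (N + 2)) = 0 := ZMod.natCast_self _
      push_cast at this ⊢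
      linear_combination this
    rcases this.2.1 h1 with (h | h) | h | ⟨-, -, i, h, -⟩
    · exact h
    · exact h
    · exact h
    · exact hP (by simpa [act] using h.2)
  · have := Der.ax (E := E) (fun v => atom (.inr v)) he
    have e' : (Sum.elim (fun a => atom (.inl a)) fun v => atom (.inr v) : A ⊕ ℕ → Tm (A ⊕ ℕ)) =
      atom := by funext a; cases a <;> rfl
    rw [e', sub_atom, sub_atom] at this
    exact ((hE _ _).1 this).bis
  · by_cases h : ∃ v w : ℕ, v ≠ w ∧ (Occ (.inr v) e.1 ∨ Occ (.inr v) e.2) ∧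
      (Occ (.inr w) e.1 ∨ Occ (.inr w) e.2)
    · have : len e.1 + len e.2 ≤ N := hN ⟨e, ⟨he, h⟩, rfl⟩
      exact .inl ⟨small_of (by omega), small_of (by omega)⟩
    · right
      by_cases h' : ∃ z, Occ (.inr z) e.1 ∨ Occ (.inr z) e.2
      · obtain ⟨z, hz⟩ := h'
        exact ⟨z, fun v o => by_contra fun n => h ⟨v, z, n, .inl o, hz⟩,
          fun v o => by_contra fun n => h ⟨v, z, n, .inr o, hz⟩⟩
      · exact ⟨0, fun v o => (h' ⟨v, .inl o⟩).elim, fun v o => (h' ⟨v, .inr o⟩).elim⟩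

end Tm
end LeadBpa
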