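import Mathlib

set_option autoImplicit false

namespace Pool.Agent.Lib.LeadCaval

open MeasureTheory Set
open scoped Pointwise

abbrev E3 := EuclideanSpace ℝ (Fin 3)

def seg {V : Type*} [AddCommGroup V] [Module ℝ V] (v : V) (α β : ℝ) : Set V :=
  (fun r : ℝ => r • v) '' Icc α β

lemma seg_compact {V : Type*} [NormedAddCommGroup V] [NormedSpace ℝ V] (v : V) (α β : ℝ) :
    IsCompact (seg v α β) := isCompact_Icc.image (by fun_prop)

lemma seg_convex {V : Type*} [AddCommGroup V] [Module ℝ V] (v : V) (α β : ℝ) :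
    Convex ℝ (seg v α β) := (convex_Icc α β).linear_image (LinearMap.toSpanSingleton ℝ V v)

lemma prod_ext (D : Set (ℝ × ℝ × ℝ)) (hc : IsCompact D) (hv : Convex ℝ D) (α β : ℝ) (h : α ≤ β) :
    volume (D + seg ((1 : ℝ), ((0 : ℝ), (0 : ℝ))) α β) =
      volume D + ENNReal.ofReal (β - α) * volume (Prod.snd '' D) := by
  have m1 := hc.measurableSet
  have m2 := (hc.add (seg_compact ((1 : ℝ), ((0 : ℝ), (0 : ℝ))) α β)).measurableSet
  have m3 := (hc.image continuous_snd).measurableSet
  rw [Measure.volume_eq_prod, Measure.prod_apply_symm m1, Measure.prod_apply_symm m2,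
    ← lintegral_indicator_const m3, ← lintegral_add_right _ (measurable_const.indicator m3)]
  refine lintegral_congr fun y => ?_
  have key : ∀ x : ℝ, (x, y) ∈ D + seg ((1 : ℝ), ((0 : ℝ), (0 : ℝ))) α β ↔
      ∃ r ∈ Icc α β, (x - r, y) ∈ D := by
    intro x
    constructor
    · rintro ⟨⟨p, q⟩, hp, _, ⟨r, hr, rfl⟩, e⟩
      simp only [Prod.smul_mk, smul_eq_mul, mul_one, mul_zero, Prod.mk_add_mk, Prod.mk.injEq] at e
      obtain ⟨e1, e2⟩ := e
      have e3 : q = y := by rw [← e2]; exact (add_zero q).symm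
      exact ⟨r, hr, by rw [← e1, ← e3, add_sub_cancel_right]; exact hp⟩
    · rintro ⟨r, hr, hp⟩
      refine ⟨_, hp, _, ⟨r, hr, rfl⟩, ?_⟩
      ext <;> simp
  by_cases hy : y ∈ Prod.snd '' D
  · rw [indicator_of_mem hy]
    set S := (fun x : ℝ => (x, y)) ⁻¹' D with hS
    have hne : S.Nonempty := by
      obtain ⟨⟨p, q⟩, hp, rfl⟩ := hy
      exact ⟨p, hp⟩
    have hSc : IsCompact S := by
      refine (hc.image continuous_fst).of_isClosed_subset (hc.isClosed.preimage (by fun_prop)) ?_
      intro x hx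
      exact ⟨_, hx, rfl⟩
    have hSv : Convex ℝ S := by
      intro x hx z hz a b ha hb hab
      have := hv hx hz ha hb hab
      simp only [Prod.smul_mk, Prod.mk_add_mk, ← add_smul, hab, one_smul] at this
      exact this
    have e := eq_Icc_of_connected_compact ⟨hne, hSv.isPreconnected⟩ hSc
    generalize sInf S = a at e
    generalize sSup S = c at e
    have hac : a ≤ c := by rw [e] at hne; exact nonempty_Icc.1 hne
    have e2 : (fun x : ℝ => (x, y)) ⁻¹' (D + seg ((1 : ℝ), ((0 : ℝ), (0 : ℝ))) α β) =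
        Icc (a + α) (c + β) := by
      ext x
      rw [mem_preimage, key]
      constructor
      · rintro ⟨r, hr, hp⟩
        have : x - r ∈ S := hp
        rw [e] at this
        exact ⟨by linarith [this.1, hr.1], by linarith [this.2, hr.2]⟩
      · rintro ⟨h1, h2⟩
        refine ⟨max α (x - c), ⟨le_max_left _ _, max_le h (by linarith)⟩, ?_⟩
        have : x - max α (x - c) ∈ S := by
          rw [e]
          constructor
          · have := max_le (show α ≤ x - a by linarith) (show x - c ≤ x - a by linarith)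
            linarith
          · have := le_max_right α (x - c)
            linarith
        exact this
    rw [e2, e, Real.volume_Icc, Real.volume_Icc, ← ENNReal.ofReal_add (by linarith) (by linarith)]
    congr 1
    ring
  · rw [indicator_of_notMem hy, add_zero]
    have e1 : (fun x : ℝ => (x, y)) ⁻¹' D = ∅ := eq_empty_of_forall_notMem fun x hx => hy ⟨_, hx, rfl⟩
    have e2 : (fun x : ℝ => (x, y)) ⁻¹' (D + seg ((1 : ℝ), ((0 : ℝ), (0 : ℝ))) α β) = ∅ :=
      eq_empty_of_forall_notMem fun x hx => by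
        obtain ⟨r, -, hp⟩ := (key x).1 hx
        exact hy ⟨_, hp, rfl⟩
    rw [e1, e2]

noncomputable def Phi (b : OrthonormalBasis (Fin 3) ℝ E3) : E3 →L[ℝ] ℝ × ℝ × ℝ :=
  (innerSL ℝ (b 0)).prod ((innerSL ℝ (b 1)).prod (innerSL ℝ (b 2)))

lemma Phi_apply (b : OrthonormalBasis (Fin 3) ℝ E3) (x : E3) :
    Phi b x = (inner ℝ (b 0) x, inner ℝ (b 1) x, inner ℝ (b 2) x) := rfl

lemma Phi_mp (b : OrthonormalBasis (Fin 3) ℝ E3) : MeasurePreserving (Phi b) volume volume := by
  have h1 := b.measurePreserving_repr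
  have h2 := PiLp.volume_preserving_ofLp (Fin 3)
  have h3 := volume_preserving_piFinSuccAbove (fun _ : Fin 3 => ℝ) 0
  have h4 := (MeasurePreserving.id (volume : Measure ℝ)).prod (volume_preserving_finTwoArrow ℝ)
  have h := h4.comp (h3.comp (h2.comp h1))
  have e : (Phi b : E3 → ℝ × ℝ × ℝ) = Prod.map id (@MeasurableEquiv.finTwoArrow ℝ _) ∘
      (MeasurableEquiv.piFinSuccAbove (fun _ : Fin 3 => ℝ) 0) ∘ WithLp.ofLp ∘ b.repr := by
    funext x
    simp [Phi_apply, MeasurableEquiv.finTwoArrow, MeasurableEquiv.piFinSuccAbove,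
      OrthonormalBasis.repr_apply_apply, Fin.tail]
  rw [e]
  exact h

lemma Phi_inj (b : OrthonormalBasis (Fin 3) ℝ E3) : Function.Injective (Phi b) := by
  intro x y h
  simp only [Phi_apply, Prod.mk.injEq] at h
  rw [← b.sum_repr' x, ← b.sum_repr' y]
  simp only [Fin.sum_univ_three, h.1, h.2.1, h.2.2]

lemma vol_image (b : OrthonormalBasis (Fin 3) ℝ E3) (C : Set E3) (hc : IsCompact C) :
    volume (Phi b '' C) = volume C := by
  rw [← (Phi_mp b).measure_preimage (hc.image (Phi b).continuous).measurableSet.nullMeasurableSet,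
    preimage_image_eq _ (Phi_inj b)]

/-- Projection along the first basis vector. -/
noncomputable def pr (b : OrthonormalBasis (Fin 3) ℝ E3) (x : E3) : ℝ × ℝ :=
  (inner ℝ (b 1) x, inner ℝ (b 2) x)

lemma pr_cont (b : OrthonormalBasis (Fin 3) ℝ E3) : Continuous (pr b) := by
  unfold pr
  fun_prop

/-- Cavalieri: adding a segment to a convex compact set. -/
theorem vol_add_seg (b : OrthonormalBasis (Fin 3) ℝ E3) (C : Set E3) (hc : IsCompact C)
    (hv : Convex ℝ C) (α β : ℝ) (h : α ≤ β) :
    (volume (C + seg (b 0) α β)).toReal =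
      (volume C).toReal + (β - α) * (volume (pr b '' C)).toReal := by
  have e1 : Phi b '' seg (b 0) α β = seg ((1 : ℝ), ((0 : ℝ), (0 : ℝ))) α β := by
    unfold seg
    rw [image_image]
    refine image_congr fun r _ => ?_
    rw [map_smul, Phi_apply]
    simp [b.inner_eq_ite]
  have e2 : Prod.snd '' (Phi b '' C) = pr b '' C := by rw [image_image]; rfl
  rw [← vol_image b _ (hc.add (seg_compact _ _ _)), image_add, e1,
    prod_ext _ (hc.image (Phi b).continuous) (hv.linear_image (Phi b : E3 →ₗ[ℝ] ℝ × ℝ × ℝ)) α β h,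
    vol_image b C hc, e2, ENNReal.toReal_add hc.measure_lt_top.ne
      (ENNReal.mul_ne_top ENNReal.ofReal_ne_top (hc.image (pr_cont b)).measure_lt_top.ne),
    ENNReal.toReal_mul, ENNReal.toReal_ofReal (by linarith)]

lemma area_rect (a b c d : ℝ) (h1 : a ≤ b) (h2 : c ≤ d) :
    (volume (Icc a b ×ˢ Icc c d : Set (ℝ × ℝ))).toReal = (b - a) * (d - c) := by
  rw [Measure.volume_eq_prod, Measure.prod_prod, Real.volume_Icc, Real.volume_Icc, ENNReal.toReal_mul,
    ENNReal.toReal_ofReal (by linarith), ENNReal.toReal_ofReal (by linarith)]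

lemma vol_flat (b : OrthonormalBasis (Fin 3) ℝ E3) (C : Set E3) (h : ∀ x ∈ C, inner ℝ (b 0) x = 0) :
    volume C = 0 := by
  have h1 : C ⊆ Phi b ⁻¹' (({0} : Set ℝ) ×ˢ (univ : Set (ℝ × ℝ))) := fun x hx => ⟨h x hx, trivial⟩
  refine measure_mono_null h1 ?_
  rw [(Phi_mp b).measure_preimage
    ((measurableSet_singleton 0).prod MeasurableSet.univ).nullMeasurableSet,
    Measure.volume_eq_prod, Measure.prod_prod]
  simp

end Pool.Agent.Lib.LeadCaval
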