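import Mathlib

set_option autoImplicit false

namespace LeadCfg

/-- Big-step generation for a context-free rule set. -/
inductive Gen {T N : Type} (R : N → List (T ⊕ N) → Prop) : List (T ⊕ N) → List T → Prop
  | nil : Gen R [] []
  | t (a : T) {l w} : Gen R l w → Gen R (.inl a :: l) (a :: w)
  | nt {A rhs l w1 w2} : R A rhs → Gen R rhs w1 → Gen R l w2 → Gen R (.inr A :: l) (w1 ++ w2)

variable {T N : Type} {R : N → List (T ⊕ N) → Prop}

lemma Gen.append {l l' : List (T ⊕ N)} {w w' : List T} (h : Gen R l w) (h' : Gen R l' w') :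
    Gen R (l ++ l') (w ++ w') := by
  induction h with
  | nil => exact h'
  | t a _ ih => exact .t a ih
  | nt r g1 _ _ ih2 => rw [List.append_assoc]; exact .nt r g1 ih2

lemma Gen.split : ∀ {l l' : List (T ⊕ N)} {w : List T}, Gen R (l ++ l') w →
    ∃ w1 w2, w = w1 ++ w2 ∧ Gen R l w1 ∧ Gen R l' w2 := by
  intro l
  induction l with
  | nil => intro l' w h; exact ⟨[], w, rfl, .nil, h⟩
  | cons x l ih =>
    intro l' w h
    cases h with
    | t a h =>
      obtain ⟨w1, w2, rfl, h1, h2⟩ := ih h
      exact ⟨a :: w1, w2, rfl, .t a h1, h2⟩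
    | nt r g1 h =>
      obtain ⟨w1, w2, rfl, h1, h2⟩ := ih h
      exact ⟨_, w2, (List.append_assoc _ _ _).symm, .nt r g1 h1, h2⟩

lemma Gen.terms (w : List T) : Gen R (w.map .inl) w := by
  induction w with
  | nil => exact .nil
  | cons a w ih => exact .t a ih

lemma Gen.one {A : N} {rhs : List (T ⊕ N)} {w : List T} (r : R A rhs) (h : Gen R rhs w) :
    Gen R [.inr A] w := by
  simpa using Gen.nt r h .nil

lemma Gen.cons_nt {A : N} {l : List (T ⊕ N)} {w1 w2 : List T} (h : Gen R [.inr A] w1)
    (h' : Gen R l w2) : Gen R (.inr A :: l) (w1 ++ w2) := h.append h'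

/-- Semantics of a sentential form, given semantics of the nonterminals. -/
def Sem (s : N → List T → Prop) : List (T ⊕ N) → List T → Prop
  | [], w => w = []
  | .inl a :: l, w => ∃ w', w = a :: w' ∧ Sem s l w'
  | .inr A :: l, w => ∃ w1 w2, w = w1 ++ w2 ∧ s A w1 ∧ Sem s l w2

lemma Gen.sound (s : N → List T → Prop) (hs : ∀ A rhs w, R A rhs → Sem s rhs w → s A w)
    {l : List (T ⊕ N)} {w : List T} (h : Gen R l w) : Sem s l w := by
  induction h with
  | nil => rfl
  | t a _ ih => exact ⟨_, rfl, ih⟩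
  | nt r _ _ ih1 ih2 => exact ⟨_, _, rfl, hs _ _ _ r ih1, ih2⟩

lemma sem_append (s : N → List T → Prop) : ∀ (l l' : List (T ⊕ N)) (w : List T),
    Sem s (l ++ l') w → ∃ w1 w2, w = w1 ++ w2 ∧ Sem s l w1 ∧ Sem s l' w2
  | [], _, w, h => ⟨[], w, rfl, rfl, h⟩
  | .inl a :: l, l', _, ⟨w', rfl, h⟩ => by
    obtain ⟨w1, w2, rfl, h1, h2⟩ := sem_append s l l' w' h
    exact ⟨a :: w1, w2, rfl, ⟨_, rfl, h1⟩, h2⟩
  | .inr A :: l, l', _, ⟨u, w', rfl, hu, h⟩ => by
    obtain ⟨w1, w2, rfl, h1, h2⟩ := sem_append s l l' w' h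
    exact ⟨u ++ w1, w2, (List.append_assoc _ _ _).symm, ⟨_, _, rfl, hu, h1⟩, h2⟩

lemma sem_terms (s : N → List T → Prop) : ∀ (u w : List T), Sem s (u.map .inl) w → w = u
  | [], _, h => h
  | a :: u, _, ⟨w', rfl, h⟩ => by rw [sem_terms s u w' h]

lemma gen_map {M : Type} (cd : N → M) (hc : Function.Injective cd)
    (R' : M → List (T ⊕ M) → Prop)
    (hR : ∀ k r, R' k r ↔ ∃ A rhs, R A rhs ∧ k = cd A ∧ r = rhs.map (Sum.map id cd))
    (l : List (T ⊕ N)) (w : List T) : Gen R' (l.map (Sum.map id cd)) w ↔ Gen R l w := by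
  constructor
  · intro h
    generalize e : l.map (Sum.map id cd) = l' at h
    induction h generalizing l with
    | nil => rw [List.map_eq_nil_iff.mp e]; exact .nil
    | t a _ ih =>
      obtain ⟨x, l0, rfl, e1, e2⟩ := List.map_eq_cons_iff.mp e
      cases x with
      | inl b =>
        obtain rfl : b = a := by simpa using e1
        exact .t _ (ih l0 e2)
      | inr b => simp at e1
    | nt r _ _ ih1 ih2 =>
      obtain ⟨x, l0, rfl, e1, e2⟩ := List.map_eq_cons_iff.mp e
      cases x with
      | inl b => simp at e1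
      | inr b =>
        obtain ⟨A, rhs, r1, r2, r3⟩ := (hR _ _).mp r
        obtain rfl : b = A := hc (by simpa [r2] using e1)
        exact .nt r1 (ih1 rhs r3.symm) (ih2 l0 e2)
  · intro h
    induction h with
    | nil => exact .nil
    | t a _ ih => exact .t a ih
    | nt r _ _ ih1 ih2 => exact .nt ((hR _ _).mpr ⟨_, _, r, rfl, rfl⟩) ih1 ih2

def toSym : T ⊕ N → Symbol T N
  | .inl a => .terminal a
  | .inr A => .nonterminal A

def ofSym : Symbol T N → T ⊕ N
  | .terminal a => .inl a
  | .nonterminal A => .inr A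

theorem language_iff (g : ContextFreeGrammar T) (R : g.NT → List (T ⊕ g.NT) → Prop)
    (hR : ∀ A rhs, R A rhs ↔ (⟨A, rhs.map toSym⟩ : ContextFreeRule T g.NT) ∈ g.rules)
    (w : List T) : w ∈ g.language ↔ Gen R [.inr g.initial] w := by
  have e1 : ∀ x : Symbol T g.NT, toSym (ofSym x) = x := fun x => by cases x <;> rfl
  rw [ContextFreeGrammar.mem_language_iff]
  constructor
  · intro h
    have : ∀ u, g.Derives u (w.map Symbol.terminal) → Gen R (u.map ofSym) w := by
      intro u hu
      induction hu using Relation.ReflTransGen.head_induction_on with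
      | refl =>
        rw [List.map_map]
        exact Gen.terms w
      | head hp _ ih =>
        obtain ⟨r, hr, hw⟩ := hp
        obtain ⟨p, q, rfl, rfl⟩ := hw.exists_parts
        simp only [List.map_append, List.append_assoc] at ih ⊢
        obtain ⟨w1, w2, rfl, h1, h2⟩ := ih.split
        obtain ⟨w3, w4, rfl, h3, h4⟩ := h2.split
        refine h1.append (Gen.nt ((hR _ _).mpr ?_) h3 h4)
        rw [List.map_map, show toSym ∘ ofSym = id from funext e1, List.map_id]
        exact hr
    exact this _ h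
  · intro h
    have : ∀ l w, Gen R l w → g.Derives (l.map toSym) (w.map Symbol.terminal) := by
      intro l w h
      induction h with
      | nil => exact .refl _
      | t a _ ih => exact ih.append_left [Symbol.terminal a]
      | @nt A rhs l w1 w2 r _ _ ih1 ih2 =>
        have p : g.Produces [Symbol.nonterminal A] (rhs.map toSym) :=
          ⟨_, (hR _ _).mp r, ContextFreeRule.Rewrites.input_output⟩
        rw [List.map_append]
        exact ((p.trans_derives ih1).append_right _).trans (ih2.append_left _)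
    exact this _ _ h

end LeadCfg
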