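import Mathlib
import Pool.Agent.Lib.helper11.HaltTM

set_option autoImplicit false

namespace LeadReg

open Turing

/-- An affine two-register instruction. -/
structure Ins (Q : Type) where
  src : Q
  dst : Option Q
  a1 : ℕ
  b1 : ℕ
  c1 : ℕ
  d1 : ℕ
  a2 : ℕ
  b2 : ℕ
  c2 : ℕ
  d2 : ℕ

def RStep {Q : Type} (I : Set (Ins Q)) (s s' : Option Q × ℕ × ℕ) : Prop :=
  ∃ i ∈ I, ∃ u v : ℕ, s = (some i.src, i.a1 * u + i.b1, i.a2 * v + i.b2) ∧
    s' = (i.dst, i.c1 * u + i.d1, i.c2 * v + i.d2)

def Acc {Q : Type} (I : Set (Ins Q)) (s : Option Q × ℕ × ℕ) : Prop :=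
  ∃ x y, Relation.ReflTransGen (RStep I) s (none, x, y)

section tm
variable {Γ Q : Type} [Inhabited Γ] [Inhabited Q] (M : TM0.Machine Γ Q) (b : ℕ) (dg : Γ → ℕ)

def num : List Γ → ℕ
  | [] => 0
  | a :: l => b * num l + dg a

def ins (q : Q) (a e : Γ) : Ins Q :=
  match M q a with
  | none => ⟨q, none, 1, 0, 1, 0, b, dg a, 1, 0⟩
  | some (q', .write s) => ⟨q, some q', 1, 0, 1, 0, b, dg a, b, dg s⟩
  | some (q', .move .right) => ⟨q, some q', 1, 0, b, dg a, b, dg a, 1, 0⟩
  | some (q', .move .left) => ⟨q, some q', b, dg e, 1, 0, b, dg a, b * b, b * dg a + dg e⟩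

def Rel (c : TM0.Cfg Γ Q) (s : Option Q × ℕ × ℕ) : Prop :=
  ∃ l r : List Γ, c.Tape = Tape.mk' (ListBlank.mk l) (ListBlank.mk r) ∧
    s = (some c.q, num b dg l, num b dg r)

omit [Inhabited Q] in
lemma num_eq (h0 : dg default = 0) (l : List Γ) :
    num b dg l = b * num b dg l.tail + dg l.headI := by
  cases l with
  | nil => simp [num, h0]
  | cons a l => rfl

lemma key (h0 : dg default = 0) (c : TM0.Cfg Γ Q) (l r : List Γ)
    (hc : c.Tape = Tape.mk' (ListBlank.mk l) (ListBlank.mk r)) :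
    ∃ s', RStep {ins M b dg c.q r.headI l.headI} (some c.q, num b dg l, num b dg r) s' ∧
      match TM0.step M c with
      | none => s'.1 = none
      | some c' => Rel b dg c' s' := by
  obtain ⟨q, T⟩ := c
  simp only at hc
  subst hc
  have el := num_eq b dg h0 l
  have er := num_eq b dg h0 r
  simp only [TM0.step, Tape.mk'_head, ListBlank.head_mk, RStep, Set.mem_singleton_iff,
    exists_eq_left, ins]
  rcases hM : M q r.headI with _ | ⟨q', (_ | _) | s⟩
  · exact ⟨_, ⟨num b dg l, num b dg r.tail, by simp [← er], rfl⟩, rfl⟩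
  · refine ⟨_, ⟨num b dg l.tail, num b dg r.tail, by simp [← er, ← el], rfl⟩,
      l.tail, l.headI :: r, ?_, ?_⟩
    · simp [Tape.move_left_mk']
    · simp only [num, Prod.mk.injEq, true_and]
      rw [er]
      constructor <;> ring
  · refine ⟨_, ⟨num b dg l, num b dg r.tail, by simp [← er], rfl⟩,
      r.headI :: l, r.tail, ?_, ?_⟩
    · simp [Tape.move_right_mk']
    · simp [num]
  · refine ⟨_, ⟨num b dg l, num b dg r.tail, by simp [← er], rfl⟩, l, s :: r.tail, ?_, ?_⟩
    · simp [Tape.write_mk']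
    · simp [num]

lemma digit {x y u v : ℕ} (hx : x < b) (hy : y < b) (h : b * u + x = b * v + y) :
    u = v ∧ x = y := by
  have h1 : (b * u + x) % b = (b * v + y) % b := by rw [h]
  rw [Nat.mul_add_mod, Nat.mul_add_mod, Nat.mod_eq_of_lt hx, Nat.mod_eq_of_lt hy] at h1
  subst h1
  exact ⟨Nat.eq_of_mul_eq_mul_left (by omega) (Nat.add_right_cancel h), rfl⟩

omit [Inhabited Γ] in
lemma det (hb : ∀ a, dg a < b) (hi : Function.Injective dg) (s s1 s2 : Option Q × ℕ × ℕ)
    (h1 : RStep (Set.range fun p : Q × Γ × Γ => ins M b dg p.1 p.2.1 p.2.2) s s1)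
    (h2 : RStep (Set.range fun p : Q × Γ × Γ => ins M b dg p.1 p.2.1 p.2.2) s s2) : s1 = s2 := by
  obtain ⟨_, ⟨⟨q, a, e⟩, rfl⟩, u, v, e1, rfl⟩ := h1
  obtain ⟨_, ⟨⟨q', a', e'⟩, rfl⟩, u', v', e2, rfl⟩ := h2
  rw [e1] at e2
  have f1 : ∀ q a e, (ins M b dg q a e).src = q ∧ (ins M b dg q a e).a2 = b ∧
      (ins M b dg q a e).b2 = dg a := by
    intro q a e
    unfold ins
    rcases M q a with _ | ⟨q', (_ | _) | s⟩ <;> simp
  simp only [Prod.mk.injEq, Option.some.injEq, f1] at e2
  obtain ⟨rfl, e3, e4⟩ := e2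
  obtain ⟨rfl, e5⟩ := digit b (hb _) (hb _) e4
  obtain rfl := hi e5
  rcases hM : M q a with _ | ⟨q', (_ | _) | s⟩ <;> simp only [ins, hM] at e3 ⊢
  · simp_all
  · obtain ⟨rfl, e6⟩ := digit b (hb _) (hb _) e3
    rw [e6]
  · simp_all
  · simp_all

theorem halts_iff (h0 : dg default = 0) (hb : ∀ a, dg a < b) (hi : Function.Injective dg)
    (inp : List Γ) : (TM0.eval M inp).Dom ↔
      Acc (Set.range fun p : Q × Γ × Γ => ins M b dg p.1 p.2.1 p.2.2)
        (some default, 0, num b dg inp) := by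
  set I := Set.range fun p : Q × Γ × Γ => ins M b dg p.1 p.2.1 p.2.2 with hI
  have key' : ∀ c s, Rel b dg c s → ∃ s', RStep I s s' ∧
      match TM0.step M c with
      | none => s'.1 = none
      | some c' => Rel b dg c' s' := by
    rintro c s ⟨l, r, hc, rfl⟩
    obtain ⟨s', ⟨i, hi, h1⟩, h2⟩ := key M b dg h0 c l r hc
    exact ⟨s', ⟨i, ⟨(c.q, r.headI, l.headI), hi.symm⟩, h1⟩, h2⟩
  have r0 : Rel b dg (TM0.init inp) ((some default, 0, num b dg inp) : Option Q × ℕ × ℕ) :=
    ⟨[], inp, rfl, rfl⟩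
  constructor
  · intro h
    obtain ⟨c, hc⟩ := Part.dom_iff_mem.mp (show (StateTransition.eval (TM0.step M)
      (TM0.init inp)).Dom from h)
    obtain ⟨h1, h2⟩ := StateTransition.mem_eval.mp hc
    have : ∃ s, Relation.ReflTransGen (RStep I) (some default, 0, num b dg inp) s ∧
        Rel b dg c s := by
      clear h2 hc
      induction h1 with
      | refl => exact ⟨_, .refl, r0⟩
      | tail _ st ih =>
        obtain ⟨s, s1, r⟩ := ih
        obtain ⟨s', s2, r'⟩ := key' _ s r
        rw [Option.mem_def.mp st] at r'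
        exact ⟨s', s1.tail s2, r'⟩
    obtain ⟨s, s1, r⟩ := this
    obtain ⟨⟨o, x, y⟩, s2, r'⟩ := key' _ s r
    rw [h2] at r'
    obtain rfl : o = none := r'
    exact ⟨x, y, s1.tail s2⟩
  · rintro ⟨x, y, h⟩
    have : ∀ s, Relation.ReflTransGen (RStep I) s (none, x, y) → ∀ c, Rel b dg c s →
        (StateTransition.eval (TM0.step M) c).Dom := by
      intro s hs
      induction hs using Relation.ReflTransGen.head_induction_on with
      | refl => rintro c ⟨l, r, _, e⟩; simp at e
      | head st _ ih =>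
        intro c r
        obtain ⟨s', s2, r'⟩ := key' c _ r
        obtain rfl := det M b dg hb hi _ _ _ st s2
        cases e : TM0.step M c with
        | none => exact Part.dom_iff_mem.mpr ⟨c, StateTransition.mem_eval.mpr ⟨.refl, e⟩⟩
        | some c' =>
          rw [e] at r'
          rw [StateTransition.reaches_eval (Relation.ReflTransGen.single e)]
          exact ih c' r'
    exact this _ h _ r0

end tm

theorem exists_reg : ∃ (Q : Type) (_ : Finite Q) (I : Set (Ins Q)) (q0 : Q) (f : ℕ → ℕ),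
    I.Finite ∧ Primrec f ∧ ¬ ComputablePred fun n => Acc I (some q0, 0, f n) := by
  obtain ⟨Γ, Q, i1, i2, f1, f2, M, a0, a1, a2, hM⟩ := H11Halt.exists_tm
  classical
  obtain ⟨N, ⟨eq⟩⟩ := Finite.exists_equiv_fin Γ
  let dg : Γ → ℕ := fun a => if a = default then 0 else eq a + 1
  have h0 : dg default = 0 := by simp [dg]
  have hb : ∀ a, dg a < N + 1 := by
    intro a
    have := (eq a).2
    simp only [dg]; split_ifs <;> omega
  have hi : Function.Injective dg := by
    intro a a' h
    simp only [dg] at h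
    split_ifs at h with h1 h2 h2
    · rw [h1, h2]
    · exact eq.injective (Fin.ext (by omega))
  refine ⟨Q, f2, Set.range fun p : Q × Γ × Γ => ins M (N + 1) dg p.1 p.2.1 p.2.2, default,
    fun n => num (N + 1) dg (a0 :: a1 :: List.replicate n a2), Set.finite_range _, ?_, ?_⟩
  · have h1 : Primrec fun n => num (N + 1) dg (List.replicate n a2) := by
      have : Primrec fun n : ℕ => (Nat.rec 0 (fun _ p => (N + 1) * p + dg a2) n : ℕ) := by
        apply Primrec.nat_rec₁
        exact (Primrec.nat_add.comp (Primrec.nat_mul.comp (Primrec.const _) Primrec.snd)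
          (Primrec.const _)).to₂
      refine this.of_eq fun n => ?_
      induction n with
      | zero => rfl
      | succ n ih => simp only [List.replicate_succ, num, ← ih]
    exact Primrec.nat_add.comp (Primrec.nat_mul.comp (Primrec.const _)
      (Primrec.nat_add.comp (Primrec.nat_mul.comp (Primrec.const _) h1) (Primrec.const _)))
      (Primrec.const _)
  · intro h
    exact hM (h.of_eq fun n => (halts_iff M (N + 1) dg h0 hb hi _).symm)

end LeadReg
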