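import Mathlib
import Pool.Agent.Lib.lead.RegM

set_option autoImplicit false

namespace LeadCnt

/-- A stateless counter system with zero tests. -/
structure CM (K : ℕ) (T : Type) where
  al : T → Fin K → ℕ
  be : T → Fin K → ℕ
  zt : T → Fin K → Bool
  r : T
  j0 : Fin K
  jh : Fin K
  h : ℕ

variable {K : ℕ} {T : Type}

def CM.bef (C : CM K T) (τ : T) (x : Fin K → ℕ) (j : Fin K) : ℕ :=
  C.al τ j + (if C.zt τ j then 0 else x j)

def CM.aft (C : CM K T) (τ : T) (x : Fin K → ℕ) (j : Fin K) : ℕ :=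
  C.be τ j + (if C.zt τ j then 0 else x j)

def CM.Valid (C : CM K T) : (Fin K → ℕ) → List (T × (Fin K → ℕ)) → Prop
  | c, [] => c C.jh = C.h
  | c, p :: L => c = C.bef p.1 p.2 ∧ C.Valid (C.aft p.1 p.2) L

def CM.Acc (C : CM K T) (n : ℕ) : Prop :=
  ∃ x L, x C.j0 = n ∧ C.Valid (C.aft C.r x) L

open LeadReg

section sim
variable {Q : Type} (I : Set (Ins Q)) (q0 : Q) (cd : Option Q ⊕ I → ℕ)

inductive Tr (Q : Type) (I : Set (Ins Q)) : Type
  | root
  | t1 (i : I)
  | t2 (i : I)
  | t3 (i : I)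
  | t4 (i : I)
  | t5 (o : Option Q)
  | t6 (o : Option Q)

def mach : CM 5 (Tr Q I) where
  al
    | .root => ![0, 0, 0, 0, 0]
    | .t1 i => ![i.1.b1, i.1.b2, 0, 0, cd (.inl (some i.1.src))]
    | .t2 i => ![i.1.a1, 0, 0, 0, cd (.inr i)]
    | .t3 i => ![0, i.1.a2, 0, 0, cd (.inr i)]
    | .t4 i => ![0, 0, 0, 0, cd (.inr i)]
    | .t5 o => ![0, 0, 1, 0, cd (.inl o)]
    | .t6 o => ![0, 0, 0, 1, cd (.inl o)]
  be
    | .root => ![0, 0, 0, 0, cd (.inl (some q0))]
    | .t1 i => ![0, 0, 0, 0, cd (.inr i)]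
    | .t2 i => ![0, 0, i.1.c1, 0, cd (.inr i)]
    | .t3 i => ![0, 0, 0, i.1.c2, cd (.inr i)]
    | .t4 i => ![i.1.d1, i.1.d2, 0, 0, cd (.inl i.1.dst)]
    | .t5 o => ![1, 0, 0, 0, cd (.inl o)]
    | .t6 o => ![0, 1, 0, 0, cd (.inl o)]
  zt
    | .root => ![true, false, true, true, true]
    | .t1 _ => ![false, false, true, true, true]
    | .t2 _ => ![false, false, false, false, true]
    | .t3 _ => ![false, false, false, false, true]
    | .t4 _ => ![true, true, false, false, true]
    | .t5 _ => ![false, false, false, false, true]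
    | .t6 _ => ![false, false, false, false, true]
  r := .root
  j0 := 1
  jh := 4
  h := cd (.inl none)

def Good (c : Fin 5 → ℕ) : Prop :=
  (∀ o, c 4 = cd (.inl o) → Acc I (o, c 0 + c 2, c 1 + c 3)) ∧
  (∀ i : I, c 4 = cd (.inr i) → ∀ u v, c 2 = i.1.c1 * u → c 3 = i.1.c2 * v →
    Acc I (some i.1.src, c 0 + i.1.a1 * u + i.1.b1, c 1 + i.1.a2 * v + i.1.b2))

lemma acc_back {s s' : Option Q × ℕ × ℕ} (h : RStep I s s') (h' : Acc I s') : Acc I s := by
  obtain ⟨x, y, h'⟩ := h'
  exact ⟨x, y, .head h h'⟩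

lemma good_of_valid (hi : Function.Injective cd) (hp : ∀ σ, cd σ ≠ 0) :
    ∀ (L : List (Tr Q I × (Fin 5 → ℕ))) (c : Fin 5 → ℕ), (mach I q0 cd).Valid c L →
      Good I cd c := by
  intro L
  induction L with
  | nil =>
    intro c hc
    have hc : c 4 = cd (.inl none) := hc
    refine ⟨fun o ho => ?_, fun i h => ?_⟩
    · rw [hc] at ho
      cases hi ho
      exact ⟨_, _, .refl⟩
    · rw [hc] at h
      cases hi h
  | cons p L ih =>
    rintro c ⟨rfl, hv⟩
    obtain ⟨g1, g2⟩ := ih _ hv
    obtain ⟨τ, x⟩ := p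
    cases τ with
    | root =>
      refine ⟨fun o ho => ?_, fun i ho => ?_⟩ <;>
        exact absurd (by simpa [CM.bef, mach] using ho.symm) (hp _)
    | t1 i =>
      refine ⟨fun o ho => ?_, fun i' ho => ?_⟩
      · simp [CM.bef, mach] at ho
        cases hi ho
        have := g2 i (by simp [CM.aft, mach]) 0 0 (by simp [CM.aft, mach]) (by simp [CM.aft, mach])
        simpa [CM.bef, CM.aft, mach, add_comm] using this
      · simp [CM.bef, mach] at ho
        cases hi ho
    | t2 i =>
      refine ⟨fun o ho => ?_, fun i' ho u v hu hv => ?_⟩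
      · simp [CM.bef, mach] at ho
        cases hi ho
      · simp [CM.bef, mach] at ho hu hv
        cases hi ho
        have := g2 i (by simp [CM.aft, mach]) (u + 1) v (by simp [CM.aft, mach, hu]; ring) (by simp [CM.aft, mach, hv])
        simp [CM.bef, CM.aft, mach] at this ⊢
        convert this using 3
        ring
    | t3 i =>
      refine ⟨fun o ho => ?_, fun i' ho u v hu hv => ?_⟩
      · simp [CM.bef, mach] at ho
        cases hi ho
      · simp [CM.bef, mach] at ho hu hv
        cases hi ho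
        have := g2 i (by simp [CM.aft, mach]) u (v + 1) (by simp [CM.aft, mach, hu]) (by simp [CM.aft, mach, hv]; ring)
        simp [CM.bef, CM.aft, mach] at this ⊢
        convert this using 3
        ring
    | t4 i =>
      refine ⟨fun o ho => ?_, fun i' ho u v hu hv => ?_⟩
      · simp [CM.bef, mach] at ho
        cases hi ho
      · simp [CM.bef, mach] at ho hu hv
        cases hi ho
        have := g1 i.1.dst (by simp [CM.aft, mach])
        simp [CM.bef, CM.aft, mach] at this ⊢
        refine acc_back I ⟨i.1, i.2, u, v, rfl, ?_⟩ this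
        rw [hu, hv]
        simp [add_comm]
    | t5 o' =>
      refine ⟨fun o ho => ?_, fun i' ho => ?_⟩
      · simp [CM.bef, mach] at ho
        cases hi ho
        have := g1 o' (by simp [CM.aft, mach])
        simp [CM.bef, CM.aft, mach] at this ⊢
        convert this using 3
        ring
      · simp [CM.bef, mach] at ho
        cases hi ho
    | t6 o' =>
      refine ⟨fun o ho => ?_, fun i' ho => ?_⟩
      · simp [CM.bef, mach] at ho
        cases hi ho
        have := g1 o' (by simp [CM.aft, mach])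
        simp [CM.bef, CM.aft, mach] at this ⊢
        convert this using 3
        ring
      · simp [CM.bef, mach] at ho
        cases hi ho

def Run (c : Fin 5 → ℕ) : Prop := ∃ L, (mach I q0 cd).Valid c L

lemma run_back (τ : Tr Q I) (x c c' : Fin 5 → ℕ) (h1 : c = (mach I q0 cd).bef τ x)
    (h2 : c' = (mach I q0 cd).aft τ x) (h : Run I q0 cd c') : Run I q0 cd c := by
  obtain ⟨L, h⟩ := h
  exact ⟨(τ, x) :: L, h1, h2 ▸ h⟩

lemma run_main (o : Option Q) (x' y' : ℕ) : ∀ x y : ℕ,
    Run I q0 cd ![x + x', y + y', 0, 0, cd (.inl o)] →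
    Run I q0 cd ![x, y, x', y', cd (.inl o)] := by
  induction x' with
  | zero =>
    induction y' with
    | zero => intro x y h; simpa using h
    | succ y' ih =>
      intro x y h
      refine run_back I q0 cd (.t6 o) ![x, y, 0, y', 0] _ ![x, y + 1, 0, y', cd (.inl o)] ?_ ?_
        (ih x (y + 1) (by convert h using 3; ring))
      · ext j; fin_cases j <;> simp [CM.bef, mach, add_comm]
      · ext j; fin_cases j <;> simp [CM.aft, mach, add_comm]
  | succ x' ih =>
    intro x y h
    refine run_back I q0 cd (.t5 o) ![x, y, x', y', 0] _ ![x + 1, y, x', y', cd (.inl o)] ?_ ?_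
      (ih (x + 1) y (by convert h using 2; ring))
    · ext j; fin_cases j <;> simp [CM.bef, mach, add_comm]
    · ext j; fin_cases j <;> simp [CM.aft, mach, add_comm]

lemma run_A (i : I) (u v : ℕ) : ∀ x' y' : ℕ,
    Run I q0 cd ![0, 0, x' + i.1.c1 * u, y' + i.1.c2 * v, cd (.inr i)] →
    Run I q0 cd ![i.1.a1 * u, i.1.a2 * v, x', y', cd (.inr i)] := by
  induction u with
  | zero =>
    induction v with
    | zero => intro x y h; simpa using h
    | succ v ih =>
      intro x y h
      refine run_back I q0 cd (.t3 i) ![0, i.1.a2 * v, x, y, 0] _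
        ![i.1.a1 * 0, i.1.a2 * v, x, y + i.1.c2, cd (.inr i)] ?_ ?_
        (ih x (y + i.1.c2) (by convert h using 5; ring))
      · ext j; fin_cases j <;> simp [CM.bef, mach, add_comm, mul_add]
      · ext j; fin_cases j <;> simp [CM.aft, mach, add_comm]
  | succ u ih =>
    intro x y h
    refine run_back I q0 cd (.t2 i) ![i.1.a1 * u, i.1.a2 * v, x, y, 0] _
      ![i.1.a1 * u, i.1.a2 * v, x + i.1.c1, y, cd (.inr i)] ?_ ?_
      (ih (x + i.1.c1) y (by convert h using 4; ring))
    · ext j; fin_cases j <;> simp [CM.bef, mach, add_comm, mul_add]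
    · ext j; fin_cases j <;> simp [CM.aft, mach, add_comm]

lemma run_of_acc (s : Option Q × ℕ × ℕ) (h : Acc I s) :
    Run I q0 cd ![s.2.1, s.2.2, 0, 0, cd (.inl s.1)] := by
  obtain ⟨x, y, h⟩ := h
  induction h using Relation.ReflTransGen.head_induction_on with
  | refl => exact ⟨[], by simp [CM.Valid, mach]⟩
  | head h _ ih =>
    obtain ⟨i, hi, u, v, rfl, rfl⟩ := h
    refine run_back I q0 cd (.t1 ⟨i, hi⟩) ![i.a1 * u, i.a2 * v, 0, 0, 0] _
      ![i.a1 * u, i.a2 * v, 0, 0, cd (.inr ⟨i, hi⟩)] ?_ ?_ (run_A I q0 cd ⟨i, hi⟩ u v 0 0 ?_)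
    · ext j; fin_cases j <;> simp [CM.bef, mach, add_comm]
    · ext j; fin_cases j <;> simp [CM.aft, mach, add_comm]
    · refine run_back I q0 cd (.t4 ⟨i, hi⟩) ![0, 0, i.c1 * u, i.c2 * v, 0] _
        ![i.d1, i.d2, i.c1 * u, i.c2 * v, cd (.inl i.dst)] ?_ ?_ (run_main I q0 cd _ _ _ _ _ ?_)
      · ext j; fin_cases j <;> simp [CM.bef, mach, add_comm]
      · ext j; fin_cases j <;> simp [CM.aft, mach, add_comm]
      · simpa [add_comm] using ih

lemma acc_iff (hi : Function.Injective cd) (hp : ∀ σ, cd σ ≠ 0) (n : ℕ) :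
    (mach I q0 cd).Acc n ↔ Acc I (some q0, 0, n) := by
  constructor
  · rintro ⟨x, L, hx, h⟩
    have := (good_of_valid I q0 cd hi hp L _ h).1 (some q0) (by simp [CM.aft, mach])
    have hx : x 1 = n := hx
    simpa [CM.aft, mach, hx] using this
  · intro h
    obtain ⟨L, hL⟩ := run_of_acc I q0 cd _ h
    refine ⟨fun _ => n, L, rfl, ?_⟩
    convert hL using 1
    ext j; fin_cases j <;> simp [CM.aft, mach]

end sim

theorem exists_cm : ∃ (K : ℕ) (T : Type) (_ : Finite T) (C : CM K T) (f : ℕ → ℕ),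
    (∀ τ x x', C.aft τ x C.jh ≠ C.bef C.r x' C.jh) ∧ Primrec f ∧
      ¬ ComputablePred fun n => C.Acc (f n) := by
  obtain ⟨Q, fQ, I, q0, f, hI, hf, hu⟩ := exists_reg
  have : Finite I := hI
  obtain ⟨N, ⟨e⟩⟩ := Finite.exists_equiv_fin (Option Q ⊕ I)
  let cd : Option Q ⊕ I → ℕ := fun σ => e σ + 1
  have hi : Function.Injective cd := fun a b h =>
    e.injective (Fin.ext (by simp only [cd] at h; omega))
  have hp : ∀ σ, cd σ ≠ 0 := fun σ => by simp [cd]
  have fT : Finite (Tr Q I) := by
    let g : Option (Fin 4 × I ⊕ Bool × Option Q) → Tr Q I := fun a =>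
      match a with
      | none => .root
      | some (.inl (0, i)) => .t1 i
      | some (.inl (1, i)) => .t2 i
      | some (.inl (2, i)) => .t3 i
      | some (.inl (3, i)) => .t4 i
      | some (.inr (true, o)) => .t5 o
      | some (.inr (false, o)) => .t6 o
    refine Finite.of_surjective g fun τ => ?_
    cases τ with
    | root => exact ⟨none, rfl⟩
    | t1 i => exact ⟨some (.inl (0, i)), rfl⟩
    | t2 i => exact ⟨some (.inl (1, i)), rfl⟩
    | t3 i => exact ⟨some (.inl (2, i)), rfl⟩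
    | t4 i => exact ⟨some (.inl (3, i)), rfl⟩
    | t5 o => exact ⟨some (.inr (true, o)), rfl⟩
    | t6 o => exact ⟨some (.inr (false, o)), rfl⟩
  refine ⟨5, Tr Q I, fT, mach I q0 cd, f, ?_, hf, fun h => hu (h.of_eq fun n => ?_)⟩
  · intro τ x x'
    cases τ <;> simp [CM.aft, CM.bef, mach, hp]
  · exact acc_iff I q0 cd hi hp _

end LeadCnt
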