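import Mathlib

set_option autoImplicit false

namespace LeadFG

@[ext] structure Heis where
  x : ℤ
  y : ℤ
  z : ℤ

instance : Mul Heis := ⟨fun g h => ⟨g.x + h.x, g.y + h.y, g.z + h.z + g.x * h.y⟩⟩
instance : One Heis := ⟨⟨0, 0, 0⟩⟩
instance : Inv Heis := ⟨fun g => ⟨-g.x, -g.y, -g.z + g.x * g.y⟩⟩
@[simp] theorem mul_x (g h : Heis) : (g * h).x = g.x + h.x := rfl
@[simp] theorem mul_y (g h : Heis) : (g * h).y = g.y + h.y := rfl
@[simp] theorem mul_z (g h : Heis) : (g * h).z = g.z + h.z + g.x * h.y := rfl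
@[simp] theorem one_x : (1 : Heis).x = 0 := rfl
@[simp] theorem one_y : (1 : Heis).y = 0 := rfl
@[simp] theorem one_z : (1 : Heis).z = 0 := rfl
@[simp] theorem inv_x (g : Heis) : (g⁻¹).x = -g.x := rfl
@[simp] theorem inv_y (g : Heis) : (g⁻¹).y = -g.y := rfl
@[simp] theorem inv_z (g : Heis) : (g⁻¹).z = -g.z + g.x * g.y := rfl

instance : Group Heis := Group.ofLeftAxioms
  (fun a b c => by ext <;> simp <;> ring) (fun a => by ext <;> simp)
  (fun a => by ext <;> simp)

theorem zpow_a (s : ℤ) : (⟨1, 0, 0⟩ : Heis) ^ s = ⟨s, 0, 0⟩ := by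
  induction s using Int.induction_on with
  | zero => rfl
  | succ n ih => rw [zpow_add_one, ih]; ext <;> simp
  | pred n ih => rw [zpow_sub_one, ih]; ext <;> simp; ring

variable {A : Type}

/-- Lyndon: `p² q² = r²` in a free group forces a cyclic subgroup. -/
theorem lyndon {p q r : FreeGroup A} (h : p ^ 2 * q ^ 2 = r ^ 2) :
    ∃ z, p ∈ Subgroup.zpowers z ∧ q ∈ Subgroup.zpowers z ∧ r ∈ Subgroup.zpowers z := by
  classical
  let H := Subgroup.closure ({p, q, r} : Set (FreeGroup A))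
  have hp : p ∈ H := Subgroup.subset_closure (by simp)
  have hq : q ∈ H := Subgroup.subset_closure (by simp)
  have hr : r ∈ H := Subgroup.subset_closure (by simp)
  by_cases hs : ∃ s s' : IsFreeGroup.Generators H, s ≠ s'
  · exfalso
    obtain ⟨s, s', hne⟩ := hs
    let θ : H →* Heis := IsFreeGroup.lift fun g =>
      if g = s then ⟨1, 0, 0⟩ else if g = s' then ⟨0, 1, 0⟩ else 1
    have e : θ ⟨p, hp⟩ ^ 2 * θ ⟨q, hq⟩ ^ 2 = θ ⟨r, hr⟩ ^ 2 := by
      rw [← map_pow, ← map_pow, ← map_pow, ← map_mul]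
      congr 1; exact Subtype.ext h
    set P := θ ⟨p, hp⟩
    set Q := θ ⟨q, hq⟩
    set R := θ ⟨r, hr⟩
    have ex := congrArg Heis.x e
    have ey := congrArg Heis.y e
    have ez := congrArg Heis.z e
    simp only [pow_two, mul_x, mul_y, mul_z] at ex ey ez
    have ex' : R.x = P.x + Q.x := by omega
    have ey' : R.y = P.y + Q.y := by omega
    have key : ∀ g (hg : g ∈ H), ∃ i j : ℤ, (θ ⟨g, hg⟩).x = i * P.x + j * Q.x ∧
        (θ ⟨g, hg⟩).y = i * P.y + j * Q.y := by
      intro g hg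
      induction hg using Subgroup.closure_induction with
      | mem x hx =>
        rcases hx with rfl | rfl | rfl
        · exact ⟨1, 0, by simp [P], by simp [P]⟩
        · exact ⟨0, 1, by simp [Q], by simp [Q]⟩
        · exact ⟨1, 1, by simpa using ex', by simpa using ey'⟩
      | one => exact ⟨0, 0, (congrArg Heis.x (map_one θ)).trans (by simp),
          (congrArg Heis.y (map_one θ)).trans (by simp)⟩
      | mul x y hx hy h1 h2 =>
        obtain ⟨i, j, a1, a2⟩ := h1
        obtain ⟨k, l, b1, b2⟩ := h2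
        have := map_mul θ ⟨x, hx⟩ ⟨y, hy⟩
        refine ⟨i + k, j + l, ?_, ?_⟩
        · erw [this]; rw [mul_x, a1, b1]; ring
        · erw [this]; rw [mul_y, a2, b2]; ring
      | inv x hx h1 =>
        obtain ⟨i, j, a1, a2⟩ := h1
        have := map_inv θ ⟨x, hx⟩
        refine ⟨-i, -j, ?_, ?_⟩
        · erw [this]; rw [inv_x, a1]; ring
        · erw [this]; rw [inv_y, a2]; ring
    obtain ⟨i, j, a1, a2⟩ := key _ (IsFreeGroup.of s : H).2
    obtain ⟨k, l, b1, b2⟩ := key _ (IsFreeGroup.of s' : H).2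
    simp [θ, hne.symm] at a1 a2 b1 b2
    have d : (i * l - j * k) * (P.x * Q.y - Q.x * P.y) = 1 := by
      have : (i * l - j * k) * (P.x * Q.y - Q.x * P.y) = (i * P.x + j * Q.x) * (k * P.y + l * Q.y)
        - (i * P.y + j * Q.y) * (k * P.x + l * Q.x) := by ring
      rw [this, ← a1, ← a2, ← b1, ← b2]; ring
    rw [ex', ey'] at ez
    have ev : P.x * Q.y - Q.x * P.y = 2 * (P.z + Q.z + 2 * P.x * Q.y - R.z - Q.x * P.y) := by
      linear_combination -ez
    rw [ev] at d
    have : 2 * ((i * l - j * k) * (P.z + Q.z + 2 * P.x * Q.y - R.z - Q.x * P.y)) = 1 := by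
      linear_combination d
    omega
  · push Not at hs
    have key : ∃ z : H, ∀ g : H, g ∈ Subgroup.zpowers z := by
      have gen : ∀ K : Subgroup H, (∀ s, IsFreeGroup.of s ∈ K) → ∀ g, g ∈ K := by
        intro K hK g
        obtain ⟨w, rfl⟩ := (IsFreeGroup.mulEquiv H).surjective g
        induction w using FreeGroup.induction_on with
        | C1 => simp
        | of s => exact hK s
        | inv_of s ih => rw [map_inv]; exact K.inv_mem ih
        | mul x y h1 h2 => rw [map_mul]; exact K.mul_mem h1 h2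
      by_cases hn : Nonempty (IsFreeGroup.Generators H)
      · obtain ⟨s⟩ := hn
        exact ⟨IsFreeGroup.of s, gen _ fun t => by rw [hs t s]; exact Subgroup.mem_zpowers _⟩
      · exact ⟨1, gen _ fun t => absurd ⟨t⟩ hn⟩
    obtain ⟨z, hz⟩ := key
    have : ∀ g (hg : g ∈ H), g ∈ Subgroup.zpowers (z : FreeGroup A) := by
      intro g hg
      obtain ⟨k, hk⟩ := hz ⟨g, hg⟩
      exact ⟨k, by simpa using congrArg Subtype.val hk⟩
    exact ⟨z, this p hp, this q hq, this r hr⟩

variable [DecidableEq A]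

/-- exponent sum -/
def chi (a : A) : FreeGroup A →* Multiplicative ℤ :=
  FreeGroup.lift fun x => if x = a then Multiplicative.ofAdd 1 else 1

theorem chi_self (a : A) : chi a (FreeGroup.of a) = Multiplicative.ofAdd 1 := by simp [chi]

theorem unit_exp {a : A} {z : FreeGroup A} {i : ℤ} (h : chi a (z ^ i) = Multiplicative.ofAdd 1) :
    i * Multiplicative.toAdd (chi a z) = 1 := by
  have := congrArg Multiplicative.toAdd h
  simpa using this

theorem mem_of_comm {a : A} {g : FreeGroup A} (h : FreeGroup.of a * g = g * FreeGroup.of a) :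
    g ∈ Subgroup.zpowers (FreeGroup.of a) := by
  obtain ⟨z, ⟨i, hi⟩, ⟨j, hj⟩, -⟩ := lyndon (p := FreeGroup.of a) (q := g)
    (r := FreeGroup.of a * g) ((Commute.mul_pow h 2).symm)
  simp only at hi hj
  have := unit_exp (a := a) (by rw [hi, chi_self])
  rcases Int.eq_one_or_neg_one_of_mul_eq_one this with rfl | rfl
  · exact ⟨j, by simp [← hi, ← hj]⟩
  · exact ⟨-j, by simp [← hi, ← hj]⟩

def J {G : Type} [Group G] (a g h : G) : G := a ^ 2 * g * a ^ 2 * g⁻¹ * h * (a ^ 4)⁻¹ * h⁻¹

theorem map_J {G H : Type} [Group G] [Group H] (φ : G →* H) (a g h : G) :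
    φ (J a g h) = J (φ a) (φ g) (φ h) := by simp [J]

theorem J_one {a : A} {g h : FreeGroup A} : J (FreeGroup.of a) g h = 1 ↔
    g ∈ Subgroup.zpowers (FreeGroup.of a) ∧ h ∈ Subgroup.zpowers (FreeGroup.of a) := by
  constructor
  · intro e
    set α := FreeGroup.of a with hα
    have e' : α ^ 2 * (g * α * g⁻¹) ^ 2 = (h * α ^ 2 * h⁻¹) ^ 2 := by
      rw [conj_pow, conj_pow, ← mul_inv_eq_one, ← e, J]; group
    obtain ⟨z, ⟨i, hi⟩, ⟨j, hj⟩, ⟨l, hl⟩⟩ := lyndon e'
    simp only at hi hj hl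
    have c1 := unit_exp (a := a) (by rw [hi, chi_self])
    have c2 := unit_exp (a := a) (z := z) (i := j) (by rw [hj]; simp [hα, chi_self])
    have c3 : l * Multiplicative.toAdd (chi a z) = 2 := by
      have := congrArg (fun x => Multiplicative.toAdd (chi a x)) hl
      simpa [hα, chi_self] using this
    have hz : Multiplicative.toAdd (chi a z) ≠ 0 := by intro h0; simp [h0] at c1
    have e1 : j = i := mul_right_cancel₀ hz (c2.trans c1.symm)
    have e2 : l = i * 2 := mul_right_cancel₀ hz (by linear_combination c3 - 2 * c1)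
    have g1 : g * α * g⁻¹ = α := by rw [← hj, e1, hi]
    have g2 : (h * α * h⁻¹) ^ 2 = α ^ 2 := by
      rw [conj_pow, ← hl, e2, zpow_mul, hi]; rfl
    have g3 : h * α * h⁻¹ = α := pow_left_injective two_ne_zero g2
    exact ⟨mem_of_comm (by rw [← hα]; nth_rewrite 1 [← g1]; group),
      mem_of_comm (by rw [← hα]; nth_rewrite 1 [← g3]; group)⟩
  · rintro ⟨⟨i, rfl⟩, ⟨j, rfl⟩⟩
    simp only [J]; group

theorem J_mem {a : A} {g h : FreeGroup A} :
    J (FreeGroup.of a) g h ∈ Subgroup.zpowers (FreeGroup.of a) ↔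
    g ∈ Subgroup.zpowers (FreeGroup.of a) ∧ h ∈ Subgroup.zpowers (FreeGroup.of a) := by
  rw [← J_one]
  refine ⟨?_, fun e => e ▸ Subgroup.one_mem _⟩
  rintro ⟨k, hk⟩
  simp only at hk
  have := congrArg (fun x => Multiplicative.toAdd (chi a x)) hk
  simp [J, chi_self] at this
  have : k = 0 := by omega
  rw [← hk, this, zpow_zero]

theorem indep {a b : A} (hab : a ≠ b) {s t : ℤ}
    (h : FreeGroup.of a ^ s * FreeGroup.of b * FreeGroup.of a ^ t * (FreeGroup.of b)⁻¹ = 1) :
    s = 0 ∧ t = 0 := by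
  let θ : FreeGroup A →* Heis := FreeGroup.lift fun x => if x = a then ⟨1, 0, 0⟩ else ⟨0, 1, 0⟩
  have := congrArg θ h
  simp only [map_mul, map_zpow, map_inv, θ, FreeGroup.lift_apply_of, if_true, hab.symm, if_false,
    zpow_a, map_one] at this
  have h1 := congrArg Heis.x this
  have h2 := congrArg Heis.z this
  simp at h1 h2
  omega

theorem eq_one_iff {a b : A} (hab : a ≠ b) {g : FreeGroup A} : g = 1 ↔
    g ∈ Subgroup.zpowers (FreeGroup.of a) ∧
      FreeGroup.of b * g * (FreeGroup.of b)⁻¹ ∈ Subgroup.zpowers (FreeGroup.of a) := by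
  refine ⟨fun h => by simp [h], ?_⟩
  rintro ⟨⟨i, rfl⟩, ⟨j, hj⟩⟩
  simp only at hj
  have := (indep hab (s := -j) (t := i) (by
    rw [mul_assoc, mul_assoc, ← mul_assoc (FreeGroup.of b), ← hj]; simp)).2
  simp [this]

/-- letters other than those in `S` -/
def K (S : A → Prop) : Subgroup (FreeGroup A) := Subgroup.closure {g | ∃ x, ¬ S x ∧ g = .of x}

theorem of_mem_K {S : A → Prop} {x : A} (h : ¬ S x) : FreeGroup.of x ∈ K S :=
  Subgroup.subset_closure ⟨x, h, rfl⟩

omit [DecidableEq A] in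
theorem eq_on_K {S : A → Prop} {G : Type} [Group G] {φ ψ : FreeGroup A →* G}
    (h : ∀ x, ¬ S x → φ (.of x) = ψ (.of x)) {g : FreeGroup A} (hg : g ∈ K S) : φ g = ψ g := by
  induction hg using Subgroup.closure_induction with
  | mem x hx => obtain ⟨y, hy, rfl⟩ := hx; exact h y hy
  | one => simp
  | mul x y _ _ h1 h2 => simp [h1, h2]
  | inv x _ h1 => simp [h1]

omit [DecidableEq A] in
theorem map_K {S T : A → Prop} {φ : FreeGroup A →* FreeGroup A}
    (h : ∀ x, ¬ S x → φ (.of x) ∈ K T) {g : FreeGroup A} (hg : g ∈ K S) : φ g ∈ K T := by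
  induction hg using Subgroup.closure_induction with
  | mem x hx => obtain ⟨y, hy, rfl⟩ := hx; exact h y hy
  | one => simp
  | mul x y _ _ h1 h2 => rw [map_mul]; exact mul_mem h1 h2
  | inv x _ h1 => rw [map_inv]; exact inv_mem h1

theorem mem_K_of_fix (S : A → Prop) [DecidablePred S] {g : FreeGroup A}
    (h : FreeGroup.lift (fun x => if S x then (FreeGroup.of x)⁻¹ else FreeGroup.of x) g = g) :
    g ∈ K S := by
  let fl : A × Bool → A × Bool := fun p => if S p.1 then (p.1, !p.2) else p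
  have e1 : ∀ L : List (A × Bool),
      FreeGroup.lift (fun x => if S x then (FreeGroup.of x)⁻¹ else FreeGroup.of x) (FreeGroup.mk L)
        = FreeGroup.mk (L.map fl) := by
    intro L
    induction L with
    | nil => exact map_one _
    | cons p L ih =>
      have e0 : ∀ (p : A × Bool) (L : List (A × Bool)),
        FreeGroup.mk (p :: L) = FreeGroup.mk [p] * FreeGroup.mk L := fun _ _ => rfl
      rw [List.map_cons, e0, e0 (fl p), map_mul, ih]
      congr 1
      obtain ⟨x, _ | _⟩ := p <;> by_cases hx : S x <;> simp [fl, hx] <;> rfl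
  have hred : FreeGroup.IsReduced (g.toWord.map fl) := by
    have := FreeGroup.isReduced_toWord (x := g)
    unfold FreeGroup.IsReduced at this ⊢
    rw [List.isChain_map]
    refine this.imp ?_
    rintro ⟨x, i⟩ ⟨y, j⟩ h1
    by_cases hx : S x <;> by_cases hy : S y <;> simp [fl, hx, hy] at h1 ⊢ <;>
      first | exact h1 | (rintro rfl; contradiction)
  have e2 : g.toWord.map fl = g.toWord := by
    have := e1 g.toWord
    rw [FreeGroup.mk_toWord, h] at this
    conv_rhs => rw [this, FreeGroup.toWord_mk, hred.reduce_eq]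
  have e3 : ∀ p ∈ g.toWord, ¬ S p.1 := by
    intro p hp hS
    have : fl p = p := List.map_inj_left.1 (e2.trans (List.map_id _).symm) p hp
    simp [fl, hS, Prod.ext_iff] at this
  rw [← FreeGroup.mk_toWord (x := g)]
  generalize g.toWord = L at e3
  induction L with
  | nil => exact one_mem _
  | cons p L ih =>
    have e0 : FreeGroup.mk (p :: L) = FreeGroup.mk [p] * FreeGroup.mk L := rfl
    rw [e0]
    refine mul_mem ?_ (ih fun q hq => e3 q (by simp [hq]))
    have := of_mem_K (e3 p (by simp))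
    obtain ⟨x, _ | _⟩ := p
    · exact inv_mem this
    · exact this

/-- twisted conjugacy with a marker letter detects orbits -/
theorem orbit {c : A} (ψ : MulAut (FreeGroup A)) (hc : ψ (.of c) = .of c)
    (hK : ∀ x, x ≠ c → ψ (.of x) ∈ K (· = c)) {u w X : FreeGroup A} (hu : u ∈ K (· = c))
    (hw : w ∈ K (· = c)) (hu1 : u ≠ 1) (h : .of c * u * ψ X = X * .of c * w) :
    ∃ k : ℤ, w = (ψ ^ k) u := by
  classical
  have hne : ∀ k : ℤ, (ψ ^ k) u ≠ 1 := fun k h => hu1 (by simpa using h)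
  let γ0 : FreeGroup A × ℤ → FreeGroup A × ℤ := fun p =>
    if p.1 = 1 then ((ψ ^ p.2) u, p.2 + 1)
    else if p.1 = (ψ ^ (p.2 - 1)) u then (1, p.2 - 1) else p
  have hγ : Function.Involutive γ0 := by
    rintro ⟨g, k⟩
    by_cases h1 : g = 1
    · simp [γ0, h1, hne]
    · by_cases h2 : g = (ψ ^ (k - 1)) u
      · simp [γ0, h2, hne]
      · simp [γ0, h1, h2]
  let γ : Equiv.Perm (FreeGroup A × ℤ) := hγ.toPerm _
  let T : Equiv.Perm (FreeGroup A × ℤ) := Equiv.prodCongr ψ.toEquiv (Equiv.addRight 1)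
  let L : FreeGroup A →* Equiv.Perm (FreeGroup A × ℤ) :=
    { toFun := fun g => Equiv.prodCongr (Equiv.mulLeft g) (Equiv.refl _)
      map_one' := by ext p <;> simp
      map_mul' := fun g h => by ext p <;> simp [mul_assoc] }
  let ρ : FreeGroup A →* Equiv.Perm (FreeGroup A × ℤ) :=
    FreeGroup.lift fun x => if x = c then γ else L (.of x)
  have r1 : ∀ g ∈ K (· = c), ρ g = L g := fun g hg =>
    eq_on_K (fun x hx => by simp [ρ, hx]) hg
  have rc : ρ (.of c) = γ := by simp [ρ]
  have step : ∀ k : ℤ, ψ ((ψ ^ k) u) = (ψ ^ (k + 1)) u := by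
    intro k; rw [add_comm, zpow_add, zpow_one]; rfl
  have r2 : ∀ g, T * ρ g * T⁻¹ = ρ (ψ g) := by
    intro g
    have : (MulAut.conj T).toMonoidHom.comp ρ = ρ.comp ψ.toMonoidHom := by
      ext1 x
      show T * ρ (.of x) * T⁻¹ = ρ (ψ (.of x))
      rw [mul_inv_eq_iff_eq_mul]
      by_cases hx : x = c
      · rw [hx, hc, rc]
        refine Equiv.ext ?_
        rintro ⟨g, k⟩
        show T (γ0 (g, k)) = γ0 (ψ g, k + 1)
        by_cases h1 : g = 1
        · simp [γ0, h1, T, step]
        · by_cases h2 : g = (ψ ^ (k - 1)) u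
          · simp [γ0, h2, hne, T, step]
          · have h3 : ψ g ≠ (ψ ^ k) u := by
              intro h3
              apply h2
              apply ψ.injective
              rw [h3, step]; simp
            simp [γ0, h1, h2, h3, T]
      · rw [r1 _ (of_mem_K hx), r1 _ (hK x hx)]
        refine Equiv.ext ?_
        rintro ⟨g, k⟩
        simp [T, L]
    exact DFunLike.congr_fun this g
  have e := congrArg ρ h
  simp only [map_mul, rc, r1 u hu, r1 w hw, ← r2] at e
  have e2 : γ * L u * T * ρ X = ρ X * (γ * L w * T) := by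
    calc _ = γ * L u * (T * ρ X * T⁻¹) * T := by group
      _ = _ := by rw [e]; group
  obtain ⟨⟨g, k⟩, hg⟩ := (ρ X).surjective (1, 0)
  have e3 := DFunLike.congr_fun e2 (g, k)
  simp only [Equiv.Perm.mul_apply, hg] at e3
  have e4 : γ (L u (T (1, 0))) = (1, 0) := by
    show γ0 (u * ψ 1, 0 + 1) = _
    simp [γ0, hu1]
  rw [e4, ← hg] at e3
  have e5 : γ0 (w * ψ g, k + 1) = (g, k) := ((ρ X).injective e3).symm
  simp only [γ0] at e5
  split_ifs at e5 with h1 h2
  · have := (Prod.ext_iff.1 e5).2; simp at this; omega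
  · have := (Prod.ext_iff.1 e5).1
    simp only at this
    rw [← this] at h2
    exact ⟨k, by simpa using h2⟩
  · have := (Prod.ext_iff.1 e5).2; simp at this

theorem orbit_ex {G : Type} [Group G] (ψ : MulAut G) (v : G) (H : Subgroup G)
    (hH : ∀ j : ℤ, (ψ ^ j) v ∈ H) (k : ℤ) : ∃ X ∈ H, v * ψ X = X * (ψ ^ k) v := by
  have step : ∀ k : ℤ, ψ ((ψ ^ k) v) = (ψ ^ (k + 1)) v := by
    intro k; rw [add_comm, zpow_add, zpow_one]; rfl
  induction k using Int.induction_on with
  | zero => exact ⟨1, one_mem _, by simp⟩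
  | succ n ih =>
    obtain ⟨X, hX, e⟩ := ih
    exact ⟨X * (ψ ^ (n : ℤ)) v, mul_mem hX (hH _), by rw [map_mul, ← mul_assoc, e, step]⟩
  | pred n ih =>
    obtain ⟨X, hX, e⟩ := ih
    refine ⟨X * ((ψ ^ (-(n : ℤ) - 1)) v)⁻¹, mul_mem hX (inv_mem (hH _)), ?_⟩
    rw [map_mul, ← mul_assoc, e, map_inv, step]; simp

theorem zpow_shift {G : Type} [Group G] (φ : MulAut G) {a g : G} (s : ℤ) (ha : φ a = a)
    (hg : φ g = a ^ s * g) (k : ℤ) : (φ ^ k) g = a ^ (s * k) * g := by
  have step : ∀ k : ℤ, φ ((φ ^ k) g) = (φ ^ (k + 1)) g := by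
    intro k; rw [add_comm, zpow_add, zpow_one]; rfl
  induction k using Int.induction_on with
  | zero => simp
  | succ n ih => rw [← step, ih, map_mul, map_zpow, ha, hg, mul_add, zpow_add]; group
  | pred n ih =>
    apply φ.injective
    rw [step, map_mul, map_zpow, ha, hg, sub_add_cancel, ih]; group

end LeadFG
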