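import Mathlib

set_option autoImplicit false

namespace Pool.Agent.Lib.LeadGirth

open Classical Finset

variable {n : ℕ}

noncomputable def nb (T : SimpleGraph (Fin n)) (S : Finset (Fin n)) (x : Fin n) : Finset (Fin n) :=
  S.filter (T.Adj x)

lemma mem_nb {T : SimpleGraph (Fin n)} {S : Finset (Fin n)} {x y : Fin n} :
    y ∈ nb T S x ↔ y ∈ S ∧ T.Adj x y := mem_filter

/-- Every vertex set of size at most g with two or more points has two points with at most one
neighbour in the set (so no cycle of length at most g). -/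
def Sparse (g : ℕ) (T : SimpleGraph (Fin n)) : Prop :=
  ∀ S : Finset (Fin n), S.card ≤ g → ∀ w, (∃ y ∈ S, y ≠ w) →
    ∃ x ∈ S, x ≠ w ∧ (nb T S x).card ≤ 1

noncomputable def ball (T : SimpleGraph (Fin n)) (u : Fin n) : ℕ → Finset (Fin n)
  | 0 => {u}
  | i + 1 => ball T u i ∪ (ball T u i).biUnion (fun x => nb T univ x)

lemma ball_card (T : SimpleGraph (Fin n)) (D : ℕ) (hD : ∀ x, (nb T univ x).card ≤ D)
    (u : Fin n) (i : ℕ) : (ball T u i).card ≤ (D + 1) ^ i := by
  induction i with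
  | zero => simp [ball]
  | succ i ih =>
    have h1 := card_union_le (ball T u i) ((ball T u i).biUnion (fun x => nb T univ x))
    have h2 := card_biUnion_le_card_mul (ball T u i) (fun x => nb T univ x) D
      (fun x _ => hD x)
    rw [ball, pow_succ]
    nlinarith

lemma ball_mono (T : SimpleGraph (Fin n)) (u : Fin n) {i j : ℕ} (h : i ≤ j) :
    ball T u i ⊆ ball T u j := by
  induction h with
  | refl => exact Subset.refl _
  | step _ ih => exact ih.trans subset_union_left

lemma closed (T : SimpleGraph (Fin n)) (S : Finset (Fin n)) (u : Fin n) (hu : u ∈ S) (i : ℕ) :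
    ∃ A ⊆ S, u ∈ A ∧ A ⊆ ball T u i ∧
      (i + 1 ≤ A.card ∨ ∀ x ∈ A, ∀ y ∈ S, T.Adj x y → y ∈ A) := by
  induction i with
  | zero => exact ⟨{u}, by simpa, by simp, by simp [ball], Or.inl (by simp)⟩
  | succ i ih =>
    obtain ⟨A, h1, h2, h3, h4⟩ := ih
    by_cases hc : ∀ x ∈ A, ∀ y ∈ S, T.Adj x y → y ∈ A
    · exact ⟨A, h1, h2, h3.trans (ball_mono T u (Nat.le_succ i)), Or.inr hc⟩
    · push Not at hc
      obtain ⟨x, hx, y, hy, hxy, hyA⟩ := hc
      refine ⟨insert y A, insert_subset hy h1, mem_insert_of_mem h2, ?_, Or.inl ?_⟩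
      · refine insert_subset ?_ (h3.trans subset_union_left)
        exact mem_union_right _ (mem_biUnion.2 ⟨x, h3 hx, by simpa [mem_nb] using hxy⟩)
      · rw [card_insert_of_notMem hyA]
        rcases h4 with h4 | h4
        · omega
        · exact absurd (h4 x hx y hy hxy) hyA

lemma half (g : ℕ) (T : SimpleGraph (Fin n)) (hT : Sparse g T) (u v : Fin n) (S A : Finset (Fin n))
    (hS : S.card ≤ g) (hA : A ⊆ S) (hu : u ∈ A) (hv : v ∉ A)
    (hc : ∀ x ∈ A, ∀ y ∈ S, T.Adj x y → y ∈ A) :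
    ∃ x ∈ A, (nb (T ⊔ SimpleGraph.edge u v) S x).card ≤ 1 := by
  by_cases h : ∃ y ∈ A, y ≠ u
  · obtain ⟨x, hx, hxu, hx1⟩ := hT A ((card_le_card hA).trans hS) u h
    refine ⟨x, hx, le_trans (card_le_card ?_) hx1⟩
    intro y hy
    rw [mem_nb] at hy ⊢
    have hxv : x ≠ v := fun e => hv (e ▸ hx)
    rcases hy.2 with h' | h'
    · exact ⟨hc x hx y hy.1 h', h'⟩
    · rw [SimpleGraph.edge_adj] at h'
      tauto
  · push Not at h
    refine ⟨u, hu, le_trans (card_le_card (t := {v}) ?_) (by simp)⟩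
    intro y hy
    rw [mem_nb] at hy
    rcases hy.2 with h' | h'
    · exact absurd (h y (hc u hu y hy.1 h')) h'.ne'
    · rw [SimpleGraph.edge_adj] at h'
      have hvu : u ≠ v := fun e => hv (e ▸ hu)
      simp only [mem_singleton]
      tauto

lemma add_edge (g : ℕ) (T : SimpleGraph (Fin n)) (hT : Sparse g T) (u v : Fin n)
    (huv : v ∉ ball T u g) : Sparse g (T ⊔ SimpleGraph.edge u v) := by
  intro S hS w hw
  by_cases h : u ∈ S ∧ v ∈ S
  · obtain ⟨A, h1, h2, h3, h4⟩ := closed T S u h.1 g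
    have hc : ∀ x ∈ A, ∀ y ∈ S, T.Adj x y → y ∈ A := by
      rcases h4 with h4 | h4
      · have := card_le_card h1
        omega
      · exact h4
    have hv : v ∉ A := fun e => huv (h3 e)
    by_cases hwA : w ∈ A
    · obtain ⟨x, hx, hx1⟩ := half g T hT v u S (S \ A) hS sdiff_subset (mem_sdiff.2 ⟨h.2, hv⟩)
        (by simp [h2]) (fun x hx y hy hxy => mem_sdiff.2 ⟨hy, fun e =>
          (mem_sdiff.1 hx).2 (hc y e x (mem_sdiff.1 hx).1 hxy.symm)⟩)
      refine ⟨x, (mem_sdiff.1 hx).1, fun e => (mem_sdiff.1 hx).2 (e ▸ hwA), ?_⟩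
      rwa [SimpleGraph.edge_comm]
    · obtain ⟨x, hx, hx1⟩ := half g T hT u v S A hS h1 h2 hv hc
      exact ⟨x, h1 hx, fun e => hwA (e ▸ hx), hx1⟩
  · obtain ⟨x, hx, hxw, hx1⟩ := hT S hS w hw
    refine ⟨x, hx, hxw, le_trans (card_le_card ?_) hx1⟩
    intro y hy
    rw [mem_nb] at hy ⊢
    rcases hy.2 with h' | h'
    · exact ⟨hy.1, h'⟩
    · rw [SimpleGraph.edge_adj] at h'
      exfalso
      apply h
      rcases h'.1 with ⟨rfl, rfl⟩ | ⟨rfl, rfl⟩
      · exact ⟨hx, hy.1⟩
      · exact ⟨hy.1, hx⟩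

lemma add_deg (T : SimpleGraph (Fin n)) (D : ℕ) (hD : ∀ x, (nb T univ x).card ≤ D)
    (u v : Fin n) (hu : (nb T univ u).card < D) (hv : (nb T univ v).card < D)
    (x : Fin n) : (nb (T ⊔ SimpleGraph.edge u v) univ x).card ≤ D := by
  by_cases h1 : x = u
  · subst h1
    refine le_trans (card_le_card (t := insert v (nb T univ x)) ?_)
      ((card_insert_le _ _).trans hu)
    intro y hy
    simp only [mem_nb, mem_univ, true_and, SimpleGraph.sup_adj, SimpleGraph.edge_adj,
      mem_insert] at hy ⊢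
    rcases hy with h | ⟨h | ⟨h, h'⟩, h''⟩
    · exact Or.inr h
    · exact Or.inl h
    · exact absurd h'.symm h''
  · by_cases h2 : x = v
    · subst h2
      refine le_trans (card_le_card (t := insert u (nb T univ x)) ?_)
        ((card_insert_le _ _).trans hv)
      intro y hy
      simp only [mem_nb, mem_univ, true_and, SimpleGraph.sup_adj, SimpleGraph.edge_adj,
        mem_insert] at hy ⊢
      tauto
    · refine le_trans (card_le_card ?_) (hD x)
      intro y hy
      simp only [mem_nb, mem_univ, true_and, SimpleGraph.sup_adj, SimpleGraph.edge_adj] at hy ⊢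
      tauto

/-- Graphs of large girth with many edges and bounded degree (greedy Erdos-Sachs argument). -/
theorem exists_sparse (g D n : ℕ) (hg : 1 ≤ g) : ∃ T : SimpleGraph (Fin n), Sparse g T ∧
    (∀ x, (nb T univ x).card ≤ D) ∧
    (univ.filter (fun x => (nb T univ x).card < D)).card ≤ (D + 1) ^ g := by
  have h0 : Sparse g (⊥ : SimpleGraph (Fin n)) ∧
      ∀ x, (nb (⊥ : SimpleGraph (Fin n)) univ x).card ≤ D := by
    refine ⟨fun S _ w ⟨y, hy, hyw⟩ => ⟨y, hy, hyw, by simp [nb]⟩, fun x => by simp [nb]⟩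
  obtain ⟨T, ⟨h1, h2⟩, hm⟩ := exists_maximal_of_wellFoundedGT
    (fun T : SimpleGraph (Fin n) => Sparse g T ∧ ∀ x, (nb T univ x).card ≤ D) ⟨⊥, h0⟩
  refine ⟨T, h1, h2, ?_⟩
  rcases (univ.filter (fun x => (nb T univ x).card < D)).eq_empty_or_nonempty with
    h | ⟨u, hu⟩
  · rw [h]; simp
  · refine le_trans (card_le_card ?_) (ball_card T D h2 u g)
    intro v hv
    by_contra hb
    have hu' := (mem_filter.1 hu).2
    have hv' := (mem_filter.1 hv).2
    have := hm ⟨add_edge g T h1 u v hb, add_deg T D h2 u v hu' hv'⟩ le_sup_left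
    apply hb
    apply ball_mono T u hg
    by_cases e : u = v
    · subst e; simp [ball]
    · have h3 : T.Adj u v := this (Or.inr (by rw [SimpleGraph.edge_adj]; tauto))
      simp [ball, h3, mem_nb]

theorem exists_dense (g k : ℕ) : ∃ n, g < n ∧ ∃ T : SimpleGraph (Fin n), Sparse g T ∧
    k * n ≤ T.edgeSet.ncard := by
  set m := (4 * k + 1 + 1) ^ (g + 1) with hm
  have hmg : g < m := lt_of_lt_of_le (lt_trans (Nat.lt_succ_self g) (Nat.lt_two_pow_self))
    (Nat.pow_le_pow_left (by omega) _)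
  obtain ⟨T, h1, -, h3⟩ := exists_sparse (g + 1) (4 * k + 1) (2 * m) (by omega)
  refine ⟨2 * m, by omega, T, fun S hS => h1 S (by omega), ?_⟩
  have e := T.sum_degrees_eq_twice_card_edges
  have e2 : T.edgeSet.ncard = T.edgeFinset.card := by
    rw [← SimpleGraph.coe_edgeFinset, Set.ncard_coe_finset]
  have e3 : ∀ x, T.degree x = (nb T univ x).card := by
    intro x
    rw [← SimpleGraph.card_neighborFinset_eq_degree, SimpleGraph.neighborFinset_eq_filter]
    rfl
  have h4 := card_filter_add_card_filter_not (s := (univ : Finset (Fin (2 * m))))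
    (fun x => (nb T univ x).card < 4 * k + 1)
  simp only [card_univ, Fintype.card_fin] at h4
  have h5 : (univ.filter (fun x => ¬ (nb T univ x).card < 4 * k + 1)).card * (4 * k + 1)
      ≤ ∑ x, T.degree x := by
    calc _ = ∑ _x ∈ univ.filter (fun x => ¬ (nb T univ x).card < 4 * k + 1), (4 * k + 1) := by
          simp
      _ ≤ ∑ x ∈ univ.filter (fun x => ¬ (nb T univ x).card < 4 * k + 1), T.degree x :=
          sum_le_sum fun x hx => by rw [e3]; exact not_lt.1 (mem_filter.1 hx).2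
      _ ≤ _ := sum_le_sum_of_subset (filter_subset _ _)
  rw [← hm] at h3
  rw [e2]
  have h6 : m ≤ (univ.filter (fun x => ¬ (nb T univ x).card < 4 * k + 1)).card := by omega
  have h7 := Nat.mul_le_mul_right (4 * k + 1) h6
  nlinarith

end Pool.Agent.Lib.LeadGirth
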