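import Mathlib

set_option autoImplicit false

namespace LeadLam

section defs
variable {Λ X : Type} [AddCommGroup Λ] [LinearOrder Λ] [IsOrderedAddMonoid Λ]

/-- `S` is a segment with endpoints `x` and `y`: the image of an isometric embedding of a closed
interval `[a, b]` of `Λ` sending `a` to `x` and `b` to `y`. -/
def IsSeg (d : X → X → Λ) (S : Set X) (x y : X) : Prop :=
  ∃ (a b : Λ) (f : Λ → X), a ≤ b ∧
    (∀ s ∈ Set.Icc a b, ∀ t ∈ Set.Icc a b, d (f s) (f t) = |s - t|) ∧
    f a = x ∧ f b = y ∧ S = f '' Set.Icc a b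

/-- `S` is a segment and `x` is one of its endpoints. -/
def IsEnd (d : X → X → Λ) (S : Set X) (x : X) : Prop :=
  ∃ y, IsSeg d S x y ∨ IsSeg d S y x

/-- `(X, d)` is a `Λ`-tree. -/
structure IsTree (d : X → X → Λ) : Prop where
  nonneg : ∀ x y, 0 ≤ d x y
  eq_zero : ∀ x y, d x y = 0 ↔ x = y
  symm : ∀ x y, d x y = d y x
  triangle : ∀ x y z, d x z ≤ d x y + d y z
  seg : ∀ x y, ∃ S, IsSeg d S x y
  inter : ∀ S T x, IsEnd d S x → IsEnd d T x → ∃ u v, IsSeg d (S ∩ T) u v
  union : ∀ S T x, IsEnd d S x → IsEnd d T x → S ∩ T = {x} → ∃ u v, IsSeg d (S ∪ T) u v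

end defs

/-- `G` acts freely (by isometries, without fixed points and without inversions) on some
nonempty `Λ`-tree, for some ordered abelian group `Λ`. -/
def TreeFree (G : Type) [Group G] : Prop :=
  ∃ (Λ : Type) (_ : AddCommGroup Λ) (_ : LinearOrder Λ) (_ : IsOrderedAddMonoid Λ)
    (X : Type) (d : X → X → Λ) (_ : MulAction G X), Nonempty X ∧ IsTree d ∧
    (∀ (g : G) (x y : X), d (g • x) (g • y) = d x y) ∧
    (∀ (g : G) (x : X), g • x = x → g = 1) ∧
    (∀ g : G, (∃ x : X, (g * g) • x = x) → ∃ x : X, g • x = x)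

section fo
variable {Λ X : Type} [AddCommGroup Λ] [LinearOrder Λ] [IsOrderedAddMonoid Λ]

structure FO (d : X → X → Λ) : Prop where
  nonneg : ∀ x y, 0 ≤ d x y
  eq_zero : ∀ x y, d x y = 0 ↔ x = y
  symm : ∀ x y, d x y = d y x
  triangle : ∀ x y z, d x z ≤ d x y + d y z
  ex : ∀ x y t, 0 ≤ t → t ≤ d x y → ∃ z, d x z = t ∧ d x z + d z y = d x y
  uniq : ∀ x y z z', d x z + d z y = d x y → d x z' + d z' y = d x y → d x z = d x z' → z = z'
  med : ∀ x y z, ∃ m, d x m + d m y = d x y ∧ d x m + d m z = d x z ∧ d y m + d m z = d y z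

variable {d : X → X → Λ}

def iv (d : X → X → Λ) (x y : X) : Set X := {m | d x m + d m y = d x y}

lemma FO.self (h : FO d) (x : X) : d x x = 0 := (h.eq_zero x x).2 rfl

lemma FO.iv_comm (h : FO d) (x y : X) : iv d x y = iv d y x := by
  ext m
  simp only [iv, Set.mem_setOf_eq]
  rw [h.symm y m, h.symm m x, h.symm y x, add_comm]

lemma FO.trans (h : FO d) {x y m p : X} (hm : m ∈ iv d x y) (hp : p ∈ iv d x m) :
    p ∈ iv d x y := by
  simp only [iv, Set.mem_setOf_eq] at *
  have h1 := h.triangle p m y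
  have h2 := h.triangle x p y
  apply le_antisymm _ h2
  calc d x p + d p y ≤ d x p + (d p m + d m y) := by gcongr
    _ = d x y := by rw [← add_assoc, hp, hm]

lemma FO.order (h : FO d) {x y m p : X} (hm : m ∈ iv d x y) (hp : p ∈ iv d x y)
    (hle : d x p ≤ d x m) : p ∈ iv d x m := by
  obtain ⟨w, h1, h2⟩ := h.ex x m _ (h.nonneg x p) hle
  have := h.uniq x y w p (h.trans hm h2) hp h1
  exact this ▸ h2

lemma FO.seg_iv (h : FO d) (x y : X) : IsSeg d (iv d x y) x y := by
  classical
  have hz : ∀ t, ∃ z, t ∈ Set.Icc 0 (d x y) → d x z = t ∧ z ∈ iv d x y := by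
    intro t
    by_cases ht : t ∈ Set.Icc 0 (d x y)
    · obtain ⟨z, hz⟩ := h.ex x y t ht.1 ht.2
      exact ⟨z, fun _ => hz⟩
    · exact ⟨x, fun h => absurd h ht⟩
  choose f hf using hz
  have key : ∀ s ∈ Set.Icc 0 (d x y), ∀ t ∈ Set.Icc 0 (d x y), s ≤ t →
      d (f s) (f t) = t - s := by
    intro s hs t ht hst
    have := h.order (hf t ht).2 (hf s hs).2 (by rw [(hf s hs).1, (hf t ht).1]; exact hst)
    simp only [iv, Set.mem_setOf_eq, (hf s hs).1, (hf t ht).1] at this
    exact eq_sub_of_add_eq' this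
  have h0 : (0 : Λ) ∈ Set.Icc 0 (d x y) := ⟨le_rfl, h.nonneg x y⟩
  have h1 : d x y ∈ Set.Icc 0 (d x y) := ⟨h.nonneg x y, le_rfl⟩
  refine ⟨0, d x y, f, h.nonneg x y, fun s hs t ht => ?_, ?_, ?_, ?_⟩
  · rcases le_total s t with hst | hst
    · rw [key s hs t ht hst, abs_sub_comm, abs_of_nonneg (sub_nonneg.2 hst)]
    · rw [h.symm, key t ht s hs hst, abs_of_nonneg (sub_nonneg.2 hst)]
  · exact ((h.eq_zero _ _).1 (hf 0 h0).1).symm
  · have := (hf _ h1).2
    simp only [iv, Set.mem_setOf_eq, (hf _ h1).1, add_eq_left] at this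
    exact (h.eq_zero _ _).1 this
  · ext m
    constructor
    · intro hm
      have ht : d x m ∈ Set.Icc 0 (d x y) := ⟨h.nonneg _ _, by
        rw [← show d x m + d m y = d x y from hm]
        exact le_add_of_nonneg_right (h.nonneg _ _)⟩
      exact ⟨_, ht, h.uniq x y _ _ (hf _ ht).2 hm (hf _ ht).1⟩
    · rintro ⟨t, ht, rfl⟩
      exact (hf t ht).2

lemma FO.eq_iv (h : FO d) {S : Set X} {x y : X} (hS : IsSeg d S x y) : S = iv d x y := by
  obtain ⟨a, b, f, hab, hf, rfl, rfl, rfl⟩ := hS
  have ha : a ∈ Set.Icc a b := ⟨le_rfl, hab⟩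
  have hb : b ∈ Set.Icc a b := ⟨hab, le_rfl⟩
  have e1 : ∀ s ∈ Set.Icc a b, d (f a) (f s) = s - a := fun s hs => by
    rw [hf a ha s hs, abs_sub_comm, abs_of_nonneg (sub_nonneg.2 hs.1)]
  have e2 : ∀ s ∈ Set.Icc a b, d (f s) (f b) = b - s := fun s hs => by
    rw [hf s hs b hb, abs_sub_comm, abs_of_nonneg (sub_nonneg.2 hs.2)]
  have e3 : ∀ s ∈ Set.Icc a b, f s ∈ iv d (f a) (f b) := fun s hs => by
    simp only [iv, Set.mem_setOf_eq]
    rw [e1 s hs, e2 s hs, e1 b hb]; abel
  ext m
  constructor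
  · rintro ⟨s, hs, rfl⟩
    exact e3 s hs
  · intro hm
    have ht : a + d (f a) m ∈ Set.Icc a b := ⟨le_add_of_nonneg_right (h.nonneg _ _), by
      have h1 : d (f a) m + d m (f b) = b - a := by rw [← e1 b hb]; exact hm
      have h2 := h.nonneg m (f b)
      have : b = a + d (f a) m + d m (f b) := by rw [add_assoc, h1]; abel
      exact (le_add_of_nonneg_right h2).trans this.ge⟩
    exact ⟨_, ht, h.uniq _ _ _ _ (e3 _ ht) hm (by rw [e1 _ ht]; abel)⟩

lemma FO.end_iv (h : FO d) {S : Set X} {x : X} (hS : IsEnd d S x) : ∃ y, S = iv d x y := by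
  obtain ⟨y, hS | hS⟩ := hS
  · exact ⟨y, h.eq_iv hS⟩
  · exact ⟨y, (h.eq_iv hS).trans (h.iv_comm _ _)⟩

lemma FO.inter_iv (h : FO d) {x y z m : X} (h1 : m ∈ iv d x y) (h2 : m ∈ iv d x z)
    (h3 : m ∈ iv d y z) : iv d x y ∩ iv d x z = iv d x m := by
  ext p
  refine ⟨fun ⟨p1, p2⟩ => ?_, fun hp => ⟨h.trans h1 hp, h.trans h2 hp⟩⟩
  rcases le_or_gt (d x p) (d x m) with hle | hlt
  · exact h.order h1 p1 hle
  · exfalso
    simp only [iv, Set.mem_setOf_eq] at *
    have t := h.triangle y p z
    rw [h.symm y m] at h3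
    rw [h.symm y p] at t
    have a1 : d p y < d m y := by
      have : d x p + d p y = d x m + d m y := p1.trans h1.symm
      by_contra hc
      exact absurd this (ne_of_gt (add_lt_add_of_lt_of_le hlt (not_lt.1 hc)))
    have a2 : d p z < d m z := by
      have : d x p + d p z = d x m + d m z := p2.trans h2.symm
      by_contra hc
      exact absurd this (ne_of_gt (add_lt_add_of_lt_of_le hlt (not_lt.1 hc)))
    exact absurd (t.trans_lt (add_lt_add a1 a2)) (by rw [h3]; exact lt_irrefl _)

theorem FO.isTree (h : FO d) : IsTree d where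
  nonneg := h.nonneg
  eq_zero := h.eq_zero
  symm := h.symm
  triangle := h.triangle
  seg x y := ⟨_, h.seg_iv x y⟩
  inter S T x hS hT := by
    obtain ⟨y, rfl⟩ := h.end_iv hS
    obtain ⟨z, rfl⟩ := h.end_iv hT
    obtain ⟨m, h1, h2, h3⟩ := h.med x y z
    exact ⟨x, m, by rw [h.inter_iv h1 h2 h3]; exact h.seg_iv x m⟩
  union S T x hS hT hx := by
    obtain ⟨y, rfl⟩ := h.end_iv hS
    obtain ⟨z, rfl⟩ := h.end_iv hT
    obtain ⟨m, h1, h2, h3⟩ := h.med x y z
    have : m ∈ ({x} : Set X) := hx ▸ ⟨h1, h2⟩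
    obtain rfl : m = x := this
    refine ⟨y, z, ?_⟩
    have e : iv d m y ∪ iv d m z = iv d y z := by
      have h3' : m ∈ iv d z y := by rw [h.iv_comm]; exact h3
      ext p
      constructor
      · rintro (hp | hp)
        · exact h.trans h3 (by rw [h.iv_comm]; exact hp)
        · rw [h.iv_comm]
          exact h.trans h3' (by rw [h.iv_comm]; exact hp)
      · intro hp
        rcases le_total (d y p) (d y m) with hle | hle
        · left
          rw [h.iv_comm]
          exact h.order h3 hp hle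
        · right
          rw [h.iv_comm]
          refine h.order h3' (by rw [h.iv_comm]; exact hp) ?_
          simp only [iv, Set.mem_setOf_eq] at hp h3
          rw [h.symm z p, h.symm z m]
          by_contra hc
          exact absurd (hp.trans h3.symm) (ne_of_gt (add_lt_add_of_le_of_lt hle (not_le.1 hc)))
    rw [e]
    exact h.seg_iv y z

end fo

/-! ### the Cayley tree of a free group -/

section free
open FreeGroup
variable {A : Type} [DecidableEq A]

lemma norm_red {L : List (A × Bool)} (h : IsReduced L) : norm (mk L) = L.length := by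
  rw [FreeGroup.norm, toWord_mk, h.reduce_eq]

lemma toWord_of_add {z y : FreeGroup A} (h : norm z + norm y = norm (z * y)) :
    (z * y).toWord = z.toWord ++ y.toWord := by
  have e : z * y = mk (z.toWord ++ y.toWord) := by rw [← mul_mk, mk_toWord, mk_toWord]
  have h1 : (z * y).toWord = reduce (z.toWord ++ y.toWord) := by rw [e, toWord_mk]
  have h2 := (reduce.red (L := z.toWord ++ y.toWord)).sublist
  rw [h1]
  apply h2.eq_of_length
  rw [← h1, List.length_append]
  exact h.symm

lemma lcp {α : Type} : ∀ u v : List α, ∃ p u' v', u = p ++ u' ∧ v = p ++ v' ∧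
    ∀ a ∈ u'.head?, ∀ b ∈ v'.head?, a ≠ b
  | [], v => ⟨[], [], v, rfl, rfl, by simp⟩
  | a :: u, [] => ⟨[], a :: u, [], rfl, rfl, by simp⟩
  | a :: u, b :: v => by
    by_cases h : a = b
    · obtain ⟨p, u', v', h1, h2, h3⟩ := lcp u v
      exact ⟨a :: p, u', v', by rw [h1]; rfl, by rw [h2, h]; rfl, h3⟩
    · exact ⟨[], a :: u, b :: v, rfl, rfl, by simpa using h⟩

omit [DecidableEq A] in
lemma red_invRev {L : List (A × Bool)} (h : IsReduced L) : IsReduced (invRev L) := by
  classical
  rw [isReduced_iff_reduce_eq] at h ⊢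
  rw [reduce_invRev, h]

def dF (x y : FreeGroup A) : ℤ := norm (x⁻¹ * y)

lemma split_norm {y : FreeGroup A} {p u : List (A × Bool)} (h : y.toWord = p ++ u) :
    norm (mk p) = p.length ∧ (mk p)⁻¹ * y = mk u ∧ norm (mk u) = u.length ∧
      norm y = p.length + u.length := by
  have hr : IsReduced (p ++ u) := h ▸ isReduced_toWord
  refine ⟨norm_red (List.isChain_append.1 hr).1, ?_, norm_red (List.isChain_append.1 hr).2.1, ?_⟩
  · rw [← mk_toWord (x := y), h, ← mul_mk, inv_mul_cancel_left]
  · rw [FreeGroup.norm, h, List.length_append]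

theorem fo_free : FO (dF (A := A)) where
  nonneg x y := by simp [dF]
  eq_zero x y := by simp [dF, FreeGroup.norm_eq_zero, inv_mul_eq_one]
  symm x y := by
    simp only [dF]
    rw [← norm_inv_eq]; simp
  triangle x y z := by
    have := norm_mul_le (x⁻¹ * y) (y⁻¹ * z)
    simp only [dF]
    rw [show x⁻¹ * y * (y⁻¹ * z) = x⁻¹ * z by group] at this
    exact_mod_cast this
  ex x y t h0 h1 := by
    obtain ⟨n, rfl⟩ := Int.eq_ofNat_of_zero_le h0
    simp only [dF, Nat.cast_le] at h1
    obtain ⟨a1, a2, a3, a4⟩ :=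
      split_norm (List.take_append_drop n (x⁻¹ * y).toWord).symm
    refine ⟨x * mk ((x⁻¹ * y).toWord.take n), ?_, ?_⟩
    · simp only [dF, inv_mul_cancel_left, a1, List.length_take]
      exact congrArg _ (min_eq_left h1)
    · simp only [dF, inv_mul_cancel_left, mul_inv_rev, mul_assoc]
      rw [a2, a1, a3, a4]
      push_cast; rfl
  uniq x y z z' h1 h2 h3 := by
    simp only [dF] at h1 h2 h3
    have e1 := toWord_of_add (z := x⁻¹ * z) (y := z⁻¹ * y) (by
      rw [show x⁻¹ * z * (z⁻¹ * y) = x⁻¹ * y by group]; exact_mod_cast h1)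
    have e2 := toWord_of_add (z := x⁻¹ * z') (y := z'⁻¹ * y) (by
      rw [show x⁻¹ * z' * (z'⁻¹ * y) = x⁻¹ * y by group]; exact_mod_cast h2)
    rw [show x⁻¹ * z * (z⁻¹ * y) = x⁻¹ * y by group] at e1
    rw [show x⁻¹ * z' * (z'⁻¹ * y) = x⁻¹ * y by group] at e2
    have := List.append_inj_left (e1.symm.trans e2) (by exact_mod_cast h3)
    simpa using toWord_injective this
  med x y z := by
    obtain ⟨p, u, v, h1, h2, h3⟩ := lcp (x⁻¹ * y).toWord (x⁻¹ * z).toWord
    obtain ⟨a1, a2, a3, a4⟩ := split_norm h1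
    obtain ⟨-, b2, b3, b4⟩ := split_norm h2
    have r1 : IsReduced u := 
      (List.isChain_append.1 (h1 ▸ isReduced_toWord : IsReduced (p ++ u))).2.1
    have r2 : IsReduced v := 
      (List.isChain_append.1 (h2 ▸ isReduced_toWord : IsReduced (p ++ v))).2.1
    have r3 : IsReduced (invRev u ++ v) := by
      refine List.isChain_append.2 ⟨red_invRev r1, r2, ?_⟩
      intro a ha b hb hab
      cases u with
      | nil => simp [invRev] at ha
      | cons c u =>
        have := h3 c (by simp) b hb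
        simp [invRev] at ha
        subst ha
        obtain ⟨c1, c2⟩ := c
        obtain ⟨b1, b2⟩ := b
        simp only at hab
        subst hab
        cases c2 <;> cases b2 <;> simp_all
    have e : y⁻¹ * z = mk (invRev u ++ v) := by
      rw [← mul_mk, ← inv_mk, ← a2, ← b2]; group
    have e' : y⁻¹ * (x * mk p) = (mk u)⁻¹ := by rw [← a2]; group
    refine ⟨x * mk p, ?_, ?_, ?_⟩
    · simp only [dF, inv_mul_cancel_left, mul_inv_rev, mul_assoc]
      rw [a2, a1, a3, a4]; push_cast; rfl
    · simp only [dF, inv_mul_cancel_left, mul_inv_rev, mul_assoc]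
      rw [b2, a1, b3, b4]; push_cast; rfl
    · simp only [dF, mul_inv_rev, mul_assoc]
      rw [b2, e', e, norm_inv_eq, a3, b3, norm_red r3]
      simp

end free

/-! ### ultrapowers -/

section ultra
open Filter
variable {X : Type} (U : Ultrafilter ℕ) {d : X → X → ℤ}

def dU (d : X → X → ℤ) : Germ (U : Filter ℕ) X → Germ (U : Filter ℕ) X → Germ (U : Filter ℕ) ℤ :=
  Germ.map₂ d

lemma dU_coe (x y : ℕ → X) :
    dU U d (x : Germ (U : Filter ℕ) X) y = ((fun i => d (x i) (y i) : ℕ → ℤ) : Germ _ ℤ) := rfl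

theorem fo_ultra (h : FO d) : FO (dU U d) where
  nonneg x y := by
    induction x using Germ.inductionOn
    induction y using Germ.inductionOn
    rw [dU_coe]
    exact Eventually.of_forall fun i => h.nonneg _ _
  eq_zero x y := by
    induction x using Germ.inductionOn
    induction y using Germ.inductionOn
    rw [dU_coe, ← Germ.coe_zero, Germ.coe_eq, Germ.coe_eq]
    exact eventually_congr (Eventually.of_forall fun i => h.eq_zero _ _)
  symm x y := by
    induction x using Germ.inductionOn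
    induction y using Germ.inductionOn
    simp only [dU_coe, h.symm]
  triangle x y z := by
    induction x using Germ.inductionOn
    induction y using Germ.inductionOn
    induction z using Germ.inductionOn
    simp only [dU_coe, ← Germ.coe_add]
    exact Eventually.of_forall fun i => h.triangle _ _ _
  ex x y t h0 h1 := by
    induction x using Germ.inductionOn with | _ x => ?_
    induction y using Germ.inductionOn with | _ y => ?_
    induction t using Germ.inductionOn with | _ t => ?_
    have hz : ∀ i, ∃ z, 0 ≤ t i → t i ≤ d (x i) (y i) →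
        d (x i) z = t i ∧ d (x i) z + d z (y i) = d (x i) (y i) := by
      intro i
      by_cases h2 : 0 ≤ t i ∧ t i ≤ d (x i) (y i)
      · obtain ⟨z, hz⟩ := h.ex _ _ _ h2.1 h2.2
        exact ⟨z, fun _ _ => hz⟩
      · exact ⟨x i, fun a b => absurd ⟨a, b⟩ h2⟩
    choose z hz using hz
    have h0 : ∀ᶠ i in U, 0 ≤ t i := h0
    have h1 : ∀ᶠ i in U, t i ≤ d (x i) (y i) := h1
    refine ⟨z, ?_, ?_⟩ <;> simp only [dU_coe, ← Germ.coe_add, Germ.coe_eq] <;>
      filter_upwards [h0, h1] with i a b
    · exact (hz i a b).1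
    · exact (hz i a b).2
  uniq x y z z' h1 h2 h3 := by
    induction x using Germ.inductionOn
    induction y using Germ.inductionOn
    induction z using Germ.inductionOn
    induction z' using Germ.inductionOn
    simp only [dU_coe, ← Germ.coe_add, Germ.coe_eq] at *
    filter_upwards [h1, h2, h3] with i a b c
    exact h.uniq _ _ _ _ a b c
  med x y z := by
    induction x using Germ.inductionOn with | _ x => ?_
    induction y using Germ.inductionOn with | _ y => ?_
    induction z using Germ.inductionOn with | _ z => ?_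
    choose m hm using fun i => h.med (x i) (y i) (z i)
    refine ⟨m, ?_, ?_, ?_⟩ <;> simp only [dU_coe, ← Germ.coe_add, Germ.coe_eq]
    · exact Eventually.of_forall fun i => (hm i).1
    · exact Eventually.of_forall fun i => (hm i).2.1
    · exact Eventually.of_forall fun i => (hm i).2.2

theorem treeFree_sub {A : Type} (G : Subgroup (Germ (U : Filter ℕ) (FreeGroup A))) :
    TreeFree G := by
  classical
  have tf : ∀ g : Germ (U : Filter ℕ) (FreeGroup A), g * g = 1 → g = 1 := by
    intro g hg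
    induction g using Germ.inductionOn
    rw [← Germ.coe_mul, ← Germ.coe_one, Germ.coe_eq] at hg
    rw [← Germ.coe_one, Germ.coe_eq]
    filter_upwards [hg] with i hi
    exact (pow_eq_one_iff_left two_ne_zero).1 (by rw [pow_two]; exact hi)
  refine ⟨Germ (U : Filter ℕ) ℤ, inferInstance, inferInstance, inferInstance,
    Germ (U : Filter ℕ) (FreeGroup A), dU U dF, inferInstance, ⟨1⟩,
    (fo_ultra U fo_free).isTree, ?_, ?_, ?_⟩
  · rintro ⟨g, hg⟩ x y
    change dU U dF (g * x) (g * y) = _
    clear hg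
    induction g using Germ.inductionOn
    induction x using Germ.inductionOn
    induction y using Germ.inductionOn
    simp only [dU_coe, ← Germ.coe_mul]
    congr 1
    funext i
    simp [dF, mul_assoc]
  · intro g x h
    exact Subtype.ext (mul_eq_right.1 h)
  · rintro g ⟨x, h⟩
    have h1 : (g : Germ (U : Filter ℕ) (FreeGroup A)) * g = 1 := mul_eq_right.1 h
    exact ⟨1, by change (g : Germ (U : Filter ℕ) (FreeGroup A)) * 1 = 1; rw [tf _ h1, one_mul]⟩

end ultra

end LeadLam
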