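import Mathlib
import Pool.Agent.Lib.lead.LamTree
import Pool.Agent.Lib.lead.FG

set_option autoImplicit false

namespace LeadLam
open Filter Polynomial LeadFG

abbrev F4 := FreeGroup (Fin 4)

def ph (c : Fin 4) (g : F4) : ℤ := Multiplicative.toAdd (chi c g)

@[simp] lemma ph_mul (c : Fin 4) (g h : F4) : ph c (g * h) = ph c g + ph c h := by simp [ph]
@[simp] lemma ph_one (c : Fin 4) : ph c 1 = 0 := by simp [ph]
@[simp] lemma ph_inv (c : Fin 4) (g : F4) : ph c g⁻¹ = - ph c g := by simp [ph]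
@[simp] lemma ph_zpow (c : Fin 4) (g : F4) (n : ℤ) : ph c (g ^ n) = n * ph c g := by simp [ph]
@[simp] lemma ph_pow (c : Fin 4) (g : F4) (n : ℕ) : ph c (g ^ n) = n * ph c g := by simp [ph]
@[simp] lemma ph_of (c a : Fin 4) : ph c (FreeGroup.of a) = if a = c then 1 else 0 := by
  simp only [ph, chi, FreeGroup.lift_apply_of]
  split_ifs <;> rfl

lemma eq_pow_of_comm {c : Fin 4} {g h : F4} (hg : ph c g = 1) (hc : h * g = g * h) :
    h = g ^ ph c h := by
  obtain ⟨z, ⟨i, hi⟩, ⟨j, hj⟩, -⟩ := lyndon (p := h) (q := g) (r := h * g)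
    ((Commute.mul_pow hc 2).symm)
  simp only at hi hj
  subst hi hj
  rw [ph_zpow] at hg
  rw [ph_zpow, ← zpow_mul]
  congr 1
  linear_combination (-i) * hg

def Big {H : Type} [Group H] (g : H) : Prop :=
  ∃ h, h * g = g * h ∧ (¬ ∃ s, s * s = h) ∧ ¬ ∃ s, s * s = h * g

noncomputable abbrev UU : Filter ℕ := (hyperfilter ℕ : Filter ℕ)

lemma poly_eq {p q : ℤ[X]} (h : ∀ᶠ i : ℕ in UU, p.eval (i : ℤ) = q.eval (i : ℤ)) : p = q := by
  apply eq_of_infinite_eval_eq
  have h1 : {i : ℕ | p.eval (i : ℤ) = q.eval (i : ℤ)}.Infinite := fun hf =>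
    hf.notMem_hyperfilter h
  refine (h1.image (f := fun i : ℕ => (i : ℤ)) (Nat.cast_injective.injOn)).mono ?_
  rintro _ ⟨i, hi, rfl⟩
  exact hi

variable (V : ℕ → Fin 4 → ℤ)

def Adm (p : Fin 4 → ℤ[X]) : Prop := ∀ j, 1 ≤ j → ∃ m : ℤ, ∀ c, (p c).coeff j = m * V j c

def GG : Subgroup (Germ UU F4) where
  carrier := {γ | ∃ (s : ℕ → F4) (p : Fin 4 → ℤ[X]), γ = s ∧ Adm V p ∧
    ∀ i c, ph c (s i) = (p c).eval (i : ℤ)}
  one_mem' := ⟨1, 0, rfl, fun j _ => ⟨0, by simp⟩, by simp⟩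
  mul_mem' := by
    rintro _ _ ⟨s, p, rfl, h1, h2⟩ ⟨s', p', rfl, h1', h2'⟩
    refine ⟨s * s', p + p', rfl, fun j hj => ?_, by simp [h2, h2']⟩
    obtain ⟨m, hm⟩ := h1 j hj
    obtain ⟨m', hm'⟩ := h1' j hj
    exact ⟨m + m', fun c => by simp [hm, hm', add_mul]⟩
  inv_mem' := by
    rintro _ ⟨s, p, rfl, h1, h2⟩
    refine ⟨s⁻¹, -p, rfl, fun j hj => ?_, by simp [h2]⟩
    obtain ⟨m, hm⟩ := h1 j hj
    exact ⟨-m, fun c => by simp [hm]⟩

noncomputable def io : F4 →* GG V where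
  toFun g := ⟨((fun _ => g : ℕ → F4) : Germ UU F4), fun _ => g, fun c => C (ph c g), rfl,
    fun j hj => ⟨0, fun c => by rw [coeff_C, if_neg (by omega), zero_mul]⟩, by simp⟩
  map_one' := rfl
  map_mul' _ _ := rfl

variable {V}

lemma comm_ev {g : F4} {s : ℕ → F4} {hs : (s : Germ UU F4) ∈ GG V}
    (h : (⟨s, hs⟩ : GG V) * io V g = io V g * ⟨s, hs⟩) : ∀ᶠ i in UU, s i * g = g * s i :=
  Germ.coe_eq.1 (congrArg Subtype.val h)

lemma eq_io {c : Fin 4} {g : F4} (hg : ph c g = 1) {s : ℕ → F4} {hs : (s : Germ UU F4) ∈ GG V}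
    (h : ∀ᶠ i in UU, s i * g = g * s i) {p : ℤ[X]} (hp : ∀ i, ph c (s i) = p.eval (i : ℤ))
    (h0 : ∀ j, 1 ≤ j → p.coeff j = 0) : ∃ n : ℤ, (⟨s, hs⟩ : GG V) = io V (g ^ n) := by
  have : p = C (p.coeff 0) := by
    ext j
    rw [coeff_C]
    split_ifs with hj
    · rw [hj]
    · exact h0 j (by omega)
  refine ⟨p.coeff 0, Subtype.ext (Germ.coe_eq.2 ?_)⟩
  filter_upwards [h] with i hi
  rw [eq_pow_of_comm hg hi, hp, this]
  simp

lemma cent (hV : ∀ j, V j = 0 ∨ V j 0 = 1) {c : Fin 4} (hc : c ≠ 0) (h : GG V)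
    (hh : h * io V (.of c) = io V (.of c) * h) : ∃ n : ℤ, h = io V (.of c ^ n) := by
  obtain ⟨_, s, p, rfl, h1, h2⟩ := h
  have e := comm_ev hh
  have hg : ph c (.of c) = 1 := by simp
  refine eq_io hg e (fun i => h2 i c) fun j hj => ?_
  have p0 : p 0 = 0 := by
    apply poly_eq
    filter_upwards [e] with i hi
    rw [← h2, eq_pow_of_comm hg hi]
    simp [hc]
  obtain ⟨m, hm⟩ := h1 j hj
  rcases hV j with h | h
  · simp [hm, h]
  · have := hm 0
    rw [p0, h] at this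
    simp at this
    simp [hm, ← this]

lemma big_iff (hV : ∀ j, V j = 0 ∨ V j 0 = 1) {g : F4} (hg : ph 0 g = 1) :
    Big (io V g) ↔ ∃ j, 1 ≤ j ∧ V j = fun c => ph c g := by
  constructor
  · rintro ⟨⟨_, s, p, rfl, h1, h2⟩, hc, n1, n2⟩
    by_contra hn
    have e := comm_ev hc
    have pc : ∀ c, p c = p 0 * C (ph c g) := by
      intro c
      apply poly_eq
      filter_upwards [e] with i hi
      rw [eval_mul, eval_C, ← h2, ← h2]
      nth_rw 1 [eq_pow_of_comm hg hi]
      simp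
    obtain ⟨n, hn'⟩ := eq_io (hs := ⟨s, p, rfl, h1, h2⟩) hg e (fun i => h2 i 0) fun j hj => by
      obtain ⟨m, hm⟩ := h1 j hj
      rcases hV j with h | h
      · simp [hm, h]
      · have h3 := hm 0
        rw [h, mul_one] at h3
        by_contra hm0
        refine hn ⟨j, hj, funext fun c => ?_⟩
        have := hm c
        rw [pc c, coeff_mul_C, h3] at this
        exact (mul_left_cancel₀ (h3 ▸ hm0) this).symm
    rw [hn'] at n1 n2
    rcases Int.even_or_odd' n with ⟨k, rfl | rfl⟩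
    · exact n1 ⟨io V (g ^ k), by rw [← map_mul, ← zpow_add, two_mul]⟩
    · refine n2 ⟨io V (g ^ (k + 1)), ?_⟩
      rw [← map_mul, ← map_mul, ← zpow_add, ← zpow_add_one]
      congr 2; ring
  · rintro ⟨j, hj, hv⟩
    have mem : ((fun i : ℕ => g ^ ((i : ℤ) ^ j) : ℕ → F4) : Germ UU F4) ∈ GG V := by
      refine ⟨_, fun c => C (ph c g) * X ^ j, rfl, fun k _ => ?_, fun i c => by simp [mul_comm]⟩
      by_cases hk : k = j
      · exact ⟨1, fun c => by simp [hk, hv]⟩
      · exact ⟨0, fun c => by simp [coeff_X_pow, hk]⟩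
    refine ⟨⟨_, mem⟩, Subtype.ext (Germ.coe_eq.2 (Eventually.of_forall fun i => ?_)), ?_, ?_⟩
    · exact ((Commute.refl g).zpow_left _).eq
    · rintro ⟨⟨_, s, p, rfl, h1, h2⟩, hs⟩
      have e : ∀ᶠ i : ℕ in UU, s i * s i = g ^ ((i : ℤ) ^ j) :=
        Germ.coe_eq.1 (congrArg Subtype.val hs)
      have : p 0 + p 0 = X ^ j := by
        apply poly_eq
        filter_upwards [e] with i hi
        have := congrArg (ph 0) hi
        simpa [h2, hg] using this
      have := congrArg (fun q => q.coeff j) this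
      simp only [coeff_add, coeff_X_pow, if_true] at this
      omega
    · rintro ⟨⟨_, s, p, rfl, h1, h2⟩, hs⟩
      have e : ∀ᶠ i : ℕ in UU, s i * s i = g ^ ((i : ℤ) ^ j) * g :=
        Germ.coe_eq.1 (congrArg Subtype.val hs)
      have : p 0 + p 0 = X ^ j + 1 := by
        apply poly_eq
        filter_upwards [e] with i hi
        have := congrArg (ph 0) hi
        simpa [h2, hg] using this
      have := congrArg (fun q => q.coeff j) this
      simp only [coeff_add, coeff_X_pow, if_true, coeff_one, if_neg (show j ≠ 0 by omega)] at this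
      omega

/-- For every set `R` of integer triples there is a tree-free group defining `R`. -/
theorem exists_grp (R : ℤ → ℤ → ℤ → Prop) :
    ∃ (G : Type) (_ : Group G) (u w x y : G), TreeFree G ∧
      (∀ s, s * x = x * s → ∃ n : ℤ, s = x ^ n) ∧ (∀ s, s * y = y * s → ∃ n : ℤ, s = y ^ n) ∧
      ∀ t a b : ℤ, Big (u * w ^ t * x ^ a * y ^ b) ↔ R t a b := by
  classical
  obtain ⟨e, he⟩ := exists_surjective_nat (ℤ × ℤ × ℤ)
  let V : ℕ → Fin 4 → ℤ := fun j =>
    if R (e (j - 1)).1 (e (j - 1)).2.1 (e (j - 1)).2.2 then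
      ![1, (e (j - 1)).1, (e (j - 1)).2.1, (e (j - 1)).2.2] else 0
  have hV : ∀ j, V j = 0 ∨ V j 0 = 1 := by
    intro j
    simp only [V]
    split_ifs
    · exact .inr rfl
    · exact .inl rfl
  refine ⟨GG V, inferInstance, io V (.of 0), io V (.of 1), io V (.of 2), io V (.of 3),
    treeFree_sub (hyperfilter ℕ) _, fun s hs => ?_, fun s hs => ?_, fun t a b => ?_⟩
  · simpa only [map_zpow] using cent hV (by decide) s hs
  · simpa only [map_zpow] using cent hV (by decide) s hs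
  · simp only [← map_zpow, ← map_mul]
    rw [big_iff hV (by simp)]
    have : (fun c => ph c (FreeGroup.of 0 * FreeGroup.of 1 ^ t * FreeGroup.of 2 ^ a *
        FreeGroup.of 3 ^ b)) = ![1, t, a, b] := by
      funext c
      fin_cases c <;> simp
    rw [this]
    constructor
    · rintro ⟨j, -, hj⟩
      simp only [V] at hj
      split_ifs at hj with h
      · have h1 := congrFun hj 1
        have h2 := congrFun hj 2
        have h3 := congrFun hj 3
        simp at h1 h2 h3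
        rwa [h1, h2, h3] at h
      · simpa using congrFun hj 0
    · intro h
      obtain ⟨j, hj⟩ := he (t, a, b)
      exact ⟨j + 1, by omega, by simp [V, hj, h]⟩

end LeadLam
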