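import Mathlib
import Pool.Agent.Lib.lead.LamGrp
import Pool.Agent.Lib.lead.RegM

set_option autoImplicit false

namespace LeadGrpFO

/-- Terms of the language of groups. -/
inductive Tm : Type
  | var (n : ℕ)
  | one
  | mul (s t : Tm)
  | inv (s : Tm)

/-- First-order formulas of the language of groups. -/
inductive Fm : Type
  | eq (s t : Tm)
  | not (φ : Fm)
  | and (φ ψ : Fm)
  | imp (φ ψ : Fm)
  | all (i : ℕ) (φ : Fm)
  | ex (i : ℕ) (φ : Fm)

/-- Goedel numbering of terms. -/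
def Tm.code : Tm → ℕ
  | .var n => Nat.pair 0 n
  | .one => Nat.pair 1 0
  | .mul s t => Nat.pair 2 (Nat.pair s.code t.code)
  | .inv s => Nat.pair 3 s.code

/-- Goedel numbering of formulas. -/
def Fm.code : Fm → ℕ
  | .eq s t => Nat.pair 0 (Nat.pair s.code t.code)
  | .not φ => Nat.pair 1 φ.code
  | .and φ ψ => Nat.pair 2 (Nat.pair φ.code ψ.code)
  | .imp φ ψ => Nat.pair 3 (Nat.pair φ.code ψ.code)
  | .all i φ => Nat.pair 4 (Nat.pair i φ.code)
  | .ex i φ => Nat.pair 5 (Nat.pair i φ.code)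

/-- The variable `n` occurs in the term. -/
def Tm.Occ (n : ℕ) : Tm → Prop
  | .var m => m = n
  | .one => False
  | .mul s t => s.Occ n ∨ t.Occ n
  | .inv s => s.Occ n

/-- The variable `n` is free in the formula. -/
def Fm.Free (n : ℕ) : Fm → Prop
  | .eq s t => s.Occ n ∨ t.Occ n
  | .not φ => φ.Free n
  | .and φ ψ => φ.Free n ∨ ψ.Free n
  | .imp φ ψ => φ.Free n ∨ ψ.Free n
  | .all i φ => i ≠ n ∧ φ.Free n
  | .ex i φ => i ≠ n ∧ φ.Free n

/-- Value of a term in a group under an assignment. -/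
def Tm.eval {G : Type} [Group G] (ρ : ℕ → G) : Tm → G
  | .var n => ρ n
  | .one => 1
  | .mul s t => s.eval ρ * t.eval ρ
  | .inv s => (s.eval ρ)⁻¹

/-- Satisfaction of a formula in a group under an assignment. -/
def Fm.Sat {G : Type} [Group G] : Fm → (ℕ → G) → Prop
  | .eq s t, ρ => s.eval ρ = t.eval ρ
  | .not φ, ρ => ¬ φ.Sat ρ
  | .and φ ψ, ρ => φ.Sat ρ ∧ ψ.Sat ρ
  | .imp φ ψ, ρ => φ.Sat ρ → ψ.Sat ρ
  | .all i φ, ρ => ∀ a, φ.Sat (Function.update ρ i a)
  | .ex i φ, ρ => ∃ a, φ.Sat (Function.update ρ i a)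

lemma Tm.code_inj : Function.Injective Tm.code := by
  intro s
  induction s with
  | var n => intro t h; cases t <;> simp_all [Tm.code]
  | one => intro t h; cases t <;> simp_all [Tm.code]
  | mul a b iha ihb =>
    intro t h
    cases t <;> simp [Tm.code] at h
    rw [iha h.1, ihb h.2]
  | inv a ih =>
    intro t h
    cases t <;> simp [Tm.code] at h
    rw [ih h]

lemma Fm.code_inj : Function.Injective Fm.code := by
  intro φ
  induction φ with
  | eq s t =>
    intro ψ h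
    cases ψ <;> simp [Fm.code] at h
    rw [Tm.code_inj h.1, Tm.code_inj h.2]
  | not a ih =>
    intro ψ h
    cases ψ <;> simp [Fm.code] at h
    rw [ih h]
  | and a b iha ihb =>
    intro ψ h
    cases ψ <;> simp [Fm.code] at h
    rw [iha h.1, ihb h.2]
  | imp a b iha ihb =>
    intro ψ h
    cases ψ <;> simp [Fm.code] at h
    rw [iha h.1, ihb h.2]
  | all i a ih =>
    intro ψ h
    cases ψ <;> simp [Fm.code] at h
    rw [h.1, ih h.2]
  | ex i a ih =>
    intro ψ h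
    cases ψ <;> simp [Fm.code] at h
    rw [h.1, ih h.2]

open LeadLam LeadReg

def pw (t : Tm) : ℕ → Tm
  | 0 => .one
  | n + 1 => .mul t (pw t n)

def cfg (tag a b c d : ℕ) : Tm :=
  .mul (.mul (.mul (.var 0) (pw (.var 1) tag)) (.mul (pw (.var 4) a) (pw (.var 2) b)))
    (.mul (pw (.var 5) c) (pw (.var 3) d))

def big (g : Tm) : Fm := .ex 6 (.and (.eq (.mul (.var 6) g) (.mul g (.var 6)))
  (.and (.not (.ex 7 (.eq (.mul (.var 7) (.var 7)) (.var 6))))
    (.not (.ex 7 (.eq (.mul (.var 7) (.var 7)) (.mul (.var 6) g))))))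

def guard (φ : Fm) : Fm := .all 4 (.all 5
  (.imp (.eq (.mul (.var 4) (.var 2)) (.mul (.var 2) (.var 4)))
    (.imp (.eq (.mul (.var 5) (.var 3)) (.mul (.var 3) (.var 5)))
      (.imp (big (cfg 0 1 0 1 0)) φ))))

def conj : List Fm → Fm
  | [] => .eq .one .one
  | φ :: L => .and φ (conj L)

section
variable {Q : Type} (cd : Option Q → ℕ)

def axI (i : Ins Q) : Fm := guard (.imp (big (cfg (cd i.dst) i.c1 i.d1 i.c2 i.d2))
  (big (cfg (cd (some i.src)) i.a1 i.b1 i.a2 i.b2)))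

def psi (L : List (Ins Q)) : Fm :=
  .and (big (cfg 0 0 0 0 0)) (.and (guard (.and (big (cfg 0 1 1 1 0)) (big (cfg 0 1 0 1 1))))
    (.and (guard (big (cfg (cd none) 1 0 1 0))) (conj (L.map (axI cd)))))

def close (φ : Fm) : Fm := .all 0 (.all 1 (.all 2 (.all 3 (.all 4 (.all 5 φ)))))

def phi (L : List (Ins Q)) (q0 : Q) (m : ℕ) : Fm :=
  close (.imp (psi cd L) (big (cfg (cd (some q0)) 0 0 0 m)))

variable {G : Type} [Group G]

@[simp] lemma eval_pw (ρ : ℕ → G) (t : Tm) (n : ℕ) : (pw t n).eval ρ = t.eval ρ ^ n := by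
  induction n with
  | zero => simp [pw, Tm.eval]
  | succ n ih => simp [pw, Tm.eval, ih, pow_succ']

def B (u w x y s t : G) (tag a b c d : ℕ) : Prop :=
  Big (u * w ^ tag * (s ^ a * x ^ b) * (t ^ c * y ^ d))

lemma sat_big (ρ : ℕ → G) (tag a b c d : ℕ) : (big (cfg tag a b c d)).Sat ρ ↔
    B (ρ 0) (ρ 1) (ρ 2) (ρ 3) (ρ 4) (ρ 5) tag a b c d := by
  simp [big, cfg, Fm.Sat, Tm.eval, B, Big]

lemma sat_guard (ρ : ℕ → G) (φ : Fm) : (guard φ).Sat ρ ↔ ∀ s t, s * ρ 2 = ρ 2 * s →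
    t * ρ 3 = ρ 3 * t → B (ρ 0) (ρ 1) (ρ 2) (ρ 3) s t 0 1 0 1 0 →
      φ.Sat (Function.update (Function.update ρ 4 s) 5 t) := by
  simp [guard, Fm.Sat, Tm.eval, sat_big]

lemma sat_conj (ρ : ℕ → G) (L : List Fm) : (conj L).Sat ρ ↔ ∀ φ ∈ L, φ.Sat ρ := by
  induction L with
  | nil => simp [conj, Fm.Sat]
  | cons φ L ih => simp [conj, Fm.Sat, ih]

def Psi (L : List (Ins Q)) (u w x y : G) : Prop :=
  B u w x y 1 1 0 0 0 0 0 ∧
  (∀ s t, s * x = x * s → t * y = y * t → B u w x y s t 0 1 0 1 0 →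
    B u w x y s t 0 1 1 1 0 ∧ B u w x y s t 0 1 0 1 1) ∧
  (∀ s t, s * x = x * s → t * y = y * t → B u w x y s t 0 1 0 1 0 →
    B u w x y s t (cd none) 1 0 1 0) ∧
  ∀ i ∈ L, ∀ s t, s * x = x * s → t * y = y * t → B u w x y s t 0 1 0 1 0 →
    B u w x y s t (cd i.dst) i.c1 i.d1 i.c2 i.d2 → B u w x y s t (cd (some i.src)) i.a1 i.b1 i.a2 i.b2

lemma sat_psi (ρ : ℕ → G) (L : List (Ins Q)) :
    (psi cd L).Sat ρ ↔ Psi cd L (ρ 0) (ρ 1) (ρ 2) (ρ 3) := by
  simp only [psi, Fm.Sat, sat_conj, List.forall_mem_map, axI, sat_guard, sat_big, Psi]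
  simp [B]

lemma sat_phi (ρ : ℕ → G) (L : List (Ins Q)) (q0 : Q) (m : ℕ) : (phi cd L q0 m).Sat ρ ↔
    ∀ u w x y : G, Psi cd L u w x y → B u w x y 1 1 (cd (some q0)) 0 0 0 m := by
  simp only [phi, close, Fm.Sat, sat_psi, sat_big]
  simp [B]

lemma occ_pw (k : ℕ) (t : Tm) (n : ℕ) (h : (pw t n).Occ k) : t.Occ k := by
  induction n with
  | zero => exact h.elim
  | succ n ih => exact h.elim id ih

lemma free_big (k tag a b c d : ℕ) (h : (big (cfg tag a b c d)).Free k) : k ≤ 5 := by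
  have : (cfg tag a b c d).Occ k → k ≤ 5 := by
    rintro ((((h | h) | h | h)) | h | h) <;>
      first | (have := occ_pw _ _ _ h; simp only [Tm.Occ] at this; omega)
            | (simp only [Tm.Occ] at h; omega)
  by_cases h1 : (cfg tag a b c d).Occ k
  · exact this h1
  · simp only [big, Fm.Free, Tm.Occ, h1, or_false, false_or] at h
    omega

lemma free_guard (k : ℕ) (φ : Fm) (hφ : φ.Free k → k ≤ 5) (h : (guard φ).Free k) : k ≤ 5 := by
  simp only [guard, Fm.Free, Tm.Occ] at h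
  obtain ⟨-, -, h | h | h | h⟩ := h
  · omega
  · omega
  · exact free_big _ _ _ _ _ _ h
  · exact hφ h

lemma free_phi (L : List (Ins Q)) (q0 : Q) (m k : ℕ) : ¬ (phi cd L q0 m).Free k := by
  have h1 : (conj (L.map (axI cd))).Free k → k ≤ 5 := by
    induction L with
    | nil => simp [conj, Fm.Free, Tm.Occ]
    | cons i L ih =>
      rintro (h | h)
      · refine free_guard _ _ ?_ h
        rintro (h | h) <;> exact free_big _ _ _ _ _ _ h
      · exact ih h
  rintro ⟨a0, a1, a2, a3, a4, a5, h⟩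
  have : k ≤ 5 := by
    rcases h with (h | h | h | h) | h
    · exact free_big _ _ _ _ _ _ h
    · refine free_guard _ _ ?_ h
      rintro (h | h) <;> exact free_big _ _ _ _ _ _ h
    · exact free_guard _ _ (free_big _ _ _ _ _ _) h
    · exact h1 h
    · exact free_big _ _ _ _ _ _ h
  omega

def PT (F : ℕ → Tm) : Prop := Primrec fun n => (F n).code
def PFm (F : ℕ → Fm) : Prop := Primrec fun n => (F n).code

lemma pp (a : ℕ) {f g : ℕ → ℕ} (hf : Primrec f) (hg : Primrec g) :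
    Primrec fun n => Nat.pair a (Nat.pair (f n) (g n)) :=
  Primrec₂.natPair.comp (Primrec.const a) (Primrec₂.natPair.comp hf hg)

lemma PT.const (t : Tm) : PT fun _ => t := Primrec.const _
lemma PT.mul {F F' : ℕ → Tm} (h : PT F) (h' : PT F') : PT fun n => .mul (F n) (F' n) :=
  (pp 2 h h').of_eq fun _ => by rw [Tm.code]
lemma PT.pw (t : Tm) : PT fun n => pw t n := by
  obtain ⟨c, hc⟩ : ∃ c, c = t.code := ⟨_, rfl⟩
  have h6 : Primrec fun n => (fun r => Nat.pair 2 (Nat.pair c r))^[n] (Nat.pair 1 0) :=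
    Primrec.nat_iterate Primrec.id (Primrec.const _)
      ((pp 2 (Primrec.const c) Primrec.id).comp Primrec.snd).to₂
  refine h6.of_eq fun n => ?_
  induction n with
  | zero => rfl
  | succ n ih =>
    rw [Function.iterate_succ_apply', ih, hc]
    simp only [LeadGrpFO.pw, Tm.code]
lemma PFm.const (t : Fm) : PFm fun _ => t := Primrec.const _
lemma PFm.eq {F F' : ℕ → Tm} (h : PT F) (h' : PT F') : PFm fun n => .eq (F n) (F' n) :=
  (pp 0 h h').of_eq fun _ => by rw [Fm.code]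
lemma PFm.not {F : ℕ → Fm} (h : PFm F) : PFm fun n => .not (F n) :=
  (Primrec₂.natPair.comp (Primrec.const 1) h).of_eq fun _ => by rw [Fm.code]
lemma PFm.and {F F' : ℕ → Fm} (h : PFm F) (h' : PFm F') : PFm fun n => .and (F n) (F' n) :=
  (pp 2 h h').of_eq fun _ => by rw [Fm.code]
lemma PFm.imp {F F' : ℕ → Fm} (h : PFm F) (h' : PFm F') : PFm fun n => .imp (F n) (F' n) :=
  (pp 3 h h').of_eq fun _ => by rw [Fm.code]
lemma PFm.all (i : ℕ) {F : ℕ → Fm} (h : PFm F) : PFm fun n => .all i (F n) :=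
  (pp 4 (Primrec.const i) h).of_eq fun _ => by rw [Fm.code]
lemma PFm.ex (i : ℕ) {F : ℕ → Fm} (h : PFm F) : PFm fun n => .ex i (F n) :=
  (pp 5 (Primrec.const i) h).of_eq fun _ => by rw [Fm.code]

lemma prim_phi (L : List (Ins Q)) (q0 : Q) : PFm (phi cd L q0) := by
  have h : PT fun m => cfg (cd (some q0)) 0 0 0 m :=
    .mul (.const _) (.mul (.const _) (.pw _))
  exact .all _ (.all _ (.all _ (.all _ (.all _ (.all _ (.imp (.const _) (.ex _ (.and
    (.eq (.mul (.const _) h) (.mul h (.const _))) (.and (.const _)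
      (.not (.ex _ (.eq (.const _) (.mul (.const _) h)))))))))))))

lemma B_pow (u w x y : G) (m k : ℤ) (tag a b c d : ℕ) :
    B u w x y (x ^ m) (y ^ k) tag a b c d ↔
      Big (u * w ^ (tag : ℤ) * x ^ (a * m + b : ℤ) * y ^ (c * k + d : ℤ)) := by
  unfold B
  rw [zpow_add, zpow_add, mul_comm (a : ℤ), mul_comm (c : ℤ), zpow_mul, zpow_mul]
  simp only [zpow_natCast, mul_assoc]

lemma valid_of_acc {I : Set (Ins Q)} {L : List (Ins Q)} (hL : ∀ i ∈ I, i ∈ L) {u w x y : G}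
    (h : Psi cd L u w x y) {s : Option Q × ℕ × ℕ} (hs : Acc I s) :
    Big (u * w ^ (cd s.1 : ℤ) * x ^ (s.2.1 : ℤ) * y ^ (s.2.2 : ℤ)) := by
  obtain ⟨h0, h1, h2, h3⟩ := h
  have cx : ∀ (x : G) (m : ℤ), x ^ m * x = x * x ^ m := fun x m =>
    ((Commute.refl x).zpow_left m).eq
  have nn : ∀ a b : ℕ, B u w x y (x ^ (a : ℤ)) (y ^ (b : ℤ)) 0 1 0 1 0 := by
    intro a b
    induction a with
    | zero =>
      induction b with
      | zero => simpa [B] using h0
      | succ b ih =>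
        have := (h1 _ _ (cx _ _) (cx _ _) ih).2
        rw [B_pow] at this ⊢
        simpa using this
    | succ a ih =>
      have := (h1 _ _ (cx _ _) (cx _ _) ih).1
      rw [B_pow] at this ⊢
      simpa using this
  obtain ⟨a, b, hs⟩ := hs
  induction hs using Relation.ReflTransGen.head_induction_on with
  | refl =>
    have := h2 _ _ (cx _ _) (cx _ _) (nn a b)
    rw [B_pow] at this
    simpa using this
  | head h _ ih =>
    obtain ⟨i, hi, p, q, rfl, rfl⟩ := h
    have := h3 i (hL i hi) _ _ (cx _ _) (cx _ _) (nn p q) (by rw [B_pow]; exact_mod_cast ih)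
    rw [B_pow] at this
    exact_mod_cast this

end

/-- Any class of groups that, for each set of integer triples, contains a group defining it
has an undecidable theory. -/
theorem undec (K : ∀ (G : Type) [Group G], Prop)
    (hK : ∀ R : ℤ → ℤ → ℤ → Prop, ∃ (G : Type) (_ : Group G) (u w x y : G), K G ∧
      (∀ s, s * x = x * s → ∃ n : ℤ, s = x ^ n) ∧ (∀ s, s * y = y * s → ∃ n : ℤ, s = y ^ n) ∧
      ∀ t a b : ℤ, Big (u * w ^ t * x ^ a * y ^ b) ↔ R t a b) :
    ¬ ∃ g : ℕ → Bool, Computable g ∧ ∀ φ : Fm, (∀ n, ¬ φ.Free n) →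
      (g φ.code = true ↔ ∀ (G : Type) [Group G], K G → ∀ ρ : ℕ → G, φ.Sat ρ) := by
  obtain ⟨Q, fQ, I, q0, f, hI, hf, hu⟩ := exists_reg
  obtain ⟨N, ⟨e⟩⟩ := Finite.exists_equiv_fin (Option Q)
  let cd : Option Q → ℕ := fun o => e o + 1
  have hi : Function.Injective cd := fun a b h =>
    e.injective (Fin.ext (by simp only [cd] at h; omega))
  have hp : ∀ o, cd o ≠ 0 := fun o => by simp [cd]
  let L := hI.toFinset.toList
  have hL : ∀ i, i ∈ L ↔ i ∈ I := fun i => by simp [L]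
  obtain ⟨G, _, u, w, x, y, hG, cx, cy, hR⟩ := hK fun t a b => ∃ a' b' : ℕ, a = a' ∧ b = b' ∧
    (t = 0 ∨ ∃ o, t = cd o ∧ Acc I (o, a', b'))
  have hR' : ∀ (o : Option Q) (a b : ℕ),
      Big (u * w ^ (cd o : ℤ) * x ^ (a : ℤ) * y ^ (b : ℤ)) ↔ Acc I (o, a, b) := by
    intro o a b
    rw [hR]
    constructor
    · rintro ⟨a', b', h1, h2, h | ⟨o', h3, h⟩⟩
      · exact absurd (by exact_mod_cast h) (hp o)
      · obtain rfl : a = a' := by exact_mod_cast h1
        obtain rfl : b = b' := by exact_mod_cast h2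
        obtain rfl : o = o' := hi (by exact_mod_cast h3)
        exact h
    · exact fun h => ⟨a, b, rfl, rfl, .inr ⟨o, rfl, h⟩⟩
  have hN : ∀ a b : ℕ, Big (u * w ^ ((0 : ℕ) : ℤ) * x ^ (a : ℤ) * y ^ (b : ℤ)) := fun a b =>
    (hR _ _ _).2 ⟨a, b, rfl, rfl, .inl rfl⟩
  have nat : ∀ s t, s * x = x * s → t * y = y * t → B u w x y s t 0 1 0 1 0 →
      ∃ a b : ℕ, s = x ^ (a : ℤ) ∧ t = y ^ (b : ℤ) := by
    intro s t hs ht h
    obtain ⟨m, rfl⟩ := cx s hs
    obtain ⟨k, rfl⟩ := cy t ht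
    rw [B_pow, hR] at h
    obtain ⟨a, b, h1, h2, -⟩ := h
    exact ⟨a, b, by rw [← h1]; simp, by rw [← h2]; simp⟩
  have hPsi : Psi cd L u w x y := by
    refine ⟨by simpa [B] using hN 0 0, fun s t hs ht h => ?_, fun s t hs ht h => ?_,
      fun i hi s t hs ht h => ?_⟩ <;> obtain ⟨a, b, rfl, rfl⟩ := nat s t hs ht h <;>
      simp only [B_pow]
    · exact ⟨by simpa using hN (a + 1) b, by simpa using hN a (b + 1)⟩
    · simpa using (hR' none a b).2 ⟨a, b, .refl⟩
    · intro h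
      have h1 := (hR' i.dst (i.c1 * a + i.d1) (i.c2 * b + i.d2)).1 (by exact_mod_cast h)
      obtain ⟨x', y', h1⟩ := h1
      have := (hR' (some i.src) (i.a1 * a + i.b1) (i.a2 * b + i.b2)).2
        ⟨x', y', .head ⟨i, (hL i).1 hi, a, b, rfl, rfl⟩ h1⟩
      exact_mod_cast this
  rintro ⟨g, hg, h⟩
  refine hu (ComputablePred.computable_iff.2 ⟨fun n => g (phi cd L q0 (f n)).code,
    hg.comp (Primrec.comp (prim_phi cd L q0) hf).to_comp, funext fun n => propext ?_⟩)
  rw [h _ (free_phi cd L q0 _)]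
  simp only [sat_phi]
  constructor
  · intro ha H _ _ _ u w x y hp
    simpa [B] using valid_of_acc cd (fun i hi => (hL i).2 hi) hp ha
  · intro h
    have := h G hG (fun _ => 1) u w x y hPsi
    exact (hR' (some q0) 0 (f n)).1 (by simpa [B] using this)

end LeadGrpFO
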