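import Mathlib

set_option autoImplicit false

namespace Pool.Agent.Lib.LeadHess

open Matrix

lemma KL (ρ u v s C : ℝ) (p q r : ℤ) (hC : 1 ≤ C) (hs : 20 * C ≤ s) (hB : s ^ 2 = u ^ 2 + v ^ 2)
    (hρ : ρ * s ^ 2 = 1) (hv : 1 / 4 ≤ v ^ 2)
    (h1 : 1 / 2 ≤ |p + q * ρ + r * s ^ 2|) (h2 : |p + q * ρ + r * s ^ 2| < s ^ 2 / 2)
    (h3 : |p + q * ρ + r * s ^ 2| * ((p + q * u + r * ρ * u) ^ 2 + v ^ 2 * (q - r * ρ) ^ 2) < C) :
    q = 0 ∧ r = 0 := by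
  have s0 : 20 ≤ s := by linarith
  have ρ0 : 0 < ρ := by
    by_contra h
    nlinarith [mul_nonneg (neg_nonneg.2 (not_lt.1 h)) (sq_nonneg s)]
  have ρs : ρ * s ≤ 1 / 20 := by nlinarith
  have ρ1 : ρ ≤ 1 := by nlinarith
  have us : |u| ≤ s := abs_le_of_sq_le_sq' (by nlinarith [sq_nonneg v]) (by linarith) |> abs_le.2
  set Z := (p + q * u + r * ρ * u) ^ 2 + v ^ 2 * (q - r * ρ) ^ 2 with hZ
  have Z0 : 0 ≤ Z := by positivity
  have Z1 : Z < 2 * C := by nlinarith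
  have e1 : |(q : ℝ) - r * ρ| ≤ 3 * C := by
    refine abs_le.2 (abs_le_of_sq_le_sq' ?_ (by linarith))
    nlinarith [sq_nonneg (p + q * u + r * ρ * u), mul_le_mul_of_nonneg_right hv (sq_nonneg (q - r * ρ))]
  have e2 : |(p : ℝ) + q * u + r * ρ * u| ≤ 2 * C := by
    refine abs_le.2 (abs_le_of_sq_le_sq' ?_ (by linarith))
    nlinarith [mul_nonneg (sq_nonneg v) (sq_nonneg (q - r * ρ))]
  have e3 : |ρ - u| ≤ 1 + s := (abs_sub _ _).trans (by rw [abs_of_pos ρ0]; linarith)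
  have e4 : |((q : ℝ) - r * ρ) * (ρ - u)| ≤ 3 * C * (1 + s) := by
    rw [abs_mul]
    exact mul_le_mul e1 e3 (abs_nonneg _) (by linarith)
  have e5 : ρ * u ≤ 1 / 20 := le_trans (mul_le_mul_of_nonneg_left (le_abs_self u |>.trans us) ρ0.le) ρs
  have hr : r = 0 := by
    by_contra hr
    have r1 : (1 : ℝ) ≤ |(r : ℝ)| := by exact_mod_cast Int.one_le_abs hr
    have e6 : (r : ℝ) * (s ^ 2 + ρ ^ 2 - 2 * (ρ * u)) =
        (p + q * ρ + r * s ^ 2) - (p + q * u + r * ρ * u) - (q - r * ρ) * (ρ - u) := by ring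
    have e7 : 0 < s ^ 2 + ρ ^ 2 - 2 * (ρ * u) := by nlinarith
    have e8 : |(r : ℝ)| * (s ^ 2 + ρ ^ 2 - 2 * (ρ * u)) ≤ s ^ 2 / 2 + 2 * C + 3 * C * (1 + s) := by
      rw [← abs_of_pos e7, ← abs_mul, e6]
      refine (abs_sub _ _).trans (add_le_add ((abs_sub _ _).trans (add_le_add h2.le e2)) e4)
    have e9 := mul_le_mul_of_nonneg_right r1 e7.le
    nlinarith [sq_nonneg ρ]
  refine ⟨?_, hr⟩
  by_contra hq
  have q1 : (1 : ℝ) ≤ |(q : ℝ)| := by exact_mod_cast Int.one_le_abs hq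
  have q2 : (1 : ℝ) ≤ (q : ℝ) ^ 2 := by nlinarith [sq_abs (q : ℝ)]
  subst hr
  simp only [Int.cast_zero, zero_mul, add_zero, sub_zero] at *
  have f1 : 1 / 4 ≤ Z := by nlinarith [sq_nonneg (p + q * u)]
  have f2 : |(p : ℝ) + q * ρ| ≤ 4 * C := by nlinarith
  have f3 : |(q : ℝ) * ρ| ≤ 3 * C := by
    rw [abs_mul, abs_of_pos ρ0]
    nlinarith [abs_nonneg (q : ℝ)]
  have f4 : |(p : ℝ)| ≤ 7 * C := by
    have : (p : ℝ) = (p + q * ρ) - q * ρ := by ring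
    rw [this]
    exact (abs_sub _ _).trans (by linarith)
  have f5 : -(|(p : ℝ)| * |(q : ℝ)| * s) ≤ p * q * u := by
    have : |(p : ℝ) * q * u| ≤ |(p : ℝ)| * |(q : ℝ)| * s := by
      rw [abs_mul, abs_mul]
      exact mul_le_mul_of_nonneg_left us (by positivity)
    linarith [neg_abs_le ((p : ℝ) * q * u)]
  have f6 : (|(q : ℝ)| * s - |(p : ℝ)|) ^ 2 ≤ Z := by
    have : Z = p ^ 2 + 2 * (p * q * u) + q ^ 2 * s ^ 2 := by rw [hZ, hB]; ring
    rw [this, sub_sq, mul_pow, sq_abs, sq_abs]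
    nlinarith
  have f7 : 13 * C ≤ |(q : ℝ)| * s - |(p : ℝ)| := by nlinarith
  nlinarith

def det3 (x y z : Fin 3 → ℤ) : ℤ :=
  x 0 * (y 1 * z 2 - y 2 * z 1) - x 1 * (y 0 * z 2 - y 2 * z 0) + x 2 * (y 0 * z 1 - y 1 * z 0)

lemma cramer3 (e f g x : Fin 3 → ℤ) :
    det3 e f g • x = det3 x f g • e + det3 e x g • f + det3 e f x • g := by
  funext i
  revert i
  simp only [Fin.forall_fin_succ, IsEmpty.forall_iff, and_true, det3, Pi.add_apply, Pi.smul_apply,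
    smul_eq_mul, Fin.succ_zero_eq_one, Fin.succ_one_eq_two]
  refine ⟨?_, ?_, ?_⟩ <;> ring

def cyc (A : Matrix (Fin 3) (Fin 3) ℤ) (x : Fin 3 → ℤ) : ℤ := det3 x (A *ᵥ x) (A *ᵥ (A *ᵥ x))

def Nf (a b p q r : ℤ) : ℤ :=
  det3 ![p, q, r] ![r - q * b, p + q * a, q] ![q - (p + q * a) * b, r - q * b + (p + q * a) * a, p + q * a]

structure Roots (a b : ℤ) (ρ u v : ℝ) : Prop where
  hv : v ≠ 0
  ha : (a : ℝ) = ρ + 2 * u
  hb : (b : ℝ) = 2 * u * ρ + (u ^ 2 + v ^ 2)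
  hρ : ρ * (u ^ 2 + v ^ 2) = 1

lemma Roots.pos {a b : ℤ} {ρ u v : ℝ} (h : Roots a b ρ u v) : 0 < ρ := by
  by_contra h'
  nlinarith [h.hρ, mul_nonneg (neg_nonneg.2 (not_lt.1 h')) (add_nonneg (sq_nonneg u) (sq_nonneg v))]

lemma Nf_eq {a b : ℤ} {ρ u v : ℝ} (h : Roots a b ρ u v) (p q r : ℤ) : (Nf a b p q r : ℝ) =
    (p + q * ρ + r * (u ^ 2 + v ^ 2)) * ((p + q * u + r * ρ * u) ^ 2 + v ^ 2 * (q - r * ρ) ^ 2) := by
  have h0 : u ^ 2 + v ^ 2 ≠ 0 := fun e => by simpa [e] using h.hρ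
  have e : ρ = 1 / (u ^ 2 + v ^ 2) := by rw [eq_div_iff h0]; exact h.hρ
  simp only [Nf, det3, Matrix.cons_val_zero, Matrix.cons_val_one, Matrix.cons_val]
  push_cast
  rw [h.ha, h.hb, e]
  field_simp
  ring

def e0 : Fin 3 → ℤ := ![1, 0, 0]

theorem ML (A A' : Matrix (Fin 3) (Fin 3) ℤ) (a b : ℤ) (h1 : A * A' = 1)
    (h2 : A * A = a • A - b • (1 : Matrix (Fin 3) (Fin 3) ℤ) + A') {ρ u v : ℝ} (hR : Roots a b ρ u v)
    (hD : 3 ≤ 4 * b - a ^ 2) (hB : 400 * ((|cyc A e0| : ℤ) : ℝ) ^ 6 ≤ u ^ 2 + v ^ 2)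
    (x : Fin 3 → ℤ) (hx : cyc A x ≠ 0) : |cyc A e0| ≤ |cyc A x| := by
  by_contra hlt
  push Not at hlt
  set n := cyc A e0 with hn
  have n1 : 1 ≤ |n| := by have := abs_nonneg (cyc A x); omega
  have n0 : n ≠ 0 := fun e => by simp [e] at n1
  have h1' : A' * A = 1 := mul_eq_one_comm.1 h1
  have h3 : A' * A' = A - a • (1 : Matrix (Fin 3) (Fin 3) ℤ) + b • A' := by
    have := congrArg (A' * ·) h2
    simp only [← mul_assoc, h1', one_mul, mul_add, mul_sub, Matrix.mul_smul, mul_one] at this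
    rw [this]
    abel
  set f1 := A *ᵥ e0 with hf1
  set f2 := A' *ᵥ e0 with hf2
  have g1 : A *ᵥ f1 = a • f1 - b • e0 + f2 := by
    rw [hf1, mulVec_mulVec, h2, add_mulVec, sub_mulVec, smul_mulVec, smul_mulVec, one_mulVec]
  have g2 : A *ᵥ f2 = e0 := by rw [hf2, mulVec_mulVec, h1, one_mulVec]
  have g3 : A' *ᵥ f1 = e0 := by rw [hf1, mulVec_mulVec, h1', one_mulVec]
  have g4 : A' *ᵥ f2 = f1 - a • e0 + b • f2 := by
    rw [hf2, mulVec_mulVec, h3, add_mulVec, sub_mulVec, smul_mulVec, smul_mulVec, one_mulVec]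
  have hn' : n = det3 e0 f1 f2 := by
    rw [hn, cyc, ← hf1, g1]
    simp only [det3, Pi.add_apply, Pi.sub_apply, Pi.smul_apply, smul_eq_mul]
    ring
  let G : ℤ → ℤ → ℤ → Prop := fun p q r => ∃ y : Fin 3 → ℤ, n • y = p • e0 + q • f1 + r • f2
  have T1 : ∀ (p q r : ℤ) (y : Fin 3 → ℤ), n • y = p • e0 + q • f1 + r • f2 →
      n • (A *ᵥ y) = (r - q * b) • e0 + (p + q * a) • f1 + q • f2 := by
    intro p q r y h
    rw [← mulVec_smul, h, mulVec_add, mulVec_add, mulVec_smul, mulVec_smul, mulVec_smul, ← hf1, g1, g2]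
    module
  have T2 : ∀ (p q r : ℤ) (y : Fin 3 → ℤ), n • y = p • e0 + q • f1 + r • f2 →
      n • (A' *ᵥ y) = (q - r * a) • e0 + r • f1 + (p + r * b) • f2 := by
    intro p q r y h
    rw [← mulVec_smul, h, mulVec_add, mulVec_add, mulVec_smul, mulVec_smul, mulVec_smul, ← hf2, g3, g4]
    module
  have c0 : n • x = det3 x f1 f2 • e0 + det3 e0 x f2 • f1 + det3 e0 f1 x • f2 := by
    rw [hn']
    exact cramer3 _ _ _ _
  generalize det3 x f1 f2 = p0 at c0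
  generalize det3 e0 x f2 = q0 at c0
  generalize det3 e0 f1 x = r0 at c0
  have c1 := T1 _ _ _ _ c0
  have c2 := T1 _ _ _ _ c1
  have c3 : n ^ 3 * cyc A x = Nf a b p0 q0 r0 * n := by
    have : n ^ 3 * cyc A x = det3 (n • x) (n • (A *ᵥ x)) (n • (A *ᵥ (A *ᵥ x))) := by
      simp only [cyc, det3, Pi.smul_apply, smul_eq_mul]
      ring
    rw [this, c0, c1, c2, hn']
    simp only [Nf, det3, Pi.add_apply, Pi.smul_apply, smul_eq_mul, Matrix.cons_val_zero,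
      Matrix.cons_val_one, Matrix.cons_val]
    ring
  have c4 : Nf a b p0 q0 r0 = n ^ 2 * cyc A x := by
    apply mul_right_cancel₀ n0
    rw [← c3]
    ring
  have ρ0 := hR.pos
  have hρ := hR.hρ
  have ha := hR.ha
  have hb := hR.hb
  set B := u ^ 2 + v ^ 2 with hBdef
  have key : ∀ j : ℤ, ∃ p q r : ℤ, G p q r ∧ Nf a b p q r = Nf a b p0 q0 r0 ∧
      (p + q * ρ + r * B : ℝ) = B ^ j * (p0 + q0 * ρ + r0 * B) := by
    have B0 : B ≠ 0 := fun e => by simp [e] at hρ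
    intro j
    induction j using Int.induction_on with
    | zero => exact ⟨p0, q0, r0, ⟨x, c0⟩, rfl, by simp⟩
    | succ j ih =>
      obtain ⟨p, q, r, ⟨y, hy⟩, k1, k2⟩ := ih
      refine ⟨_, _, _, ⟨_, T2 _ _ _ _ hy⟩, ?_, ?_⟩
      · rw [← k1]
        simp only [Nf, det3, Matrix.cons_val_zero, Matrix.cons_val_one, Matrix.cons_val]
        ring
      · rw [zpow_add_one₀ B0, mul_right_comm, ← k2]
        push_cast
        rw [ha, hb]
        linear_combination (2 * u * r - q) * hρ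
    | pred j ih =>
      obtain ⟨p, q, r, ⟨y, hy⟩, k1, k2⟩ := ih
      refine ⟨_, _, _, ⟨_, T1 _ _ _ _ hy⟩, ?_, ?_⟩
      · rw [← k1]
        simp only [Nf, det3, Matrix.cons_val_zero, Matrix.cons_val_one, Matrix.cons_val]
        ring
      · have : B⁻¹ = ρ := inv_eq_of_mul_eq_one_left hρ
        rw [zpow_sub_one₀ B0, mul_right_comm, ← k2, this]
        push_cast
        rw [ha, hb]
        linear_combination (-r : ℝ) * hρ
  have N1 : (1 : ℝ) ≤ ((|n| : ℤ) : ℝ) := by exact_mod_cast n1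
  set N : ℝ := ((|n| : ℤ) : ℝ) with hN
  have C1 : 1 ≤ N ^ 3 := one_le_pow₀ N1
  have B1 : 400 ≤ B := by nlinarith
  have w0 : Nf a b p0 q0 r0 ≠ 0 := by rw [c4]; exact mul_ne_zero (pow_ne_zero _ n0) hx
  have w1 : |Nf a b p0 q0 r0| < |n| ^ 3 := by
    rw [c4, abs_mul, abs_pow, pow_succ _ 2]
    exact mul_lt_mul_of_pos_left hlt (by positivity)
  have y0 : 0 < |(p0 + q0 * ρ + r0 * B : ℝ)| := by
    refine abs_pos.2 fun e => w0 ?_
    have := Nf_eq hR p0 q0 r0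
    rw [← hBdef, e, zero_mul] at this
    exact_mod_cast this
  obtain ⟨j, hj1, hj2⟩ := exists_mem_Ico_zpow (x := 2 * |(p0 + q0 * ρ + r0 * B : ℝ)|) (y := B)
    (by positivity) (by linarith)
  obtain ⟨p, q, r, ⟨y, hy⟩, k1, k2⟩ := key (-j)
  have Bp : 0 < B ^ j := zpow_pos (by linarith) _
  have k3 : |(p + q * ρ + r * B : ℝ)| * B ^ j = |(p0 + q0 * ρ + r0 * B : ℝ)| := by
    rw [k2, abs_mul, _root_.zpow_neg, abs_of_pos (inv_pos.2 Bp)]
    field_simp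
  rw [zpow_add_one₀ (by linarith)] at hj2
  have sB : √B ^ 2 = B := Real.sq_sqrt (by linarith)
  have s1 : 20 * N ^ 3 ≤ √B := Real.le_sqrt_of_sq_le (by nlinarith)
  have s2 : u * ρ ≤ 1 / 2 := by
    have : ρ ≤ 1 / 400 := by nlinarith
    nlinarith [sq_nonneg (u - 2), sq_nonneg v]
  have hv : 1 / 4 ≤ v ^ 2 := by
    have : (3 : ℝ) ≤ 4 * b - a ^ 2 := by exact_mod_cast hD
    rw [ha, hb] at this
    nlinarith [sq_nonneg ρ]
  obtain ⟨hq, hr⟩ := KL ρ u v (√B) (N ^ 3) p q r C1 s1 sB (by rw [sB]; exact hρ) hv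
    (by rw [sB]; nlinarith) (by rw [sB]; nlinarith) (by
      have := Nf_eq hR p q r
      rw [sB, ← abs_of_nonneg (a := (p + q * u + r * ρ * u) ^ 2 + v ^ 2 * (q - r * ρ) ^ 2)
        (by positivity), ← abs_mul, hBdef, ← this, k1, hN]
      exact_mod_cast w1)
  subst hq hr
  have z1 : n * y 0 = p := by simpa [e0] using congrFun hy 0
  have z2 : Nf a b p 0 0 = p ^ 3 := by
    simp only [Nf, det3, Matrix.cons_val_zero, Matrix.cons_val_one, Matrix.cons_val]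
    ring
  rw [← k1, z2] at w0 w1
  have y1 : y 0 ≠ 0 := fun e => w0 (by rw [← z1, e]; simp)
  have y2 : |n| ≤ |p| := by
    rw [← z1, abs_mul]
    exact le_mul_of_one_le_right (abs_nonneg _) (Int.one_le_abs y1)
  rw [abs_pow] at w1
  exact absurd (pow_le_pow_left₀ (abs_nonneg _) y2 3) (not_le.2 w1)

end Pool.Agent.Lib.LeadHess
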