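import Mathlib
import Pool.Agent.Lib.lead.Hess

set_option autoImplicit false

namespace Pool.Agent.Lib.LeadHess

open Matrix

theorem ML2 (A A' : Matrix (Fin 3) (Fin 3) ℤ) (a b : ℤ) (h1 : A * A' = 1)
    (h2 : A * A = a • A - b • (1 : Matrix (Fin 3) (Fin 3) ℤ) + A') {ρ u v : ℝ} (hR : Roots a b ρ u v)
    (hB : (400 * ((|cyc A e0| : ℤ) : ℝ) ^ 6) ^ 2 + 400 ≤ u ^ 2 + v ^ 2)
    (x : Fin 3 → ℤ) (hx : cyc A x ≠ 0) : |cyc A e0| ≤ |cyc A x| := by
  set K : ℝ := 400 * ((|cyc A e0| : ℤ) : ℝ) ^ 6 with hK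
  have K0 : 0 ≤ K := by positivity
  have ρ0 := hR.pos
  have hρ := hR.hρ
  have ha := hR.ha
  have hb := hR.hb
  have hv : 0 < v ^ 2 := by have := hR.hv; positivity
  have B1 : 400 ≤ u ^ 2 + v ^ 2 := by nlinarith
  have ρ1 : ρ ≤ 1 / 400 := by nlinarith
  have s1 : (u * ρ) ^ 2 ≤ (1 / 20) ^ 2 := by nlinarith [mul_nonneg (sq_nonneg ρ) hv.le]
  have s2 := abs_le.1 (abs_le_of_sq_le_sq' s1 (by norm_num) |> abs_le.2)
  have D0 : 0 ≤ 4 * b - a ^ 2 := by
    have : (-1 : ℝ) < 4 * b - a ^ 2 := by rw [ha, hb]; nlinarith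
    have : (-1 : ℤ) < 4 * b - a ^ 2 := by exact_mod_cast this
    omega
  by_cases hD : 3 ≤ 4 * b - a ^ 2
  · exact ML A A' a b h1 h2 hR hD (by nlinarith) x hx
  obtain ⟨k, hk, hk'⟩ : ∃ k, a = -2 * k ∧ b = k ^ 2 := by
    rcases Int.even_or_odd' a with ⟨c, rfl | rfl⟩
    · refine ⟨-c, by ring, ?_⟩
      have : (2 * c) ^ 2 = 4 * c ^ 2 := by ring
      have : (-c) ^ 2 = c ^ 2 := by ring
      omega
    · have : (2 * c + 1) ^ 2 = 4 * (c ^ 2 + c) + 1 := by ring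
      omega
  subst hk hk'
  push_cast at ha hb
  have hu : u = -k - ρ / 2 := by linarith
  have hv2 : v ^ 2 = k * ρ + 3 * ρ ^ 2 / 4 := by rw [hu] at hb; linarith
  have k0 : (-1 : ℝ) < k := by nlinarith
  have k1 : K ≤ k := by
    by_contra h
    have : (k : ℝ) ^ 2 ≤ K ^ 2 + 1 := by
      rcases le_total 0 (k : ℝ) with h' | h' <;> nlinarith
    nlinarith
  have k2 : (1 : ℝ) ≤ k := by nlinarith
  have k3 : 1 ≤ k := by exact_mod_cast k2
  have hρ' : ρ * (ρ + k) ^ 2 = 1 := by rw [← hρ, hv2, hu]; ring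
  have h1' : A' * A = 1 := mul_eq_one_comm.1 h1
  have e1 : A' = A * A + (2 * k) • A + k ^ 2 • (1 : Matrix (Fin 3) (Fin 3) ℤ) := by
    rw [h2]; module
  have e2 : A * (A * A) + (2 * k) • (A * A) + k ^ 2 • A = 1 := by
    rw [← h1, e1]
    simp only [mul_add, Matrix.mul_smul, mul_one]
  have g1 : (A * A + k • A) * (A + k • (1 : Matrix (Fin 3) (Fin 3) ℤ)) = 1 := by
    refine Eq.trans ?_ e2
    simp only [mul_add, add_mul, Matrix.mul_smul, Matrix.smul_mul, mul_one, mul_assoc]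
    module
  have g2 : (A * A + k • A) * (A * A + k • A) = A := by
    have : A = A * (A * (A * A) + (2 * k) • (A * A) + k ^ 2 • A) := by rw [e2, mul_one]
    conv_rhs => rw [this]
    simp only [mul_add, add_mul, Matrix.mul_smul, Matrix.smul_mul, mul_one, mul_assoc]
    module
  have g3 : ∀ y, cyc (A * A + k • A) y = -cyc A y := by
    intro y
    rw [cyc, mulVec_mulVec, g2, add_mulVec, smul_mulVec, ← mulVec_mulVec, cyc]
    simp only [det3, Pi.add_apply, Pi.smul_apply, smul_eq_mul]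
    ring
  have R : Roots 0 k (ρ * (ρ + k)) (-(ρ * (ρ + k)) / 2) (v * (ρ + k)) := by
    have B : (-(ρ * (ρ + k)) / 2) ^ 2 + (v * (ρ + k)) ^ 2 = ρ + k := by
      rw [mul_pow v, hv2]
      linear_combination (ρ + k) * hρ'
    refine ⟨mul_ne_zero hR.hv (by linarith), by push_cast; ring, ?_, ?_⟩
    · rw [B]
      linear_combination ρ * hρ'
    · rw [B]
      linear_combination hρ'
  have := ML _ _ 0 k g1 (by rw [g2]; module) R (by omega) (by
    rw [g3, abs_neg, mul_pow v, hv2]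
    nlinarith) x (by rw [g3]; exact neg_ne_zero.2 hx)
  rwa [g3, g3, abs_neg, abs_neg] at this

theorem ML3 (A A' : Matrix (Fin 3) (Fin 3) ℤ) (a b : ℤ) (h1 : A * A' = 1)
    (h2 : A * A = a • A - b • (1 : Matrix (Fin 3) (Fin 3) ℤ) + A') {ρ u v : ℝ} (hR : Roots a b ρ u v)
    (L : ℤ) (hL : L = (400 * |cyc A e0| ^ 6) ^ 2 + 400)
    (x : Fin 3 → ℤ) (hx : cyc A x ≠ 0) (hlt : |cyc A x| < |cyc A e0|) :
    a ∈ Set.Icc (-(3 * L)) (3 * L) ∧ b ∈ Set.Icc (-(3 * L ^ 2)) (3 * L ^ 2) := by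
  have hL' : (L : ℝ) = (400 * ((|cyc A e0| : ℤ) : ℝ) ^ 6) ^ 2 + 400 := by rw [hL]; push_cast; ring
  have L0 : (400 : ℝ) ≤ L := by rw [hL']; nlinarith [sq_nonneg (400 * ((|cyc A e0| : ℤ) : ℝ) ^ 6)]
  have ρ0 := hR.pos
  have hρ := hR.hρ
  have ha := hR.ha
  have hb := hR.hb
  have b1 : u ^ 2 + v ^ 2 < L := by
    by_contra h
    exact absurd (ML2 A A' a b h1 h2 hR (by rw [← hL']; exact not_lt.1 h) x hx) (not_le.2 hlt)
  have b2 : ρ < L := by
    by_contra h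
    have h1' : A' * A = 1 := mul_eq_one_comm.1 h1
    have h3 : A' * A' = b • A' - a • (1 : Matrix (Fin 3) (Fin 3) ℤ) + A := by
      have := congrArg (A' * ·) h2
      simp only [← mul_assoc, h1', one_mul, mul_add, mul_sub, Matrix.mul_smul, mul_one] at this
      rw [this]
      abel
    have e1 : A' = A * A - a • A + b • (1 : Matrix (Fin 3) (Fin 3) ℤ) := by
      rw [h2]; module
    have g3 : ∀ y, cyc A' y = -cyc A y := by
      intro y
      rw [cyc, mulVec_mulVec, h3, add_mulVec, sub_mulVec, smul_mulVec, smul_mulVec, one_mulVec]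
      have : A' *ᵥ y = A *ᵥ (A *ᵥ y) - a • (A *ᵥ y) + b • y := by
        rw [e1, add_mulVec, sub_mulVec, smul_mulVec, smul_mulVec, one_mulVec, mulVec_mulVec]
      rw [this, cyc]
      simp only [det3, Pi.add_apply, Pi.sub_apply, Pi.smul_apply, smul_eq_mul]
      ring
    have B : (u * ρ) ^ 2 + (v * ρ) ^ 2 = ρ := by linear_combination ρ * hρ
    have R : Roots b a (u ^ 2 + v ^ 2) (u * ρ) (v * ρ) := by
      refine ⟨mul_ne_zero hR.hv ρ0.ne', by rw [hb]; ring, ?_, ?_⟩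
      · rw [B, ha]
        linear_combination (-2 * u) * hρ
      · rw [B]
        linear_combination hρ
    have := ML2 A' A b a h1' h3 R (by rw [g3, abs_neg, ← hL', B]; exact not_lt.1 h) x
      (by rw [g3]; exact neg_ne_zero.2 hx)
    rw [g3, g3, abs_neg, abs_neg] at this
    exact absurd this (not_le.2 hlt)
  have u1 := abs_le.1 (abs_le_of_sq_le_sq' (a := u) (b := L) (by nlinarith [sq_nonneg v]) (by linarith)
    |> abs_le.2)
  have c1 : -(3 * L : ℝ) ≤ a ∧ (a : ℝ) ≤ 3 * L := by rw [ha]; constructor <;> linarith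
  have c2 : -(3 * L ^ 2 : ℝ) ≤ b ∧ (b : ℝ) ≤ 3 * L ^ 2 := by
    rw [hb]
    constructor <;> nlinarith [sq_nonneg u, sq_nonneg v]
  exact ⟨⟨by exact_mod_cast c1.1, by exact_mod_cast c1.2⟩, by exact_mod_cast c2.1,
    by exact_mod_cast c2.2⟩

lemma roots_of (a b : ℤ) (τ : ℂ) (h : τ.im ≠ 0) (h0 : τ ^ 3 - a * τ ^ 2 + b * τ - 1 = 0) :
    Roots a b (a - 2 * τ.re) τ.re τ.im := by
  have r := congrArg Complex.re h0
  have i := congrArg Complex.im h0
  simp [pow_succ] at r i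
  have hb : (b : ℝ) = 2 * τ.re * (a - 2 * τ.re) + (τ.re ^ 2 + τ.im ^ 2) := by
    apply mul_left_cancel₀ h
    linear_combination i
  refine ⟨h, by ring, hb, ?_⟩
  rw [hb] at r
  linear_combination r

lemma det3_mul (P : Matrix (Fin 3) (Fin 3) ℤ) (x y z : Fin 3 → ℤ) :
    det3 (P *ᵥ x) (P *ᵥ y) (P *ᵥ z) = P.det * det3 x y z := by
  simp only [det3, mulVec, dotProduct, Fin.sum_univ_three, det_fin_three]
  ring

lemma cyc_conj (M M' P : Matrix (Fin 3) (Fin 3) ℤ) (h : M * P = P * M') (x : Fin 3 → ℤ) :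
    cyc M (P *ᵥ x) = P.det * cyc M' x := by
  have : ∀ y, M *ᵥ (P *ᵥ y) = P *ᵥ (M' *ᵥ y) := fun y => by rw [mulVec_mulVec, h, mulVec_mulVec]
  rw [cyc, this, this, det3_mul, cyc]

lemma cyc_e0 (M : Matrix (Fin 3) (Fin 3) ℤ) (h : M 2 0 = 0) : cyc M e0 = M 1 0 ^ 2 * M 2 1 := by
  simp [cyc, det3, mulVec, dotProduct, Fin.sum_univ_three, e0, h]
  ring

def sb (M : Matrix (Fin 3) (Fin 3) ℤ) : ℤ :=
  M 0 0 * M 1 1 - M 0 1 * M 1 0 + (M 0 0 * M 2 2 - M 0 2 * M 2 0) + (M 1 1 * M 2 2 - M 1 2 * M 2 1)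

lemma CH (M : Matrix (Fin 3) (Fin 3) ℤ) :
    M * M = (M 0 0 + M 1 1 + M 2 2) • M - sb M • (1 : Matrix (Fin 3) (Fin 3) ℤ) + M.adjugate := by
  ext i j
  rw [adjugate_fin_three]
  simp only [sb, Matrix.mul_apply, Fin.sum_univ_three, Matrix.add_apply, Matrix.sub_apply,
    Matrix.smul_apply, smul_eq_mul]
  fin_cases i <;> fin_cases j <;> simp <;> ring

lemma root_eq (M : Matrix (Fin 3) (Fin 3) ℤ) (hd : M.det = 1) (τ : ℂ)
    (h : (M.charpoly.map (Int.castRingHom ℂ)).IsRoot τ) :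
    τ ^ 3 - (M 0 0 + M 1 1 + M 2 2 : ℤ) * τ ^ 2 + sb M * τ - 1 = 0 := by
  rw [← charpoly_map, Polynomial.IsRoot, eval_charpoly, det_fin_three] at h
  rw [det_fin_three] at hd
  have hd' := congrArg (Int.cast : ℤ → ℂ) hd
  simp [sb] at h hd' ⊢
  linear_combination h + hd'

end Pool.Agent.Lib.LeadHess
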