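import Mathlib

set_option autoImplicit false

namespace LeadMRDP
open Dioph Nat

theorem digit_lemma (B : ℕ) (k : ℕ) : ∀ (c : ℕ → ℕ) (N : ℕ), (∀ i, c i < B) →
    (∑ i ∈ Finset.range N, c i * B ^ i) / B ^ k % B = if k < N then c k else 0 := by
  induction k with
  | zero =>
    intro c N hc
    cases N with
    | zero => simp
    | succ M =>
      rw [Finset.sum_range_succ']
      have : ∑ i ∈ Finset.range M, c (i + 1) * B ^ (i + 1)
          = B * ∑ i ∈ Finset.range M, c (i + 1) * B ^ i := by
        rw [Finset.mul_sum]; refine Finset.sum_congr rfl fun i _ => by ring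
      rw [this]
      simp [Nat.mod_eq_of_lt (hc 0)]
  | succ k ih =>
    intro c N hc
    have hB : 0 < B := lt_of_le_of_lt (Nat.zero_le _) (hc 0)
    cases N with
    | zero => simp
    | succ M =>
      rw [Finset.sum_range_succ']
      have : ∑ i ∈ Finset.range M, c (i + 1) * B ^ (i + 1)
          = B * ∑ i ∈ Finset.range M, c (i + 1) * B ^ i := by
        rw [Finset.mul_sum]; refine Finset.sum_congr rfl fun i _ => by ring
      rw [this, pow_succ', ← Nat.div_div_eq_div_mul]
      have h2 : (B * ∑ i ∈ Finset.range M, c (i + 1) * B ^ i + c 0 * B ^ 0) / B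
          = ∑ i ∈ Finset.range M, c (i + 1) * B ^ i := by
        rw [pow_zero, mul_one, Nat.mul_add_div hB, Nat.div_eq_of_lt (hc 0), add_zero]
      rw [h2, ih (fun i => c (i + 1)) M (fun i => hc _)]
      simp

theorem choose_formula (n k : ℕ) :
    n.choose k = (2 ^ n + 1 + 1) ^ n / (2 ^ n + 1) ^ k % (2 ^ n + 1) := by
  have h : (2 ^ n + 1 + 1) ^ n
      = ∑ i ∈ Finset.range (n + 1), n.choose i * (2 ^ n + 1) ^ i := by
    rw [add_pow]; refine Finset.sum_congr rfl fun i _ => by simp [mul_comm]
  rw [h, digit_lemma _ k (fun i => n.choose i) (n + 1)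
    (fun i => Nat.lt_succ_of_le (Nat.choose_le_two_pow n i))]
  split_ifs with h1
  · rfl
  · exact Nat.choose_eq_zero_of_lt (by omega)

theorem pow_add_le (s n m : ℕ) : (s + n) ^ (m + 1) ≤ s ^ (m + 1) + (m + 1) * n * (s + n) ^ m := by
  induction m with
  | zero => simp
  | succ m ih =>
    have h1 : s ^ (m + 1) ≤ (s + n) ^ (m + 1) := Nat.pow_le_pow_left (Nat.le_add_right _ _) _
    calc (s + n) ^ (m + 1 + 1) = (s + n) * (s + n) ^ (m + 1) := by ring
      _ ≤ (s + n) * (s ^ (m + 1) + (m + 1) * n * (s + n) ^ m) := Nat.mul_le_mul_left _ ih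
      _ = s ^ (m + 1 + 1) + n * s ^ (m + 1) + (m + 1) * n * (s + n) ^ (m + 1) := by ring
      _ ≤ s ^ (m + 1 + 1) + n * (s + n) ^ (m + 1) + (m + 1) * n * (s + n) ^ (m + 1) := by
        gcongr
      _ = _ := by ring

theorem factorial_formula_aux (n r : ℕ) (hr : (n ! + 1) * (n * n) + n < r) :
    n ! = r ^ n / r.choose n := by
  symm
  have hn : n ≤ r := by omega
  have hc : 0 < r.choose n := Nat.choose_pos hn
  rw [Nat.div_eq_iff hc]
  have h1 : n ! * r.choose n ≤ r ^ n := by
    rw [← Nat.descFactorial_eq_factorial_mul_choose]; exact Nat.descFactorial_le_pow r n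
  have h2 : r ^ n < (n ! + 1) * r.choose n := by
    cases n with
    | zero => simp
    | succ m =>
      set n := m + 1 with hn'
      obtain ⟨s, rfl⟩ : ∃ s, r = s + n := ⟨r - n, by omega⟩
      have h3 := pow_add_le s n m
      have h4 : s ^ n ≤ n ! * (s + n).choose n := by
        rw [← Nat.descFactorial_eq_factorial_mul_choose]
        refine le_trans ?_ (Nat.pow_sub_le_descFactorial (s + n) n)
        exact Nat.pow_le_pow_left (by omega) _
      have hF : 0 < n ! := Nat.factorial_pos _
      have hp : 0 < (s + n) ^ m := by positivity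
      have h5 : (n ! + 1) * (n * n) * (s + n) ^ m < (s + n) ^ n := by
        calc _ < (s + n) * (s + n) ^ m := by
              apply Nat.mul_lt_mul_of_pos_right _ hp; omega
          _ = _ := by rw [hn']; ring
      rw [← hn'] at h3
      have h6 : n ! * (s + n) ^ n < n ! * ((n ! + 1) * (s + n).choose n) := by
        have h7 : (n ! + 1) * (s + n) ^ n
            ≤ (n ! + 1) * s ^ n + (n ! + 1) * (n * n) * (s + n) ^ m := by
          calc _ ≤ (n ! + 1) * (s ^ n + n * n * (s + n) ^ m) := Nat.mul_le_mul_left _ h3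
            _ = _ := by ring
        have h8 : (n ! + 1) * s ^ n ≤ (n ! + 1) * (n ! * (s + n).choose n) :=
          Nat.mul_le_mul_left _ h4
        nlinarith
      exact Nat.lt_of_mul_lt_mul_left h6
  constructor
  · exact h1
  · have : (n ! + 1) * r.choose n = n ! * r.choose n + r.choose n := by ring
    omega

theorem factorial_formula (n : ℕ) :
    n ! = ((n ^ n + 1) * (n * n) + n + 1) ^ n / ((n ^ n + 1) * (n * n) + n + 1).choose n := by
  apply factorial_formula_aux
  have := Nat.factorial_le_pow n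
  have : (n ! + 1) * (n * n) ≤ (n ^ n + 1) * (n * n) := by gcongr
  omega

variable {α : Type}

theorem cst (n : ℕ) : DiophFn (fun _ : α → ℕ => n) := const_dioph n

theorem choose_dioph {f g : (α → ℕ) → ℕ} (df : DiophFn f) (dg : DiophFn g) :
    DiophFn fun v => (f v).choose (g v) := by
  have hB : DiophFn fun v => 2 ^ f v + 1 := add_dioph (pow_dioph (cst 2) df) (cst 1)
  have := mod_dioph (div_dioph (pow_dioph (add_dioph hB (cst 1)) df) (pow_dioph hB dg)) hB
  simpa only [← choose_formula] using this

theorem factorial_dioph {f : (α → ℕ) → ℕ} (df : DiophFn f) : DiophFn fun v => (f v)! := by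
  have hr : DiophFn fun v => (f v ^ f v + 1) * (f v * f v) + f v + 1 :=
    add_dioph (add_dioph (mul_dioph (add_dioph (pow_dioph df df) (cst 1)) (mul_dioph df df)) df)
      (cst 1)
  have := div_dioph (pow_dioph hr df) (choose_dioph hr df)
  simpa only [← factorial_formula] using this

theorem descFactorial_dioph {f g : (α → ℕ) → ℕ} (df : DiophFn f) (dg : DiophFn g) :
    DiophFn fun v => (f v).descFactorial (g v) := by
  have := mul_dioph (factorial_dioph dg) (choose_dioph df dg)
  simpa only [← Nat.descFactorial_eq_factorial_mul_choose] using this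

theorem true_dioph : Dioph {_v : α → ℕ | True} :=
  Dioph.ext (eq_dioph (cst 0) (cst 0)) (by simp)

theorem finset_dioph {ι : Type} (s : Finset ι) (P : ι → (α → ℕ) → Prop)
    (h : ∀ i ∈ s, Dioph {v | P i v}) : Dioph {v | ∀ i ∈ s, P i v} := by
  classical
  induction s using Finset.induction_on with
  | empty => exact Dioph.ext true_dioph (by simp)
  | insert a s ha ih =>
    refine Dioph.ext ((h a (by simp)).inter (ih fun i hi => h i (by simp [hi]))) ?_
    intro v; simp

theorem ex_one {P : ℕ → (α → ℕ) → Prop}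
    (h : Dioph {w : Option α → ℕ | P (w none) (fun i => w (some i))}) :
    Dioph {v | ∃ x, P x v} :=
  Dioph.ext (ex1_dioph h) fun _ => Iff.rfl

theorem up {f : (α → ℕ) → ℕ} (df : DiophFn f) :
    DiophFn fun w : Option α → ℕ => f (fun i => w (some i)) := reindex_diophFn some df

theorem var0 : DiophFn fun w : Option α → ℕ => w none := proj_dioph none

theorem poly_props {γ : Type} (p : Poly γ) : ∃ (s : Finset γ) (C : ℕ),
    (∀ (q : ℕ) (v w : γ → ℕ), (∀ i ∈ s, v i ≡ w i [MOD q]) → p v ≡ p w [ZMOD q]) ∧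
    (∀ (u : ℕ) (v : γ → ℕ), (∀ i ∈ s, v i ≤ u) → (p v).natAbs ≤ (u + 2) ^ C) := by
  classical
  induction p using Poly.induction with
  | H1 i =>
    refine ⟨{i}, 1, fun q v w h => ?_, fun u v h => ?_⟩
    · simpa using Int.natCast_modEq_iff.2 (h i (by simp))
    · have := h i (by simp); simp; omega
  | H2 n =>
    refine ⟨∅, n.natAbs, fun q v w _ => by simp, fun u v _ => ?_⟩
    simp only [Poly.const_apply]
    exact le_trans Nat.lt_two_pow_self.le (Nat.pow_le_pow_left (by omega) _)
  | H3 f g hf hg =>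
    obtain ⟨s, C, h1, h2⟩ := hf
    obtain ⟨t, D, h3, h4⟩ := hg
    refine ⟨s ∪ t, C + D + 1, fun q v w h => ?_, fun u v h => ?_⟩
    · simp only [Poly.sub_apply]
      exact (h1 q v w fun i hi => h i (by simp [hi])).sub (h3 q v w fun i hi => h i (by simp [hi]))
    · have a1 := h2 u v fun i hi => h i (by simp [hi])
      have a2 := h4 u v fun i hi => h i (by simp [hi])
      have b1 : (u + 2) ^ C ≤ (u + 2) ^ (C + D) := Nat.pow_le_pow_right (by omega) (by omega)
      have b2 : (u + 2) ^ D ≤ (u + 2) ^ (C + D) := Nat.pow_le_pow_right (by omega) (by omega)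
      have b3 := Int.natAbs_sub_le (f v) (g v)
      simp only [Poly.sub_apply]
      rw [pow_succ]; nlinarith [Nat.zero_le ((u + 2) ^ (C + D) * u)]
  | H4 f g hf hg =>
    obtain ⟨s, C, h1, h2⟩ := hf
    obtain ⟨t, D, h3, h4⟩ := hg
    refine ⟨s ∪ t, C + D, fun q v w h => ?_, fun u v h => ?_⟩
    · simp only [Poly.mul_apply]
      exact (h1 q v w fun i hi => h i (by simp [hi])).mul (h3 q v w fun i hi => h i (by simp [hi]))
    · have a1 := h2 u v fun i hi => h i (by simp [hi])
      have a2 := h4 u v fun i hi => h i (by simp [hi])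
      simp only [Poly.mul_apply, Int.natAbs_mul, pow_add]
      exact Nat.mul_le_mul a1 a2

end LeadMRDP
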