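import Mathlib
import Pool.Agent.Lib.lead.MRDPA

set_option autoImplicit false

namespace LeadMRDP
open Dioph Nat

/-- the factors of `C(q,y)` -/
def fac (T k : ℕ) : ℕ := T / (k + 1) - 1

theorem fac_spec {y R q k : ℕ} (hq : q + 1 = y ! * R !) (hk : k < y) (hR : 3 ≤ R) :
    ∃ e, fac (q + 1) k + 1 = e * R ! ∧ (k + 1) * fac (q + 1) k + k = q ∧ 2 ≤ fac (q + 1) k := by
  obtain ⟨e, he⟩ : (k + 1) ∣ y ! := Nat.dvd_factorial (by omega) hk
  have h1 : (q + 1) / (k + 1) = e * R ! := by
    rw [hq, he, mul_assoc]; exact Nat.mul_div_cancel_left _ (by omega)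
  have he0 : 0 < e := by
    rcases Nat.eq_zero_or_pos e with h | h
    · have := Nat.factorial_pos y; rw [he, h] at this; simp at this
    · exact h
  have h6 : 3 ≤ R ! := le_trans hR (Nat.self_le_factorial R)
  have h7 : 3 ≤ e * R ! := le_trans h6 (Nat.le_mul_of_pos_left _ he0)
  have h2 : fac (q + 1) k + 1 = e * R ! := by unfold fac; rw [h1]; omega
  refine ⟨e, h2, ?_, by omega⟩
  have : q + 1 = (k + 1) * (fac (q + 1) k + 1) := by rw [h2, hq, he]; ring
  nlinarith

theorem choose_eq_prod {y R q : ℕ} (hq : q + 1 = y ! * R !) (hR : 3 ≤ R) :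
    q.choose y = ∏ k ∈ Finset.range y, fac (q + 1) k := by
  have h1 : y ! * q.choose y = y ! * ∏ k ∈ Finset.range y, fac (q + 1) k := by
    rw [← Nat.descFactorial_eq_factorial_mul_choose, Nat.descFactorial_eq_prod_range,
      ← Finset.prod_range_add_one_eq_factorial, ← Finset.prod_mul_distrib]
    refine Finset.prod_congr rfl fun k hk => ?_
    obtain ⟨_, _, h, _⟩ := fac_spec hq (Finset.mem_range.1 hk) hR
    omega
  exact Nat.eq_of_mul_eq_mul_left (Nat.factorial_pos y) h1

theorem prime_big {y R q k π : ℕ} (hq : q + 1 = y ! * R !) (hk : k < y) (hR : 3 ≤ R)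
    (hp : π.Prime) (hd : π ∣ fac (q + 1) k) : R < π := by
  by_contra h
  obtain ⟨e, he, _, _⟩ := fac_spec hq hk hR
  have h1 : π ∣ fac (q + 1) k + 1 := by
    rw [he]; exact Dvd.dvd.mul_left (Nat.dvd_factorial hp.pos (by omega)) _
  exact hp.one_lt.ne' (Nat.dvd_one.1 ((Nat.dvd_add_right hd).1 h1))

theorem fac_coprime {y R q k l : ℕ} (hq : q + 1 = y ! * R !) (hk : k < y) (hl : l < y)
    (hR : 3 ≤ R) (hy : y ≤ R) (hkl : k ≠ l) : Nat.Coprime (fac (q + 1) k) (fac (q + 1) l) := by
  wlog h : k < l generalizing k l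
  · exact (this hl hk hkl.symm (by omega)).symm
  rw [Nat.coprime_iff_gcd_eq_one]
  by_contra hg
  obtain ⟨π, hp, hd⟩ := Nat.exists_prime_and_dvd hg
  have d1 := hd.trans (Nat.gcd_dvd_left _ _)
  have d2 := hd.trans (Nat.gcd_dvd_right _ _)
  have hb := prime_big hq hk hR hp d1
  obtain ⟨_, _, h1, _⟩ := fac_spec hq hk hR
  obtain ⟨_, _, h2, _⟩ := fac_spec hq hl hR
  have d3 : π ∣ l - k := by
    have e : l - k = (k + 1) * fac (q + 1) k - (l + 1) * fac (q + 1) l := by omega
    rw [e]; exact Nat.dvd_sub (d1.mul_left _) (d2.mul_left _)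
  have := Nat.le_of_dvd (by omega) d3
  omega

theorem dvd_desc {f a z u : ℕ} (hz : z ≤ u) (h : a ≡ z [MOD f]) :
    f ∣ a.descFactorial (u + 1) := by
  rw [Nat.descFactorial_eq_prod_range]
  refine dvd_trans ?_ (Finset.dvd_prod_of_mem _ (Finset.mem_range.2 (Nat.lt_succ_of_le hz)))
  rcases le_total z a with h1 | h1
  · exact (Nat.modEq_iff_dvd' h1).1 h.symm
  · simp [Nat.sub_eq_zero_of_le h1]

theorem prime_desc {π a u : ℕ} (hp : π.Prime) (h : π ∣ a.descFactorial (u + 1)) :
    ∃ z ≤ u, a ≡ z [MOD π] := by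
  rw [Nat.descFactorial_eq_prod_range, (Nat.Prime.prime hp).dvd_finset_prod_iff] at h
  obtain ⟨j, hj, hd⟩ := h
  have hj' := Finset.mem_range.1 hj
  rcases le_total j a with h1 | h1
  · exact ⟨j, by omega, ((Nat.modEq_iff_dvd' h1).2 hd).symm⟩
  · exact ⟨a, by omega, Nat.ModEq.refl _⟩

variable {α : Type}

/-- side condition on the variables that occur -/
def cond {β : Type} (u M : ℕ) (v : α → ℕ) (a : β → ℕ) : Option α ⊕ β → Prop
  | Sum.inl none => True
  | Sum.inl (some j) => v j ≤ u
  | Sum.inr b => M ∣ (a b).descFactorial (u + 1)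

theorem ball_iff {β : Type} (p : Poly (Option α ⊕ β)) (s : Finset (Option α ⊕ β)) (C : ℕ)
    (h1 : ∀ (q : ℕ) (v w : Option α ⊕ β → ℕ), (∀ i ∈ s, v i ≡ w i [MOD q]) → p v ≡ p w [ZMOD q])
    (h2 : ∀ (u : ℕ) (v : Option α ⊕ β → ℕ), (∀ i ∈ s, v i ≤ u) → (p v).natAbs ≤ (u + 2) ^ C)
    (y : ℕ) (v : α → ℕ) :
    (∀ k < y, ∃ t : β → ℕ, p (Sum.elim (fun o => Option.elim' k v o) t) = 0) ↔
      ∃ u q, ∃ a : β → ℕ, y ≤ u ∧ q + 1 = y ! * ((u + 2) ^ C + u + 3)! ∧
        (∀ i ∈ s, cond u (q.choose y) v a i) ∧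
        q.choose y ∣ (p (Sum.elim (fun o => Option.elim' q v o) a)).natAbs := by
  classical
  constructor
  · intro h
    have h' : ∀ k, ∃ t : β → ℕ, k < y → p (Sum.elim (fun o => Option.elim' k v o) t) = 0 := by
      intro k
      by_cases hk : k < y
      · obtain ⟨t, ht⟩ := h k hk; exact ⟨t, fun _ => ht⟩
      · exact ⟨fun _ => 0, fun h => absurd h hk⟩
    choose z hz using h'
    obtain ⟨u, hu0, hu⟩ : ∃ u, y ≤ u ∧ ∀ k ≤ y, ∀ i ∈ s,
        Sum.elim (fun o => Option.elim' k v o) (z k) i ≤ u := by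
      refine ⟨y + ((Finset.range (y + 1)) ×ˢ s).sup
        (fun x => Sum.elim (fun o => Option.elim' x.1 v o) (z x.1) x.2), by omega, ?_⟩
      intro k hk i hi
      refine le_trans ?_ (Nat.le_add_left _ _)
      exact Finset.le_sup (f := fun x : ℕ × (Option α ⊕ β) =>
        Sum.elim (fun o => Option.elim' x.1 v o) (z x.1) x.2) (b := (k, i))
        (by simp [hi]; omega)
    set R := (u + 2) ^ C + u + 3 with hR
    have hR3 : 3 ≤ R := by omega
    have hyR : y ≤ R := by omega
    obtain ⟨q, hq⟩ : ∃ q, q + 1 = y ! * R ! :=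
      ⟨y ! * (R !) - 1, by have := Nat.mul_pos (Nat.factorial_pos y) (Nat.factorial_pos R); omega⟩
    have hcop : Set.Pairwise (↑(Finset.range y) : Set ℕ) (Function.onFun Nat.Coprime (fac (q + 1))) := by
      intro k hk l hl hkl
      exact fac_coprime hq (by simpa using hk) (by simpa using hl) hR3 hyR hkl
    have hne : ∀ k ∈ Finset.range y, fac (q + 1) k ≠ 0 := by
      intro k hk
      obtain ⟨_, _, _, h⟩ := fac_spec hq (Finset.mem_range.1 hk) hR3
      omega
    have hdiv : ∀ X, (∀ k < y, fac (q + 1) k ∣ X) → q.choose y ∣ X := by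
      intro X hX
      rw [choose_eq_prod hq hR3]
      refine Finset.prod_dvd_of_isRelPrime ?_ fun k hk => hX k (Finset.mem_range.1 hk)
      intro k hk l hl hkl
      exact Nat.coprime_iff_isRelPrime.1 (hcop hk hl hkl)
    let a : β → ℕ := fun b =>
      (Nat.chineseRemainderOfFinset (fun k => z k b) (fac (q + 1)) (Finset.range y) hne hcop).1
    have ha : ∀ b, ∀ k < y, a b ≡ z k b [MOD fac (q + 1) k] := fun b k hk =>
      (Nat.chineseRemainderOfFinset (fun k => z k b) (fac (q + 1)) (Finset.range y) hne hcop).2 k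
        (Finset.mem_range.2 hk)
    refine ⟨u, q, a, hu0, hq, ?_, ?_⟩
    · intro i hi
      rcases i with (_ | j) | b
      · trivial
      · exact hu 0 (by omega) _ hi
      · exact hdiv _ fun k hk => dvd_desc (hu k hk.le _ hi) (ha b k hk)
    · refine hdiv _ fun k hk => ?_
      have := h1 (fac (q + 1) k) (Sum.elim (fun o => Option.elim' q v o) a)
        (Sum.elim (fun o => Option.elim' k v o) (z k)) (by
          intro i _
          rcases i with (_ | j) | b
          · obtain ⟨_, _, h, _⟩ := fac_spec hq hk hR3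
            show q ≡ k [MOD _]
            refine ((Nat.modEq_iff_dvd' (by omega)).2 ⟨k + 1, ?_⟩).symm
            rw [mul_comm]; omega
          · exact Nat.ModEq.refl _
          · exact ha b k hk)
      rw [hz k hk] at this
      exact Int.natCast_dvd.1 (Int.modEq_zero_iff_dvd.1 this)
  · rintro ⟨u, q, a, hu0, hq, hc, hd⟩ k hk
    set R := (u + 2) ^ C + u + 3 with hR
    have hR3 : 3 ≤ R := by omega
    obtain ⟨_, _, e1, e2⟩ := fac_spec hq hk hR3
    obtain ⟨π, hp, hπ⟩ := Nat.exists_prime_and_dvd (show fac (q + 1) k ≠ 1 by omega)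
    have hb := prime_big hq hk hR3 hp hπ
    have hM : π ∣ q.choose y := by
      rw [choose_eq_prod hq hR3]
      exact hπ.trans (Finset.dvd_prod_of_mem _ (Finset.mem_range.2 hk))
    have h' : ∀ b, ∃ z, Sum.inr b ∈ s → z ≤ u ∧ a b ≡ z [MOD π] := by
      intro b
      by_cases hb : Sum.inr b ∈ s
      · obtain ⟨z, hz⟩ := prime_desc hp (hM.trans (hc _ hb)); exact ⟨z, fun _ => hz⟩
      · exact ⟨0, fun h => absurd h hb⟩
    choose z hz using h'
    refine ⟨z, ?_⟩
    have c1 := h1 π (Sum.elim (fun o => Option.elim' q v o) a)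
        (Sum.elim (fun o => Option.elim' k v o) z) (by
          intro i hi
          rcases i with (_ | j) | b
          · show q ≡ k [MOD _]
            refine ((Nat.modEq_iff_dvd' (by omega)).2 ?_).symm
            have : q - k = (k + 1) * fac (q + 1) k := by omega
            rw [this]; exact hπ.mul_left _
          · exact Nat.ModEq.refl _
          · exact (hz b hi).2)
    have c2 := h2 u (Sum.elim (fun o => Option.elim' k v o) z) (by
          intro i hi
          rcases i with (_ | j) | b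
          · show k ≤ u; omega
          · exact hc _ hi
          · exact (hz b hi).1)
    have c3 : (π : ℤ) ∣ p (Sum.elim (fun o => Option.elim' q v o) a) :=
      Int.natCast_dvd.2 (hM.trans hd)
    have c4 : (π : ℤ) ∣ p (Sum.elim (fun o => Option.elim' k v o) z) :=
      Int.modEq_zero_iff_dvd.1 (c1.symm.trans (Int.modEq_zero_iff_dvd.2 c3))
    have c5 := Int.natCast_dvd.1 c4
    have := Nat.eq_zero_of_dvd_of_lt c5 (by omega)
    exact Int.natAbs_eq_zero.1 this

/-- Bounded universal quantifiers preserve Diophantine sets. -/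
theorem ball {P : ℕ → (α → ℕ) → Prop} {n : (α → ℕ) → ℕ}
    (h : Dioph {w : Option α → ℕ | P (w none) (fun i => w (some i))}) (dn : DiophFn n) :
    Dioph {v | ∀ k < n v, P k v} := by
  obtain ⟨β, p, hp⟩ := h
  obtain ⟨s, C, h1, h2⟩ := poly_props p
  let r : Option α ⊕ β → Option (Option α) ⊕ β :=
    Sum.elim (fun o => Option.elim' (Sum.inl none) (fun j => Sum.inl (some (some j))) o) Sum.inr
  have du : DiophFn fun W : Option (Option α) ⊕ β → ℕ => W (Sum.inl (some none)) := proj_dioph _
  have dq : DiophFn fun W : Option (Option α) ⊕ β → ℕ => W (Sum.inl none) := proj_dioph _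
  have dy : DiophFn fun W : Option (Option α) ⊕ β → ℕ => n (fun j => W (Sum.inl (some (some j)))) :=
    reindex_diophFn (fun j => Sum.inl (some (some j))) dn
  have dM := choose_dioph dq dy
  have d1 := le_dioph dy du
  have d2 := eq_dioph (add_dioph dq (cst 1)) (mul_dioph (factorial_dioph dy)
    (factorial_dioph (add_dioph (add_dioph (pow_dioph (add_dioph du (cst 2)) (cst C)) du) (cst 3))))
  have d3 := finset_dioph s (fun i (W : Option (Option α) ⊕ β → ℕ) =>
      cond (W (Sum.inl (some none)))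
        ((W (Sum.inl none)).choose (n (fun j => W (Sum.inl (some (some j))))))
        (fun j => W (Sum.inl (some (some j)))) (fun b => W (Sum.inr b)) i) (by
    intro i _
    rcases i with (_ | j) | b
    · exact true_dioph
    · exact le_dioph (proj_dioph _) du
    · exact dvd_dioph dM (descFactorial_dioph (proj_dioph _) (add_dioph du (cst 1))))
  have d4 := dvd_dioph dM (reindex_diophFn r (abs_poly_dioph p))
  have d5 := ex1_dioph (ex1_dioph (ex_dioph (d1.inter (d2.inter (d3.inter d4)))))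
  refine Dioph.ext d5 fun v => ?_
  have key := ball_iff p s C h1 h2 (n v) v
  have e : (∀ k < n v, P k v) ↔
      ∀ k < n v, ∃ t : β → ℕ, p (Sum.elim (fun o => Option.elim' k v o) t) = 0 :=
    forall_congr' fun k => imp_congr_right fun _ => hp (fun o => Option.elim' k v o)
  show _ ↔ (∀ k < n v, P k v)
  rw [e, key]
  refine exists_congr fun u => exists_congr fun q => exists_congr fun a => ?_
  have er : (Sum.elim (Option.elim' q (Option.elim' u v)) a) ∘ r
      = Sum.elim (fun o => Option.elim' q v o) a := by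
    funext i; rcases i with (_ | j) | b <;> rfl
  simp only [Set.mem_inter_iff, Set.mem_setOf_eq, er]
  rfl

end LeadMRDP
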