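import Mathlib
import Pool.Agent.Lib.lead.MRDPB

set_option autoImplicit false

namespace LeadMRDP
open Dioph Nat

/-- the graph of `f` is Diophantine (polymorphic form) -/
def GD (f : ℕ →. ℕ) : Prop :=
  ∀ (α : Type) (a b : (α → ℕ) → ℕ), DiophFn a → DiophFn b → Dioph {v | b v ∈ f (a v)}

variable {α : Type}

theorem pair_dioph {f g : (α → ℕ) → ℕ} (df : DiophFn f) (dg : DiophFn g) :
    DiophFn fun v => Nat.pair (f v) (g v) := by
  have d := ((lt_dioph (up df) (up dg)).inter (eq_dioph (add_dioph (mul_dioph (up dg) (up dg))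
    (up df)) var0)).union ((le_dioph (up dg) (up df)).inter (eq_dioph (add_dioph (add_dioph
    (mul_dioph (up df) (up df)) (up df)) (up dg)) var0))
  refine Dioph.ext d fun v => ?_
  simp only [Set.mem_union, Set.mem_inter_iff, Set.mem_setOf_eq, Nat.pair]
  show _ ↔ (if f (fun i => v (some i)) < g (fun i => v (some i)) then _ else _) = _
  split_ifs with h
  · constructor
    · rintro (⟨_, h1⟩ | ⟨h1, _⟩)
      · exact h1
      · omega
    · intro h1; exact Or.inl ⟨h, h1⟩
  · constructor
    · rintro (⟨h1, _⟩ | ⟨_, h1⟩)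
      · omega
      · exact h1
    · intro h1; exact Or.inr ⟨by omega, h1⟩

theorem fst_dioph {f : (α → ℕ) → ℕ} (df : DiophFn f) : DiophFn fun v => (f v).unpair.1 := by
  have d := ex_one (P := fun y (w : Option α → ℕ) =>
      Nat.pair (w none) y = f (fun i => w (some i)))
    (eq_dioph (pair_dioph (up var0) var0) (up (up df)))
  refine Dioph.ext d fun v => ?_
  simp only [Set.mem_setOf_eq]
  show _ ↔ (f (fun i => v (some i))).unpair.1 = _
  constructor
  · rintro ⟨y, h⟩; rw [← h]; simp
  · intro h; exact ⟨(f (fun i => v (some i))).unpair.2, by rw [← h]; simp⟩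

theorem snd_dioph {f : (α → ℕ) → ℕ} (df : DiophFn f) : DiophFn fun v => (f v).unpair.2 := by
  have d := ex_one (P := fun y (w : Option α → ℕ) =>
      Nat.pair y (w none) = f (fun i => w (some i)))
    (eq_dioph (pair_dioph var0 (up var0)) (up (up df)))
  refine Dioph.ext d fun v => ?_
  simp only [Set.mem_setOf_eq]
  show _ ↔ (f (fun i => v (some i))).unpair.2 = _
  constructor
  · rintro ⟨y, h⟩; rw [← h]; simp
  · intro h; exact ⟨(f (fun i => v (some i))).unpair.1, by rw [← h]; simp⟩

theorem prec_iff (x : Part ℕ) (g : ℕ → ℕ → Part ℕ) (n z : ℕ) :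
    z ∈ (Nat.rec x (fun y IH => IH.bind (g y)) n : Part ℕ) ↔
      ∃ s : ℕ → ℕ, s 0 ∈ x ∧ (∀ k < n, s (k + 1) ∈ g k (s k)) ∧ s n = z := by
  induction n generalizing z with
  | zero =>
    constructor
    · intro h; exact ⟨fun _ => z, h, by simp, rfl⟩
    · rintro ⟨s, h, _, rfl⟩; exact h
  | succ n ih =>
    show z ∈ Part.bind _ (g n) ↔ _
    rw [Part.mem_bind_iff]
    constructor
    · rintro ⟨w, hw, hz⟩
      obtain ⟨s, h0, h1, h2⟩ := (ih w).1 hw
      refine ⟨fun k => if k = n + 1 then z else s k, by simpa using h0, ?_, by simp⟩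
      intro k hk
      by_cases e : k = n
      · subst e; simpa [h2] using hz
      · have : k ≠ n + 1 := by omega
        simpa [e, this] using h1 k (by omega)
    · rintro ⟨s, h0, h1, rfl⟩
      exact ⟨s n, (ih _).2 ⟨s, h0, fun k hk => h1 k (by omega), rfl⟩, h1 n (by omega)⟩

theorem prec_iff' (x : Part ℕ) (g : ℕ → ℕ → Part ℕ) (n z : ℕ) :
    z ∈ (Nat.rec x (fun y IH => IH.bind (g y)) n : Part ℕ) ↔
      ∃ B c : ℕ, c / B ^ 0 % B ∈ x ∧ (∀ k < n, c / B ^ (k + 1) % B ∈ g k (c / B ^ k % B)) ∧
        c / B ^ n % B = z := by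
  rw [prec_iff]
  constructor
  · rintro ⟨s, h0, h1, h2⟩
    let s' : ℕ → ℕ := fun i => if i ≤ n then s i else 0
    have hB : ∀ i, s' i < (Finset.range (n + 1)).sup s + 1 := by
      intro i
      by_cases h : i ≤ n
      · have : s i ≤ (Finset.range (n + 1)).sup s :=
          Finset.le_sup (f := s) (Finset.mem_range.2 (Nat.lt_succ_of_le h))
        simp only [s', h, if_true]; omega
      · simp [s', h]
    have key : ∀ k ≤ n, (∑ i ∈ Finset.range (n + 1), s' i * ((Finset.range (n + 1)).sup s + 1) ^ i)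
        / ((Finset.range (n + 1)).sup s + 1) ^ k % ((Finset.range (n + 1)).sup s + 1) = s k := by
      intro k hk
      rw [digit_lemma _ k s' (n + 1) hB]
      simp [s', hk, Nat.lt_succ_of_le hk]
    refine ⟨_, _, by rw [key 0 (by omega)]; exact h0, fun k hk => ?_, by rw [key n le_rfl, h2]⟩
    rw [key k hk.le, key (k + 1) hk]; exact h1 k hk
  · rintro ⟨B, c, h0, h1, h2⟩
    exact ⟨fun k => c / B ^ k % B, h0, h1, h2⟩

/-- **MRDP**: graphs of partial recursive functions are Diophantine. -/
theorem partrec_GD {f : ℕ →. ℕ} (hf : Nat.Partrec f) : GD f := by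
  induction hf with
  | zero =>
    intro α a b da db
    refine Dioph.ext (eq_dioph db (cst 0)) fun v => ?_
    simp [Set.mem_setOf_eq, Pure.pure, PFun.pure]
  | succ =>
    intro α a b da db
    refine Dioph.ext (eq_dioph db (add_dioph da (cst 1))) fun v => ?_
    simp
  | left =>
    intro α a b da db
    refine Dioph.ext (eq_dioph db (fst_dioph da)) fun v => ?_
    simp
  | right =>
    intro α a b da db
    refine Dioph.ext (eq_dioph db (snd_dioph da)) fun v => ?_
    simp
  | @pair f g _ _ hf hg =>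
    intro α a b da db
    refine Dioph.ext ((hf α a _ da (fst_dioph db)).inter (hg α a _ da (snd_dioph db))) fun v => ?_
    simp only [Set.mem_inter_iff, Set.mem_setOf_eq, Seq.seq, Part.map_eq_map, Part.bind_eq_bind,
      Part.mem_bind_iff, Part.mem_map_iff]
    constructor
    · rintro ⟨h1, h2⟩
      exact ⟨_, ⟨_, h1, rfl⟩, _, h2, by simp⟩
    · rintro ⟨_, ⟨x, h1, rfl⟩, y, h2, h3⟩
      rw [← h3]; simpa using ⟨h1, h2⟩
  | @comp f g _ _ hf hg =>
    intro α a b da db
    have d := ex_one (P := fun y (v : α → ℕ) => y ∈ g (a v) ∧ b v ∈ f y)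
      ((hg _ _ _ (up da) var0).inter (hf _ _ _ var0 (up db)))
    refine Dioph.ext d fun v => ?_
    simp
  | @prec f g _ _ hf hg =>
    intro α a b da db
    have dB : DiophFn fun w : Option (Option α) → ℕ => w (some none) := up var0
    have dc : DiophFn fun w : Option (Option α) → ℕ => w none := var0
    have da' := up (up da)
    have d0 := hf _ _ _ (fst_dioph da') (mod_dioph (div_dioph dc (pow_dioph dB (cst 0))) dB)
    have d2 := eq_dioph (mod_dioph (div_dioph dc (pow_dioph dB (snd_dioph da'))) dB) (up (up db))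
    have d1 := ball (P := fun k (w : Option (Option α) → ℕ) =>
        w none / w (some none) ^ (k + 1) % w (some none) ∈
          g (Nat.pair (a (fun i => w (some (some i)))).unpair.1
            (Nat.pair k (w none / w (some none) ^ k % w (some none)))))
      (hg _ _ _ (pair_dioph (up (fst_dioph da')) (pair_dioph var0
          (mod_dioph (div_dioph (up dc) (pow_dioph (up dB) var0)) (up dB))))
        (mod_dioph (div_dioph (up dc) (pow_dioph (up dB) (add_dioph var0 (cst 1)))) (up dB)))
      (snd_dioph da')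
    have d := ex1_dioph (ex1_dioph (d0.inter (d1.inter d2)))
    refine Dioph.ext d fun v => ?_
    have key := prec_iff' (f (a v).unpair.1)
      (fun y i => g (Nat.pair (a v).unpair.1 (Nat.pair y i))) (a v).unpair.2 (b v)
    exact key.symm
  | @rfind f _ hf =>
    intro α a b da db
    have d0 := hf _ _ _ (pair_dioph da db) (cst 0)
    have d1 := ball (P := fun k (v : α → ℕ) => ∃ m, m + 1 ∈ f (Nat.pair (a v) k))
      (ex_one (P := fun m (w : Option α → ℕ) =>
          m + 1 ∈ f (Nat.pair (a (fun i => w (some i))) (w none)))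
        (hf _ _ _ (pair_dioph (up (up da)) (up var0)) (add_dioph var0 (cst 1)))) db
    refine Dioph.ext (d0.inter d1) fun v => ?_
    simp only [Set.mem_inter_iff, Set.mem_setOf_eq, Nat.mem_rfind, Part.map_eq_map,
      Part.mem_map_iff, decide_eq_true_eq, decide_eq_false_iff_not]
    constructor
    · rintro ⟨h1, h2⟩
      refine ⟨⟨0, h1, by simp⟩, fun {m} hm => ?_⟩
      obtain ⟨x, hx⟩ := h2 m hm
      exact ⟨_, hx, by simp⟩
    · rintro ⟨⟨x, h1, h3⟩, h2⟩
      have : x = 0 := by simpa using h3
      subst this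
      refine ⟨h1, fun k hk => ?_⟩
      obtain ⟨x, hx, h4⟩ := h2 hk
      have : x ≠ 0 := by simpa using h4
      obtain ⟨m, rfl⟩ := Nat.exists_eq_succ_of_ne_zero this
      exact ⟨m, hx⟩

/-- There is a non-computable Diophantine set. -/
theorem exists_noncomputable : ∃ S : ℕ → Prop, ¬ ComputablePred S ∧
    Dioph {v : Unit → ℕ | S (v ())} := by
  let f : ℕ →. ℕ := fun n => Nat.Partrec.Code.eval (Denumerable.ofNat Nat.Partrec.Code n) 0
  have hf : Nat.Partrec f := by
    rw [← Partrec.nat_iff]
    exact Nat.Partrec.Code.eval_part.comp (Computable.ofNat _) (Computable.const 0)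
  refine ⟨fun n => (f n).Dom, fun h => ?_, ?_⟩
  · apply ComputablePred.halting_problem 0
    obtain ⟨_, h⟩ := h
    have := h.comp (Computable.encode (α := Nat.Partrec.Code))
    refine ⟨Classical.decPred _, this.of_eq fun c => ?_⟩
    simp [f]
  · have d := ex_one (P := fun y (v : Unit → ℕ) => y ∈ f (v ()))
      (partrec_GD hf _ _ _ (up (proj_dioph ())) var0)
    refine Dioph.ext d fun v => ?_
    simp [Part.dom_iff_mem]

end LeadMRDP
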