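import Mathlib
import Pool.Agent.Lib.lead.MRDPC

set_option autoImplicit false

namespace LeadMRDP
open Dioph Nat

/-- flat arithmetic constraints `x = y + z`, `x = y * z`, `x = 1` -/
inductive Con (V : Type) : Type
  | add (x y z : V)
  | mul (x y z : V)
  | one (x : V)

def Con.sat {V R : Type} [Add R] [Mul R] [One R] (v : V → R) : Con V → Prop
  | .add x y z => v x = v y + v z
  | .mul x y z => v x = v y * v z
  | .one x => v x = 1

def Con.map {V W : Type} (f : V → W) : Con V → Con W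
  | .add x y z => .add (f x) (f y) (f z)
  | .mul x y z => .mul (f x) (f y) (f z)
  | .one x => .one (f x)

theorem Con.sat_map {V W R : Type} [Add R] [Mul R] [One R] (f : V → W) (v : W → R) (c : Con V) :
    (c.map f).sat v ↔ c.sat (v ∘ f) := by cases c <;> rfl

def Flat {γ : Type} (F : (γ → ℕ) → ℤ) : Prop :=
  ∃ (δ : Type) (_ : Finite δ) (L : List (Con (γ ⊕ δ))) (a b : γ ⊕ δ), ∀ v : γ → ℕ,
    (∃ t : δ → ℕ, ∀ c ∈ L, c.sat (Sum.elim v t)) ∧
    ∀ t : δ → ℕ, (∀ c ∈ L, c.sat (Sum.elim v t)) →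
      F v = (Sum.elim v t a : ℕ) - (Sum.elim v t b : ℕ)

variable {γ : Type}

theorem Flat.comb {f g : (γ → ℕ) → ℤ} (hf : Flat f) (hg : Flat g) (ε : Type) [Finite ε]
    (E : List (Con (Fin 4 ⊕ ε))) (a b : ε) (op : ℤ → ℤ → ℤ)
    (hE : ∀ w : Fin 4 → ℕ, (∃ t : ε → ℕ, ∀ c ∈ E, c.sat (Sum.elim w t)) ∧
      ∀ t : ε → ℕ, (∀ c ∈ E, c.sat (Sum.elim w t)) →
        op ((w 0 : ℤ) - w 1) ((w 2 : ℤ) - w 3) = (t a : ℤ) - t b) :
    Flat fun v => op (f v) (g v) := by
  obtain ⟨δ1, _, L1, a1, b1, h1⟩ := hf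
  obtain ⟨δ2, _, L2, a2, b2, h2⟩ := hg
  let r1 : γ ⊕ δ1 → γ ⊕ (δ1 ⊕ δ2 ⊕ ε) := Sum.map id Sum.inl
  let r2 : γ ⊕ δ2 → γ ⊕ (δ1 ⊕ δ2 ⊕ ε) := Sum.map id (Sum.inr ∘ Sum.inl)
  let r3 : Fin 4 ⊕ ε → γ ⊕ (δ1 ⊕ δ2 ⊕ ε) :=
    Sum.elim ![r1 a1, r1 b1, r2 a2, r2 b2] (Sum.inr ∘ Sum.inr ∘ Sum.inr)
  have e1 : ∀ (v : γ → ℕ) (t : δ1 ⊕ δ2 ⊕ ε → ℕ),
      Sum.elim v t ∘ r1 = Sum.elim v (t ∘ Sum.inl) := by
    intro v t; funext i; cases i <;> rfl
  have e2 : ∀ (v : γ → ℕ) (t : δ1 ⊕ δ2 ⊕ ε → ℕ),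
      Sum.elim v t ∘ r2 = Sum.elim v (t ∘ Sum.inr ∘ Sum.inl) := by
    intro v t; funext i; cases i <;> rfl
  have e3 : ∀ (v : γ → ℕ) (t : δ1 ⊕ δ2 ⊕ ε → ℕ), Sum.elim v t ∘ r3 =
      Sum.elim ![Sum.elim v (t ∘ Sum.inl) a1, Sum.elim v (t ∘ Sum.inl) b1,
        Sum.elim v (t ∘ Sum.inr ∘ Sum.inl) a2, Sum.elim v (t ∘ Sum.inr ∘ Sum.inl) b2]
        (t ∘ Sum.inr ∘ Sum.inr) := by
    intro v t; funext i
    rcases i with i | i
    · rw [← e1, ← e2]; fin_cases i <;> rfl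
    · rfl
  refine ⟨δ1 ⊕ δ2 ⊕ ε, inferInstance,
    L1.map (Con.map r1) ++ L2.map (Con.map r2) ++ E.map (Con.map r3),
    Sum.inr (Sum.inr (Sum.inr a)), Sum.inr (Sum.inr (Sum.inr b)), fun v => ?_⟩
  simp only [List.forall_mem_append, List.forall_mem_map, Con.sat_map, e1, e2, e3]
  constructor
  · obtain ⟨t1, ht1⟩ := (h1 v).1
    obtain ⟨t2, ht2⟩ := (h2 v).1
    obtain ⟨t3, ht3⟩ := (hE ![Sum.elim v t1 a1, Sum.elim v t1 b1,
      Sum.elim v t2 a2, Sum.elim v t2 b2]).1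
    exact ⟨Sum.elim t1 (Sum.elim t2 t3), ⟨ht1, ht2⟩, ht3⟩
  · rintro t ⟨⟨ht1, ht2⟩, ht3⟩
    have := (hE _).2 _ ht3
    rw [(h1 v).2 _ ht1, (h2 v).2 _ ht2]
    exact this

theorem Flat.sub {f g : (γ → ℕ) → ℤ} (hf : Flat f) (hg : Flat g) : Flat fun v => f v - g v := by
  refine hf.comb hg (Fin 2) [.add (.inr 0) (.inl 0) (.inl 3), .add (.inr 1) (.inl 1) (.inl 2)]
    0 1 (fun x y => x - y) fun w => ⟨⟨![w 0 + w 3, w 1 + w 2], by simp [Con.sat]⟩, fun t ht => ?_⟩
  simp [Con.sat] at ht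
  omega

theorem Flat.mul {f g : (γ → ℕ) → ℤ} (hf : Flat f) (hg : Flat g) : Flat fun v => f v * g v := by
  refine hf.comb hg (Fin 6) [.mul (.inr 2) (.inl 0) (.inl 2), .mul (.inr 3) (.inl 1) (.inl 3),
      .mul (.inr 4) (.inl 0) (.inl 3), .mul (.inr 5) (.inl 1) (.inl 2),
      .add (.inr 0) (.inr 2) (.inr 3), .add (.inr 1) (.inr 4) (.inr 5)]
    0 1 (fun x y => x * y) fun w => ⟨⟨![w 0 * w 2 + w 1 * w 3, w 0 * w 3 + w 1 * w 2,
      w 0 * w 2, w 1 * w 3, w 0 * w 3, w 1 * w 2], by simp [Con.sat]⟩, fun t ht => ?_⟩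
  simp [Con.sat] at ht
  obtain ⟨h2, h3, h4, h5, h0, h1⟩ := ht
  rw [h0, h1, h2, h3, h4, h5]; push_cast; ring

theorem Flat.proj (i : γ) : Flat fun v => (v i : ℤ) := by
  refine ⟨Unit, inferInstance, [.add (.inr ()) (.inr ()) (.inr ())], .inl i, .inr (),
    fun v => ⟨⟨fun _ => 0, by simp [Con.sat]⟩, fun t ht => ?_⟩⟩
  simp [Con.sat] at ht
  simp [ht]

theorem Flat.one : Flat fun _ : γ → ℕ => (1 : ℤ) := by
  refine ⟨Fin 2, inferInstance, [.add (.inr 1) (.inr 1) (.inr 1), .one (.inr 0)], .inr 0, .inr 1,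
    fun v => ⟨⟨![1, 0], by simp [Con.sat]⟩, fun t ht => ?_⟩⟩
  simp [Con.sat] at ht
  simp [ht]

theorem Flat.const (n : ℤ) : Flat fun _ : γ → ℕ => n := by
  have h0 : Flat fun _ : γ → ℕ => (0 : ℤ) := by simpa using (Flat.one (γ := γ)).sub Flat.one
  induction n using Int.induction_on with
  | zero => exact h0
  | succ n ih => simpa using ih.sub (h0.sub Flat.one)
  | pred n ih => exact ih.sub Flat.one

theorem poly_flat (p : Poly γ) : Flat p := by
  induction p using Poly.induction with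
  | H1 i => exact Flat.proj i
  | H2 n => exact Flat.const n
  | H3 f g hf hg => exact hf.sub hg
  | H4 f g hf hg => exact hf.mul hg

/-- every Diophantine set of naturals is the projection of a finite flat system -/
theorem dioph_flat {S : ℕ → Prop} (h : Dioph {v : Unit → ℕ | S (v ())}) :
    ∃ (V : Type) (_ : Finite V) (x0 : V) (L : List (Con V)),
      ∀ n, S n ↔ ∃ v : V → ℕ, v x0 = n ∧ ∀ c ∈ L, c.sat v := by
  classical
  obtain ⟨β, p, hp⟩ := h
  obtain ⟨s, _, h1, _⟩ := poly_props p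
  let r : Unit ⊕ β → Unit ⊕ Option s := fun x =>
    match x with
    | .inl u => .inl u
    | .inr b => .inr (if h : Sum.inr b ∈ s then some ⟨_, h⟩ else none)
  obtain ⟨δ, _, L, a, b, hL⟩ := poly_flat (p.map r)
  refine ⟨Option ((Unit ⊕ Option s) ⊕ δ), inferInstance, some (.inl (.inl ())),
    .add none none none :: .add (some a) (some b) none :: L.map (Con.map some), fun n => ?_⟩
  have key := hp (fun _ => n)
  simp only [Set.mem_setOf_eq] at key
  rw [key]
  simp only [List.forall_mem_cons, List.forall_mem_map, Con.sat_map]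
  have sa : ∀ (v : Option ((Unit ⊕ Option s) ⊕ δ) → ℕ) x y z,
    (Con.add x y z).sat v ↔ v x = v y + v z := fun _ _ _ _ => Iff.rfl
  simp only [sa]
  constructor
  · rintro ⟨t, ht⟩
    let w : Unit ⊕ Option s → ℕ := Sum.elim (fun _ => n)
      (fun o => o.elim 0 fun x => Sum.elim (fun _ => n) t x.1)
    have e : p.map r w = 0 := by
      rw [Poly.map_apply, ← ht]
      have := h1 0 (w ∘ r) (Sum.elim (fun _ => n) t) (by
        intro i hi
        rcases i with u | b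
        · rfl
        · simp [w, r, hi, Nat.ModEq])
      simpa using this
    obtain ⟨t', ht'⟩ := (hL w).1
    have := (hL w).2 t' ht'
    refine ⟨fun o => o.elim 0 (Sum.elim w t'), rfl, rfl, ?_, ht'⟩
    simp only [Option.elim]
    omega
  · rintro ⟨v, h0, h2, h3, h4⟩
    have e : v ∘ some = Sum.elim (fun x => v (some (.inl x))) (fun x => v (some (.inr x))) := by
      funext i; cases i <;> rfl
    rw [e] at h4
    have h5 := (hL _).2 _ h4
    rw [← e, Poly.map_apply] at h5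
    refine ⟨fun b => v (some (.inl (r (.inr b)))), ?_⟩
    have e2 : (fun x => v (some (.inl x))) ∘ r
        = Sum.elim (fun _ => n) fun b => v (some (.inl (r (.inr b)))) := by
      funext i; rcases i with u | b
      · exact h0
      · rfl
    rw [← e2, h5]
    simp only [Function.comp]
    omega

/-- Hilbert's tenth problem, flat form over `ℕ`. -/
theorem exists_flat_nat : ∃ (V : Type) (_ : Finite V) (x0 : V) (L : List (Con V)),
    ¬ ComputablePred fun n : ℕ => ∃ v : V → ℕ, v x0 = n ∧ ∀ c ∈ L, c.sat v := by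
  obtain ⟨S, hS, hD⟩ := exists_noncomputable
  obtain ⟨V, hV, x0, L, h⟩ := dioph_flat hD
  refine ⟨V, hV, x0, L, ?_⟩
  rwa [show (fun n : ℕ => ∃ v : V → ℕ, v x0 = n ∧ ∀ c ∈ L, c.sat v) = S from
    funext fun n => propext (h n).symm]

/-- Hilbert's tenth problem, flat form over `ℤ`. -/
theorem exists_flat_int : ∃ (V : Type) (_ : Finite V) (x0 : V) (L : List (Con V)),
    ¬ ComputablePred fun n : ℕ => ∃ v : V → ℤ, v x0 = n ∧ ∀ c ∈ L, c.sat v := by
  obtain ⟨V, hV, x0, L, h⟩ := exists_flat_nat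
  have := Fintype.ofFinite V
  let G : V → List (Con (V × Fin 11)) := fun x =>
    [.mul (x, 5) (x, 1) (x, 1), .mul (x, 6) (x, 2) (x, 2), .mul (x, 7) (x, 3) (x, 3),
      .mul (x, 8) (x, 4) (x, 4), .add (x, 9) (x, 5) (x, 6), .add (x, 10) (x, 7) (x, 8),
      .add (x, 0) (x, 9) (x, 10)]
  refine ⟨V × Fin 11, inferInstance, (x0, 0),
    L.map (Con.map fun x => (x, 0)) ++ (Finset.univ.toList.flatMap G), ?_⟩
  refine fun h' => h (h'.of_eq fun n => ?_)
  simp only [List.forall_mem_append, List.forall_mem_map, Con.sat_map, List.forall_mem_flatMap]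
  constructor
  · rintro ⟨v, h0, h1, h2⟩
    have hp : ∀ x, 0 ≤ v (x, 0) := by
      intro x
      have := h2 x (by simp)
      simp [G, Con.sat] at this
      obtain ⟨a1, a2, a3, a4, a5, a6, a7⟩ := this
      rw [a7, a5, a6, a1, a2, a3, a4]
      nlinarith [mul_self_nonneg (v (x, 1)), mul_self_nonneg (v (x, 2)),
        mul_self_nonneg (v (x, 3)), mul_self_nonneg (v (x, 4))]
    refine ⟨fun x => (v (x, 0)).toNat, by simp [h0], fun c hc => ?_⟩
    have := h1 c hc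
    cases c with
    | add x y z =>
      simp only [Con.sat, Function.comp] at this ⊢
      have := hp x; have := hp y; have := hp z; omega
    | mul x y z =>
      simp only [Con.sat, Function.comp] at this ⊢
      rw [this, Int.toNat_mul (hp y) (hp z)]
    | one x =>
      simp only [Con.sat, Function.comp] at this ⊢
      simp [this]
  · rintro ⟨v, h0, h1⟩
    choose a b c d habcd using fun x => Nat.sum_four_squares (v x)
    refine ⟨fun x => (![v x.1, a x.1, b x.1, c x.1, d x.1, a x.1 * a x.1, b x.1 * b x.1,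
      c x.1 * c x.1, d x.1 * d x.1, a x.1 * a x.1 + b x.1 * b x.1,
      c x.1 * c x.1 + d x.1 * d x.1] x.2 : ℕ), by simp [h0], fun c hc => ?_, fun x _ => ?_⟩
    · have := h1 c hc
      cases c <;> simp [Con.sat] at this ⊢ <;> simp [this]
    · simp [G, Con.sat]
      have := habcd x
      rw [← this]; push_cast; ring

end LeadMRDP
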