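import Mathlib
import Pool.Agent.Lib.lead.CntM

set_option autoImplicit false

namespace LeadMS0

/-- Formulas of `MS₀`; all variables are set variables. -/
inductive Fm : Type
  | sub (i j : ℕ)
  | ind (i : ℕ)
  | not (φ : Fm)
  | and (φ ψ : Fm)
  | imp (φ ψ : Fm)
  | all (i : ℕ) (φ : Fm)
  | ex (i : ℕ) (φ : Fm)

/-- Goedel numbering of formulas. -/
def Fm.code : Fm → ℕ
  | .sub i j => Nat.pair 0 (Nat.pair i j)
  | .ind i => Nat.pair 1 i
  | .not φ => Nat.pair 2 φ.code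
  | .and φ ψ => Nat.pair 3 (Nat.pair φ.code ψ.code)
  | .imp φ ψ => Nat.pair 4 (Nat.pair φ.code ψ.code)
  | .all i φ => Nat.pair 5 (Nat.pair i φ.code)
  | .ex i φ => Nat.pair 6 (Nat.pair i φ.code)

/-- The variable `n` is free in the formula. -/
def Fm.Free (n : ℕ) : Fm → Prop
  | .sub i j => i = n ∨ j = n
  | .ind i => i = n
  | .not φ => φ.Free n
  | .and φ ψ => φ.Free n ∨ ψ.Free n
  | .imp φ ψ => φ.Free n ∨ ψ.Free n
  | .all i φ => i ≠ n ∧ φ.Free n
  | .ex i φ => i ≠ n ∧ φ.Free n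

/-- Satisfaction on the ground set `E` with independence predicate `Ind`. -/
def Fm.Sat {E : Type} (Ind : Set E → Prop) : Fm → (ℕ → Set E) → Prop
  | .sub i j, ρ => ρ i ⊆ ρ j
  | .ind i, ρ => Ind (ρ i)
  | .not φ, ρ => ¬ φ.Sat Ind ρ
  | .and φ ψ, ρ => φ.Sat Ind ρ ∧ ψ.Sat Ind ρ
  | .imp φ ψ, ρ => φ.Sat Ind ρ → ψ.Sat Ind ρ
  | .all i φ, ρ => ∀ a, φ.Sat Ind (Function.update ρ i a)
  | .ex i φ, ρ => ∃ a, φ.Sat Ind (Function.update ρ i a)

lemma Fm.code_inj : Function.Injective Fm.code := by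
  intro φ
  induction φ with
  | sub i j => intro ψ h; cases ψ <;> simp_all [Fm.code]
  | ind i => intro ψ h; cases ψ <;> simp_all [Fm.code]
  | not a ih =>
    intro ψ h
    cases ψ <;> simp [Fm.code] at h
    rw [ih h]
  | and a b iha ihb =>
    intro ψ h
    cases ψ <;> simp [Fm.code] at h
    rw [iha h.1, ihb h.2]
  | imp a b iha ihb =>
    intro ψ h
    cases ψ <;> simp [Fm.code] at h
    rw [iha h.1, ihb h.2]
  | all i a ih =>
    intro ψ h
    cases ψ <;> simp [Fm.code] at h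
    rw [h.1, ih h.2]
  | ex i a ih =>
    intro ψ h
    cases ψ <;> simp [Fm.code] at h
    rw [h.1, ih h.2]

open LeadCnt

theorem exists_cm2 : ∃ (K : ℕ) (T : Type) (_ : Finite T) (C : CM K T) (f : ℕ → ℕ),
    Primrec f ∧ ¬ ComputablePred fun n => ∃ L, C.Valid (C.aft C.r fun _ => f n) L := by
  obtain ⟨Q, fQ, I, q0, f, hI, hf, hu⟩ := LeadReg.exists_reg
  have : Finite I := hI
  obtain ⟨N, ⟨e⟩⟩ := Finite.exists_equiv_fin (Option Q ⊕ I)
  let cd : Option Q ⊕ I → ℕ := fun σ => e σ + 1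
  have hi : Function.Injective cd := fun a b h =>
    e.injective (Fin.ext (by simp only [cd] at h; omega))
  have hp : ∀ σ, cd σ ≠ 0 := fun σ => by simp [cd]
  have fT : Finite (Tr Q I) := by
    let g : Option (Fin 4 × I ⊕ Bool × Option Q) → Tr Q I := fun a =>
      match a with
      | none => .root
      | some (.inl (0, i)) => .t1 i
      | some (.inl (1, i)) => .t2 i
      | some (.inl (2, i)) => .t3 i
      | some (.inl (3, i)) => .t4 i
      | some (.inr (true, o)) => .t5 o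
      | some (.inr (false, o)) => .t6 o
    refine Finite.of_surjective g fun τ => ?_
    cases τ with
    | root => exact ⟨none, rfl⟩
    | t1 i => exact ⟨some (.inl (0, i)), rfl⟩
    | t2 i => exact ⟨some (.inl (1, i)), rfl⟩
    | t3 i => exact ⟨some (.inl (2, i)), rfl⟩
    | t4 i => exact ⟨some (.inl (3, i)), rfl⟩
    | t5 o => exact ⟨some (.inr (true, o)), rfl⟩
    | t6 o => exact ⟨some (.inr (false, o)), rfl⟩
  refine ⟨5, Tr Q I, fT, mach I q0 cd, f, hf, fun h => hu (h.of_eq fun n => ?_)⟩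
  rw [← acc_iff I q0 cd hi hp]
  constructor
  · rintro ⟨L, h⟩
    exact ⟨_, L, rfl, h⟩
  · rintro ⟨x, L, hx, h⟩
    refine ⟨L, ?_⟩
    have hx : x 1 = f n := hx
    convert h using 1
    ext j; fin_cases j <;> simp [CM.aft, mach, hx]

/-! ### formulas -/

def sing (i : ℕ) : Fm := .and (.not (.all 0 (.sub i 0)))
  (.all 0 (.imp (.sub 0 i) (.imp (.not (.all 1 (.sub 0 1))) (.sub i 0))))
def allE (i : ℕ) (φ : Fm) : Fm := .all i (.imp (sing i) φ)
def exE (i : ℕ) (φ : Fm) : Fm := .ex i (.and (sing i) φ)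
def rel (s x y : ℕ) : Fm := .and (.sub x 15) (.and (.sub y 16) (exE 7 (.and (.sub 7 s)
  (.all 0 (.imp (.sub x 0) (.imp (.sub y 0) (.imp (.sub 7 0) (.not (.ind 0)))))))))
def su (y y' : ℕ) : Fm := exE 8 (.and (rel 13 8 y) (rel 14 8 y'))
def chF (φ : Fm) : Fm := exE 17 (.and (su 9 17) (exE 9 (.and (.sub 9 17) φ)))
def chain : ℕ → Fm
  | 0 => .sub 9 10
  | k + 1 => chF (chain k)
def chAt (k i j : ℕ) : Fm := exE 9 (.and (.sub 9 i) (exE 10 (.and (.sub 10 j) (chain k))))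
def conj : List Fm → Fm
  | [] => .sub 12 12
  | φ :: L => .and φ (conj L)
def lab (j k : ℕ) : Fm := exE 4 (.and (rel (20 + j) 2 4) (exE 6 (.and (.sub 6 12) (chAt k 6 4))))

variable {K : ℕ} {T : Type} (C : CM K T)

def stepJ (τ : T) (j : Fin K) : Fm := exE 4 (exE 5 (exE 6 (.and (rel (20 + j) 2 4)
  (.and (rel (20 + j) 3 5) (.and (chAt (C.al τ j) 6 4) (.and (chAt (C.be τ j) 6 5)
    (if C.zt τ j then .sub 6 12 else .sub 12 12)))))))
def ruleT (τ : T) : Fm := allE 2 (allE 3 (.imp (.sub 3 11)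
  (.imp (conj ((List.finRange K).map (stepJ C τ))) (.sub 2 11))))
def closed (L : List T) : Fm :=
  .and (allE 2 (.imp (lab C.jh C.h) (.sub 2 11))) (conj (L.map (ruleT C)))
def axs (K : ℕ) : Fm := .and (allE 4 (allE 5 (allE 6 (.imp (su 4 6) (.imp (su 5 6) (.sub 4 5))))))
  (.and (allE 4 (allE 5 (.imp (su 4 5) (.not (.sub 5 12)))))
    (conj ((List.finRange K).map fun j : Fin K => allE 2 (allE 4 (allE 5
      (.imp (rel (20 + j) 2 4) (.imp (rel (20 + j) 2 5) (.sub 4 5))))))))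
def body (L : List T) (v : Fin K → ℕ) : Fm := .and (axs K) (exE 2
  (.and (conj ((List.finRange K).map fun j : Fin K => lab j (v j)))
    (.all 11 (.imp (closed C L) (.sub 2 11)))))
def allL : ℕ → Fm → Fm
  | 0, φ => φ
  | n + 1, φ => .all n (allL n φ)
def phi (L : List T) (v : Fin K → ℕ) : Fm := allL (20 + K) (.not (body C L v))

/-! ### semantics -/

section sem
variable {E : Type} (Ind : Set E → Prop)

lemma sat_sing (i : ℕ) (h : 1 < i) (ρ : ℕ → Set E) : (sing i).Sat Ind ρ ↔ ∃ e, ρ i = {e} := by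
  have h0 : i ≠ 0 := by omega
  simp only [sing, Fm.Sat, Function.update_self, Function.update_of_ne h0,
    Function.update_of_ne (show (0 : ℕ) ≠ 1 by omega)]
  have em : ∀ S : Set E, (¬ ∀ a, S ⊆ a) ↔ S.Nonempty := fun S => by
    rw [Set.nonempty_iff_ne_empty, not_iff_not]
    exact ⟨fun h => Set.subset_empty_iff.1 (h ∅), fun h a => h ▸ Set.empty_subset a⟩
  simp only [em]
  constructor
  · rintro ⟨⟨e, he⟩, h⟩
    exact ⟨e, (h {e} (by simpa using he) (by simp)).antisymm (by simpa using he)⟩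
  · rintro ⟨e, he⟩
    rw [he]
    refine ⟨by simp, fun a ha ⟨x, hx⟩ => ?_⟩
    have := ha hx
    simp only [Set.mem_singleton_iff] at this
    simpa [← this] using hx

lemma sat_allE (i : ℕ) (h : 1 < i) (φ : Fm) (ρ : ℕ → Set E) :
    (allE i φ).Sat Ind ρ ↔ ∀ e, φ.Sat Ind (Function.update ρ i {e}) := by
  simp only [allE, Fm.Sat, sat_sing Ind i h, Function.update_self]
  exact ⟨fun h e => h _ ⟨e, rfl⟩, fun h a ⟨e, he⟩ => he ▸ h e⟩

lemma sat_exE (i : ℕ) (h : 1 < i) (φ : Fm) (ρ : ℕ → Set E) :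
    (exE i φ).Sat Ind ρ ↔ ∃ e, φ.Sat Ind (Function.update ρ i {e}) := by
  simp only [exE, Fm.Sat, sat_sing Ind i h, Function.update_self]
  exact ⟨fun ⟨a, ⟨e, he⟩, h⟩ => ⟨e, he ▸ h⟩, fun ⟨e, h⟩ => ⟨_, ⟨e, rfl⟩, h⟩⟩

def Tn (x y z : E) : Prop := ∀ W : Set E, x ∈ W → y ∈ W → z ∈ W → ¬ Ind W

/-- the parameters -/
structure Par (E : Type) where
  Z0 : Set E
  D : Set E
  Sh : Set E
  X : Set E
  Y : Set E
  Pr : ℕ → Set E

def par (ρ : ℕ → Set E) : Par E := ⟨ρ 12, ρ 13, ρ 14, ρ 15, ρ 16, fun j => ρ (20 + j)⟩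

lemma par_upd (ρ : ℕ → Set E) (i : ℕ) (h : i < 12 ∨ i = 17) (a : Set E) :
    par (Function.update ρ i a) = par ρ := by
  simp only [par]
  congr 1
  any_goals exact Function.update_of_ne (by omega) _ _
  funext j
  exact Function.update_of_ne (by omega) _ _

def R (p : Par E) (S : Set E) (x y : E) : Prop := x ∈ p.X ∧ y ∈ p.Y ∧ ∃ z ∈ S, Tn Ind x y z
def Su (p : Par E) (y y' : E) : Prop := ∃ x, R Ind p p.D x y ∧ R Ind p p.Sh x y'
def SuN (p : Par E) : ℕ → E → E → Prop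
  | 0, y, y' => y = y'
  | k + 1, y, y' => ∃ y'', Su Ind p y y'' ∧ SuN p k y'' y'

lemma sat_rel (s i j : ℕ) (ρ : ℕ → Set E) {x y : E} (hs : 7 < s) (hi : i ≠ 7 ∧ i ≠ 0)
    (hj : j ≠ 7 ∧ j ≠ 0) (hx : ρ i = {x}) (hy : ρ j = {y}) :
    (rel s i j).Sat Ind ρ ↔ R Ind (par ρ) (ρ s) x y := by
  simp [rel, Fm.Sat, sat_exE, R, Tn, par, hx, hy, Function.update_of_ne hi.1,
    Function.update_of_ne hi.2, Function.update_of_ne hj.1, Function.update_of_ne hj.2,
    Function.update_of_ne (show s ≠ 7 by omega)]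

lemma sat_su (i j : ℕ) (ρ : ℕ → Set E) {x y : E} (hi : i ≠ 7 ∧ i ≠ 0 ∧ i ≠ 8)
    (hj : j ≠ 7 ∧ j ≠ 0 ∧ j ≠ 8) (hx : ρ i = {x}) (hy : ρ j = {y}) :
    (su i j).Sat Ind ρ ↔ Su Ind (par ρ) x y := by
  simp only [su, sat_exE Ind 8 (by omega), Fm.Sat, Su]
  refine exists_congr fun e => ?_
  rw [sat_rel Ind 13 8 i _ (x := e) (y := x) (by omega) (by omega) (by omega) (by simp)
      (by rw [Function.update_of_ne hi.2.2, hx]),
    sat_rel Ind 14 8 j _ (x := e) (y := y) (by omega) (by omega) (by omega) (by simp)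
      (by rw [Function.update_of_ne hj.2.2, hy]), par_upd _ _ (by omega)]
  rfl

lemma sat_chain (k : ℕ) : ∀ (ρ : ℕ → Set E) {x y : E}, ρ 9 = {x} → ρ 10 = {y} →
    ((chain k).Sat Ind ρ ↔ SuN Ind (par ρ) k x y) := by
  induction k with
  | zero => intro ρ x y hx hy; simp [chain, Fm.Sat, SuN, hx, hy]
  | succ k ih =>
    intro ρ x y hx hy
    simp only [chain, chF, sat_exE Ind 17 (by omega), sat_exE Ind 9 (by omega), Fm.Sat, SuN]
    refine exists_congr fun e => ?_
    rw [sat_su Ind 9 17 _ (x := x) (y := e) (by omega) (by omega) (by simp [hx]) (by simp),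
      par_upd _ _ (by omega)]
    refine and_congr_right fun _ => ?_
    have : ∀ e', (chain k).Sat Ind (Function.update (Function.update ρ 17 {e}) 9 {e'}) ↔
        SuN Ind (par ρ) k e' y := fun e' => by
      rw [ih _ (x := e') (y := y) (by simp) (by simp [hy]), par_upd _ _ (by omega),
        par_upd _ _ (by omega)]
    simp [this]

lemma sat_chAt (k i j : ℕ) (ρ : ℕ → Set E) {x y : E} (hi : i ≠ 9) (hj : j ≠ 9 ∧ j ≠ 10)
    (hx : ρ i = {x}) (hy : ρ j = {y}) : (chAt k i j).Sat Ind ρ ↔ SuN Ind (par ρ) k x y := by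
  simp only [chAt, sat_exE Ind 9 (by omega), sat_exE Ind 10 (by omega), Fm.Sat]
  have : ∀ e e', (chain k).Sat Ind (Function.update (Function.update ρ 9 {e}) 10 {e'}) ↔
      SuN Ind (par ρ) k e e' := fun e e' => by
    rw [sat_chain Ind k _ (x := e) (y := e') (by simp) (by simp), par_upd _ _ (by omega),
      par_upd _ _ (by omega)]
  simp [this, Function.update_of_ne hi, Function.update_of_ne hj.1, Function.update_of_ne hj.2,
    hx, hy]

lemma sat_conj (L : List Fm) (ρ : ℕ → Set E) :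
    (conj L).Sat Ind ρ ↔ ∀ φ ∈ L, φ.Sat Ind ρ := by
  induction L with
  | nil => simp [conj, Fm.Sat]
  | cons φ L ih => simp [conj, Fm.Sat, ih]

def Lab (p : Par E) (j k : ℕ) (x : E) : Prop :=
  ∃ a, R Ind p (p.Pr j) x a ∧ ∃ m ∈ p.Z0, SuN Ind p k m a

lemma upd_big (ρ : ℕ → Set E) (i j : ℕ) (h : i < 20) (a : Set E) :
    Function.update ρ i a (20 + j) = ρ (20 + j) := Function.update_of_ne (by omega) _ _

lemma sat_lab (j k : ℕ) (ρ : ℕ → Set E) {x : E} (hx : ρ 2 = {x}) :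
    (lab j k).Sat Ind ρ ↔ Lab Ind (par ρ) j k x := by
  simp only [lab, sat_exE Ind 4 (by omega), sat_exE Ind 6 (by omega), Fm.Sat, Lab]
  refine exists_congr fun a => ?_
  rw [sat_rel Ind _ 2 4 _ (x := x) (y := a) (by omega) (by omega) (by omega) (by simp [hx])
    (by simp), par_upd _ _ (by omega), upd_big _ _ _ (by omega)]
  refine and_congr_right fun _ => exists_congr fun m => ?_
  rw [sat_chAt Ind k 6 4 _ (x := m) (y := a) (by omega) (by omega) (by simp) (by simp),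
    par_upd _ _ (by omega), par_upd _ _ (by omega)]
  simp [par]

def StepJ (p : Par E) (τ : T) (j : Fin K) (x x' : E) : Prop :=
  ∃ a a' m, R Ind p (p.Pr j) x a ∧ R Ind p (p.Pr j) x' a' ∧ SuN Ind p (C.al τ j) m a ∧
    SuN Ind p (C.be τ j) m a' ∧ (C.zt τ j = true → m ∈ p.Z0)

lemma sat_stepJ (τ : T) (j : Fin K) (ρ : ℕ → Set E) {x x' : E} (hx : ρ 2 = {x})
    (hx' : ρ 3 = {x'}) : (stepJ C τ j).Sat Ind ρ ↔ StepJ C Ind (par ρ) τ j x x' := by
  simp only [stepJ, sat_exE Ind 4 (by omega), sat_exE Ind 5 (by omega), sat_exE Ind 6 (by omega),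
    Fm.Sat, StepJ]
  refine exists_congr fun a => exists_congr fun a' => exists_congr fun m => ?_
  rw [sat_rel Ind _ 2 4 _ (x := x) (y := a) (by omega) (by omega) (by omega) (by simp [hx])
      (by simp),
    sat_rel Ind _ 3 5 _ (x := x') (y := a') (by omega) (by omega) (by omega) (by simp [hx'])
      (by simp),
    sat_chAt Ind _ 6 4 _ (x := m) (y := a) (by omega) (by omega) (by simp) (by simp),
    sat_chAt Ind _ 6 5 _ (x := m) (y := a') (by omega) (by omega) (by simp) (by simp)]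
  simp only [par_upd _ _ (show 6 < 12 ∨ 6 = 17 by omega), par_upd _ _ (show 5 < 12 ∨ 5 = 17 by omega),
    par_upd _ _ (show 4 < 12 ∨ 4 = 17 by omega), upd_big _ _ _ (show 6 < 20 by omega),
    upd_big _ _ _ (show 5 < 20 by omega), upd_big _ _ _ (show 4 < 20 by omega)]
  cases C.zt τ j <;> simp [Fm.Sat, par]

def Closed (p : Par E) (L : List T) (P : Set E) : Prop :=
  (∀ x, Lab Ind p C.jh C.h x → x ∈ P) ∧
    ∀ τ ∈ L, ∀ x x', x' ∈ P → (∀ j, StepJ C Ind p τ j x x') → x ∈ P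

lemma sat_closed (L : List T) (ρ : ℕ → Set E) :
    (closed C L).Sat Ind ρ ↔ Closed C Ind (par ρ) L (ρ 11) := by
  simp only [closed, Fm.Sat, sat_allE Ind 2 (by omega), sat_allE Ind 3 (by omega), sat_conj,
    List.forall_mem_map, ruleT, Closed, List.mem_finRange, forall_const]
  refine and_congr (forall_congr' fun x => ?_) (forall₂_congr fun τ _ =>
    forall₂_congr fun x x' => ?_)
  · rw [sat_lab Ind _ _ _ (x := x) (by simp), par_upd _ _ (by omega)]
    simp
  · have : ∀ j, (stepJ C τ j).Sat Ind (Function.update (Function.update ρ 2 {x}) 3 {x'}) ↔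
        StepJ C Ind (par ρ) τ j x x' := fun j => by
      rw [sat_stepJ C Ind τ j _ (x := x) (x' := x') (by simp) (by simp), par_upd _ _ (by omega),
        par_upd _ _ (by omega)]
    simp [this]

def Axs (K : ℕ) (p : Par E) : Prop := (∀ a b c, Su Ind p a c → Su Ind p b c → a = b) ∧
  (∀ a b, Su Ind p a b → b ∉ p.Z0) ∧
  ∀ (j : Fin K) x a b, R Ind p (p.Pr j) x a → R Ind p (p.Pr j) x b → a = b

lemma sat_axs (ρ : ℕ → Set E) : (axs K).Sat Ind ρ ↔ Axs Ind K (par ρ) := by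
  simp only [axs, Fm.Sat, sat_allE Ind 2 (by omega), sat_allE Ind 4 (by omega),
    sat_allE Ind 5 (by omega), sat_allE Ind 6 (by omega), sat_conj, List.forall_mem_map, Axs,
    List.mem_finRange, forall_const]
  refine and_congr (forall₃_congr fun a b c => ?_) (and_congr (forall₂_congr fun a b => ?_)
    (forall₄_congr fun j x a b => ?_))
  · rw [sat_su Ind 4 6 _ (x := a) (y := c) (by omega) (by omega) (by simp) (by simp),
      sat_su Ind 5 6 _ (x := b) (y := c) (by omega) (by omega) (by simp) (by simp),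
      par_upd _ _ (by omega), par_upd _ _ (by omega), par_upd _ _ (by omega)]
    simp
  · rw [sat_su Ind 4 5 _ (x := a) (y := b) (by omega) (by omega) (by simp) (by simp),
      par_upd _ _ (by omega), par_upd _ _ (by omega)]
    simp [par]
  · rw [sat_rel Ind _ 2 4 _ (x := x) (y := a) (by omega) (by omega) (by omega) (by simp)
      (by simp),
    sat_rel Ind _ 2 5 _ (x := x) (y := b) (by omega) (by omega) (by omega) (by simp)
      (by simp), par_upd _ _ (by omega), par_upd _ _ (by omega), par_upd _ _ (by omega),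
      upd_big _ _ _ (by omega), upd_big _ _ _ (by omega), upd_big _ _ _ (by omega)]
    simp [par]

def Body (p : Par E) (L : List T) (v : Fin K → ℕ) : Prop := Axs Ind K p ∧
  ∃ x, (∀ j : Fin K, Lab Ind p j (v j) x) ∧ ∀ P, Closed C Ind p L P → x ∈ P

lemma sat_body (L : List T) (v : Fin K → ℕ) (ρ : ℕ → Set E) :
    (body C L v).Sat Ind ρ ↔ Body C Ind (par ρ) L v := by
  simp only [body, Fm.Sat, sat_exE Ind 2 (by omega), sat_axs, sat_conj, List.forall_mem_map,
    List.mem_finRange, forall_const, Body, sat_closed]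
  refine and_congr_right fun _ => exists_congr fun x => and_congr (forall_congr' fun j => ?_)
    (forall_congr' fun P => ?_)
  · rw [sat_lab Ind _ _ _ (x := x) (by simp), par_upd _ _ (by omega)]
  · rw [par_upd _ _ (by omega), par_upd _ _ (by omega)]
    simp

lemma sat_allL (n : ℕ) (φ : Fm) : (∀ ρ, (allL n φ).Sat Ind ρ) ↔ ∀ ρ, φ.Sat Ind ρ := by
  induction n with
  | zero => rfl
  | succ n ih =>
    rw [← ih]
    exact ⟨fun h ρ => by simpa using h ρ (ρ n), fun h ρ a => h _⟩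

lemma sat_phi (L : List T) (v : Fin K → ℕ) :
    (∀ ρ, (phi C L v).Sat Ind ρ) ↔ ∀ p : Par E, ¬ Body C Ind p L v := by
  simp only [phi, sat_allL, Fm.Sat, sat_body]
  refine ⟨fun h p => ?_, fun h ρ => h _⟩
  have := h fun i => if i = 12 then p.Z0 else if i = 13 then p.D else if i = 14 then p.Sh else
    if i = 15 then p.X else if i = 16 then p.Y else p.Pr (i - 20)
  convert this
  cases p
  simp only [par]
  congr 1
  funext j
  rw [if_neg (by omega), if_neg (by omega), if_neg (by omega), if_neg (by omega),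
    if_neg (by omega), Nat.add_sub_cancel_left]

/-! ### soundness -/

def Num (p : Par E) : ℕ → E → Prop
  | 0, y => y ∈ p.Z0
  | n + 1, y' => ∃ y, Num p n y ∧ Su Ind p y y'

variable {Ind}

lemma push {p : Par E} : ∀ {k u : ℕ} {m a : E}, Num Ind p u m → SuN Ind p k m a →
    Num Ind p (k + u) a
  | 0, u, _, _, h, rfl => by simpa using h
  | k + 1, u, _, _, h, ⟨_, h1, h2⟩ => by
    have := push (u := u + 1) ⟨_, h, h1⟩ h2
    rwa [show k + (u + 1) = k + 1 + u by ring] at this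

lemma peel {p : Par E} (hA : Axs Ind K p) : ∀ {k n : ℕ} {m a : E}, SuN Ind p k m a →
    Num Ind p n a → ∃ u, n = k + u ∧ Num Ind p u m
  | 0, n, _, _, rfl, h => ⟨n, by simp, h⟩
  | k + 1, n, _, _, ⟨_, h1, h2⟩, h => by
    obtain ⟨u, rfl, h3⟩ := peel hA h2 h
    cases u with
    | zero => exact absurd h3 (hA.2.1 _ _ h1)
    | succ u =>
      obtain ⟨y, h4, h5⟩ := h3
      exact ⟨u, by ring, hA.1 _ _ _ h5 h1 ▸ h4⟩

lemma num_zero {p : Par E} (hA : Axs Ind K p) {u : ℕ} {m : E} (h : Num Ind p u m)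
    (hm : m ∈ p.Z0) : u = 0 := by
  cases u with
  | zero => rfl
  | succ u =>
    obtain ⟨y, -, h⟩ := h
    exact absurd hm (hA.2.1 _ _ h)

theorem sound {p : Par E} {L : List T} {v : Fin K → ℕ} (h : Body C Ind p L v) :
    ∃ M, C.Valid v M := by
  obtain ⟨hA, x, h1, h2⟩ := h
  refine h2 {x | ∀ v : Fin K → ℕ, (∀ j : Fin K, ∃ a, R Ind p (p.Pr j) x a ∧ Num Ind p (v j) a) →
    ∃ M, C.Valid v M} ⟨?_, ?_⟩ v fun j => ?_
  · rintro x ⟨a, r1, m, hm, h⟩ v hv
    obtain ⟨a', r2, h'⟩ := hv C.jh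
    obtain rfl := hA.2.2 _ _ _ _ r1 r2
    obtain ⟨u, e, hu⟩ := peel hA h h'
    exact ⟨[], by rw [CM.Valid, e, num_zero hA hu hm, add_zero]⟩
  · intro τ _ x x' hx' hs v hv
    have : ∀ j : Fin K, ∃ u, v j = C.al τ j + u ∧ (C.zt τ j = true → u = 0) ∧
        ∃ a, R Ind p (p.Pr j) x' a ∧ Num Ind p (C.be τ j + u) a := by
      intro j
      obtain ⟨a, a', m, r1, r2, s1, s2, hz⟩ := hs j
      obtain ⟨a2, r3, h'⟩ := hv j
      obtain rfl := hA.2.2 _ _ _ _ r1 r3
      obtain ⟨u, e, hu⟩ := peel hA s1 h'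
      exact ⟨u, e, fun h => num_zero hA hu (hz h), a', r2, push hu s2⟩
    choose u h3 h4 h5 using this
    have e : ∀ j, (if C.zt τ j then 0 else u j) = u j := fun j => by
      split_ifs with h
      · exact (h4 j h).symm
      · rfl
    obtain ⟨M, hM⟩ := hx' (C.aft τ u) fun j => by rw [CM.aft, e]; exact h5 j
    exact ⟨(τ, u) :: M, funext fun j => by rw [CM.bef, e]; exact h3 j, hM⟩
  · obtain ⟨a, r, m, hm, h⟩ := h1 j
    exact ⟨a, r, push (u := 0) hm h⟩

end sem

end LeadMS0
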