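import Mathlib
import Pool.Agent.Lib.lead.MS0

set_option autoImplicit false

namespace LeadMS0
open LeadCnt

variable {K : ℕ} {T : Type} (C : CM K T)

/-! ### completeness -/

def Bnd (B : ℕ) : (Fin K → ℕ) → List (T × (Fin K → ℕ)) → Prop
  | v, [] => ∀ j, v j < B
  | v, p :: L => (∀ j, v j < B) ∧ Bnd B (C.aft p.1 p.2) L

lemma Bnd.mono {B B' : ℕ} (h : B ≤ B') : ∀ {L : List (T × (Fin K → ℕ))} {v : Fin K → ℕ},
    Bnd C B v L → Bnd C B' v L
  | [], _, h1 => fun j => (h1 j).trans_le h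
  | _ :: _, _, h1 => ⟨fun j => (h1.1 j).trans_le h, Bnd.mono h h1.2⟩

lemma Bnd.hd {B : ℕ} : ∀ {L : List (T × (Fin K → ℕ))} {v : Fin K → ℕ},
    Bnd C B v L → ∀ j, v j < B
  | [], _, h1 => h1
  | _ :: _, _, h1 => h1.1

lemma exists_bnd : ∀ (L : List (T × (Fin K → ℕ))) (v : Fin K → ℕ), ∃ B, Bnd C B v L := by
  have h0 : ∀ v : Fin K → ℕ, ∀ j, v j < ∑ i, v i + 1 := fun v j =>
    Nat.lt_succ_of_le (Finset.single_le_sum (fun _ _ => Nat.zero_le _) (Finset.mem_univ j))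
  intro L
  induction L with
  | nil => exact fun v => ⟨_, h0 v⟩
  | cons p L ih =>
    intro v
    obtain ⟨B, hB⟩ := ih (C.aft p.1 p.2)
    exact ⟨max B (∑ i, v i + 1), fun j => (h0 v j).trans_le (le_max_right _ _),
      Bnd.mono C (le_max_left _ _) hB⟩

section model
variable {E : Type} {Ind : Set E → Prop} {B : ℕ} (iA : (Fin K → Fin B) ⊕ Fin B → E)
  (iB : Fin B → E) (iZ : ((Fin K → Fin B) ⊕ Fin B) × Fin B → E)

def stdPar : Par E where
  Z0 := iB '' {i | i.1 = 0}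
  D := iZ '' {q | q.1 = .inr q.2}
  Sh := iZ '' {q | ∃ i, q.1 = .inr i ∧ q.2.1 = i.1 + 1}
  X := Set.range iA
  Y := Set.range iB
  Pr j := iZ '' {q | ∃ c, q.1 = .inl c ∧ ∃ h : j < K, q.2 = c ⟨j, h⟩}

variable (hA : Function.Injective iA) (hB : Function.Injective iB)
  (hT : ∀ a b q, Tn Ind (iA a) (iB b) (iZ q) ↔ q = (a, b))
include hT

lemma R_iff (S : Set (((Fin K → Fin B) ⊕ Fin B) × Fin B)) (x y : E) :
    R Ind (stdPar iA iB iZ) (iZ '' S) x y ↔ ∃ a b, x = iA a ∧ y = iB b ∧ (a, b) ∈ S := by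
  constructor
  · rintro ⟨⟨a, rfl⟩, ⟨b, rfl⟩, _, ⟨q, hq, rfl⟩, h⟩
    exact ⟨a, b, rfl, rfl, (hT _ _ _).1 h ▸ hq⟩
  · rintro ⟨a, b, rfl, rfl, h⟩
    exact ⟨⟨a, rfl⟩, ⟨b, rfl⟩, _, ⟨_, h, rfl⟩, (hT _ _ _).2 rfl⟩

include hA in
lemma Su_iff (y y' : E) : Su Ind (stdPar iA iB iZ) y y' ↔
    ∃ i i' : Fin B, y = iB i ∧ y' = iB i' ∧ i'.1 = i.1 + 1 := by
  constructor
  · rintro ⟨x, h1, h2⟩
    obtain ⟨a, b, rfl, rfl, k1⟩ := (R_iff iA iB iZ hT _ _ _).1 h1
    obtain ⟨a', b', e, rfl, i, k2, h3⟩ := (R_iff iA iB iZ hT _ _ _).1 h2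
    obtain rfl := hA e
    have k1 : a = .inr b := k1
    have k2 : a = .inr i := k2
    obtain rfl : b = i := by simpa [k1] using k2
    exact ⟨_, _, rfl, rfl, h3⟩
  · rintro ⟨i, i', rfl, rfl, h⟩
    exact ⟨iA (.inr i), (R_iff iA iB iZ hT _ _ _).2 ⟨_, _, rfl, rfl, rfl⟩,
      (R_iff iA iB iZ hT _ _ _).2 ⟨_, _, rfl, rfl, i, rfl, h⟩⟩

include hA in
lemma SuN_of : ∀ (k : ℕ) (i i' : Fin B), i'.1 = k + i.1 →
    SuN Ind (stdPar iA iB iZ) k (iB i) (iB i')
  | 0, i, i', h => congrArg iB (Fin.ext (by omega))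
  | k + 1, i, i', h => ⟨iB ⟨i.1 + 1, by omega⟩,
      (Su_iff iA iB iZ hA hT _ _).2 ⟨_, _, rfl, rfl, rfl⟩, SuN_of k _ _ (by simp only; omega)⟩

lemma R_pr (c : Fin K → Fin B) (j : Fin K) :
    R Ind (stdPar iA iB iZ) ((stdPar iA iB iZ).Pr j) (iA (.inl c)) (iB (c j)) :=
  (R_iff iA iB iZ hT _ _ _).2 ⟨_, _, rfl, rfl, c, rfl, j.2, rfl⟩

include hA in
lemma lab_std (c : Fin K → Fin B) (j : Fin K) :
    Lab Ind (stdPar iA iB iZ) j (c j) (iA (.inl c)) :=
  ⟨_, R_pr iA iB iZ hT c j, iB ⟨0, Fin.pos (c j)⟩, ⟨_, rfl, rfl⟩,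
    SuN_of iA iB iZ hA hT _ _ _ rfl⟩

include hA hB in
theorem complete {L : List T} (hL : ∀ τ, τ ∈ L) {v : Fin K → ℕ} {M : List (T × (Fin K → ℕ))}
    (hv : C.Valid v M) (hb : Bnd C B v M) : Body C Ind (stdPar iA iB iZ) L v := by
  refine ⟨⟨?_, ?_, ?_⟩, iA (.inl fun j => ⟨v j, hb.hd C j⟩), fun j => lab_std iA iB iZ hA hT _ j,
    fun P hP => ?_⟩
  · intro a b c h1 h2
    obtain ⟨i, i', rfl, rfl, h1⟩ := (Su_iff iA iB iZ hA hT _ _).1 h1
    obtain ⟨k, k', rfl, e, h2⟩ := (Su_iff iA iB iZ hA hT _ _).1 h2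
    obtain rfl := hB e
    exact congrArg iB (Fin.ext (by omega))
  · rintro a b h ⟨k, hk, e⟩
    obtain ⟨i, i', rfl, rfl, h⟩ := (Su_iff iA iB iZ hA hT _ _).1 h
    obtain rfl := hB e
    have hk : k.1 = 0 := hk
    omega
  · intro j x a b h1 h2
    obtain ⟨a1, b1, rfl, rfl, c, h1, _, h1'⟩ := (R_iff iA iB iZ hT _ _ _).1 h1
    obtain ⟨a2, b2, e, rfl, c', h2, _, h2'⟩ := (R_iff iA iB iZ hT _ _ _).1 h2
    obtain rfl := hA e
    simp only at h1 h2 h1' h2'
    obtain rfl : c = c' := by simpa [h1] using h2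
    rw [h1', h2']
  · induction M generalizing v with
    | nil =>
      apply hP.1
      have := lab_std iA iB iZ hA hT (fun j => ⟨v j, hb.hd C j⟩) C.jh
      have hv : v C.jh = C.h := hv
      simpa only [hv] using this
    | cons p M ih =>
      obtain ⟨rfl, hv⟩ := hv
      refine hP.2 p.1 (hL _) _ _ (ih hv hb.2) fun j => ?_
      have h1 := hb.1 j
      refine ⟨_, _, iB ⟨if C.zt p.1 j then 0 else p.2 j, by simp only [CM.bef] at h1; omega⟩,
        R_pr iA iB iZ hT _ j, R_pr iA iB iZ hT _ j, SuN_of iA iB iZ hA hT _ _ _ rfl,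
        SuN_of iA iB iZ hA hT _ _ _ rfl, fun h => ⟨_, by simp [h], rfl⟩⟩

end model

/-! ### closedness and recursiveness -/

def Fm.lt (n : ℕ) : Fm → Prop
  | .sub i j => i < n ∧ j < n
  | .ind i => i < n
  | .not φ => φ.lt n
  | .and φ ψ => φ.lt n ∧ ψ.lt n
  | .imp φ ψ => φ.lt n ∧ ψ.lt n
  | .all _ φ => φ.lt n
  | .ex _ φ => φ.lt n

lemma Fm.lt_free {n k : ℕ} : ∀ {φ : Fm}, φ.lt n → φ.Free k → k < n
  | .sub _ _, h, h' => by simp only [Fm.lt, Fm.Free] at *; omega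
  | .ind _, h, h' => by simp only [Fm.lt, Fm.Free] at *; omega
  | .not φ, h, h' => Fm.lt_free (φ := φ) h h'
  | .and _ _, h, h' => h'.elim (Fm.lt_free h.1) (Fm.lt_free h.2)
  | .imp _ _, h, h' => h'.elim (Fm.lt_free h.1) (Fm.lt_free h.2)
  | .all _ φ, h, h' => Fm.lt_free (φ := φ) h h'.2
  | .ex _ φ, h, h' => Fm.lt_free (φ := φ) h h'.2

lemma lt_conj (n : ℕ) (hn : 20 ≤ n) (L : List Fm) : (conj L).lt n ↔ ∀ φ ∈ L, φ.lt n := by
  induction L with
  | nil => simp [conj, Fm.lt]; omega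
  | cons φ L ih => simp [conj, Fm.lt, ih]

lemma lt_chain (n : ℕ) (hn : 20 ≤ n) (k : ℕ) : (chain k).lt n := by
  induction k with
  | zero => simp only [chain, Fm.lt]; omega
  | succ k ih => simp only [chain, chF, exE, sing, su, rel, Fm.lt, ih, and_true]; omega

lemma lt_lab (j : Fin K) (k : ℕ) : (lab j k).lt (20 + K) := by
  have := lt_chain (20 + K) (by omega) k
  simp only [lab, chAt, exE, sing, rel, Fm.lt, this, and_true]; omega

lemma lt_body (L : List T) (v : Fin K → ℕ) : (body C L v).lt (20 + K) := by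
  have h1 : ∀ τ j, (stepJ C τ j).lt (20 + K) := by
    intro τ j
    have := lt_chain (20 + K) (by omega)
    have h : (if C.zt τ j then Fm.sub 6 12 else .sub 12 12).lt (20 + K) := by
      split_ifs <;> simp only [Fm.lt] <;> omega
    simp only [stepJ, chAt, exE, sing, rel, Fm.lt, this, h, and_true]; omega
  have h2 : ∀ j : Fin K, (allE 2 (allE 4 (allE 5
      (.imp (rel (20 + j) 2 4) (.imp (rel (20 + j) 2 5) (.sub 4 5)))))).lt (20 + K) := by
    intro j
    simp only [allE, exE, sing, rel, Fm.lt]; omega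
  have h3 : ∀ τ, (ruleT C τ).lt (20 + K) := by
    intro τ
    simp only [ruleT, allE, sing, Fm.lt, lt_conj _ (show 20 ≤ 20 + K by omega),
      List.forall_mem_map, h1, implies_true, true_and]
    omega
  have h4 : (axs K).lt (20 + K) := by
    refine ⟨?_, ?_, ?_⟩
    · simp only [allE, exE, sing, su, rel, Fm.lt]; omega
    · simp only [allE, exE, sing, su, rel, Fm.lt]; omega
    · simp only [lt_conj _ (show 20 ≤ 20 + K by omega), List.forall_mem_map, h2, implies_true]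
  simp only [body, closed, allE, exE, sing, Fm.lt, lt_conj _ (show 20 ≤ 20 + K by omega),
    List.forall_mem_map, lt_lab, h3, h4, implies_true, true_and, and_true]
  omega

lemma free_allL (k : ℕ) (φ : Fm) : ∀ n, (allL n φ).Free k → n ≤ k ∧ φ.Free k
  | 0, h => ⟨Nat.zero_le _, h⟩
  | n + 1, h => by
    have := free_allL k φ n h.2
    have h1 := h.1
    exact ⟨by omega, this.2⟩

lemma free_phi (L : List T) (v : Fin K → ℕ) (k : ℕ) : ¬ (phi C L v).Free k := by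
  intro h
  have h1 := free_allL _ _ _ h
  have := Fm.lt_free (φ := body C L v) (lt_body C L v) h1.2
  omega

def PFm (F : ℕ → Fm) : Prop := Primrec fun n => (F n).code

lemma pp (a : ℕ) {f g : ℕ → ℕ} (hf : Primrec f) (hg : Primrec g) :
    Primrec fun n => Nat.pair a (Nat.pair (f n) (g n)) :=
  Primrec₂.natPair.comp (Primrec.const a) (Primrec₂.natPair.comp hf hg)

lemma PFm.const (t : Fm) : PFm fun _ => t := Primrec.const _
lemma PFm.not {F : ℕ → Fm} (h : PFm F) : PFm fun n => .not (F n) :=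
  (Primrec₂.natPair.comp (Primrec.const 2) h).of_eq fun _ => by rw [Fm.code]
lemma PFm.and {F F' : ℕ → Fm} (h : PFm F) (h' : PFm F') : PFm fun n => .and (F n) (F' n) :=
  (pp 3 h h').of_eq fun _ => by rw [Fm.code]
lemma PFm.all (i : ℕ) {F : ℕ → Fm} (h : PFm F) : PFm fun n => .all i (F n) :=
  (pp 5 (Primrec.const i) h).of_eq fun _ => by rw [Fm.code]
lemma PFm.ex (i : ℕ) {F : ℕ → Fm} (h : PFm F) : PFm fun n => .ex i (F n) :=
  (pp 6 (Primrec.const i) h).of_eq fun _ => by rw [Fm.code]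
lemma PFm.exE (i : ℕ) {F : ℕ → Fm} (h : PFm F) : PFm fun n => exE i (F n) :=
  .ex i (.and (.const _) h)
lemma PFm.allL (k : ℕ) {F : ℕ → Fm} (h : PFm F) : PFm fun n => allL k (F n) := by
  induction k with
  | zero => exact h
  | succ k ih => exact .all k ih
lemma PFm.conj {ι : Type} (l : List ι) {F : ι → ℕ → Fm} (h : ∀ i, PFm (F i)) :
    PFm fun n => conj (l.map fun i => F i n) := by
  induction l with
  | nil => exact .const _
  | cons i l ih => exact .and (h i) ih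

lemma PFm.chain : PFm chain := by
  obtain ⟨H, h1, h2⟩ : ∃ H : ℕ → ℕ, Primrec H ∧ ∀ φ, (chF φ).code = H φ.code := by
    obtain ⟨c1, e1⟩ : ∃ c, c = (sing 17).code := ⟨_, rfl⟩
    obtain ⟨c2, e2⟩ : ∃ c, c = (su 9 17).code := ⟨_, rfl⟩
    obtain ⟨c3, e3⟩ : ∃ c, c = (sing 9).code := ⟨_, rfl⟩
    obtain ⟨c4, e4⟩ : ∃ c, c = (Fm.sub 9 17).code := ⟨_, rfl⟩
    refine ⟨_, pp 6 (Primrec.const 17) (pp 3 (Primrec.const c1) (pp 3 (Primrec.const c2)
      (pp 6 (Primrec.const 9) (pp 3 (Primrec.const c3) (pp 3 (Primrec.const c4) Primrec.id))))),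
      fun φ => ?_⟩
    rw [chF, LeadMS0.exE, LeadMS0.exE, Fm.code, Fm.code, Fm.code, Fm.code, Fm.code, Fm.code,
      ← e1, ← e2, ← e3, ← e4, id]
  obtain ⟨c, hc⟩ : ∃ c, c = (LeadMS0.chain 0).code := ⟨_, rfl⟩
  have h6 : Primrec fun n => H^[n] c :=
    Primrec.nat_iterate Primrec.id (Primrec.const c) (h1.comp Primrec.snd).to₂
  refine h6.of_eq fun n => ?_
  induction n with
  | zero => exact hc
  | succ n ih => rw [Function.iterate_succ_apply', ih, ← h2, LeadMS0.chain]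

lemma prim_phi (L : List T) {v : ℕ → Fin K → ℕ} (hv : ∀ j, Primrec fun n => v n j) :
    PFm fun n => phi C L (v n) :=
  .allL _ (.not (.and (.const _) (.exE _ (.and (.conj _ fun j => .exE _ (.and (.const _)
    (.exE _ (.and (.const _) (.exE _ (.and (.const _) (.exE _ (.and (.const _)
      (Primrec.comp (f := fun n => (chain n).code) PFm.chain (hv j)))))))))) (.const _)))))

/-- A class whose members can code the pairing of two arbitrarily large finite sets has an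
undecidable `MS₀` theory. -/
theorem undec (Cl : ∀ E : Type, (Set E → Prop) → Prop)
    (hCl : ∀ (A B : Type) [Finite A] [Finite B] [Nonempty A] [Nontrivial B],
      ∃ (E : Type) (Ind : Set E → Prop), Cl E Ind ∧ ∃ (iA : A → E) (iB : B → E) (iZ : A × B → E),
        Function.Injective iA ∧ Function.Injective iB ∧
        ∀ a b q, Tn Ind (iA a) (iB b) (iZ q) ↔ q = (a, b)) :
    ¬ ∃ g : ℕ → Bool, Computable g ∧ ∀ φ : Fm, (∀ n, ¬ φ.Free n) →
      (g φ.code = true ↔ ∀ (E : Type) (Ind : Set E → Prop), Cl E Ind → ∀ ρ, φ.Sat Ind ρ) := by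
  obtain ⟨K, T, fT, C, f, hf, hu⟩ := exists_cm2
  have := Fintype.ofFinite T
  let L := (Finset.univ : Finset T).toList
  have hL : ∀ τ, τ ∈ L := fun τ => by simp [L]
  rintro ⟨g, hg, h⟩
  have hv : ∀ j, Primrec fun n => C.aft C.r (fun _ => f n) j := by
    intro j
    simp only [CM.aft]
    split_ifs
    · exact Primrec.const _
    · exact Primrec.nat_add.comp (Primrec.const _) hf
  have key : ∀ v, g (phi C L v).code = true ↔ ¬ ∃ M, C.Valid v M := by
    intro v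
    rw [h _ (free_phi C L v)]
    simp only [sat_phi]
    refine ⟨fun h ⟨M, hM⟩ => ?_, fun h E Ind _ p hp => h (sound C hp)⟩
    obtain ⟨B, hB⟩ := exists_bnd C M v
    obtain ⟨E, Ind, h1, iA, iB, iZ, hA, hB', hT⟩ :=
      hCl ((Fin K → Fin (B + 2)) ⊕ Fin (B + 2)) (Fin (B + 2))
    exact h E Ind h1 _ (complete C iA iB iZ hA hB' hT hL hM (Bnd.mono C (by omega) hB))
  refine hu (ComputablePred.computable_iff.2
    ⟨fun n => !g (phi C L (C.aft C.r fun _ => f n)).code, ?_, ?_⟩)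
  · exact Primrec.not.to_comp.comp (hg.comp (Primrec.to_comp (prim_phi C L hv)))
  · funext n
    have h1 := key (C.aft C.r fun _ => f n)
    clear key h hu
    generalize (∃ M, C.Valid (C.aft C.r fun _ => f n) M) = P at *
    by_cases h : P <;> cases hg : g (phi C L (C.aft C.r fun _ => f n)).code <;> simp_all

end LeadMS0
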