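import Mathlib

set_option autoImplicit false

namespace Pool.Agent.Lib.MTL

/-- MTL-algebras: bounded commutative integral residuated lattices with prelinearity
(`1` is the top and the monoid unit, `f` is the bottom `0`). -/
class MTL (A : Type) extends Lattice A, CommMonoid A where
  imp : A → A → A
  f : A
  res : ∀ a b c : A, a * b ≤ c ↔ b ≤ imp a c
  le_one : ∀ a : A, a ≤ 1
  f_le : ∀ a : A, f ≤ a
  prelin : ∀ a b : A, imp a b ⊔ imp b a = 1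

inductive Fm
  | var (n : ℕ)
  | and (φ ψ : Fm)
  | or (φ ψ : Fm)
  | mul (φ ψ : Fm)
  | imp (φ ψ : Fm)
  | e
  | f

def Fm.vars : Fm → Set ℕ
  | .var n => {n}
  | .and φ ψ => φ.vars ∪ ψ.vars
  | .or φ ψ => φ.vars ∪ ψ.vars
  | .mul φ ψ => φ.vars ∪ ψ.vars
  | .imp φ ψ => φ.vars ∪ ψ.vars
  | .e => ∅
  | .f => ∅

def Fm.subst (σ : ℕ → Fm) : Fm → Fm
  | .var n => σ n
  | .and φ ψ => .and (φ.subst σ) (ψ.subst σ)
  | .or φ ψ => .or (φ.subst σ) (ψ.subst σ)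
  | .mul φ ψ => .mul (φ.subst σ) (ψ.subst σ)
  | .imp φ ψ => .imp (φ.subst σ) (ψ.subst σ)
  | .e => .e
  | .f => .f

def Fm.eval {A : Type} [MTL A] (v : ℕ → A) : Fm → A
  | .var n => v n
  | .and φ ψ => φ.eval v ⊓ ψ.eval v
  | .or φ ψ => φ.eval v ⊔ ψ.eval v
  | .mul φ ψ => φ.eval v * ψ.eval v
  | .imp φ ψ => MTL.imp (φ.eval v) (ψ.eval v)
  | .e => 1
  | .f => MTL.f

/-- The consequence relation of MTL. -/
def Cons (Γ : Set Fm) (φ : Fm) : Prop :=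
  ∀ (A : Type) [MTL A] (v : ℕ → A), (∀ γ ∈ Γ, γ.eval v = 1) → φ.eval v = 1

/-- The extension of MTL by the extra theorems `Ax`. -/
def Ext (Ax : Set Fm) (Γ : Set Fm) (φ : Fm) : Prop := Cons (Γ ∪ Ax) φ

def SubstClosed (Ax : Set Fm) : Prop := ∀ σ : ℕ → Fm, ∀ φ ∈ Ax, φ.subst σ ∈ Ax

def DIP (L : Set Fm → Fm → Prop) : Prop :=
  ∀ Γ φ, L Γ φ → ∃ P : Set Fm, (∀ π ∈ P, π.vars ⊆ (⋃ γ ∈ Γ, γ.vars) ∩ φ.vars) ∧
    (∀ π ∈ P, L Γ π) ∧ L P φ

/-- The extensions of MTL (as consequence relations) that have the DIP. -/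
def ExtDIP : Set (Set Fm → Fm → Prop) := {L | (∃ A, SubstClosed A ∧ L = Ext A) ∧ DIP L}

/-! ### Generic machinery -/

lemma imp_eq_one {A : Type} [MTL A] (a b : A) : MTL.imp a b = 1 ↔ a ≤ b := by
  constructor
  · intro h
    have := (MTL.res a 1 b).2 h.ge
    rwa [mul_one] at this
  · intro h
    exact le_antisymm (MTL.le_one _) ((MTL.res a 1 b).1 (by rwa [mul_one]))

lemma eval_subst {A : Type} [MTL A] (v : ℕ → A) (σ : ℕ → Fm) (φ : Fm) :
    (φ.subst σ).eval v = φ.eval (fun n => (σ n).eval v) := by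
  induction φ <;> simp_all [Fm.subst, Fm.eval]

lemma eval_congr {A : Type} [MTL A] (v w : ℕ → A) (φ : Fm) (h : ∀ n ∈ φ.vars, v n = w n) :
    φ.eval v = φ.eval w := by
  induction φ with
  | var n => exact h n rfl
  | e => rfl
  | f => rfl
  | _ φ ψ h1 h2 =>
    simp only [Fm.eval, h1 fun n hn => h n (Or.inl hn), h2 fun n hn => h n (Or.inr hn)]

def conj : List Fm → Fm
  | [] => .e
  | φ :: l => .and φ (conj l)

lemma conj_eval {A : Type} [MTL A] (v : ℕ → A) (l : List Fm) :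
    (conj l).eval v = 1 ↔ ∀ φ ∈ l, φ.eval v = 1 := by
  induction l with
  | nil => simp [conj, Fm.eval]
  | cons φ l ih =>
    simp only [conj, Fm.eval, List.forall_mem_cons, ← ih]
    constructor
    · intro h
      exact ⟨le_antisymm (MTL.le_one _) (h ▸ inf_le_left),
        le_antisymm (MTL.le_one _) (h ▸ inf_le_right)⟩
    · rintro ⟨h1, h2⟩
      rw [h1, h2, inf_idem]

lemma conj_vars (l : List Fm) (Z : Set ℕ) (h : ∀ φ ∈ l, φ.vars ⊆ Z) : (conj l).vars ⊆ Z := by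
  induction l with
  | nil => simp [conj, Fm.vars]
  | cons φ l ih =>
    simp only [List.forall_mem_cons] at h
    exact Set.union_subset h.1 (ih h.2)

def pw (φ ψ : Fm) : Fm := .imp (.mul (.mul φ φ) (.mul φ φ)) ψ

lemma pw_vars (φ : Fm) : (pw φ .f).vars = φ.vars := by simp [pw, Fm.vars]

section
universe u
variable {M : Type u} (car : M → Type) [∀ m, MTL (car m)]

def Sat (Γ : Set Fm) : Prop := ∃ (m : M) (v : ℕ → car m), ∀ γ ∈ Γ, γ.eval v = 1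

def Sem (Γ : Set Fm) (φ : Fm) : Prop :=
  ∀ (m : M) (v : ℕ → car m), (∀ γ ∈ Γ, γ.eval v = 1) → φ.eval v = 1

def Ax : Set Fm := {φ | Sem car ∅ φ}

lemma ax_closed : SubstClosed (Ax car) := by
  intro σ φ h m v _
  rw [eval_subst]
  exact h m _ (by simp)

def Nil : Prop := ∀ (m : M) (a : car m), a * a * (a * a) ≤ MTL.f ↔ a ≠ 1

def Cpt : Prop := ∀ Γ : Set Fm, (∀ F : Finset Fm, ↑F ⊆ Γ → Sat car F) → Sat car Γ

def Amal : Prop := ∀ (m m' : M) (v : ℕ → car m) (w : ℕ → car m') (X Y : Set ℕ),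
  (∀ θ : Fm, θ.vars ⊆ X ∩ Y → (θ.eval v = 1 ↔ θ.eval w = 1)) →
  ∃ (k : M) (V : ℕ → car k), (∀ θ : Fm, θ.vars ⊆ X → (θ.eval V = 1 ↔ θ.eval v = 1)) ∧
    (∀ θ : Fm, θ.vars ⊆ Y → (θ.eval V = 1 ↔ θ.eval w = 1))

variable {car}

lemma pw_f (hn : Nil car) {m : M} (v : ℕ → car m) (φ : Fm) :
    (pw φ .f).eval v = 1 ↔ φ.eval v ≠ 1 := by
  rw [← hn]
  exact imp_eq_one _ _

lemma ext_iff (hn : Nil car) (hc : Cpt car) (Γ : Set Fm) (φ : Fm) :
    Ext (Ax car) Γ φ ↔ Sem car Γ φ := by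
  classical
  constructor
  · intro h m v hv
    refine h _ v ?_
    rintro γ (hγ | hγ)
    · exact hv γ hγ
    · exact hγ m v (by simp)
  · intro h A _ v hv
    have : ¬ Sat car (insert (pw φ .f) Γ) := by
      rintro ⟨m, w, hw⟩
      exact (pw_f hn w φ).1 (hw _ (Or.inl rfl)) (h m w fun γ hγ => hw γ (Or.inr hγ))
    have := mt (hc _) this
    push Not at this
    obtain ⟨F, hF, hs⟩ := this
    let l := (F.filter (· ∈ Γ)).toList
    have hax : pw (conj l) φ ∈ Ax car := by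
      intro m w _
      by_contra hc
      have h1 : (conj l).eval w = 1 := by
        by_contra h1
        exact hc ((imp_eq_one _ _).2 (((hn m _).2 h1).trans (MTL.f_le _)))
      have h2 : φ.eval w ≠ 1 := fun h2 => hc ((imp_eq_one _ _).2 (h2 ▸ MTL.le_one _))
      refine hs ⟨m, w, fun γ hγ => ?_⟩
      rcases hF hγ with rfl | hγ'
      · exact (pw_f hn w φ).2 h2
      · exact (conj_eval w l).1 h1 γ (by simpa [l, hγ'] using hγ)
    have h1 : (conj l).eval v = 1 := (conj_eval v l).2 fun γ hγ => hv γ (Or.inl (by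
      simp only [l, Finset.mem_toList, Finset.mem_filter] at hγ; exact hγ.2))
    have h2 := hv _ (Or.inr hax)
    simp only [pw, Fm.eval, h1, mul_one] at h2
    exact le_antisymm (MTL.le_one _) ((imp_eq_one _ _).1 h2)

/-- A valuation whose `Z`-diagram respects the `Z`-consequences of `Γ` extends, diagram-wise. -/
lemma diag (hn : Nil car) (hc : Cpt car) (Γ : Set Fm) (Z : Set ℕ) {H : Type} [MTL H]
    (hH : ∀ a : H, a * a * (a * a) ≤ MTL.f ↔ a ≠ 1) (w : ℕ → H)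
    (hw : ∀ π : Fm, π.vars ⊆ Z → Sem car Γ π → π.eval w = 1) :
    ∃ (m : M) (v : ℕ → car m), (∀ γ ∈ Γ, γ.eval v = 1) ∧
      ∀ θ : Fm, θ.vars ⊆ Z → (θ.eval v = 1 ↔ θ.eval w = 1) := by
  classical
  have pf : ∀ φ : Fm, (pw φ .f).eval w = 1 ↔ φ.eval w ≠ 1 := fun φ => by
    rw [← hH]
    exact imp_eq_one _ _
  have hs : Sat car (Γ ∪ {θ | θ.vars ⊆ Z ∧ θ.eval w = 1}) := by
    refine hc _ fun F hF => ?_
    by_contra hc
    let l := (F.filter (· ∉ Γ)).toList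
    have hl : ∀ θ ∈ l, θ.vars ⊆ Z ∧ θ.eval w = 1 := by
      intro θ hθ
      simp only [l, Finset.mem_toList, Finset.mem_filter] at hθ
      exact (hF hθ.1).resolve_left hθ.2
    refine (pf (conj l)).1 (hw _ ?_ ?_) ((conj_eval w l).2 fun θ hθ => (hl θ hθ).2)
    · rw [pw_vars]; exact conj_vars l Z fun θ hθ => (hl θ hθ).1
    · intro m v hv
      rw [pw_f hn]
      intro h'
      refine hc ⟨m, v, fun γ hγ => ?_⟩
      by_cases hγ' : γ ∈ Γ
      · exact hv γ hγ'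
      · exact (conj_eval v l).1 h' γ (by simpa [l, hγ'] using hγ)
  obtain ⟨m, v, hv⟩ := hs
  refine ⟨m, v, fun γ hγ => hv γ (Or.inl hγ), fun θ hθ => ?_⟩
  refine ⟨fun h' => ?_, fun h' => hv θ (Or.inr ⟨hθ, h'⟩)⟩
  by_contra hc
  exact (pw_f hn v θ).1 (hv _ (Or.inr ⟨by rwa [pw_vars], (pf θ).2 hc⟩)) h'

lemma dip (hn : Nil car) (hc : Cpt car) (ha : Amal car) : DIP (Ext (Ax car)) := by
  intro Γ φ h
  refine ⟨{π | π.vars ⊆ (⋃ γ ∈ Γ, γ.vars) ∩ φ.vars ∧ Ext (Ax car) Γ π}, fun π hπ => hπ.1,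
    fun π hπ => hπ.2, ?_⟩
  rw [ext_iff hn hc] at h ⊢
  intro m' w hw
  obtain ⟨m, v, hv, hd⟩ := diag hn hc Γ ((⋃ γ ∈ Γ, γ.vars) ∩ φ.vars) (hn m') w
    (fun π h1 h2 => hw π ⟨h1, (ext_iff hn hc _ _).2 h2⟩)
  obtain ⟨k, V, h1, h2⟩ := ha m m' v w _ _ hd
  refine (h2 φ le_rfl).1 (h k V fun γ hγ => ?_)
  exact (h1 γ (Set.subset_biUnion_of_mem (u := Fm.vars) hγ)).2 (hv γ hγ)

lemma mem_extDIP (hn : Nil car) (hc : Cpt car) (ha : Amal car) : Ext (Ax car) ∈ ExtDIP :=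
  ⟨⟨_, ax_closed car, rfl⟩, dip hn hc ha⟩

end

end Pool.Agent.Lib.MTL
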