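import Mathlib

/-! Data for a set of 250 points in `ℙ^18` (50 lines, 5 points on each). -/

set_option autoImplicit false

namespace Pool.Agent.NonUni

/-- The table of base coordinates, 8 bits per entry, offset 128. -/
def tab : ℕ :=
  0x7f808080808080808080808080808080818481807f808080808080808080808080808180848180807f808080808080808080808080808283818080807f808080808080808080808082808381808080807f808080808080808080808182828180808080807f808080808080808080828182818080808080807f808080808080808083808281808080808080807f808080808080808084818180808080808080807f808080808080818381818080808080808080807f808080808083818181808080808080808080807f808080808184808180808080808080808080807f808080828380818080808080808080808080807f808083828081808080808080808080808080807f808481808180808080808080808080808080807f85808081818180808080808080808080808080808084818480828080808080808080808080808081838180848082808080808080808080808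0818083818080838081808080808080808080808082828180808080828280808080808080808081818281808080838081838080808080808080828082818080808080808084818080808080808083818180808080828080808380808080808081828181808080808082808080838080808080828181818080808080808280808180808080808380818180808080808080818080818080808080848081808080808080808081808482808080818380818080808080808080808080838380808282808180808080808080808081808082848083818081808080808080808080808080808185848080817c7c7f7f8080808080808080808080808083817a807a807e7f80808080808080808080818281807a807a7f7e7d80808080808080808180828180807d807e80807a7d80808080808080828181808080807c7c80807d7d8080808080818181818080807d807e7a80807d808080808082808181808080808080807c7f807c7f80808080838081808080807f8080807d807a7a7d80808182808180808080807f8080807d807d7a7a80828180818080808080807f80807f80807f7c7683808081868683838181818080808080808080808082818480868084828084838180808080808081818180848086828486808183808080808081808181808081808180808683808683818080808280818080808082828080838384868684808181808180808081808183808083808183868a828080817c7c7d7d7e7e7e7f7f7f8080808080808081817f807e807e7f807c7d7f7c7d7e7f8080818081807f807e7f7e7d807f7d7f7e7d7c7b8180808181818181818181818181818181818180808081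

def base (j : Fin 50) (i : Fin 19) : ℤ :=
  (((tab >>> (8 * (19 * j.val + i.val))) % 256 : ℕ) : ℤ) - 128

def tt (k : Fin 5) : ℤ := [1, -1, 2, -3, -6].getD k.val 0

def mu (a : ℕ) (k : Fin 5) : ℤ :=
  ([[540, 504, -126, -84, 6], [540, -504, -63, 28, -1], [-105, -98, 119, 91, -7], [-120, 84, 63, -28, 1], [-15, 14, 7, -7, 1]].getD a []).getD k.val 0

def gam (k : Fin 5) : ℤ := mu 1 k

abbrev Fac := Fin 19 × ℕ
abbrev Ent := List Fac × Fin 50

def val (j : Fin 50) (f : Fac) : ℤ := if f.1.val < 4 then base j f.1 - f.2 else base j f.1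

def wt (m : List Fac) : ℕ := m.countP (fun f => decide (4 ≤ f.1.val))

def bm (m : List Fac) (j : Fin 50) : ℤ := (m.map (val j)).prod

def tau (k : Fin 5) (i : Fin 19) : ℤ := if i.val < 4 then 1 else tt k

def LU : List Ent :=
  [([], 0),
   ([(3, 0)], 1),
   ([(2, 0)], 2),
   ([(1, 0)], 3),
   ([(3, 0), (3, 1)], 4),
   ([(2, 0), (3, 0)], 5),
   ([(2, 0), (2, 1)], 6),
   ([(1, 0), (3, 0)], 7),
   ([(1, 0), (2, 0)], 8),
   ([(1, 0), (1, 1)], 9),
   ([(3, 0), (3, 1), (3, 2)], 10),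
   ([(2, 0), (3, 0), (3, 1)], 11),
   ([(2, 0), (2, 1), (3, 0)], 12),
   ([(2, 0), (2, 1), (2, 2)], 13),
   ([(1, 0), (3, 0), (3, 1)], 14),
   ([(1, 0), (2, 0), (3, 0)], 15),
   ([(1, 0), (2, 0), (2, 1)], 16),
   ([(1, 0), (1, 1), (3, 0)], 17),
   ([(1, 0), (1, 1), (2, 0)], 18),
   ([(1, 0), (1, 1), (1, 2)], 19),
   ([(3, 0), (3, 1), (3, 2), (3, 3)], 20),
   ([(2, 0), (3, 0), (3, 1), (3, 2)], 21),
   ([(2, 0), (2, 1), (3, 0), (3, 1)], 22),
   ([(2, 0), (2, 1), (2, 2), (3, 0)], 23),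
   ([(2, 0), (2, 1), (2, 2), (2, 3)], 24),
   ([(1, 0), (3, 0), (3, 1), (3, 2)], 25),
   ([(1, 0), (2, 0), (3, 0), (3, 1)], 26),
   ([(1, 0), (2, 0), (2, 1), (3, 0)], 27),
   ([(1, 0), (2, 0), (2, 1), (2, 2)], 28),
   ([(1, 0), (1, 1), (3, 0), (3, 1)], 29),
   ([(1, 0), (1, 1), (2, 0), (3, 0)], 30),
   ([(1, 0), (1, 1), (2, 0), (2, 1)], 31),
   ([(1, 0), (1, 1), (1, 2), (3, 0)], 32),
   ([(1, 0), (1, 1), (1, 2), (2, 0)], 33),
   ([(1, 0), (1, 1), (1, 2), (1, 3)], 34),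
   ([(3, 0), (3, 1), (3, 2), (3, 3), (3, 4)], 35),
   ([(2, 0), (3, 0), (3, 1), (3, 2), (3, 3)], 36),
   ([(2, 0), (2, 1), (3, 0), (3, 1), (3, 2)], 37),
   ([(2, 0), (2, 1), (2, 2), (3, 0), (3, 1)], 38),
   ([(2, 0), (2, 1), (2, 2), (2, 3), (3, 0)], 39),
   ([(1, 0), (2, 0), (3, 0), (3, 1), (3, 2)], 40),
   ([(1, 0), (2, 0), (2, 1), (2, 2), (3, 0)], 41),
   ([(1, 0), (2, 0), (2, 1), (2, 2), (2, 3)], 42),
   ([(1, 0), (1, 1), (3, 0), (3, 1), (3, 2)], 43),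
   ([(1, 0), (1, 1), (2, 0), (3, 0), (3, 1)], 44),
   ([(1, 0), (1, 1), (2, 0), (2, 1), (3, 0)], 45),
   ([(1, 0), (1, 1), (1, 2), (3, 0), (3, 1)], 46),
   ([(1, 0), (1, 1), (1, 2), (2, 0), (2, 1)], 47),
   ([(1, 0), (1, 1), (1, 2), (1, 3), (3, 0)], 48),
   ([(1, 0), (1, 1), (1, 2), (1, 3), (2, 0)], 49)]

def LV1 : List Ent :=
  [([(4, 0)], 35),
   ([(5, 0)], 36),
   ([(6, 0)], 37),
   ([(7, 0)], 38),
   ([(8, 0)], 39),
   ([(9, 0)], 40),
   ([(10, 0)], 41),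
   ([(11, 0)], 42),
   ([(12, 0)], 43),
   ([(13, 0)], 44),
   ([(14, 0)], 45),
   ([(15, 0)], 46),
   ([(16, 0)], 47),
   ([(17, 0)], 48),
   ([(18, 0)], 49),
   ([(4, 0), (3, 5)], 20),
   ([(5, 0), (3, 4)], 21),
   ([(6, 0), (3, 3)], 22),
   ([(7, 0), (3, 2)], 23),
   ([(8, 0), (3, 1)], 24),
   ([(9, 0), (2, 1)], 25),
   ([(9, 0), (3, 3)], 26),
   ([(10, 0), (2, 3)], 27),
   ([(10, 0), (3, 1)], 28),
   ([(12, 0), (3, 3)], 29),
   ([(13, 0), (3, 2)], 30),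
   ([(14, 0), (3, 1)], 31),
   ([(15, 0), (3, 2)], 32),
   ([(16, 0), (2, 2)], 33),
   ([(17, 0), (3, 1)], 34),
   ([(4, 0), (3, 4), (3, 5)], 10),
   ([(5, 0), (3, 3), (3, 4)], 11),
   ([(6, 0), (3, 2), (3, 3)], 12),
   ([(7, 0), (3, 1), (3, 2)], 13),
   ([(9, 0), (2, 1), (3, 3)], 14),
   ([(9, 0), (3, 2), (3, 3)], 15),
   ([(10, 0), (2, 3), (3, 1)], 16),
   ([(12, 0), (3, 2), (3, 3)], 17),
   ([(13, 0), (3, 1), (3, 2)], 18),
   ([(15, 0), (3, 1), (3, 2)], 19),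
   ([(4, 0), (3, 3), (3, 4), (3, 5)], 4),
   ([(5, 0), (3, 2), (3, 3), (3, 4)], 5),
   ([(6, 0), (3, 1), (3, 2), (3, 3)], 6),
   ([(9, 0), (2, 1), (3, 2), (3, 3)], 7),
   ([(9, 0), (3, 1), (3, 2), (3, 3)], 8),
   ([(12, 0), (3, 1), (3, 2), (3, 3)], 9),
   ([(4, 0), (3, 2), (3, 3), (3, 4), (3, 5)], 1),
   ([(5, 0), (3, 1), (3, 2), (3, 3), (3, 4)], 2),
   ([(9, 0), (2, 1), (3, 1), (3, 2), (3, 3)], 3),
   ([(4, 0), (3, 1), (3, 2), (3, 3), (3, 4), (3, 5)], 0)]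

def LV2 : List Ent :=
  [([(4, 0), (4, 0)], 35),
   ([(5, 0), (5, 0)], 36),
   ([(6, 0), (6, 0)], 37),
   ([(7, 0), (7, 0)], 38),
   ([(8, 0), (8, 0)], 39),
   ([(9, 0), (9, 0)], 40),
   ([(10, 0), (10, 0)], 41),
   ([(11, 0), (11, 0)], 42),
   ([(12, 0), (12, 0)], 43),
   ([(13, 0), (13, 0)], 44),
   ([(14, 0), (14, 0)], 45),
   ([(15, 0), (15, 0)], 46),
   ([(16, 0), (16, 0)], 47),
   ([(17, 0), (17, 0)], 48),
   ([(18, 0), (18, 0)], 49),
   ([(4, 0), (5, 0)], 20),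
   ([(5, 0), (6, 0)], 21),
   ([(6, 0), (7, 0)], 22),
   ([(7, 0), (8, 0)], 23),
   ([(8, 0), (11, 0)], 24),
   ([(9, 0), (12, 0)], 25),
   ([(9, 0), (13, 0)], 26),
   ([(10, 0), (14, 0)], 27),
   ([(10, 0), (11, 0)], 28),
   ([(12, 0), (13, 0)], 29),
   ([(13, 0), (14, 0)], 30),
   ([(14, 0), (16, 0)], 31),
   ([(15, 0), (17, 0)], 32),
   ([(16, 0), (18, 0)], 33),
   ([(17, 0), (18, 0)], 34),
   ([(4, 0), (6, 0)], 10),
   ([(5, 0), (7, 0)], 11),
   ([(6, 0), (8, 0)], 12),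
   ([(7, 0), (11, 0)], 13),
   ([(9, 0), (15, 0)], 14),
   ([(9, 0), (10, 0)], 15),
   ([(10, 0), (16, 0)], 16),
   ([(12, 0), (14, 0)], 17),
   ([(13, 0), (16, 0)], 18),
   ([(15, 0), (16, 0)], 19),
   ([(4, 0), (7, 0)], 4),
   ([(5, 0), (8, 0)], 5),
   ([(6, 0), (11, 0)], 6),
   ([(9, 0), (17, 0)], 7),
   ([(9, 0), (11, 0)], 8),
   ([(12, 0), (16, 0)], 9),
   ([(4, 0), (8, 0)], 1),
   ([(5, 0), (11, 0)], 2),
   ([(11, 0), (12, 0)], 3),
   ([(4, 0), (11, 0)], 0)]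

def LV3 : List Ent :=
  [([(4, 0), (4, 0), (4, 0)], 35),
   ([(5, 0), (5, 0), (5, 0)], 36),
   ([(6, 0), (6, 0), (6, 0)], 37),
   ([(7, 0), (7, 0), (7, 0)], 38),
   ([(8, 0), (8, 0), (8, 0)], 39),
   ([(9, 0), (9, 0), (9, 0)], 40),
   ([(10, 0), (10, 0), (10, 0)], 41),
   ([(11, 0), (11, 0), (11, 0)], 42),
   ([(12, 0), (12, 0), (12, 0)], 43),
   ([(13, 0), (13, 0), (13, 0)], 44),
   ([(14, 0), (14, 0), (14, 0)], 45),
   ([(15, 0), (15, 0), (15, 0)], 46),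
   ([(16, 0), (16, 0), (16, 0)], 47),
   ([(17, 0), (17, 0), (17, 0)], 48),
   ([(18, 0), (18, 0), (18, 0)], 49),
   ([(4, 0), (5, 0), (5, 0)], 20),
   ([(5, 0), (6, 0), (6, 0)], 21),
   ([(6, 0), (7, 0), (7, 0)], 22),
   ([(7, 0), (8, 0), (8, 0)], 23),
   ([(8, 0), (11, 0), (11, 0)], 24),
   ([(9, 0), (12, 0), (12, 0)], 25),
   ([(9, 0), (13, 0), (13, 0)], 26),
   ([(10, 0), (14, 0), (14, 0)], 27),
   ([(10, 0), (11, 0), (11, 0)], 28),
   ([(12, 0), (13, 0), (13, 0)], 29),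
   ([(13, 0), (14, 0), (14, 0)], 30),
   ([(14, 0), (16, 0), (16, 0)], 31),
   ([(15, 0), (17, 0), (17, 0)], 32),
   ([(16, 0), (18, 0), (18, 0)], 33),
   ([(17, 0), (18, 0), (18, 0)], 34),
   ([(4, 0), (6, 0), (6, 0)], 10),
   ([(5, 0), (7, 0), (7, 0)], 11),
   ([(6, 0), (8, 0), (8, 0)], 12),
   ([(7, 0), (11, 0), (11, 0)], 13),
   ([(9, 0), (15, 0), (15, 0)], 14),
   ([(9, 0), (10, 0), (10, 0)], 15),
   ([(10, 0), (16, 0), (16, 0)], 16),
   ([(12, 0), (14, 0), (14, 0)], 17),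
   ([(13, 0), (16, 0), (16, 0)], 18),
   ([(15, 0), (16, 0), (16, 0)], 19),
   ([(4, 0), (7, 0), (7, 0)], 4),
   ([(5, 0), (8, 0), (8, 0)], 5),
   ([(6, 0), (11, 0), (11, 0)], 6),
   ([(9, 0), (17, 0), (17, 0)], 7),
   ([(9, 0), (11, 0), (11, 0)], 8),
   ([(12, 0), (16, 0), (16, 0)], 9),
   ([(4, 0), (8, 0), (8, 0)], 1),
   ([(5, 0), (11, 0), (11, 0)], 2),
   ([(11, 0), (12, 0), (12, 0)], 3),
   ([(4, 0), (11, 0), (11, 0)], 0)]

def LV4 : List Ent :=
  [([(4, 0), (4, 0), (4, 0), (4, 0)], 35),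
   ([(5, 0), (5, 0), (5, 0), (5, 0)], 36),
   ([(6, 0), (6, 0), (6, 0), (6, 0)], 37),
   ([(7, 0), (7, 0), (7, 0), (7, 0)], 38),
   ([(8, 0), (8, 0), (8, 0), (8, 0)], 39),
   ([(9, 0), (9, 0), (9, 0), (9, 0)], 40),
   ([(10, 0), (10, 0), (10, 0), (10, 0)], 41),
   ([(11, 0), (11, 0), (11, 0), (11, 0)], 42),
   ([(12, 0), (12, 0), (12, 0), (12, 0)], 43),
   ([(13, 0), (13, 0), (13, 0), (13, 0)], 44),
   ([(14, 0), (14, 0), (14, 0), (14, 0)], 45),
   ([(15, 0), (15, 0), (15, 0), (15, 0)], 46),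
   ([(16, 0), (16, 0), (16, 0), (16, 0)], 47),
   ([(17, 0), (17, 0), (17, 0), (17, 0)], 48),
   ([(18, 0), (18, 0), (18, 0), (18, 0)], 49),
   ([(4, 0), (4, 0), (5, 0), (5, 0)], 20),
   ([(5, 0), (5, 0), (6, 0), (6, 0)], 21),
   ([(6, 0), (6, 0), (7, 0), (7, 0)], 22),
   ([(7, 0), (7, 0), (8, 0), (8, 0)], 23),
   ([(8, 0), (8, 0), (11, 0), (11, 0)], 24),
   ([(9, 0), (9, 0), (12, 0), (12, 0)], 25),
   ([(9, 0), (9, 0), (13, 0), (13, 0)], 26),
   ([(10, 0), (10, 0), (14, 0), (14, 0)], 27),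
   ([(10, 0), (10, 0), (11, 0), (11, 0)], 28),
   ([(12, 0), (12, 0), (13, 0), (13, 0)], 29),
   ([(13, 0), (13, 0), (14, 0), (14, 0)], 30),
   ([(14, 0), (14, 0), (16, 0), (16, 0)], 31),
   ([(15, 0), (15, 0), (17, 0), (17, 0)], 32),
   ([(16, 0), (16, 0), (18, 0), (18, 0)], 33),
   ([(17, 0), (17, 0), (18, 0), (18, 0)], 34),
   ([(4, 0), (4, 0), (6, 0), (6, 0)], 10),
   ([(5, 0), (5, 0), (7, 0), (7, 0)], 11),
   ([(6, 0), (6, 0), (8, 0), (8, 0)], 12),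
   ([(7, 0), (7, 0), (11, 0), (11, 0)], 13),
   ([(9, 0), (9, 0), (15, 0), (15, 0)], 14),
   ([(9, 0), (9, 0), (10, 0), (10, 0)], 15),
   ([(10, 0), (10, 0), (16, 0), (16, 0)], 16),
   ([(12, 0), (12, 0), (14, 0), (14, 0)], 17),
   ([(13, 0), (13, 0), (16, 0), (16, 0)], 18),
   ([(15, 0), (15, 0), (16, 0), (16, 0)], 19),
   ([(4, 0), (4, 0), (7, 0), (7, 0)], 4),
   ([(5, 0), (5, 0), (8, 0), (8, 0)], 5),
   ([(6, 0), (6, 0), (11, 0), (11, 0)], 6),
   ([(9, 0), (9, 0), (17, 0), (17, 0)], 7),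
   ([(9, 0), (9, 0), (11, 0), (11, 0)], 8),
   ([(12, 0), (12, 0), (16, 0), (16, 0)], 9),
   ([(4, 0), (4, 0), (8, 0), (8, 0)], 1),
   ([(5, 0), (5, 0), (11, 0), (11, 0)], 2),
   ([(11, 0), (11, 0), (12, 0), (12, 0)], 3),
   ([(4, 0), (4, 0), (11, 0), (11, 0)], 0)]

def Tri (a : ℕ) (L : List Ent) : Prop :=
  (∀ e ∈ L, wt e.1 = a ∧ bm e.1 e.2 ≠ 0) ∧ L.Pairwise (fun e e' => bm e'.1 e.2 = 0)

instance (a : ℕ) (L : List Ent) : Decidable (Tri a L) := by unfold Tri; infer_instance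

theorem triU : Tri 0 LU := by decide +kernel
theorem triV1 : Tri 1 LV1 := by decide +kernel
theorem triV2 : Tri 2 LV2 := by decide +kernel
theorem triV3 : Tri 3 LV3 := by decide +kernel
theorem triV4 : Tri 4 LV4 := by decide +kernel

theorem mu_dual : ∀ a b : Fin 5, ∑ k : Fin 5, mu a.val k * tt k ^ b.val =
    if a = b then 840 else 0 := by decide +kernel

theorem moments : ∀ b : Fin 6, b.val ≠ 1 → ∑ k : Fin 5, gam k * tt k ^ b.val = 0 := by
  decide +kernel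

theorem orth : ∀ a : Fin 5, ∀ b : Fin 5, a.val + b.val ≤ 4 → ∀ c : Fin 5,
    a.val + b.val + c.val ≤ 4 → ∀ l : Fin 19, 4 ≤ l.val →
    ∑ j : Fin 50, base j 1 ^ a.val * base j 2 ^ b.val * base j 3 ^ c.val * base j l = 0 := by
  decide +kernel

theorem base_zero : ∀ j : Fin 50, base j 0 = 1 := by decide +kernel

theorem gam_ne : ∀ k : Fin 5, gam k ≠ 0 := by decide +kernel

/-- Blocks used in degree `d`. -/
def blk (d : ℕ) (a : Fin 5) : List Ent :=
  match a with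
  | 0 => LU.take ([1, 4, 10, 20, 35].getD d 50)
  | 1 => LV1.take ([0, 15, 30, 40, 46, 49].getD d 50)
  | 2 => LV2.take ([0, 0].getD d 50)
  | 3 => LV3.take ([0, 0, 0].getD d 50)
  | 4 => LV4.take ([0, 0, 0, 0].getD d 50)

theorem blk_len : ∀ d : Fin 7, ∀ a : Fin 5, ∀ e ∈ blk d.val a, e.1.length ≤ d.val := by
  decide +kernel

theorem blk_card : ∀ d : Fin 7, ∑ a : Fin 5, (blk d.val a).length =
    [1, 19, 90, 160, 231, 249, 250].getD d.val 0 := by decide +kernel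

end Pool.Agent.NonUni
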