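import Pool.Agent.Lib.lead.NonUniData

/-! Evaluation spaces of the 250 points and their self-duality. -/

set_option autoImplicit false
open MvPolynomial Finset Module

namespace Pool.Agent.NonUni

abbrev Pt := Fin 50 × Fin 5
abbrev RR := MvPolynomial (Fin 19) ℂ

def pt (p : Pt) (i : Fin 19) : ℂ := ((base p.1 i * tau p.2 i : ℤ) : ℂ)

def gm (p : Pt) : ℂ := (gam p.2 : ℂ)

lemma gm_ne (p : Pt) : gm p ≠ 0 := by
  unfold gm; exact_mod_cast gam_ne p.2

lemma pt_zero (p : Pt) : pt p 0 = 1 := by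
  simp [pt, base_zero, tau]

noncomputable def evq (q : Fin 19 → ℂ) : RR →ₗ[ℂ] ℂ where
  toFun f := eval q f
  map_add' f g := by simp
  map_smul' a f := by simp [smul_eval]

@[simp] lemma evq_apply (q : Fin 19 → ℂ) (f : RR) : evq q f = eval q f := rfl

noncomputable def ev : RR →ₗ[ℂ] (Pt → ℂ) := LinearMap.pi (fun p => evq (pt p))

@[simp] lemma ev_apply (f : RR) (p : Pt) : ev f p = eval (pt p) f := rfl

noncomputable def W (d : ℕ) : Submodule ℂ (Pt → ℂ) :=
  (homogeneousSubmodule (Fin 19) ℂ d).map ev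

lemma mem_W {d : ℕ} {φ : Pt → ℂ} :
    φ ∈ W d ↔ ∃ k : RR, k.IsHomogeneous d ∧ ∀ p, eval (pt p) k = φ p := by
  constructor
  · rintro ⟨k, hk, rfl⟩
    exact ⟨k, hk, fun p => rfl⟩
  · rintro ⟨k, hk, h⟩
    exact ⟨k, hk, funext h⟩

/-- the weighted-sum functional -/
noncomputable def sm (φ : Pt → ℂ) : RR →ₗ[ℂ] ℂ := ∑ p, (gm p * φ p) • evq (pt p)

lemma sm_apply (φ : Pt → ℂ) (f : RR) : sm φ f = ∑ p, gm p * (φ p * eval (pt p) f) := by
  simp [sm, LinearMap.sum_apply, mul_assoc]

lemma func_succ (Λ : RR →ₗ[ℂ] ℂ) (d : ℕ)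
    (h : ∀ (i : Fin 19) (g : RR), g.IsHomogeneous d → Λ (X i * g) = 0) :
    ∀ f : RR, f.IsHomogeneous (d + 1) → Λ f = 0 := by
  intro f hf
  have h1 := congrArg Λ hf.sum_X_mul_pderiv
  rw [map_sum, Finset.sum_eq_zero (fun i _ => h i _ (by simpa using hf.pderiv (i := i))),
    map_nsmul, nsmul_eq_mul] at h1
  have : ((d + 1 : ℕ) : ℂ) ≠ 0 := Nat.cast_ne_zero.mpr (Nat.succ_ne_zero d)
  exact (mul_eq_zero.mp h1.symm).resolve_left this

lemma func_zero (Λ : RR →ₗ[ℂ] ℂ) (h : Λ 1 = 0) :
    ∀ f : RR, f.IsHomogeneous 0 → Λ f = 0 := by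
  intro f hf
  rw [← totalDegree_zero_iff_isHomogeneous, totalDegree_eq_zero_iff_eq_C] at hf
  rw [hf, C_eq_smul_one, map_smul, h, smul_zero]

noncomputable def lin (f : Fac) : RR :=
  if f.1.val < 4 then X f.1 - C (f.2 : ℂ) * X 0 else X f.1

noncomputable def mono (m : List Fac) : RR := (m.map lin).prod

lemma lin_hom (f : Fac) : (lin f).IsHomogeneous 1 := by
  unfold lin
  split_ifs
  · refine (isHomogeneous_X ℂ f.1).sub ?_
    simpa using (isHomogeneous_C (Fin 19) (f.2 : ℂ)).mul (isHomogeneous_X ℂ (0 : Fin 19))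
  · exact isHomogeneous_X ℂ f.1

lemma lin_zero (i : Fin 19) : lin (i, 0) = X i := by
  unfold lin; split_ifs <;> simp

lemma mono_cons (a : Fac) (m : List Fac) : mono (a :: m) = lin a * mono m := by simp [mono]

lemma mono_hom (m : List Fac) : (mono m).IsHomogeneous m.length := by
  induction m with
  | nil => simpa [mono] using isHomogeneous_one (Fin 19) ℂ
  | cons a m ih =>
    have := (lin_hom a).mul ih
    simpa [mono, add_comm] using this

lemma func_list (d : ℕ) : ∀ (Λ : RR →ₗ[ℂ] ℂ),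
    (∀ m : List Fac, m.length = d → (∀ f ∈ m, f.2 = 0) → Λ (mono m) = 0) →
    ∀ f : RR, f.IsHomogeneous d → Λ f = 0 := by
  induction d with
  | zero =>
    intro Λ h
    exact func_zero Λ (by simpa [mono] using h [] rfl (by simp))
  | succ d ih =>
    intro Λ h
    refine func_succ Λ d (fun i g hg => ?_)
    refine ih (Λ ∘ₗ LinearMap.mulLeft ℂ (X i)) (fun m hm hm' => ?_) g hg
    have := h ((i, 0) :: m) (by simp [hm]) (by
      intro f hf
      rcases List.mem_cons.mp hf with rfl | hf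
      · rfl
      · exact hm' f hf)
    rw [mono_cons, lin_zero] at this
    simpa using this

lemma eval_mono (m : List Fac) (p : Pt) :
    eval (pt p) (mono m) = (bm m p.1 : ℂ) * (tt p.2 : ℂ) ^ wt m := by
  induction m with
  | nil => simp [mono, bm, wt]
  | cons a m ih =>
    have h2 : bm (a :: m) p.1 = val p.1 a * bm m p.1 := by simp [bm]
    rw [mono_cons, map_mul, ih, h2]
    by_cases h : a.1.val < 4
    · have h3 : wt (a :: m) = wt m := by
        have : ¬ 4 ≤ a.1.val := by omega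
        simp [wt, this]
      rw [h3]
      simp only [lin, val, h, if_true, map_sub, map_mul, eval_X, eval_C, pt_zero]
      simp only [pt, tau, h, if_true]
      push_cast; ring
    · have h3 : wt (a :: m) = wt m + 1 := by
        have : 4 ≤ a.1.val := by omega
        simp [wt, this]
      rw [h3]
      simp only [lin, val, h, if_false, eval_X, pt, tau]
      push_cast; ring

lemma bm_shape (m : List Fac) (hm : ∀ f ∈ m, f.2 = 0) :
    (wt m = 0 → ∃ a b c : ℕ, a + b + c ≤ m.length ∧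
      ∀ j, bm m j = base j 1 ^ a * base j 2 ^ b * base j 3 ^ c) ∧
    (wt m = 1 → ∃ a b c : ℕ, ∃ l : Fin 19, 4 ≤ l.val ∧ a + b + c + 1 ≤ m.length ∧
      ∀ j, bm m j = base j 1 ^ a * base j 2 ^ b * base j 3 ^ c * base j l) := by
  induction m with
  | nil => exact ⟨fun _ => ⟨0, 0, 0, by simp, by simp [bm]⟩, fun h => by simp [wt] at h⟩
  | cons f m ih =>
    obtain ⟨ih0, ih1⟩ := ih (fun g hg => hm g (List.mem_cons_of_mem _ hg))
    have hf : f.2 = 0 := hm f List.mem_cons_self
    have h2 : ∀ j, bm (f :: m) j = base j f.1 * bm m j := by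
      intro j
      have : val j f = base j f.1 := by unfold val; rw [hf]; split_ifs <;> simp
      simp [bm, this]
    by_cases h : 4 ≤ f.1.val
    · have h3 : wt (f :: m) = wt m + 1 := by simp [wt, h]
      refine ⟨fun h0 => by omega, fun h1 => ?_⟩
      obtain ⟨a, b, c, habc, hj⟩ := ih0 (by omega)
      exact ⟨a, b, c, f.1, h, by simpa using habc, fun j => by rw [h2, hj]; ring⟩
    · have h3 : wt (f :: m) = wt m := by simp [wt, h]
      have hc : ∀ i : Fin 19, ¬ 4 ≤ i.val → i = 0 ∨ i = 1 ∨ i = 2 ∨ i = 3 := by decide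
      rw [h3]
      constructor
      · intro h0
        obtain ⟨a, b, c, habc, hj⟩ := ih0 h0
        rcases hc f.1 h with e | e | e | e
        · exact ⟨a, b, c, by simp; omega, fun j => by rw [h2, hj, e, base_zero]; ring⟩
        · exact ⟨a + 1, b, c, by simp; omega, fun j => by rw [h2, hj, e]; ring⟩
        · exact ⟨a, b + 1, c, by simp; omega, fun j => by rw [h2, hj, e]; ring⟩
        · exact ⟨a, b, c + 1, by simp; omega, fun j => by rw [h2, hj, e]; ring⟩
      · intro h1
        obtain ⟨a, b, c, l, hl, habc, hj⟩ := ih1 h1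
        rcases hc f.1 h with e | e | e | e
        · exact ⟨a, b, c, l, hl, by simp; omega, fun j => by rw [h2, hj, e, base_zero]; ring⟩
        · exact ⟨a + 1, b, c, l, hl, by simp; omega, fun j => by rw [h2, hj, e]; ring⟩
        · exact ⟨a, b + 1, c, l, hl, by simp; omega, fun j => by rw [h2, hj, e]; ring⟩
        · exact ⟨a, b, c + 1, l, hl, by simp; omega, fun j => by rw [h2, hj, e]; ring⟩

/-- The quintic relation. -/
lemma rel5 (g : RR) (hg : g.IsHomogeneous 5) : ∑ p, gm p * eval (pt p) g = 0 := by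
  have := func_list 5 (sm (fun _ => 1)) (fun m hm hm' => by
    have h1 : sm (fun _ => 1) (mono m) =
        (((∑ x : Fin 50, bm m x) * (∑ y : Fin 5, gam y * tt y ^ wt m) : ℤ) : ℂ) := by
      rw [sm_apply, Fintype.sum_prod_type]
      push_cast
      rw [Finset.sum_mul_sum]
      refine Finset.sum_congr rfl fun x _ => Finset.sum_congr rfl fun y _ => ?_
      rw [eval_mono]
      simp only [gm]
      ring
    rw [h1]
    by_cases hw : wt m = 1
    · obtain ⟨a, b, c, l, hl, habc, hj⟩ := (bm_shape m hm').2 hw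
      have := orth ⟨a, by omega⟩ ⟨b, by omega⟩ (by simp; omega) ⟨c, by omega⟩
        (by simp; omega) l hl
      simp only [hj, this, zero_mul, Int.cast_zero]
    · have hle : wt m ≤ m.length := List.countP_le_length
      have := moments ⟨wt m, by omega⟩ hw
      simp only [this, mul_zero, Int.cast_zero]) g hg
  simpa [sm_apply] using this

lemma tri_indep (L : List Ent) (h1 : ∀ e ∈ L, bm e.1 e.2 ≠ 0)
    (h2 : L.Pairwise (fun e e' => bm e'.1 e.2 = 0)) (g : Fin L.length → ℂ)
    (hg : ∀ j, ∑ i, g i * (bm (L.get i).1 j : ℂ) = 0) : ∀ i, g i = 0 := by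
  intro i
  induction' hn : i.val using Nat.strong_induction_on with n ih generalizing i
  have := hg (L.get i).2
  rw [Finset.sum_eq_single i] at this
  · refine (mul_eq_zero.mp this).resolve_right ?_
    exact_mod_cast h1 _ (List.get_mem L i)
  · intro b _ hb
    rcases lt_or_gt_of_ne hb with h | h
    · rw [ih b.val (by rw [← hn]; exact h) b rfl, zero_mul]
    · have := List.pairwise_iff_get.mp h2 i b h
      rw [this]; simp
  · simp

lemma blk_tri (d : ℕ) (a : Fin 5) : Tri a.val (blk d a) := by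
  have key : ∀ (a n : ℕ) (L : List Ent), Tri a L → Tri a (L.take n) := fun a n L h =>
    ⟨fun e he => h.1 e (List.mem_of_mem_take he), h.2.sublist (List.take_sublist n L)⟩
  fin_cases a
  · exact key _ _ _ triU
  · exact key _ _ _ triV1
  · exact key _ _ _ triV2
  · exact key _ _ _ triV3
  · exact key _ _ _ triV4

lemma rank_ge (d : Fin 7) :
    [1, 19, 90, 160, 231, 249, 250].getD d.val 0 ≤ finrank ℂ (W d.val) := by
  let v : (Σ a : Fin 5, Fin (blk d.val a).length) → W d.val := fun x =>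
    ⟨ev (mono ((blk d.val x.1).get x.2).1 * X 0 ^ (d.val - ((blk d.val x.1).get x.2).1.length)),
      ⟨_, by
        have h1 := (mono_hom ((blk d.val x.1).get x.2).1).mul
          ((isHomogeneous_X ℂ (0 : Fin 19)).pow (d.val - ((blk d.val x.1).get x.2).1.length))
        have h2 := blk_len d x.1 _ (List.get_mem _ x.2)
        rw [one_mul, Nat.add_sub_cancel' h2] at h1
        exact h1, rfl⟩⟩
  have hli : LinearIndependent ℂ v := by
    rw [Fintype.linearIndependent_iff]
    intro g hg x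
    have hg' : ∀ p : Pt, ∑ a : Fin 5, (∑ i : Fin (blk d.val a).length,
        g ⟨a, i⟩ * (bm ((blk d.val a).get i).1 p.1 : ℂ)) * (tt p.2 : ℂ) ^ a.val = 0 := by
      intro p
      have := congrArg (fun w : W d.val => (w : Pt → ℂ) p) hg
      simp only [v, Submodule.coe_sum, Finset.sum_apply, Submodule.coe_smul, Pi.smul_apply,
        ev_apply, map_mul, map_pow, eval_X, pt_zero, one_pow, mul_one, eval_mono, smul_eq_mul,
        Submodule.coe_zero, Pi.zero_apply] at this
      rw [← this, Fintype.sum_sigma]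
      refine Finset.sum_congr rfl fun a _ => ?_
      rw [Finset.sum_mul]
      refine Finset.sum_congr rfl fun i _ => ?_
      rw [((blk_tri d.val a).1 _ (List.get_mem _ i)).1]
      ring
    obtain ⟨a, i⟩ := x
    refine tri_indep (blk d.val a) (fun e he => ((blk_tri d.val a).1 e he).2)
      (blk_tri d.val a).2 (fun i => g ⟨a, i⟩) (fun j => ?_) i
    have h3 : ∑ y : Fin 5, (mu a.val y : ℂ) * ∑ b : Fin 5, (∑ i : Fin (blk d.val b).length,
        g ⟨b, i⟩ * (bm ((blk d.val b).get i).1 j : ℂ)) * (tt y : ℂ) ^ b.val = 0 :=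
      Finset.sum_eq_zero fun y _ => by rw [hg' (j, y), mul_zero]
    have h4 : ∀ b : Fin 5, ∑ y : Fin 5, (mu a.val y : ℂ) * (tt y : ℂ) ^ b.val =
        if a = b then 840 else 0 := by
      intro b
      have h' := congrArg (fun z : ℤ => (z : ℂ)) (mu_dual a b)
      push_cast at h'
      exact h'
    simp_rw [Finset.mul_sum (s := (Finset.univ : Finset (Fin 5)))] at h3
    rw [Finset.sum_comm] at h3
    have h5 : ∀ b : Fin 5, ∑ y : Fin 5, (mu a.val y : ℂ) * ((∑ i : Fin (blk d.val b).length,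
        g ⟨b, i⟩ * (bm ((blk d.val b).get i).1 j : ℂ)) * (tt y : ℂ) ^ b.val) =
        (∑ i : Fin (blk d.val b).length,
        g ⟨b, i⟩ * (bm ((blk d.val b).get i).1 j : ℂ)) * if a = b then 840 else 0 := by
      intro b
      rw [← h4, Finset.mul_sum]
      exact Finset.sum_congr rfl fun y _ => by ring
    simp only [h5, mul_ite, mul_zero, Finset.sum_ite_eq, Finset.mem_univ, if_true] at h3
    exact (mul_eq_zero.mp h3).resolve_right (by norm_num)
  have := hli.fintype_card_le_finrank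
  rw [Fintype.card_sigma] at this
  simp only [Fintype.card_fin] at this
  rw [blk_card] at this
  exact this

noncomputable def Bf : LinearMap.BilinForm ℂ (Pt → ℂ) :=
  LinearMap.mk₂ ℂ (fun φ ψ => ∑ p, gm p * (φ p * ψ p))
    (fun a b c => by simp [add_mul, mul_add, Finset.sum_add_distrib])
    (fun c a b => by simp [Finset.mul_sum]; refine Finset.sum_congr rfl fun p _ => by ring)
    (fun a b c => by simp [mul_add, Finset.sum_add_distrib])
    (fun c a b => by simp [Finset.mul_sum]; refine Finset.sum_congr rfl fun p _ => by ring)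

lemma Bf_apply (φ ψ : Pt → ℂ) : Bf φ ψ = ∑ p, gm p * (φ p * ψ p) := rfl

lemma Bf_nondeg : Bf.Nondegenerate := by
  constructor
  · intro φ h
    funext p
    have := h (Pi.single p 1)
    simp [Bf_apply, Pi.single_apply, gm_ne] at this
    simpa using this
  · intro φ h
    funext p
    have := h (Pi.single p 1)
    simp [Bf_apply, Pi.single_apply, gm_ne] at this
    simpa using this

lemma finrank_fun : finrank ℂ (Pt → ℂ) = 250 := by simp

lemma W_le_orth (a b : ℕ) (hab : a + b = 5) : W b ≤ Bf.orthogonal (W a) := by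
  intro ψ hψ
  rw [LinearMap.BilinForm.mem_orthogonal_iff]
  intro χ hχ
  obtain ⟨k, hk, hk'⟩ := mem_W.mp hψ
  obtain ⟨l, hl, hl'⟩ := mem_W.mp hχ
  have := rel5 (l * k) (by rw [← hab]; exact hl.mul hk)
  simpa [Bf_apply, hk', hl'] using this

lemma rank_add_le (a b : ℕ) (hab : a + b = 5) : finrank ℂ (W a) + finrank ℂ (W b) ≤ 250 := by
  have h1 := Submodule.finrank_mono (W_le_orth a b hab)
  rw [LinearMap.BilinForm.finrank_orthogonal Bf_nondeg, finrank_fun] at h1
  have h2 := Submodule.finrank_le (W a)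
  rw [finrank_fun] at h2
  omega

lemma ranks : finrank ℂ (W 0) = 1 ∧ finrank ℂ (W 1) = 19 ∧ finrank ℂ (W 2) = 90 ∧
    finrank ℂ (W 3) = 160 ∧ finrank ℂ (W 4) = 231 ∧ finrank ℂ (W 5) = 249 ∧
    250 ≤ finrank ℂ (W 6) := by
  have r0 : 1 ≤ finrank ℂ (W 0) := rank_ge 0
  have r1 : 19 ≤ finrank ℂ (W 1) := rank_ge 1
  have r2 : 90 ≤ finrank ℂ (W 2) := rank_ge 2
  have r3 : 160 ≤ finrank ℂ (W 3) := rank_ge 3
  have r4 : 231 ≤ finrank ℂ (W 4) := rank_ge 4
  have r5 : 249 ≤ finrank ℂ (W 5) := rank_ge 5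
  have r6 : 250 ≤ finrank ℂ (W 6) := rank_ge 6
  have s0 := rank_add_le 0 5 rfl
  have s1 := rank_add_le 1 4 rfl
  have s2 := rank_add_le 2 3 rfl
  omega

lemma dual (a b : ℕ) (hab : a + b = 5) (φ : Pt → ℂ)
    (hφ : ∀ g : RR, g.IsHomogeneous a → sm φ g = 0) : φ ∈ W b := by
  have h2 : W b = Bf.orthogonal (W a) := by
    apply Submodule.eq_of_le_of_finrank_le (W_le_orth a b hab)
    rw [LinearMap.BilinForm.finrank_orthogonal Bf_nondeg, finrank_fun]
    obtain ⟨r0, r1, r2, r3, r4, r5, -⟩ := ranks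
    have ha : a ≤ 5 := by omega
    obtain rfl : b = 5 - a := by omega
    interval_cases a <;> simp [r0, r1, r2, r3, r4, r5]
  rw [h2, LinearMap.BilinForm.mem_orthogonal_iff]
  intro χ hχ
  obtain ⟨l, hl, hl'⟩ := mem_W.mp hχ
  have := hφ l hl
  rw [sm_apply] at this
  rw [Bf_apply, ← this]
  refine Finset.sum_congr rfl fun p _ => ?_
  rw [hl' p]; ring

lemma W_top (d : ℕ) (hd : 6 ≤ d) (φ : Pt → ℂ) : φ ∈ W d := by
  have h5 : W 6 = ⊤ := by
    apply Submodule.eq_top_of_finrank_eq
    apply le_antisymm (Submodule.finrank_le _)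
    rw [finrank_fun]
    exact ranks.2.2.2.2.2.2
  obtain ⟨k, hk, hk'⟩ := mem_W.mp (h5 ▸ Submodule.mem_top : φ ∈ W 6)
  obtain ⟨e, rfl⟩ := Nat.exists_eq_add_of_le hd
  refine mem_W.mpr ⟨k * X 0 ^ e, ?_, fun p => by simp [hk', pt_zero]⟩
  have := hk.mul ((isHomogeneous_X ℂ (0 : Fin 19)).pow e)
  simpa using this

end Pool.Agent.NonUni
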