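import Pool.Agent.Lib.lead.NonUniDual

/-! The 250 points are arithmetically Gorenstein; their h-vector. -/

set_option autoImplicit false
open MvPolynomial Finset Module

namespace Pool.Agent.NonUni

/-- The homogeneous ideal of the point set. -/
noncomputable def II : Ideal RR :=
  Ideal.span {f : RR | ∃ d : ℕ, f.IsHomogeneous d ∧ ∀ p, eval (pt p) f = 0}

lemma comp_mul (g r : RR) (e n : ℕ) (hg : g.IsHomogeneous e) :
    homogeneousComponent n (g * r) =
      g * ∑ m ∈ range (r.totalDegree + 1), if n = e + m then homogeneousComponent m r else 0 := by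
  conv_lhs => rw [← sum_homogeneousComponent r]
  rw [Finset.mul_sum, Finset.mul_sum, map_sum]
  refine Finset.sum_congr rfl fun m _ => ?_
  rw [homogeneousComponent_of_mem (n := e + m)
    (hg.mul (homogeneousComponent_isHomogeneous m r))]
  split_ifs <;> simp

lemma comp_mul' (g r : RR) (e d : ℕ) (hg : g.IsHomogeneous e) :
    homogeneousComponent (e + d) (g * r) = g * homogeneousComponent d r := by
  rw [comp_mul g r e _ hg]
  congr 1
  simp only [Nat.add_left_cancel_iff]
  rw [Finset.sum_ite_eq]
  split_ifs with h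
  · rfl
  · rw [homogeneousComponent_eq_zero]
    simp only [Finset.mem_range] at h
    omega

lemma II_comp {f : RR} (hf : f ∈ II) : ∀ (r : RR) (n : ℕ) (p : Pt),
    eval (pt p) (homogeneousComponent n (f * r)) = 0 := by
  induction hf using Submodule.span_induction with
  | mem g hg =>
    obtain ⟨e, he, h0⟩ := hg
    intro r n p
    rw [comp_mul g r e n he, map_mul, h0 p, zero_mul]
  | zero => intro r n p; simp
  | add a b _ _ ha hb => intro r n p; rw [add_mul, map_add, map_add, ha, hb, add_zero]
  | smul a b _ hb =>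
    intro r n p
    rw [smul_eq_mul, mul_comm a b, mul_assoc]; exact hb _ n p

lemma J_out {L f : RR} (hL : L.IsHomogeneous 1) (hf : f ∈ II ⊔ Ideal.span {L}) (d : ℕ) :
    ∃ k : RR, k.IsHomogeneous d ∧
      ∀ p, eval (pt p) (homogeneousComponent (1 + d) f) = eval (pt p) L * eval (pt p) k := by
  obtain ⟨a, ha, b, hb, rfl⟩ := Submodule.mem_sup.mp hf
  obtain ⟨r, rfl⟩ := Ideal.mem_span_singleton'.mp hb
  refine ⟨homogeneousComponent d r, homogeneousComponent_isHomogeneous d r, fun p => ?_⟩
  have := II_comp ha 1 (1 + d) p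
  rw [mul_one] at this
  rw [map_add, map_add, this, zero_add, mul_comm r L, comp_mul' L r 1 d hL, map_mul]

lemma J_in {L f k : RR} {d : ℕ} (hL : L.IsHomogeneous 1) (hf : f.IsHomogeneous (1 + d))
    (hk : k.IsHomogeneous d) (h : ∀ p, eval (pt p) f = eval (pt p) L * eval (pt p) k) :
    f ∈ II ⊔ Ideal.span {L} := by
  have h1 : f - L * k ∈ II := Ideal.subset_span ⟨1 + d, hf.sub (hL.mul hk), fun p => by
    simp [h p]⟩
  have h2 : L * k ∈ Ideal.span {L} := Ideal.mul_mem_right _ _ (Ideal.mem_span_singleton_self L)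
  have := Submodule.add_mem_sup h1 h2
  simpa using this

/-- The socle of the Artinian reduction by `X 0` is one-dimensional. -/
lemma gorenstein : ∃ s : RR, s ∉ II ⊔ Ideal.span {(X 0 : RR)} ∧
    (∀ i, X i * s ∈ II ⊔ Ideal.span {(X 0 : RR)}) ∧
    ∀ f : RR, (∀ i, X i * f ∈ II ⊔ Ideal.span {(X 0 : RR)}) →
      ∃ a : ℂ, f - C a * s ∈ II ⊔ Ideal.span {(X 0 : RR)} := by
  have hX : (X 0 : RR).IsHomogeneous 1 := isHomogeneous_X ℂ 0
  have big : ∀ (d : ℕ) (f : RR), 6 ≤ d → f.IsHomogeneous (1 + d) →
      f ∈ II ⊔ Ideal.span {(X 0 : RR)} := by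
    intro d f hd hf
    obtain ⟨k, hk, hk'⟩ := mem_W.mp (W_top d hd (ev f))
    exact J_in hX hf hk (fun p => by simp [hk', pt_zero])
  obtain ⟨s, hs, hs'⟩ := mem_W.mp (W_top 6 le_rfl (Pi.single ((0, 0) : Pt) 1))
  have hsum : ∑ p, gm p * eval (pt p) s = gm (0, 0) := by
    simp [hs', Pi.single_apply]
  refine ⟨s, fun h => ?_, fun i => big 6 _ le_rfl ((isHomogeneous_X ℂ i).mul hs), fun f hf => ?_⟩
  · obtain ⟨k, hk, hk'⟩ := J_out hX h 5
    rw [homogeneousComponent_eq_self (n := 1 + 5) hs] at hk'
    have := rel5 k hk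
    apply gm_ne (0, 0)
    rw [← hsum, ← this]
    exact Finset.sum_congr rfl fun p _ => by rw [hk' p]; simp [pt_zero]
  · have low : ∀ d e : ℕ, d + e = 5 → ∀ g : RR, g.IsHomogeneous (e + 1) →
        sm (ev (homogeneousComponent d f)) g = 0 := by
      intro d e hde
      refine func_succ _ e (fun i g hg => ?_)
      obtain ⟨k, hk, hk'⟩ := J_out hX (hf i) d
      rw [comp_mul' _ _ 1 d (isHomogeneous_X ℂ i)] at hk'
      have := rel5 (k * g) (by rw [← hde]; exact hk.mul hg)
      rw [sm_apply, ← this]
      refine Finset.sum_congr rfl fun p _ => ?_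
      have h1 := hk' p
      simp only [map_mul, eval_X, pt_zero, one_mul] at h1
      simp only [map_mul, eval_X, ev_apply, ← h1]
      ring
    have hcomp : ∀ d : ℕ, d ≠ 6 →
        homogeneousComponent d f ∈ II ⊔ Ideal.span {(X 0 : RR)} := by
      intro d hd
      have hh := homogeneousComponent_isHomogeneous d f
      rcases d with _ | d
      · apply Submodule.mem_sup_left
        refine Ideal.subset_span ⟨0, hh, fun p => ?_⟩
        obtain ⟨k, hk, hk'⟩ := mem_W.mp (W_top 6 le_rfl (Pi.single p 1))
        have := low 0 5 rfl k hk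
        rw [sm_apply] at this
        simp only [hk', Pi.single_apply, mul_ite, mul_one, mul_zero, Finset.sum_ite_eq',
          Finset.mem_univ, if_true] at this
        exact (mul_eq_zero.mp this).resolve_left (gm_ne p)
      · by_cases h5 : 6 ≤ d
        · exact big d _ h5 (by rw [add_comm 1 d]; exact hh)
        · have hd3 : d ≤ 4 := by omega
          obtain ⟨k, hk, hk'⟩ := mem_W.mp (dual (4 - d + 1) d (by omega) _
            (low (d + 1) (4 - d) (by omega)))
          exact J_in hX (by rw [add_comm 1 d]; exact hh) hk (fun p => by simp [hk', pt_zero])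
    set f5 := homogeneousComponent 6 f with hf5
    have hh : f5.IsHomogeneous 6 := homogeneousComponent_isHomogeneous 6 f
    set a : ℂ := (∑ p, gm p * eval (pt p) f5) / gm (0, 0) with ha
    have h5 : f5 - C a * s ∈ II ⊔ Ideal.span {(X 0 : RR)} := by
      have hhom : (f5 - C a * s).IsHomogeneous (1 + 5) := by
        have := (isHomogeneous_C (Fin 19) a).mul hs
        exact hh.sub (by simpa using this)
      obtain ⟨k, hk, hk'⟩ := mem_W.mp (dual 0 5 rfl (ev (f5 - C a * s))
        (func_zero _ (by
          rw [sm_apply]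
          have h0 := gm_ne (0, 0)
          have : ∑ p, gm p * (ev (f5 - C a * s) p * eval (pt p) (1 : RR)) =
              ∑ p, gm p * eval (pt p) f5 - a * ∑ p, gm p * eval (pt p) s := by
            rw [Finset.mul_sum, ← Finset.sum_sub_distrib]
            refine Finset.sum_congr rfl fun p _ => ?_
            simp only [ev_apply, map_sub, map_mul, eval_C, map_one]
            ring
          rw [this, hsum, ha]
          field_simp
          ring)))
      exact J_in hX hhom hk (fun p => by simp [hk', pt_zero])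
    refine ⟨a, ?_⟩
    have hsplit : f = ∑ d ∈ range (f.totalDegree + 1), homogeneousComponent d f :=
      (sum_homogeneousComponent f).symm
    have h6 : f - f5 ∈ II ⊔ Ideal.span {(X 0 : RR)} := by
      by_cases h : 6 ∈ range (f.totalDegree + 1)
      · rw [← Finset.add_sum_erase _ _ h] at hsplit
        have : f - f5 = ∑ d ∈ (range (f.totalDegree + 1)).erase 6, homogeneousComponent d f := by
          rw [sub_eq_iff_eq_add']; exact hsplit
        rw [this]
        exact Submodule.sum_mem _ fun d hd => hcomp d (Finset.ne_of_mem_erase hd)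
      · have h0 : f5 = 0 := homogeneousComponent_eq_zero _ _ (by
          simp only [Finset.mem_range] at h; omega)
        rw [h0, sub_zero, hsplit]
        exact Submodule.sum_mem _ fun d hd => hcomp d (by rintro rfl; exact h hd)
    have := Submodule.add_mem _ h6 h5
    simpa using this


lemma eval_smul_hom {f : RR} {d : ℕ} (hf : f.IsHomogeneous d) (t : ℂ) (q : Fin 19 → ℂ) :
    eval (t • q) f = t ^ d * eval q f := by
  have := func_list d (evq (t • q) - (t ^ d) • evq q) (fun m hm hm' => by
    clear hf
    subst hm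
    simp only [LinearMap.sub_apply, LinearMap.smul_apply, evq_apply, smul_eq_mul, sub_eq_zero]
    induction m with
    | nil => simp [mono]
    | cons a m ih =>
      have h0 : a = (a.1, 0) := Prod.ext rfl (hm' a List.mem_cons_self)
      rw [mono_cons, h0, lin_zero, map_mul, map_mul,
        ih (fun g hg => hm' g (List.mem_cons_of_mem _ hg))]
      simp only [eval_X, Pi.smul_apply, smul_eq_mul, List.length_cons]
      ring) f hf
  simpa [sub_eq_zero] using this

lemma II_iff (f : RR) : f ∈ II ↔ ∀ p, ∀ t : ℂ, eval (t • pt p) f = 0 := by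
  have hsum : ∀ p, ∀ t : ℂ, eval (t • pt p) f = ∑ d ∈ range (f.totalDegree + 1),
      t ^ d * eval (pt p) (homogeneousComponent d f) := by
    intro p t
    conv_lhs => rw [← sum_homogeneousComponent f]
    rw [map_sum]
    exact Finset.sum_congr rfl fun d _ =>
      eval_smul_hom (homogeneousComponent_isHomogeneous d f) t _
  constructor
  · intro hf p t
    rw [hsum]
    refine Finset.sum_eq_zero fun d _ => ?_
    have := II_comp hf 1 d p
    rw [mul_one] at this
    rw [this, mul_zero]
  · intro h
    rw [← sum_homogeneousComponent f]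
    refine Submodule.sum_mem _ fun d hd => Ideal.subset_span
      ⟨d, homogeneousComponent_isHomogeneous d f, fun p => ?_⟩
    let Q : Polynomial ℂ := ∑ d ∈ range (f.totalDegree + 1),
      Polynomial.monomial d (eval (pt p) (homogeneousComponent d f))
    have hQ : Q = 0 := by
      apply Polynomial.funext
      intro t
      have := h p t
      rw [hsum] at this
      simp only [Q, Polynomial.eval_finset_sum, Polynomial.eval_monomial, Polynomial.eval_zero]
      rw [← this]
      exact Finset.sum_congr rfl fun d _ => by ring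
    have := congrArg (fun P : Polynomial ℂ => P.coeff d) hQ
    simpa [Q, Polynomial.finset_sum_coeff, Polynomial.coeff_monomial, hd] using this

lemma finrank_split (S : Submodule ℂ RR) [Module.Finite ℂ S] :
    finrank ℂ S = finrank ℂ (S.map ev) + finrank ℂ ↥(S ⊓ LinearMap.ker ev) := by
  have h := LinearMap.finrank_range_add_finrank_ker (ev.domRestrict S)
  rw [LinearMap.range_domRestrict, LinearMap.ker_domRestrict] at h
  rw [← h, ← Submodule.map_comap_subtype, Submodule.finrank_map_subtype_eq]

noncomputable def MM (d : ℕ) : Submodule ℂ RR :=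
  homogeneousSubmodule (Fin 19) ℂ d ⊓ (II ⊔ Ideal.span {(X 0 : RR)}).restrictScalars ℂ

lemma h_eq (d : ℕ) : finrank ℂ (homogeneousSubmodule (Fin 19) ℂ (1 + d)) - finrank ℂ (MM (1 + d)) =
    finrank ℂ (W (1 + d)) - finrank ℂ (W d) := by
  have hX : (X 0 : RR).IsHomogeneous 1 := isHomogeneous_X ℂ 0
  haveI h1 : Module.Finite ℂ (homogeneousSubmodule (Fin 19) ℂ (1 + d)) :=
    Module.Finite.iff_fg.mpr (homogeneousSubmodule_fg _ _ _)
  haveI h2 : Module.Finite ℂ (MM (1 + d)) :=
    Submodule.finiteDimensional_of_le (S₂ := homogeneousSubmodule (Fin 19) ℂ (1 + d)) inf_le_left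
  have e1 : (MM (1 + d)).map ev = W d := by
    apply le_antisymm
    · rintro _ ⟨f, ⟨hf, hf'⟩, rfl⟩
      obtain ⟨k, hk, hk'⟩ := J_out hX hf' d
      rw [homogeneousComponent_eq_self hf] at hk'
      exact mem_W.mpr ⟨k, hk, fun p => by simp [hk' p, pt_zero]⟩
    · intro φ hφ
      obtain ⟨k, hk, hk'⟩ := mem_W.mp hφ
      refine ⟨X 0 * k, ⟨hX.mul hk, J_in hX (hX.mul hk) hk (fun p => by simp)⟩, ?_⟩
      funext p
      simp [hk' p, pt_zero]
  have e2 : MM (1 + d) ⊓ LinearMap.ker ev =
      homogeneousSubmodule (Fin 19) ℂ (1 + d) ⊓ LinearMap.ker ev := by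
    apply le_antisymm
    · exact inf_le_inf_right _ inf_le_left
    · rintro f ⟨hf, hf'⟩
      refine ⟨⟨hf, ?_⟩, hf'⟩
      exact Submodule.mem_sup_left (Ideal.subset_span ⟨1 + d, hf, fun p => congrFun hf' p⟩)
  rw [finrank_split (MM (1 + d)), finrank_split (homogeneousSubmodule (Fin 19) ℂ (1 + d)), e1, e2]
  unfold W
  omega

end Pool.Agent.NonUni
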