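import Mathlib

set_option autoImplicit false

namespace LeadPcp

/-- Comparable words. -/
def Cmp {D : Type} (x y : List D) : Prop := x <+: y ∨ y <+: x

section cmp
variable {D : Type}

lemma Cmp.symm {x y : List D} (h : Cmp x y) : Cmp y x := Or.symm h

lemma Cmp.of_append {x y x' y' : List D} (h : Cmp (x ++ x') (y ++ y')) : Cmp x y := by
  rcases h with h | h
  · exact List.prefix_or_prefix_of_prefix ((List.prefix_append x x').trans h)
      (List.prefix_append y y')
  · exact List.prefix_or_prefix_of_prefix (List.prefix_append x x')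
      ((List.prefix_append y y').trans h)

lemma Cmp.cancel {p x y : List D} (h : Cmp (p ++ x) (p ++ y)) : Cmp x y := by
  rcases h with h | h
  · exact Or.inl ((List.prefix_append_right_inj p).mp h)
  · exact Or.inr ((List.prefix_append_right_inj p).mp h)

lemma Cmp.eq_of_length {x y : List D} (h : Cmp x y) (hl : x.length = y.length) : x = y := by
  rcases h with h | h
  · exact h.eq_of_length hl
  · exact (h.eq_of_length hl.symm).symm

lemma cmp_cons {a b : D} {x y : List D} : Cmp (a :: x) (b :: y) ↔ a = b ∧ Cmp x y := by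
  unfold Cmp
  simp only [List.cons_prefix_cons]
  constructor
  · rintro (h | h)
    · exact ⟨h.1, Or.inl h.2⟩
    · exact ⟨h.1.symm, Or.inr h.2⟩
  · rintro ⟨h1, h | h⟩
    · exact Or.inl ⟨h1, h⟩
    · exact Or.inr ⟨h1.symm, h⟩

lemma cmp_nil_left (x : List D) : Cmp [] x := Or.inl List.nil_prefix
lemma cmp_nil_right (x : List D) : Cmp x [] := Or.inr List.nil_prefix

lemma prefix_map_inj {E : Type} {f : D → E} (hf : Function.Injective f) :
    ∀ {x y : List D}, x.map f <+: y.map f ↔ x <+: y := by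
  intro x
  induction x with
  | nil => intro y; simp
  | cons a x ih =>
    intro y
    cases y with
    | nil => simp
    | cons b y => simp only [List.map_cons, List.cons_prefix_cons, ih, hf.eq_iff]

lemma cmp_map {E : Type} {f : D → E} (hf : Function.Injective f) {x y : List D} :
    Cmp (x.map f) (y.map f) ↔ Cmp x y := by
  unfold Cmp
  rw [prefix_map_inj hf, prefix_map_inj hf]

end cmp

section elem
variable {I D C : Type}

/-- The criterion for elementary families of words. -/
lemma elem (V : I → Prop) (X : I → List D) (l : I → D) (h1 : ∀ i, V i → l i ∈ X i)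
    (h2 : ∀ i j, V i → V j → l i ∈ X j → l j ∈ X i → i = j)
    (f : I → List C) (k : C → List D) (hf : ∀ i, V i → (f i).flatMap k = X i) :
    ∃ p : {i // V i} → C, Function.Injective p := by
  have : ∀ i : {i // V i}, ∃ c ∈ f i.1, l i.1 ∈ k c := by
    intro i
    have := h1 i.1 i.2
    rw [← hf i.1 i.2, List.mem_flatMap] at this
    exact this
  choose p hp1 hp2 using this
  refine ⟨p, fun i j hij => Subtype.ext (h2 i.1 j.1 i.2 j.2 ?_ ?_)⟩
  · rw [← hf j.1 j.2, List.mem_flatMap]
    exact ⟨p j, hp1 j, hij ▸ hp2 i⟩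
  · rw [← hf i.1 i.2, List.mem_flatMap]
    exact ⟨p i, hp1 i, hij.symm ▸ hp2 j⟩

end elem

section forced
variable {I D : Type} (V nm : I → Prop) (h g : I → List D)

/-- One pass over a configuration. -/
def Pass (X Y : List D) : Prop :=
  ∃ rs : List I, (∀ r ∈ rs, nm r) ∧ rs.flatMap h = X ∧ rs.flatMap g = Y

variable {nm h g} in
lemma Pass.append {X Y X' Y' : List D} (a : Pass nm h g X Y) (b : Pass nm h g X' Y') :
    Pass nm h g (X ++ X') (Y ++ Y') := by
  obtain ⟨r1, a1, a2, a3⟩ := a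
  obtain ⟨r2, b1, b2, b3⟩ := b
  refine ⟨r1 ++ r2, ?_, by simp [a2, b2], by simp [a3, b3]⟩
  intro r hr
  rcases List.mem_append.mp hr with hr | hr
  · exact a1 r hr
  · exact b1 r hr

lemma pass_nil : Pass nm h g [] [] := ⟨[], by simp, rfl, rfl⟩

lemma pass_flatMap {B : Type} (x y : B → List D) (bs : List B)
    (hb : ∀ b ∈ bs, Pass nm h g (x b) (y b)) : Pass nm h g (bs.flatMap x) (bs.flatMap y) := by
  induction bs with
  | nil => exact pass_nil nm h g
  | cons b bs ih =>
    rw [List.flatMap_cons, List.flatMap_cons]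
    exact (hb b (by simp)).append (ih fun b' hb' => hb b' (by simp [hb']))

lemma chain_word {X Y : List D} (c : Relation.ReflTransGen (Pass nm h g) X Y) :
    ∃ w : List I, (∀ r ∈ w, nm r) ∧ w.flatMap h ++ Y = X ++ w.flatMap g := by
  induction c with
  | refl => exact ⟨[], by simp, by simp⟩
  | tail _ hp ih =>
    obtain ⟨w, h1, h2⟩ := ih
    obtain ⟨rs, a1, a2, a3⟩ := hp
    refine ⟨w ++ rs, ?_, ?_⟩
    · intro r hr
      rcases List.mem_append.mp hr with hr | hr
      · exact h1 r hr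
      · exact a1 r hr
    · rw [List.flatMap_append, List.flatMap_append, a2, a3, ← List.append_assoc, ← h2]

variable (Alive Fn : List D → Prop)

/-- Reachable overhangs. -/
def Good (o : List D) : Prop :=
  ∃ (rs : List I) (Y : List D), (∀ r ∈ rs, nm r) ∧ o = rs.flatMap h ++ Y ∧ Alive (Y ++ rs.flatMap g)

lemma forced
    (h3 : ∀ r a, nm r → V a → Cmp (h a) (h r) → a = r)
    (h5 : ∀ Z, Alive Z → Z ≠ [] ∧ ((∃ Z', Pass nm h g Z Z' ∧ Alive Z') ∨ Fn Z))
    (h6 : ∀ Z, Fn Z → ∃ e, (∀ a, V a → Cmp (h a) (Z ++ g a) → a = e) ∧ h e = Z ++ g e)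
    (h7 : ∀ r, nm r → h r ≠ []) (o : List D) (ho : Good nm h g Alive o) :
    o ≠ [] ∧ ∃ e, (∀ a, V a → Cmp (h a) (o ++ g a) → a = e) ∧
      ((h e = o ++ g e ∧ ∃ Z, Fn Z) ∨ ∃ o', Good nm h g Alive o' ∧ o ++ g e = h e ++ o') := by
  have key : ∀ (r : I) (rs : List I) (Y : List D), (∀ r' ∈ r :: rs, nm r') →
      o = (r :: rs).flatMap h ++ Y → Alive (Y ++ (r :: rs).flatMap g) →
      o ≠ [] ∧ ∃ e, (∀ a, V a → Cmp (h a) (o ++ g a) → a = e) ∧
      ((h e = o ++ g e ∧ ∃ Z, Fn Z) ∨ ∃ o', Good nm h g Alive o' ∧ o ++ g e = h e ++ o') := by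
    intro r rs Y a1 a2 a3
    have hr := a1 r (by simp)
    refine ⟨?_, r, ?_, Or.inr ⟨rs.flatMap h ++ (Y ++ g r), ⟨rs, Y ++ g r, ?_, rfl, ?_⟩, ?_⟩⟩
    · rw [a2]; simp [h7 r hr]
    · intro a ha hc
      apply h3 r a hr ha
      rw [a2, List.flatMap_cons, List.append_assoc, List.append_assoc] at hc
      exact Cmp.of_append (x' := []) (by simpa using hc)
    · exact fun r' hr' => a1 r' (by simp [hr'])
    · simpa using a3
    · rw [a2]; simp
  obtain ⟨rs, Y, a1, a2, a3⟩ := ho
  cases rs with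
  | cons r rs => exact key r rs Y a1 a2 a3
  | nil =>
    simp only [List.flatMap_nil, List.nil_append, List.append_nil] at a2 a3
    subst a2
    obtain ⟨b1, ⟨Z', ⟨rs, c1, c2, c3⟩, b2⟩ | b2⟩ := h5 o a3
    · cases rs with
      | nil => exact absurd c2.symm b1
      | cons r rs => exact key r rs [] c1 (by simp [← c2]) (by rw [List.nil_append, c3]; exact b2)
    · obtain ⟨e, e1, e2⟩ := h6 o b2
      exact ⟨b1, e, e1, Or.inl ⟨e2, o, b2⟩⟩

theorem abstract (st : I) (d : D) (Z0 : List D)
    (h1 : ∀ a, V a → Cmp (h a) (g a) → a = st)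
    (h2 : h st = [d]) (h2' : g st = d :: Z0)
    (h3 : ∀ r a, nm r → V a → Cmp (h a) (h r) → a = r)
    (h4 : Alive Z0)
    (h5 : ∀ Z, Alive Z → Z ≠ [] ∧ ((∃ Z', Pass nm h g Z Z' ∧ Alive Z') ∨ Fn Z))
    (h6 : ∀ Z, Fn Z → ∃ e, (∀ a, V a → Cmp (h a) (Z ++ g a) → a = e) ∧ h e = Z ++ g e)
    (h7 : ∀ r, nm r → h r ≠ []) :
    (∀ u : List I, (∀ i ∈ u, V i) → ∀ a b, V a → V b → a ≠ b →
      Cmp ((u ++ [a]).flatMap h) ((u ++ [a]).flatMap g) →
      Cmp ((u ++ [b]).flatMap h) ((u ++ [b]).flatMap g) → u.flatMap h = u.flatMap g) ∧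
    (∀ u : List I, u ≠ [] → (∀ i ∈ u, V i) → u.flatMap h = u.flatMap g → ∃ Z, Fn Z) := by
  have inv : ∀ u : List I, (∀ i ∈ u, V i) → Cmp (u.flatMap h) (u.flatMap g) →
      (u.flatMap h = u.flatMap g ∧ (u = [] ∨ ∃ Z, Fn Z)) ∨
        ∃ o, Good nm h g Alive o ∧ u.flatMap g = u.flatMap h ++ o := by
    intro u
    induction u using List.reverseRecOn with
    | nil => intro _ _; left; simp
    | append_singleton u a ih =>
      intro hV hc
      have ha : V a := hV a (by simp)
      simp only [List.flatMap_append, List.flatMap_cons, List.flatMap_nil, List.append_nil] at hc ⊢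
      rcases ih (fun i hi => hV i (by simp [hi])) hc.of_append with ⟨e, _⟩ | ⟨o, ho, e⟩
      · rw [e] at hc ⊢
        have := h1 a ha hc.cancel
        subst this
        right
        refine ⟨Z0, ⟨[], Z0, by simp, by simp, by simpa using h4⟩, ?_⟩
        rw [h2, h2']; simp
      · obtain ⟨_, x, x1, x2⟩ := forced V nm h g Alive Fn h3 h5 h6 h7 o ho
        rw [e, List.append_assoc] at hc ⊢
        have := x1 a ha hc.cancel
        subst this
        rcases x2 with ⟨x2, x3⟩ | ⟨o', x2, x3⟩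
        · left; exact ⟨by rw [x2], Or.inr x3⟩
        · right; exact ⟨o', x2, by rw [x3, List.append_assoc]⟩
  constructor
  · intro u hu a b ha hb hab ca cb
    simp only [List.flatMap_append, List.flatMap_cons, List.flatMap_nil, List.append_nil] at ca cb
    rcases inv u hu ca.of_append with ⟨e, _⟩ | ⟨o, ho, e⟩
    · exact e
    · obtain ⟨_, x, x1, _⟩ := forced V nm h g Alive Fn h3 h5 h6 h7 o ho
      rw [e, List.append_assoc] at ca cb
      exact absurd ((x1 a ha ca.cancel).trans (x1 b hb cb.cancel).symm) hab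
  · intro u hu hV e
    rcases inv u hV (Or.inl (e ▸ List.prefix_refl _)) with ⟨_, e1 | e1⟩ | ⟨o, ho, e1⟩
    · exact absurd e1 hu
    · exact e1
    · have := (forced V nm h g Alive Fn h3 h5 h6 h7 o ho).1
      rw [e] at e1
      exact absurd (List.self_eq_append_right.mp e1) this

end forced

end LeadPcp
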