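import Mathlib
import Pool.Agent.Lib.lead.PcpAbs

set_option autoImplicit false

namespace LeadPcp

inductive HL (S : Type)
  | A (t : ℕ) (a : S)
  | B (t : ℕ) (b : S)
  | ML (i j x y : ℕ)
  | MR (i j x y : ℕ)

inductive HR (S : Type)
  | lf (t : ℕ) (a : S)
  | rt (t : ℕ) (b : S)
  | mid (i j x y : ℕ)

inductive Blk (S : Type)
  | pr (a b : S)
  | sl (a : S)
  | sr (b : S)

/-- Data of a reversible block system. -/
structure Sys (S : Type) where
  cd : S → ℕ
  N : ℕ
  cd_inj : Function.Injective cd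
  cd_lt : ∀ a, cd a < N
  N_pos : 0 < N
  sL : S → Prop
  sR : S → Prop
  z : S

namespace Sys
open HL HR Blk
variable {S : Type} (Y : Sys S)

def hH : HR S → List (HL S)
  | lf t a => [A t a]
  | rt t b => [B t b]
  | mid i j x y => [MR (i + 1) j x (min y j), ML i (j + 1) (min x i) y]

open Classical in
noncomputable def gH : HR S → List (HL S)
  | lf t a => if Y.sL a then [A (t + 1) a] else [A (t + 1) a, MR (t + 1) 0 (min (Y.cd a) (t + 1)) 0]
  | rt t b => if Y.sR b then [B (t + 1) b] else [ML 0 (t + 1) 0 (min (Y.cd b) (t + 1)), B (t + 1) b]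
  | mid i j x y => [ML (i + 1) (j + 1) x y, MR (i + 1) (j + 1) x y]

def vH : HR S → Prop
  | lf t _ => t < 2 * Y.N
  | rt t b => t < 2 * Y.N ∧ b ≠ Y.z
  | mid i j x y => i + j + 2 ≤ 2 * Y.N ∧ x ≤ i + 1 ∧ y ≤ j + 1

def vB : Blk S → Prop
  | pr a b => ¬ Y.sL a ∧ ¬ Y.sR b ∧ b ≠ Y.z
  | sl a => Y.sL a
  | sr b => Y.sR b ∧ b ≠ Y.z

def mids (t : ℕ) (a b : S) : List (HL S) :=
  (List.range t).flatMap fun m => [MR (t - m) m (min (Y.cd a) (t - m)) (min (Y.cd b) m),
    ML (t - m - 1) (m + 1) (min (Y.cd a) (t - m - 1)) (min (Y.cd b) (m + 1))]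

def txt (t : ℕ) : Blk S → List (HL S)
  | pr a b => A t a :: (Y.mids t a b ++ [B t b])
  | sl a => [A t a]
  | sr b => [B t b]

def rules (t : ℕ) : Blk S → List (HR S)
  | pr a b => lf t a :: (((List.range t).map fun m =>
      mid (t - m - 1) m (min (Y.cd a) (t - m)) (min (Y.cd b) (m + 1))) ++ [rt t b])
  | sl a => [lf t a]
  | sr b => [rt t b]

lemma rules_valid (t : ℕ) (ht : t < 2 * Y.N) (b : Blk S) (hb : Y.vB b) :
    ∀ r ∈ Y.rules t b, Y.vH r := by
  intro r hr
  cases b with
  | pr a b =>
    simp only [rules, List.mem_cons, List.mem_append, List.mem_map, List.mem_range,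
      List.not_mem_nil, or_false] at hr
    rcases hr with rfl | ⟨m, hm, rfl⟩ | rfl
    · exact ht
    · simp only [vH]; omega
    · exact ⟨ht, hb.2.2⟩
  | sl a => simp only [rules, List.mem_singleton] at hr; subst hr; exact ht
  | sr b => simp only [rules, List.mem_singleton] at hr; subst hr; exact ⟨ht, hb.2⟩

lemma rules_h (t : ℕ) (b : Blk S) : (Y.rules t b).flatMap hH = Y.txt t b := by
  cases b with
  | pr a b =>
    simp only [rules, txt, mids, List.flatMap_cons, List.flatMap_append, List.flatMap_map, hH,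
      List.flatMap_nil, List.append_nil, List.singleton_append, List.cons.injEq, true_and,
      List.append_cancel_right_eq]
    apply List.flatMap_congr
    intro m hm
    rw [List.mem_range] at hm
    have e1 : t - m - 1 + 1 = t - m := by omega
    have e2 : min (min (Y.cd b) (m + 1)) m = min (Y.cd b) m := by omega
    have e3 : min (min (Y.cd a) (t - m)) (t - m - 1) = min (Y.cd a) (t - m - 1) := by omega
    rw [e1, e2, e3]
  | sl a => rfl
  | sr b => rfl

lemma rebracket {D : Type} (x y : ℕ → D) (t : ℕ) :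
    x 0 :: (((List.range t).flatMap fun m => [y m, x (m + 1)]) ++ [y t]) =
      (List.range (t + 1)).flatMap fun m => [x m, y m] := by
  induction t with
  | zero => rfl
  | succ t ih =>
    rw [List.range_succ (n := t + 1), List.flatMap_append, ← ih, List.range_succ,
      List.flatMap_append]
    simp

lemma rules_g (t : ℕ) (b : Blk S) (hb : Y.vB b) :
    (Y.rules t b).flatMap Y.gH = Y.txt (t + 1) b := by
  cases b with
  | pr a b =>
    obtain ⟨h1, h2, _⟩ := hb
    simp only [rules, txt, mids, List.flatMap_cons, List.flatMap_append, List.flatMap_map, gH,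
      List.flatMap_nil, List.append_nil, if_neg h1, if_neg h2]
    rw [← rebracket]
    simp only [List.cons_append, List.nil_append, List.append_assoc, List.cons.injEq, true_and,
      Nat.sub_zero, Nat.min_zero]
    have e0 : t + 1 - t - 1 = 0 := by omega
    rw [e0, Nat.min_zero]
    congr 1
    apply List.flatMap_congr
    intro m hm
    rw [List.mem_range] at hm
    have e1 : t - m - 1 + 1 = t - m := by omega
    have e2 : t + 1 - m - 1 = t - m := by omega
    have e3 : t + 1 - (m + 1) = t - m := by omega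
    rw [e1, e2, e3]
  | sl a => simp only [rules, txt, List.flatMap_cons, gH, if_pos (show Y.sL a from hb)]; rfl
  | sr b => simp only [rules, txt, List.flatMap_cons, gH, if_pos hb.1]; rfl

lemma mem_mids (t : ℕ) (a b : S) (l : HL S) : l ∈ Y.mids t a b ↔ ∃ m < t,
    l = MR (t - m) m (min (Y.cd a) (t - m)) (min (Y.cd b) m) ∨
    l = ML (t - m - 1) (m + 1) (min (Y.cd a) (t - m - 1)) (min (Y.cd b) (m + 1)) := by
  simp [mids]

lemma mids_length (t : ℕ) (a b : S) : (Y.mids t a b).length = t * 2 := by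
  simp [mids, List.length_flatMap]

/-- Words read in the first half. -/
def XH : HR S ⊕ Blk S → List (HL S) := Sum.elim hH (Y.txt (2 * Y.N))

def vX : HR S ⊕ Blk S → Prop := Sum.elim Y.vH Y.vB

def repH : HR S ⊕ Blk S → HL S
  | .inl (lf t a) => A t a
  | .inl (rt t b) => B t b
  | .inl (mid i j x y) =>
      if (x = i + 1 ↔ y = j + 1) then MR (i + 1) j x (min y j) else ML i (j + 1) (min x i) y
  | .inr (pr a b) => ML Y.N Y.N (Y.cd a) (Y.cd b)
  | .inr (sl a) => A (2 * Y.N) a
  | .inr (sr b) => B (2 * Y.N) b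

def repG : HR S → HL S
  | lf t a => A (t + 1) a
  | rt t b => B (t + 1) b
  | mid i j x y => ML (i + 1) (j + 1) x y

lemma repH_mem (r : HR S ⊕ Blk S) : Y.repH r ∈ Y.XH r := by
  rcases r with (_ | _ | _) | (⟨a, b⟩ | _ | _)
  · simp [repH, XH, hH]
  · simp [repH, XH, hH]
  · simp only [repH, XH, hH, Sum.elim_inl]; split_ifs <;> simp
  · simp only [repH, XH, txt, Sum.elim_inr, List.mem_cons, List.mem_append, mem_mids]
    right; left
    have h0 := Y.N_pos
    have h1 := Y.cd_lt a
    have h2 := Y.cd_lt b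
    refine ⟨Y.N - 1, by omega, Or.inr ?_⟩
    congr 1 <;> omega
  · simp [repH, XH, txt]
  · simp [repH, XH, txt]

lemma repG_mem (r : HR S) : repG r ∈ Y.gH r := by
  rcases r with _ | _ | _
  · simp only [repG, gH]; split_ifs <;> simp
  · simp only [repG, gH]; split_ifs <;> simp
  · simp [repG, gH]

lemma repG_inj (r r' : HR S) (h1 : repG r ∈ Y.gH r') (h2 : repG r' ∈ Y.gH r) : r = r' := by
  rcases r with _ | _ | _ <;> rcases r' with _ | _ | _ <;>
    simp only [repG, gH] at h1 h2 <;> (try split_ifs at h1) <;> (try split_ifs at h2) <;>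
    simp_all

lemma repH_inj (r r' : HR S ⊕ Blk S) (v : Y.vX r) (v' : Y.vX r')
    (h1 : Y.repH r ∈ Y.XH r') (h2 : Y.repH r' ∈ Y.XH r) : r = r' := by
  have hi := Y.cd_inj
  have h0 := Y.N_pos
  rcases r with (_ | _ | _) | (⟨a, b⟩ | _ | _) <;> rcases r' with (_ | _ | _) | (⟨a', b'⟩ | _ | _) <;>
    simp only [repH, XH, vX, vH, vB, hH, txt, Sum.elim_inl, Sum.elim_inr, List.mem_cons,
      List.mem_append, mem_mids, List.not_mem_nil, or_false] at h1 h2 v v' <;>
    (try split_ifs at h1) <;> (try split_ifs at h2) <;>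
    simp only [reduceCtorEq, A.injEq, B.injEq, ML.injEq, MR.injEq, false_or, or_false, or_self,
      and_false, exists_false, Sum.inl.injEq, Sum.inr.injEq, lf.injEq, rt.injEq, mid.injEq,
      pr.injEq, sl.injEq, sr.injEq, true_and] at h1 h2 ⊢ <;>
    first
      | exact h1
      | exact h1.elim
      | exact h2.elim
      | omega
      | (subst h1; tauto)
      | (subst h2; tauto)
      | (obtain ⟨m, _, h1⟩ := h1
         have := Y.cd_lt a'
         have := Y.cd_lt b'
         exact ⟨hi (by omega), hi (by omega)⟩)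

lemma gH_pf (r r' : HR S) (h : Cmp (Y.gH r) (Y.gH r')) : r = r' := by
  rcases r with _ | _ | _ <;> rcases r' with _ | _ | _ <;>
    simp only [gH] at h <;> (try split_ifs at h) <;> simp_all [cmp_cons]

lemma XH_pf (r r' : HR S ⊕ Blk S) (v : Y.vX r) (v' : Y.vX r') (h : Cmp (Y.XH r) (Y.XH r')) :
    r = r' := by
  rcases r with (_ | _ | _) | (⟨a, b⟩ | _ | _) <;> rcases r' with (_ | _ | _) | (⟨a', b'⟩ | _ | _) <;>
    simp only [XH, vX, vH, vB, hH, txt, Sum.elim_inl, Sum.elim_inr, cmp_cons,
      reduceCtorEq, A.injEq, B.injEq, ML.injEq, MR.injEq, false_and,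
      Sum.inl.injEq, Sum.inr.injEq, lf.injEq, rt.injEq, mid.injEq,
      pr.injEq, sl.injEq, sr.injEq, true_and] at h v v' ⊢ <;>
    first
      | exact h.1
      | exact h.elim
      | omega
      | (obtain ⟨rfl, _⟩ := h; tauto)
      | (have := h.2.eq_of_length (by simp [mids_length])
         have := List.append_inj_right' this rfl
         simp only [List.cons.injEq, B.injEq, true_and, and_true] at this
         exact ⟨h.1, this⟩)

end Sys

end LeadPcp
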