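import Mathlib
import Pool.Agent.Lib.lead.PcpGad

set_option autoImplicit false

namespace LeadPcp

inductive Lt (S : Type)
  | f (l : HL S)
  | b (l : HL S)
  | dol
  | eur

inductive Ru (S : Type)
  | fw (r : HR S)
  | bw (r : HR S)
  | tn (p q : Blk S)
  | st
  | en

open HL HR Blk Lt Ru
variable {S : Type}

def embT : HL S → Lt S
  | A t a => if t = 0 then f (B 0 a) else b (A t a)
  | B t a => if t = 0 then f (A 0 a) else b (B t a)
  | ML i j x y => b (ML i j x y)
  | MR i j x y => b (MR i j x y)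

lemma embT_inj : Function.Injective (embT (S := S)) := by
  intro l l' h
  cases l <;> cases l' <;> simp only [embT] at h <;> (try split_ifs at h) <;> simp_all

lemma f_inj : Function.Injective (Lt.f (S := S)) := fun _ _ h => by simpa using h
lemma b_inj : Function.Injective (Lt.b (S := S)) := fun _ _ h => by simpa using h

def mt : Bool × S → Lt S
  | (true, a) => f (A 0 a)
  | (false, a) => f (B 0 a)

def inTxt : Blk S → List (Bool × S)
  | pr a c => [(true, a), (false, c)]
  | sl a => [(true, a)]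
  | sr c => [(false, c)]

def outTxt : Blk S → List (Bool × S)
  | pr a c => [(false, a), (true, c)]
  | sl a => [(false, a)]
  | sr c => [(true, c)]

def MStep (Pi : Blk S → Blk S → Prop) (C C' : List (Bool × S)) : Prop :=
  ∃ bs : List (Blk S × Blk S), (∀ p ∈ bs, Pi p.1 p.2) ∧ C = bs.flatMap (fun p => inTxt p.1) ∧
    C' = bs.flatMap (fun p => outTxt p.2)

lemma MStep.append {Pi : Blk S → Blk S → Prop} {C C' D D' : List (Bool × S)}
    (a : MStep Pi C C') (b : MStep Pi D D') : MStep Pi (C ++ D) (C' ++ D') := by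
  obtain ⟨r1, a1, a2, a3⟩ := a
  obtain ⟨r2, b1, b2, b3⟩ := b
  refine ⟨r1 ++ r2, ?_, by simp [a2, b2], by simp [a3, b3]⟩
  intro r hr
  rcases List.mem_append.mp hr with hr | hr
  · exact a1 r hr
  · exact b1 r hr

lemma MStep.nil (Pi : Blk S → Blk S → Prop) : MStep Pi [] [] := ⟨[], by simp, rfl, rfl⟩

lemma MStep.one {Pi : Blk S → Blk S → Prop} {p q : Blk S} (h : Pi p q) :
    MStep Pi (inTxt p) (outTxt q) := ⟨[(p, q)], by simpa using h, by simp, by simp⟩

namespace Sys
variable (Y : Sys S)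

noncomputable def hR (F : List (Bool × S)) : Ru S → List (Lt S)
  | fw r => (hH r).map f
  | bw r => (Y.gH r).map b
  | tn p _ => (Y.txt (2 * Y.N) p).map f
  | st => [dol]
  | en => ((false, Y.z) :: F).map mt ++ [eur]

noncomputable def gR (Z : List (Bool × S)) : Ru S → List (Lt S)
  | fw r => (Y.gH r).map f
  | bw r => (hH r).map embT
  | tn _ q => (Y.txt (2 * Y.N) q).map embT
  | st => dol :: Z.map mt
  | en => [eur]

def nm (Pi : Blk S → Blk S → Prop) : Ru S → Prop
  | fw r => Y.vH r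
  | bw r => Y.vH r
  | tn p q => Pi p q
  | st => False
  | en => False

def vR (Pi : Blk S → Blk S → Prop) (r : Ru S) : Prop := Y.nm Pi r ∨ r = st ∨ r = en

structure Good (Pi : Blk S → Blk S → Prop) : Prop where
  v1 : ∀ p q, Pi p q → Y.vB p
  v2 : ∀ p q, Pi p q → Y.vB q
  fn : ∀ p q q', Pi p q → Pi p q' → q = q'
  inj : ∀ p p' q, Pi p q → Pi p' q → p = p'

lemma gH_emb (r : HR S) : (Y.gH r).map embT = (Y.gH r).map b := by
  rcases r with _ | _ | _ <;> simp only [gH] <;> (try split_ifs) <;> simp [embT]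

lemma txt_emb (t : ℕ) (ht : t ≠ 0) (p : Blk S) : (Y.txt t p).map embT = (Y.txt t p).map b := by
  apply List.map_congr_left
  intro l hl
  cases p with
  | pr a c =>
    simp only [txt, List.mem_cons, List.mem_append, mem_mids, List.not_mem_nil, or_false] at hl
    rcases hl with rfl | ⟨m, _, rfl | rfl⟩ | rfl <;> simp [embT, ht]
  | sl a => simp only [txt, List.mem_singleton] at hl; subst hl; simp [embT, ht]
  | sr a => simp only [txt, List.mem_singleton] at hl; subst hl; simp [embT, ht]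

variable {Pi : Blk S → Blk S → Prop} (F Z : List (Bool × S))

lemma sim (G : Y.Good Pi) {C C' : List (Bool × S)} (h : MStep Pi C C') :
    Relation.TransGen (Pass (Y.nm Pi) (Y.hR F) (Y.gR Z)) (C.map mt) (C'.map mt) := by
  obtain ⟨bs, h1, rfl, rfl⟩ := h
  have e1 : (bs.flatMap fun p => inTxt p.1).map mt =
      bs.flatMap fun p => (Y.txt 0 p.1).map f := by
    rw [List.map_flatMap]
    apply List.flatMap_congr
    rintro ⟨p, q⟩ _
    cases p <;> simp [inTxt, txt, mids, mt]
  have e2 : (bs.flatMap fun p => outTxt p.2).map mt =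
      bs.flatMap fun p => (Y.txt 0 p.2).map embT := by
    rw [List.map_flatMap]
    apply List.flatMap_congr
    rintro ⟨p, q⟩ _
    cases q <;> simp [outTxt, txt, mids, mt, embT]
  have c1 : ∀ t, t ≤ 2 * Y.N → Relation.ReflTransGen (Pass (Y.nm Pi) (Y.hR F) (Y.gR Z))
      (bs.flatMap fun p => (Y.txt 0 p.1).map f) (bs.flatMap fun p => (Y.txt t p.1).map f) := by
    intro t
    induction t with
    | zero => intro _; exact .refl
    | succ t ih =>
      intro ht
      refine (ih (by omega)).tail ?_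
      apply pass_flatMap
      intro p hp
      have v := G.v1 _ _ (h1 p hp)
      refine ⟨(Y.rules t p.1).map fw, ?_, ?_, ?_⟩
      · intro r hr
        obtain ⟨r', hr', rfl⟩ := List.mem_map.mp hr
        exact Y.rules_valid t (by omega) _ v r' hr'
      · rw [List.flatMap_map, ← Y.rules_h, List.map_flatMap]; rfl
      · rw [List.flatMap_map, ← Y.rules_g t _ v, List.map_flatMap]; rfl
  have c2 : ∀ t, t ≤ 2 * Y.N → Relation.ReflTransGen (Pass (Y.nm Pi) (Y.hR F) (Y.gR Z))
      (bs.flatMap fun p => (Y.txt t p.2).map embT) (bs.flatMap fun p => (Y.txt 0 p.2).map embT) := by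
    intro t
    induction t with
    | zero => intro _; exact .refl
    | succ t ih =>
      intro ht
      refine Relation.ReflTransGen.head ?_ (ih (by omega))
      apply pass_flatMap
      intro p hp
      have v := G.v2 _ _ (h1 p hp)
      refine ⟨(Y.rules t p.2).map bw, ?_, ?_, ?_⟩
      · intro r hr
        obtain ⟨r', hr', rfl⟩ := List.mem_map.mp hr
        exact Y.rules_valid t (by omega) _ v r' hr'
      · rw [List.flatMap_map, ← Y.rules_g t _ v, List.map_flatMap]
        apply List.flatMap_congr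
        intro r _
        exact (Y.gH_emb r).symm
      · rw [List.flatMap_map, ← Y.rules_h, List.map_flatMap]; rfl
  have c3 : Pass (Y.nm Pi) (Y.hR F) (Y.gR Z) (bs.flatMap fun p => (Y.txt (2 * Y.N) p.1).map f)
      (bs.flatMap fun p => (Y.txt (2 * Y.N) p.2).map embT) := by
    apply pass_flatMap
    intro p hp
    exact ⟨[tn p.1 p.2], by simpa [nm] using h1 p hp, by simp [hR], by simp [gR]⟩
  rw [e1, e2]
  exact Relation.TransGen.trans_left (Relation.TransGen.tail' (c1 _ le_rfl) c3) (c2 _ le_rfl)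

lemma hR_ne (r : Ru S) : Y.hR F r ≠ [] := by
  rcases r with (_ | _ | _) | (_ | _ | _) | ⟨_ | _ | _, _⟩ | _ | _ <;>
    simp only [hR, hH, gH, txt] <;> (try split_ifs) <;> simp

lemma gR_ne (r : Ru S) : Y.gR Z r ≠ [] := by
  rcases r with (_ | _ | _) | (_ | _ | _) | ⟨_, _ | _ | _⟩ | _ | _ <;>
    simp only [gR, hH, gH, txt] <;> (try split_ifs) <;> simp

lemma fact1 (a : Ru S) (h : Cmp (Y.hR F a) (Y.gR Z a)) : a = st := by
  have h0 : 2 * Y.N ≠ 0 := by have := Y.N_pos; omega
  rcases a with (_ | _ | _) | (_ | _ | _) | ⟨_ | _ | _, _ | _ | _⟩ | _ | _ <;>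
    simp only [hR, gR, hH, gH, txt] at h <;> (try split_ifs at h) <;>
    simp only [List.map_cons, cmp_cons, embT, mt, List.cons_append, if_neg h0] at h <;>
    (try split_ifs at h) <;> simp_all

lemma fact6 (G : Y.Good Pi) (a : Ru S) (v : Y.vR Pi a) (W : List (Lt S))
    (h : Cmp (Y.hR F a) (mt (false, Y.z) :: W)) : a = en := by
  have h0 : 2 * Y.N ≠ 0 := by have := Y.N_pos; omega
  rcases a with (_ | _ | _) | (_ | _ | _) | ⟨_ | _ | _, _⟩ | _ | _ <;>
    simp only [hR, hH, gH, txt] at h <;> (try split_ifs at h) <;>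
    simp only [List.map_cons, cmp_cons, mt, List.cons_append] at h <;>
    simp_all [vR, nm, vH]

lemma head_f (r : HR S ⊕ Blk S) : ∃ l W, (Y.XH r).map f = f l :: W := by
  rcases r with (_ | _ | _) | (_ | _ | _) <;> simp [XH, hH, txt]

lemma head_b (r : HR S) : ∃ l W, (Y.gH r).map b = b l :: W := by
  rcases r with _ | _ | _ <;> simp only [gH] <;> (try split_ifs) <;> simp

lemma fact3 (G : Y.Good Pi) (r a : Ru S) (vr : Y.nm Pi r) (v : Y.vR Pi a)
    (h : Cmp (Y.hR F a) (Y.hR F r)) : a = r := by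
  rcases v with v | rfl | rfl
  · rcases a with a | a | ⟨p, q⟩ | _ | _ <;> rcases r with r | r | ⟨p', q'⟩ | _ | _
    all_goals first | exact v.elim | exact vr.elim | skip
    · have := Y.XH_pf (.inl a) (.inl r) v vr ((cmp_map f_inj).mp h)
      simp_all
    · obtain ⟨l, W, e⟩ := Y.head_f (.inl a)
      obtain ⟨l', W', e'⟩ := Y.head_b r
      simp only [XH, Sum.elim_inl] at e
      simp [hR, e, e', cmp_cons] at h
    · have := Y.XH_pf (.inl a) (.inr p') v (G.v1 _ _ vr) ((cmp_map f_inj).mp h)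
      simp at this
    · obtain ⟨l, W, e⟩ := Y.head_f (.inl r)
      obtain ⟨l', W', e'⟩ := Y.head_b a
      simp only [XH, Sum.elim_inl] at e
      simp [hR, e, e', cmp_cons] at h
    · rw [Y.gH_pf a r ((cmp_map b_inj).mp h)]
    · obtain ⟨l, W, e⟩ := Y.head_f (.inr p')
      obtain ⟨l', W', e'⟩ := Y.head_b a
      simp only [XH, Sum.elim_inr] at e
      simp [hR, e, e', cmp_cons] at h
    · have := Y.XH_pf (.inr p) (.inl r) (G.v1 _ _ v) vr ((cmp_map f_inj).mp h)
      simp at this
    · obtain ⟨l, W, e⟩ := Y.head_f (.inr p)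
      obtain ⟨l', W', e'⟩ := Y.head_b r
      simp only [XH, Sum.elim_inr] at e
      simp [hR, e, e', cmp_cons] at h
    · have := Y.XH_pf (.inr p) (.inr p') (G.v1 _ _ v) (G.v1 _ _ vr) ((cmp_map f_inj).mp h)
      simp only [Sum.inr.injEq] at this
      subst this
      rw [G.fn _ _ _ v vr]
  · exfalso
    rcases r with r | r | ⟨p', q'⟩ | _ | _
    · obtain ⟨l, W, e⟩ := Y.head_f (.inl r)
      simp only [XH, Sum.elim_inl] at e
      simp [hR, e, cmp_cons] at h
    · obtain ⟨l', W', e'⟩ := Y.head_b r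
      simp [hR, e', cmp_cons] at h
    · obtain ⟨l, W, e⟩ := Y.head_f (.inr p')
      simp only [XH, Sum.elim_inr] at e
      simp [hR, e, cmp_cons] at h
    · exact vr
    · exact vr
  · exact (Y.fact6 F G r (Or.inl vr) _ h.symm).symm

noncomputable def lh : Ru S → Lt S
  | fw r => f (Y.repH (.inl r))
  | bw r => b (repG r)
  | tn p _ => f (Y.repH (.inr p))
  | st => dol
  | en => eur

noncomputable def lg : Ru S → Lt S
  | fw r => f (repG r)
  | bw r => embT (Y.repH (.inl r))
  | tn _ q => embT (Y.repH (.inr q))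
  | st => dol
  | en => eur

lemma lh_mem (r : Ru S) : Y.lh r ∈ Y.hR F r := by
  rcases r with r | r | ⟨p, q⟩ | _ | _
  · exact List.mem_map_of_mem (Y.repH_mem (.inl r))
  · exact List.mem_map_of_mem (Y.repG_mem r)
  · exact List.mem_map_of_mem (Y.repH_mem (.inr p))
  · simp [lh, hR]
  · simp [lh, hR]

lemma lg_mem (r : Ru S) : Y.lg r ∈ Y.gR Z r := by
  rcases r with r | r | ⟨p, q⟩ | _ | _
  · exact List.mem_map_of_mem (Y.repG_mem r)
  · exact List.mem_map_of_mem (Y.repH_mem (.inl r))
  · exact List.mem_map_of_mem (Y.repH_mem (.inr q))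
  · simp [lg, gR]
  · simp [lg, gR]

lemma mt_ne_dol (p : Bool × S) : mt p ≠ dol := by rcases p with ⟨_ | _, _⟩ <;> simp [mt]
lemma mt_ne_eur (p : Bool × S) : mt p ≠ eur := by rcases p with ⟨_ | _, _⟩ <;> simp [mt]
lemma embT_ne_dol (l : HL S) : embT l ≠ dol := by
  cases l <;> simp only [embT] <;> (try split_ifs) <;> simp
lemma embT_ne_eur (l : HL S) : embT l ≠ eur := by
  cases l <;> simp only [embT] <;> (try split_ifs) <;> simp
lemma embT_ne_rep (l : HL S) (r : HR S) : embT l ≠ f (repG r) := by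
  cases l <;> cases r <;> simp only [embT, repG] <;> (try split_ifs) <;> simp

lemma lh_inj (G : Y.Good Pi) (r r' : Ru S) (v : Y.vR Pi r) (v' : Y.vR Pi r')
    (h1 : Y.lh r ∈ Y.hR F r') (h2 : Y.lh r' ∈ Y.hR F r) : r = r' := by
  rcases r with a | a | ⟨p, q⟩ | _ | _ <;> rcases r' with r | r | ⟨p', q'⟩ | _ | _ <;>
    simp only [lh, hR, List.mem_map_of_injective f_inj, List.mem_map_of_injective b_inj,
      vR, nm, reduceCtorEq, or_false] at h1 h2 v v'
  all_goals first
    | rfl
    | (have := Y.repH_inj (.inl a) (.inl r) v v' h1 h2; simp_all; done)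
    | (have := Y.repH_inj (.inl a) (.inr p') v (G.v1 _ _ v') h1 h2; simp at this; done)
    | (have := Y.repH_inj (.inr p) (.inl r) (G.v1 _ _ v) v' h1 h2; simp at this; done)
    | (rw [Y.repG_inj a r h1 h2]; done)
    | (have := Y.repH_inj (.inr p) (.inr p') (G.v1 _ _ v) (G.v1 _ _ v') h1 h2
       simp only [Sum.inr.injEq] at this
       subst this
       rw [G.fn _ _ _ v v'])
    | (simp at h1; done)
    | (simp at h2; done)

lemma lg_inj (G : Y.Good Pi) (r r' : Ru S) (v : Y.vR Pi r) (v' : Y.vR Pi r')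
    (h1 : Y.lg r ∈ Y.gR Z r') (h2 : Y.lg r' ∈ Y.gR Z r) : r = r' := by
  rcases r with a | a | ⟨p, q⟩ | _ | _ <;> rcases r' with r | r | ⟨p', q'⟩ | _ | _ <;>
    simp only [lg, gR, List.mem_map_of_injective f_inj, List.mem_map_of_injective embT_inj,
      vR, nm, reduceCtorEq, or_false] at h1 h2 v v'
  all_goals first
    | rfl
    | (have := Y.repH_inj (.inl a) (.inl r) v v' h1 h2; simp_all; done)
    | (have := Y.repH_inj (.inl a) (.inr q') v (G.v2 _ _ v') h1 h2; simp at this; done)
    | (have := Y.repH_inj (.inr q) (.inl r) (G.v2 _ _ v) v' h1 h2; simp at this; done)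
    | (rw [Y.repG_inj a r h1 h2]; done)
    | (have := Y.repH_inj (.inr q) (.inr q') (G.v2 _ _ v) (G.v2 _ _ v') h1 h2
       simp only [Sum.inr.injEq] at this
       subst this
       rw [G.inj _ _ _ v v'])
    | (simp [embT_ne_rep, embT_ne_dol, embT_ne_eur] at h1; done)
    | (simp [embT_ne_rep, embT_ne_dol, embT_ne_eur] at h2; done)

lemma finite_nm [Finite S] : {r : Ru S | Y.nm Pi r}.Finite := by
  have hB : Finite (Blk S) := by
    apply Finite.of_surjective (fun x : (S × S) ⊕ S ⊕ S => match x with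
      | .inl (a, c) => pr a c
      | .inr (.inl a) => sl a
      | .inr (.inr a) => sr a)
    rintro (⟨a, c⟩ | a | a)
    · exact ⟨.inl (a, c), rfl⟩
    · exact ⟨.inr (.inl a), rfl⟩
    · exact ⟨.inr (.inr a), rfl⟩
  have hH : {r : HR S | Y.vH r}.Finite := by
    let M := 2 * Y.N + 1
    apply (Set.finite_range (fun x : (Fin M × S) ⊕ (Fin M × S) ⊕ (Fin M × Fin M × Fin M × Fin M) =>
      match x with
      | .inl (t, a) => lf t a
      | .inr (.inl (t, a)) => rt t a
      | .inr (.inr (i, j, x, y)) => mid i j x y)).subset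
    rintro (⟨t, a⟩ | ⟨t, a⟩ | ⟨i, j, x, y⟩) hr <;> simp only [Set.mem_setOf_eq, vH] at hr
    · exact ⟨.inl (⟨t, by omega⟩, a), rfl⟩
    · exact ⟨.inr (.inl (⟨t, by omega⟩, a)), rfl⟩
    · exact ⟨.inr (.inr (⟨i, by omega⟩, ⟨j, by omega⟩, ⟨x, by omega⟩, ⟨y, by omega⟩)), rfl⟩
  apply (((hH.image fw).union (hH.image bw)).union
    (Set.finite_range fun x : Blk S × Blk S => tn x.1 x.2)).subset
  rintro (r | r | ⟨p, q⟩ | _ | _) hr
  · exact Or.inl (Or.inl ⟨r, hr, rfl⟩)
  · exact Or.inl (Or.inr ⟨r, hr, rfl⟩)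
  · exact Or.inr ⟨(p, q), rfl⟩
  · exact hr.elim
  · exact hr.elim

include Y in
lemma exists_enc : ∃ e : Lt S → ℕ, Function.Injective e := by
  let e0 : HL S → ℕ × ℕ × ℕ × ℕ × ℕ := fun l => match l with
    | A t a => (0, t, Y.cd a, 0, 0)
    | B t a => (1, t, Y.cd a, 0, 0)
    | ML i j x y => (2, i, j, x, y)
    | MR i j x y => (3, i, j, x, y)
  have h0 : Function.Injective e0 := by
    intro l l' h
    cases l <;> cases l' <;> simp_all [e0, Y.cd_inj.eq_iff]
  let e1 : Lt S → ℕ × ℕ × ℕ × ℕ × ℕ × ℕ := fun l => match l with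
    | f l => (0, e0 l)
    | b l => (1, e0 l)
    | dol => (2, 0, 0, 0, 0, 0)
    | eur => (3, 0, 0, 0, 0, 0)
  have h1 : Function.Injective e1 := by
    intro l l' h
    cases l <;> cases l' <;> simp_all [e1, h0.eq_iff]
  exact ⟨fun l => Encodable.encode (e1 l), Encodable.encode_injective.comp h1⟩

end Sys

end LeadPcp
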