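import Mathlib
import Pool.Agent.Lib.lead.PcpFull

set_option autoImplicit false

namespace LeadPcp

inductive Sy (Ce : Type)
  | cell (c : Ce)
  | fresh (c : Ce)
  | endm (e : Bool)
  | preg (e : Bool) (c : Ce)
  | ini

open Sy Blk

instance {Ce : Type} [Finite Ce] : Finite (Sy Ce) := by
  apply Finite.of_surjective (fun x : Ce ⊕ Ce ⊕ Bool ⊕ (Bool × Ce) ⊕ Unit => match x with
    | .inl c => cell c
    | .inr (.inl c) => fresh c
    | .inr (.inr (.inl e)) => endm e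
    | .inr (.inr (.inr (.inl (e, c)))) => preg e c
    | .inr (.inr (.inr (.inr _))) => ini)
  rintro (c | c | e | ⟨e, c⟩ | _)
  · exact ⟨.inl c, rfl⟩
  · exact ⟨.inr (.inl c), rfl⟩
  · exact ⟨.inr (.inr (.inl e)), rfl⟩
  · exact ⟨.inr (.inr (.inr (.inl (e, c)))), rfl⟩
  · exact ⟨.inr (.inr (.inr (.inr ()))), rfl⟩

section generic
variable {P Ce : Type}

def isE : Bool → P ⊕ Sy Ce → Prop
  | e, .inr (endm e') => e = e'
  | e, .inr (preg e' _) => e = e'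
  | _, _ => False

def okS : Bool → Sy Ce → Prop
  | e, endm e' => e = e'
  | e, preg e' _ => e = e'
  | e, ini => e = false
  | _, _ => True

def gate : Bool → P → Sy Ce → Blk (P ⊕ Sy Ce)
  | true, p, x => pr (.inl p) (.inr x)
  | false, p, x => pr (.inr x) (.inl p)

def sgl : Bool → Sy Ce → Blk (P ⊕ Sy Ce)
  | true, x => sl (.inr x)
  | false, x => sr (.inr x)

def prE : Bool → Sy Ce → Sy Ce → Blk (P ⊕ Sy Ce)
  | true, x, y => pr (.inr x) (.inr y)
  | false, x, y => pr (.inr y) (.inr x)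

abbrev Rel6 (P Ce : Type) := Bool → P → Sy Ce → Bool → P → Sy Ce → Prop

def PiR (G : Rel6 P Ce) (u v : Blk (P ⊕ Sy Ce)) : Prop :=
  (∃ c c', u = pr (.inr (cell c)) (.inr (cell c')) ∧ v = u) ∨
  (∃ e c, u = prE e (cell c) (endm e) ∧ v = u) ∨
  (∃ e, u = sgl e (endm e) ∧ v = u) ∨
  (∃ e c, u = sgl e (preg e c) ∧ v = prE e (fresh c) (endm e)) ∨
  (∃ e c, v = sgl e (preg e c) ∧ u = prE e (fresh c) (endm e)) ∨
  (∃ d p x d' p' x', G d p x d' p' x' ∧ okS d x ∧ okS (!d') x' ∧ u = gate d p x ∧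
    v = gate (!d') p' x')

structure BiU (G : Rel6 P Ce) : Prop where
  fn : ∀ d p x d1 p1 x1 d2 p2 x2, G d p x d1 p1 x1 → G d p x d2 p2 x2 →
    d1 = d2 ∧ p1 = p2 ∧ x1 = x2
  inj : ∀ d p x d1 p1 x1 d2 p2 x2, G d1 p1 x1 d p x → G d2 p2 x2 d p x →
    d1 = d2 ∧ p1 = p2 ∧ x1 = x2

lemma gate_inj {d d' : Bool} {p p' : P} {x x' : Sy Ce} (h : gate d p x = gate d' p' x') :
    d = d' ∧ p = p' ∧ x = x' := by
  cases d <;> cases d' <;> simp_all [gate]

lemma good_of (Y : Sys (P ⊕ Sy Ce)) (h1 : Y.sL = isE true) (h2 : Y.sR = isE false)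
    (h3 : Y.z = .inr ini) (G : Rel6 P Ce) (hG : BiU G) : Y.Good (PiR G) := by
  have vg : ∀ d (p : P) (x : Sy Ce), okS d x → Y.vB (gate d p x) := by
    intro d p x h
    cases d <;> cases x <;> simp_all [gate, Sys.vB, isE, okS]
  refine ⟨?_, ?_, ?_, ?_⟩
  · rintro u v (⟨c, c', rfl, rfl⟩ | ⟨e, c, rfl, rfl⟩ | ⟨e, rfl, rfl⟩ | ⟨e, c, rfl, rfl⟩ |
      ⟨e, c, rfl, rfl⟩ | ⟨d, p, x, d', p', x', g, o1, o2, rfl, rfl⟩)
    · simp [Sys.vB, h1, h2, h3, isE]
    · cases e <;> simp [Sys.vB, h1, h2, h3, isE, prE]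
    · cases e <;> simp [Sys.vB, h1, h2, h3, isE, sgl]
    · cases e <;> simp [Sys.vB, h1, h2, h3, isE, sgl]
    · cases e <;> simp [Sys.vB, h1, h2, h3, isE, prE]
    · exact vg _ _ _ o1
  · rintro u v (⟨c, c', rfl, rfl⟩ | ⟨e, c, rfl, rfl⟩ | ⟨e, rfl, rfl⟩ | ⟨e, c, rfl, rfl⟩ |
      ⟨e, c, rfl, rfl⟩ | ⟨d, p, x, d', p', x', g, o1, o2, rfl, rfl⟩)
    · simp [Sys.vB, h1, h2, h3, isE]
    · cases e <;> simp [Sys.vB, h1, h2, h3, isE, prE]
    · cases e <;> simp [Sys.vB, h1, h2, h3, isE, sgl]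
    · cases e <;> simp [Sys.vB, h1, h2, h3, isE, prE]
    · cases e <;> simp [Sys.vB, h1, h2, h3, isE, sgl]
    · exact vg _ _ _ o2
  · rintro u v v' (⟨c, c', e1, e2⟩ | ⟨e, c, e1, e2⟩ | ⟨e, e1, e2⟩ | ⟨e, c, e1, e2⟩ |
      ⟨e, c, e1, e2⟩ | ⟨e, p, x, d', p', x', g, o1, o2, e1, e2⟩)
      (⟨k, k', f1, f2⟩ | ⟨f, k, f1, f2⟩ | ⟨f, f1, f2⟩ | ⟨f, k, f1, f2⟩ |
      ⟨f, k, f1, f2⟩ | ⟨f, q, y, b', q', y', g', n1, n2, f1, f2⟩)
    all_goals first
      | (rw [e2, f2]; done)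
      | (obtain ⟨rfl, rfl, rfl⟩ := gate_inj (e1.symm.trans f1)
         obtain ⟨rfl, rfl, rfl⟩ := hG.fn _ _ _ _ _ _ _ _ _ g g'
         rw [e2, f2])
      | (cases e <;> cases f <;> simp_all [prE, sgl, gate]; done)
      | (cases e <;> simp_all [prE, sgl, gate]; done)
      | (cases f <;> simp_all [prE, sgl, gate]; done)
  · rintro u u' v (⟨c, c', e1, e2⟩ | ⟨e, c, e1, e2⟩ | ⟨e, e1, e2⟩ | ⟨e, c, e1, e2⟩ |
      ⟨e, c, e1, e2⟩ | ⟨d, p, x, e, p', x', g, o1, o2, e1, e2⟩)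
      (⟨k, k', f1, f2⟩ | ⟨f, k, f1, f2⟩ | ⟨f, f1, f2⟩ | ⟨f, k, f1, f2⟩ |
      ⟨f, k, f1, f2⟩ | ⟨b, q, y, f, q', y', g', n1, n2, f1, f2⟩)
    all_goals first
      | (rw [← e2, ← f2]; done)
      | (obtain ⟨a1, rfl, rfl⟩ := gate_inj (e2.symm.trans f2)
         obtain rfl : e = f := by simpa using a1
         obtain ⟨rfl, rfl, rfl⟩ := hG.inj _ _ _ _ _ _ _ _ _ g g'
         rw [e1, f1])
      | (cases e <;> cases f <;> simp_all [prE, sgl, gate]; done)
      | (cases e <;> simp_all [prE, sgl, gate]; done)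
      | (cases f <;> simp_all [prE, sgl, gate]; done)

def alt : Bool → List (Sy Ce) → List (Bool × (P ⊕ Sy Ce))
  | _, [] => []
  | s, x :: l => (s, .inr x) :: alt (!s) l

def tx : Bool → Bool → List (Sy Ce) → List (Bool × (P ⊕ Sy Ce))
  | true, s, X => alt s X
  | false, s, X => (alt s X).reverse

def stk (e : Bool) (cs : List Ce) : List (Sy Ce) := cs.map cell ++ [endm e]

def Bg (e : Bool) (X X' : List (Sy Ce)) : Prop :=
  (X = X' ∧ (X = [] ∨ ∃ cs, X = stk e cs)) ∨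
    ∃ c, (X = [preg e c] ∧ X' = [fresh c, endm e]) ∨ (X' = [preg e c] ∧ X = [fresh c, endm e])

lemma Bg.symm {e : Bool} {X X' : List (Sy Ce)} (h : Bg e X X') : Bg e X' X := by
  rcases h with ⟨rfl, h⟩ | ⟨c, h | h⟩
  · exact Or.inl ⟨rfl, h⟩
  · exact Or.inr ⟨c, Or.inr h⟩
  · exact Or.inr ⟨c, Or.inl h⟩

lemma bg_stk (e : Bool) (cs : List Ce) : Bg e (stk e cs) (stk e cs) :=
  Or.inl ⟨rfl, Or.inr ⟨cs, rfl⟩⟩

lemma bg_nil (e : Bool) : Bg e ([] : List (Sy Ce)) [] := Or.inl ⟨rfl, Or.inl rfl⟩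

lemma stk_step (G : Rel6 P Ce) (e : Bool) :
    ∀ cs : List Ce, MStep (PiR G) (tx e e (stk e cs)) (tx e (!e) (stk e cs))
  | [] => by
    have := MStep.one (Pi := PiR G) (Or.inr (Or.inr (Or.inl ⟨e, rfl, rfl⟩)))
    cases e <;> exact this
  | [c] => by
    have := MStep.one (Pi := PiR G) (Or.inr (Or.inl ⟨e, c, rfl, rfl⟩))
    cases e <;> exact this
  | c :: c' :: cs => by
    have ih := stk_step G e cs
    cases e
    · have := ih.append (MStep.one (Pi := PiR G) (Or.inl ⟨c', c, rfl, rfl⟩))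
      simpa [tx, stk, alt, inTxt, outTxt] using this
    · have := (MStep.one (Pi := PiR G) (Or.inl ⟨c, c', rfl, rfl⟩)).append ih
      simpa [tx, stk, alt, inTxt, outTxt] using this

lemma bg_step (G : Rel6 P Ce) {e : Bool} {X X' : List (Sy Ce)} (h : Bg e X X') :
    MStep (PiR G) (tx e e X) (tx e (!e) X') := by
  rcases h with ⟨rfl, rfl | ⟨cs, rfl⟩⟩ | ⟨c, ⟨rfl, rfl⟩ | ⟨rfl, rfl⟩⟩
  · cases e <;> exact MStep.nil _
  · exact stk_step G e cs
  · have := MStep.one (Pi := PiR G) (Or.inr (Or.inr (Or.inr (Or.inl ⟨e, c, rfl, rfl⟩))))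
    cases e <;> exact this
  · have := MStep.one (Pi := PiR G) (Or.inr (Or.inr (Or.inr (Or.inr (Or.inl ⟨e, c, rfl, rfl⟩)))))
    cases e <;> exact this

abbrev Cf (P Ce : Type) := Bool × P × List (Sy Ce) × List (Sy Ce)

def text : Cf P Ce → List (Bool × (P ⊕ Sy Ce))
  | (true, p, fr, be) => tx false false be ++ (true, .inl p) :: tx true false fr
  | (false, p, fr, be) => tx false true fr ++ (false, .inl p) :: tx true true be

inductive GStep (G : Rel6 P Ce) : Cf P Ce → Cf P Ce → Prop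
  | pass (d p x p' x' f f' b b') : G d p x d p' x' → okS d x → okS (!d) x' → Bg d f f' →
      Bg (!d) b b' → GStep G (d, p, x :: f, b) (d, p', f', x' :: b')
  | refl (d p x p' x' f f' b b') : G d p x (!d) p' x' → okS d x → okS d x' → Bg d f f' →
      Bg (!d) b b' → GStep G (d, p, x :: f, b) (!d, p', b', x' :: f')

lemma gstep_mstep (G : Rel6 P Ce) {K K' : Cf P Ce} (h : GStep G K K') :
    MStep (PiR G) (text K) (text K') := by
  cases h with
  | pass d p x p' x' f f' b b' g o1 o2 b1 b2 =>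
    have c := MStep.one (Pi := PiR G) (Or.inr (Or.inr (Or.inr (Or.inr (Or.inr
      ⟨d, p, x, d, p', x', g, o1, o2, rfl, rfl⟩)))))
    have c1 := bg_step G b1
    have c2 := bg_step G b2
    cases d
    · simpa [text, tx, alt, gate, inTxt, outTxt] using (c1.append c).append c2
    · simpa [text, tx, alt, gate, inTxt, outTxt] using (c2.append c).append c1
  | refl d p x p' x' f f' b b' g o1 o2 b1 b2 =>
    have c := MStep.one (Pi := PiR G) (Or.inr (Or.inr (Or.inr (Or.inr (Or.inr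
      ⟨d, p, x, !d, p', x', g, o1, by simpa using o2, rfl, rfl⟩)))))
    have c1 := bg_step G b1
    have c2 := bg_step G b2
    cases d
    · simpa [text, tx, alt, gate, inTxt, outTxt] using (c1.append c).append c2
    · simpa [text, tx, alt, gate, inTxt, outTxt] using (c2.append c).append c1

/-- The doubled machine: run forwards, turn round when stuck, run backwards. -/
def GR (F : Rel6 P Ce) : Rel6 (Bool × P) Ce := fun d p x d' p' x' =>
  (p.1 = false ∧ p'.1 = false ∧ F d p.2 x d' p'.2 x') ∨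
  (p.1 = false ∧ p'.1 = true ∧ (∀ d1 p1 x1, ¬ F d p.2 x d1 p1 x1) ∧ d' = !d ∧ p'.2 = p.2 ∧ x' = x) ∨
  (p.1 = true ∧ p'.1 = true ∧ F (!d') p'.2 x' (!d) p.2 x)

lemma GR_biu {F : Rel6 P Ce} (h : BiU F) : BiU (GR F) := by
  constructor
  · rintro d ⟨s, p⟩ x d1 ⟨s1, p1⟩ x1 d2 ⟨s2, p2⟩ x2
      (⟨a1, a2, a3⟩ | ⟨a1, a2, a3, a4, a5, a6⟩ | ⟨a1, a2, a3⟩)
      (⟨b1, b2, b3⟩ | ⟨b1, b2, b3, b4, b5, b6⟩ | ⟨b1, b2, b3⟩) <;> simp only at *
    · have := h.fn _ _ _ _ _ _ _ _ _ a3 b3; simp_all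
    · exact absurd a3 (b3 _ _ _)
    · simp_all
    · exact absurd b3 (a3 _ _ _)
    · simp_all
    · simp_all
    · simp_all
    · simp_all
    · have := h.inj _ _ _ _ _ _ _ _ _ a3 b3; simp_all
  · rintro d ⟨s, p⟩ x d1 ⟨s1, p1⟩ x1 d2 ⟨s2, p2⟩ x2
      (⟨a1, a2, a3⟩ | ⟨a1, a2, a3, a4, a5, a6⟩ | ⟨a1, a2, a3⟩)
      (⟨b1, b2, b3⟩ | ⟨b1, b2, b3, b4, b5, b6⟩ | ⟨b1, b2, b3⟩) <;> simp only at *
    · have := h.inj _ _ _ _ _ _ _ _ _ a3 b3; simp_all
    · simp_all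
    · simp_all
    · simp_all
    · subst a4 a5 a6 b5 b6
      simp_all
    · subst a4 a5 a6
      rw [Bool.not_not] at b3
      exact absurd b3 (a3 _ _ _)
    · simp_all
    · subst b4 b5 b6
      rw [Bool.not_not] at a3
      exact absurd a3 (b3 _ _ _)
    · have := h.fn _ _ _ _ _ _ _ _ _ a3 b3; simp_all

def fwd (K : Cf P Ce) : Cf (Bool × P) Ce := (K.1, (false, K.2.1), K.2.2.1, K.2.2.2)
def bar (K : Cf P Ce) : Cf (Bool × P) Ce := (!K.1, (true, K.2.1), K.2.2.2, K.2.2.1)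

lemma step_fwd {F : Rel6 P Ce} {K K' : Cf P Ce} (h : GStep F K K') :
    GStep (GR F) (fwd K) (fwd K') := by
  cases h with
  | pass d p x p' x' f f' b b' g o1 o2 b1 b2 =>
    exact GStep.pass d _ x _ x' f f' b b' (Or.inl ⟨rfl, rfl, g⟩) o1 o2 b1 b2
  | refl d p x p' x' f f' b b' g o1 o2 b1 b2 =>
    exact GStep.refl d _ x _ x' f f' b b' (Or.inl ⟨rfl, rfl, g⟩) o1 o2 b1 b2

lemma step_bar {F : Rel6 P Ce} {K K' : Cf P Ce} (h : GStep F K K') :
    GStep (GR F) (bar K') (bar K) := by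
  cases h with
  | pass d p x p' x' f f' b b' g o1 o2 b1 b2 =>
    exact GStep.pass (!d) _ x' _ x b' b f' f (Or.inr (Or.inr ⟨rfl, rfl, by simpa using g⟩)) o2
      (by simpa using o1) b2.symm (by simpa using b1.symm)
  | refl d p x p' x' f f' b b' g o1 o2 b1 b2 =>
    have := GStep.refl (G := GR F) d (true, p') x' (true, p) x f' f b' b
      (Or.inr (Or.inr ⟨rfl, rfl, by simpa using g⟩)) o2 o1 b1.symm b2.symm
    simpa [bar] using this

def Stuck (F : Rel6 P Ce) (K : Cf P Ce) : Prop :=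
  ∃ x f, K.2.2.1 = x :: f ∧ okS K.1 x ∧ (∀ d1 p1 x1, ¬ F K.1 K.2.1 x d1 p1 x1) ∧ Bg K.1 f f ∧
    Bg (!K.1) K.2.2.2 K.2.2.2

lemma step_turn {F : Rel6 P Ce} {K : Cf P Ce} (h : Stuck F K) : GStep (GR F) (fwd K) (bar K) := by
  obtain ⟨d, p, fr, be⟩ := K
  obtain ⟨x, f, rfl, o, n, b1, b2⟩ := h
  exact GStep.refl d _ x _ x f f be be (Or.inr (Or.inl ⟨rfl, rfl, n, rfl, rfl, rfl⟩)) o o b1 b2

lemma there_and_back {F : Rel6 P Ce} {K K' : Cf P Ce}
    (h : Relation.ReflTransGen (GStep F) K K') (hs : Stuck F K') :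
    Relation.ReflTransGen (GStep (GR F)) (fwd K) (bar K) := by
  have h1 : Relation.ReflTransGen (GStep (GR F)) (fwd K) (fwd K') :=
    h.lift fwd fun _ _ => step_fwd
  have h2 : Relation.ReflTransGen (GStep (GR F)) (bar K') (bar K) := by
    clear h1 hs
    induction h with
    | refl => exact .refl
    | tail _ s ih => exact .head (step_bar s) ih
  exact (h1.tail (step_turn hs)).trans h2

lemma step_pass {F : Rel6 P Ce} {d : Bool} {p p' : P} {c c' : Ce}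
    (h : F d p (cell c) d p' (cell c')) (f b : List Ce) :
    GStep F (d, p, stk d (c :: f), stk (!d) b) (d, p', stk d f, stk (!d) (c' :: b)) :=
  GStep.pass d p _ p' _ _ _ _ _ h trivial trivial (bg_stk _ _) (bg_stk _ _)

lemma step_refl {F : Rel6 P Ce} {d : Bool} {p p' : P} {c c' : Ce}
    (h : F d p (cell c) (!d) p' (cell c')) (f b : List Ce) :
    GStep F (d, p, stk d (c :: f), stk (!d) b) (!d, p', stk (!d) b, stk d (c' :: f)) :=
  GStep.refl d p _ p' _ _ _ _ _ h trivial trivial (bg_stk _ _) (bg_stk _ _)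

lemma sweep {F : Rel6 P Ce} {d : Bool} {p : P} (cs : List Ce)
    (h : ∀ c ∈ cs, F d p (cell c) d p (cell c)) (f : List Ce) : ∀ b : List Ce,
    Relation.ReflTransGen (GStep F) (d, p, stk d (cs ++ f), stk (!d) b)
      (d, p, stk d f, stk (!d) (cs.reverse ++ b)) := by
  induction cs with
  | nil => intro b; exact .refl
  | cons c cs ih =>
    intro b
    have := ih (fun c' hc' => h c' (by simp [hc'])) (c :: b)
    rw [List.reverse_cons, List.append_assoc]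
    exact .head (step_pass (h c (by simp)) _ _) this

lemma grow {F : Rel6 P Ce} {e : Bool} {p g1 g2 g3 p' : P} {c x : Ce}
    (h1 : F e p (endm e) (!e) g1 (preg e c)) (h2 : F (!e) g1 (cell x) e g2 (cell x))
    (h3 : F e g2 (fresh c) e g3 (cell c)) (h4 : F e g3 (endm e) (!e) p' (endm e)) (b : List Ce) :
    Relation.TransGen (GStep F) (e, p, stk e [], stk (!e) (x :: b))
      (!e, p', stk (!e) (c :: x :: b), stk e []) := by
  have s1 : GStep F (e, p, stk e [], stk (!e) (x :: b)) (!e, g1, stk (!e) (x :: b), [preg e c]) :=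
    GStep.refl e p _ g1 _ [] [] _ _ h1 rfl rfl (bg_nil _) (bg_stk _ _)
  have s2 : GStep F (!e, g1, stk (!e) (x :: b), [preg e c])
      (e, g2, [fresh c, endm e], stk (!e) (x :: b)) := by
    have := GStep.refl (G := F) (!e) g1 (cell x) g2 (cell x) (stk (!e) b) (stk (!e) b) [preg e c]
      [fresh c, endm e] (by simpa using h2) trivial trivial (bg_stk _ _)
      (Or.inr ⟨c, Or.inl ⟨by simp, by simp⟩⟩)
    simpa [stk] using this
  have s3 : GStep F (e, g2, [fresh c, endm e], stk (!e) (x :: b))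
      (e, g3, stk e [], stk (!e) (c :: x :: b)) :=
    GStep.pass e g2 _ g3 _ (stk e []) (stk e []) _ _ h3 trivial trivial (bg_stk _ _) (bg_stk _ _)
  have s4 : GStep F (e, g3, stk e [], stk (!e) (c :: x :: b))
      (!e, p', stk (!e) (c :: x :: b), stk e []) :=
    GStep.refl e g3 _ p' _ [] [] _ _ h4 rfl rfl (bg_nil _) (bg_stk _ _)
  exact (((Relation.TransGen.single s1).tail s2).tail s3).tail s4

end generic

end LeadPcp
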