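import Mathlib
import Pool.Agent.Lib.lead.PcpMach

set_option autoImplicit false

namespace LeadPcp

open Turing Sy

inductive Ph (H : Type)
  | scan
  | put (h : H)
  | carry (h : H)
  | back
  | g1
  | g2
  | g3
  | i1

open Ph

instance {H : Type} [Finite H] : Finite (Ph H) := by
  apply Finite.of_surjective (fun x : H ⊕ H ⊕ Fin 6 => match x with
    | .inl c => put c
    | .inr (.inl c) => carry c
    | .inr (.inr i) => ![scan, back, g1, g2, g3, i1] i)
  rintro (_ | c | c | _ | _ | _ | _ | _)
  · exact ⟨.inr (.inr 0), rfl⟩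
  · exact ⟨.inl c, rfl⟩
  · exact ⟨.inr (.inl c), rfl⟩
  · exact ⟨.inr (.inr 1), rfl⟩
  · exact ⟨.inr (.inr 2), rfl⟩
  · exact ⟨.inr (.inr 3), rfl⟩
  · exact ⟨.inr (.inr 4), rfl⟩
  · exact ⟨.inr (.inr 5), rfl⟩

section tm
variable {Γ Q : Type} [Inhabited Γ] [Inhabited Q] (M : TM0.Machine Γ Q)

abbrev Hi (Γ Q : Type) := Option (Q × Γ)
abbrev Cl (Γ Q : Type) := Γ × Option Q × Hi Γ Q

def dirB : Dir → Bool
  | .left => false
  | .right => true

def nxt : Hi Γ Q → Option (Q × Bool)
  | none => some (default, true)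
  | some (q, a) => match M q a with
    | some (q', .move d) => some (q', dirB d)
    | _ => none

inductive FR : Bool → Ph (Hi Γ Q) → Sy (Cl Γ Q) → Bool → Ph (Hi Γ Q) → Sy (Cl Γ Q) → Prop
  | r1 : FR false i1 ini true (put none) (endm false)
  | r2 (a h) : FR true scan (cell (a, none, h)) true scan (cell (a, none, h))
  | r3 (q a h q' b) : M q a = some (q', .write b) →
      FR true scan (cell (a, some q, h)) true (carry (some (q, a))) (cell (b, some q', h))
  | r4 (q a h q' d) : nxt M (some (q, a)) = some (q', d) →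
      FR true scan (cell (a, some q, h)) d (put (some (q, a))) (cell (a, none, h))
  | r5 (k q' d x h) : nxt M k = some (q', d) →
      FR d (put k) (cell (x, none, h)) true (carry k) (cell (x, some q', h))
  | r6 (k x h) : FR true (carry k) (cell (x, none, h)) true (carry k) (cell (x, none, h))
  | r7 (k c) : c = (default, none, k) → FR true (carry k) (endm true) false g1 (preg true c)
  | r8 (c) : FR true g1 (cell c) false g2 (cell c)
  | r8' (c) : FR false g1 (cell c) true g2 (cell c)
  | r9 (d c) : FR d g2 (fresh c) d g3 (cell c)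
  | r10 : FR true g3 (endm true) false back (endm true)
  | r11 : FR false g3 (endm false) true scan (endm false)
  | r12 (c) : FR false back (cell c) false back (cell c)
  | r13 (c) : c = (default, none, none) → FR false back (endm false) true g1 (preg false c)

lemma FR_biu : BiU (FR M) := by
  constructor
  · intro d p x d1 p1 x1 d2 p2 x2 h1 h2
    cases h1 <;> cases h2 <;> simp_all [nxt]
  · intro d p x d1 p1 x1 d2 p2 x2 h1 h2
    cases h1 <;> cases h2 <;> simp_all [nxt]

def um (x : Γ × Hi Γ Q) : Cl Γ Q := (x.1, none, x.2)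

lemma finish (k : Hi Γ Q) (r : List (Γ × Hi Γ Q)) (x : Cl Γ Q) (b : List (Cl Γ Q)) :
    Relation.TransGen (GStep (FR M)) (true, carry k, stk true (r.map um), stk false (x :: b))
      (true, scan, stk true (um (default, none) :: ((x :: b).reverse ++ r.map um ++
        [um (default, k)])), stk false []) := by
  have s1 := sweep (F := FR M) (d := true) (p := carry k) (r.map um) (by
    intro c hc
    obtain ⟨y, _, rfl⟩ := List.mem_map.mp hc
    exact FR.r6 _ _ _) [] (x :: b)
  rw [List.append_nil] at s1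
  obtain ⟨y, l, e⟩ : ∃ y l, (r.map um).reverse ++ x :: b = y :: l := by
    cases h : (r.map um).reverse ++ x :: b with
    | nil => simp at h
    | cons y l => exact ⟨y, l, rfl⟩
  rw [e] at s1
  have s2 := grow (F := FR M) (e := true) (FR.r7 k _ rfl) (FR.r8' y) (FR.r9 _ _) FR.r10 l
  have s3 := sweep (F := FR M) (d := false) (p := back) ((default, none, k) :: y :: l)
    (fun c _ => FR.r12 c) [] []
  rw [List.append_nil, List.append_nil] at s3
  obtain ⟨y', l', e'⟩ : ∃ y' l', ((default, none, k) :: y :: l : List (Cl Γ Q)).reverse =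
      y' :: l' := by
    cases h : ((default, none, k) :: y :: l : List (Cl Γ Q)).reverse with
    | nil => simp at h
    | cons y l => exact ⟨y, l, rfl⟩
  rw [e'] at s3
  have s4 := grow (F := FR M) (e := false) (FR.r13 _ rfl) (FR.r8 y') (FR.r9 _ _) FR.r11 l'
  have e3 : (x :: b).reverse ++ r.map um ++ [um (default, k)] = y' :: l' := by
    rw [← e', ← e]; simp [um]
  rw [e3]
  exact Relation.TransGen.trans_right s1 (s2.trans (Relation.TransGen.trans_right s3 s4))

def Rep (c : TM0.Cfg Γ Q) (K : Cf (Ph (Hi Γ Q)) (Cl Γ Q)) : Prop :=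
  ∃ (l r : List (Γ × Hi Γ Q)) (h : Hi Γ Q), l ≠ [] ∧ r ≠ [] ∧
    K = (true, scan, stk true ((l.map um).reverse ++ (c.Tape.head, some c.q, h) :: r.map um),
      stk false []) ∧
    c.Tape.left = ListBlank.mk (l.map Prod.fst) ∧ c.Tape.right = ListBlank.mk (r.map Prod.fst)

omit [Inhabited Q] in
lemma mk_blank (l : List Γ) : ListBlank.mk (l ++ [default]) = ListBlank.mk l := by
  apply Quotient.sound
  exact Or.inr ⟨1, rfl⟩

lemma to_mark (l r : List (Γ × Hi Γ Q)) (y : Cl Γ Q) :
    Relation.ReflTransGen (GStep (FR M))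
      (true, scan, stk true ((l.map um).reverse ++ y :: r.map um), stk false [])
      (true, scan, stk true (y :: r.map um), stk false (l.map um)) := by
  have := sweep (F := FR M) (d := true) (p := scan) (l.map um).reverse (by
    intro c hc
    obtain ⟨y, _, rfl⟩ := List.mem_map.mp (List.mem_reverse.mp hc)
    exact FR.r2 _ _) (y :: r.map um) []
  simpa using this

lemma rep_step {c c' : TM0.Cfg Γ Q} {K : Cf (Ph (Hi Γ Q)) (Cl Γ Q)} (h : Rep c K)
    (s : c' ∈ TM0.step M c) : ∃ K', Relation.TransGen (GStep (FR M)) K K' ∧ Rep c' K' := by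
  obtain ⟨q, ⟨a, L, R⟩⟩ := c
  obtain ⟨l, r, h, hl, hr, rfl, e1, e2⟩ := h
  simp only at e1 e2
  subst e1 e2
  simp only [TM0.step, Option.mem_def, Option.map_eq_some_iff] at s
  obtain ⟨⟨q', st⟩, hM, rfl⟩ := s
  have s0 := to_mark M l r (a, some q, h)
  rcases st with (_ | _) | b
  · obtain ⟨⟨x, hx⟩, l0, rfl⟩ := List.exists_cons_of_ne_nil hl
    have n : nxt M (some (q, a)) = some (q', false) := by simp [nxt, hM, dirB]
    have s1 := step_refl (F := FR M) (d := true) (FR.r4 q a h q' false n) (r.map um)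
      (((x, hx) :: l0).map um)
    have s2 := step_refl (F := FR M) (d := false) (FR.r5 _ q' false x hx n) (l0.map um)
      (((a, h) :: r).map um)
    have s3 := finish M (some (q, a)) ((a, h) :: r) (x, some q', hx) (l0.map um)
    refine ⟨_, Relation.TransGen.trans_right s0 (.head s1 (.head s2 s3)),
      l0 ++ [(default, none)], (a, h) :: r ++ [(default, some (q, a))], hx, by simp, by simp,
      ?_, ?_, ?_⟩
    · simp [Tape.move]
    · simp [Tape.move, mk_blank]
    · simp only [Tape.move, List.map_append, List.map_cons, List.map_nil, mk_blank,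
        ListBlank.cons_mk]
  · obtain ⟨⟨x, hx⟩, r0, rfl⟩ := List.exists_cons_of_ne_nil hr
    have n : nxt M (some (q, a)) = some (q', true) := by simp [nxt, hM, dirB]
    have s1 := step_pass (F := FR M) (d := true) (FR.r4 q a h q' true n) (((x, hx) :: r0).map um)
      (l.map um)
    have s2 := step_pass (F := FR M) (d := true) (FR.r5 _ q' true x hx n) (r0.map um)
      (((a, h) :: l).map um)
    have s3 := finish M (some (q, a)) r0 (x, some q', hx) (((a, h) :: l).map um)
    refine ⟨_, Relation.TransGen.trans_right s0 (.head s1 (.head s2 s3)),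
      (a, h) :: l ++ [(default, none)], r0 ++ [(default, some (q, a))], hx, by simp, by simp,
      ?_, ?_, ?_⟩
    · simp [Tape.move]
    · simp only [Tape.move, List.map_append, List.map_cons, List.map_nil, mk_blank,
        ListBlank.cons_mk]
    · simp [Tape.move, mk_blank]
  · have s1 := step_pass (F := FR M) (d := true) (FR.r3 q a h q' b hM) (r.map um) (l.map um)
    have s3 := finish M (some (q, a)) r (b, some q', h) (l.map um)
    refine ⟨_, Relation.TransGen.trans_right s0 (.head s1 s3),
      l ++ [(default, none)], r ++ [(default, some (q, a))], h, by simp, by simp, ?_, ?_, ?_⟩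
    · simp [Tape.write]
    · simp [Tape.write, mk_blank]
    · simp [Tape.write, mk_blank]

lemma rep_halt {c : TM0.Cfg Γ Q} {K : Cf (Ph (Hi Γ Q)) (Cl Γ Q)} (h : Rep c K)
    (s : TM0.step M c = none) :
    ∃ K', Relation.ReflTransGen (GStep (FR M)) K K' ∧ Stuck (FR M) K' := by
  obtain ⟨q, ⟨a, L, R⟩⟩ := c
  obtain ⟨l, r, h, hl, hr, rfl, e1, e2⟩ := h
  simp only [TM0.step, Option.map_eq_none_iff] at s
  refine ⟨_, to_mark M l r (a, some q, h), cell (a, some q, h), stk true (r.map um), rfl, trivial,
    ?_, bg_stk _ _, bg_stk _ _⟩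
  intro d1 p1 x1 hf
  cases hf <;> simp_all [nxt]

def K0 (inp : List Γ) : Cf (Ph (Hi Γ Q)) (Cl Γ Q) :=
  (false, i1, [ini], stk true (inp.map fun a => (a, none, none)))

lemma rep_init (a : Γ) (inp : List Γ) :
    ∃ K', Relation.TransGen (GStep (FR M)) (K0 (a :: inp)) K' ∧ Rep (TM0.init (a :: inp)) K' := by
  have s1 : GStep (FR M) (K0 (a :: inp))
      (true, put none, stk true ((a :: inp).map fun a => (a, none, none)), stk false []) :=
    GStep.refl false i1 ini _ _ [] [] _ _ FR.r1 rfl rfl (bg_nil _) (bg_stk _ _)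
  have s2 := step_pass (F := FR M) (d := true) (FR.r5 none default true a none rfl)
    ((inp.map fun a => (a, none)).map um) []
  have s3 := finish M none (inp.map fun a => (a, none)) (a, some default, none) []
  refine ⟨_, .head s1 (.head (by simpa [um, Function.comp_def] using s2) s3), [(default, none)],
    (inp.map fun a => (a, none)) ++ [(default, none)], none, by simp, by simp, ?_, ?_, ?_⟩
  · simp [TM0.init, Tape.mk₁, Tape.mk₂]
  · simp only [TM0.init, Tape.mk₁, Tape.mk₂, Tape.mk'_left]
    exact (mk_blank []).symm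
  · simp [TM0.init, Tape.mk₁, Tape.mk₂, mk_blank, Function.comp_def]

theorem halts_chain (a : Γ) (inp : List Γ) (h : (TM0.eval M (a :: inp)).Dom) :
    Relation.ReflTransGen (GStep (GR (FR M))) (fwd (K0 (a :: inp))) (bar (K0 (a :: inp))) := by
  obtain ⟨b, hb⟩ := Part.dom_iff_mem.mp (show (StateTransition.eval (TM0.step M)
    (TM0.init (a :: inp))).Dom from h)
  obtain ⟨h1, h2⟩ := StateTransition.mem_eval.mp hb
  have : ∃ K', Relation.ReflTransGen (GStep (FR M)) (K0 (a :: inp)) K' ∧ Rep b K' := by
    clear h2 hb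
    induction h1 with
    | refl =>
      obtain ⟨K', s, r⟩ := rep_init M a inp
      exact ⟨K', s.to_reflTransGen, r⟩
    | tail _ s ih =>
      obtain ⟨K', s1, r⟩ := ih
      obtain ⟨K'', s2, r'⟩ := rep_step M r s
      exact ⟨K'', s1.trans s2.to_reflTransGen, r'⟩
  obtain ⟨K', s, r⟩ := this
  obtain ⟨K'', s', st⟩ := rep_halt M r h2
  exact there_and_back (s.trans s') st

theorem runs_forever (a : Γ) (inp : List Γ) (h : ¬ (TM0.eval M (a :: inp)).Dom) :
    ∃ I : Cf (Ph (Hi Γ Q)) (Cl Γ Q) → Prop, I (K0 (a :: inp)) ∧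
      ∀ K, I K → ∃ K', GStep (FR M) K K' ∧ I K' := by
  refine ⟨fun K => ∃ c K', StateTransition.Reaches (TM0.step M) (TM0.init (a :: inp)) c ∧
    Relation.TransGen (GStep (FR M)) K K' ∧ Rep c K', ?_, ?_⟩
  · obtain ⟨K', s, r⟩ := rep_init M a inp
    exact ⟨_, K', .refl, s, r⟩
  · rintro K ⟨c, K', h1, h2, h3⟩
    obtain ⟨K1, s1, s2⟩ := Relation.TransGen.head'_iff.mp h2
    cases e : TM0.step M c with
    | none =>
      exact absurd (Part.dom_iff_mem.mpr ⟨c, StateTransition.mem_eval.mpr ⟨h1, e⟩⟩) h
    | some c' =>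
      obtain ⟨K'', s3, r⟩ := rep_step M h3 (c' := c') e
      exact ⟨K1, s1, c', K'', h1.tail e, Relation.TransGen.trans_right s2 s3, r⟩

end tm

end LeadPcp
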