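import Mathlib
import Pool.Agent.Lib.lead.PcpTM
import Pool.Agent.Lib.helper11.HaltTM

set_option autoImplicit false

namespace LeadPcp

open Turing

def img (H : List (List ℕ)) (w : List ℕ) : List ℕ := w.flatMap fun i => H.getD i []

def Sol (H G : List (List ℕ)) : Prop :=
  ∃ x : List ℕ, x ≠ [] ∧ (∀ i ∈ x, i < H.length) ∧ img H x = img G x

def UEC (H G : List (List ℕ)) : Prop :=
  ∀ u : List ℕ, (∀ i ∈ u, i < H.length) → ∀ a b : ℕ, a < H.length → b < H.length → a ≠ b →
    Cmp (img H (u ++ [a])) (img G (u ++ [a])) → Cmp (img H (u ++ [b])) (img G (u ++ [b])) →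
    img H u = img G u

def Elem (H : List (List ℕ)) : Prop :=
  ∀ (C : Type) (f : ℕ → List C) (k : C → List ℕ),
    (∀ i, i < H.length → (f i).flatMap k = H.getD i []) →
    ∃ p : {i // i < H.length} → C, Function.Injective p

section idx
variable {S : Type} (Y : Sys S) {Pi : Blk S → Blk S → Prop} (G : Y.Good Pi)
  (F Z : List (Bool × S)) (en : Lt S → ℕ) (hen : Function.Injective en) (L : List (Ru S))

lemma getD_map (x : Ru S → List (Lt S)) (i : ℕ) (hi : i < L.length) :
    (L.map fun r => (x r).map en).getD i [] = (x (L.getD i .st)).map en := by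
  simp [List.getD_eq_getElem?_getD, List.getElem?_eq_getElem hi]

lemma img_map (x : Ru S → List (Lt S)) (w : List ℕ) (hw : ∀ i ∈ w, i < L.length) :
    img (L.map fun r => (x r).map en) w = (w.flatMap fun i => x (L.getD i .st)).map en := by
  rw [img, List.map_flatMap]
  exact List.flatMap_congr fun i hi => getD_map en L x i (hw i hi)

lemma pass_idx (hb : ∀ r, Y.nm Pi r → r ∈ L) {X X' : List (Lt S)}
    (h : Pass (Y.nm Pi) (Y.hR F) (Y.gR Z) X X') :
    Pass (fun i => i < L.length ∧ Y.nm Pi (L.getD i .st)) (fun i => Y.hR F (L.getD i .st))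
      (fun i => Y.gR Z (L.getD i .st)) X X' := by
  obtain ⟨rs, h1, rfl, rfl⟩ := h
  induction rs with
  | nil => exact pass_nil _ _ _
  | cons r rs ih =>
    rw [List.flatMap_cons, List.flatMap_cons]
    refine Pass.append ?_ (ih fun r' hr' => h1 r' (by simp [hr']))
    obtain ⟨i, hi, e⟩ := List.getElem_of_mem (hb r (h1 r (by simp)))
    have e' : L.getD i .st = r := by simp [List.getD_eq_getElem?_getD, List.getElem?_eq_getElem hi, e]
    refine ⟨[i], ?_, ?_, ?_⟩
    · intro j hj
      rw [List.mem_singleton.mp hj, e']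
      exact ⟨hi, h1 r (by simp)⟩
    · rw [List.flatMap_singleton, e']
    · rw [List.flatMap_singleton, e']

include G hen in
theorem idx_main (Halts : Prop) (J : List (Bool × S) → Prop) (hZ : Z ≠ []) (hJ0 : J Z)
    (hJ : ∀ C, J C → (∃ C', MStep Pi C C' ∧ J C') ∨ (C = (false, Y.z) :: F ∧ Halts))
    (ha : ∀ i, i < L.length → Y.vR Pi (L.getD i .st))
    (hb : ∀ r, Y.nm Pi r → r ∈ L)
    (hc : ∀ i j, i < L.length → j < L.length → L.getD i .st = L.getD j .st →
      L.getD i .st ≠ .en → i = j)
    (hd : L.getD 0 .st = .st) (hd' : L.getD 1 .st = .en) (hl : 0 < L.length)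
    (he : Halts → ∀ i, i < L.length → L.getD i .st = .en → i = 1) :
    UEC (L.map fun r => (Y.hR F r).map en) (L.map fun r => (Y.gR Z r).map en) ∧
    (Sol (L.map fun r => (Y.hR F r).map en) (L.map fun r => (Y.gR Z r).map en) → Halts) := by
  have key := abstract (fun i => i < L.length) (fun i => i < L.length ∧ Y.nm Pi (L.getD i .st))
    (fun i => Y.hR F (L.getD i .st)) (fun i => Y.gR Z (L.getD i .st))
    (fun X => X ≠ [] ∧ ∃ C, J C ∧ Relation.ReflTransGen (Pass (Y.nm Pi) (Y.hR F) (Y.gR Z)) X
      (C.map mt))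
    (fun X => X = ((false, Y.z) :: F).map mt ∧ Halts) 0 .dol (Z.map mt)
    (fun a v h => hc a 0 v hl (by rw [hd]; exact Y.fact1 F Z _ h)
      (by rw [Y.fact1 F Z _ h]; simp))
    (by rw [hd]; rfl) (by rw [hd]; rfl)
    (fun r a v v' h => hc a r v' v.1 (Y.fact3 F G _ _ v.2 (ha a v') h) (by
      rw [Y.fact3 F G _ _ v.2 (ha a v') h]
      intro e
      have := v.2
      rw [e] at this
      exact this))
    ⟨by simpa using hZ, Z, hJ0, .refl⟩
    (by
      rintro X ⟨h0, C, h1, h2⟩
      refine ⟨h0, ?_⟩
      have ne : ∀ X', Pass (Y.nm Pi) (Y.hR F) (Y.gR Z) X X' → X' ≠ [] := by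
        rintro X' ⟨rs, _, e1, e2⟩
        cases rs with
        | nil => exact absurd e1.symm h0
        | cons r rs => rw [← e2]; simp [Y.gR_ne]
      rcases h2.cases_head with e | ⟨X', s1, s2⟩
      · rcases hJ C h1 with ⟨C', s, j⟩ | ⟨e', hh⟩
        · obtain ⟨X', s1, s2⟩ := Relation.TransGen.head'_iff.mp (Y.sim F Z G s)
          rw [← e] at s1
          exact Or.inl ⟨X', pass_idx Y F Z L hb s1, ne X' s1, C', j, s2⟩
        · exact Or.inr ⟨by rw [e, e'], hh⟩
      · exact Or.inl ⟨X', pass_idx Y F Z L hb s1, ne X' s1, C, h1, s2⟩)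
    (by
      rintro X ⟨rfl, hh⟩
      refine ⟨1, fun a v h => he hh a v (Y.fact6 F G _ (ha a v) _ h), ?_⟩
      rw [hd']; rfl)
    (fun r _ => Y.hR_ne F _)
  constructor
  · intro u hu a b va vb hab ca cb
    rw [List.length_map] at va vb
    simp only [List.length_map] at hu
    have hua : ∀ c, c < L.length → ∀ i ∈ u ++ [c], i < L.length := by
      intro c hc i hi
      rcases List.mem_append.mp hi with hi | hi
      · exact hu i hi
      · rw [List.mem_singleton.mp hi]; exact hc
    rw [img_map en L _ _ (hua a va), img_map en L _ _ (hua a va), cmp_map hen] at ca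
    rw [img_map en L _ _ (hua b vb), img_map en L _ _ (hua b vb), cmp_map hen] at cb
    rw [img_map en L _ _ hu, img_map en L _ _ hu, key.1 u hu a b va vb hab ca cb]
  · rintro ⟨x, x0, x1, x2⟩
    simp only [List.length_map] at x1
    rw [img_map en L _ _ x1, img_map en L _ _ x1] at x2
    obtain ⟨_, _, h⟩ := key.2 x x0 x1 ((List.map_injective_iff.mpr hen) x2)
    exact h

include G in
theorem idx_sol (hb : ∀ r, Y.nm Pi r → r ∈ L) (hd : L.getD 0 .st = .st) (hl : 0 < L.length)
    (h : Relation.ReflTransGen (MStep Pi) Z ((false, Y.z) :: F)) :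
    ∃ w : List ℕ, w ≠ [] ∧ (∀ i ∈ w, i < L.length) ∧
      img (L.map fun r => (Y.gR Z r).map en) w =
        img (L.map fun r => (Y.hR F r).map en) w ++ (((false, Y.z) :: F).map mt).map en := by
  have h1 : Relation.ReflTransGen (Pass (fun i => i < L.length ∧ Y.nm Pi (L.getD i .st))
      (fun i => Y.hR F (L.getD i .st)) (fun i => Y.gR Z (L.getD i .st))) (Z.map mt)
      (((false, Y.z) :: F).map mt) := by
    generalize (false, Y.z) :: F = W at h
    induction h with
    | refl => exact .refl
    | tail _ s ih =>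
      exact ih.trans (Relation.ReflTransGen.mono (fun _ _ => pass_idx Y F Z L hb) _ _
        (Y.sim F Z G s).to_reflTransGen)
  obtain ⟨w, w1, w2⟩ := chain_word _ _ _ h1
  have hv : ∀ i ∈ 0 :: w, i < L.length := by
    intro i hi
    rcases List.mem_cons.mp hi with rfl | hi
    · exact hl
    · exact (w1 i hi).1
  refine ⟨0 :: w, by simp, hv, ?_⟩
  rw [img_map en L _ _ hv, img_map en L _ _ hv, ← List.map_append]
  congr 1
  rw [List.flatMap_cons, List.flatMap_cons, hd, List.append_assoc, w2]
  rfl

include hen in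
lemma elem_idx (x : Ru S → List (Lt S)) (l : Ru S → Lt S) (V : Ru S → Prop)
    (h1 : ∀ r, l r ∈ x r) (h2 : ∀ r r', V r → V r' → l r ∈ x r' → l r' ∈ x r → r = r')
    (ha : ∀ i, i < L.length → V (L.getD i .st)) (hn : L.Nodup) :
    Elem (L.map fun r => (x r).map en) := by
  intro C f k hf
  apply elem (fun i => i < (L.map fun r => (x r).map en).length)
    (fun i => (L.map fun r => (x r).map en).getD i []) (fun i => en (l (L.getD i .st))) _ _ f k hf
  · intro i hi
    rw [List.length_map] at hi
    rw [getD_map en L x i hi]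
    exact List.mem_map_of_mem (h1 _)
  · intro i j hi hj a b
    rw [List.length_map] at hi hj
    rw [getD_map en L x j hj, List.mem_map_of_injective hen] at a
    rw [getD_map en L x i hi, List.mem_map_of_injective hen] at b
    have := h2 _ _ (ha i hi) (ha j hj) a b
    simp only [List.getD_eq_getElem?_getD, List.getElem?_eq_getElem hi,
      List.getElem?_eq_getElem hj, Option.getD_some] at this
    exact (List.Nodup.getElem_inj_iff hn).mp this

end idx

lemma alt_prim {P Ce : Type} (e : Bool × (P ⊕ Sy Ce) → ℕ) (c : Sy Ce) (t : List (Sy Ce))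
    (s : Bool) : Primrec fun n : ℕ => (alt s (List.replicate n c ++ t)).map e := by
  have h : Primrec fun n : ℕ => (Nat.rec (((alt true t).map e, (alt false t).map e))
      (fun _ p => (e (true, .inr c) :: p.2, e (false, .inr c) :: p.1)) n : List ℕ × List ℕ) := by
    apply Primrec.nat_rec₁
    exact (Primrec.pair
      (Primrec.list_cons.comp (Primrec.const _) (Primrec.snd.comp Primrec.snd))
      (Primrec.list_cons.comp (Primrec.const _) (Primrec.fst.comp Primrec.snd))).to₂
  have e1 : ∀ n : ℕ, (Nat.rec (((alt true t).map e, (alt false t).map e))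
      (fun _ p => (e (true, .inr c) :: p.2, e (false, .inr c) :: p.1)) n : List ℕ × List ℕ) =
      ((alt true (List.replicate n c ++ t)).map e, (alt false (List.replicate n c ++ t)).map e) := by
    intro n
    induction n with
    | zero => rfl
    | succ n ih => simp only [ih, List.replicate_succ, List.cons_append, alt]; rfl
  cases s
  · exact (Primrec.snd.comp h).of_eq fun n => by rw [e1]
  · exact (Primrec.fst.comp h).of_eq fun n => by rw [e1]

theorem main : ∃ (Halts : ℕ → Prop) (U V U' V' : ℕ → List (List ℕ)), ¬ ComputablePred Halts ∧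
    Primrec U ∧ Primrec V ∧ Primrec U' ∧ Primrec V' ∧ ∀ n, (U n).length = (V n).length ∧
      Elem (U n) ∧ Elem (V n) ∧ UEC (U n) (V n) ∧ (Halts n ↔ Sol (U n) (V n)) ∧
      (U' n).length = (V' n).length ∧ 2 ≤ (U' n).length ∧ (UEC (U' n) (V' n) ↔ ¬ Halts n) := by
  obtain ⟨Γ, Q, i1, i2, f1, f2, M, a0, a1, a2, hM⟩ := H11Halt.exists_tm
  let S := (Bool × Ph (Hi Γ Q)) ⊕ Sy (Cl Γ Q)
  obtain ⟨N, ⟨eq⟩⟩ := Finite.exists_equiv_fin S
  let Y : Sys S := ⟨fun a => eq a, N + 1, fun a b h => eq.injective (Fin.ext h),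
    fun a => Nat.lt_succ_of_lt (eq a).2, Nat.succ_pos _, isE true, isE false, .inr .ini⟩
  let Pi := PiR (GR (FR M))
  have G : Y.Good Pi := good_of Y rfl rfl rfl _ (GR_biu (FR_biu M))
  obtain ⟨en, hen⟩ := Y.exists_enc
  have hfin := Y.finite_nm (Pi := Pi)
  let rs := hfin.toFinset.toList
  have rs1 : ∀ r, r ∈ rs ↔ Y.nm Pi r := by intro r; simp [rs]
  have rs2 : rs.Nodup := Finset.nodup_toList _
  let inp : ℕ → List Γ := fun n => a0 :: a1 :: List.replicate n a2
  let Halts : ℕ → Prop := fun n => (TM0.eval M (inp n)).Dom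
  let Z : ℕ → List (Bool × S) := fun n => text (fwd (K0 (inp n)))
  let F : ℕ → List (Bool × S) := fun n => (text (bar (K0 (inp n)))).tail
  have hF : ∀ n, text (bar (K0 (inp n))) = (false, Y.z) :: F n := fun n => rfl
  let L : List (Ru S) := .st :: .en :: rs
  let L' : List (Ru S) := L ++ [.en]
  have hst : Ru.st ∉ rs := fun h => (rs1 _).mp h
  have hen' : Ru.en ∉ rs := fun h => (rs1 _).mp h
  have Ln : L.Nodup := by simp [L, hst, hen', rs2]
  have Lv : ∀ r ∈ L', Y.vR Pi r := by
    intro r hr
    simp only [L', L, List.mem_append, List.mem_cons, List.not_mem_nil, or_false] at hr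
    rcases hr with (rfl | rfl | hr) | rfl
    · exact Or.inr (Or.inl rfl)
    · exact Or.inr (Or.inr rfl)
    · exact Or.inl ((rs1 r).mp hr)
    · exact Or.inr (Or.inr rfl)
  have gm : ∀ (T : List (Ru S)) i, i < T.length → T.getD i .st ∈ T := by
    intro T i hi
    simp [List.getD_eq_getElem?_getD, List.getElem?_eq_getElem hi]
  have ha : ∀ i, i < L.length → Y.vR Pi (L.getD i .st) :=
    fun i hi => Lv _ (List.mem_append_left _ (gm L i hi))
  have ha' : ∀ i, i < L'.length → Y.vR Pi (L'.getD i .st) := fun i hi => Lv _ (gm L' i hi)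
  have hb : ∀ r, Y.nm Pi r → r ∈ L := fun r hr => by simp [L, (rs1 r).mpr hr]
  have hb' : ∀ r, Y.nm Pi r → r ∈ L' := fun r hr => List.mem_append_left _ (hb r hr)
  have hc : ∀ i j, i < L.length → j < L.length → L.getD i .st = L.getD j .st → i = j := by
    intro i j hi hj h
    simp only [List.getD_eq_getElem?_getD, List.getElem?_eq_getElem hi,
      List.getElem?_eq_getElem hj, Option.getD_some] at h
    exact (List.Nodup.getElem_inj_iff Ln).mp h
  have g1 : ∀ i, i < L.length → L'.getD i .st = L.getD i .st := by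
    intro i hi
    simp [L', List.getD_eq_getElem?_getD, List.getElem?_append_left hi]
  have g2 : L'.getD L.length .st = .en := by simp [L', List.getD_eq_getElem?_getD]
  have g3 : L'.length = L.length + 1 := by simp [L']
  have g4 : 2 ≤ L.length := by simp [L]
  have hc' : ∀ i j, i < L'.length → j < L'.length → L'.getD i .st = L'.getD j .st →
      L'.getD i .st ≠ .en → i = j := by
    intro i j hi hj h hne
    have hi' : i ≠ L.length := fun e => hne (e ▸ g2)
    have hj' : j ≠ L.length := fun e => hne (h.trans (e ▸ g2))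
    rw [g1 i (by omega), g1 j (by omega)] at h
    exact hc i j (by omega) (by omega) h
  have chain : ∀ n, Halts n → Relation.ReflTransGen (MStep Pi) (Z n) ((false, Y.z) :: F n) := by
    intro n h
    rw [← hF]
    exact (halts_chain M a0 _ h).lift text fun _ _ => gstep_mstep _
  have hJ : ∀ n, ∃ J : List (Bool × S) → Prop, J (Z n) ∧
      ∀ C, J C → (∃ C', MStep Pi C C' ∧ J C') ∨ (C = (false, Y.z) :: F n ∧ Halts n) := by
    intro n
    by_cases h : Halts n
    · refine ⟨fun C => Relation.ReflTransGen (MStep Pi) C ((false, Y.z) :: F n), chain n h, ?_⟩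
      intro C hC
      rcases hC.cases_head with e | ⟨C', s1, s2⟩
      · exact Or.inr ⟨e, h⟩
      · exact Or.inl ⟨C', s1, s2⟩
    · obtain ⟨I, I0, I1⟩ := runs_forever M a0 _ h
      refine ⟨fun C => ∃ K, I K ∧ C = text (fwd K), ⟨_, I0, rfl⟩, ?_⟩
      rintro C ⟨K, hK, rfl⟩
      obtain ⟨K', s, hK'⟩ := I1 K hK
      exact Or.inl ⟨_, gstep_mstep _ (step_fwd s), K', hK', rfl⟩
  have hZ : ∀ n, Z n ≠ [] := fun n => by simp [Z, K0, fwd, text]
  have pZ : Primrec fun n => ((Z n).map mt).map en := by
    have := alt_prim (en ∘ mt) (Sy.cell (a2, none, none) : Sy (Cl Γ Q)) [Sy.endm true] true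
      (P := Bool × Ph (Hi Γ Q))
    refine (Primrec.list_append.comp (Primrec.const
      (([(true, .inr .ini), (false, .inl (false, .i1)), (true, .inr (.cell (a0, none, none))),
        (false, .inr (.cell (a1, none, none)))] : List (Bool × S)).map (en ∘ mt))) this).of_eq ?_
    intro n
    simp [Z, K0, fwd, text, tx, alt, stk, inp]
  have pF : Primrec fun n => (((false, Y.z) :: F n).map mt).map en := by
    have := alt_prim (en ∘ mt) (Sy.cell (a2, none, none) : Sy (Cl Γ Q)) [Sy.endm true] false
      (P := Bool × Ph (Hi Γ Q))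
    refine (Primrec.list_append.comp (Primrec.const
      (([(false, .inr .ini), (true, .inl (true, .i1)), (false, .inr (.cell (a0, none, none))),
        (true, .inr (.cell (a1, none, none)))] : List (Bool × S)).map (en ∘ mt))) this).of_eq ?_
    intro n
    rw [← hF]
    simp [K0, bar, text, tx, alt, stk, inp]
  have pE : Primrec fun n => (Y.hR (F n) .en).map en :=
    (Primrec.list_append.comp pF (Primrec.const [en .eur])).of_eq fun n => by simp [Sys.hR]
  have pU : Primrec fun n => L.map fun r => (Y.hR (F n) r).map en := by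
    refine (Primrec.list_cons.comp (Primrec.const [en .dol]) (Primrec.list_cons.comp pE
      (Primrec.const (rs.map fun r => (Y.hR [] r).map en)))).of_eq ?_
    intro n
    simp only [L, List.map_cons]
    congr 2
    apply List.map_congr_left
    intro r hr
    rcases r with _ | _ | _ | _ | _
    · rfl
    · rfl
    · rfl
    · rfl
    · exact absurd hr hen'
  have pV : Primrec fun n => L.map fun r => (Y.gR (Z n) r).map en := by
    refine (Primrec.list_cons.comp (Primrec.list_cons.comp (Primrec.const (en .dol)) pZ)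
      (Primrec.const ([en .eur] :: rs.map fun r => (Y.gR [] r).map en))).of_eq ?_
    intro n
    simp only [L, List.map_cons]
    congr 2
    apply List.map_congr_left
    intro r hr
    rcases r with _ | _ | _ | _ | _
    · rfl
    · rfl
    · rfl
    · exact absurd hr hst
    · rfl
  refine ⟨Halts, fun n => L.map fun r => (Y.hR (F n) r).map en,
    fun n => L.map fun r => (Y.gR (Z n) r).map en,
    fun n => L'.map fun r => (Y.hR (F n) r).map en,
    fun n => L'.map fun r => (Y.gR (Z n) r).map en, hM, pU, pV, ?_, ?_, fun n => ?_⟩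
  · refine (Primrec.list_append.comp pU (Primrec.list_cons.comp pE (Primrec.const []))).of_eq ?_
    intro n; simp [L']
  · refine (Primrec.list_append.comp pV (Primrec.const [[en .eur]])).of_eq ?_
    intro n; simp [L', Sys.gR]
  obtain ⟨J, J0, J1⟩ := hJ n
  have m1 := idx_main Y G (F n) (Z n) en hen L (Halts n) J (hZ n) J0 J1 ha hb
    (fun i j hi hj h _ => hc i j hi hj h) rfl rfl (by omega)
    (fun _ i hi h => hc i 1 hi (by omega) h)
  have fin : ∀ (T : List (Ru S)) (w : List ℕ) (i : ℕ), i < T.length → T.getD i .st = .en →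
      img (T.map fun r => (Y.gR (Z n) r).map en) w =
        img (T.map fun r => (Y.hR (F n) r).map en) w ++
          (((false, Y.z) :: F n).map mt).map en →
      img (T.map fun r => (Y.hR (F n) r).map en) (w ++ [i]) =
        img (T.map fun r => (Y.gR (Z n) r).map en) (w ++ [i]) := by
    intro T w i hi e h
    unfold img at h ⊢
    rw [List.flatMap_append, List.flatMap_append, h]
    simp only [List.flatMap_cons, List.flatMap_nil, List.append_nil]
    rw [getD_map en T _ i hi, getD_map en T _ i hi, e]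
    simp [Sys.hR, Sys.gR]
  refine ⟨by simp, ?_, ?_, m1.1, ⟨fun h => ?_, m1.2⟩, by simp, by simp [g3]; omega, ?_, ?_⟩
  · exact elem_idx en hen L _ Y.lh (Y.vR Pi) (Y.lh_mem _) (Y.lh_inj _ G) ha Ln
  · exact elem_idx en hen L _ Y.lg (Y.vR Pi) (Y.lg_mem _) (Y.lg_inj _ G) ha Ln
  · obtain ⟨w, w0, w1, w2⟩ := idx_sol Y G (F n) (Z n) en L hb rfl (by omega) (chain n h)
    refine ⟨w ++ [1], by simp, ?_, fin L w 1 (by omega) rfl w2⟩
    intro i hi
    rw [List.length_map]
    rcases List.mem_append.mp hi with hi | hi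
    · exact w1 i hi
    · rw [List.mem_singleton.mp hi]; omega
  · intro hu h
    obtain ⟨w, w0, w1, w2⟩ := idx_sol Y G (F n) (Z n) en L' hb' rfl (by omega) (chain n h)
    have := hu w (by simpa using w1) 1 L.length (by simp [g3]; omega) (by simp [g3]) (by omega)
      (Or.inl (fin L' w 1 (by omega) rfl w2 ▸ List.prefix_refl _))
      (Or.inl (fin L' w L.length (by omega) g2 w2 ▸ List.prefix_refl _))
    rw [w2] at this
    simp at this
  · intro h
    exact (idx_main Y G (F n) (Z n) en hen L' (Halts n) J (hZ n) J0 J1 ha' hb' hc' rfl rfl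
      (by omega) (fun hh => absurd hh h)).1

end LeadPcp
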