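import Mathlib
import Pool.Agent.Lib.lead.PrimFun
import Pool.Agent.Lib.lead.PcpMain

set_option autoImplicit false

namespace LeadOL

def seg (S p len : ℕ) : List ℕ := (List.range len).map fun j => (p + j) % S

lemma seg_add (S p a b : ℕ) : seg S p (a + b) = seg S p a ++ seg S (p + a) b := by
  simp [seg, List.range_add, List.map_append, Function.comp_def, add_assoc]

lemma seg_per (S p m l : ℕ) : seg S (S * m + p) l = seg S p l := by
  simp [seg, add_assoc]

lemma seg_len (S p l : ℕ) : (seg S p l).length = l := by simp [seg]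

lemma seg_mul (S a b : ℕ) : seg S 0 (S * a + b) = seg S 0 (S * a) ++ seg S 0 b := by
  rw [seg_add, zero_add, ← seg_per S 0 a b, add_zero]

lemma seg_head {S q p a : ℕ} {y : List ℕ} (h : seg S 0 q = seg S 0 p ++ a :: y) : a = p % S := by
  have h1 := congrArg (·[p]?) h
  have h2 := congrArg List.length h
  simp only [seg_len, List.length_append, List.length_cons] at h2
  rw [List.getElem?_append_right (by rw [seg_len]), seg_len] at h1
  simp only [seg, List.getElem?_map, List.getElem?_range (show p < q by omega)] at h1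
  simpa using h1.symm

lemma seg_cons {S p l : ℕ} (h : 0 < l) : ∃ y, seg S p l = (p % S) :: y := by
  obtain ⟨l, rfl⟩ := Nat.exists_eq_add_of_lt h
  exact ⟨seg S (p + 1) l, by rw [zero_add, add_comm l, seg_add]; simp [seg]⟩

section aut
variable (S c : ℕ) (T : List (ℕ × ℕ × ℕ × ℕ))

def tw (t : ℕ × ℕ × ℕ × ℕ) : List ℕ := seg S t.2.1 (S * (t.2.2.1 + 1) + t.2.2.2 - t.2.1)

def Lr (i : ℕ) (u : List ℕ) : Prop :=
  u = seg S 0 (S * c) ∨ ∃ t ∈ T, t.1 = i ∧ (u = tw S t ∨ u = seg S 0 S ++ tw S t)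

inductive Pd : List ℕ → List ℕ → Prop
  | nil : Pd [] []
  | cons {i : ℕ} {u w v : List ℕ} : Lr S c T i u → Pd w v → Pd (i :: w) (u ++ v)

inductive Acc : List ℕ → ℕ → ℕ → ℕ → ℕ → Prop
  | nil (m k : ℕ) : Acc [] m k m k
  | cons {i k z k' m m2 k2 : ℕ} {w : List ℕ} : (i, k, z, k') ∈ T → Acc w (m + z + 1) k' m2 k2 →
      Acc (i :: w) m k m2 k2

variable {S c T}

lemma W_comm (a : ℕ) : seg S 0 S ++ seg S 0 (S * a) = seg S 0 (S * a) ++ seg S 0 S := by
  have := seg_mul S 1 (S * a)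
  rw [mul_one] at this
  rw [← seg_mul, ← this, add_comm]

lemma cover {w v : List ℕ} (h : Pd S c T w v) : v = seg S 0 (S * (c * w.length)) ∨
    ∃ v', Pd S c T w v' ∧ (seg S 0 S ++ v = v' ∨ v = seg S 0 S ++ v') := by
  induction h with
  | nil => left; simp [seg]
  | @cons i u w v hu hv ih =>
    rcases hu with rfl | ⟨t, ht, hi, rfl | rfl⟩
    · rcases ih with rfl | ⟨v', h1, h2⟩
      · left
        rw [← seg_mul, List.length_cons]
        congr 1
        ring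
      · refine .inr ⟨_, .cons (.inl rfl) h1, ?_⟩
        rcases h2 with rfl | rfl
        · left; rw [← List.append_assoc, W_comm, List.append_assoc]
        · right; rw [← List.append_assoc, ← W_comm, List.append_assoc]
    · exact .inr ⟨_, .cons (.inr ⟨t, ht, hi, .inr rfl⟩) hv, .inl (List.append_assoc ..).symm⟩
    · exact .inr ⟨_, .cons (.inr ⟨t, ht, hi, .inl rfl⟩) hv, .inr (List.append_assoc ..)⟩

lemma seg_tw {i k z k' : ℕ} (m : ℕ) (hk : k < S) :
    seg S 0 (S * m + k) ++ tw S (i, k, z, k') = seg S 0 (S * (m + z + 1) + k') := by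
  have : S * (m + z + 1) + k' = (S * m + k) + (S * (z + 1) + k' - k) := by
    rw [add_assoc m, mul_add S m, mul_add S z]; omega
  rw [this, seg_add S 0 (S * m + k), zero_add, seg_per]
  rfl

lemma tw_cons (t : ℕ × ℕ × ℕ × ℕ) (hk : t.2.1 < S) : ∃ y, tw S t = t.2.1 :: y := by
  obtain ⟨y, hy⟩ := seg_cons (S := S) (p := t.2.1)
    (show 0 < S * (t.2.2.1 + 1) + t.2.2.2 - t.2.1 by rw [mul_add]; omega)
  exact ⟨y, by rw [tw, hy, Nat.mod_eq_of_lt hk]⟩

lemma complete (hT : ∀ t ∈ T, t.2.1 < S) {w : List ℕ} {m k m2 k2 : ℕ} (h : Acc T w m k m2 k2) :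
    ∃ v, Pd S c T w v ∧ seg S 0 (S * m2 + k2) = seg S 0 (S * m + k) ++ v := by
  induction h with
  | nil m k => exact ⟨[], .nil, by simp⟩
  | cons ht _ ih =>
    obtain ⟨v, h1, h2⟩ := ih
    exact ⟨_, .cons (.inr ⟨_, ht, rfl, .inl rfl⟩) h1, by
      rw [h2, ← List.append_assoc, seg_tw _ (hT _ ht)]⟩

lemma sound0 (hT : ∀ t ∈ T, 0 < t.2.1 ∧ t.2.1 < S) {w v : List ℕ} (h : Pd S c T w v) :
    ∀ {m q : ℕ}, seg S 0 q = seg S 0 (S * m) ++ v → q = S * (m + c * w.length) := by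
  induction h with
  | nil => intro m q h; simpa [seg_len] using congrArg List.length h
  | @cons i u w v hu hv ih =>
    intro m q h
    rcases hu with rfl | ⟨t, ht, hi, rfl | rfl⟩
    · rw [← List.append_assoc, ← seg_mul, ← mul_add] at h
      rw [ih h, List.length_cons]
      ring
    · obtain ⟨y, hy⟩ := tw_cons t (hT t ht).2
      rw [hy] at h
      have := seg_head h
      have := (hT t ht).1
      simp at *
      omega
    · obtain ⟨y, hy⟩ := tw_cons t (hT t ht).2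
      rw [hy, List.append_assoc, ← List.append_assoc, ← seg_mul] at h
      have := seg_head h
      have := (hT t ht).1
      simp at *
      omega

lemma sound (N : ℕ) (hc : 0 < c)
    (hT : ∀ t ∈ T, 0 < t.2.1 ∧ t.2.1 < S ∧ t.2.2.2 < S ∧ (t.2.2.2 = 0 ↔ t.1 = N)) :
    ∀ (w : List ℕ) {v : List ℕ} {m k q : ℕ}, (∀ i ∈ w, i ≠ N) → Pd S c T (w ++ [N]) v →
      0 < k → k < S → seg S 0 q = seg S 0 (S * m + k) ++ v →
      ∃ m2, Acc T (w ++ [N]) m k m2 0 ∧ q = S * m2 := by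
  have key : ∀ {i : ℕ} {w v : List ℕ} {m k q : ℕ}, Pd S c T (i :: w) v → 0 < k → k < S →
      seg S 0 q = seg S 0 (S * m + k) ++ v → ∃ z k' v', (i, k, z, k') ∈ T ∧ Pd S c T w v' ∧
        seg S 0 q = seg S 0 (S * (m + z + 1) + k') ++ v' := by
    intro i w v m k q h k0 kS e
    have hk : (S * m + k) % S = k := by simp [Nat.mod_eq_of_lt kS]
    cases h with
    | @cons _ u _ v' hu hv =>
      rcases hu with rfl | ⟨⟨i', k1, z, k'⟩, ht, rfl, rfl | rfl⟩
      · obtain ⟨y, hy⟩ := seg_cons (S := S) (p := 0) (show 0 < S * c from Nat.mul_pos (by omega) hc)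
        rw [hy] at e
        have := seg_head e
        rw [hk, Nat.zero_mod] at this
        omega
      · obtain ⟨y, hy⟩ := tw_cons _ (hT _ ht).2.1
        have e' := e
        rw [hy] at e'
        have := seg_head e'
        simp only [hk] at this
        subst this
        exact ⟨z, k', v', ht, hv, by rw [e, ← List.append_assoc, seg_tw _ kS]⟩
      · obtain ⟨y, hy⟩ := seg_cons (S := S) (p := 0) (show 0 < S by omega)
        rw [hy] at e
        have := seg_head e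
        rw [hk, Nat.zero_mod] at this
        omega
  intro w
  induction w with
  | nil =>
    intro v m k q _ h k0 kS e
    obtain ⟨z, k', v', ht, hv, e'⟩ := key h k0 kS e
    cases hv
    have := (hT _ ht).2.2.2.mpr rfl
    simp only at this
    subst this
    exact ⟨_, .cons ht (.nil _ _), by simpa [seg_len] using congrArg List.length e'⟩
  | cons i w ih =>
    intro v m k q hw h k0 kS e
    obtain ⟨z, k', v', ht, hv, e'⟩ := key h k0 kS e
    obtain ⟨m2, h1, h2⟩ := ih (fun j hj => hw j (by simp [hj])) hv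
      (Nat.pos_of_ne_zero fun h0 => hw i (by simp) ((hT _ ht).2.2.2.mp h0)) (hT _ ht).2.2.1 e'
    exact ⟨m2, .cons ht h1, h2⟩

lemma Pd_lt (hS : 0 < S) {w v : List ℕ} (h : Pd S c T w v) : ∀ k ∈ v, k < S := by
  have hs : ∀ p l, ∀ k ∈ seg S p l, k < S := by
    intro p l k hk
    obtain ⟨j, _, rfl⟩ := List.mem_map.mp hk
    exact Nat.mod_lt _ hS
  induction h with
  | nil => simp
  | cons hu _ ih =>
    intro k hk
    rcases List.mem_append.mp hk with hk | hk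
    · rcases hu with rfl | ⟨t, ht, hi, rfl | rfl⟩
      · exact hs _ _ k hk
      · exact hs _ _ k hk
      · exact (List.mem_append.mp hk).elim (hs _ _ k) (hs _ _ k)
    · exact ih k hk

lemma Pd_neutral (w : List ℕ) : Pd S c T w (seg S 0 (S * (c * w.length))) := by
  induction w with
  | nil => exact .nil
  | cons i w ih =>
    rw [List.length_cons, show S * (c * (w.length + 1)) = S * c + S * (c * w.length) by ring,
      seg_mul]
    exact .cons (.inl rfl) ih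

end aut

def Step (R : List (ℕ × List ℕ)) (u v : List ℕ) : Prop :=
  ∃ ws : List (List ℕ), List.Forall₂ (fun a w => (a, w) ∈ R) u ws ∧ v = ws.flatten

def E (R : List (ℕ × List ℕ)) (ω : List ℕ) : Set (ℕ → List ℕ) :=
  {s | s 0 = ω ∧ ∀ n, Step R (s n) (s (n + 1))}

lemma step_nil {R : List (ℕ × List ℕ)} {v : List ℕ} : Step R [] v ↔ v = [] := by
  simp [Step]

lemma step_cons {R : List (ℕ × List ℕ)} {a : ℕ} {u v : List ℕ} :
    Step R (a :: u) v ↔ ∃ w v', (a, w) ∈ R ∧ Step R u v' ∧ v = w ++ v' := by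
  constructor
  · rintro ⟨ws, h, rfl⟩
    cases h with
    | cons h1 h2 => exact ⟨_, _, h1, ⟨_, h2, rfl⟩, rfl⟩
  · rintro ⟨w, _, h1, ⟨ws, h2, rfl⟩, rfl⟩
    exact ⟨w :: ws, .cons h1 h2, rfl⟩

lemma step_mono {R R' : List (ℕ × List ℕ)} {u v : List ℕ}
    (h : ∀ a ∈ u, ∀ w, (a, w) ∈ R → (a, w) ∈ R') (s : Step R u v) : Step R' u v := by
  induction u generalizing v with
  | nil => exact step_nil.mpr (step_nil.mp s)
  | cons a u ih =>
    obtain ⟨w, v', h1, h2, e⟩ := step_cons.mp s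
    exact step_cons.mpr ⟨w, v', h a (by simp) w h1, ih (fun b hb => h b (by simp [hb])) h2, e⟩

lemma exists_seq {α : Type} (r : α → α → Prop) (I : α → Prop) (h : ∀ u, I u → ∃ v, r u v ∧ I v)
    {u0 u v : α} (h1 : Relation.ReflTransGen r u0 u) (h2 : r u v) (hv : I v) :
    ∃ (s : ℕ → α) (m : ℕ), s 0 = u0 ∧ (∀ n, r (s n) (s (n + 1))) ∧ s m = u ∧ s (m + 1) = v := by
  have pre : ∀ (s : ℕ → α) (a : α), r a (s 0) → (∀ n, r (s n) (s (n + 1))) →
      ∃ s' : ℕ → α, s' 0 = a ∧ (∀ n, s' (n + 1) = s n) ∧ ∀ n, r (s' n) (s' (n + 1)) := by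
    intro s a ha hs
    exact ⟨fun n => Nat.casesOn n a s, rfl, fun _ => rfl, fun n => by cases n; exacts [ha, hs _]⟩
  induction h1 using Relation.ReflTransGen.head_induction_on with
  | refl =>
    choose! g hg using h
    have : ∀ n, I (g^[n] v) := by
      intro n
      induction n with
      | zero => exact hv
      | succ n ih => rw [Function.iterate_succ_apply']; exact (hg _ ih).2
    obtain ⟨s', a, b, c⟩ := pre (fun n => g^[n] v) u h2 fun n => by
      rw [Function.iterate_succ_apply']; exact (hg _ (this n)).1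
    exact ⟨s', 0, a, c, a, b 0⟩
  | head s _ ih =>
    obtain ⟨s0, m, a, b, c, d⟩ := ih
    obtain ⟨s', a', b', c'⟩ := pre s0 _ (a ▸ s) b
    exact ⟨s', m + 1, a', c', by rw [b', c], by rw [b', d]⟩

section ol
variable (S c N k0 : ℕ) (T : List (ℕ × ℕ × ℕ × ℕ))

def enc (i : ℕ) (u : List ℕ) : List ℕ := u.map (fun k => 2 * k + 5) ++ if i = N then [3] else []

def R0 : List (ℕ × List ℕ) :=
  T.flatMap (fun t => [(2 * t.1 + 4, enc N t.1 (tw S t)), (2 * t.1 + 4, enc N t.1 (seg S 0 S ++ tw S t))])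
  ++ (List.range (N + 1)).map (fun i => (2 * i + 4, enc N i (seg S 0 (S * c))))
  ++ (List.range S).flatMap
    (fun k => (2 * k + 5, []) :: (List.range N).map fun i => (2 * k + 5, [2 * i + 4]))
  ++ (List.range N).map (fun i => (2, [0, 2 * i + 4]))
  ++ [(3, [2 * N + 4]), (0, 2 :: (seg S 0 (S * 0)).map fun k => 2 * k + 5),
    (0, 2 :: (seg S 0 (S * 2)).map fun k => 2 * k + 5),
    (0, 2 :: (seg S 0 (S * 0 + k0)).map fun k => 2 * k + 5)]

def R2 : List (ℕ × List ℕ) := (0, 2 :: (seg S 0 S).map fun k => 2 * k + 5) :: R0 S c N k0 T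

variable {S c N k0 T}

lemma mem_R0 {a : ℕ} {u : List ℕ} : (a, u) ∈ R0 S c N k0 T ↔
    (∃ t ∈ T, a = 2 * t.1 + 4 ∧ (u = enc N t.1 (tw S t) ∨ u = enc N t.1 (seg S 0 S ++ tw S t))) ∨
    (∃ i ≤ N, a = 2 * i + 4 ∧ u = enc N i (seg S 0 (S * c))) ∨
    (∃ k < S, a = 2 * k + 5 ∧ (u = [] ∨ ∃ i < N, u = [2 * i + 4])) ∨
    (∃ i < N, a = 2 ∧ u = [0, 2 * i + 4]) ∨ (a = 3 ∧ u = [2 * N + 4]) ∨
    (a = 0 ∧ ∃ p, (p = S * 0 ∨ p = S * 2 ∨ p = S * 0 + k0) ∧
      u = 2 :: (seg S 0 p).map fun k => 2 * k + 5) := by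
  simp only [R0, List.mem_append, or_assoc]
  refine or_congr ?_ (or_congr ?_ (or_congr ?_ (or_congr ?_ ?_)))
  · simp only [List.mem_flatMap, List.mem_cons, Prod.mk.injEq, List.not_mem_nil, or_false,
      and_or_left]
  · simp only [List.mem_map, List.mem_range, Prod.mk.injEq, Nat.lt_succ_iff, @eq_comm _ a,
      @eq_comm _ u]
  · simp only [List.mem_flatMap, List.mem_cons, Prod.mk.injEq, List.mem_map, List.mem_range]
    refine exists_congr fun k => and_congr_right fun _ => ?_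
    constructor
    · rintro (⟨h1, h2⟩ | ⟨i, hi, h1, h2⟩)
      exacts [⟨h1, .inl h2⟩, ⟨h1.symm, .inr ⟨i, hi, h2.symm⟩⟩]
    · rintro ⟨h1, h2 | ⟨i, hi, h2⟩⟩
      exacts [.inl ⟨h1, h2⟩, .inr ⟨i, hi, h1.symm, h2.symm⟩]
  · simp only [List.mem_map, List.mem_range, Prod.mk.injEq, @eq_comm _ a, @eq_comm _ u]
  · simp only [List.mem_cons, Prod.mk.injEq, List.not_mem_nil, or_false, or_and_right, exists_or,
      exists_eq_left, and_or_left]

lemma mem_x {i : ℕ} (hi : i ≤ N) {u : List ℕ} :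
    (2 * i + 4, u) ∈ R0 S c N k0 T ↔ ∃ u0, Lr S c T i u0 ∧ u = enc N i u0 := by
  rw [mem_R0]
  constructor
  · rintro (⟨t, ht, e, h⟩ | ⟨j, _, e, h⟩ | ⟨k, _, e, _⟩ | ⟨_, _, e, _⟩ | ⟨e, _⟩ | ⟨e, _⟩)
    · obtain rfl : i = t.1 := by omega
      rcases h with h | h
      · exact ⟨_, .inr ⟨t, ht, rfl, .inl rfl⟩, h⟩
      · exact ⟨_, .inr ⟨t, ht, rfl, .inr rfl⟩, h⟩
    · obtain rfl : i = j := by omega
      exact ⟨_, .inl rfl, h⟩
    all_goals omega
  · rintro ⟨_, rfl | ⟨t, ht, rfl, rfl | rfl⟩, rfl⟩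
    · exact .inr (.inl ⟨i, hi, rfl, rfl⟩)
    · exact .inl ⟨t, ht, rfl, .inl rfl⟩
    · exact .inl ⟨t, ht, rfl, .inr rfl⟩

lemma mem_e {k : ℕ} (hk : k < S) {u : List ℕ} :
    (2 * k + 5, u) ∈ R0 S c N k0 T ↔ u = [] ∨ ∃ i < N, u = [2 * i + 4] := by
  rw [mem_R0]
  constructor
  · rintro (⟨t, ht, e, h⟩ | ⟨j, _, e, h⟩ | ⟨k, _, e, h⟩ | ⟨_, _, e, _⟩ | ⟨e, _⟩ | ⟨e, _⟩)
    all_goals first | exact h | omega
  · exact fun h => .inr (.inr (.inl ⟨k, hk, rfl, h⟩))

lemma mem_f {u : List ℕ} : (2, u) ∈ R0 S c N k0 T ↔ ∃ i < N, u = [0, 2 * i + 4] := by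
  rw [mem_R0]
  constructor
  · rintro (⟨t, ht, e, h⟩ | ⟨j, _, e, h⟩ | ⟨k, _, e, h⟩ | ⟨i, hi, e, h⟩ | ⟨e, _⟩ | ⟨e, _⟩)
    all_goals first | exact ⟨i, hi, h⟩ | omega
  · exact fun ⟨i, hi, h⟩ => .inr (.inr (.inr (.inl ⟨i, hi, rfl, h⟩)))

lemma mem_l {u : List ℕ} : (3, u) ∈ R0 S c N k0 T ↔ u = [2 * N + 4] := by
  rw [mem_R0]
  constructor
  · rintro (⟨t, ht, e, h⟩ | ⟨j, _, e, h⟩ | ⟨k, _, e, h⟩ | ⟨i, hi, e, h⟩ | ⟨e, h⟩ | ⟨e, _⟩)
    all_goals first | omega | exact h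
  · exact fun h => .inr (.inr (.inr (.inr (.inl ⟨rfl, h⟩))))

lemma mem_a {u : List ℕ} : (0, u) ∈ R0 S c N k0 T ↔ ∃ p, (p = S * 0 ∨ p = S * 2 ∨ p = S * 0 + k0) ∧
      u = 2 :: (seg S 0 p).map fun k => 2 * k + 5 := by
  rw [mem_R0]
  constructor
  · rintro (⟨t, ht, e, h⟩ | ⟨j, _, e, h⟩ | ⟨k, _, e, h⟩ | ⟨i, hi, e, h⟩ | ⟨e, h⟩ | ⟨e, h⟩)
    all_goals first | omega | exact h
  · exact fun h => .inr (.inr (.inr (.inr (.inr ⟨rfl, h⟩))))

lemma step_x : ∀ (w : List ℕ) {v : List ℕ}, (∀ i ∈ w, i < N) →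
    (Step (R0 S c N k0 T) (w.map (fun i => 2 * i + 4) ++ [2 * N + 4]) v ↔
      ∃ v0, Pd S c T (w ++ [N]) v0 ∧ v = v0.map (fun k => 2 * k + 5) ++ [3]) := by
  intro w
  induction w with
  | nil =>
    intro v _
    simp only [List.map_nil, List.nil_append, step_cons, step_nil, mem_x le_rfl]
    constructor
    · rintro ⟨_, _, ⟨u0, h, rfl⟩, rfl, rfl⟩
      exact ⟨_, .cons h .nil, by simp [enc]⟩
    · rintro ⟨_, h, rfl⟩
      cases h with
      | cons h h' => cases h'; exact ⟨_, _, ⟨_, h, rfl⟩, rfl, by simp [enc]⟩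
  | cons i w ih =>
    intro v hw
    have hi := hw i (by simp)
    simp only [List.map_cons, List.cons_append, step_cons, mem_x hi.le,
      ih fun j hj => hw j (List.mem_cons_of_mem _ hj)]
    constructor
    · rintro ⟨_, _, ⟨u0, h, rfl⟩, ⟨v0, h', rfl⟩, rfl⟩
      exact ⟨_, .cons h h', by simp [enc, hi.ne]⟩
    · rintro ⟨_, h, rfl⟩
      cases h with
      | cons h h' => exact ⟨_, _, ⟨_, h, rfl⟩, ⟨_, h', rfl⟩, by simp [enc, hi.ne]⟩

lemma step_e : ∀ (u : List ℕ) {v : List ℕ}, (∀ k ∈ u, k < S) →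
    (Step (R0 S c N k0 T) (u.map (fun k => 2 * k + 5) ++ [3]) v ↔
      ∃ w : List ℕ, (∀ i ∈ w, i < N) ∧ w.length ≤ u.length ∧
        v = w.map (fun i => 2 * i + 4) ++ [2 * N + 4]) := by
  intro u
  induction u with
  | nil =>
    intro v _
    simp only [List.map_nil, List.nil_append, step_cons, step_nil, mem_l]
    constructor
    · rintro ⟨_, _, rfl, rfl, rfl⟩
      exact ⟨[], by simp, le_rfl, rfl⟩
    · rintro ⟨w, _, h, rfl⟩
      obtain rfl : w = [] := by simpa using h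
      exact ⟨_, _, rfl, rfl, rfl⟩
  | cons k u ih =>
    intro v hu
    simp only [List.map_cons, List.cons_append, step_cons, mem_e (hu k (by simp)),
      ih fun j hj => hu j (List.mem_cons_of_mem _ hj)]
    constructor
    · rintro ⟨_, _, rfl | ⟨i, hi, rfl⟩, ⟨w, h1, h2, rfl⟩, rfl⟩
      · exact ⟨w, h1, by simp; omega, rfl⟩
      · exact ⟨i :: w, by simpa [hi] using h1, by simpa using h2, rfl⟩
    · rintro ⟨_ | ⟨i, w⟩, h1, h2, rfl⟩
      · exact ⟨_, _, .inl rfl, ⟨[], h1, by simp, rfl⟩, rfl⟩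
      · exact ⟨_, _, .inr ⟨i, h1 i (by simp), rfl⟩,
          ⟨w, fun j hj => h1 j (by simp [hj]), by simpa using h2, rfl⟩, rfl⟩

def I (S N : ℕ) (u : List ℕ) : Prop :=
  (∃ w : List ℕ, w ≠ [] ∧ (∀ i ∈ w, i < N) ∧ u = 0 :: (w.map (fun i => 2 * i + 4) ++ [2 * N + 4])) ∨
  ∃ v : List ℕ, (∀ k ∈ v, k < S) ∧ u = 2 :: (v.map (fun k => 2 * k + 5) ++ [3])

lemma step_R2 {u v : List ℕ} (hu : 0 ∉ u) : Step (R2 S c N k0 T) u v ↔ Step (R0 S c N k0 T) u v := by
  refine ⟨step_mono fun a ha w h => ?_, step_mono fun a _ w h => List.mem_cons_of_mem _ h⟩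
  rcases List.mem_cons.mp h with h | h
  · exact absurd ((Prod.mk.inj h).1 ▸ ha) hu
  · exact h

lemma step_A {w v : List ℕ} (hw : ∀ i ∈ w, i < N) :
    Step (R0 S c N k0 T) (0 :: (w.map (fun i => 2 * i + 4) ++ [2 * N + 4])) v ↔
      ∃ p v0, (p = S * 0 ∨ p = S * 2 ∨ p = S * 0 + k0) ∧ Pd S c T (w ++ [N]) v0 ∧
        v = 2 :: ((seg S 0 p ++ v0).map (fun k => 2 * k + 5) ++ [3]) := by
  simp only [step_cons, mem_a, step_x w hw]
  constructor
  · rintro ⟨_, _, ⟨p, hp, rfl⟩, ⟨v0, h, rfl⟩, rfl⟩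
    exact ⟨p, v0, hp, h, by simp⟩
  · rintro ⟨p, v0, hp, h, rfl⟩
    exact ⟨_, _, ⟨p, hp, rfl⟩, ⟨v0, h, rfl⟩, by simp⟩

lemma step_A2 {w v : List ℕ} (hw : ∀ i ∈ w, i < N) :
    Step (R2 S c N k0 T) (0 :: (w.map (fun i => 2 * i + 4) ++ [2 * N + 4])) v ↔
      Step (R0 S c N k0 T) (0 :: (w.map (fun i => 2 * i + 4) ++ [2 * N + 4])) v ∨
      ∃ v0, Pd S c T (w ++ [N]) v0 ∧
        v = 2 :: ((seg S 0 S ++ v0).map (fun k => 2 * k + 5) ++ [3]) := by
  rw [step_cons, step_cons]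
  simp only [step_R2 (show 0 ∉ w.map (fun i => 2 * i + 4) ++ [2 * N + 4] by simp)]
  simp only [R2, List.mem_cons, Prod.mk.injEq, true_and, step_x w hw]
  constructor
  · rintro ⟨_, _, rfl | h, ⟨v0, h', rfl⟩, rfl⟩
    · exact .inr ⟨v0, h', by simp⟩
    · exact .inl ⟨_, _, h, ⟨v0, h', rfl⟩, rfl⟩
  · rintro (⟨_, _, h, h', rfl⟩ | ⟨v0, h, rfl⟩)
    · exact ⟨_, _, .inr h, h', rfl⟩
    · exact ⟨_, _, .inl rfl, ⟨v0, h, rfl⟩, by simp⟩

lemma step_F {u v : List ℕ} (hu : ∀ k ∈ u, k < S) :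
    Step (R0 S c N k0 T) (2 :: (u.map (fun k => 2 * k + 5) ++ [3])) v ↔
      ∃ w : List ℕ, w ≠ [] ∧ (∀ i ∈ w, i < N) ∧ w.length ≤ u.length + 1 ∧
        v = 0 :: (w.map (fun i => 2 * i + 4) ++ [2 * N + 4]) := by
  simp only [step_cons, mem_f, step_e u hu]
  constructor
  · rintro ⟨_, _, ⟨i, hi, rfl⟩, ⟨w, h1, h2, rfl⟩, rfl⟩
    exact ⟨i :: w, by simp, by simpa [hi] using h1, by simpa using h2, rfl⟩
  · rintro ⟨_ | ⟨i, w⟩, h0, h1, h2, rfl⟩
    · exact absurd rfl h0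
    · exact ⟨_, _, ⟨i, h1 i (by simp), rfl⟩,
        ⟨w, fun j hj => h1 j (by simp [hj]), by simpa using h2, rfl⟩, rfl⟩

lemma seg_lt (hS : 0 < S) (p l : ℕ) : ∀ k ∈ seg S p l, k < S := by
  intro k hk
  obtain ⟨j, _, rfl⟩ := List.mem_map.mp hk
  exact Nat.mod_lt _ hS

lemma inv (hS : 0 < S) {u v : List ℕ} (hu : I S N u) (h : Step (R2 S c N k0 T) u v) : I S N v := by
  rcases hu with ⟨w, _, hw, rfl⟩ | ⟨u, hu, rfl⟩
  · rcases (step_A2 hw).mp h with h1 | ⟨v0, h', rfl⟩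
    · obtain ⟨p, v0, _, h', rfl⟩ := (step_A hw).mp h1
      exact .inr ⟨_, fun k hk => (List.mem_append.mp hk).elim (seg_lt hS _ _ k) (Pd_lt hS h' k), rfl⟩
    · exact .inr ⟨_, fun k hk => (List.mem_append.mp hk).elim (seg_lt hS _ _ k) (Pd_lt hS h' k), rfl⟩
  · obtain ⟨w, h0, h1, _, rfl⟩ := (step_F hu).mp ((step_R2 (by simp)).mp h)
    exact .inl ⟨w, h0, h1, rfl⟩

theorem main (hN : 0 < N) (hc : 0 < c) (hk : 0 < k0) (hk' : k0 < S)
    (hT : ∀ t ∈ T, 0 < t.2.1 ∧ t.2.1 < S ∧ t.2.2.2 < S ∧ (t.2.2.2 = 0 ↔ t.1 = N)) :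
    E (R0 S c N k0 T) [2, 3] = E (R2 S c N k0 T) [2, 3] ↔
      ∀ w : List ℕ, w ≠ [] → (∀ i ∈ w, i < N) →
        Acc T (w ++ [N]) 0 k0 (1 + c * (w ++ [N]).length) 0 := by
  have hS : 0 < S := by omega
  have up : ∀ {u v}, Step (R0 S c N k0 T) u v → Step (R2 S c N k0 T) u v :=
    step_mono fun a _ w h => List.mem_cons_of_mem _ h
  have i0 : I S N [2, 3] := .inr ⟨[], by simp, rfl⟩
  constructor
  · intro hE w hw0 hw
    have reach : ∀ n, ∀ w : List ℕ, w ≠ [] → (∀ i ∈ w, i < N) → w.length ≤ n + 1 →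
        Relation.ReflTransGen (Step (R2 S c N k0 T)) [2, 3]
          (0 :: (w.map (fun i => 2 * i + 4) ++ [2 * N + 4])) := by
      intro n
      induction n with
      | zero =>
        intro w h0 h1 h2
        exact .single (up ((step_F (u := []) (by simp)).mpr ⟨w, h0, h1, h2, rfl⟩))
      | succ n ih =>
        intro w h0 h1 h2
        have hr : ∀ i ∈ List.replicate (n + 1) 0, i < N := fun i hi =>
          (List.eq_of_mem_replicate hi) ▸ hN
        refine ((ih _ (by simp) hr (by simp)).tail (up ((step_A hr).mpr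
          ⟨_, _, .inl rfl, Pd_neutral _, rfl⟩))).tail (up ((step_F fun k hk =>
            (List.mem_append.mp hk).elim (seg_lt hS _ _ k) (seg_lt hS _ _ k)).mpr
            ⟨w, h0, h1, ?_, rfl⟩))
        simp only [List.length_append, seg_len, List.length_replicate, List.length_singleton]
        nlinarith [Nat.mul_pos hS hc]
    have s2 := (step_A2 (S := S) (c := c) (k0 := k0) (T := T) hw).mpr
      (.inr ⟨_, Pd_neutral _, rfl⟩)
    obtain ⟨s, m, a1, a2, a3, a4⟩ := exists_seq _ (I S N) (fun u hu => by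
      have : ∃ v, Step (R2 S c N k0 T) u v := by
        rcases hu with ⟨w, _, hw, rfl⟩ | ⟨u, hu, rfl⟩
        · exact ⟨_, (step_A2 hw).mpr (.inr ⟨_, Pd_neutral _, rfl⟩)⟩
        · exact ⟨_, up ((step_F hu).mpr ⟨[0], by simp, by simpa using hN, by simp, rfl⟩)⟩
      obtain ⟨v, hv⟩ := this
      exact ⟨v, hv, inv hS hu hv⟩) (reach _ w hw0 hw (Nat.le_succ _)) s2
      (inv hS (.inl ⟨w, hw0, hw, rfl⟩) s2)
    have : s ∈ E (R0 S c N k0 T) [2, 3] := hE ▸ ⟨a1, a2⟩
    have h3 := this.2 m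
    rw [a3, a4] at h3
    obtain ⟨p, v0, hp, h, e⟩ := (step_A hw).mp h3
    have e' := List.map_injective_iff.mpr (fun a b (h : 2 * a + 5 = 2 * b + 5) => by omega)
      (List.append_cancel_right (List.cons.inj e).2)
    have e1 := seg_mul S 1 (S * (c * (w ++ [N]).length))
    rw [mul_one] at e1
    rw [← e1] at e'
    have hT' : ∀ t ∈ T, 0 < t.2.1 ∧ t.2.1 < S := fun t ht => ⟨(hT t ht).1, (hT t ht).2.1⟩
    rcases hp with rfl | rfl | rfl
    · have := sound0 hT' h e'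
      rw [mul_add] at this
      omega
    · have := sound0 hT' h e'
      rw [mul_add] at this
      omega
    · obtain ⟨m2, h1, h2⟩ := sound N hc hT w (fun i hi => (hw i hi).ne) h hk hk' e'
      have : m2 = 1 + c * (w ++ [N]).length :=
        Nat.eq_of_mul_eq_mul_left hS (by rw [← h2]; ring)
      exact this ▸ h1
  · intro h
    ext s
    refine ⟨fun hs => ⟨hs.1, fun n => up (hs.2 n)⟩, fun hs => ⟨hs.1, fun n => ?_⟩⟩
    have hI : I S N (s n) := by
      induction n with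
      | zero => exact hs.1 ▸ i0
      | succ n ih => exact inv hS ih (hs.2 n)
    have h2 := hs.2 n
    rcases hI with ⟨w, h0, hw, e⟩ | ⟨u, hu, e⟩ <;> rw [e] at h2 ⊢
    · rcases (step_A2 hw).mp h2 with h2 | ⟨v0, h2, e'⟩
      · exact h2
      · rw [e']
        rcases cover h2 with rfl | ⟨v', h3, rfl | rfl⟩
        · obtain ⟨v, h4, h5⟩ := complete (c := c) (fun t ht => (hT t ht).2.1) (h w h0 hw)
          refine (step_A hw).mpr ⟨_, v, .inr (.inr rfl), h4, ?_⟩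
          rw [← h5, add_zero, mul_add, seg_mul, mul_one]
        · exact (step_A hw).mpr ⟨_, _, .inl rfl, h3, rfl⟩
        · refine (step_A hw).mpr ⟨_, _, .inr (.inl rfl), h3, ?_⟩
          have := seg_mul S 1 S
          rw [mul_one] at this
          rw [mul_two, this, List.append_assoc]
    · exact (step_R2 (by simp)).mp h2

lemma valid (hN : 0 < N) (hS : 0 < S) (hT : ∀ t ∈ T, t.1 ≤ N) (a : ℕ)
    (h : a ∈ [2, 3] ∨ ∃ p ∈ R2 S c N k0 T, a ∈ p.2) : ∃ w, (a, w) ∈ R0 S c N k0 T := by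
  have he : ∀ u : List ℕ, (∀ k ∈ u, k < S) → a ∈ u.map (fun k => 2 * k + 5) →
      ∃ w, (a, w) ∈ R0 S c N k0 T := by
    intro u hu ha
    obtain ⟨k, hk, rfl⟩ := List.mem_map.mp ha
    exact ⟨[], (mem_e (hu k hk)).mpr (.inl rfl)⟩
  have h2 : ∃ w, (2, w) ∈ R0 S c N k0 T := ⟨_, mem_f.mpr ⟨0, hN, rfl⟩⟩
  have h3 : ∃ w, (3, w) ∈ R0 S c N k0 T := ⟨_, mem_l.mpr rfl⟩
  have hx : ∀ i ≤ N, ∃ w, (2 * i + 4, w) ∈ R0 S c N k0 T := fun i hi =>
    ⟨_, (mem_x hi).mpr ⟨_, .inl rfl, rfl⟩⟩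
  have hen : ∀ i (u : List ℕ), (∀ k ∈ u, k < S) → a ∈ enc N i u → ∃ w, (a, w) ∈ R0 S c N k0 T := by
    intro i u hu ha
    rcases List.mem_append.mp ha with ha | ha
    · exact he u hu ha
    · split_ifs at ha
      · exact List.mem_singleton.mp ha ▸ h3
      · cases ha
  have ha : ∀ p, a ∈ 2 :: (seg S 0 p).map (fun k => 2 * k + 5) → ∃ w, (a, w) ∈ R0 S c N k0 T := by
    intro p ha
    rcases List.mem_cons.mp ha with rfl | ha
    · exact h2
    · exact he _ (seg_lt hS _ _) ha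
  rcases h with h | ⟨⟨b, u⟩, hp, h⟩
  · simp only [List.mem_cons, List.not_mem_nil, or_false] at h
    rcases h with rfl | rfl <;> assumption
  · rcases List.mem_cons.mp hp with hp | hp
    · exact ha S ((Prod.mk.inj hp).2 ▸ h)
    rcases mem_R0.mp hp with ⟨t, ht, _, rfl | rfl⟩ | ⟨j, _, _, rfl⟩ | ⟨k, _, _, rfl | ⟨i, hi, rfl⟩⟩ |
      ⟨i, hi, _, rfl⟩ | ⟨_, rfl⟩ | ⟨_, p, _, rfl⟩
    · exact hen _ _ (seg_lt hS _ _) h
    · exact hen _ _ (fun k hk => (List.mem_append.mp hk).elim (seg_lt hS _ _ k) (seg_lt hS _ _ k)) h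
    · exact hen _ _ (seg_lt hS _ _) h
    · cases h
    · exact List.mem_singleton.mp h ▸ hx i hi.le
    · simp only [List.mem_cons, List.not_mem_nil, or_false] at h
      rcases h with rfl | rfl
      · exact ⟨_, mem_a.mpr ⟨_, .inl rfl, rfl⟩⟩
      · exact hx i hi.le
    · exact List.mem_singleton.mp h ▸ hx N le_rfl
    · exact ha p h

end ol

section pcp
open LeadPcp LeadPrim

def code (u : List ℕ) (z : ℕ) : ℕ := (u.map fun d => d + 1).getD z 0

def Sd (D : ℕ) (u : List ℕ) (s z s' : ℕ) : Prop :=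
  (s = 0 ∧ z ≤ u.length ∧ s' = code u z) ∨ (0 < s ∧ s ≤ D ∧ z = 0 ∧ s' = s)

def side (D : ℕ) (u : List ℕ) : List (ℕ × ℕ × ℕ) :=
  (List.range (u.length + 1)).map (fun z => (0, z, code u z)) ++
    (List.range D).map fun d => (d + 1, 0, d + 1)

lemma mem_side {D : ℕ} {u : List ℕ} {g : ℕ × ℕ × ℕ} : g ∈ side D u ↔ Sd D u g.1 g.2.1 g.2.2 := by
  obtain ⟨s, z, s'⟩ := g
  simp only [side, Sd, List.mem_append, List.mem_map, List.mem_range, Prod.mk.injEq]
  refine or_congr ⟨?_, ?_⟩ ⟨?_, ?_⟩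
  · rintro ⟨_, h, rfl, rfl, rfl⟩; exact ⟨rfl, by omega, rfl⟩
  · rintro ⟨rfl, h, rfl⟩; exact ⟨z, by omega, rfl, rfl, rfl⟩
  · rintro ⟨_, h, rfl, rfl, rfl⟩; exact ⟨by omega, h, rfl, rfl⟩
  · rintro ⟨h, h', rfl, rfl⟩; exact ⟨s' - 1, by omega, by omega, rfl, by omega⟩

lemma code_lt {u : List ℕ} {z : ℕ} (h : z < u.length) : code u z = u[z] + 1 := by
  simp [code, List.getD_eq_getElem?_getD, List.getElem?_eq_getElem h]

lemma code_ge {u : List ℕ} {z : ℕ} (h : u.length ≤ z) : code u z = 0 := by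
  simp [code, List.getD_eq_getElem?_getD, List.getElem?_eq_none h]

lemma code_left {u : List ℕ} (v : List ℕ) {z : ℕ} (h : z < u.length) : code (u ++ v) z = code u z := by
  simp [code, List.getD_eq_getElem?_getD, List.getElem?_append_left, h]

lemma code_right (u v : List ℕ) (z : ℕ) : code (u ++ v) (u.length + z) = code v z := by
  simp [code, List.getD_eq_getElem?_getD, List.getElem?_append_right]

lemma Sd_le {D : ℕ} {u : List ℕ} (hu : ∀ d ∈ u, d < D) {s z s' : ℕ} (h : Sd D u s z s') :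
    s ≤ D ∧ z ≤ u.length ∧ s' ≤ D := by
  rcases h with ⟨rfl, h, rfl⟩ | ⟨_, h, rfl, rfl⟩
  · refine ⟨by omega, h, ?_⟩
    rcases h.lt_or_eq with h | h
    · rw [code_lt h]; exact hu _ (List.getElem_mem h)
    · rw [code_ge h.ge]; omega
  · omega

lemma Sd_append {D : ℕ} {u : List ℕ} (hu : ∀ d ∈ u, d < D) (v : List ℕ) (s p t : ℕ) :
    Sd D (u ++ v) s p t ↔ ∃ z s' p', Sd D u s z s' ∧ Sd D v s' p' t ∧ p = z + p' := by
  constructor
  · rintro (⟨rfl, h, rfl⟩ | ⟨h0, h, rfl, rfl⟩)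
    · by_cases hp : p < u.length
      · refine ⟨p, code u p, 0, .inl ⟨rfl, hp.le, rfl⟩, .inr ⟨?_, ?_, rfl, code_left v hp⟩, rfl⟩
        · rw [code_lt hp]; omega
        · rw [code_lt hp]; exact hu _ (List.getElem_mem hp)
      · obtain ⟨p', rfl⟩ := Nat.exists_eq_add_of_le (not_lt.mp hp)
        exact ⟨_, 0, p', .inl ⟨rfl, le_rfl, (code_ge le_rfl).symm⟩,
          .inl ⟨rfl, by simpa using h, code_right ..⟩, rfl⟩
    · exact ⟨0, _, 0, .inr ⟨h0, h, rfl, rfl⟩, .inr ⟨h0, h, rfl, rfl⟩, rfl⟩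
  · rintro ⟨z, s', p', ⟨rfl, h, rfl⟩ | ⟨h0, h, rfl, rfl⟩, h', rfl⟩
    · rcases h' with ⟨e, h1, rfl⟩ | ⟨h0, h1, rfl, rfl⟩
      · have : z = u.length := by
          by_contra hz
          rw [code_lt (lt_of_le_of_ne h hz)] at e
          omega
        subst this
        exact .inl ⟨rfl, by simpa using h1, (code_right ..).symm⟩
      · have : z < u.length := by
          by_contra hz
          rw [code_ge (not_lt.mp hz)] at h0
          omega
        exact .inl ⟨rfl, by simp; omega, (code_left v this).symm⟩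
    · rcases h' with ⟨e, h1, rfl⟩ | ⟨_, h1, rfl, rfl⟩
      · omega
      · exact .inr ⟨h0, h, rfl, rfl⟩

lemma eq_of_code : ∀ u v : List ℕ, (∀ p, p ≤ u.length → p ≤ v.length → code u p = code v p) → u = v
  | [], [], _ => rfl
  | [], b :: v, h => by simpa [code] using h 0 le_rfl (by simp)
  | a :: u, [], h => by simpa [code] using h 0 (by simp) le_rfl
  | a :: u, b :: v, h => by
    have h0 : a = b := by simpa [code] using h 0 (by simp) (by simp)
    rw [h0, eq_of_code u v fun p h1 h2 => by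
      simpa [code] using h (p + 1) (by simpa using h1) (by simpa using h2)]

def TT (D M : ℕ) (H G : List (List ℕ)) : List (ℕ × ℕ × ℕ × ℕ) :=
  (List.range H.length).flatMap (fun i => (side D (H.getD i [])).flatMap fun g =>
    (side D (G.getD i [])).map fun h =>
      (i, Nat.pair g.1 h.1 + 1, M + g.2.1 - h.2.1, Nat.pair g.2.2 h.2.2 + 1)) ++
  (List.range (D + 1)).flatMap fun sg => (List.range (D + 1)).flatMap fun sh =>
    if sg = sh then [] else [(H.length, Nat.pair sg sh + 1, M + 1, 0)]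

variable {D M : ℕ} {H G : List (List ℕ)}

lemma mem_TT {t : ℕ × ℕ × ℕ × ℕ} : t ∈ TT D M H G ↔
    (∃ i < H.length, ∃ sg zg tg sh zh th, Sd D (H.getD i []) sg zg tg ∧ Sd D (G.getD i []) sh zh th ∧
      t = (i, Nat.pair sg sh + 1, M + zg - zh, Nat.pair tg th + 1)) ∨
    ∃ sg ≤ D, ∃ sh ≤ D, sg ≠ sh ∧ t = (H.length, Nat.pair sg sh + 1, M + 1, 0) := by
  simp only [TT, List.mem_append, List.mem_flatMap, List.mem_map, List.mem_range, mem_side,
    Nat.lt_succ_iff]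
  refine or_congr (exists_congr fun i => and_congr_right fun _ => ⟨?_, ?_⟩) (exists_congr fun sg =>
    and_congr_right fun _ => exists_congr fun sh => and_congr_right fun _ => ?_)
  · rintro ⟨g, h1, h, h2, rfl⟩; exact ⟨_, _, _, _, _, _, h1, h2, rfl⟩
  · rintro ⟨sg, zg, tg, sh, zh, th, h1, h2, rfl⟩; exact ⟨(sg, zg, tg), h1, (sh, zh, th), h2, rfl⟩
  · split_ifs with h <;> simp [h]

lemma pair_lt {a b : ℕ} (ha : a ≤ D) (hb : b ≤ D) : Nat.pair a b + 1 < (D + 1) ^ 2 + 1 :=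
  Nat.succ_lt_succ ((Nat.pair_lt_max_add_one_sq a b).trans_le
    (Nat.pow_le_pow_left (by omega) 2))

lemma acc_iff (hH : ∀ i, ∀ d ∈ H.getD i [], d < D) (hG : ∀ i, ∀ d ∈ G.getD i [], d < D)
    (hM : ∀ i, (G.getD i []).length ≤ M) (m2 : ℕ) : ∀ (w : List ℕ) (m sg sh : ℕ),
    (∀ i ∈ w, i < H.length) →
    (Acc (TT D M H G) (w ++ [H.length]) m (Nat.pair sg sh + 1) m2 0 ↔
      ∃ pg tg ph th, Sd D (img H w) sg pg tg ∧ Sd D (img G w) sh ph th ∧ tg ≠ th ∧
        m2 + ph = m + (M + 1) * (w.length + 1) + 1 + pg) := by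
  intro w
  have hnil : ∀ s p t, Sd D [] s p t ↔ s ≤ D ∧ p = 0 ∧ t = s := by
    intro s p t
    simp only [Sd, code, List.length_nil, List.map_nil, List.getD_nil]
    omega
  induction w with
  | nil =>
    intro m sg sh _
    simp only [img, List.flatMap_nil, hnil, List.nil_append, List.length_nil]
    constructor
    · intro h
      cases h with
      | cons ht h =>
        have hn : ∀ a b c d, Acc (TT D M H G) [] a b c d → c = a := fun _ _ _ _ h => by
          cases h; rfl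
        have := hn _ _ _ _ h
        rcases mem_TT.mp ht with ⟨i, hi, _, _, _, _, _, _, _, _, e⟩ | ⟨a, ha, b, hb, hab, e⟩ <;>
          simp only [Prod.mk.injEq, add_left_inj, Nat.pair_eq_pair] at e
        · omega
        · exact ⟨_, _, _, _, ⟨by omega, rfl, rfl⟩, ⟨by omega, rfl, rfl⟩, by omega, by omega⟩
    · rintro ⟨_, _, _, _, ⟨h1, rfl, rfl⟩, ⟨h2, rfl, rfl⟩, h3, h4⟩
      have : m2 = m + (M + 1) + 1 := by omega
      subst this
      exact .cons (mem_TT.mpr (.inr ⟨_, h1, _, h2, h3, rfl⟩)) (.nil _ _)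
  | cons i w ih =>
    intro m sg sh hw
    have hi := hw i (by simp)
    have hw' : ∀ j ∈ w, j < H.length := fun j hj => hw j (by simp [hj])
    have e1 : ∀ K, img K (i :: w) = K.getD i [] ++ img K w := fun K => rfl
    simp only [e1, Sd_append (hH i), Sd_append (hG i), List.cons_append, List.length_cons]
    constructor
    · intro h
      generalize e : Nat.pair sg sh + 1 = k at h
      cases h with
      | cons ht h =>
        rcases mem_TT.mp ht with ⟨j, hj, a, zg, tg, b, zh, th, h1, h2, e'⟩ | ⟨a, ha, b, hb, hab, e'⟩ <;>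
          simp only [Prod.mk.injEq, ← e, add_left_inj, Nat.pair_eq_pair] at e'
        · obtain ⟨rfl, ⟨rfl, rfl⟩, rfl, rfl⟩ := e'
          obtain ⟨pg, tg', ph, th', h3, h4, h5, h6⟩ := (ih _ _ _ hw').mp h
          refine ⟨_, _, _, _, ⟨_, _, _, h1, h3, rfl⟩, ⟨_, _, _, h2, h4, rfl⟩, h5, ?_⟩
          have := (Sd_le (hG i) h2).2.1.trans (hM i)
          rw [mul_add (M + 1) (w.length + 1)]
          omega
        · omega
    · rintro ⟨_, tg', _, th', ⟨zg, tg, pg, h1, h3, rfl⟩, ⟨zh, th, ph, h2, h4, rfl⟩, h5, h6⟩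
      refine .cons (mem_TT.mpr (.inl ⟨i, hi, _, _, _, _, _, _, h1, h2, rfl⟩))
        ((ih _ _ _ hw').mpr ⟨_, _, _, _, h3, h4, h5, ?_⟩)
      have := (Sd_le (hG i) h2).2.1.trans (hM i)
      rw [mul_add (M + 1) (w.length + 1)] at h6
      omega

def DD (H G : List (List ℕ)) : ℕ := (H.flatten ++ G.flatten).sum + 1

def RA (H G : List (List ℕ)) : List (ℕ × List ℕ) :=
  R0 ((DD H G + 1) ^ 2 + 1) (G.flatten.length + 1) H.length 1 (TT (DD H G) G.flatten.length H G)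

def RB (H G : List (List ℕ)) : List (ℕ × List ℕ) :=
  R2 ((DD H G + 1) ^ 2 + 1) (G.flatten.length + 1) H.length 1 (TT (DD H G) G.flatten.length H G)

lemma getD_sub (K : List (List ℕ)) (i : ℕ) : (K.getD i []).Sublist K.flatten := by
  by_cases h : i < K.length
  · rw [List.getD_eq_getElem _ _ h]
    exact List.sublist_flatten_of_mem (List.getElem_mem h)
  · rw [List.getD_eq_default _ _ (not_lt.mp h)]
    exact List.nil_sublist _

theorem pcp (H G : List (List ℕ)) (hN : 0 < H.length) :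
    (E (RA H G) [2, 3] = E (RB H G) [2, 3] ↔ ¬ Sol H G) ∧
    ∀ a, (a ∈ [2, 3] ∨ ∃ p ∈ RB H G, a ∈ p.2) → ∃ w, (a, w) ∈ RA H G := by
  have hH : ∀ i, ∀ d ∈ H.getD i [], d < DD H G := fun i d hd => Nat.lt_succ_of_le
    (List.single_le_sum (by simp) d (List.mem_append_left _ ((getD_sub H i).subset hd)))
  have hG : ∀ i, ∀ d ∈ G.getD i [], d < DD H G := fun i d hd => Nat.lt_succ_of_le
    (List.single_le_sum (by simp) d (List.mem_append_right _ ((getD_sub G i).subset hd)))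
  have hM : ∀ i, (G.getD i []).length ≤ G.flatten.length := fun i => (getD_sub G i).length_le
  refine ⟨?_, valid hN (by omega) fun t ht => ?_⟩
  · rw [RA, RB, main hN (by omega) one_pos (pair_lt (a := 0) (b := 0) (by omega) (by omega))]
    · simp only [Sol, not_exists, not_and]
      refine forall_congr' fun w => imp_congr_right fun _ => imp_congr_right fun hw => ?_
      refine (acc_iff hH hG hM _ w 0 0 0 hw).trans ⟨?_, fun h => ?_⟩
      · rintro ⟨pg, tg, ph, th, ⟨_, _, rfl⟩ | h, ⟨_, _, rfl⟩ | h', h3, h4⟩ e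
        · simp only [List.length_append, List.length_singleton] at h4
          exact h3 (by rw [e, show pg = ph by omega])
        all_goals omega
      · by_contra hc
        refine h (eq_of_code _ _ fun p h1 h2 => ?_)
        by_contra hne
        exact hc ⟨p, _, p, _, .inl ⟨rfl, h1, rfl⟩, .inl ⟨rfl, h2, rfl⟩, hne, by simp; omega⟩
    · intro t ht
      rcases mem_TT.mp ht with ⟨i, hi, _, _, _, _, _, _, h1, h2, rfl⟩ | ⟨a, ha, b, hb, _, rfl⟩
      · exact ⟨by simp, pair_lt (Sd_le (hH i) h1).1 (Sd_le (hG i) h2).1,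
          pair_lt (Sd_le (hH i) h1).2.2 (Sd_le (hG i) h2).2.2, by simp; omega⟩
      · exact ⟨by simp, pair_lt ha hb, by simp, by simp⟩
  · rcases mem_TT.mp ht with ⟨i, hi, _, _, _, _, _, _, h1, h2, rfl⟩ | ⟨a, ha, b, hb, _, rfl⟩
    · exact hi.le
    · exact le_rfl

@[fun_prop] lemma seg_pr {α : Type} [Primcodable α] {f g h : α → ℕ} (hf : PR f) (hg : PR g)
    (hh : PR h) : PR fun a => seg (f a) (g a) (h a) := by
  unfold seg; fun_prop

@[fun_prop] lemma side_pr {α : Type} [Primcodable α] {f : α → ℕ} {g : α → List ℕ} (hf : PR f)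
    (hg : PR g) : PR fun a => side (f a) (g a) := by
  unfold side code; fun_prop

@[fun_prop] lemma TT_pr {α : Type} [Primcodable α] {f g : α → ℕ} {h k : α → List (List ℕ)}
    (hf : PR f) (hg : PR g) (hh : PR h) (hk : PR k) : PR fun a => TT (f a) (g a) (h a) (k a) := by
  unfold TT; fun_prop

@[fun_prop] lemma R0_pr {α : Type} [Primcodable α] {f g h k : α → ℕ} {t : α → List (ℕ × ℕ × ℕ × ℕ)}
    (hf : PR f) (hg : PR g) (hh : PR h) (hk : PR k) (ht : PR t) :
    PR fun a => R0 (f a) (g a) (h a) (k a) (t a) := by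
  unfold R0 enc tw; fun_prop

lemma RAB_pr {U V : ℕ → List (List ℕ)} (hU : PR U) (hV : PR V) :
    PR fun n => ((RA (U n) (V n), [2, 3]), (RB (U n) (V n), [2, 3])) := by
  unfold RA RB R2 DD; fun_prop

end pcp

end LeadOL
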