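import Mathlib
import Pool.Agent.Lib.lead.CntM

set_option autoImplicit false

namespace LeadOne
open LeadCnt

inductive G (K : ℕ) (T : Type) : Type
  | z : G K T
  | e : G K T
  | s (a : G K T) : G K T
  | P (a : G K T) : G K T
  | Q (i : Fin 3) (a : G K T) : G K T
  | D (i : Fin 2) (a : G K T) : G K T
  | M (i : Fin 3) (a b w : G K T) : G K T
  | k (τ : T) (xs : Fin K → G K T) (w : G K T) : G K T

inductive S (T : Type) : Type
  | z | e | s | P | Q (i : Fin 3) | D (i : Fin 2) | M (i : Fin 3) | k (τ : T)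

variable {K : ℕ} {T : Type}

open G

def sp : ℕ → G K T → G K T
  | 0, a => a
  | n + 1, a => s (sp n a)

def num (n : ℕ) : G K T := sp n z

def befT (C : CM K T) (τ : T) (xs : Fin K → G K T) (j : Fin K) : G K T :=
  sp (C.al τ j) (if C.zt τ j then z else xs j)

def aftT (C : CM K T) (τ : T) (xs : Fin K → G K T) (j : Fin K) : G K T :=
  sp (C.be τ j) (if C.zt τ j then z else xs j)

inductive NC : G K T → Prop
  | e : NC e
  | P (a : G K T) : NC (P a)
  | k (τ : T) (xs : Fin K → G K T) (w : G K T) : NC (k τ xs w)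

inductive NS : G K T → Prop
  | z : NS z
  | s (a : G K T) : NS (s a)
  | P (a : G K T) : NS (P a)

inductive Jk : G K T → Prop
  | s (g : G K T) : NC g → Jk (s g)
  | kc (τ : T) (xs : Fin K → G K T) (w : G K T) (j : Fin K) : NC (xs j) → Jk (k τ xs w)
  | kw (τ : T) (xs : Fin K → G K T) (w : G K T) : NS w → Jk (k τ xs w)

inductive St (C : CM K T) : G K T → G K T → Prop
  | topE : St C e z
  | topS (a : G K T) : St C (s a) z
  | topP (a : G K T) : St C (P a) z
  | topK (τ : T) (xs : Fin K → G K T) (w : G K T) : τ ≠ C.r → St C (k τ xs w) z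
  | cycD (i : Fin 2) (a : G K T) : St C (D i a) (D (i + 1) a)
  | cycQ (i : Fin 3) (a : G K T) : St C (Q i a) (Q (i + 1) a)
  | cycM (i : Fin 3) (a b w : G K T) : St C (M i a b w) (M (i + 1) a b w)
  | eqM (a w : G K T) : St C (M 0 a a w) (D 0 w)
  | rootP (xs : Fin K → G K T) (w : G K T) : St C (k C.r xs w) (P (xs C.j0))
  | decP (a : G K T) : St C (P (s a)) (Q 0 a)
  | retQ (a : G K T) : St C (Q 0 a) (P a)
  | zeroP : St C (P z) (D 0 z)
  | testM (τ : T) (xs : Fin K → G K T) (τ' : T) (xs' : Fin K → G K T) (w : G K T) (j : Fin K) :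
      St C (k τ xs (k τ' xs' w)) (k τ (fun _ => z) (M 0 (aftT C τ xs j) (befT C τ' xs' j) w))
  | testD (τ : T) (xs : Fin K → G K T) (τ' : T) (xs' : Fin K → G K T) (w : G K T) :
      St C (k τ xs (k τ' xs' w)) (k τ (fun _ => z) (D 0 w))
  | endM (τ : T) (xs : Fin K → G K T) :
      St C (k τ xs e) (k τ (fun _ => z) (M 0 (aftT C τ xs C.jh) (num C.h) z))
  | endD (τ : T) (xs : Fin K → G K T) : St C (k τ xs e) (k τ (fun _ => z) (D 0 z))
  | junkM (t : G K T) : Jk t → St C t (M 0 z (s z) z)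
  | junkD (t : G K T) : Jk t → St C t (D 0 z)
  | cs {a b : G K T} : St C a b → St C (s a) (s b)
  | cP {a b : G K T} : St C a b → St C (P a) (P b)
  | cQ (i : Fin 3) {a b : G K T} : St C a b → St C (Q i a) (Q i b)
  | cD (i : Fin 2) {a b : G K T} : St C a b → St C (D i a) (D i b)
  | cM1 (i : Fin 3) {a b : G K T} (c w : G K T) : St C a b → St C (M i a c w) (M i b c w)
  | cM2 (i : Fin 3) {a b : G K T} (c w : G K T) : St C a b → St C (M i c a w) (M i c b w)
  | cM3 (i : Fin 3) {a b : G K T} (c d : G K T) : St C a b → St C (M i c d a) (M i c d b)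
  | ck1 (τ : T) (xs : Fin K → G K T) (w : G K T) (j : Fin K) (u : G K T) :
      St C (xs j) u → St C (k τ xs w) (k τ (Function.update xs j u) w)
  | ck2 (τ : T) (xs : Fin K → G K T) {w w' : G K T} : St C w w' → St C (k τ xs w) (k τ xs w')

/-! ### weights -/

def wt (ω : S T → ℕ) : G K T → ℕ
  | z => ω .z
  | e => ω .e
  | s a => ω .s + wt ω a
  | P a => ω .P + wt ω a
  | Q i a => ω (.Q i) + wt ω a
  | D i a => ω (.D i) + wt ω a
  | M i a b w => ω (.M i) + wt ω a + wt ω b + wt ω w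
  | k τ xs w => ω (.k τ) + ∑ j, wt ω (xs j) + wt ω w

lemma wt_sp (ω : S T → ℕ) (n : ℕ) (a : G K T) : wt ω (sp n a) = n * ω .s + wt ω a := by
  induction n with
  | zero => simp [sp]
  | succ n ih => simp only [sp, wt, ih]; ring

lemma wt_upd (ω : S T → ℕ) (τ : T) (xs : Fin K → G K T) (w : G K T) (j : Fin K) (u : G K T) :
    wt ω (k τ (Function.update xs j u) w) + wt ω (xs j) = wt ω (k τ xs w) + wt ω u := by
  simp only [wt]
  have h1 : (fun i => wt ω (Function.update xs j u i)) =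
      Function.update (fun i => wt ω (xs i)) j (wt ω u) := by
    ext i
    by_cases h : i = j
    · subst h; simp
    · simp [h]
  rw [h1, Finset.sum_update_of_mem (Finset.mem_univ j),
    ← Finset.add_sum_erase _ _ (Finset.mem_univ j), Finset.sdiff_singleton_eq_erase]
  ring

lemma wt_arg (ω : S T → ℕ) (xs : Fin K → G K T) (j : Fin K) :
    wt ω (xs j) ≤ ∑ i, wt ω (xs i) :=
  Finset.single_le_sum (f := fun i => wt ω (xs i)) (fun _ _ => Nat.zero_le _) (Finset.mem_univ j)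

def wMu (B : ℕ) : S T → ℕ
  | .z => 0 | .e => 4 * B + 5 | .s => 2 | .P => 3 | .Q _ => 4 | .D _ => 1 | .M _ => 2
  | .k _ => 4 * B + 5

def wD : S T → ℕ
  | .D _ => 1 | _ => 0

def wM : S T → ℕ
  | .M _ => 1 | .Q _ => 1 | _ => 0

def w2 : S T → ℕ
  | .D i => i | _ => 0

def w3 : S T → ℕ
  | .M i => i | .Q i => i | _ => 0

def Bd (C : CM K T) (B : ℕ) : Prop := (∀ τ j, C.al τ j ≤ B ∧ C.be τ j ≤ B) ∧ C.h ≤ B

def Rl (B : ℕ) (a b : G K T) : Prop :=
  wt (wMu B) b < wt (wMu B) a ∨ (wt (wMu B) b = wt (wMu B) a ∧ wt wD b = wt wD a ∧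
    wt wM b = wt wM a ∧
    ((0 < wt wD a ∧ wt w2 b % 2 = (wt w2 a + 1) % 2 ∧ wt w3 b = wt w3 a) ∨
     (0 < wt wM a ∧ wt w2 b = wt w2 a ∧ wt w3 b % 3 = (wt w3 a + 1) % 3)))

lemma mu_nc (B : ℕ) {g : G K T} (h : NC g) : 3 ≤ wt (wMu B) g := by
  cases h <;> simp only [wt, wMu] <;> omega

lemma mu_jk (B : ℕ) {g : G K T} (h : Jk g) : 5 ≤ wt (wMu B) g := by
  cases h with
  | s g h => have := mu_nc B h; simp only [wt, wMu]; omega
  | kc => simp only [wt, wMu]; omega
  | kw => simp only [wt, wMu]; omega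

lemma mu_if (B : ℕ) (b : Bool) (xs : Fin K → G K T) (j : Fin K) :
    wt (wMu B) (if b then z else xs j) ≤ ∑ i, wt (wMu B) (xs i) := by
  cases b
  · simpa using wt_arg _ xs j
  · simp [wt, wMu]

lemma st_rl {C : CM K T} {B : ℕ} (hB : Bd C B) {a b : G K T} (h : St C a b) : Rl B a b := by
  induction h with
  | topE => left; simp [wt, wMu]
  | topS => left; simp only [wt, wMu]; omega
  | topP => left; simp only [wt, wMu]; omega
  | topK => left; simp only [wt, wMu]; omega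
  | cycD i a => right; fin_cases i <;> simp [wt, wMu, wD, wM, w2, w3] <;> omega
  | cycQ i a => right; fin_cases i <;> simp [wt, wMu, wD, wM, w2, w3] <;> omega
  | cycM i a b w => right; fin_cases i <;> simp [wt, wMu, wD, wM, w2, w3] <;> omega
  | eqM => left; simp only [wt, wMu]; omega
  | rootP xs w => left; have := wt_arg (wMu B) xs C.j0; simp only [wt, wMu] at this ⊢; omega
  | decP => left; simp only [wt, wMu]; omega
  | retQ => left; simp only [wt, wMu]; omega
  | zeroP => left; simp [wt, wMu]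
  | testM τ xs τ' xs' w j =>
    left
    have h1 := mu_if B (C.zt τ j) xs j
    have h2 := mu_if B (C.zt τ' j) xs' j
    have h3 := (hB.1 τ j).2
    have h4 := (hB.1 τ' j).1
    simp only [wt, aftT, befT, wt_sp, wMu, Finset.sum_const_zero] at h1 h2 ⊢
    omega
  | testD => left; simp only [wt, wMu, Finset.sum_const_zero]; omega
  | endM τ xs =>
    left
    have h1 := mu_if B (C.zt τ C.jh) xs C.jh
    have h3 := (hB.1 τ C.jh).2
    have h4 := hB.2
    simp only [wt, aftT, num, wt_sp, wMu, Finset.sum_const_zero] at h1 ⊢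
    omega
  | endD => left; simp only [wt, wMu, Finset.sum_const_zero]; omega
  | junkM t h => left; have := mu_jk B h; simp only [wt, wMu] at this ⊢; omega
  | junkD t h => left; have := mu_jk B h; simp only [wt, wMu] at this ⊢; omega
  | cs _ ih => simp only [Rl, wt] at ih ⊢; omega
  | cP _ ih => simp only [Rl, wt] at ih ⊢; omega
  | cQ _ _ ih => simp only [Rl, wt] at ih ⊢; omega
  | cD _ _ ih => simp only [Rl, wt] at ih ⊢; omega
  | cM1 _ _ _ _ ih => simp only [Rl, wt] at ih ⊢; omega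
  | cM2 _ _ _ _ ih => simp only [Rl, wt] at ih ⊢; omega
  | cM3 _ _ _ _ ih => simp only [Rl, wt] at ih ⊢; omega
  | ck1 τ xs w j u _ ih =>
    have h1 := wt_upd (wMu B) τ xs w j u
    have h2 := wt_upd wD τ xs w j u
    have h3 := wt_upd wM τ xs w j u
    have h4 := wt_upd w2 τ xs w j u
    have h5 := wt_upd w3 τ xs w j u
    have h6 : wt wD (xs j) ≤ wt wD (k τ xs w) := by
      have := wt_arg wD xs j; simp only [wt]; omega
    have h7 : wt wM (xs j) ≤ wt wM (k τ xs w) := by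
      have := wt_arg wM xs j; simp only [wt]; omega
    simp only [Rl] at ih ⊢
    omega
  | ck2 _ _ _ ih => simp only [Rl, wt] at ih ⊢; omega

/-! ### the semantic formulas -/

section sem
variable {α : Type} (r : α → α → Prop)

def C2 (t : α) : Prop := ∃ a, r t a ∧ r a t
def C3 (t : α) : Prop := ∃ a, r t a ∧ ∃ b, r a b ∧ r b t
def E1 (t : α) : Prop :=
  ∃ t1, r t t1 ∧ C3 r t1 ∧ ∃ t2, r t1 t2 ∧ ∃ t3, r t2 t3 ∧ r t t3 ∧ C2 r t3
def NE (y : α) : ℕ → α → Prop
  | 0, v => ∃ w, r v w ∧ C3 r w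
  | n + 1, v => (∃ w, r v w ∧ C2 r w) ∨
      ∃ w, r v w ∧ C3 r w ∧ ∃ v', r w v' ∧ r v' y ∧ NE y n v'
def E2 (y : α) (n : ℕ) (t : α) : Prop := ∃ v, r t v ∧ r v y ∧ NE r y n v
def Phi (n : ℕ) : Prop :=
  ∃ y, ∀ t, t = y ∨ r t y ∨ C2 r t ∨ C3 r t ∨ E1 r t ∨ E2 r y n t
def Loc (t : α) : Prop := C2 r t ∨ C3 r t ∨ E1 r t

variable {r}
lemma C2.map {β : Type} {r' : β → β → Prop} (F : α → β) (hF : ∀ a b, r a b → r' (F a) (F b))
    {t : α} : C2 r t → C2 r' (F t)
  | ⟨a, h1, h2⟩ => ⟨F a, hF _ _ h1, hF _ _ h2⟩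

lemma C3.map {β : Type} {r' : β → β → Prop} (F : α → β) (hF : ∀ a b, r a b → r' (F a) (F b))
    {t : α} : C3 r t → C3 r' (F t)
  | ⟨a, h1, b, h2, h3⟩ => ⟨F a, hF _ _ h1, F b, hF _ _ h2, hF _ _ h3⟩

lemma E1.map {β : Type} {r' : β → β → Prop} (F : α → β) (hF : ∀ a b, r a b → r' (F a) (F b))
    {t : α} : E1 r t → E1 r' (F t)
  | ⟨a, h1, h2, b, h3, c, h4, h5, h6⟩ =>
    ⟨F a, hF _ _ h1, h2.map F hF, F b, hF _ _ h3, F c, hF _ _ h4, hF _ _ h5, h6.map F hF⟩

lemma NE.map {β : Type} {r' : β → β → Prop} (F : α → β) (hF : ∀ a b, r a b → r' (F a) (F b))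
    {y : α} : ∀ {n : ℕ} {t : α}, NE r y n t → NE r' (F y) n (F t)
  | 0, _, ⟨w, h1, h2⟩ => ⟨F w, hF _ _ h1, h2.map F hF⟩
  | _ + 1, _, .inl ⟨w, h1, h2⟩ => .inl ⟨F w, hF _ _ h1, h2.map F hF⟩
  | _ + 1, _, .inr ⟨w, h1, h2, v, h3, h4, h5⟩ =>
    .inr ⟨F w, hF _ _ h1, h2.map F hF, F v, hF _ _ h3, hF _ _ h4, h5.map F hF⟩

lemma Loc.map {β : Type} {r' : β → β → Prop} (F : α → β) (hF : ∀ a b, r a b → r' (F a) (F b))
    {t : α} : Loc r t → Loc r' (F t)
  | .inl h => .inl (h.map F hF)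
  | .inr (.inl h) => .inr (.inl (h.map F hF))
  | .inr (.inr h) => .inr (.inr (h.map F hF))

lemma Phi.map {β : Type} {r' : β → β → Prop} (F : α → β) (hF : ∀ a b, r a b → r' (F a) (F b))
    (hs : Function.Surjective F) {n : ℕ} : Phi r n → Phi r' n := by
  rintro ⟨y, h⟩
  refine ⟨F y, fun t => ?_⟩
  obtain ⟨t, rfl⟩ := hs t
  rcases h t with h | h | h | h | h | ⟨v, h1, h2, h3⟩
  · exact .inl (by rw [h])
  · exact .inr (.inl (hF _ _ h))
  · exact .inr (.inr (.inl (h.map F hF)))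
  · exact .inr (.inr (.inr (.inl (h.map F hF))))
  · exact .inr (.inr (.inr (.inr (.inl (h.map F hF)))))
  · exact .inr (.inr (.inr (.inr (.inr ⟨F v, hF _ _ h1, hF _ _ h2, h3.map F hF⟩))))

end sem

/-! ### completeness -/

variable {C : CM K T}

lemma c2_D (i : Fin 2) (a : G K T) : C2 (St C) (D i a) :=
  ⟨_, .cycD i a, by
    have := St.cycD (C := C) (i + 1) a
    rwa [show i + 1 + 1 = i by fin_cases i <;> rfl] at this⟩

lemma c3_Q (i : Fin 3) (a : G K T) : C3 (St C) (Q i a) :=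
  ⟨_, .cycQ i a, _, .cycQ _ a, by
    have := St.cycQ (C := C) (i + 1 + 1) a
    rwa [show i + 1 + 1 + 1 = i by fin_cases i <;> rfl] at this⟩

lemma c3_M (i : Fin 3) (a b w : G K T) : C3 (St C) (M i a b w) :=
  ⟨_, .cycM i a b w, _, .cycM _ a b w, by
    have := St.cycM (C := C) (i + 1 + 1) a b w
    rwa [show i + 1 + 1 + 1 = i by fin_cases i <;> rfl] at this⟩

lemma num_st : ∀ {a b : ℕ}, b < a → St C (num a : G K T) (num b)
  | _ + 1, 0, _ => .topS _
  | _ + 1, _ + 1, h => .cs (num_st (Nat.lt_of_succ_lt_succ h))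

lemma e1_of (F : G K T → G K T) (hF : ∀ a b, St C a b → St C (F a) (F b)) {t w : G K T}
    {a b : ℕ} (hab : a ≠ b) (h1 : St C t (F (M 0 (num a) (num b) w))) (h2 : St C t (F (D 0 w))) :
    E1 (St C) t := by
  rcases lt_or_gt_of_ne hab with h | h
  · exact ⟨_, h1, (c3_M _ _ _ _).map F hF, _, hF _ _ (.cM2 _ _ _ (num_st h)), _,
      hF _ _ (.eqM _ _), h2, (c2_D _ _).map F hF⟩
  · exact ⟨_, h1, (c3_M _ _ _ _).map F hF, _, hF _ _ (.cM1 _ _ _ (num_st h)), _,
      hF _ _ (.eqM _ _), h2, (c2_D _ _).map F hF⟩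

lemma loc_jk {t : G K T} (h : Jk t) : Loc (St C) t :=
  .inr (.inr (e1_of id (fun _ _ h => h) (a := 0) (b := 1) (by omega) (.junkM t h) (.junkD t h)))

lemma cntr (t : G K T) : Loc (St C) t ∨ (∃ n, t = num n) ∨ NC t := by
  induction t with
  | z => exact .inr (.inl ⟨0, rfl⟩)
  | e => exact .inr (.inr .e)
  | s a ih =>
    rcases ih with h | ⟨n, rfl⟩ | h
    · exact .inl (h.map s fun _ _ => .cs)
    · exact .inr (.inl ⟨n + 1, rfl⟩)
    · exact .inl (loc_jk (.s _ h))
  | P a => exact .inr (.inr (.P a))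
  | Q i a => exact .inl (.inr (.inl (c3_Q i a)))
  | D i a => exact .inl (.inl (c2_D i a))
  | M i a b w => exact .inl (.inr (.inl (c3_M i a b w)))
  | k τ xs w => exact .inr (.inr (.k τ xs w))

def spine : List (T × (Fin K → ℕ)) → G K T
  | [] => e
  | p :: L => k p.1 (fun j => num (p.2 j)) (spine L)

lemma spn (t : G K T) : Loc (St C) t ∨ (∃ L, t = spine L) ∨ NS t := by
  induction t with
  | z => exact .inr (.inr .z)
  | e => exact .inr (.inl ⟨[], rfl⟩)
  | s a => exact .inr (.inr (.s a))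
  | P a => exact .inr (.inr (.P a))
  | Q i a => exact .inl (.inr (.inl (c3_Q i a)))
  | D i a => exact .inl (.inl (c2_D i a))
  | M i a b w => exact .inl (.inr (.inl (c3_M i a b w)))
  | k τ xs w _ ih =>
    by_cases h1 : ∃ j, Loc (St C) (xs j)
    · obtain ⟨j, h⟩ := h1
      have := h.map (fun u => k τ (Function.update xs j u) w) (r' := St C) (fun a b hab => by
        have := St.ck1 (C := C) τ (Function.update xs j a) w j b (by simpa using hab)
        simpa using this)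
      exact .inl (by simpa using this)
    by_cases h2 : ∃ j, NC (xs j)
    · obtain ⟨j, h⟩ := h2
      exact .inl (loc_jk (.kc τ xs w j h))
    have h3 : ∀ j, ∃ n, xs j = num n := fun j => by
      rcases cntr (C := C) (xs j) with h | h | h
      · exact absurd ⟨j, h⟩ h1
      · exact h
      · exact absurd ⟨j, h⟩ h2
    choose x hx using h3
    rcases ih with h | ⟨L, rfl⟩ | h
    · exact .inl (h.map (k τ xs) fun _ _ => .ck2 τ xs)
    · exact .inr (.inl ⟨(τ, x) :: L, by simp [spine, funext hx]⟩)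
    · exact .inl (loc_jk (.kw τ xs w h))

lemma sp_num (a b : ℕ) : (sp a (num b) : G K T) = num (a + b) := by
  induction a with
  | zero => simp [sp]
  | succ a ih => rw [sp, ih, Nat.add_right_comm]; rfl

lemma befT_num (τ : T) (x : Fin K → ℕ) (j : Fin K) :
    befT C τ (fun j => num (x j)) j = num (C.bef τ x j) := by
  unfold befT CM.bef
  rw [← sp_num]
  split_ifs <;> rfl

lemma aftT_num (τ : T) (x : Fin K → ℕ) (j : Fin K) :
    aftT C τ (fun j => num (x j)) j = num (C.aft τ x j) := by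
  unfold aftT CM.aft
  rw [← sp_num]
  split_ifs <;> rfl

lemma loc_invalid : ∀ (L : List (T × (Fin K → ℕ))) (τ : T) (x : Fin K → ℕ),
    ¬ C.Valid (C.aft τ x) L → Loc (St C) (spine ((τ, x) :: L)) := by
  intro L
  induction L with
  | nil =>
    intro τ x h
    refine .inr (.inr (e1_of (k τ fun _ => z) (fun _ _ => .ck2 _ _) h ?_ (.endD _ _)))
    rw [← aftT_num]
    exact .endM _ _
  | cons p L ih =>
    intro τ x h
    by_cases h1 : C.aft τ x = C.bef p.1 p.2
    · exact (ih p.1 p.2 fun h2 => h ⟨h1, h2⟩).map (k τ _) fun _ _ => .ck2 τ _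
    · obtain ⟨j, hj⟩ := Function.ne_iff.1 h1
      refine .inr (.inr (e1_of (k τ fun _ => z) (fun _ _ => .ck2 _ _) hj ?_ (.testD _ _ _ _ _)))
      rw [← aftT_num, ← befT_num]
      exact .testM _ _ _ _ _ _

lemma ne_of : ∀ (n x : ℕ), x ≠ n → NE (St C) z n (P (num x) : G K T)
  | 0, 0, h => absurd rfl h
  | 0, _ + 1, _ => ⟨_, .decP _, c3_Q _ _⟩
  | _ + 1, 0, _ => .inl ⟨_, .zeroP, c2_D _ _⟩
  | n + 1, x + 1, h =>
    .inr ⟨_, .decP _, c3_Q _ _, _, .retQ _, .topP _, ne_of n x (by omega)⟩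

theorem complete {n : ℕ} (h : ¬ C.Acc n) : Phi (St C) n := by
  refine ⟨z, fun t => ?_⟩
  have hl : Loc (St C) t → t = z ∨ St C t z ∨ C2 (St C) t ∨ C3 (St C) t ∨ E1 (St C) t ∨
      E2 (St C) z n t := by
    rintro (h | h | h)
    · exact .inr (.inr (.inl h))
    · exact .inr (.inr (.inr (.inl h)))
    · exact .inr (.inr (.inr (.inr (.inl h))))
  rcases spn (C := C) t with h1 | ⟨L, rfl⟩ | h1
  · exact hl h1
  · cases L with
    | nil => exact .inr (.inl .topE)
    | cons p L =>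
      obtain ⟨τ, x⟩ := p
      by_cases h2 : τ = C.r
      · subst h2
        by_cases h3 : x C.j0 = n
        · exact hl (loc_invalid L _ x fun h4 => h ⟨x, L, h3, h4⟩)
        · exact .inr (.inr (.inr (.inr (.inr ⟨_, .rootP _ _, .topP _, ne_of n _ h3⟩))))
      · exact .inr (.inl (.topK _ _ _ h2))
  · cases h1 with
    | z => exact .inl rfl
    | s a => exact .inr (.inl (.topS a))
    | P a => exact .inr (.inl (.topP a))

end LeadOne
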