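import Mathlib
import Pool.Agent.Lib.lead.OneStep

set_option autoImplicit false

namespace LeadOne
open LeadCnt G

variable {K : ℕ} {T : Type} {C : CM K T} {B : ℕ}

lemma irr (hB : Bd C B) {a : G K T} (h : St C a a) : False := by
  have := st_rl hB h
  simp only [Rl] at this
  omega

lemma c2_pos (hB : Bd C B) {a : G K T} (h : C2 (St C) a) : 0 < wt wD a := by
  obtain ⟨b, h1, h2⟩ := h
  have h1 := st_rl hB h1
  have h2 := st_rl hB h2
  simp only [Rl] at h1 h2
  omega

lemma c3_pos (hB : Bd C B) {a : G K T} (h : C3 (St C) a) : 0 < wt wM a := by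
  obtain ⟨b, h1, c, h2, h3⟩ := h
  have h1 := st_rl hB h1
  have h2 := st_rl hB h2
  have h3 := st_rl hB h3
  simp only [Rl] at h1 h2 h3
  omega

lemma no_z {a : G K T} (h : St C z a) : False := by
  cases h with
  | junkM _ h => cases h
  | junkD _ h => cases h

lemma to_e {a : G K T} (h : St C a e) : False := by
  cases h

lemma to_k {a : G K T} {τ : T} {xs : Fin K → G K T} {w : G K T} (h : St C a (k τ xs w)) :
    ∃ xs' w', a = k τ xs' w' := by
  cases h <;> exact ⟨_, _, rfl⟩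

lemma nc_num {n : ℕ} (h : NC (num n : G K T)) : False := by
  cases n <;> cases h

lemma from_num : ∀ {n : ℕ} {b : G K T}, St C (num n) b → ∃ m, b = num m
  | 0, _, h => (no_z h).elim
  | n + 1, b, h => by
    change St C (s (num n)) b at h
    cases h with
    | topS => exact ⟨0, rfl⟩
    | junkM _ h => cases h with | s _ h => exact (nc_num h).elim
    | junkD _ h => cases h with | s _ h => exact (nc_num h).elim
    | cs h =>
      obtain ⟨m, rfl⟩ := from_num h
      exact ⟨m + 1, rfl⟩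

lemma wD_num (n : ℕ) : wt wD (num n : G K T) = 0 := by simp [num, wt_sp, wt, wD]
lemma wM_num (n : ℕ) : wt wM (num n : G K T) = 0 := by simp [num, wt_sp, wt, wM]

lemma wD_spine (L : List (T × (Fin K → ℕ))) : wt wD (spine L) = 0 := by
  induction L with
  | nil => rfl
  | cons p L ih => simp [spine, wt, wD_num, ih, wD]

lemma wM_spine (L : List (T × (Fin K → ℕ))) : wt wM (spine L) = 0 := by
  induction L with
  | nil => rfl
  | cons p L ih => simp [spine, wt, wM_num, ih, wM]

lemma ns_spine {L : List (T × (Fin K → ℕ))} (h : NS (spine L)) : False := by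
  cases L <;> cases h

lemma jk_spine {L : List (T × (Fin K → ℕ))} (h : Jk (spine L)) : False := by
  cases L with
  | nil => cases h
  | cons p L =>
    cases h with
    | kc _ _ _ j h => exact nc_num h
    | kw _ _ _ h => exact ns_spine h

def rest : List (T × (Fin K → ℕ)) → G K T
  | [] => z
  | _ :: L => spine L

lemma wD_rest (L : List (T × (Fin K → ℕ))) : wt wD (rest L) = 0 := by
  cases L
  · rfl
  · exact wD_spine _

lemma wM_rest (L : List (T × (Fin K → ℕ))) : wt wM (rest L) = 0 := by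
  cases L
  · rfl
  · exact wM_spine _

inductive MI : T → (Fin K → ℕ) → List (T × (Fin K → ℕ)) → G K T → Prop
  | top (τ : T) (x : Fin K → ℕ) (L : List (T × (Fin K → ℕ))) (u : G K T) :
      MI τ x L (k τ (fun _ => z) (M 0 u u (rest L)))
  | deep (τ : T) (x : Fin K → ℕ) (p : T × (Fin K → ℕ)) (L : List (T × (Fin K → ℕ)))
      (w : G K T) : MI p.1 p.2 L w → MI τ x (p :: L) (k τ (fun j => num (x j)) w)

inductive DI : T → (Fin K → ℕ) → List (T × (Fin K → ℕ)) → G K T → Prop
  | top (τ : T) (x : Fin K → ℕ) (L : List (T × (Fin K → ℕ))) :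
      DI τ x L (k τ (fun _ => z) (D 0 (rest L)))
  | deep (τ : T) (x : Fin K → ℕ) (p : T × (Fin K → ℕ)) (L : List (T × (Fin K → ℕ)))
      (w : G K T) : DI p.1 p.2 L w → DI τ x (p :: L) (k τ (fun j => num (x j)) w)

lemma MI.pos {τ : T} {x : Fin K → ℕ} {L : List (T × (Fin K → ℕ))} {v : G K T}
    (h : MI τ x L v) : 0 < wt wM v := by
  induction h with
  | top => simp only [wt, wM]; omega
  | deep _ _ _ _ _ _ ih => simp only [wt]; omega

lemma DI.zero {τ : T} {x : Fin K → ℕ} {L : List (T × (Fin K → ℕ))} {v : G K T}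
    (h : DI τ x L v) : wt wM v = 0 := by
  induction h with
  | top => simp [wt, wM, wM_rest]
  | deep _ _ _ _ _ _ ih => simp [wt, wM, wM_num, ih]

lemma MI.hd {τ : T} {x : Fin K → ℕ} {L : List (T × (Fin K → ℕ))} {v : G K T}
    (h : MI τ x L v) : ∃ xs w, v = k τ xs w := by
  cases h <;> exact ⟨_, _, rfl⟩

lemma DI.hd {τ : T} {x : Fin K → ℕ} {L : List (T × (Fin K → ℕ))} {v : G K T}
    (h : DI τ x L v) : ∃ xs w, v = k τ xs w := by
  cases h <;> exact ⟨_, _, rfl⟩

/-- one-step descendants of a valid spine -/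
lemma desc : ∀ (L : List (T × (Fin K → ℕ))) (τ : T) (x : Fin K → ℕ) (v : G K T),
    C.Valid (C.aft τ x) L → St C (spine ((τ, x) :: L)) v →
      (wt wM v = 0 ∧ wt wD v = 0) ∨ (MI τ x L v ∧ wt wD v = 0) ∨ DI τ x L v := by
  intro L
  induction L with
  | nil =>
    intro τ x v hv h
    have hj := fun h => jk_spine (L := [(τ, x)]) h
    simp only [spine] at h hj
    cases h with
    | topK => exact .inl ⟨rfl, rfl⟩
    | rootP => left; simp [wt, wM, wD, wM_num, wD_num]
    | endM =>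
      right; left
      rw [aftT_num, show C.aft τ x C.jh = C.h from hv]
      exact ⟨.top τ x [] _, by simp [wt, wD, wD_num]⟩
    | endD => exact .inr (.inr (.top τ x []))
    | junkM _ h => exact (hj h).elim
    | junkD _ h => exact (hj h).elim
    | ck1 _ _ _ j u h =>
      obtain ⟨m, rfl⟩ := from_num h
      left
      have h1 := wt_upd wM τ (fun j => num (x j)) e j (num m)
      have h2 := wt_upd wD τ (fun j => num (x j)) e j (num m)
      have h3 := wM_spine [(τ, x)]
      have h4 := wD_spine [(τ, x)]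
      simp only [spine, wM_num, wD_num] at h1 h2 h3 h4
      omega
    | ck2 _ _ h =>
      cases h with
      | topE => left; simp [wt, wM, wD, wM_num, wD_num]
      | junkM _ h => cases h
      | junkD _ h => cases h
  | cons p L ih =>
    intro τ x v hv h
    have hj := fun h => jk_spine (L := (τ, x) :: p :: L) h
    rw [spine, spine] at h hj
    cases h with
    | topK => exact .inl ⟨rfl, rfl⟩
    | rootP => left; simp [wt, wM, wD, wM_num, wD_num]
    | testM _ _ _ _ _ j =>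
      right; left
      rw [aftT_num, befT_num, show C.aft τ x = C.bef p.1 p.2 from hv.1]
      exact ⟨.top τ x (p :: L) _, by simp [wt, wD, wD_num, wD_spine]⟩
    | testD => exact .inr (.inr (.top τ x (p :: L)))
    | junkM _ h => exact (hj h).elim
    | junkD _ h => exact (hj h).elim
    | ck1 _ _ _ j u h =>
      obtain ⟨m, rfl⟩ := from_num h
      left
      have h1 := wt_upd wM τ (fun j => num (x j)) (spine (p :: L)) j (num m)
      have h2 := wt_upd wD τ (fun j => num (x j)) (spine (p :: L)) j (num m)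
      have h3 := wM_spine ((τ, x) :: p :: L)
      have h4 := wD_spine ((τ, x) :: p :: L)
      simp only [spine, wM_num, wD_num] at h1 h2 h3 h4 ⊢
      omega
    | ck2 _ _ h =>
      rcases ih p.1 p.2 _ hv.2 h with ⟨h1, h2⟩ | ⟨h1, h2⟩ | h1
      · left; simp [wt, wM, wD, wM_num, wD_num, h1, h2]
      · exact .inr (.inl ⟨.deep _ _ _ _ _ h1, by simp [wt, wD, wD_num, h2]⟩)
      · exact .inr (.inr (.deep _ _ _ _ _ h1))

def Low (w w' : G K T) : Prop :=
  ∃ r, ((w = e ∧ r = z) ∨ ∃ τ xs, w = k τ xs r) ∧ (w' = D 0 r ∨ ∃ u u', w' = M 0 u u' r)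

lemma kk {τ τ' : T} {xs xs' : Fin K → G K T} {w w' : G K T}
    (h : St C (k τ xs w) (k τ' xs' w')) :
    (xs' = (fun _ => z) ∧ Low w w') ∨ (w = w' ∧ ∃ j, St C (xs j) (xs' j)) ∨
      (xs = xs' ∧ St C w w') := by
  cases h with
  | testM => exact .inl ⟨rfl, _, .inr ⟨_, _, rfl⟩, .inr ⟨_, _, rfl⟩⟩
  | testD => exact .inl ⟨rfl, _, .inr ⟨_, _, rfl⟩, .inl rfl⟩
  | endM => exact .inl ⟨rfl, _, .inl ⟨rfl, rfl⟩, .inr ⟨_, _, rfl⟩⟩
  | endD => exact .inl ⟨rfl, _, .inl ⟨rfl, rfl⟩, .inl rfl⟩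
  | ck1 _ _ _ j u h => exact .inr (.inl ⟨rfl, j, by simpa using h⟩)
  | ck2 _ _ h => exact .inr (.inr ⟨rfl, h⟩)

lemma from_M {i : Fin 3} {a b w t : G K T} (h : St C (M i a b w) t) :
    t = M (i + 1) a b w ∨ (i = 0 ∧ a = b ∧ t = D 0 w) ∨ (∃ a', St C a a' ∧ t = M i a' b w) ∨
      (∃ b', St C b b' ∧ t = M i a b' w) ∨ (∃ w', St C w w' ∧ t = M i a b w') := by
  cases h with
  | cycM => exact .inl rfl
  | eqM => exact .inr (.inl ⟨rfl, rfl, rfl⟩)
  | junkM _ h => cases h
  | junkD _ h => cases h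
  | cM1 _ _ _ h => exact .inr (.inr (.inl ⟨_, h, rfl⟩))
  | cM2 _ _ _ h => exact .inr (.inr (.inr (.inl ⟨_, h, rfl⟩)))
  | cM3 _ _ _ h => exact .inr (.inr (.inr (.inr ⟨_, h, rfl⟩)))

lemma from_D {i : Fin 2} {w t : G K T} (h : St C (D i w) t) :
    t = D (i + 1) w ∨ ∃ w', St C w w' ∧ t = D i w' := by
  cases h with
  | cycD => exact .inl rfl
  | junkM _ h => cases h
  | junkD _ h => cases h
  | cD _ h => exact .inr ⟨_, h, rfl⟩

lemma from_Q {i : Fin 3} {w t : G K T} (h : St C (Q i w) t) :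
    t = Q (i + 1) w ∨ t = P w ∨ ∃ w', St C w w' ∧ t = Q i w' := by
  cases h with
  | cycQ => exact .inl rfl
  | retQ => exact .inr (.inl rfl)
  | junkM _ h => cases h
  | junkD _ h => cases h
  | cQ _ h => exact .inr (.inr ⟨_, h, rfl⟩)

lemma from_k {τ : T} {xs : Fin K → G K T} {w t : G K T} (h : St C (k τ xs w) t) :
    t = z ∨ (∃ a, t = P a) ∨ t = M 0 z (s z) z ∨ t = D 0 z ∨ ∃ xs' w', t = k τ xs' w' := by
  cases h with
  | topK => exact .inl rfl
  | rootP => exact .inr (.inl ⟨_, rfl⟩)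
  | junkM => exact .inr (.inr (.inl rfl))
  | junkD => exact .inr (.inr (.inr (.inl rfl)))
  | _ => exact .inr (.inr (.inr (.inr ⟨_, _, rfl⟩)))

lemma from_P {a t : G K T} (h : St C (P a) t) :
    t = z ∨ (∃ a', a = s a' ∧ t = Q 0 a') ∨ (a = z ∧ t = D 0 z) ∨ ∃ a', St C a a' ∧ t = P a' := by
  cases h with
  | topP => exact .inl rfl
  | decP => exact .inr (.inl ⟨_, rfl, rfl⟩)
  | zeroP => exact .inr (.inr (.inl ⟨rfl, rfl⟩))
  | junkM _ h => cases h
  | junkD _ h => cases h
  | cP h => exact .inr (.inr (.inr ⟨_, h, rfl⟩))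

lemma M_D {i : Fin 3} {a b w r : G K T} (h : St C (M i a b w) (D 0 r)) :
    i = 0 ∧ a = b ∧ w = r := by
  rcases from_M h with h | ⟨h1, h2, h3⟩ | ⟨_, _, h⟩ | ⟨_, _, h⟩ | ⟨_, _, h⟩
  · cases h
  · cases h3; exact ⟨h1, h2, rfl⟩
  all_goals cases h

lemma D_D {w r : G K T} (h : St C (D 0 w) (D 0 r)) : St C w r := by
  rcases from_D h with h | ⟨_, h1, h⟩
  · simp at h
  · cases h; exact h1

lemma md (hB : Bd C B) {u r t : G K T} (h1 : St C (M 0 u u r) t) (h2 : St C t (D 0 r)) :
    False := by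
  rcases from_M h1 with rfl | ⟨_, _, rfl⟩ | ⟨_, h, rfl⟩ | ⟨_, h, rfl⟩ | ⟨_, h, rfl⟩
  · simpa using (M_D h2).1
  · exact irr hB h2
  · rw [(M_D h2).2.1] at h; exact irr hB h
  · rw [← (M_D h2).2.1] at h; exact irr hB h
  · rw [(M_D h2).2.2] at h; exact irr hB h

lemma spine_hd (L : List (T × (Fin K → ℕ))) :
    spine L = e ∨ ∃ τ xs w, spine L = k τ xs w := by
  cases L
  · exact .inl rfl
  · exact .inr ⟨_, _, _, rfl⟩

lemma M_spine {i : Fin 3} {a b w : G K T} {L : List (T × (Fin K → ℕ))}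
    (h : St C (M i a b w) (spine L)) : False := by
  rcases spine_hd L with h1 | ⟨_, _, _, h1⟩ <;> rw [h1] at h
  · exact to_e h
  · obtain ⟨_, _, h⟩ := to_k h
    cases h

lemma low_spine {w : G K T} {L : List (T × (Fin K → ℕ))} (h : Low w (spine L)) : False := by
  obtain ⟨r, _, h | ⟨_, _, h⟩⟩ := h <;>
  rcases spine_hd L with h1 | ⟨_, _, _, h1⟩ <;> rw [h1] at h <;> cases h

lemma MI.back (hB : Bd C B) {τ : T} {x : Fin K → ℕ} {L : List (T × (Fin K → ℕ))} {v : G K T}
    (h : MI τ x L v) (h1 : St C v (spine ((τ, x) :: L))) : False := by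
  induction h with
  | top τ x L u =>
    rcases kk h1 with ⟨_, h⟩ | ⟨h, _⟩ | ⟨_, h⟩
    · exact low_spine h
    · rcases spine_hd L with h1 | ⟨_, _, _, h1⟩ <;> rw [h1] at h <;> cases h
    · exact M_spine h
  | deep τ x p L w hw ih =>
    rcases kk h1 with ⟨_, h⟩ | ⟨_, _, h⟩ | ⟨_, h⟩
    · exact low_spine h
    · exact irr hB h
    · exact ih h

/-- the lower part of an `MI` term -/
lemma MI.low (hB : Bd C B) {τ : T} {x : Fin K → ℕ} {L : List (T × (Fin K → ℕ))} {v : G K T}
    (h : MI τ x L v) : ∃ xs w, v = k τ xs w ∧ w ≠ spine L ∧ ¬ St C w (spine L) := by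
  cases h with
  | top _ _ _ u =>
    refine ⟨_, _, rfl, fun h => ?_, M_spine⟩
    rcases spine_hd L with h1 | ⟨_, _, _, h1⟩ <;> rw [h1] at h <;> cases h
  | deep _ _ p L w hw =>
    refine ⟨_, _, rfl, fun h => ?_, hw.back hB⟩
    have := hw.pos
    rw [h, wM_spine] at this
    omega

lemma spine_ne_z (L : List (T × (Fin K → ℕ))) : spine L ≠ z := by
  rcases spine_hd L with h1 | ⟨_, _, _, h1⟩ <;> rw [h1] <;> simp

lemma low_k {w : G K T} {τ : T} {xs : Fin K → G K T} {w' : G K T} (h : Low w (k τ xs w')) :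
    False := by
  obtain ⟨r, _, h | ⟨_, _, h⟩⟩ := h <;> cases h

lemma low_M {i : Fin 3} {a b w w' : G K T} (h : Low (M i a b w) w') : False := by
  obtain ⟨r, ⟨h, _⟩ | ⟨_, _, h⟩, _⟩ := h <;> cases h

lemma low_D {i : Fin 2} {w w' : G K T} (h : Low (D i w) w') : False := by
  obtain ⟨r, ⟨h, _⟩ | ⟨_, _, h⟩, _⟩ := h <;> cases h

lemma k_D {τ : T} {xs : Fin K → G K T} {w : G K T} {L : List (T × (Fin K → ℕ))}
    (h : St C (k τ xs w) (D 0 (spine L))) : False := by
  rcases from_k h with h | ⟨_, h⟩ | h | h | ⟨_, _, h⟩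
  · cases h
  · cases h
  · cases h
  · exact spine_ne_z L (by simpa using h)
  · cases h

lemma no_path (hB : Bd C B) {τ : T} {x : Fin K → ℕ} {L : List (T × (Fin K → ℕ))}
    {t1 : G K T} (h1 : MI τ x L t1) : ∀ {t2 t3 : G K T}, DI τ x L t3 → St C t1 t2 →
      St C t2 t3 → False := by
  induction h1 with
  | top τ x L u =>
    intro t2 t3 h3 s1 s2
    obtain ⟨a3, w3, rfl⟩ := h3.hd
    obtain ⟨a2, w2, rfl⟩ := to_k s2
    rcases kk s1 with ⟨_, h⟩ | ⟨_, _, h⟩ | ⟨rfl, r1⟩
    · exact low_M h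
    · exact no_z h
    have nk : ∀ τ xs w, w2 ≠ k τ xs w := by
      rintro τ xs w rfl
      obtain ⟨_, _, h⟩ := to_k r1
      cases h
    rcases kk s2 with ⟨_, r, ⟨rfl, _⟩ | ⟨_, _, rfl⟩, _⟩ | ⟨_, _, h⟩ | ⟨_, r2⟩
    · exact to_e r1
    · exact nk _ _ _ rfl
    · exact no_z h
    cases h3 with
    | top => exact md hB r1 r2
    | deep _ _ p L _ h =>
      obtain ⟨_, _, rfl⟩ := h.hd
      obtain ⟨_, _, rfl⟩ := to_k r2
      exact nk _ _ _ rfl
  | deep τ x p L w1 hw ih =>
    intro t2 t3 h3 s1 s2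
    obtain ⟨a3, w3, rfl⟩ := h3.hd
    obtain ⟨a2, w2, rfl⟩ := to_k s2
    obtain ⟨b1, v1, rfl, f1, f2⟩ := hw.low hB
    cases h3 with
    | top =>
      change St C _ (k τ _ (D 0 (spine L))) at s2
      rcases kk s1 with ⟨rfl, r, ⟨h, _⟩ | ⟨_, _, h⟩, h'⟩ | ⟨rfl, _⟩ | ⟨rfl, r1⟩
      · cases h
      · cases h
        rcases kk s2 with ⟨_, h⟩ | ⟨_, _, h⟩ | ⟨_, r2⟩
        · rcases h' with rfl | ⟨_, _, rfl⟩
          · exact low_D h
          · exact low_M h
        · exact no_z h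
        · rcases h' with rfl | ⟨_, _, rfl⟩
          · exact f2 (D_D r2)
          · exact f1 (M_D r2).2.2
      · rcases kk s2 with ⟨_, r, ⟨h, _⟩ | ⟨_, _, h⟩, h'⟩ | ⟨h, _⟩ | ⟨_, r2⟩
        · cases h
        · cases h
          rcases h' with h | ⟨_, _, h⟩
          · exact f1 (by simpa using h.symm)
          · cases h
        · cases h
        · exact k_D r2
      · rcases kk s2 with ⟨_, r, ⟨rfl, _⟩ | ⟨_, _, rfl⟩, h'⟩ | ⟨rfl, _⟩ | ⟨_, r2⟩
        · exact to_e r1
        · rcases h' with h | ⟨_, _, h⟩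
          · obtain rfl : spine L = r := by simpa using h
            rcases kk r1 with ⟨_, h⟩ | ⟨h, _⟩ | ⟨_, h⟩
            · exact low_spine h
            · exact f1 h
            · exact f2 h
          · cases h
        · exact k_D r1
        · rcases from_k r1 with rfl | ⟨_, rfl⟩ | rfl | rfl | ⟨_, _, rfl⟩
          · exact no_z r2
          · rcases from_P r2 with h | ⟨_, _, h⟩ | ⟨_, h⟩ | ⟨_, _, h⟩
            · cases h
            · cases h
            · exact spine_ne_z L (by simpa using h)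
            · cases h
          · simpa using (M_D r2).2.1
          · exact no_z (D_D r2)
          · exact k_D r2
    | deep _ _ _ _ _ h3 =>
      obtain ⟨b3, v3, rfl⟩ := h3.hd
      rcases kk s1 with ⟨rfl, r, _, h'⟩ | ⟨rfl, j, h⟩ | ⟨rfl, r1⟩
      · rcases kk s2 with ⟨_, h⟩ | ⟨_, _, h⟩ | ⟨_, r2⟩
        · exact low_k h
        · exact no_z h
        · obtain ⟨_, _, h⟩ := to_k r2
          rcases h' with rfl | ⟨_, _, rfl⟩ <;> cases h
      · rcases kk s2 with ⟨_, h⟩ | ⟨h, _⟩ | ⟨rfl, _⟩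
        · exact low_k h
        · have := hw.pos
          rw [h, h3.zero] at this
          omega
        · exact irr hB h
      · rcases kk s2 with ⟨_, h⟩ | ⟨_, _, h⟩ | ⟨_, r2⟩
        · exact low_k h
        · exact irr hB h
        · exact ih h3 r1 r2

lemma not_ne (hB : Bd C B) : ∀ n : ℕ, ¬ NE (St C) z n (P (num n) : G K T)
  | 0 => by
    rintro ⟨w, h1, h2⟩
    have := c3_pos hB h2
    rcases from_P h1 with rfl | ⟨_, h, _⟩ | ⟨_, rfl⟩ | ⟨_, h, _⟩
    · simp [wt, wM] at this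
    · cases h
    · simp [wt, wM] at this
    · exact no_z h
  | n + 1 => by
    rintro (⟨w, h1, h2⟩ | ⟨w, h1, h2, v, h3, h4, h5⟩)
    · have := c2_pos hB h2
      rcases from_P h1 with rfl | ⟨_, h, rfl⟩ | ⟨h, _⟩ | ⟨_, h, rfl⟩
      · simp [wt, wD] at this
      · cases h
        have h := wD_num (K := K) (T := T) n
        simp only [num] at h
        simp [wt, wD, h] at this
      · cases h
      · obtain ⟨m, rfl⟩ := from_num h
        simp [wt, wD, wD_num] at this
    · have := c3_pos hB h2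
      rcases from_P h1 with rfl | ⟨_, h, rfl⟩ | ⟨h, _⟩ | ⟨_, h, rfl⟩
      · simp [wt, wM] at this
      · cases h
        rcases from_Q h3 with rfl | rfl | ⟨_, _, rfl⟩
        · cases h4
        · exact not_ne hB n h5
        · cases h4
      · cases h
      · obtain ⟨m, rfl⟩ := from_num h
        simp [wt, wM, wM_num] at this

theorem sound (hB : Bd C B) {n : ℕ} (h : C.Acc n) : ¬ Phi (St C) n := by
  obtain ⟨x, L, rfl, hv⟩ := h
  rintro ⟨y, hy⟩
  obtain rfl : z = y := by
    rcases hy z with h | h | ⟨_, h, _⟩ | ⟨_, h, _⟩ | ⟨_, h, _⟩ | ⟨_, h, _⟩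
    · exact h
    all_goals exact (no_z h).elim
  have rz : ∀ xs w, ¬ St C (k C.r xs w) z := by
    intro xs w h
    generalize hτ : C.r = τ at h
    cases h with
    | topK _ _ _ h => exact h hτ.symm
  rcases hy (spine ((C.r, x) :: L)) with h | h | h | h | ⟨t1, s1, c3, t2, s2, t3, s3, s4, c2⟩ |
    ⟨v, h1, h2, h3⟩
  · cases h
  · exact rz _ _ h
  · have := c2_pos hB h
    rw [wD_spine] at this
    omega
  · have := c3_pos hB h
    rw [wM_spine] at this
    omega
  · have c3 := c3_pos hB c3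
    have c2 := c2_pos hB c2
    rcases desc L _ x _ hv s1 with h | ⟨h, _⟩ | h
    · omega
    · rcases desc L _ x _ hv s4 with h' | h' | h'
      · omega
      · omega
      · exact no_path hB h h' s2 s3
    · have := h.zero
      omega
  · have hj := fun h => jk_spine (L := (C.r, x) :: L) h
    rw [spine] at h1 hj
    have : v = P (num (x C.j0)) := by
      generalize hτ : C.r = τ at h1 hj
      generalize spine L = w at h1 hj
      cases h1 with
      | topK => exact (no_z h2).elim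
      | rootP => rfl
      | junkM _ h => exact (hj h).elim
      | junkD _ h => exact (hj h).elim
      | _ => subst hτ; exact (rz _ _ h2).elim
    subst this
    exact not_ne hB _ h3

theorem phi_iff [Finite T] (C : CM K T) (n : ℕ) : Phi (St C) n ↔ ¬ C.Acc n := by
  obtain ⟨B1, h1⟩ := (Set.finite_range fun p : T × Fin K => C.al p.1 p.2 + C.be p.1 p.2).bddAbove
  have hB : Bd C (B1 + C.h) := by
    refine ⟨fun τ j => ?_, by omega⟩
    have := h1 ⟨(τ, j), rfl⟩
    simp only at this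
    omega
  exact ⟨fun h h' => sound hB h' h, complete⟩

end LeadOne
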