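import Mathlib

set_option autoImplicit false

namespace LeadPlactic

/-- the Knuth relations `xzy = zxy` (`x ≤ y < z`) and `yxz = yzx` (`x < y ≤ z`) -/
def Knuth (A : Type) [LinearOrder A] (u v : FreeMonoid A) : Prop :=
  (∃ x y z : A, x ≤ y ∧ y < z ∧ u = FreeMonoid.ofList [x, z, y] ∧ v = FreeMonoid.ofList [z, x, y]) ∨
  (∃ x y z : A, x < y ∧ y ≤ z ∧ u = FreeMonoid.ofList [y, x, z] ∧ v = FreeMonoid.ofList [y, z, x])

/-- the plactic monoid `P(A)` -/
abbrev Plactic (A : Type) [LinearOrder A] : Type := PresentedMonoid (Knuth A)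

/-- the generator of `P(A)` given by a letter -/
def gen {A : Type} [LinearOrder A] (a : A) : Plactic A := PresentedMonoid.of (Knuth A) a

end LeadPlactic
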