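import Mathlib
import Pool.Agent.Lib.lead.PlacticDef

set_option autoImplicit false

namespace LeadPlactic
variable {A : Type} [LinearOrder A]

def mk (l : List A) : Plactic A := PresentedMonoid.mk (Knuth A) (FreeMonoid.ofList l)

theorem mk_append (u v : List A) : mk (u ++ v) = mk u * mk v := rfl
theorem mk_nil : mk ([] : List A) = 1 := rfl
theorem mk_single (a : A) : mk [a] = gen a := rfl
theorem mk_cons (a : A) (l : List A) : mk (a :: l) = gen a * mk l := rfl
theorem mk_surj (x : Plactic A) : ∃ l, mk l = x := by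
  obtain ⟨w, rfl⟩ := PresentedMonoid.surjective_mk x
  exact ⟨w.toList, rfl⟩
theorem mk_replicate (n : ℕ) (a : A) : mk (List.replicate n a) = gen a ^ n := by
  induction n with
  | zero => rfl
  | succ n ih => rw [List.replicate_succ, mk_cons, ih, pow_succ']

theorem rel {u v : FreeMonoid A} (h : Knuth A u v) :
    PresentedMonoid.mk (Knuth A) u = PresentedMonoid.mk (Knuth A) v :=
  Quotient.sound (ConGen.Rel.of _ _ h)

theorem k1 {x y z : A} (h1 : x ≤ y) (h2 : y < z) :
    gen x * gen z * gen y = gen z * gen x * gen y :=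
  rel (Or.inl ⟨x, y, z, h1, h2, rfl, rfl⟩)

theorem k2 {x y z : A} (h1 : x < y) (h2 : y ≤ z) :
    gen y * gen x * gen z = gen y * gen z * gen x :=
  rel (Or.inr ⟨x, y, z, h1, h2, rfl, rfl⟩)

/-- content -/
def cont : Plactic A →* Multiplicative (Multiset A) :=
  PresentedMonoid.lift (fun a => Multiplicative.ofAdd {a}) (by
    rintro _ _ (⟨x, y, z, _, _, rfl, rfl⟩ | ⟨x, y, z, _, _, rfl, rfl⟩) <;>
      simp only [FreeMonoid.lift_ofList, List.map, List.prod_cons, List.prod_nil] <;> ac_rfl)

def ct (x : Plactic A) : Multiset A := Multiplicative.toAdd (cont x)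

@[simp] theorem ct_mul (x y : Plactic A) : ct (x * y) = ct x + ct y := by simp [ct]
@[simp] theorem ct_one : ct (1 : Plactic A) = 0 := by simp [ct]
@[simp] theorem ct_gen (a : A) : ct (gen a) = {a} := rfl
@[simp] theorem ct_pow (x : Plactic A) (n : ℕ) : ct (x ^ n) = n • ct x := by simp [ct]
@[simp] theorem ct_mk (l : List A) : ct (mk l) = (l : Multiset A) := by
  induction l with
  | nil => rfl
  | cons a l ih => rw [mk_cons, ct_mul, ih]; rfl

theorem ct_eq_zero {x : Plactic A} (h : ct x = 0) : x = 1 := by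
  obtain ⟨l, rfl⟩ := mk_surj x
  simp at h; rw [h]; rfl

theorem gen_inj {a b : A} (h : gen a = gen b) : a = b := by simpa using congrArg ct h

/-- longest weakly increasing subword with letters `≥ p` -/
def lis : List A → A → ℕ
  | [], _ => 0
  | x :: w, p => max (lis w p) (if p ≤ x then 1 + lis w x else 0)

theorem lis_anti (w : List A) {p q : A} (h : p ≤ q) : lis w q ≤ lis w p := by
  induction w with
  | nil => simp [lis]
  | cons x w ih =>
    simp only [lis]
    split_ifs with h1 h2 h2
    · omega
    · exact absurd (h.trans h1) h2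
    · omega
    · omega

theorem lis_congr (u : List A) {v w : List A} (h : lis v = lis w) : lis (u ++ v) = lis (u ++ w) := by
  induction u with
  | nil => exact h
  | cons x u ih => funext p; simp only [List.cons_append, lis, ih]

theorem lis_mk {u v : List A} (h : mk u = mk v) : lis u = lis v := by
  let c : Con (FreeMonoid A) :=
    { r := fun u v => ∀ t, lis (u.toList ++ t) = lis (v.toList ++ t)
      iseqv := ⟨fun _ _ => rfl, fun h t => (h t).symm, fun h1 h2 t => (h1 t).trans (h2 t)⟩
      mul' := fun {a b c d} h1 h2 t => by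
        simp only [FreeMonoid.toList_mul, List.append_assoc]
        rw [h1, lis_congr _ (h2 t)] }
  have hle : conGen (Knuth A) ≤ c := by
    refine Con.conGen_le.2 ?_
    rintro _ _ (⟨x, y, z, h1, h2, rfl, rfl⟩ | ⟨x, y, z, h1, h2, rfl, rfl⟩) t
    · funext p
      have a1 := lis_anti t h2.le
      have n1 : ¬ z ≤ y := not_le.2 h2
      have n2 : ¬ z ≤ x := not_le.2 (h1.trans_lt h2)
      have n3 : x ≤ z := h1.trans h2.le
      simp only [FreeMonoid.toList_ofList, List.cons_append, List.nil_append, lis, h1, n1, n2, n3,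
        if_true, if_false]
      split_ifs <;> omega
    · funext p
      have n1 : ¬ y ≤ x := not_le.2 h1
      have n2 : ¬ z ≤ x := not_le.2 (h1.trans_le h2)
      have n3 : x ≤ z := h1.le.trans h2
      simp only [FreeMonoid.toList_ofList, List.cons_append, List.nil_append, lis, h2, n1, n2, n3,
        if_true, if_false]
      by_cases hp : p ≤ x
      · simp only [hp, hp.trans h1.le, hp.trans n3, if_true]; omega
      · simp only [hp, if_false]
        split_ifs <;> omega
  have := hle (Quotient.exact h) []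
  simpa using this

theorem lis_le (w : List A) (p : A) : lis w p ≤ w.length := by
  induction w generalizing p with
  | nil => simp [lis]
  | cons x w ih =>
    have := ih p; have := ih x
    simp only [lis, List.length_cons]; split_ifs <;> omega

theorem lis_lt (u v : List A) {x y : A} (h : y < x) (p : A) :
    lis (u ++ x :: y :: v) p < (u ++ x :: y :: v).length := by
  induction u generalizing p with
  | nil =>
    have := lis_le v p; have := lis_le v x; have := lis_le v y
    simp only [List.nil_append, lis, not_le.2 h, if_false, List.length_cons]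
    split_ifs <;> omega
  | cons z u ih =>
    have := ih p; have := ih z
    simp only [List.cons_append, lis, List.length_cons]; split_ifs <;> omega

theorem lis_sorted {l : List A} (t : List A) (hl : l.Pairwise (· ≤ ·)) {p : A}
    (hp : ∀ x ∈ l, p ≤ x) : l.length ≤ lis (l ++ t) p := by
  induction l generalizing p with
  | nil => simp
  | cons x l ih =>
    rw [List.pairwise_cons] at hl
    have := ih hl.2 hl.1
    simp only [List.cons_append, lis, hp x (by simp), if_true, List.length_cons]; omega

theorem lis_rep {c x : A} (h : c < x) (j : ℕ) : lis (List.replicate j c) x = 0 := by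
  induction j with
  | zero => rfl
  | succ j ih => simp [List.replicate_succ, lis, ih, not_le.2 h]

theorem lis_above {c : A} {l : List A} (hl : ∀ x ∈ l, c < x) (j : ℕ) :
    (∀ x, c < x → lis (l ++ List.replicate j c) x ≤ l.length) ∧
      ∀ p, lis (l ++ List.replicate j c) p ≤ max l.length j := by
  induction l with
  | nil => exact ⟨fun x hx => by simp [lis_rep hx], fun p => by
      simpa using lis_le (List.replicate j c) p⟩
  | cons y l ih =>
    obtain ⟨i1, i2⟩ := ih fun x hx => hl x (by simp [hx])
    have := i1 y (hl y (by simp))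
    refine ⟨fun x hx => ?_, fun p => ?_⟩
    · have := i1 x hx
      simp only [List.cons_append, lis, List.length_cons]; split_ifs <;> omega
    · have := i2 p
      simp only [List.cons_append, lis, List.length_cons]; split_ifs <;> omega

theorem move {c x : A} {l : List A} (hc : c < x) (hl : (x :: l).Pairwise (· ≤ ·)) :
    gen x * mk l * gen c = gen x * gen c * mk l := by
  induction l generalizing x with
  | nil => simp [mk_nil]
  | cons y l ih =>
    rw [List.pairwise_cons] at hl
    have hxy := hl.1 y (by simp)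
    rw [mk_cons, mul_assoc (gen x), ih (hc.trans_le hxy) hl.2, ← mul_assoc, ← mul_assoc,
      ← k2 hc hxy, mul_assoc]

theorem E_iff {c : A} {l : List A} (hc : ∀ x ∈ l, c < x) (hl : l.Pairwise (· ≤ ·)) (k : ℕ) :
    mk l * gen c ^ k * gen c = gen c * mk l * gen c ^ k ↔ l.length ≤ k := by
  constructor
  · intro h
    by_contra hk
    have e : mk (l ++ List.replicate (k + 1) c) = mk ((c :: l) ++ List.replicate k c) := by
      rw [mk_append, mk_append, mk_cons, mk_replicate, mk_replicate, pow_succ, ← mul_assoc, h]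
    have h1 := congrFun (lis_mk e) c
    have h2 := (lis_above hc (k + 1)).2 c
    have h3 := lis_sorted (l := c :: l) (List.replicate k c)
      (List.pairwise_cons.2 ⟨fun x hx => (hc x hx).le, hl⟩) (p := c) (by
        intro x hx
        rcases List.mem_cons.1 hx with rfl | hx
        · exact le_rfl
        · exact (hc x hx).le)
    simp only [List.length_cons] at h3
    omega
  · intro hk
    induction l generalizing k with
    | nil => simp [mk_nil, ← pow_succ, ← pow_succ']
    | cons x l ih =>
      obtain ⟨k, rfl⟩ : ∃ k', k = k' + 1 := ⟨k - 1, by simp at hk; omega⟩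
      have hx := hc x (by simp)
      have m := move hx hl
      have i := ih (fun y hy => hc y (by simp [hy])) (List.pairwise_cons.1 hl).2 k
        (by simpa using hk)
      have k' := k1 (le_refl c) hx
      rw [mk_cons]
      calc gen x * mk l * gen c ^ (k + 1) * gen c
          = (gen x * mk l * gen c) * (gen c ^ k * gen c) := by
            rw [pow_succ']; simp only [mul_assoc]
        _ = gen x * gen c * (mk l * gen c ^ k * gen c) := by rw [m]; simp only [mul_assoc]
        _ = (gen x * gen c * gen c) * mk l * gen c ^ k := by rw [i]; simp only [mul_assoc]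
        _ = gen c * (gen x * gen c * mk l) * gen c ^ k := by rw [← k']; simp only [mul_assoc]
        _ = _ := by rw [← m, pow_succ']; simp only [mul_assoc]

/-! ### first-order shaped predicates -/

def IsGen (x : Plactic A) : Prop := ¬ x = 1 ∧ ∀ y z, x = y * z → ¬ y = 1 → z = 1
def Occ (x p : Plactic A) : Prop := ∃ y z, p = y * x * z
def Pw (u x : Plactic A) : Prop := ∀ y, IsGen y → Occ y u → y = x
def Lt (x y : Plactic A) : Prop := ¬ x = y ∧ x * y * x = y * x * x
def Row (c r : Plactic A) : Prop :=
  (∀ x, IsGen x → Occ x r → Lt c x) ∧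
    ∀ x y, IsGen x → IsGen y → Occ (x * y) r → ¬ Lt y x
def Len (c r w : Plactic A) : Prop :=
  r * w * c = c * r * w ∧ ∀ w', w = w' * c → ¬ r * w' * c = c * r * w'
def Cnt (c r x u : Plactic A) : Prop :=
  ∃ p s q, r = p * s * q ∧ Pw s x ∧ ¬ Occ x p ∧ ¬ Occ x q ∧ Len c s u
def MulP (c w u v : Plactic A) : Prop :=
  ∃ r r', Row c r ∧ Row c r' ∧ Len c r w ∧ Len c r' v ∧
    ∀ x, IsGen x → ¬ (¬ Occ x r ∧ ¬ Occ x r') → Cnt c r x u ∧ Cnt c r' x c

theorem isGen_iff {x : Plactic A} : IsGen x ↔ ∃ a, x = gen a := by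
  constructor
  · rintro ⟨h1, h2⟩
    obtain ⟨l, rfl⟩ := mk_surj x
    cases l with
    | nil => exact absurd rfl h1
    | cons a l =>
      have := h2 (gen a) (mk l) rfl fun h => by simpa using congrArg ct h
      exact ⟨a, by rw [mk_cons, this, mul_one]⟩
  · rintro ⟨a, rfl⟩
    refine ⟨fun h => by simpa using congrArg ct h, fun y z h hy => ct_eq_zero ?_⟩
    have h1 := congrArg (fun t => Multiset.card (ct t)) h
    have h2 : Multiset.card (ct y) ≠ 0 := fun h => hy (ct_eq_zero (Multiset.card_eq_zero.1 h))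
    simp at h1
    exact Multiset.card_eq_zero.1 (by omega)

theorem occ_iff {a : A} {p : Plactic A} : Occ (gen a) p ↔ a ∈ ct p := by
  constructor
  · rintro ⟨y, z, rfl⟩; simp
  · intro h
    obtain ⟨l, rfl⟩ := mk_surj p
    obtain ⟨s, t, rfl⟩ := List.append_of_mem (by simpa using h : a ∈ l)
    exact ⟨mk s, mk t, by rw [mk_append, mk_cons, mul_assoc]⟩

theorem pw_iff {a : A} {u : Plactic A} : Pw u (gen a) ↔ ∃ k, u = gen a ^ k := by
  constructor
  · intro h
    obtain ⟨l, rfl⟩ := mk_surj u
    refine ⟨l.length, ?_⟩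
    rw [← mk_replicate]
    congr 1
    exact List.eq_replicate_iff.2 ⟨rfl, fun b hb =>
      gen_inj (h _ (isGen_iff.2 ⟨b, rfl⟩) (occ_iff.2 (by simpa using hb)))⟩
  · rintro ⟨k, rfl⟩ y hy h
    obtain ⟨b, rfl⟩ := isGen_iff.1 hy
    rw [occ_iff] at h
    simp at h
    rw [h.2]

theorem lt_iff {a b : A} : Lt (gen a) (gen b) ↔ a < b := by
  constructor
  · rintro ⟨h1, h2⟩
    by_contra h
    have hba : b < a := lt_of_le_of_ne (not_lt.1 h) fun e => h1 (by rw [e])
    have := congrFun (lis_mk (u := [a, b, a]) (v := [b, a, a]) h2) b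
    simp [lis, hba.le, not_le.2 hba] at this
  · intro h
    exact ⟨fun e => h.ne (gen_inj e), k1 le_rfl h⟩

theorem row_iff {c : A} {r : Plactic A} : Row (gen c) r ↔
    ∃ l : List A, r = mk l ∧ (∀ x ∈ l, c < x) ∧ l.Pairwise (· ≤ ·) := by
  constructor
  · rintro ⟨h1, h2⟩
    obtain ⟨l, rfl⟩ := mk_surj r
    refine ⟨l, rfl, fun x hx => lt_iff.1 (h1 _ (isGen_iff.2 ⟨x, rfl⟩)
      (occ_iff.2 (by simpa using hx))), ?_⟩
    rw [← List.isChain_iff_pairwise, List.isChain_iff_forall_rel_of_append_cons_cons]
    intro x y s t e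
    have := h2 _ _ (isGen_iff.2 ⟨x, rfl⟩) (isGen_iff.2 ⟨y, rfl⟩)
      ⟨mk s, mk t, by rw [e, mk_append, mk_cons, mk_cons]; simp only [mul_assoc]⟩
    rw [lt_iff] at this
    exact not_lt.1 this
  · rintro ⟨l, rfl, h1, h2⟩
    refine ⟨fun x hx ho => ?_, fun x y hx hy ho hlt => ?_⟩
    · obtain ⟨a, rfl⟩ := isGen_iff.1 hx
      exact lt_iff.2 (h1 a (by simpa using occ_iff.1 ho))
    · obtain ⟨a, rfl⟩ := isGen_iff.1 hx
      obtain ⟨b, rfl⟩ := isGen_iff.1 hy
      obtain ⟨s, t, e⟩ := ho
      obtain ⟨s, rfl⟩ := mk_surj s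
      obtain ⟨t, rfl⟩ := mk_surj t
      have e' : mk l = mk (s ++ a :: b :: t) := by
        rw [e, mk_append, mk_cons, mk_cons]; simp only [mul_assoc]
      have a1 := congrFun (lis_mk e') c
      have a2 := lis_lt s t (lt_iff.1 hlt) c
      have a3 := lis_sorted [] h2 (p := c) fun x hx => (h1 x hx).le
      have a4 := congrArg (fun t => Multiset.card (ct t)) e'
      simp only [ct_mk, Multiset.coe_card] at a4
      rw [List.append_nil] at a3
      omega

theorem pow_inj {c : A} {i j : ℕ} (h : gen c ^ i = gen c ^ j) : i = j := by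
  simpa using congrArg (fun t => Multiset.card (ct t)) h

theorem len_iff {c : A} {l : List A} (hc : ∀ x ∈ l, c < x) (hl : l.Pairwise (· ≤ ·)) (k : ℕ) :
    Len (gen c) (mk l) (gen c ^ k) ↔ l.length = k := by
  unfold Len
  rw [E_iff hc hl]
  constructor
  · rintro ⟨h1, h2⟩
    cases k with
    | zero => omega
    | succ k =>
      have := h2 (gen c ^ k) (pow_succ _ _)
      rw [E_iff hc hl] at this
      omega
  · intro h
    refine ⟨h.le, fun w' e => ?_⟩
    obtain ⟨j, rfl⟩ : ∃ j, w' = gen c ^ j := pw_iff.1 fun y hy ⟨s, t, ho⟩ =>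
      (pw_iff.2 ⟨k, rfl⟩ : Pw _ (gen c)) y hy ⟨s, t * gen c, by rw [e, ho, mul_assoc]⟩
    rw [E_iff hc hl]
    have := pow_inj (e.trans (pow_succ _ _).symm)
    omega

theorem split_sorted (x : A) {l : List A} (hl : l.Pairwise (· ≤ ·)) :
    ∃ p k q, l = p ++ List.replicate k x ++ q ∧ x ∉ p ∧ x ∉ q := by
  induction l with
  | nil => exact ⟨[], 0, [], rfl, by simp, by simp⟩
  | cons y l ih =>
    obtain ⟨p, k, q, e, h1, h2⟩ := ih (List.pairwise_cons.1 hl).2
    by_cases hy : y = x
    · subst hy
      cases k with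
      | zero => exact ⟨[], 1, l, rfl, by simp, by simp [e, h1, h2]⟩
      | succ k =>
        cases p with
        | nil => exact ⟨[], k + 2, q, by simp [e, List.replicate_succ], by simp, h2⟩
        | cons z p =>
          exfalso
          rw [e] at hl
          simp [List.replicate_succ] at hl h1
          exact h1.1 (le_antisymm hl.1.1 (hl.2.1 y (Or.inr (Or.inl rfl))))
    · exact ⟨y :: p, k, q, by simp [e], by simp [h1, Ne.symm hy], h2⟩

theorem cnt_sound {c x : A} (hx : c < x) {r : Plactic A} {m : ℕ}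
    (h : Cnt (gen c) r (gen x) (gen c ^ m)) : (ct r).count x = m := by
  obtain ⟨p, s, q, rfl, h1, h2, h3, h4⟩ := h
  obtain ⟨k, rfl⟩ := pw_iff.1 h1
  rw [occ_iff] at h2 h3
  rw [← mk_replicate, len_iff (by simp; exact fun _ => hx) (by simp)] at h4
  simp at h4
  simp [Multiset.count_eq_zero_of_notMem h2, Multiset.count_eq_zero_of_notMem h3, h4]

theorem cnt_complete {c x : A} (hx : c < x) {l : List A} (hl : l.Pairwise (· ≤ ·)) :
    Cnt (gen c) (mk l) (gen x) (gen c ^ l.count x) := by
  obtain ⟨p, k, q, rfl, h1, h2⟩ := split_sorted x hl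
  refine ⟨mk p, mk (List.replicate k x), mk q, rfl, pw_iff.2 ⟨k, mk_replicate _ _⟩,
    by simpa [occ_iff] using h1, by simpa [occ_iff] using h2, ?_⟩
  rw [len_iff (by simp; exact fun _ => hx) (by simp)]
  simp [List.count_eq_zero_of_not_mem h1, List.count_eq_zero_of_not_mem h2]

theorem mulP_iff [NoMaxOrder A] (c : A) (p m n : ℕ) :
    MulP (gen c) (gen c ^ p) (gen c ^ m) (gen c ^ n) ↔ p = m * n := by
  constructor
  · rintro ⟨r, r', h1, h2, h3, h4, h5⟩
    obtain ⟨l, rfl, a1, a2⟩ := row_iff.1 h1
    obtain ⟨l', rfl, b1, b2⟩ := row_iff.1 h2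
    rw [len_iff a1 a2] at h3
    rw [len_iff b1 b2] at h4
    have : (l : Multiset A) = m • (l' : Multiset A) := by
      ext x
      by_cases hx : x ∈ l ∨ x ∈ l'
      · have hc : c < x := hx.elim (a1 x) (b1 x)
        obtain ⟨c1, c2⟩ := h5 _ (isGen_iff.2 ⟨x, rfl⟩) (by simpa [occ_iff, imp_iff_not_or] using hx)
        have d1 := cnt_sound hc c1
        have d2 := cnt_sound hc (m := 1) (by simpa using c2)
        rw [ct_mk] at d1 d2
        rw [Multiset.count_nsmul, d1, d2, mul_one]
      · push Not at hx
        simp [List.count_eq_zero_of_not_mem hx.1, List.count_eq_zero_of_not_mem hx.2]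
    have := congrArg Multiset.card this
    simpa [h3, h4] using this
  · rintro rfl
    obtain ⟨s, hs, rfl⟩ := (Set.Ioi_infinite c).exists_subset_card_eq n
    have a1 : ∀ x ∈ (m • s.val).sort (· ≤ ·), c < x := by
      intro x hx
      rw [Multiset.mem_sort] at hx
      exact hs (Multiset.mem_of_mem_nsmul hx)
    have b1 : ∀ x ∈ s.val.sort (· ≤ ·), c < x := by
      intro x hx
      rw [Multiset.mem_sort] at hx
      exact hs hx
    have a2 := Multiset.pairwise_sort (m • s.val) (· ≤ ·)
    have b2 := Multiset.pairwise_sort s.val (· ≤ ·)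
    refine ⟨mk ((m • s.val).sort (· ≤ ·)), mk (s.val.sort (· ≤ ·)), row_iff.2 ⟨_, rfl, a1, a2⟩,
      row_iff.2 ⟨_, rfl, b1, b2⟩, (len_iff a1 a2 _).2 (by simp), (len_iff b1 b2 _).2 (by simp),
      fun x hx ho => ?_⟩
    obtain ⟨x, rfl⟩ := isGen_iff.1 hx
    have hxs : x ∈ s := by
      by_contra h
      apply ho
      simp only [occ_iff, ct_mk, Multiset.sort_eq]
      exact ⟨fun h' => h (Multiset.mem_of_mem_nsmul h'), h⟩
    have c1 := cnt_complete (hs hxs) a2
    have c2 := cnt_complete (hs hxs) b2
    have d2 : s.val.count x = 1 := Multiset.count_eq_one_of_mem s.nodup hxs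
    rw [← Multiset.coe_count, Multiset.sort_eq] at c1 c2
    rw [Multiset.count_nsmul, d2, mul_one] at c1
    rw [d2, pow_one] at c2
    exact ⟨c1, c2⟩

end LeadPlactic
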