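import Mathlib

namespace Pool.Agent.Lib.lead.ProjAlg

open Set

/-- The horizontal axis. -/
def XA : Set (ℝ × ℝ) := {p | p.2 = 0}

/-- The vertical axis. -/
def YA : Set (ℝ × ℝ) := {p | p.1 = 0}

/-- Projection onto the horizontal axis. -/
def pi1 (S : Set (ℝ × ℝ)) : Set (ℝ × ℝ) := {p | p.2 = 0 ∧ ∃ y, (p.1, y) ∈ S}

/-- Projection onto the vertical axis. -/
def pi2 (S : Set (ℝ × ℝ)) : Set (ℝ × ℝ) := {p | p.1 = 0 ∧ ∃ x, (x, p.2) ∈ S}

/-- Direct product of a subset of the horizontal axis and a subset of the vertical axis. -/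
def otimes (A B : Set (ℝ × ℝ)) : Set (ℝ × ℝ) := {p | (p.1, (0 : ℝ)) ∈ A ∧ ((0 : ℝ), p.2) ∈ B}

/-- Projective algebras of plane sets. -/
structure IsProj (F : Set (Set (ℝ × ℝ))) : Prop where
  empty : ∅ ∈ F
  union : ∀ A ∈ F, ∀ B ∈ F, A ∪ B ∈ F
  inter : ∀ A ∈ F, ∀ B ∈ F, A ∩ B ∈ F
  compl : ∀ A ∈ F, Aᶜ ∈ F
  proj1 : ∀ A ∈ F, pi1 A ∈ F
  proj2 : ∀ A ∈ F, pi2 A ∈ F
  prod : ∀ A ∈ F, ∀ B ∈ F, A ⊆ XA → B ⊆ YA → otimes A B ∈ F

/-- `φ` restricts to an isomorphism from `F` onto `G`. -/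
structure IsIso (φ : Set (ℝ × ℝ) → Set (ℝ × ℝ)) (F G : Set (Set (ℝ × ℝ))) : Prop where
  bij : BijOn φ F G
  union : ∀ A ∈ F, ∀ B ∈ F, φ (A ∪ B) = φ A ∪ φ B
  inter : ∀ A ∈ F, ∀ B ∈ F, φ (A ∩ B) = φ A ∩ φ B
  compl : ∀ A ∈ F, φ Aᶜ = (φ A)ᶜ
  proj1 : ∀ A ∈ F, φ (pi1 A) = pi1 (φ A)
  proj2 : ∀ A ∈ F, φ (pi2 A) = pi2 (φ A)
  prod : ∀ A ∈ F, ∀ B ∈ F, A ⊆ XA → B ⊆ YA → φ (otimes A B) = otimes (φ A) (φ B)

/-- The projective algebra generated by a family of plane sets. -/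
def gen {ι : Type} (S : ι → Set (ℝ × ℝ)) : Set (Set (ℝ × ℝ)) :=
  ⋂₀ {F | IsProj F ∧ ∀ i, S i ∈ F}

inductive Tm (ι : Type) : Type
  | var : ι → Tm ι
  | empty : Tm ι
  | union : Tm ι → Tm ι → Tm ι
  | inter : Tm ι → Tm ι → Tm ι
  | compl : Tm ι → Tm ι
  | p1 : Tm ι → Tm ι
  | p2 : Tm ι → Tm ι
  | prod : Tm ι → Tm ι → Tm ι

def Tm.code {ι : Type} (c : ι → ℕ) : Tm ι → ℕ
  | .var i => Nat.pair 0 (c i)
  | .empty => Nat.pair 1 0
  | .union a b => Nat.pair 2 (Nat.pair (a.code c) (b.code c))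
  | .inter a b => Nat.pair 3 (Nat.pair (a.code c) (b.code c))
  | .compl a => Nat.pair 4 (a.code c)
  | .p1 a => Nat.pair 5 (a.code c)
  | .p2 a => Nat.pair 6 (a.code c)
  | .prod a b => Nat.pair 7 (Nat.pair (a.code c) (b.code c))

lemma code_inj {ι : Type} {c : ι → ℕ} (hc : Function.Injective c) :
    ∀ a b : Tm ι, a.code c = b.code c → a = b := by
  intro a
  induction a with
  | var i => intro b h; cases b <;> simp [Tm.code] at h; rw [hc h]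
  | empty => intro b h; cases b <;> simp [Tm.code] at h; rfl
  | union a a' i1 i2 => intro b h; cases b <;> simp [Tm.code] at h; rw [i1 _ h.1, i2 _ h.2]
  | inter a a' i1 i2 => intro b h; cases b <;> simp [Tm.code] at h; rw [i1 _ h.1, i2 _ h.2]
  | compl a i1 => intro b h; cases b <;> simp [Tm.code] at h; rw [i1 _ h]
  | p1 a i1 => intro b h; cases b <;> simp [Tm.code] at h; rw [i1 _ h]
  | p2 a i1 => intro b h; cases b <;> simp [Tm.code] at h; rw [i1 _ h]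
  | prod a a' i1 i2 => intro b h; cases b <;> simp [Tm.code] at h; rw [i1 _ h.1, i2 _ h.2]

lemma Tm.countable (ι : Type) [Countable ι] : Countable (Tm ι) := by
  obtain ⟨c, hc⟩ := exists_injective_nat ι
  exact ⟨⟨Tm.code c, fun a b h => code_inj hc a b h⟩⟩

def ev {ι : Type} (S : ι → Set (ℝ × ℝ)) : Tm ι → Set (ℝ × ℝ)
  | .var i => S i
  | .empty => ∅
  | .union a b => ev S a ∪ ev S b
  | .inter a b => ev S a ∩ ev S b
  | .compl a => (ev S a)ᶜ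
  | .p1 a => pi1 (ev S a)
  | .p2 a => pi2 (ev S a)
  | .prod a b => otimes (pi1 (ev S a)) (pi2 (ev S b))

lemma pi1_sub (A) : pi1 A ⊆ XA := fun _ h => h.1
lemma pi2_sub (A) : pi2 A ⊆ YA := fun _ h => h.1

lemma pi1_eq {A} (h : A ⊆ XA) : pi1 A = A := by
  ext ⟨x, y⟩
  constructor
  · rintro ⟨h1, y', h2⟩
    have : y' = 0 := h h2
    simp only at h1
    subst this h1
    exact h2
  · intro h1
    exact ⟨h h1, y, h1⟩

lemma pi2_eq {A} (h : A ⊆ YA) : pi2 A = A := by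
  ext ⟨x, y⟩
  constructor
  · rintro ⟨h1, x', h2⟩
    have : x' = 0 := h h2
    simp only at h1
    subst this h1
    exact h2
  · intro h1
    exact ⟨h h1, x, h1⟩

lemma ev_mem {ι : Type} {S : ι → Set (ℝ × ℝ)} {F} (hF : IsProj F) (hS : ∀ i, S i ∈ F)
    (t : Tm ι) : ev S t ∈ F := by
  induction t with
  | var i => exact hS i
  | empty => exact hF.empty
  | union a b i1 i2 => exact hF.union _ i1 _ i2
  | inter a b i1 i2 => exact hF.inter _ i1 _ i2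
  | compl a i1 => exact hF.compl _ i1
  | p1 a i1 => exact hF.proj1 _ i1
  | p2 a i1 => exact hF.proj2 _ i1
  | prod a b i1 i2 => exact hF.prod _ (hF.proj1 _ i1) _ (hF.proj2 _ i2) (pi1_sub _) (pi2_sub _)

lemma range_proj {ι : Type} (S : ι → Set (ℝ × ℝ)) : IsProj (range (ev S)) where
  empty := ⟨.empty, rfl⟩
  union := by rintro _ ⟨a, rfl⟩ _ ⟨b, rfl⟩; exact ⟨.union a b, rfl⟩
  inter := by rintro _ ⟨a, rfl⟩ _ ⟨b, rfl⟩; exact ⟨.inter a b, rfl⟩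
  compl := by rintro _ ⟨a, rfl⟩; exact ⟨.compl a, rfl⟩
  proj1 := by rintro _ ⟨a, rfl⟩; exact ⟨.p1 a, rfl⟩
  proj2 := by rintro _ ⟨a, rfl⟩; exact ⟨.p2 a, rfl⟩
  prod := by
    rintro _ ⟨a, rfl⟩ _ ⟨b, rfl⟩ h1 h2
    exact ⟨.prod a b, by simp only [ev]; rw [pi1_eq h1, pi2_eq h2]⟩

lemma gen_eq {ι : Type} (S : ι → Set (ℝ × ℝ)) : gen S = range (ev S) := by
  apply Subset.antisymm
  · exact sInter_subset_of_mem ⟨range_proj S, fun i => ⟨.var i, rfl⟩⟩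
  · rintro _ ⟨t, rfl⟩ F ⟨h1, h2⟩
    exact ev_mem h1 h2 t

lemma iso_empty {φ F G} (hF : IsProj F) (h : IsIso φ F G) : φ ∅ = ∅ := by
  have := h.inter _ hF.empty _ (hF.compl _ hF.empty)
  rwa [h.compl _ hF.empty, inter_compl_self, inter_compl_self] at this

lemma iso_ev {ι : Type} {S : ι → Set (ℝ × ℝ)} {φ F G} (hF : IsProj F) (hS : ∀ i, S i ∈ F)
    (h : IsIso φ F G) (t : Tm ι) : φ (ev S t) = ev (fun i => φ (S i)) t := by
  have m := ev_mem hF hS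
  induction t with
  | var i => rfl
  | empty => exact iso_empty hF h
  | union a b i1 i2 => simp only [ev]; rw [h.union _ (m a) _ (m b), i1, i2]
  | inter a b i1 i2 => simp only [ev]; rw [h.inter _ (m a) _ (m b), i1, i2]
  | compl a i1 => simp only [ev]; rw [h.compl _ (m a), i1]
  | p1 a i1 => simp only [ev]; rw [h.proj1 _ (m a), i1]
  | p2 a i1 => simp only [ev]; rw [h.proj2 _ (m a), i1]
  | prod a b i1 i2 =>
    simp only [ev]
    rw [h.prod _ (hF.proj1 _ (m a)) _ (hF.proj2 _ (m b)) (pi1_sub _) (pi2_sub _),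
      h.proj1 _ (m a), h.proj2 _ (m b), i1, i2]

lemma iso_ev_empty {ι : Type} {S : ι → Set (ℝ × ℝ)} {φ F G} (hF : IsProj F) (hS : ∀ i, S i ∈ F)
    (h : IsIso φ F G) (t : Tm ι) : ev S t = ∅ ↔ ev (fun i => φ (S i)) t = ∅ := by
  rw [← iso_ev hF hS h]
  constructor
  · intro e; rw [e, iso_empty hF h]
  · intro e
    exact h.bij.injOn (ev_mem hF hS t) hF.empty (e.trans (iso_empty hF h).symm)

noncomputable def rho (x : ℝ) : ℕ := ⌈|x|⌉₊

lemma rho_nat (n : ℕ) : rho n = n := by simp [rho]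

lemma rho_zero {x : ℝ} : rho x = 0 ↔ x = 0 := by simp [rho]

def STs (T : Set ℕ) : Set (ℝ × ℝ) :=
  {p | (p.2 = 0 ∧ rho p.1 ∈ T) ∨ (p.2 ≠ 0 ∧ (rho p.2 = rho p.1 + 1 ∨ rho p.2 = rho p.1))}

def tX : ℕ → Tm Unit
  | 0 => .p1 (.p2 (.compl .empty))
  | n + 1 =>
    let S' : Tm Unit := .inter (.var ()) (.compl (.p1 (.compl .empty)))
    .p1 (.inter S' (.prod (.compl .empty) (.inter S' (.prod (tX n) (.compl .empty)))))

lemma ev_tX (T : Set ℕ) (n : ℕ) : ev (fun _ => STs T) (tX n) = {p | p.2 = 0 ∧ rho p.1 ≤ n} := by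
  induction n with
  | zero =>
    ext ⟨x, y⟩
    simp [tX, ev, pi1, pi2, rho_zero]
  | succ n ih =>
    ext ⟨x, y⟩
    simp only [tX, ev, ih]
    simp only [pi1, pi2, otimes, STs, mem_setOf_eq, mem_inter_iff, mem_compl_iff, mem_empty_iff_false,
      not_false_eq_true, exists_const, and_true, true_and]
    constructor
    · rintro ⟨h0, y', ⟨h1, h2⟩, x', ⟨h3, _⟩, y'', _, h5⟩
      refine ⟨h0, ?_⟩
      rcases h1 with h1 | h1
      · exact (h2 h1.1).elim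
      rcases h3 with h3 | h3
      · exact (h2 h3.1).elim
      omega
    · rintro ⟨h0, h1⟩
      refine ⟨h0, ?_⟩
      rcases Nat.lt_or_ge (rho x) (n + 1) with h | h
      · have hne : ((rho x + 1 : ℕ) : ℝ) ≠ 0 := by positivity
        exact ⟨((rho x + 1 : ℕ) : ℝ), ⟨Or.inr ⟨hne, Or.inl (rho_nat _)⟩, hne⟩, x,
          ⟨Or.inr ⟨hne, Or.inl (rho_nat _)⟩, hne⟩, 0, rfl, by omega⟩
      · have hne : ((n + 1 : ℕ) : ℝ) ≠ 0 := by positivity
        exact ⟨((n + 1 : ℕ) : ℝ), ⟨Or.inr ⟨hne, Or.inr (by rw [rho_nat]; omega)⟩, hne⟩, (n : ℝ),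
          ⟨Or.inr ⟨hne, Or.inl (by rw [rho_nat, rho_nat])⟩, hne⟩, 0, rfl, by rw [rho_nat]⟩

def tB : ℕ → Tm Unit
  | 0 => .inter (.var ()) (tX 0)
  | n + 1 => .inter (.var ()) (.inter (tX (n + 1)) (.compl (tX n)))

lemma ev_tB (T : Set ℕ) (n : ℕ) : ev (fun _ => STs T) (tB n) = ∅ ↔ n ∉ T := by
  rw [eq_empty_iff_forall_notMem]
  cases n with
  | zero =>
    simp only [tB, ev, ev_tX]
    simp only [STs, mem_inter_iff, mem_setOf_eq]
    constructor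
    · intro h h0
      exact h (0, 0) ⟨Or.inl ⟨rfl, by rw [rho_zero.2 rfl]; exact h0⟩, rfl, by rw [rho_zero.2 rfl]⟩
    · rintro h p ⟨h1 | h1, h2, h3⟩
      · exact h (by rw [← Nat.le_zero.1 h3]; exact h1.2)
      · exact h1.1 h2
  | succ n =>
    simp only [tB, ev, ev_tX]
    simp only [STs, mem_inter_iff, mem_setOf_eq, mem_compl_iff]
    constructor
    · intro h h0
      exact h (((n + 1 : ℕ) : ℝ), 0) ⟨Or.inl ⟨rfl, by rw [rho_nat]; exact h0⟩,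
        ⟨rfl, by rw [rho_nat]⟩, by rw [rho_nat]; omega⟩
    · rintro h p ⟨h1 | h1, ⟨h2, h3⟩, h4⟩
      · have : rho p.1 = n + 1 := by
          by_contra hc
          exact h4 ⟨h2, by omega⟩
        exact h (this ▸ h1.2)
      · exact h1.1 h2

/-- The image of `STs T` under an isomorphism determines `T`. -/
lemma determined {T T' : Set ℕ} {φ φ' F F' G G'} (hF : IsProj F) (hF' : IsProj F')
    (m : STs T ∈ F) (m' : STs T' ∈ F') (h : IsIso φ F G) (h' : IsIso φ' F' G')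
    (e : φ (STs T) = φ' (STs T')) : T = T' := by
  ext n
  rw [← not_iff_not]
  change n ∉ T ↔ n ∉ T'
  rw [← ev_tB, ← ev_tB, iso_ev_empty hF (fun _ => m) h, iso_ev_empty hF' (fun _ => m') h', e]

end Pool.Agent.Lib.lead.ProjAlg
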