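import Mathlib
import Pool.Agent.Lib.lead.AffB

set_option autoImplicit false

namespace LeadInv
open FreeGroup hiding map_mul map_one map_inv

inductive X0 (Tl A : Type) : Type
  | z
  | y (i : Fin 3) (l : Bool × Bool)
  | W (τ : Option Tl)
  | E (d : Option A)
  | S

instance {Tl A : Type} [Finite Tl] [Finite A] : Finite (X0 Tl A) :=
  Finite.of_equiv _ (proxy_equiv% (X0 Tl A))

structure Dt (Tl A : Type) where
  b : ℕ
  dg : A → ℕ
  top : Tl → List A
  bot : Tl → List A
  fin : List A

variable {Tl A : Type} (C : Dt Tl A)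

def Dt.enc (w : List A) : List (Bool × Bool) :=
  w.flatMap fun d => List.replicate (C.dg d) (false, true) ++ [(true, true)]

def Dt.cw : X0 Tl A → Fin 3 → List (Bool × Bool)
  | .z, _ => []
  | .y i l, j => if j = i then [l] else []
  | .W τ, j => ![C.enc (τ.toList.flatMap C.bot), C.enc (τ.toList.flatMap C.top),
      List.replicate (C.b + 1) (false, true) ++ [(true, true)]] j
  | .E d, j => ![invRev (C.enc d.toList), invRev (C.enc d.toList), [(true, false)]] j
  | .S, j => ![[], C.enc C.fin, [(false, false)]] j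

def lev : X0 Tl A → ℕ
  | .z => 1
  | .y _ _ => 2
  | .W _ => 0
  | .E _ => 0
  | .S => 1

abbrev GG (b : ℕ) := (Fin 3 → Aff b) × Multiplicative ℤ

def gv (b : ℕ) (c : Fin 3 → List (Bool × Bool)) (n : ℤ) : GG b :=
  (fun j => evA b (c j), .ofAdd n)

@[simp] lemma evA_nil (b : ℕ) : evA b [] = 1 := ev_nil _
@[simp] lemma evA_append (b : ℕ) (u v) : evA b (u ++ v) = evA b u * evA b v := ev_append _ _ _
@[simp] lemma evA_invRev (b : ℕ) (u) : evA b (invRev u) = (evA b u)⁻¹ := ev_invRev _ _

lemma gv_mul (b : ℕ) (c c' : Fin 3 → List (Bool × Bool)) (n n' : ℤ) :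
    gv b c n * gv b c' n' = gv b (fun j => c j ++ c' j) (n + n') := by
  ext j <;> simp [gv]

lemma gv_inv (b : ℕ) (c : Fin 3 → List (Bool × Bool)) (n : ℤ) :
    (gv b c n)⁻¹ = gv b (fun j => invRev (c j)) (-n) := by
  ext j <;> simp [gv]

lemma gv_nil (b : ℕ) : gv b (fun _ => []) 0 = 1 := by
  ext j <;> simp [gv]

def Dt.val (x : X0 Tl A) : GG C.b := gv C.b (C.cw x) (lev x)

def Dt.cl (l : X0 Tl A × Bool) (j : Fin 3) : List (Bool × Bool) :=
  bif l.2 then C.cw l.1 j else invRev (C.cw l.1 j)

def ll (l : X0 Tl A × Bool) : ℤ := bif l.2 then lev l.1 else -lev l.1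

lemma ev_gen {K : Type} [Group K] (F : (Fin 3 → List (Bool × Bool)) → ℤ → K)
    (h0 : F (fun _ => []) 0 = 1)
    (h1 : ∀ c c' n n', F c n * F c' n' = F (fun j => c j ++ c' j) (n + n'))
    (h2 : ∀ c n, (F c n)⁻¹ = F (fun j => invRev (c j)) (-n)) (f : X0 Tl A → K)
    (hf : ∀ x, f x = F (C.cw x) (lev x)) (q : List (X0 Tl A × Bool)) :
    ev f q = F (fun j => q.flatMap fun l => C.cl l j) (q.map ll).sum := by
  induction q with
  | nil => simp [h0]
  | cons l q ih =>
    obtain ⟨x, _ | _⟩ := l
    · rw [ev_f, ih, hf, h2, h1]; rfl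
    · rw [ev_t, ih, hf, h1]; rfl

lemma ev_val (q : List (X0 Tl A × Bool)) :
    ev C.val q = gv C.b (fun j => q.flatMap fun l => C.cl l j) (q.map ll).sum :=
  ev_gen C _ (gv_nil _) (gv_mul _) (gv_inv _) _ (fun _ => rfl) q

def Y (i : Fin 3) (w : List (Bool × Bool)) : List (X0 Tl A) := w.map (.y i)
def YY (c : Fin 3 → List (Bool × Bool)) : List (X0 Tl A) := Y 0 (c 0) ++ Y 1 (c 1) ++ Y 2 (c 2)
def len (c : Fin 3 → List (Bool × Bool)) : ℕ := (c 0).length + (c 1).length + (c 2).length

lemma val_Y (i : Fin 3) (w : List (Bool × Bool)) : ((Y i w).map C.val).prod =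
    gv C.b (fun j => if j = i then w else []) (2 * w.length) := by
  induction w with
  | nil => simpa [Y] using (gv_nil _).symm
  | cons l w ih =>
    simp only [Y, List.map_cons, List.prod_cons] at ih ⊢
    rw [ih, Dt.val, gv_mul]
    congr 1
    · funext j; simp only [Dt.cw]; split_ifs <;> rfl
    · simp [lev]; ring

lemma val_YY (c : Fin 3 → List (Bool × Bool)) :
    ((YY c).map C.val).prod = gv C.b c (2 * len c) := by
  simp only [YY, List.map_append, List.prod_append, val_Y, gv_mul]
  congr 1
  · funext j; fin_cases j <;> simp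
  · simp [len]; ring

lemma val_z (n : ℕ) : C.val .z ^ n = gv C.b (fun _ => []) n := by
  induction n with
  | zero => exact (gv_nil _).symm
  | succ n ih => rw [pow_succ, ih, Dt.val, gv_mul]; rfl

def Dt.R0 : Set (List (X0 Tl A) × List (X0 Tl A)) :=
  Set.range (fun p : Fin 3 × Bool =>
    ([.y p.1 (p.2, true), .y p.1 (p.2, false)], List.replicate 4 .z)) ∪
  Set.range (fun p : {p : Fin 3 × Fin 3 // p.1 ≠ p.2} × Bool × Bool =>
    ([.y p.1.1.1 (p.2.1, true), .y p.1.1.2 (p.2.2, true)],
      [.y p.1.1.2 (p.2.2, true), .y p.1.1.1 (p.2.1, true)])) ∪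
  Set.range (fun i : Fin 3 =>
    ([.y i (true, true), .y i (false, true)] ++ List.replicate (2 * (C.b + 1)) .z,
      List.replicate (C.b + 2) (.y i (false, true)) ++ [.y i (true, true)])) ∪
  Set.range (fun x => (x :: List.replicate (2 * len (C.cw x)) .z,
    YY (C.cw x) ++ List.replicate (lev x) .z))

lemma R0_finite [Finite Tl] [Finite A] : C.R0.Finite :=
  (((Set.finite_range _).union (Set.finite_range _)).union (Set.finite_range _)).union
    (Set.finite_range _)

lemma evA_rep (b n : ℕ) : evA b (List.replicate n (false, true)) = aa ^ n := by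
  induction n with
  | zero => simp
  | succ n ih => rw [List.replicate_succ, evA, ev_t, ← evA, ih, pow_succ']; rfl

lemma R0_valid : ∀ p ∈ C.R0, (p.1.map C.val).prod = (p.2.map C.val).prod := by
  rintro p (((⟨⟨i, s⟩, rfl⟩ | ⟨⟨⟨⟨i, j⟩, h⟩, s, s'⟩, rfl⟩) | ⟨i, rfl⟩) | ⟨x, rfl⟩)
  · have := val_Y C i [(s, true), (s, false)]
    simp only [Y, List.map_cons, List.map_nil] at this
    simp only [List.map_cons, List.map_nil, this, List.map_replicate, List.prod_replicate, val_z]
    refine Prod.ext (funext fun j => ?_) rfl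
    simp only [gv]
    split_ifs <;> simp [evA]
  · simp only [List.map_cons, List.map_nil, List.prod_cons, List.prod_nil, mul_one, Dt.val, gv_mul]
    congr 1
    funext k
    simp only [Dt.cw]
    split_ifs with h1 h2
    · exact absurd (h1.symm.trans h2) h
    all_goals rfl
  · have h1 := val_Y C i [(true, true), (false, true)]
    have h2 := val_Y C i (List.replicate (C.b + 2) (false, true) ++ [(true, true)])
    simp only [Y, List.map_cons, List.map_nil, List.map_append, List.map_replicate] at h1 h2
    simp only [List.map_append, List.map_cons, List.map_nil, List.map_replicate, h2]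
    rw [List.prod_append, h1, List.prod_replicate, val_z, gv_mul]
    refine Prod.ext (funext fun j => ?_) ?_
    · simp only [gv]
      split_ifs
      · rw [evA_append, evA_append, evA_rep]
        simpa [evA] using aff_rel
      · rfl
    · refine congrArg Multiplicative.ofAdd ?_
      simp; ring
  · simp only [List.map_cons, List.prod_cons, List.map_append, List.prod_append, val_YY,
      List.map_replicate, List.prod_replicate, val_z]
    rw [Dt.val, gv_mul, gv_mul]
    congr 1
    push_cast; ring

lemma val_comm (x : X0 Tl A) : C.val x * C.val .z = C.val .z * C.val x := by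
  simp only [Dt.val, gv_mul]
  congr 1
  · funext j; simp [Dt.cw]
  · ring

lemma val_inv (x : X0 Tl A) :
    ∃ (x' : List (X0 Tl A)) (k : ℕ), C.val x * (x'.map C.val).prod = C.val .z ^ k := by
  refine ⟨YY fun j => invRev (C.cw x j), lev x + 2 * len fun j => invRev (C.cw x j), ?_⟩
  rw [val_YY, val_z, Dt.val, gv_mul]
  ext j <;> simp [gv]

lemma comm_ev {K X : Type} [Group K] (f : X → K) (g : K) (h : ∀ x, Commute g (f x))
    (w : List (X × Bool)) : Commute g (ev f w) := by
  induction w with
  | nil => simp
  | cons l w ih =>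
    obtain ⟨x, _ | _⟩ := l
    · rw [ev_f]; exact (h x).inv_right.mul_right ih
    · rw [ev_t]; exact (h x).mul_right ih

lemma R0_pres (K : Type) [Group K] (f : X0 Tl A → K) (hz : ∀ x, f x * f .z = f .z * f x)
    (hf : ∀ p ∈ C.R0, (p.1.map f).prod = (p.2.map f).prod) (q : List (X0 Tl A × Bool))
    (hq : ev C.val q = 1) : ev f q = 1 := by
  have cz : ∀ x, Commute (f .z) (f x) := fun x => (hz x).symm
  let gen : Fin 3 → Bool → K := fun i c => f (.y i (c, true)) * (f .z ^ 2)⁻¹
  have cg : ∀ i c, Commute (f .z) (gen i c) := fun i c =>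
    (cz _).mul_right ((Commute.refl _).pow_right 2).inv_right
  have e1 : ∀ i l, f (.y i l) = ev (gen i) [l] * f .z ^ 2 := by
    rintro i ⟨c, _ | _⟩
    · have := hf _ (.inl (.inl (.inl ⟨(i, c), rfl⟩)))
      simp only [List.map_cons, List.map_nil, List.prod_cons, List.prod_nil, mul_one,
        List.map_replicate, List.prod_replicate] at this
      rw [ev_f, ev_nil, mul_one, mul_inv_rev, inv_inv, ((cz _).pow_left 2).inv_right.eq,
        eq_inv_mul_of_mul_eq this]
      group
    · simp [gen]
  have e2 : ∀ i w, ((Y i w).map f).prod = ev (gen i) w * f .z ^ (2 * w.length) := by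
    intro i w
    induction w with
    | nil => simp [Y]
    | cons l w ih =>
      simp only [Y, List.map_cons, List.prod_cons] at ih ⊢
      rw [ih, e1, show l :: w = [l] ++ w from rfl, ev_append,
        ((comm_ev _ _ (cg i) w).pow_left 2).mul_mul_mul_comm, ← pow_add]
      congr 2
      simp; ring
  have c1 : ∀ i j, i ≠ j → ∀ w w', Commute (ev (gen i) w) (ev (gen j) w') := by
    intro i j h w w'
    refine comm_ev _ _ (fun c' => (comm_ev _ _ (fun c => ?_) w).symm) w'
    have := hf _ (.inl (.inl (.inr ⟨(⟨(i, j), h⟩, c, c'), rfl⟩)))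
    simp only [List.map_cons, List.map_nil, List.prod_cons, List.prod_nil, mul_one] at this
    exact (Commute.mul_left (show Commute _ _ from this.symm)
      ((cz _).pow_left 2).inv_left).mul_right ((cg j c').symm.pow_right 2).inv_right
  have rel : ∀ i, gen i true * gen i false = gen i false ^ (C.b + 2) * gen i true := by
    intro i
    have := hf _ (.inl (.inr ⟨i, rfl⟩))
    have h1 := e2 i [(true, true), (false, true)]
    have h2 := e2 i (List.replicate (C.b + 2) (false, true) ++ [(true, true)])
    simp only [Y, List.map_cons, List.map_nil, List.map_append, List.map_replicate] at h1 h2 this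
    rw [h2, List.prod_append, h1, List.prod_replicate, mul_assoc, ← pow_add] at this
    have h3 : ev (gen i) (List.replicate (C.b + 2) (false, true)) = gen i false ^ (C.b + 2) := by
      have := ev_pos (gen i) (List.replicate (C.b + 2) false)
      simpa [pos] using this
    rw [show 2 * [(true, true), (false, true)].length + 2 * (C.b + 1) =
      2 * (List.replicate (C.b + 2) (false, true) ++ [(true, true)]).length by simp; ring] at this
    simpa [h3] using mul_right_cancel this
  let F : (Fin 3 → List (Bool × Bool)) → ℤ → K := fun c n =>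
    ev (gen 0) (c 0) * ev (gen 1) (c 1) * ev (gen 2) (c 2) * f .z ^ n
  have hF1 : ∀ c c' n n', F c n * F c' n' = F (fun j => c j ++ c' j) (n + n') := by
    intro c c' n n'
    simp only [F, ev_append, zpow_add]
    rw [Commute.mul_mul_mul_comm, Commute.mul_mul_mul_comm (b := ev (gen 2) (c 2)),
      Commute.mul_mul_mul_comm (b := ev (gen 1) (c 1))]
    · exact c1 _ _ (by decide) _ _
    · exact (c1 _ _ (by decide) _ _).mul_right (c1 _ _ (by decide) _ _)
    · exact (((comm_ev _ _ (cg _) _).mul_right (comm_ev _ _ (cg _) _)).mul_right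
        (comm_ev _ _ (cg _) _)).zpow_left _
  have hF := ev_gen C F (by simp [F]) hF1 (fun c n => by
    refine inv_eq_of_mul_eq_one_right ((hF1 c (fun j => invRev (c j)) n (-n)).trans ?_)
    simp [F]) f (fun x => by
      have := hf _ (.inr ⟨x, rfl⟩)
      simp only [List.map_cons, List.prod_cons, List.map_append, List.prod_append,
        List.map_replicate, List.prod_replicate, YY, e2] at this
      have h2 := hF1 (fun j => if j = 0 then C.cw x 0 else []) (fun j => if j = 1 then C.cw x 1 else [])
        (2 * (C.cw x 0).length : ℕ) (2 * (C.cw x 1).length : ℕ)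
      have h3 := hF1 (fun j => (if j = 0 then C.cw x 0 else []) ++ (if j = 1 then C.cw x 1 else []))
        (fun j => if j = 2 then C.cw x 2 else [])
        ((2 * (C.cw x 0).length : ℕ) + (2 * (C.cw x 1).length : ℕ)) (2 * (C.cw x 2).length : ℕ)
      rw [← h2] at h3
      simp only [F, zpow_natCast] at h3 ⊢
      simp only [Fin.isValue, ↓reduceIte, one_ne_zero, ev_nil, mul_one, Fin.reduceEq, zero_ne_one,
        one_mul, List.append_nil, List.nil_append] at h3
      rw [h3, ← Nat.cast_add, ← Nat.cast_add, zpow_natCast, mul_assoc, ← pow_add, add_comm _ (lev x),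
        pow_add, ← mul_assoc, show 2 * (C.cw x 0).length + 2 * (C.cw x 1).length +
          2 * (C.cw x 2).length = 2 * len (C.cw x) by unfold len; ring] at this
      exact mul_right_cancel this) q
  rw [ev_val] at hq
  have h1 : ∀ j, ev (gen j) (q.flatMap fun l => C.cl l j) = 1 := by
    intro j
    have := ev_of_evA _ _ (rel j) (congrFun (congrArg Prod.fst hq) j)
    convert this
    rename_i c
    cases c <;> rfl
  have h2 : (q.map ll).sum = 0 := congrArg Prod.snd hq
  simp [hF, F, h1, h2]

end LeadInv
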