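import Mathlib
import Pool.Agent.Lib.lead.RevP

set_option autoImplicit false

namespace LeadInv
open FreeGroup hiding map_mul map_one map_inv

variable {Tl A : Type} (C : Dt Tl A)

lemma prod_val (u : List (X0 Tl A)) :
    (u.map C.val).prod = gv C.b (fun j => u.flatMap fun x => C.cw x j) (u.map lev).sum := by
  induction u with
  | nil => exact (gv_nil _).symm
  | cons x u ih =>
    rw [List.map_cons, List.prod_cons, ih, Dt.val, gv_mul]
    simp

lemma enc_append (u v : List A) : C.enc (u ++ v) = C.enc u ++ C.enc v := by simp [Dt.enc]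
lemma enc_nil : C.enc [] = [] := rfl

def Dt.num : List A → ℕ
  | [] => 0
  | d :: w => C.dg d + (C.b + 2) * Dt.num w

lemma evA_blk (b k : ℕ) : evA b (List.replicate k (false, true) ++ [(true, true)]) = ⟨1, k⟩ := by
  rw [evA_append, evA_rep, ← zpow_natCast, aa_zpow]
  ext <;> simp [evA, tt]

lemma evA_enc (w : List A) : evA C.b (C.enc w) = ⟨w.length, C.num w⟩ := by
  induction w with
  | nil => rw [enc_nil, evA_nil]; rfl
  | cons d w ih =>
    rw [show C.enc (d :: w) = (List.replicate (C.dg d) (false, true) ++ [(true, true)]) ++ C.enc w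
      from rfl, evA_append, ih, evA_blk]
    ext <;> simp [Dt.num, BB, add_comm]

lemma enc_inj (hi : Function.Injective C.dg) (hl : ∀ d, C.dg d < C.b + 2) {u v : List A}
    (h : evA C.b (C.enc u) = evA C.b (C.enc v)) : u = v := by
  rw [evA_enc, evA_enc, Aff.mk.injEq, Nat.cast_inj, Nat.cast_inj] at h
  induction u generalizing v with
  | nil => exact (List.length_eq_zero_iff.1 h.1.symm).symm
  | cons d u ih =>
    cases v with
    | nil => simp at h
    | cons d' v =>
      obtain ⟨h1, h2⟩ := h
      simp only [Dt.num] at h2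
      have h3 := congrArg (· % (C.b + 2)) h2
      simp only [Nat.add_mul_mod_self_left, Nat.mod_eq_of_lt (hl _)] at h3
      rw [h3, Nat.add_left_cancel_iff, Nat.mul_right_inj (by omega)] at h2
      rw [hi h3, ih ⟨by simpa using h1, h2⟩]

lemma third (u : List (X0 Tl A)) (h : (u.map lev).sum = 0) (g : Aff C.b)
    (hg : g = evA C.b (u.flatMap fun x => C.cw x 2)) :
    (0 ≤ g.r ∧ (g.r = 0 → ∃ ds : List (Option A), u = ds.map .E)) ∧
    (0 ≤ g.r - BB C.b ^ g.e + 1 ∧
      (g.r - BB C.b ^ g.e + 1 = 0 → ∃ ts : List (Option Tl), u = ts.map .W)) := by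
  induction u generalizing g with
  | nil =>
    subst hg
    simp
  | cons x u ih =>
    simp only [List.map_cons, List.sum_cons, Nat.add_eq_zero_iff] at h
    obtain ⟨⟨a1, a2⟩, a3, a4⟩ := ih h.2 _ rfl
    rw [List.flatMap_cons, evA_append] at hg
    generalize evA C.b (u.flatMap fun x => C.cw x 2) = g' at *
    have hB := BB_gt (b := C.b)
    have hB0 := BB_pos (b := C.b)
    cases x with
    | z => simp [lev] at h
    | y => simp [lev] at h
    | S => simp [lev] at h
    | W τ =>
      have : evA C.b (C.cw (.W τ) 2) = ⟨1, BB C.b - 1⟩ := by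
        rw [show C.cw (.W τ) 2 = List.replicate (C.b + 1) (false, true) ++ [(true, true)] from rfl,
          evA_blk]
        congr 1
        simp [BB]; ring
      rw [this] at hg
      have e1 : g.r = BB C.b - 1 + BB C.b * g'.r := by simp [hg]
      have e2 : g.r - BB C.b ^ g.e + 1 = BB C.b * (g'.r - BB C.b ^ g'.e + 1) := by
        rw [e1, hg, mul_e, zpow_add₀ hB0.ne']; simp; ring
      have := mul_nonneg hB0.le a1
      refine ⟨⟨by linarith, fun h0 => by linarith⟩, e2 ▸ mul_nonneg hB0.le a3, fun h0 => ?_⟩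
      obtain ⟨ts, rfl⟩ := a4 ((mul_eq_zero.1 (e2 ▸ h0)).resolve_left hB0.ne')
      exact ⟨τ :: ts, rfl⟩
    | E d =>
      have : evA C.b (C.cw (.E d) 2) = ⟨-1, 0⟩ := by
        rw [show C.cw (.E d) 2 = [(true, false)] from rfl]
        ext <;> simp [evA, tt]
      rw [this] at hg
      have e1 : g.r = (BB C.b)⁻¹ * g'.r := by simp [hg]
      have e2 : g.r - BB C.b ^ g.e + 1 =
          (BB C.b)⁻¹ * (g'.r - BB C.b ^ g'.e + 1) + (1 - (BB C.b)⁻¹) := by
        rw [e1, hg, mul_e, zpow_add₀ hB0.ne']; simp; ring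
      have i0 : 0 < (BB C.b)⁻¹ := inv_pos.2 hB0
      have i1 : (BB C.b)⁻¹ < 1 := inv_lt_one_of_one_lt₀ hB
      have := mul_nonneg i0.le a3
      refine ⟨⟨e1 ▸ mul_nonneg i0.le a1, fun h0 => ?_⟩, by linarith, fun h0 => by linarith⟩
      obtain ⟨ds, rfl⟩ := a2 ((mul_eq_zero.1 (e1 ▸ h0)).resolve_left i0.ne')
      exact ⟨d :: ds, rfl⟩

lemma split_one (u : List (X0 Tl A)) (h : (u.map lev).sum = 1) :
    ∃ u1 x u2, u = u1 ++ x :: u2 ∧ (u1.map lev).sum = 0 ∧ lev x = 1 ∧ (u2.map lev).sum = 0 := by
  induction u with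
  | nil => simp at h
  | cons x u ih =>
    simp only [List.map_cons, List.sum_cons] at h
    by_cases h0 : lev x = 0
    · obtain ⟨u1, y, u2, rfl, a, b, c⟩ := ih (by omega)
      exact ⟨x :: u1, y, u2, rfl, by simp [h0, a], b, c⟩
    · exact ⟨[], x, u, rfl, rfl, by omega, by omega⟩

lemma W0 (ts : List (Option Tl)) : ((ts.map X0.W).flatMap fun x => C.cw x 0) =
    C.enc ((ts.flatMap Option.toList).flatMap C.bot) := by
  induction ts with
  | nil => rfl
  | cons τ ts ih =>
    rw [List.map_cons, List.flatMap_cons, ih, List.flatMap_cons, List.flatMap_append, enc_append]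
    rfl

lemma W1 (ts : List (Option Tl)) : ((ts.map X0.W).flatMap fun x => C.cw x 1) =
    C.enc ((ts.flatMap Option.toList).flatMap C.top) := by
  induction ts with
  | nil => rfl
  | cons τ ts ih =>
    rw [List.map_cons, List.flatMap_cons, ih, List.flatMap_cons, List.flatMap_append, enc_append]
    rfl

lemma W2 (ts : List (Option Tl)) : evA C.b ((ts.map X0.W).flatMap fun x => C.cw x 2) =
    ⟨ts.length, BB C.b ^ ts.length - 1⟩ := by
  induction ts with
  | nil => simp; rfl
  | cons τ ts ih =>
    rw [List.map_cons, List.flatMap_cons, evA_append, ih,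
      show C.cw (.W τ) 2 = List.replicate (C.b + 1) (false, true) ++ [(true, true)] from rfl,
      evA_blk]
    ext
    · simp [add_comm]
    · simp [BB]; ring

lemma E01 (j : Fin 3) (hj : j ≠ 2) (ds : List (Option A)) :
    ((ds.map X0.E).flatMap fun x => C.cw x j) =
      invRev (C.enc (ds.flatMap Option.toList).reverse) := by
  induction ds with
  | nil => rfl
  | cons d ds ih =>
    rw [List.map_cons, List.flatMap_cons, ih, List.flatMap_cons, List.reverse_append, enc_append,
      invRev_append]
    congr 1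
    have : d.toList.reverse = d.toList := by cases d <;> rfl
    rw [this]
    fin_cases j
    · rfl
    · rfl
    · exact absurd rfl hj

lemma E2 (ds : List (Option A)) : evA C.b ((ds.map X0.E).flatMap fun x => C.cw x 2) =
    ⟨-ds.length, 0⟩ := by
  induction ds with
  | nil => simp; rfl
  | cons τ ts ih =>
    rw [List.map_cons, List.flatMap_cons, evA_append, ih,
      show C.cw (.E τ) 2 = [(true, false)] from rfl]
    ext <;> simp [evA, tt, add_comm]

def Dt.tg (st : List A) : Fin 3 → List (Bool × Bool) := ![invRev (C.enc st), [], [(false, false)]]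

lemma evA_ai (b : ℕ) : evA b [(false, false)] = ⟨0, -1⟩ := by
  ext <;> simp [evA, aa]

lemma blocks (hi : Function.Injective C.dg) (hl : ∀ d, C.dg d < C.b + 2) (st : List A)
    (ts : List (Option Tl)) (ds : List (Option A)) :
    gv C.b (C.tg st) 1 = ((ts.map X0.W ++ X0.S :: ds.map X0.E).map C.val).prod ↔
      ts.length = ds.length ∧
      st ++ (ts.flatMap Option.toList).flatMap C.bot = (ds.flatMap Option.toList).reverse ∧
      (ts.flatMap Option.toList).flatMap C.top ++ C.fin = (ds.flatMap Option.toList).reverse := by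
  have hs : ((ts.map X0.W ++ X0.S :: ds.map X0.E).map (lev (Tl := Tl) (A := A))).sum = 1 := by
    simp [lev, Function.comp_def]
  rw [prod_val, hs, gv, gv, Prod.mk.injEq, funext_iff, Fin.forall_fin_succ, Fin.forall_fin_two]
  simp only [List.flatMap_append, List.flatMap_cons, evA_append, Fin.succ_zero_eq_one,
    Fin.succ_one_eq_two, W0, W1, W2, E01 C 0 (by decide), E01 C 1 (by decide), E2, evA_invRev]
  rw [show C.tg st 0 = invRev (C.enc st) from rfl, show C.tg st 1 = [] from rfl,
    show C.tg st 2 = [(false, false)] from rfl, show C.cw .S 0 = [] from rfl,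
    show C.cw .S 1 = C.enc C.fin from rfl, show C.cw .S 2 = [(false, false)] from rfl, evA_ai,
    evA_invRev, evA_nil, one_mul, ← mul_assoc, ← evA_append, ← enc_append, eq_mul_inv_iff_mul_eq,
    eq_mul_inv_iff_mul_eq, one_mul, inv_mul_eq_iff_eq_mul, ← evA_append, ← enc_append]
  simp only [Aff.ext_iff (x := ⟨0, -1⟩), mul_e, mul_r]
  constructor
  · rintro ⟨⟨h0, h1, h2, -⟩, -⟩
    exact ⟨by omega, (enc_inj C hi hl h0).symm, (enc_inj C hi hl h1).symm⟩
  · rintro ⟨h2, h0, h1⟩
    refine ⟨⟨by rw [h0], by rw [h1], by omega, by simp; ring⟩, rfl⟩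

theorem mem_iff (hi : Function.Injective C.dg) (hl : ∀ d, C.dg d < C.b + 2) (st : List A) :
    InP C.val (gv C.b (C.tg st) 1) ↔
      ∃ w : List Tl, st ++ w.flatMap C.bot = w.flatMap C.top ++ C.fin := by
  constructor
  · rintro ⟨u, hu⟩
    have hu' := hu
    rw [prod_val] at hu'
    have h1 : (u.map lev).sum = 1 := by
      have : (1 : ℤ) = ((u.map lev).sum : ℕ) := congrArg Prod.snd hu'
      exact_mod_cast this.symm
    obtain ⟨u1, x, u2, rfl, a, b, c⟩ := split_one u h1
    have h2 : evA C.b [(false, false)] = _ := congrFun (congrArg Prod.fst hu') 2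
    simp only [gv, List.flatMap_append, List.flatMap_cons, evA_append] at h2
    obtain ⟨⟨a1, -⟩, a3, a4⟩ := third C u1 a _ rfl
    obtain ⟨⟨b1, b2⟩, -⟩ := third C u2 c _ rfl
    generalize evA C.b (u1.flatMap fun x => C.cw x 2) = g1 at *
    generalize evA C.b (u2.flatMap fun x => C.cw x 2) = g2 at *
    have h3 := congrArg Aff.r h2
    have p1 := zpow_pos (BB_pos (b := C.b)) g1.e
    have p2 := mul_nonneg p1.le b1
    cases x with
    | z =>
      simp [evA_ai, Dt.cw] at h3
      linarith
    | y => simp [lev] at b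
    | W => simp [lev] at b
    | E => simp [lev] at b
    | S =>
      rw [show C.cw .S 2 = [(false, false)] from rfl, evA_ai] at h3
      simp only [mul_r, zpow_zero, one_mul, mul_add] at h3
      obtain ⟨ts, rfl⟩ := a4 (by linarith)
      obtain ⟨ds, rfl⟩ := b2 ((mul_eq_zero.1 (show BB C.b ^ g1.e * g2.r = 0 by
        linarith)).resolve_left p1.ne')
      obtain ⟨-, h0, h1⟩ := (blocks C hi hl st ts ds).1 hu
      exact ⟨_, h0.trans h1.symm⟩
  · rintro ⟨w, hw⟩
    refine ⟨_, (blocks C hi hl st (w.map some ++ List.replicate (w.flatMap C.top ++ C.fin).length none)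
      ((w.flatMap C.top ++ C.fin).reverse.map some ++ List.replicate w.length none)).2 ?_⟩
    have e : ∀ {T : Type} (l : List T) (n : ℕ),
        (l.map some ++ List.replicate n none).flatMap Option.toList = l := by
      intro T l n
      induction l with
      | nil => induction n <;> simp_all [List.replicate_succ]
      | cons x l ih => simpa using ih
    rw [e, e, List.reverse_reverse]
    exact ⟨by simp; omega, hw, rfl⟩

end LeadInv
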