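import Mathlib
import Pool.Agent.Lib.lead.RevP2

set_option autoImplicit false

namespace LeadInv
open FreeGroup hiding map_mul map_one map_inv
open LeadPrim

lemma ev_map {K X X' : Type} [Group K] (f : X' → K) (g : X → X') (q : List (X × Bool)) :
    ev (f ∘ g) q = ev f (q.map (Prod.map g id)) := by
  induction q with
  | nil => simp
  | cons l q ih => obtain ⟨x, _ | _⟩ := l <;> simp [ih]

lemma pr_fin {α β : Type} [Primcodable α] [Primcodable β] [Finite α] (f : α → β) : PR f :=
  Primrec.dom_finite f

@[fun_prop] lemma pr_invRev {α β : Type} [Primcodable α] [Primcodable β]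
    {f : α → List (β × Bool)} (hf : PR f) : PR fun a => invRev (f a) := by
  unfold invRev
  fun_prop

variable {Tl A : Type} (C : Dt Tl A) {n : ℕ} (e : Fin n ≃ X0 Tl A)

def lp (l : X0 Tl A × Bool) : ℕ := bif l.2 then lev l.1 else 0
def lm (l : X0 Tl A × Bool) : ℕ := bif l.2 then 0 else lev l.1

lemma sum_ll (q : List (X0 Tl A × Bool)) :
    (q.map ll).sum = ((q.map lp).sum : ℕ) - ((q.map lm).sum : ℕ) := by
  induction q with
  | nil => simp
  | cons l q ih =>
    obtain ⟨x, _ | _⟩ := l <;>
    simp only [List.map_cons, List.sum_cons, ih, ll, lp, lm, cond] <;> push_cast <;> ring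

lemma wp_one : ∃ F : List (Fin n × Bool) → Bool, Primrec F ∧
    ∀ q, F q = true ↔ ev (C.val ∘ e) q = 1 := by
  let c : Fin 3 → Fin n × Bool → List (Bool × Bool) := fun j l => C.cl (Prod.map e id l) j
  let T : List (Bool × Bool) → Bool := fun w =>
    decide ((nf C.b w).1 = (nf C.b w).2.2.2) && decide ((nf C.b w).2.1 = (nf C.b w).2.2.1)
  have hT : PR T := by
    have := PR.of (prim_nf C.b)
    simp only [T]
    fun_prop
  have hT' : ∀ w, T w = true ↔ evA C.b w = 1 := fun w => by simp [T, evA_eq_one]
  have h0 := pr_fin (c 0)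
  have h1 := pr_fin (c 1)
  have h2 := pr_fin (c 2)
  have h3 := pr_fin (lp ∘ Prod.map e id)
  have h4 := pr_fin (lm ∘ Prod.map e id)
  refine ⟨fun q => T (q.flatMap (c 0)) && T (q.flatMap (c 1)) && T (q.flatMap (c 2)) &&
    decide ((q.map (lp ∘ Prod.map e id)).sum = (q.map (lm ∘ Prod.map e id)).sum), ?_, fun q => ?_⟩
  · clear_value T c
    generalize lp ∘ Prod.map e id = f at *
    generalize lm ∘ Prod.map e id = g at *
    apply PR.prim
    fun_prop
  · rw [ev_map, ev_val, gv, Prod.mk_eq_one, funext_iff, Fin.forall_fin_succ, Fin.forall_fin_two,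
      sum_ll]
    simp only [Bool.and_eq_true, hT', decide_eq_true_eq, List.flatMap_map, List.map_map, c,
      Pi.one_apply, ofAdd_eq_one, sub_eq_zero, Nat.cast_inj, and_assoc]
    rfl

lemma data_fin : ∃ R : Set (List (Fin n) × List (Fin n)),
    R.Finite ∧ Data (C.val ∘ e) (e.symm .z) R := by
  have : Finite (X0 Tl A) := Finite.of_equiv _ e
  have : Finite Tl := Finite.of_injective (fun τ => (X0.W (some τ) : X0 Tl A))
    fun _ _ h => by simpa using h
  have : Finite A := Finite.of_injective (fun τ => (X0.E (some τ) : X0 Tl A))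
    fun _ _ h => by simpa using h
  have m : ∀ u : List (X0 Tl A), (u.map e.symm).map (C.val ∘ e) = u.map C.val := by
    intro u; simp [Function.comp_def]
  refine exists_data _ _ (fun x => by simpa using val_comm C (e x)) (fun x => ?_)
    ((fun p => (p.1.map e.symm, p.2.map e.symm)) '' C.R0) ((R0_finite C).image _) ?_ ?_
  · obtain ⟨x', k, h⟩ := val_inv C (e x)
    exact ⟨x'.map e.symm, k, by rw [m]; simpa using h⟩
  · rintro _ ⟨p, hp, rfl⟩
    simp only [m]
    exact R0_valid C p hp
  · intro K _ f hz hf q hq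
    have := R0_pres C K (f ∘ e.symm) (fun x => hz _)
      (fun p hp => by simpa only [List.map_map] using hf _ ⟨p, hp, rfl⟩) _ ((ev_map C.val e q).symm.trans hq)
    rw [← ev_map] at this
    simpa [Function.comp_def] using this

def rw0 (st : List A) : List (Fin n × Bool) :=
  pos ((YY (C.tg st)).map e.symm) ++ invRev (pos (List.replicate (2 * len (C.tg st) - 1) (e.symm .z)))

lemma ev_rw0 (st : List A) : ev (C.val ∘ e) (rw0 C e st) = gv C.b (C.tg st) 1 := by
  have m : ∀ u : List (X0 Tl A), (u.map e.symm).map (C.val ∘ e) = u.map C.val := by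
    intro u; simp [Function.comp_def]
  have h1 : 1 ≤ len (C.tg st) := by
    unfold len
    rw [show C.tg st 2 = [(false, false)] from rfl]
    simp
  rw [rw0, ev_append, ev_invRev, ev_pos, ev_pos, m, val_YY, List.map_replicate,
    List.prod_replicate, Function.comp_apply, e.apply_symm_apply, val_z, gv_inv, gv_mul]
  congr 1
  · funext j; simp
  · omega

lemma prim_rw0 (p s : List A) (a : A) :
    Primrec fun k : ℕ => rw0 C e (p ++ List.replicate k a ++ s) := by
  have h1 : ∀ k, C.enc (p ++ List.replicate k a ++ s) =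
      C.enc p ++ (List.replicate k (C.enc [a])).flatten ++ C.enc s := by
    intro k
    rw [enc_append, enc_append]
    congr 2
    induction k with
    | zero => rfl
    | succ k ih =>
      rw [List.replicate_succ, List.replicate_succ, List.flatten_cons, ← ih, ← enc_append]; rfl
  have h2 := pr_fin fun l => (e.symm (.y 0 l), true)
  have h3 : PR fun k : ℕ => invRev (C.enc p ++ (List.replicate k (C.enc [a])).flatten ++ C.enc s) := by
    fun_prop
  have : PR fun k : ℕ =>
      ((invRev (C.enc p ++ (List.replicate k (C.enc [a])).flatten ++ C.enc s)).map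
        (fun l => (e.symm (.y 0 l), true)) ++ [(e.symm (.y 2 (false, false)), true)]) ++
      invRev (List.replicate (2 * ((invRev (C.enc p ++ (List.replicate k (C.enc [a])).flatten ++
        C.enc s)).length + 0 + 1) - 1) (e.symm .z, true)) := by
    generalize (fun l => (e.symm (X0.y 0 l), true)) = f at *
    fun_prop
  refine this.prim.of_eq fun k => ?_
  rw [← h1]
  simp [rw0, YY, Y, pos, len, Dt.tg]

theorem main : ∃ (n : ℕ) (rels : Set (List (Fin n × Bool))), rels.Finite ∧
    EUnitary (InvM rels) ∧ PrefixRightReversible (InvM rels) ∧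
    ComputablePred (fun p : List (Fin n × Bool) × List (Fin n × Bool) =>
      Sigma (cls rels p.1) (cls rels p.2)) ∧
    ¬ ComputablePred (fun p : List (Fin n × Bool) × List (Fin n × Bool) =>
      cls rels p.1 = cls rels p.2) := by
  obtain ⟨A, fA, Tl, fT, top, bot, p, s, fin, a, hu⟩ := exists_gpcp
  obtain ⟨m, ⟨dA⟩⟩ := Finite.exists_equiv_fin A
  let C : Dt Tl A := ⟨m, fun d => dA d, top, bot, fin⟩
  have hi : Function.Injective C.dg := Fin.val_injective.comp dA.injective
  have hl : ∀ d, C.dg d < C.b + 2 := fun d => (dA d).2.trans (Nat.lt_add_of_pos_right two_pos)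
  obtain ⟨n, ⟨e'⟩⟩ := Finite.exists_equiv_fin (X0 Tl A)
  let e := e'.symm
  obtain ⟨R, hR, D⟩ := data_fin C e
  obtain ⟨F, hF, hF'⟩ := wp_one C e
  refine ⟨n, relsOf R, hR.image _, D.eunitary, D.reversible, ?_, fun hc => hu ?_⟩
  · have h1 := PR.of hF
    have : PR fun q : List (Fin n × Bool) × List (Fin n × Bool) => F (q.1 ++ invRev q.2) := by
      fun_prop
    refine ComputablePred.computable_iff.2 ⟨_, this.prim.to_comp, funext fun q => ?_⟩
    rw [D.sigma_iff, hF', ev_append, ev_invRev, mul_inv_eq_one]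
  · have h1 := PR.of (prim_rw0 C e p s a)
    have h2 : PR fun k : ℕ => (rw0 C e (p ++ List.replicate k a ++ s) ++
        invRev (rw0 C e (p ++ List.replicate k a ++ s)), ([] : List (Fin n × Bool))) := by
      exact PR.pair (PR.append h1 (pr_invRev h1)) (PR.const _)
    obtain ⟨f, hf, hf'⟩ := ComputablePred.computable_iff.1 hc
    refine ComputablePred.computable_iff.2 ⟨_, hf.comp h2.prim.to_comp, funext fun k => ?_⟩
    have h3 := D.ru_iff _ _ (rw0 C e (p ++ List.replicate k a ++ s)) rfl
    rw [ev_rw0] at h3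
    have h4 : InP (C.val ∘ e) (gv C.b (C.tg (p ++ List.replicate k a ++ s)) 1) ↔
        InP C.val (gv C.b (C.tg (p ++ List.replicate k a ++ s)) 1) :=
      ⟨fun ⟨u, h⟩ => ⟨u.map e, by rw [h, List.map_map]⟩,
        fun ⟨u, h⟩ => ⟨u.map e.symm, by rw [h]; simp [Function.comp_def]⟩⟩
    rw [← congrFun hf', h3, h4, mem_iff C hi hl]

end LeadInv
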