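import Mathlib

set_option autoImplicit false

namespace LeadTT

inductive Fm
  | atom (p : ℕ)
  | neg (φ : Fm)
  | and (φ ψ : Fm)
  | or (φ ψ : Fm)
  | imp (φ ψ : Fm)

/-- The sentence letters of a formula. -/
def Fm.vars : Fm → Finset ℕ
  | .atom p => {p}
  | .neg φ => φ.vars
  | .and φ ψ => φ.vars ∪ ψ.vars
  | .or φ ψ => φ.vars ∪ ψ.vars
  | .imp φ ψ => φ.vars ∪ ψ.vars

/-- A node of a branch: label, trace (positions on the branch), position of the partner if the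
node is critical. -/
structure Node where
  lab : Fm
  tr : Set ℕ
  pt : Option ℕ

/-- Parity of a set `T` of positions: a critical node is in `T` iff its partner is. -/
def Par (B : List Node) (T : Set ℕ) : Prop :=
  ∀ (c d : ℕ) (n : Node), B[c]? = some n → n.pt = some d → (c ∈ T ↔ d ∈ T)

/-- Add a non-critical node whose inputs have joint trace `T`. -/
def ad (B : List Node) (φ : Fm) (T : Set ℕ) : List Node := B ++ [⟨φ, insert B.length T, none⟩]

/-- Add a critical pair whose input has trace `T`. -/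
def adc (B : List Node) (φ ψ : Fm) (T : Set ℕ) : List Node :=
  B ++ [⟨φ, insert B.length T, some (B.length + 1)⟩, ⟨ψ, insert (B.length + 1) T, some B.length⟩]

def root (φ : Fm) : Node := ⟨.neg φ, {0}, none⟩

/-- The branch `B` can be continued to a finite tree all of whose branches crash with parity. -/
inductive Closes : List Node → Prop
  | crash (B : List Node) (m n : Node) : m ∈ B → n ∈ B → n.lab = .neg m.lab →
      Par B (m.tr ∪ n.tr) → Closes B
  | dn (B : List Node) (m : Node) (φ : Fm) : m ∈ B → m.lab = .neg (.neg φ) →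
      Closes (ad B φ m.tr) → Closes B
  | conj (B : List Node) (m : Node) (φ ψ : Fm) : m ∈ B → m.lab = .and φ ψ →
      Closes (ad (ad B φ m.tr) ψ m.tr) → Closes B
  | nor (B : List Node) (m : Node) (φ ψ : Fm) : m ∈ B → m.lab = .neg (.or φ ψ) →
      Closes (ad (ad B (.neg φ) m.tr) (.neg ψ) m.tr) → Closes B
  | disj (B : List Node) (m : Node) (φ ψ : Fm) : m ∈ B → m.lab = .or φ ψ →
      Closes (ad B φ m.tr) → Closes (ad B ψ m.tr) → Closes B
  | nand (B : List Node) (m : Node) (φ ψ : Fm) : m ∈ B → m.lab = .neg (.and φ ψ) →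
      Closes (ad B (.neg φ) m.tr) → Closes (ad B (.neg ψ) m.tr) → Closes B
  | mp (B : List Node) (m n : Node) (ψ : Fm) : m ∈ B → n ∈ B → n.lab = .imp m.lab ψ →
      Closes (ad B ψ (m.tr ∪ n.tr)) → Closes B
  | cc (B : List Node) (m : Node) (φ ψ : Fm) : m ∈ B → m.lab = .neg (.imp φ ψ) →
      Closes (adc B φ (.neg ψ) m.tr) → Closes B
  | rr (B : List Node) (m : Node) (ψ : Fm) : m ∈ B → Closes [root (.imp m.lab ψ)] →
      Closes (ad B ψ m.tr) → Closes B

/-- Acceptable formulas. -/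
def Acc (φ : Fm) : Prop := Closes [root φ]

/-! ### A version recording only the critical nodes of each trace -/

abbrev Id := ℕ × Bool

def Bal (S : Set Id) : Prop := ∀ k, (k, true) ∈ S ↔ (k, false) ∈ S

inductive Un : Fm → Fm → Prop
  | dn (φ : Fm) : Un (.neg (.neg φ)) φ
  | a1 (φ ψ : Fm) : Un (.and φ ψ) φ
  | a2 (φ ψ : Fm) : Un (.and φ ψ) ψ
  | o1 (φ ψ : Fm) : Un (.neg (.or φ ψ)) (.neg φ)
  | o2 (φ ψ : Fm) : Un (.neg (.or φ ψ)) (.neg ψ)

inductive Fk : Fm → Fm → Fm → Prop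
  | or (φ ψ : Fm) : Fk (.or φ ψ) φ ψ
  | nand (φ ψ : Fm) : Fk (.neg (.and φ ψ)) (.neg φ) (.neg ψ)

inductive Cl : ℕ → List (Fm × Set Id) → Prop
  | crash {k : ℕ} {Γ : List (Fm × Set Id)} {φ : Fm} {S S' : Set Id} : (φ, S) ∈ Γ →
      (.neg φ, S') ∈ Γ → Bal (S ∪ S') → Cl k Γ
  | un {k : ℕ} {Γ : List (Fm × Set Id)} {φ ψ : Fm} {S : Set Id} : (φ, S) ∈ Γ → Un φ ψ →
      Cl k ((ψ, S) :: Γ) → Cl k Γ
  | fk {k : ℕ} {Γ : List (Fm × Set Id)} {φ ψ χ : Fm} {S : Set Id} : (φ, S) ∈ Γ → Fk φ ψ χ →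
      Cl k ((ψ, S) :: Γ) → Cl k ((χ, S) :: Γ) → Cl k Γ
  | mp {k : ℕ} {Γ : List (Fm × Set Id)} {φ ψ : Fm} {S S' : Set Id} : (φ, S) ∈ Γ →
      (.imp φ ψ, S') ∈ Γ → Cl k ((ψ, S ∪ S') :: Γ) → Cl k Γ
  | cc {k : ℕ} {Γ : List (Fm × Set Id)} {φ ψ : Fm} {S : Set Id} : (.neg (.imp φ ψ), S) ∈ Γ →
      Cl (k + 1) ((φ, insert (k, true) S) :: (.neg ψ, insert (k, false) S) :: Γ) → Cl k Γ
  | rr {k : ℕ} {Γ : List (Fm × Set Id)} {φ ψ : Fm} {S : Set Id} : (φ, S) ∈ Γ →
      Cl 0 [(.neg (.imp φ ψ), ∅)] → Cl k ((ψ, S) :: Γ) → Cl k Γ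

def Ac (φ : Fm) : Prop := Cl 0 [(.neg φ, ∅)]

lemma Cl.mono {k : ℕ} {Γ : List (Fm × Set Id)} (h : Cl k Γ) : ∀ Γ', Γ ⊆ Γ' → Cl k Γ' := by
  induction h with
  | crash a b c => exact fun _ s => .crash (s a) (s b) c
  | un a b _ ih => exact fun _ s => .un (s a) b (ih _ (List.cons_subset_cons _ s))
  | fk a b _ _ ih ih' =>
    exact fun _ s => .fk (s a) b (ih _ (List.cons_subset_cons _ s))
      (ih' _ (List.cons_subset_cons _ s))
  | mp a b _ ih => exact fun _ s => .mp (s a) (s b) (ih _ (List.cons_subset_cons _ s))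
  | cc a _ ih =>
    exact fun _ s => .cc (s a) (ih _ (List.cons_subset_cons _ (List.cons_subset_cons _ s)))
  | rr a b _ _ ih => exact fun _ s => .rr (s a) b (ih _ (List.cons_subset_cons _ s))

def fm (nm : ℕ → Option Id) (T : Set ℕ) : Set Id := {s | ∃ i ∈ T, nm i = some s}

lemma fm_union (nm : ℕ → Option Id) (T T' : Set ℕ) : fm nm (T ∪ T') = fm nm T ∪ fm nm T' := by
  ext s
  simp only [fm, Set.mem_union, Set.mem_setOf_eq, or_and_right, exists_or]

structure Nm (B : List Node) (k : ℕ) (nm : ℕ → Option Id) : Prop where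
  a : ∀ i s, nm i = some s → i < B.length ∧ s.1 < k
  b : ∀ T, Par B T ↔ Bal (fm nm T)
  c : ∀ n ∈ B, ∀ i ∈ n.tr, i < B.length

lemma mem_ad {B : List Node} {φ : Fm} {T : Set ℕ} {n : Node} :
    n ∈ ad B φ T ↔ n ∈ B ∨ n = ⟨φ, insert B.length T, none⟩ := by simp [ad]

lemma Nm.fm_ins {B : List Node} {k : ℕ} {nm : ℕ → Option Id} (h : Nm B k nm) (T : Set ℕ) :
    fm nm (insert B.length T) = fm nm T := by
  ext s
  simp only [fm, Set.mem_insert_iff, Set.mem_setOf_eq]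
  constructor
  · rintro ⟨i, rfl | hi, e⟩
    · exact absurd (h.a _ _ e).1 (lt_irrefl _)
    · exact ⟨i, hi, e⟩
  · rintro ⟨i, hi, e⟩
    exact ⟨i, Or.inr hi, e⟩

lemma Nm.ad {B : List Node} {k : ℕ} {nm : ℕ → Option Id} (h : Nm B k nm) (φ : Fm) {T : Set ℕ}
    (hT : ∀ i ∈ T, i < B.length) : Nm (ad B φ T) k nm := by
  have hl : (LeadTT.ad B φ T).length = B.length + 1 := by simp [LeadTT.ad]
  refine ⟨fun i s e => ⟨by have := (h.a i s e).1; omega, (h.a i s e).2⟩, fun T' => ?_, ?_⟩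
  · rw [← h.b]
    constructor
    · intro hp c d n e1 e2
      refine hp c d n ?_ e2
      rw [LeadTT.ad, List.getElem?_append_left (List.getElem?_eq_some_iff.1 e1).1, e1]
    · intro hp c d n e1 e2
      by_cases hc : c < B.length
      · rw [LeadTT.ad, List.getElem?_append_left hc] at e1
        exact hp c d n e1 e2
      · rw [LeadTT.ad, List.getElem?_append_right (by omega)] at e1
        have := List.mem_of_getElem? e1
        simp only [List.mem_singleton] at this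
        subst this
        simp at e2
  · intro n hn i hi
    rcases mem_ad.1 hn with hn | rfl
    · have := h.c n hn i hi
      omega
    · rcases hi with rfl | hi
      · omega
      · have := hT i hi
        omega

lemma mem_adc {B : List Node} {φ ψ : Fm} {T : Set ℕ} {n : Node} :
    n ∈ adc B φ ψ T ↔ n ∈ B ∨ n = ⟨φ, insert B.length T, some (B.length + 1)⟩ ∨
      n = ⟨ψ, insert (B.length + 1) T, some B.length⟩ := by simp [adc]

lemma Nm.adc {B : List Node} {k : ℕ} {nm : ℕ → Option Id} (h : Nm B k nm) (φ ψ : Fm) {T : Set ℕ}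
    (hT : ∀ i ∈ T, i < B.length) : ∃ nm', Nm (adc B φ ψ T) (k + 1) nm' ∧
      (∀ n ∈ B, fm nm' n.tr = fm nm n.tr) ∧
      fm nm' (insert B.length T) = insert (k, true) (fm nm T) ∧
      fm nm' (insert (B.length + 1) T) = insert (k, false) (fm nm T) := by
  have hl : (LeadTT.adc B φ ψ T).length = B.length + 2 := by simp [LeadTT.adc]
  let nm' : ℕ → Option Id := fun i =>
    if i = B.length then some (k, true) else if i = B.length + 1 then some (k, false) else nm i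
  have key : ∀ (U : Set ℕ) (s : Id), s ∈ fm nm' U ↔
      s ∈ fm nm U ∨ (s = (k, true) ∧ B.length ∈ U) ∨ (s = (k, false) ∧ B.length + 1 ∈ U) := by
    intro U s
    constructor
    · rintro ⟨i, hi, e⟩
      simp only [nm'] at e
      split_ifs at e with h1 h2
      · exact Or.inr (Or.inl ⟨(Option.some.inj e).symm, h1 ▸ hi⟩)
      · exact Or.inr (Or.inr ⟨(Option.some.inj e).symm, h2 ▸ hi⟩)
      · exact Or.inl ⟨i, hi, e⟩
    · rintro (⟨i, hi, e⟩ | ⟨rfl, hi⟩ | ⟨rfl, hi⟩)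
      · have := (h.a i s e).1
        exact ⟨i, hi, by simp only [nm']; rw [if_neg (by omega), if_neg (by omega), e]⟩
      · exact ⟨_, hi, by simp [nm']⟩
      · exact ⟨_, hi, by simp [nm']⟩
  have fr : ∀ (U : Set ℕ) (b : Bool), (k, b) ∉ fm nm U := by
    rintro U b ⟨i, -, e⟩
    exact absurd (h.a _ _ e).2 (lt_irrefl _)
  have nT : B.length ∉ T := fun a => absurd (hT _ a) (lt_irrefl _)
  have nT' : B.length + 1 ∉ T := fun a => by have := hT _ a; omega
  have ins' : fm nm (insert (B.length + 1) T) = fm nm T := by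
    ext s
    simp only [fm, Set.mem_insert_iff, Set.mem_setOf_eq]
    constructor
    · rintro ⟨i, rfl | hi, e⟩
      · have := (h.a _ _ e).1
        omega
      · exact ⟨i, hi, e⟩
    · rintro ⟨i, hi, e⟩
      exact ⟨i, Or.inr hi, e⟩
  refine ⟨nm', ⟨?_, fun U => ?_, ?_⟩, ?_, ?_, ?_⟩
  · intro i s e
    simp only [nm'] at e
    split_ifs at e with h1 h2
    · obtain rfl := Option.some.inj e
      exact ⟨by omega, by simp⟩
    · obtain rfl := Option.some.inj e
      exact ⟨by omega, by simp⟩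
    · have := h.a i s e
      omega
  · have e1 : Par (LeadTT.adc B φ ψ T) U ↔ Par B U ∧ (B.length ∈ U ↔ B.length + 1 ∈ U) := by
      constructor
      · intro hp
        refine ⟨fun c d n e1 e2 => hp c d n ?_ e2, hp _ _ ⟨φ, insert B.length T, _⟩ ?_ rfl⟩
        · rw [LeadTT.adc, List.getElem?_append_left (List.getElem?_eq_some_iff.1 e1).1, e1]
        · simp [LeadTT.adc]
      · rintro ⟨hp, hq⟩ c d n e1 e2
        by_cases hc : c < B.length
        · rw [LeadTT.adc, List.getElem?_append_left hc] at e1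
          exact hp c d n e1 e2
        · rw [LeadTT.adc, List.getElem?_append_right (by omega)] at e1
          obtain ⟨j, rfl⟩ : ∃ j, c = B.length + j := ⟨c - B.length, by omega⟩
          rw [Nat.add_sub_cancel_left] at e1
          rcases j with _ | _ | j
          · obtain rfl := Option.some.inj e1
            obtain rfl := Option.some.inj e2
            exact hq
          · obtain rfl := Option.some.inj e1
            obtain rfl := Option.some.inj e2
            exact hq.symm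
          · simp at e1
    rw [e1, h.b]
    constructor
    · rintro ⟨h1, h2⟩ j
      rw [key, key, h1 j]
      simp [h2]
    · intro h1
      constructor
      · intro j
        by_cases hj : j = k
        · subst hj
          simp [fr]
        · have := h1 j
          rw [key, key] at this
          simpa [hj] using this
      · have := h1 k
        rw [key, key] at this
        simpa [fr] using this
  · intro n hn i hi
    rcases mem_adc.1 hn with hn | rfl | rfl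
    · have := h.c n hn i hi
      omega
    · rcases hi with rfl | hi
      · omega
      · have := hT i hi
        omega
    · rcases hi with rfl | hi
      · omega
      · have := hT i hi
        omega
  · intro n hn
    ext s
    have a1 : B.length ∉ n.tr := fun a => absurd (h.c n hn _ a) (lt_irrefl _)
    have a2 : B.length + 1 ∉ n.tr := fun a => by have := h.c n hn _ a; omega
    simp [key, a1, a2]
  · ext s
    rw [key, h.fm_ins]
    simp [nT', or_comm]
  · ext s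
    rw [key, ins']
    simp [nT, or_comm]

lemma nm_root (φ : Fm) : Nm [root φ] 0 fun _ => none := by
  refine ⟨by simp, fun T => ⟨fun _ j => by simp [fm], fun _ c d n e1 e2 => ?_⟩, by simp [root]⟩
  have := List.mem_of_getElem? e1
  simp only [List.mem_singleton] at this
  subst this
  simp [root] at e2

lemma fm_none (T : Set ℕ) : fm (fun _ => none) T = ∅ := by
  ext s
  simp [fm]

lemma cov_ad {B : List Node} {k : ℕ} {nm : ℕ → Option Id} (h : Nm B k nm)
    {Γ : List (Fm × Set Id)} (hΓ : ∀ n ∈ B, (n.lab, fm nm n.tr) ∈ Γ) (φ : Fm) (T : Set ℕ) :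
    ∀ n ∈ ad B φ T, (n.lab, fm nm n.tr) ∈ (φ, fm nm T) :: Γ := by
  intro n hn
  rcases mem_ad.1 hn with hn | rfl
  · exact .tail _ (hΓ n hn)
  · simp only [h.fm_ins]
    exact .head _

lemma lt_ad {B : List Node} {φ : Fm} {T U : Set ℕ} (h : ∀ i ∈ U, i < B.length) :
    ∀ i ∈ U, i < (ad B φ T).length := fun i hi => by
  have := h i hi
  simp only [ad, List.length_append, List.length_singleton]
  omega

lemma cl_of {B : List Node} (h : Closes B) : ∀ k nm Γ, Nm B k nm →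
    (∀ n ∈ B, (n.lab, fm nm n.tr) ∈ Γ) → Cl k Γ := by
  induction h with
  | crash B m n hm hn e hp =>
    intro k nm Γ h hΓ
    exact .crash (hΓ m hm) (e ▸ hΓ n hn) (fm_union nm _ _ ▸ (h.b _).1 hp)
  | dn B m φ hm e _ ih =>
    intro k nm Γ h hΓ
    exact .un (e ▸ hΓ m hm) (.dn φ) (ih k nm _ (h.ad _ (h.c m hm)) (cov_ad h hΓ _ _))
  | conj B m φ ψ hm e _ ih =>
    intro k nm Γ h hΓ
    have h1 := h.ad φ (h.c m hm)
    exact .un (e ▸ hΓ m hm) (.a1 φ ψ) (.un (.tail _ (e ▸ hΓ m hm)) (.a2 φ ψ)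
      (ih k nm _ (h1.ad _ (lt_ad (h.c m hm))) (cov_ad h1 (cov_ad h hΓ _ _) _ _)))
  | nor B m φ ψ hm e _ ih =>
    intro k nm Γ h hΓ
    have h1 := h.ad (.neg φ) (h.c m hm)
    exact .un (e ▸ hΓ m hm) (.o1 φ ψ) (.un (.tail _ (e ▸ hΓ m hm)) (.o2 φ ψ)
      (ih k nm _ (h1.ad _ (lt_ad (h.c m hm))) (cov_ad h1 (cov_ad h hΓ _ _) _ _)))
  | disj B m φ ψ hm e _ _ ih ih' =>
    intro k nm Γ h hΓ
    exact .fk (e ▸ hΓ m hm) (.or φ ψ) (ih k nm _ (h.ad _ (h.c m hm)) (cov_ad h hΓ _ _))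
      (ih' k nm _ (h.ad _ (h.c m hm)) (cov_ad h hΓ _ _))
  | nand B m φ ψ hm e _ _ ih ih' =>
    intro k nm Γ h hΓ
    exact .fk (e ▸ hΓ m hm) (.nand φ ψ) (ih k nm _ (h.ad _ (h.c m hm)) (cov_ad h hΓ _ _))
      (ih' k nm _ (h.ad _ (h.c m hm)) (cov_ad h hΓ _ _))
  | mp B m n ψ hm hn e _ ih =>
    intro k nm Γ h hΓ
    refine .mp (hΓ m hm) (e ▸ hΓ n hn) (ih k nm _ (h.ad _ ?_) ?_)
    · rintro i (hi | hi)
      · exact h.c m hm i hi
      · exact h.c n hn i hi
    · rw [← fm_union]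
      exact cov_ad h hΓ _ _
  | cc B m φ ψ hm e _ ih =>
    intro k nm Γ h hΓ
    obtain ⟨nm', h1, h2, h3, h4⟩ := h.adc φ (.neg ψ) (h.c m hm)
    refine .cc (e ▸ hΓ m hm) (ih _ nm' _ h1 fun n hn => ?_)
    rcases mem_adc.1 hn with hn | rfl | rfl
    · rw [h2 n hn]
      exact .tail _ (.tail _ (hΓ n hn))
    · simp only [h3]
      exact .head _
    · simp only [h4]
      exact .tail _ (.head _)
  | rr B m ψ hm _ _ ih ih' =>
    intro k nm Γ h hΓ
    refine .rr (hΓ m hm) (ih 0 _ _ (nm_root _) ?_)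
      (ih' k nm _ (h.ad _ (h.c m hm)) (cov_ad h hΓ _ _))
    simp [root, fm_none]

def Cov (B : List Node) (nm : ℕ → Option Id) (Γ : List (Fm × Set Id)) : Prop :=
  ∀ p ∈ Γ, ∃ n ∈ B, n.lab = p.1 ∧ fm nm n.tr = p.2

lemma Cov.ad {B : List Node} {nm : ℕ → Option Id} {Γ : List (Fm × Set Id)} (hΓ : Cov B nm Γ)
    (φ : Fm) (T : Set ℕ) : Cov (ad B φ T) nm Γ := fun p hp =>
  let ⟨n, h1, h2⟩ := hΓ p hp
  ⟨n, mem_ad.2 (Or.inl h1), h2⟩

lemma Cov.new {B : List Node} {k : ℕ} {nm : ℕ → Option Id} (h : Nm B k nm)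
    {Γ : List (Fm × Set Id)} (hΓ : Cov B nm Γ) (φ : Fm) (T : Set ℕ) :
    Cov (LeadTT.ad B φ T) nm ((φ, fm nm T) :: Γ) := by
  intro p hp
  rcases List.mem_cons.1 hp with rfl | hp
  · exact ⟨_, mem_ad.2 (Or.inr rfl), rfl, h.fm_ins T⟩
  · exact hΓ.ad φ T p hp

lemma closes_of {k : ℕ} {Γ : List (Fm × Set Id)} (h : Cl k Γ) :
    ∀ B nm, Nm B k nm → Cov B nm Γ → Closes B := by
  induction h with
  | crash a b c =>
    intro B nm h hΓ
    obtain ⟨m, hm, e1, e2⟩ := hΓ _ a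
    obtain ⟨n, hn, e3, e4⟩ := hΓ _ b
    simp only at e1 e2 e3 e4
    exact .crash B m n hm hn (e1 ▸ e3) ((h.b _).2 (by rwa [fm_union, e2, e4]))
  | un a b _ ih =>
    intro B nm h hΓ
    obtain ⟨m, hm, e1, e2⟩ := hΓ _ a
    simp only at e1 e2
    subst e2
    have c := h.c m hm
    cases b with
    | dn => exact .dn B m _ hm e1 (ih _ nm (h.ad _ c) (hΓ.new h _ _))
    | a1 => exact .conj B m _ _ hm e1 (ih _ nm ((h.ad _ c).ad _ (lt_ad c)) ((hΓ.new h _ _).ad _ _))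
    | a2 =>
      exact .conj B m _ _ hm e1
        (ih _ nm ((h.ad _ c).ad _ (lt_ad c)) ((hΓ.ad _ _).new (h.ad _ c) _ _))
    | o1 => exact .nor B m _ _ hm e1 (ih _ nm ((h.ad _ c).ad _ (lt_ad c)) ((hΓ.new h _ _).ad _ _))
    | o2 =>
      exact .nor B m _ _ hm e1
        (ih _ nm ((h.ad _ c).ad _ (lt_ad c)) ((hΓ.ad _ _).new (h.ad _ c) _ _))
  | fk a b _ _ ih ih' =>
    intro B nm h hΓ
    obtain ⟨m, hm, e1, e2⟩ := hΓ _ a
    simp only at e1 e2
    subst e2
    have c := h.c m hm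
    cases b with
    | or =>
      exact .disj B m _ _ hm e1 (ih _ nm (h.ad _ c) (hΓ.new h _ _))
        (ih' _ nm (h.ad _ c) (hΓ.new h _ _))
    | nand =>
      exact .nand B m _ _ hm e1 (ih _ nm (h.ad _ c) (hΓ.new h _ _))
        (ih' _ nm (h.ad _ c) (hΓ.new h _ _))
  | mp a b _ ih =>
    intro B nm h hΓ
    obtain ⟨m, hm, e1, e2⟩ := hΓ _ a
    obtain ⟨n, hn, e3, e4⟩ := hΓ _ b
    simp only at e1 e2 e3 e4
    subst e1 e2 e4
    refine .mp B m n _ hm hn e3 (ih _ nm (h.ad _ ?_) ?_)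
    · rintro i (hi | hi)
      · exact h.c m hm i hi
      · exact h.c n hn i hi
    · rw [← fm_union]
      exact hΓ.new h _ _
  | @cc k Γ φ ψ S a _ ih =>
    intro B nm h hΓ
    obtain ⟨m, hm, e1, e2⟩ := hΓ _ a
    simp only at e1 e2
    subst e2
    obtain ⟨nm', h1, h2, h3, h4⟩ := h.adc φ (.neg ψ) (h.c m hm)
    refine .cc B m _ _ hm e1 (ih _ nm' h1 fun p hp => ?_)
    rcases List.mem_cons.1 hp with rfl | hp
    · exact ⟨_, mem_adc.2 (Or.inr (Or.inl rfl)), rfl, h3⟩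
    rcases List.mem_cons.1 hp with rfl | hp
    · exact ⟨_, mem_adc.2 (Or.inr (Or.inr rfl)), rfl, h4⟩
    · obtain ⟨n, hn, e3, e4⟩ := hΓ p hp
      exact ⟨n, mem_adc.2 (Or.inl hn), e3, (h2 n hn).trans e4⟩
  | rr a _ _ ih ih' =>
    intro B nm h hΓ
    obtain ⟨m, hm, e1, e2⟩ := hΓ _ a
    simp only at e1 e2
    subst e1 e2
    refine .rr B m _ hm (ih _ _ (nm_root _) ?_) (ih' _ nm (h.ad _ (h.c m hm)) (hΓ.new h _ _))
    simp [Cov, root, fm_none]

theorem acc_iff (φ : Fm) : Acc φ ↔ Ac φ :=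
  ⟨fun h => cl_of h 0 _ _ (nm_root _) (by simp [root, fm_none]),
    fun h => closes_of h _ _ (nm_root _) (by simp [Cov, root, fm_none])⟩

/-! ### The covering invariant -/

structure Dv {G : Type} [SemilatticeSup G] [OrderTop G] (k : ℕ) (D : Set Id → G → Prop) :
    Prop where
  up : ∀ {S x y}, D S x → x ≤ y → D S y
  un : ∀ {S S' x y}, D S x → D S' y → D (S ∪ S') (x ⊔ y)
  bal : ∀ {S x}, D S x → Bal S → x = ⊤
  fr : ∀ {S x}, D S x → ∀ s ∈ S, s.1 < k

lemma dv0 {G : Type} [SemilatticeSup G] [OrderTop G] :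
    Dv 0 fun S (x : G) => S = ∅ ∧ x = ⊤ := by
  refine ⟨?_, ?_, fun h _ => h.2, ?_⟩
  · rintro S x y ⟨rfl, rfl⟩ h
    exact ⟨rfl, top_le_iff.1 h⟩
  · rintro S S' x y ⟨rfl, rfl⟩ ⟨rfl, rfl⟩
    simp
  · rintro S x ⟨rfl, -⟩
    simp

lemma Dv.cc {G : Type} [SemilatticeSup G] [OrderTop G] {k : ℕ} {D : Set Id → G → Prop}
    (h : Dv k D) {S : Set Id} {x y z : G} (hx : D S x) (hl : x ≤ y ⊔ z) :
    ∃ D', Dv (k + 1) D' ∧ (∀ U u, D U u → D' U u) ∧ D' (insert (k, true) S) y ∧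
      D' (insert (k, false) S) z := by
  let rm : Set Id → Set Id := fun U => {s ∈ U | s.1 ≠ k}
  have rmu : ∀ U U', rm (U ∪ U') = rm U ∪ rm U' := fun U U' => by
    ext s
    simp only [rm, Set.mem_union, Set.mem_setOf_eq, or_and_right]
  have rm0 : ∀ U u, D U u → rm U = U := fun U u a => by
    ext s
    exact ⟨fun b => b.1, fun b => ⟨b, (h.fr a s b).ne⟩⟩
  have rm1 : ∀ b, rm (insert (k, b) S) = S := fun b => by
    ext s
    simp only [rm, Set.mem_insert_iff, Set.mem_setOf_eq]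
    constructor
    · rintro ⟨rfl | a, c⟩
      · exact absurd rfl c
      · exact a
    · exact fun a => ⟨Or.inr a, (h.fr hx s a).ne⟩
  have nk : ∀ b, (k, b) ∉ S := fun b a => absurd (h.fr hx _ a) (lt_irrefl _)
  refine ⟨fun U u => (∀ s ∈ U, s.1 < k + 1) ∧ ((k, true) ∈ U → y ≤ u) ∧
    ((k, false) ∈ U → z ≤ u) ∧
    (D (rm U) u ∨ (((k, true) ∈ U ∨ (k, false) ∈ U) ∧ D (rm U) (u ⊔ x))),
    ⟨?_, ?_, ?_, fun a => a.1⟩, ?_, ?_, ?_⟩
  · rintro U u u' ⟨a, b, c, d⟩ e
    refine ⟨a, fun f => (b f).trans e, fun f => (c f).trans e, ?_⟩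
    exact d.imp (fun g => h.up g e) fun g => ⟨g.1, h.up g.2 (sup_le_sup_right e _)⟩
  · rintro U U' u u' ⟨a, b, c, d⟩ ⟨a', b', c', d'⟩
    refine ⟨fun s hs => hs.elim (a s) (a' s),
      fun f => f.elim (fun g => (b g).trans le_sup_left) fun g => (b' g).trans le_sup_right,
      fun f => f.elim (fun g => (c g).trans le_sup_left) fun g => (c' g).trans le_sup_right, ?_⟩
    rw [rmu]
    rcases d with d | ⟨e, d⟩ <;> rcases d' with d' | ⟨e', d'⟩
    · exact Or.inl (h.un d d')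
    · exact Or.inr ⟨e'.imp Or.inr Or.inr, h.up (h.un d d') (by rw [sup_assoc])⟩
    · exact Or.inr ⟨e.imp Or.inl Or.inl, h.up (h.un d d') (by rw [sup_right_comm])⟩
    · exact Or.inr ⟨e.imp Or.inl Or.inl, h.up (h.un d d') (sup_sup_distrib_right u u' x).ge⟩
  · rintro U u ⟨-, b, c, d⟩ hb
    have hr : Bal (rm U) := fun j => by
      simp only [rm, Set.mem_setOf_eq, hb j]
    rcases d with d | ⟨e, d⟩
    · exact h.bal d hr
    · have e1 : (k, true) ∈ U := e.elim id (hb k).2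
      have := h.bal d hr
      rwa [sup_eq_left.2 (hl.trans (sup_le (b e1) (c ((hb k).1 e1))))] at this
  · intro U u a
    refine ⟨fun s hs => (h.fr a s hs).trans (Nat.lt_succ_self k),
      fun f => absurd (h.fr a _ f) (lt_irrefl _), fun f => absurd (h.fr a _ f) (lt_irrefl _), ?_⟩
    rw [rm0 U u a]
    exact Or.inl a
  · refine ⟨?_, fun _ => le_rfl, fun f => ?_, Or.inr ⟨Or.inl (Or.inl rfl), ?_⟩⟩
    · rintro s (rfl | hs)
      · simp
      · exact (h.fr hx s hs).trans (Nat.lt_succ_self k)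
    · simp [nk] at f
    · rw [rm1]
      exact h.up hx le_sup_right
  · refine ⟨?_, fun f => ?_, fun _ => le_rfl, Or.inr ⟨Or.inr (Or.inl rfl), ?_⟩⟩
    · rintro s (rfl | hs)
      · simp
      · exact (h.fr hx s hs).trans (Nat.lt_succ_self k)
    · simp [nk] at f
    · rw [rm1]
      exact h.up hx le_sup_right

/-! ### Semantics in the down-sets of a Boolean algebra -/

section sem
variable {G : Type} [BooleanAlgebra G] (v : ℕ → G → Prop)

def sat : G → Fm → Prop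
  | x, .atom p => v p x
  | x, .neg φ => ¬ sat xᶜ φ
  | x, .and φ ψ => sat x φ ∧ sat x ψ
  | x, .or φ ψ => sat x φ ∨ sat x ψ
  | x, .imp φ ψ => ∀ y, sat y φ → sat (x ⊔ y) ψ

variable (hv : ∀ p x y, x ≤ y → v p y → v p x)
include hv

lemma her (φ : Fm) : ∀ x y, x ≤ y → sat v y φ → sat v x φ := by
  induction φ with
  | atom p => exact hv p
  | neg φ ih => exact fun x y h a b => a (ih _ _ (compl_le_compl h) b)
  | and φ ψ ih ih' => exact fun x y h a => ⟨ih x y h a.1, ih' x y h a.2⟩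
  | or φ ψ ih ih' => exact fun x y h a => a.imp (ih x y h) (ih' x y h)
  | imp φ ψ _ ih' => exact fun x y h a z b => ih' _ _ (sup_le_sup_right h _) (a z b)

lemma sound {k : ℕ} {Γ : List (Fm × Set Id)} (h : Cl k Γ) : ∀ D : Set Id → G → Prop, Dv k D →
    (∀ p ∈ Γ, ∃ x, D p.2 x ∧ sat v x p.1) → False := by
  induction h with
  | crash a b c =>
    intro D hD hΓ
    obtain ⟨x, h1, h2⟩ := hΓ _ a
    obtain ⟨y, h3, h4⟩ := hΓ _ b
    refine h4 (her v hv _ _ _ ?_ h2)
    exact compl_le_iff_compl_le.1 (le_of_eq_of_le rfl (by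
      have := hD.bal (hD.un h1 h3) c
      exact (codisjoint_iff_compl_le_right.1 (codisjoint_iff.2 this))))
  | un a b _ ih =>
    intro D hD hΓ
    obtain ⟨x, h1, h2⟩ := hΓ _ a
    refine ih D hD (List.forall_mem_cons.2 ⟨⟨x, h1, ?_⟩, hΓ⟩)
    cases b with
    | dn => simpa [sat] using h2
    | a1 => exact h2.1
    | a2 => exact h2.2
    | o1 => exact fun c => h2 (Or.inl c)
    | o2 => exact fun c => h2 (Or.inr c)
  | fk a b _ _ ih ih' =>
    intro D hD hΓ
    obtain ⟨x, h1, h2⟩ := hΓ _ a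
    cases b with
    | or =>
      exact h2.elim (fun c => ih D hD (List.forall_mem_cons.2 ⟨⟨x, h1, c⟩, hΓ⟩))
        fun c => ih' D hD (List.forall_mem_cons.2 ⟨⟨x, h1, c⟩, hΓ⟩)
    | nand =>
      exact (not_and_or.1 h2).elim (fun c => ih D hD (List.forall_mem_cons.2 ⟨⟨x, h1, c⟩, hΓ⟩))
        fun c => ih' D hD (List.forall_mem_cons.2 ⟨⟨x, h1, c⟩, hΓ⟩)
  | mp a b _ ih =>
    intro D hD hΓ
    obtain ⟨x, h1, h2⟩ := hΓ _ a
    obtain ⟨y, h3, h4⟩ := hΓ _ b
    exact ih D hD (List.forall_mem_cons.2 ⟨⟨x ⊔ y, hD.un h1 h3, sup_comm x y ▸ h4 x h2⟩, hΓ⟩)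
  | cc a _ ih =>
    intro D hD hΓ
    obtain ⟨x, h1, h2⟩ := hΓ _ a
    simp only [sat, not_forall] at h2
    obtain ⟨y, h3, h4⟩ := h2
    obtain ⟨D', d1, d2, d3, d4⟩ := hD.cc h1 (y := y) (z := (xᶜ ⊔ y)ᶜ) (by simp [sup_inf_left])
    refine ih D' d1 (List.forall_mem_cons.2 ⟨⟨y, d3, h3⟩, List.forall_mem_cons.2
      ⟨⟨_, d4, by simpa only [sat, compl_compl] using h4⟩, fun p hp => ?_⟩⟩)
    obtain ⟨u, a1, a2⟩ := hΓ p hp
    exact ⟨u, d2 _ _ a1, a2⟩
  | rr a _ _ ih ih' =>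
    intro D hD hΓ
    obtain ⟨x, h1, h2⟩ := hΓ _ a
    refine ih _ dv0 (List.forall_mem_singleton.2 ⟨⊤, ⟨rfl, rfl⟩, fun c => ?_⟩)
    exact ih' D hD (List.forall_mem_cons.2 ⟨⟨x, h1, by simpa using c x h2⟩, hΓ⟩)

lemma sat_of_ac {φ : Fm} (h : Ac φ) : sat v ⊥ φ := by_contra fun c =>
  sound v hv h _ dv0 (List.forall_mem_singleton.2 ⟨⊤, ⟨rfl, rfl⟩, by simpa [sat] using c⟩)

end sem

lemma sat_pt (v : ℕ → Set Bool → Prop) (i : Bool) (φ : Fm)
    (h : ∀ p ∈ φ.vars, ∀ x, v p x ↔ i ∉ x) : ∀ x, sat v x φ ↔ i ∉ x := by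
  induction φ with
  | atom p => exact h p (by simp [Fm.vars])
  | neg φ ih => exact fun x => by simp [sat, ih h]
  | and φ ψ ih ih' =>
    intro x
    simp [sat, ih fun p hp => h p (by simp [Fm.vars, hp]),
      ih' fun p hp => h p (by simp [Fm.vars, hp])]
  | or φ ψ ih ih' =>
    intro x
    simp [sat, ih fun p hp => h p (by simp [Fm.vars, hp]),
      ih' fun p hp => h p (by simp [Fm.vars, hp])]
  | imp φ ψ ih ih' =>
    intro x
    simp only [sat, ih fun p hp => h p (by simp [Fm.vars, hp]),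
      ih' fun p hp => h p (by simp [Fm.vars, hp])]
    exact ⟨fun a b => a ∅ (by simp) (Or.inl b), fun a y b c => c.elim a b⟩

theorem share {φ ψ : Fm} (h : Acc (.imp φ ψ)) : ∃ p, p ∈ φ.vars ∧ p ∈ ψ.vars := by
  by_contra hn
  let v : ℕ → Set Bool → Prop := fun p x => (decide (p ∈ φ.vars)) ∉ x
  have h1 := sat_of_ac v (fun p x y a b c => b (Set.mem_of_subset_of_mem a c)) ((acc_iff _).1 h) {false}
    ((sat_pt v true φ (fun p hp x => by simp [v, hp]) _).2 (by simp))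
  refine (sat_pt v false ψ (fun p hp x => ?_) _).1 h1 (by simp)
  have : p ∉ φ.vars := fun a => hn ⟨p, a, hp⟩
  simp [v, this]

end LeadTT
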